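import Mathlib

/-!
JB*-algebras: power associativity, and every element is a linear combination of squares.
-/

open Topology

namespace Pool.Agent.V11110.JBStar

/-- A JB*-algebra: a complex Jordan-Banach algebra with commutative product, satisfying
`‖a * b‖ ≤ ‖a‖ * ‖b‖`, with an algebra involution `star` such that
`‖U_a (star a)‖ = ‖a‖ ^ 3` for all `a`, where `U_a b = 2 ((a * b) * a) - (a * a) * b`. -/
class JBStarAlgebra (A : Type*) extends NormedAddCommGroup A, NonUnitalNonAssocCommRing A,
    NormedSpace ℂ A, StarRing A, StarModule ℂ A, CompleteSpace A, IsCommJordan A,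
    IsScalarTower ℂ A A, SMulCommClass ℂ A A where
  norm_mul_le : ∀ a b : A, ‖a * b‖ ≤ ‖a‖ * ‖b‖
  norm_U_star : ∀ a : A, ‖(2 : ℂ) • ((a * star a) * a) - (a * a) * star a‖ = ‖a‖ ^ 3

section jordan

variable {A : Type*} [JBStarAlgebra A]


attribute [local instance 100] LieRing.ofAssociativeRing

/-- The linearised Jordan identity. -/
lemma lin (x z w y : A) :
    x * ((z * w) * y) - (z * w) * (x * y) + (z * ((w * x) * y) - (w * x) * (z * y)) +
      (w * ((x * z) * y) - (x * z) * (w * y)) = 0 := by
  have h := two_nsmul_lie_lmul_lmul_add_add_eq_zero x z w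
  have h2 := congrArg (fun T : AddMonoid.End A => T y) h
  simp only [Ring.lie_def] at h2
  have h3 : (2 : ℕ) • (x * ((z * w) * y) - (z * w) * (x * y) +
      (z * ((w * x) * y) - (w * x) * (z * y)) +
      (w * ((x * z) * y) - (x * z) * (w * y))) = 0 := h2
  have h4 : (2 : ℂ) • (x * ((z * w) * y) - (z * w) * (x * y) +
      (z * ((w * x) * y) - (w * x) * (z * y)) +
      (w * ((x * z) * y) - (x * z) * (w * y))) = 0 := by
    rw [← h3, two_smul, two_smul]
  exact (smul_eq_zero.1 h4).resolve_left two_ne_zero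

/-- `b² (x y) = x (b² y) + 2 b ((b x) y) - 2 (b x) (b y)`. -/
lemma sq_mul (b x y : A) :
    (b * b) * (x * y) = x * ((b * b) * y) + (2 : ℂ) • (b * ((b * x) * y)) -
      (2 : ℂ) • ((b * x) * (b * y)) := by
  have h := lin x b b y
  rw [mul_comm x b] at h
  rw [two_smul, two_smul]
  rw [← sub_eq_zero]
  rw [← neg_eq_zero, ← h]
  abel

/-- The powers `a ^ (n + 1)`. -/
def pw (a : A) : ℕ → A
  | 0 => a
  | n + 1 => a * pw a n

@[simp] lemma pw_zero (a : A) : pw a 0 = a := rfl
lemma pw_succ (a : A) (n : ℕ) : pw a (n + 1) = a * pw a n := rfl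

lemma pw_rec (a : A) (n : ℕ) (w : A) :
    pw a (n + 2) * w = (pw a (n + 1) * (a * w) + pw a (n + 1) * (a * w)) +
      (a * a) * (pw a n * w) - pw a n * (a * (a * w)) - a * (a * (pw a n * w)) := by
  have h' := lin (pw a n) a w a
  have e1 : pw a (n + 2) = a * (a * pw a n) := rfl
  have e2 : pw a (n + 1) = a * pw a n := rfl
  rw [e1, e2]
  generalize pw a n = P at *
  rw [← sub_eq_zero, ← h']
  simp only [mul_comm]
  abel

lemma comm_pw (a : A) (T : A →+ A) (h1 : ∀ w, T (a * w) = a * T w)
    (h2 : ∀ w, T ((a * a) * w) = (a * a) * T w) (n : ℕ) :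
    ∀ w, T (pw a n * w) = pw a n * T w := by
  induction n using Nat.strong_induction_on with
  | _ n ih =>
    match n with
    | 0 => exact h1
    | 1 => exact h2
    | n + 2 =>
      intro w
      have i1 := ih (n + 1) (by omega)
      have i0 := ih n (by omega)
      simp only [pw_rec, map_sub, map_add, i1, i0, h1, h2]

lemma jordan_id (a w : A) : a * ((a * a) * w) = (a * a) * (a * w) := by
  have h := IsCommJordan.lmul_comm_rmul_rmul a w
  rw [mul_comm (a * a) (a * w), h, mul_comm w (a * a)]

lemma comm_a (a : A) (n : ℕ) (w : A) : a * (pw a n * w) = pw a n * (a * w) :=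
  comm_pw a (AddMonoid.End.mulLeft a) (fun _ => rfl) (fun w => jordan_id a w) n w

lemma comm_sq (a : A) (n : ℕ) (w : A) : (a * a) * (pw a n * w) = pw a n * ((a * a) * w) :=
  comm_pw a (AddMonoid.End.mulLeft (a * a)) (fun w => (jordan_id a w).symm) (fun _ => rfl) n w

lemma comm_pp (a : A) (m n : ℕ) (w : A) :
    pw a m * (pw a n * w) = pw a n * (pw a m * w) :=
  comm_pw a (AddMonoid.End.mulLeft (pw a m)) (fun w => (comm_a a m w).symm)
    (fun w => (comm_sq a m w).symm) n w

lemma pw_mul (a : A) (m n : ℕ) : pw a m * pw a n = pw a (m + n + 1) := by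
  induction m with
  | zero => rw [Nat.zero_add]; rfl
  | succ m ih =>
    rw [pw_succ, mul_comm, ← comm_a, mul_comm (pw a n), ih]
    have : m + 1 + n + 1 = (m + n + 1) + 1 := by ring
    rw [this]; rfl

lemma pw_assoc (a : A) (i j k : ℕ) :
    (pw a i * pw a j) * pw a k = pw a i * (pw a j * pw a k) := by
  rw [pw_mul, pw_mul, pw_mul, pw_mul]
  congr 1
  ring

/-- The product as a continuous bilinear map. -/
noncomputable def mulL : A →L[ℂ] A →L[ℂ] A :=
  (LinearMap.mul ℂ A).mkContinuous₂ 1 fun x y => by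
    rw [one_mul]; exact JBStarAlgebra.norm_mul_le x y

instance : ContinuousMul A := ⟨(mulL (A := A)).continuous₂⟩

lemma norm_le_three (x : A) : ‖x‖ ≤ 3 * ‖star x‖ := by
  by_cases hx : x = 0
  · rw [hx, norm_zero]; positivity
  have h := JBStarAlgebra.norm_U_star x
  have h0 : 0 < ‖x‖ := norm_pos_iff.2 hx
  have h1 : ‖(2 : ℂ) • ((x * star x) * x) - (x * x) * star x‖ ≤ 3 * ‖x‖ ^ 2 * ‖star x‖ := by
    refine (norm_sub_le _ _).trans ?_
    have e1 : ‖(2 : ℂ) • ((x * star x) * x)‖ ≤ 2 * (‖x‖ * ‖star x‖ * ‖x‖) := by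
      rw [norm_smul]
      have : ‖(2 : ℂ)‖ = 2 := by simp
      rw [this]
      refine mul_le_mul_of_nonneg_left ?_ (by norm_num)
      refine (JBStarAlgebra.norm_mul_le _ _).trans ?_
      exact mul_le_mul_of_nonneg_right (JBStarAlgebra.norm_mul_le _ _) (norm_nonneg _)
    have e2 : ‖(x * x) * star x‖ ≤ ‖x‖ * ‖x‖ * ‖star x‖ := by
      refine (JBStarAlgebra.norm_mul_le _ _).trans ?_
      exact mul_le_mul_of_nonneg_right (JBStarAlgebra.norm_mul_le _ _) (norm_nonneg _)
    nlinarith
  rw [h] at h1
  have h2 : ‖x‖ ^ 2 * ‖x‖ ≤ ‖x‖ ^ 2 * (3 * ‖star x‖) := by nlinarith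
  exact le_of_mul_le_mul_left h2 (by positivity)

instance : ContinuousStar A := ⟨by
  have h : ∀ x : A, ‖star x‖ ≤ 3 * ‖x‖ := fun x => by
    have := norm_le_three (star x)
    rwa [star_star] at this
  exact AddMonoidHomClass.continuous_of_bound (starAddEquiv (R := A)) 3 h⟩

/-- The linear span of the powers of `a`. -/
def S (a : A) : Submodule ℂ A := Submodule.span ℂ (Set.range (pw a))

/-- The closed subalgebra generated by `a`. -/
def C (a : A) : Submodule ℂ A := (S a).topologicalClosure

lemma isClosed_C (a : A) : IsClosed (C a : Set A) := (S a).isClosed_topologicalClosure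
lemma S_le_C (a : A) : S a ≤ C a := (S a).le_topologicalClosure
lemma mem_C (a : A) : a ∈ C a := S_le_C a (Submodule.subset_span ⟨0, rfl⟩)

/-- Induction for the closed subalgebra generated by `a`. -/
lemma C_induction {a : A} {p : A → Prop} (hp : IsClosed {x | p x}) (h0 : ∀ n, p (pw a n))
    (hz : p 0) (hadd : ∀ x y, p x → p y → p (x + y)) (hsmul : ∀ (c : ℂ) x, p x → p (c • x))
    {x : A} (hx : x ∈ C a) : p x := by
  have h1 : (S a : Set A) ⊆ {x | p x} := by
    intro x hx
    induction hx using Submodule.span_induction with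
    | mem x hx => obtain ⟨n, rfl⟩ := hx; exact h0 n
    | zero => exact hz
    | add x y _ _ hx hy => exact hadd x y hx hy
    | smul c x _ hx => exact hsmul c x hx
  exact closure_minimal h1 hp hx

lemma C_mul {a x y : A} (hx : x ∈ C a) (hy : y ∈ C a) : x * y ∈ C a := by
  have h1 : ∀ n, ∀ z ∈ C a, pw a n * z ∈ C a := by
    intro n z hz
    refine C_induction (p := fun z => pw a n * z ∈ C a) ?_ ?_ ?_ ?_ ?_ hz
    · exact (isClosed_C a).preimage (continuous_const.mul continuous_id)
    · intro m
      rw [pw_mul]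
      exact S_le_C a (Submodule.subset_span ⟨_, rfl⟩)
    · rw [mul_zero]; exact zero_mem _
    · intro x y hx hy; rw [mul_add]; exact add_mem hx hy
    · intro c x hx; rw [mul_smul_comm]; exact (C a).smul_mem c hx
  refine C_induction (p := fun x => x * y ∈ C a) ?_ (fun n => h1 n y hy) ?_ ?_ ?_ hx
  · exact (isClosed_C a).preimage (continuous_id.mul continuous_const)
  · rw [zero_mul]; exact zero_mem _
  · intro x z hx hz; rw [add_mul]; exact add_mem hx hz
  · intro c x hx; rw [smul_mul_assoc]; exact (C a).smul_mem c hx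

lemma C_assoc {a x y z : A} (hx : x ∈ C a) (hy : y ∈ C a) (hz : z ∈ C a) :
    (x * y) * z = x * (y * z) := by
  have h1 : ∀ i j, ∀ z ∈ C a, (pw a i * pw a j) * z = pw a i * (pw a j * z) := by
    intro i j z hz
    refine C_induction (p := fun z => (pw a i * pw a j) * z = pw a i * (pw a j * z))
      ?_ ?_ ?_ ?_ ?_ hz
    · exact isClosed_eq (by fun_prop) (by fun_prop)
    · exact pw_assoc a i j
    · simp
    · intro x y hx hy; simp only [mul_add, hx, hy]
    · intro c x hx; simp only [mul_smul_comm, hx]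
  have h2 : ∀ i, ∀ y ∈ C a, ∀ z ∈ C a, (pw a i * y) * z = pw a i * (y * z) := by
    intro i y hy z hz
    refine C_induction (p := fun y => (pw a i * y) * z = pw a i * (y * z))
      ?_ (fun j => h1 i j z hz) ?_ ?_ ?_ hy
    · exact isClosed_eq (by fun_prop) (by fun_prop)
    · simp
    · intro x y hx hy; simp only [mul_add, add_mul, hx, hy]
    · intro c x hx; simp only [mul_smul_comm, smul_mul_assoc, hx]
  refine C_induction (p := fun x => (x * y) * z = x * (y * z))
    ?_ (fun i => h2 i y hy z hz) ?_ ?_ ?_ hx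
  · exact isClosed_eq (by fun_prop) (by fun_prop)
  · simp
  · intro x y hx hy; simp only [add_mul, hx, hy]
  · intro c x hx; simp only [smul_mul_assoc, hx]

lemma star_pw {a : A} (ha : star a = a) (n : ℕ) : star (pw a n) = pw a n := by
  induction n with
  | zero => exact ha
  | succ n ih => rw [pw_succ, star_mul, ih, ha, mul_comm]

lemma C_star {a x : A} (ha : star a = a) (hx : x ∈ C a) : star x ∈ C a := by
  refine C_induction (p := fun x => star x ∈ C a) ?_ ?_ ?_ ?_ ?_ hx
  · exact (isClosed_C a).preimage continuous_star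
  · intro n
    rw [star_pw ha]
    exact S_le_C a (Submodule.subset_span ⟨n, rfl⟩)
  · rw [star_zero]; exact zero_mem _
  · intro x y hx hy; rw [star_add]; exact add_mem hx hy
  · intro c x hx; rw [star_smul]; exact (C a).smul_mem _ hx

/-- The closed subalgebra generated by the selfadjoint element `s`, as a type. -/
def CA (s : {a : A // star a = a}) : Type _ := ↥(C s.1)

variable (s : {a : A // star a = a})

noncomputable instance : NormedAddCommGroup (CA s) :=
  inferInstanceAs (NormedAddCommGroup (C s.1))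
noncomputable instance : NormedSpace ℂ (CA s) := inferInstanceAs (NormedSpace ℂ (C s.1))
instance : CompleteSpace (CA s) := by
  have : CompleteSpace (C s.1) := (isClosed_C s.1).completeSpace_coe
  exact this

/-- The inclusion. -/
def inc : CA s →ₗ[ℂ] A := (C s.1).subtype

variable {s}

lemma inc_inj {x y : CA s} (h : inc s x = inc s y) : x = y := Subtype.ext h

noncomputable instance : Mul (CA s) := ⟨fun x y => ⟨inc s x * inc s y, C_mul x.2 y.2⟩⟩
noncomputable instance : Star (CA s) := ⟨fun x => ⟨star (inc s x), C_star s.2 x.2⟩⟩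

lemma inc_mul (x y : CA s) : inc s (x * y) = inc s x * inc s y := rfl
lemma inc_star (x : CA s) : inc s (star x) = star (inc s x) := rfl
lemma inc_norm (x : CA s) : ‖inc s x‖ = ‖x‖ := rfl

lemma inc_assoc (x y z : CA s) :
    (inc s x * inc s y) * inc s z = inc s x * (inc s y * inc s z) :=
  C_assoc x.2 y.2 z.2

lemma norm_cube (x : CA s) : ‖(inc s x * star (inc s x)) * inc s x‖ = ‖inc s x‖ ^ 3 := by
  have h := JBStarAlgebra.norm_U_star (inc s x)
  have h1 : (inc s x * inc s x) * star (inc s x) = (inc s x * star (inc s x)) * inc s x := by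
    have h2 := inc_assoc x (star x) x
    have h3 := inc_assoc x x (star x)
    rw [inc_star] at h2 h3
    rw [h2, h3, mul_comm (star (inc s x))]
  rw [h1, two_smul, add_sub_cancel_right] at h
  exact h

noncomputable instance : NonUnitalCommCStarAlgebra (CA s) where
  __ := (inferInstance : NormedAddCommGroup (CA s))
  __ := (inferInstance : NormedSpace ℂ (CA s))
  __ := (inferInstance : CompleteSpace (CA s))
  mul := (· * ·)
  star := star
  left_distrib x y z := inc_inj (by
    show inc s x * inc s (y + z) = inc s (x * y + x * z)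
    rw [map_add, map_add, mul_add]; rfl)
  right_distrib x y z := inc_inj (by
    show inc s (x + y) * inc s z = inc s (x * z + y * z)
    rw [map_add, map_add, add_mul]; rfl)
  zero_mul x := inc_inj (by
    show inc s 0 * inc s x = inc s 0
    rw [map_zero, zero_mul])
  mul_zero x := inc_inj (by
    show inc s x * inc s 0 = inc s 0
    rw [map_zero, mul_zero])
  mul_assoc x y z := inc_inj (inc_assoc x y z)
  mul_comm x y := inc_inj (mul_comm (inc s x) (inc s y))
  norm_mul_le x y := JBStarAlgebra.norm_mul_le (inc s x) (inc s y)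
  star_involutive x := inc_inj (star_star (inc s x))
  star_mul x y := inc_inj (star_mul (inc s x) (inc s y))
  star_add x y := inc_inj (star_add (inc s x) (inc s y))
  star_smul c x := inc_inj (star_smul c (inc s x))
  smul_assoc c x y := inc_inj (smul_mul_assoc c (inc s x) (inc s y))
  smul_comm c x y := inc_inj (mul_smul_comm c (inc s x) (inc s y)).symm
  norm_mul_self_le x := by
    show ‖inc s x‖ * ‖inc s x‖ ≤ ‖star (inc s x) * inc s x‖
    by_cases hx : inc s x = 0
    · rw [hx, norm_zero, zero_mul]; positivity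
    have h0 : 0 < ‖inc s x‖ := norm_pos_iff.2 hx
    have h1 := norm_cube x
    have h2 := JBStarAlgebra.norm_mul_le (inc s x * star (inc s x)) (inc s x)
    rw [h1, mul_comm (inc s x) (star (inc s x))] at h2
    have h3 : ‖inc s x‖ * ‖inc s x‖ * ‖inc s x‖ ≤ ‖star (inc s x) * inc s x‖ * ‖inc s x‖ := by
      nlinarith
    exact le_of_mul_le_mul_right h3 h0

/-- A selfadjoint element is a difference of two squares. -/
lemma selfAdjoint_eq {a : A} (ha : star a = a) : ∃ b c : A, a = b * b - c * c := by
  let s : {a : A // star a = a} := ⟨a, ha⟩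
  let a' : CA s := ⟨a, mem_C a⟩
  have hsa : IsSelfAdjoint a' := inc_inj ha
  let _ : PartialOrder (CA s) := CStarAlgebra.spectralOrder _
  have : StarOrderedRing (CA s) := CStarAlgebra.spectralOrderedRing _
  have h1 : a'⁺ - a'⁻ = a' := CFC.posPart_sub_negPart a' hsa
  have h2 : CFC.sqrt a'⁺ * CFC.sqrt a'⁺ = a'⁺ :=
    CFC.sqrt_mul_sqrt_self _ (CFC.posPart_nonneg a')
  have h3 : CFC.sqrt a'⁻ * CFC.sqrt a'⁻ = a'⁻ :=
    CFC.sqrt_mul_sqrt_self _ (CFC.negPart_nonneg a')
  refine ⟨inc s (CFC.sqrt a'⁺), inc s (CFC.sqrt a'⁻), ?_⟩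
  rw [← inc_mul, ← inc_mul, h2, h3, ← map_sub, h1]
  rfl

/-- Every element is a linear combination of squares. -/
lemma mem_span_sq (a : A) : a ∈ Submodule.span ℂ {x : A | ∃ b : A, x = b * b} := by
  have hsa : ∀ x : A, star x = x → x ∈ Submodule.span ℂ {x : A | ∃ b : A, x = b * b} := by
    intro x hx
    obtain ⟨b, c, rfl⟩ := selfAdjoint_eq hx
    exact sub_mem (Submodule.subset_span ⟨b, rfl⟩) (Submodule.subset_span ⟨c, rfl⟩)
  have h1 : star (a + star a) = a + star a := by rw [star_add, star_star, add_comm]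
  have h2 : star (Complex.I • (a - star a)) = Complex.I • (a - star a) := by
    rw [star_smul, star_sub, star_star, Complex.star_def, Complex.conj_I, neg_smul, ← smul_neg,
      neg_sub]
  have h3 : a = (1 / 2 : ℂ) • (a + star a) +
      (-(Complex.I) / 2 : ℂ) • (Complex.I • (a - star a)) := by
    rw [smul_smul]
    have : -Complex.I / 2 * Complex.I = 1 / 2 := by
      rw [div_mul_eq_mul_div, neg_mul, Complex.I_mul_I, neg_neg]
    rw [this, ← smul_add]
    have h4 : a + star a + (a - star a) = (2 : ℂ) • a := by rw [two_smul]; abel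
    rw [h4, smul_smul]
    norm_num
  rw [h3]
  exact add_mem (Submodule.smul_mem _ _ (hsa _ h1)) (Submodule.smul_mem _ _ (hsa _ h2))

end jordan

/-! ### Multipliers -/

section mult

variable (A B : Type*) [JBStarAlgebra A] [JBStarAlgebra B]

/-- `A` is embedded in the JB*-algebra `B` as a JB*-subalgebra: an isometric Jordan
*-homomorphism `j : A → B`.  The main case is the canonical embedding of `A` into its bidual
`B = A**`. -/
structure Embedding where
  /-- the embedding -/
  j : A →ₗ[ℂ] B
  map_mul : ∀ a b : A, j (a * b) = j a * j b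
  map_star : ∀ a : A, j (star a) = star (j a)
  norm_map : ∀ a : A, ‖j a‖ = ‖a‖

variable {A B}

/-- The multiplier algebra `M(A) = {x ∈ B : x A ⊆ A}`. -/
def Mult (E : Embedding A B) : Type _ := {x : B // ∀ a : A, ∃ a' : A, x * E.j a = E.j a'}

/-- The J-strict topology on `M(A)`, generated by the seminorms `x ↦ ‖a x‖` with `a ∈ A`: the
coarsest topology for which all the maps `x ↦ a x` to the normed space `B` are continuous. -/
instance jStrict (E : Embedding A B) : TopologicalSpace (Mult E) :=
  ⨅ a : A, TopologicalSpace.induced (fun x : Mult E => E.j a * x.1) inferInstance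

variable {E : Embedding A B}

lemma mul_mem_aux (x y : Mult E) (a : A) : ∃ a' : A, (x.1 * y.1) * E.j a = E.j a' := by
  have hx : ∀ a, ∃ a', E.j a * x.1 = E.j a' := fun a => by
    obtain ⟨a', h⟩ := x.2 a; exact ⟨a', by rw [mul_comm, h]⟩
  have hy : ∀ a, ∃ a', E.j a * y.1 = E.j a' := fun a => by
    obtain ⟨a', h⟩ := y.2 a; exact ⟨a', by rw [mul_comm, h]⟩
  have ha := mem_span_sq a
  induction ha using Submodule.span_induction with
  | mem z hz =>
    obtain ⟨b, rfl⟩ := hz
    obtain ⟨c1, h1⟩ := hy (b * b)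
    obtain ⟨c2, h2⟩ := x.2 c1
    obtain ⟨c3, h3⟩ := hx b
    obtain ⟨c4, h4⟩ := hy c3
    obtain ⟨c5, h5⟩ := hy b
    refine ⟨c2 + (2 : ℂ) • (b * c4) - (2 : ℂ) • (c3 * c5), ?_⟩
    rw [E.map_mul] at h1
    rw [E.map_mul, mul_comm, sq_mul, h1, h2, h3, h4, h5, map_sub, map_add, map_smul, map_smul,
      E.map_mul, E.map_mul]
  | zero => exact ⟨0, by simp⟩
  | add u v _ _ hu hv =>
    obtain ⟨u', hu⟩ := hu
    obtain ⟨v', hv⟩ := hv
    exact ⟨u' + v', by rw [map_add, mul_add, hu, hv, map_add]⟩
  | smul c u _ hu =>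
    obtain ⟨u', hu⟩ := hu
    exact ⟨c • u', by rw [map_smul, mul_smul_comm, hu, map_smul]⟩

/-- The Jordan product of `M(A)`. -/
instance : Mul (Mult E) := ⟨fun x y => ⟨x.1 * y.1, mul_mem_aux x y⟩⟩

lemma coe_mul (x y : Mult E) : (x * y).1 = x.1 * y.1 := rfl

lemma exists_left (x : Mult E) (a : A) : ∃ a' : A, E.j a * x.1 = E.j a' := by
  obtain ⟨a', h⟩ := x.2 a
  exact ⟨a', by rw [mul_comm, h]⟩

lemma continuous_left (a : A) : Continuous (fun x : Mult E => E.j a * x.1) :=
  continuous_iInf_dom (i := a) continuous_induced_dom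

lemma continuous_iff {X : Type*} [TopologicalSpace X] {f : X → Mult E} :
    Continuous f ↔ ∀ a : A, Continuous (fun x => E.j a * (f x).1) := by
  rw [continuous_iInf_rng]
  exact forall_congr' fun a => continuous_induced_rng

lemma tendsto_iff {X : Type*} {l : Filter X} {f : X → Mult E} {y : Mult E} :
    Filter.Tendsto f l (𝓝 y) ↔
      ∀ a : A, Filter.Tendsto (fun x => E.j a * (f x).1) l (𝓝 (E.j a * y.1)) := by
  rw [nhds_iInf, Filter.tendsto_iInf]
  refine forall_congr' fun a => ?_
  rw [nhds_induced, Filter.tendsto_comap_iff]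
  rfl

end mult

end Pool.Agent.V11110.JBStar
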