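import Mathlib

open MvPowerSeries Finset

namespace Pool.Agent.V11110.FrPS

/-- `E u = ∏ (1 + X i) ^ u i`. -/
noncomputable def E (u : ℕ →₀ ℕ) : MvPolynomial ℕ ℂ :=
  u.prod fun i k => (1 + MvPolynomial.X i) ^ k

/-- product of the binomial coefficients `binom (u i) (r i)` -/
noncomputable def B (u r : ℕ →₀ ℕ) : ℂ := (E u).coeff r

theorem E_add (u v : ℕ →₀ ℕ) : E (u + v) = E u * E v := by
  unfold E
  exact Finsupp.prod_add_index' (fun i => by simp) (fun i a b => by rw [pow_add])

theorem E_single (i : ℕ) : E (Finsupp.single i 1) = 1 + MvPolynomial.X i := by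
  unfold E
  rw [Finsupp.prod_single_index (by simp)]
  simp

theorem B_vander (u v r : ℕ →₀ ℕ) :
    B (u + v) r = ∑ p ∈ antidiagonal r, B u p.1 * B v p.2 := by
  unfold B
  rw [E_add, MvPolynomial.coeff_mul]

theorem B_zero_left (r : ℕ →₀ ℕ) : B 0 r = if r = 0 then 1 else 0 := by
  unfold B E
  rw [Finsupp.prod_zero_index, MvPolynomial.coeff_one]
  simp [eq_comm]

theorem B_step (u r : ℕ →₀ ℕ) (i : ℕ) :
    B (u + Finsupp.single i 1) r
      = B u r + if i ∈ r.support then B u (r - Finsupp.single i 1) else 0 := by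
  unfold B
  rw [E_add, E_single, mul_add, mul_one, MvPolynomial.coeff_add, MvPolynomial.coeff_mul_X']

theorem ind (P : (ℕ →₀ ℕ) → Prop) (h0 : P 0)
    (h1 : ∀ u i, P u → P (u + Finsupp.single i 1)) (u : ℕ →₀ ℕ) : P u := by
  have key : ∀ m : Multiset ℕ, P (Multiset.toFinsupp m) := by
    intro m
    induction m using Multiset.induction_on with
    | empty => simpa using h0
    | cons a m ih =>
      have : Multiset.toFinsupp (a ::ₘ m) = Multiset.toFinsupp m + Finsupp.single a 1 := by
        rw [← Multiset.singleton_add, map_add, Multiset.toFinsupp_singleton, add_comm]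
      rw [this]
      exact h1 _ _ ih
  have := key (Finsupp.toMultiset u)
  simpa using this

theorem B_of_not_le (u : ℕ →₀ ℕ) : ∀ r : ℕ →₀ ℕ, ¬ r ≤ u → B u r = 0 := by
  refine ind (fun u => ∀ r : ℕ →₀ ℕ, ¬ r ≤ u → B u r = 0) ?_ ?_ u
  · intro r hr
    rw [B_zero_left, if_neg]
    rintro rfl
    exact hr le_rfl
  · intro u i ih r hr
    rw [B_step, ih r (fun h => hr (h.trans (by simp))), zero_add]
    split_ifs with hi
    · apply ih
      intro h
      apply hr
      intro j
      have := h j
      simp only [Finsupp.coe_tsub, Pi.sub_apply, Finsupp.coe_add, Pi.add_apply] at this ⊢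
      omega
    · rfl

theorem B_self (u : ℕ →₀ ℕ) : B u u = 1 := by
  refine ind (fun u => B u u = 1) ?_ ?_ u
  · rw [B_zero_left, if_pos rfl]
  · intro u i ih
    rw [B_step, if_pos (by simp), add_tsub_cancel_right, ih, B_of_not_le, zero_add]
    intro h
    have := h i
    simp at this

theorem B_right_zero (u : ℕ →₀ ℕ) : B u 0 = 1 := by
  refine ind (fun u => B u 0 = 1) ?_ ?_ u
  · rw [B_zero_left, if_pos rfl]
  · intro u i ih
    rw [B_step, if_neg (by simp), ih, add_zero]

/-- the ring of power series in countably many variables -/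
abbrev F := MvPowerSeries ℕ ℂ

/-- Hasse derivative: the coefficient of `Y ^ r` in `f (X + Y)`. -/
noncomputable def T (r : ℕ →₀ ℕ) : F →ₗ[ℂ] F where
  toFun f := fun s => B (r + s) r * coeff (r + s) f
  map_add' f g := by
    funext s
    show B (r + s) r * coeff (r + s) (f + g) = B (r + s) r * coeff (r + s) f + B (r + s) r * coeff (r + s) g
    rw [map_add, mul_add]
  map_smul' c f := by
    funext s
    show B (r + s) r * coeff (r + s) (c • f) = c * (B (r + s) r * coeff (r + s) f)
    rw [coeff_smul]; ring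

theorem coeff_T (r s : ℕ →₀ ℕ) (f : F) : coeff s (T r f) = B (r + s) r * coeff (r + s) f := rfl

theorem T_mul (r : ℕ →₀ ℕ) (f g : F) :
    T r (f * g) = ∑ p ∈ antidiagonal r, T p.1 f * T p.2 g := by
  ext s
  rw [coeff_T, coeff_mul, map_sum]
  have h1 : ∀ p ∈ antidiagonal r, coeff s (T p.1 f * T p.2 g)
      = ∑ q ∈ antidiagonal (r + s), B q.1 p.1 * B q.2 p.2 * (coeff q.1 f * coeff q.2 g) := by
    intro p hp
    rw [coeff_mul]
    have hp' := HasAntidiagonal.mem_antidiagonal.mp hp
    apply Finset.sum_of_injOn (fun t => (p.1 + t.1, p.2 + t.2))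
    · intro a _ b _ hab
      simp only [Prod.mk.injEq, add_right_inj] at hab
      exact Prod.ext hab.1 hab.2
    · intro t ht
      have ht' := HasAntidiagonal.mem_antidiagonal.mp (Finset.mem_coe.mp ht)
      apply Finset.mem_coe.mpr
      rw [HasAntidiagonal.mem_antidiagonal]
      rw [← ht', ← hp']
      simp only
      abel
    · intro q hq hq2
      have hq' := HasAntidiagonal.mem_antidiagonal.mp hq
      by_cases h : p.1 ≤ q.1 ∧ p.2 ≤ q.2
      · exfalso
        apply hq2
        refine ⟨(q.1 - p.1, q.2 - p.2), ?_, ?_⟩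
        · apply Finset.mem_coe.mpr
          rw [HasAntidiagonal.mem_antidiagonal]
          ext j
          have e1 := DFunLike.congr_fun hq' j
          have e2 := DFunLike.congr_fun hp' j
          have e3 := h.1 j
          have e4 := h.2 j
          simp only [Finsupp.coe_add, Pi.add_apply, Finsupp.coe_tsub, Pi.sub_apply] at *
          omega
        · simp only
          exact Prod.ext (add_tsub_cancel_of_le h.1) (add_tsub_cancel_of_le h.2)
      · rw [not_and_or] at h
        rcases h with h | h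
        · rw [B_of_not_le _ _ h]; ring
        · rw [B_of_not_le _ _ h]; ring
    · intro t ht
      rw [coeff_T, coeff_T]
      ring
  rw [Finset.sum_congr rfl h1, Finset.sum_comm, Finset.mul_sum]
  apply Finset.sum_congr rfl
  intro q hq
  have hq' := HasAntidiagonal.mem_antidiagonal.mp hq
  rw [← Finset.sum_mul, ← B_vander, hq']



theorem antidiag_single (j : ℕ) :
    antidiagonal (Finsupp.single j 1 : ℕ →₀ ℕ)
      = {(0, Finsupp.single j 1), (Finsupp.single j 1, 0)} := by
  ext p
  rw [HasAntidiagonal.mem_antidiagonal]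
  simp only [Finset.mem_insert, Finset.mem_singleton]
  constructor
  · intro h
    have hj := DFunLike.congr_fun h j
    simp only [Finsupp.coe_add, Pi.add_apply, Finsupp.single_eq_same] at hj
    have hk : ∀ k, k ≠ j → p.1 k = 0 ∧ p.2 k = 0 := by
      intro k hk
      have := DFunLike.congr_fun h k
      simp only [Finsupp.coe_add, Pi.add_apply, Finsupp.single_apply, if_neg (Ne.symm hk)] at this
      omega
    rcases Nat.eq_zero_or_pos (p.1 j) with h0 | h0
    · left
      apply Prod.ext
      · ext k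
        rcases eq_or_ne k j with rfl | hkj
        · simpa using h0
        · simpa using (hk k hkj).1
      · ext k
        rcases eq_or_ne k j with rfl | hkj
        · simp; omega
        · rw [(hk k hkj).2, Finsupp.single_apply, if_neg (Ne.symm hkj)]
    · right
      apply Prod.ext
      · ext k
        rcases eq_or_ne k j with rfl | hkj
        · simp; omega
        · rw [(hk k hkj).1, Finsupp.single_apply, if_neg (Ne.symm hkj)]
      · ext k
        rcases eq_or_ne k j with rfl | hkj
        · simp; omega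
        · simpa using (hk k hkj).2
  · rintro (rfl | rfl) <;> simp

theorem single_one_ne_zero (j : ℕ) : (Finsupp.single j 1 : ℕ →₀ ℕ) ≠ 0 := by
  intro h
  have := DFunLike.congr_fun h j
  simp at this

theorem coeff_single_mul (j : ℕ) (u v : F) :
    coeff (Finsupp.single j 1) (u * v)
      = coeff 0 u * coeff (Finsupp.single j 1) v + coeff (Finsupp.single j 1) u * coeff 0 v := by
  rw [coeff_mul, antidiag_single, Finset.sum_pair]
  intro h
  exact single_one_ne_zero j (Prod.ext_iff.mp h).2

theorem T_zero (f : F) : T 0 f = f := by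
  ext s
  rw [coeff_T, B_right_zero, one_mul, zero_add]

theorem T_single_mul (i : ℕ) (u v : F) :
    T (Finsupp.single i 1) (u * v)
      = u * T (Finsupp.single i 1) v + T (Finsupp.single i 1) u * v := by
  rw [T_mul, antidiag_single, Finset.sum_pair, T_zero, T_zero]
  intro h
  exact single_one_ne_zero i (Prod.ext_iff.mp h).2

theorem coeff_zero_T (r : ℕ →₀ ℕ) (f : F) : coeff 0 (T r f) = coeff r f := by
  rw [coeff_T, add_zero, B_self, one_mul]

/-- the rows of the quadratic form of `h` -/
noncomputable def row (i : ℕ) : F →ₗ[ℂ] (ℕ → ℂ) where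
  toFun h := fun j => coeff (Finsupp.single j 1) (T (Finsupp.single i 1) h)
  map_add' f g := by funext j; simp
  map_smul' c f := by funext j; simp

theorem row_mul (i : ℕ) (f g : F) (hf : coeff 0 f = 0) (hg : coeff 0 g = 0) :
    row i (f * g) = (coeff (Finsupp.single i 1) g) • (fun j => coeff (Finsupp.single j 1) f)
      + (coeff (Finsupp.single i 1) f) • (fun j => coeff (Finsupp.single j 1) g) := by
  funext j
  show coeff (Finsupp.single j 1) (T (Finsupp.single i 1) (f * g)) = _
  rw [T_single_mul, map_add, coeff_single_mul, coeff_single_mul, hf, hg, coeff_zero_T, coeff_zero_T]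
  simp only [Pi.add_apply, Pi.smul_apply, smul_eq_mul]
  ring

open Classical in
/-- `∑ X i ^ 2` -/
noncomputable def q : F := fun r => if ∃ i, r = Finsupp.single i 2 then 1 else 0

theorem coeff_q_one (r : ℕ →₀ ℕ) (h : ∃ i, r = Finsupp.single i 2) : coeff r q = 1 := by
  classical
  show (if ∃ i, r = Finsupp.single i 2 then (1 : ℂ) else 0) = 1
  rw [if_pos h]

theorem coeff_q_zero (r : ℕ →₀ ℕ) (h : ¬ ∃ i, r = Finsupp.single i 2) : coeff r q = 0 := by
  classical
  show (if ∃ i, r = Finsupp.single i 2 then (1 : ℂ) else 0) = 0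
  rw [if_neg h]

theorem B_two (i : ℕ) : B (Finsupp.single i 1 + Finsupp.single i 1) (Finsupp.single i 1) = 2 := by
  rw [B_vander, antidiag_single, Finset.sum_pair, B_right_zero, B_self]
  · norm_num
  · intro h
    exact single_one_ne_zero i (Prod.ext_iff.mp h).2

theorem row_q (i : ℕ) : row i q = (2 : ℂ) • Pi.single i (1 : ℂ) := by
  funext j
  show coeff (Finsupp.single j 1) (T (Finsupp.single i 1) q) = _
  rw [coeff_T]
  rcases eq_or_ne j i with rfl | hij
  · rw [B_two]
    have : coeff (Finsupp.single j 1 + Finsupp.single j 1) q = 1 :=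
      coeff_q_one _ ⟨j, by rw [← Finsupp.single_add]⟩
    rw [this]
    simp
  · have : coeff (Finsupp.single i 1 + Finsupp.single j 1) q = 0 := by
      apply coeff_q_zero
      rintro ⟨k, hk⟩
      have e1 := DFunLike.congr_fun hk i
      have e2 := DFunLike.congr_fun hk j
      simp only [Finsupp.coe_add, Pi.add_apply, Finsupp.single_apply, if_neg hij, if_neg hij.symm] at e1 e2
      by_cases h1 : k = i
      · by_cases h2 : k = j
        · exact hij (h2.symm.trans h1)
        · simp [h1] at e1
      · simp [h1] at e1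
    rw [this]
    simp [hij]

/-- quadratic part of finite rank -/
def P (h : F) : Prop :=
  ∃ W : Submodule ℂ (ℕ → ℂ), FiniteDimensional ℂ W ∧ ∀ i, row i h ∈ W

theorem P_add {f g : F} (hf : P f) (hg : P g) : P (f + g) := by
  obtain ⟨W, hW, h1⟩ := hf
  obtain ⟨W', hW', h2⟩ := hg
  refine ⟨W ⊔ W', inferInstance, fun i => ?_⟩
  rw [map_add]
  exact Submodule.add_mem_sup (h1 i) (h2 i)

theorem P_smul (c : ℂ) {f : F} (hf : P f) : P (c • f) := by
  obtain ⟨W, hW, h1⟩ := hf
  refine ⟨W, hW, fun i => ?_⟩
  rw [map_smul]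
  exact W.smul_mem _ (h1 i)

theorem P_mul (f g : F) (hf : coeff 0 f = 0) (hg : coeff 0 g = 0) : P (f * g) := by
  refine ⟨Submodule.span ℂ {(fun j => coeff (Finsupp.single j 1) f : ℕ → ℂ),
    (fun j => coeff (Finsupp.single j 1) g : ℕ → ℂ)},
    FiniteDimensional.span_of_finite ℂ (by simp), fun i => ?_⟩
  rw [row_mul i f g hf hg]
  apply Submodule.add_mem
  · exact Submodule.smul_mem _ _ (Submodule.subset_span (by simp))
  · exact Submodule.smul_mem _ _ (Submodule.subset_span (by simp))

theorem P_of_row_zero (f : F) (h : ∀ i, row i f = 0) : P f :=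
  ⟨⊥, inferInstance, fun i => by rw [h i]; exact Submodule.zero_mem _⟩

theorem not_P_q : ¬ P q := by
  rintro ⟨W, hW, h⟩
  have h1 : ∀ i, (Pi.single i (1 : ℂ) : ℕ → ℂ) ∈ W := by
    intro i
    have h2 := W.smul_mem (2⁻¹ : ℂ) (h i)
    rw [row_q, smul_smul] at h2
    norm_num at h2
    exact h2
  set d := Module.finrank ℂ W
  let v : Fin (d + 1) → W := fun k => ⟨Pi.single (k : ℕ) 1, h1 k⟩
  have hv : LinearIndependent ℂ v := by
    apply LinearIndependent.of_comp W.subtype
    rw [Fintype.linearIndependent_iff]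
    intro c hc k
    have := congrFun hc (k : ℕ)
    simp only [Function.comp_apply, Submodule.coe_subtype, Finset.sum_apply, Pi.smul_apply,
      smul_eq_mul, Pi.zero_apply, v] at this
    rw [Finset.sum_eq_single k] at this
    · simpa using this
    · intro b _ hb
      rw [Pi.single_apply, if_neg, mul_zero]
      intro h
      exact hb (Fin.ext h.symm)
    · intro h
      exact absurd (Finset.mem_univ _) h
  have := hv.fintype_card_le_finrank
  rw [Fintype.card_fin] at this
  omega

theorem row_monomial_one (i k : ℕ) : row i (X k : F) = 0 := by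
  funext j
  show coeff (Finsupp.single j 1) (T (Finsupp.single i 1) (X k)) = _
  rw [coeff_T, coeff_X, if_neg, mul_zero]
  · rfl
  · intro h
    have e := congrArg (fun r : ℕ →₀ ℕ => r.sum fun _ n => n) h
    rw [Finsupp.sum_add_index' (by simp) (by simp), Finsupp.sum_single_index rfl,
      Finsupp.sum_single_index rfl, Finsupp.sum_single_index rfl] at e
    omega

theorem row_one (i : ℕ) : row i (1 : F) = 0 := by
  funext j
  show coeff (Finsupp.single j 1) (T (Finsupp.single i 1) 1) = _
  rw [coeff_T, coeff_one, if_neg, mul_zero]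
  · rfl
  · intro h
    have e := congrArg (fun r : ℕ →₀ ℕ => r.sum fun _ n => n) h
    rw [Finsupp.sum_add_index' (by simp) (by simp), Finsupp.sum_single_index rfl,
      Finsupp.sum_single_index rfl, Finsupp.sum_zero_index] at e
    omega

/-- a point derivation at the origin which does not vanish on `∑ X i ^ 2` -/
theorem exists_lam : ∃ lam : F →ₗ[ℂ] ℂ, lam 1 = 0 ∧ (∀ k, lam (X k) = 0) ∧ lam q = 1 ∧
    ∀ f g : F, lam (f * g) = coeff 0 f * lam g + coeff 0 g * lam f := by
  let S : Set F := {h | h = 1 ∨ (∃ k, h = X k) ∨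
    ∃ f g : F, coeff 0 f = 0 ∧ coeff 0 g = 0 ∧ h = f * g}
  have hS : q ∉ Submodule.span ℂ S := by
    intro h
    apply not_P_q
    have key : ∀ h ∈ Submodule.span ℂ S, P h := by
     intro h hh
     induction hh using Submodule.span_induction with
     | mem x hx =>
       rcases hx with rfl | ⟨k, rfl⟩ | ⟨f, g, hf, hg, rfl⟩
       · exact P_of_row_zero _ row_one
       · exact P_of_row_zero _ (fun i => row_monomial_one i k)
       · exact P_mul f g hf hg
     | zero => exact P_of_row_zero _ (fun i => map_zero _)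
     | add x y _ _ hx hy => exact P_add hx hy
     | smul c x _ hx => exact P_smul c hx
    exact key q h
  obtain ⟨l, hl, hl2⟩ := Submodule.exists_le_ker_of_notMem hS
  have hk : ∀ s ∈ S, l s = 0 := fun s hs => hl2 (Submodule.subset_span hs)
  have h1 : l 1 = 0 := hk 1 (Or.inl rfl)
  refine ⟨(l q)⁻¹ • l, ?_, ?_, ?_, ?_⟩
  · simp [h1]
  · intro k
    simp [hk _ (Or.inr (Or.inl ⟨k, rfl⟩))]
  · simp [inv_mul_cancel₀ hl]
  · intro f g
    have h2 : l ((f - C (coeff 0 f)) * (g - C (coeff 0 g))) = 0 := by
      apply hk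
      refine Or.inr (Or.inr ⟨_, _, ?_, ?_, rfl⟩)
      · simp
      · simp
    have h3 : f * g = (f - C (coeff 0 f)) * (g - C (coeff 0 g))
        + (coeff 0 f) • g + (coeff 0 g) • f - (coeff 0 f * coeff 0 g) • (1 : F) := by
      rw [smul_eq_C_mul, smul_eq_C_mul, smul_eq_C_mul, map_mul]
      ring
    have h4 : l (f * g) = coeff 0 f * l g + coeff 0 g * l f := by
      conv_lhs => rw [h3]
      rw [map_sub, map_add, map_add, h2, map_smul, map_smul, map_smul, h1]
      simp
    simp only [LinearMap.smul_apply, smul_eq_mul, h4]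
    ring

/-- a derivation that raises the order in the variable `X 0` -/
def Raise (D : Derivation ℂ F F) : Prop :=
  ∀ (f : F) (K : ℕ), (X 0 : F) ^ K ∣ f → (X 0 : F) ^ (K + 1) ∣ D f

theorem raise_iter {D : Derivation ℂ F F} (hD : Raise D) (f : F) (K : ℕ)
    (h : (X 0 : F) ^ K ∣ f) (n : ℕ) : (X 0 : F) ^ (K + n) ∣ D^[n] f := by
  induction n with
  | zero => simpa using h
  | succ n ih =>
    rw [Function.iterate_succ_apply']
    exact hD _ _ ih

theorem leib (D : Derivation ℂ F F) (f g : F) (n : ℕ) :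
    D^[n] (f * g) = ∑ ij ∈ antidiagonal n, n.choose ij.1 • (D^[ij.1] f * D^[ij.2] g) := by
  induction n with
  | zero => simp
  | succ n ih =>
    rw [sum_antidiagonal_choose_succ_nsmul (fun i j => D^[i] f * D^[j] g) n,
      Function.iterate_succ_apply', ih, map_sum, ← Finset.sum_add_distrib]
    apply Finset.sum_congr rfl
    intro ij hij
    rw [map_nsmul, Derivation.leibniz, Function.iterate_succ_apply', Function.iterate_succ_apply']
    have hc : n.choose ij.2 = n.choose ij.1 := by
      have := HasAntidiagonal.mem_antidiagonal.mp hij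
      rw [← this]
      exact (Nat.choose_symm_add).symm
    rw [hc, ← nsmul_add]
    congr 1
    simp only [smul_eq_mul]
    ring

/-- truncated exponential -/
noncomputable def Ex (D : Derivation ℂ F F) (c : ℂ) (K : ℕ) (f : F) : F :=
  ∑ k ∈ range K, (c ^ k / (k.factorial : ℂ)) • D^[k] f

/-- exponential of a derivation -/
noncomputable def th (D : Derivation ℂ F F) (c : ℂ) (f : F) : F :=
  fun r => coeff r (Ex D c (r 0 + 1) f)

theorem Ex_mono {D : Derivation ℂ F F} (hD : Raise D) (c : ℂ) (K L : ℕ) (h : K ≤ L) (f : F) :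
    (X 0 : F) ^ K ∣ Ex D c L f - Ex D c K f := by
  unfold Ex
  rw [← Finset.sum_sdiff (Finset.range_mono h), add_sub_cancel_right]
  apply Finset.dvd_sum
  intro k hk
  have hk2 : K ≤ k := by
    simp only [Finset.mem_sdiff, Finset.mem_range] at hk
    omega
  have h1 := raise_iter hD f 0 (by simp) k
  rw [zero_add] at h1
  rw [smul_eq_C_mul]
  exact Dvd.dvd.mul_left ((pow_dvd_pow _ hk2).trans h1) _

theorem th_sub {D : Derivation ℂ F F} (hD : Raise D) (c : ℂ) (K : ℕ) (f : F) :
    (X 0 : F) ^ K ∣ th D c f - Ex D c K f := by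
  rw [X_pow_dvd_iff]
  intro m hm
  have h1 : coeff m (th D c f) = coeff m (Ex D c (m 0 + 1) f) := rfl
  have h2 := Ex_mono hD c (m 0 + 1) K hm f
  rw [X_pow_dvd_iff] at h2
  have h3 := h2 m (Nat.lt_succ_self _)
  rw [map_sub] at h3 ⊢
  rw [h1]
  linear_combination -h3

theorem eq_of_dvd {f g : F} (h : ∀ K, (X 0 : F) ^ K ∣ f - g) : f = g := by
  ext m
  have h1 := h (m 0 + 1)
  rw [X_pow_dvd_iff] at h1
  have h2 := h1 m (Nat.lt_succ_self _)
  rw [map_sub] at h2
  exact sub_eq_zero.mp h2

/-- splitting a double sum -/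
theorem split_sum (a : ℕ → ℕ → F) (K : ℕ) (ha : ∀ i j, (X 0 : F) ^ (i + j) ∣ a i j) :
    (X 0 : F) ^ K ∣ (∑ i ∈ range K, ∑ j ∈ range K, a i j)
      - ∑ n ∈ range K, ∑ ij ∈ antidiagonal n, a ij.1 ij.2 := by
  have h1 : ∑ n ∈ range K, ∑ ij ∈ antidiagonal n, a ij.1 ij.2
      = ∑ i ∈ range K, ∑ j ∈ range (K - i), a i j := by
    rw [← Finset.sum_range_diag_flip]
    apply Finset.sum_congr rfl
    intro n _
    exact Finset.Nat.sum_antidiagonal_eq_sum_range_succ a n
  rw [h1, ← Finset.sum_sub_distrib]
  apply Finset.dvd_sum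
  intro i hi
  rw [← Finset.sum_sdiff (Finset.range_mono (Nat.sub_le K i)), add_sub_cancel_right]
  apply Finset.dvd_sum
  intro j hj
  have : K ≤ i + j := by
    simp only [Finset.mem_sdiff, Finset.mem_range] at hj
    omega
  exact (pow_dvd_pow _ this).trans (ha i j)

theorem Ex_mul {D : Derivation ℂ F F} (hD : Raise D) (c : ℂ) (K : ℕ) (f g : F) :
    (X 0 : F) ^ K ∣ Ex D c K f * Ex D c K g - Ex D c K (f * g) := by
  have h := split_sum (fun i j => ((c ^ i / (i.factorial : ℂ)) • D^[i] f)
    * ((c ^ j / (j.factorial : ℂ)) • D^[j] g)) K ?_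
  · have e1 : Ex D c K f * Ex D c K g = ∑ i ∈ range K, ∑ j ∈ range K,
        ((c ^ i / (i.factorial : ℂ)) • D^[i] f) * ((c ^ j / (j.factorial : ℂ)) • D^[j] g) := by
      unfold Ex
      rw [Finset.sum_mul_sum]
    have e2 : Ex D c K (f * g) = ∑ n ∈ range K, ∑ ij ∈ antidiagonal n,
        ((c ^ ij.1 / (ij.1.factorial : ℂ)) • D^[ij.1] f)
          * ((c ^ ij.2 / (ij.2.factorial : ℂ)) • D^[ij.2] g) := by
      unfold Ex
      apply Finset.sum_congr rfl
      intro n _
      rw [leib, Finset.smul_sum]
      apply Finset.sum_congr rfl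
      intro ij hij
      have hn := HasAntidiagonal.mem_antidiagonal.mp hij
      have hch : (n.choose ij.1 : ℂ) * (ij.1.factorial : ℂ) * (ij.2.factorial : ℂ)
          = (n.factorial : ℂ) := by
        have := Nat.choose_mul_factorial_mul_factorial (n := n) (k := ij.1) (by omega)
        have h3 : n - ij.1 = ij.2 := by omega
        rw [h3] at this
        exact_mod_cast this
      have f1 : (ij.1.factorial : ℂ) ≠ 0 := by exact_mod_cast Nat.factorial_ne_zero _
      have f2 : (ij.2.factorial : ℂ) ≠ 0 := by exact_mod_cast Nat.factorial_ne_zero _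
      have f3 : (n.factorial : ℂ) ≠ 0 := by exact_mod_cast Nat.factorial_ne_zero _
      rw [smul_mul_smul_comm, ← Nat.cast_smul_eq_nsmul ℂ, smul_smul]
      congr 1
      rw [← hn, pow_add] at *
      field_simp
      rw [← hch]
      ring
    rw [e1, e2]
    exact h
  · intro i j
    have h1 := raise_iter hD f 0 (by simp) i
    have h2 := raise_iter hD g 0 (by simp) j
    rw [zero_add] at h1 h2
    rw [pow_add, smul_eq_C_mul, smul_eq_C_mul]
    exact mul_dvd_mul (Dvd.dvd.mul_left h1 _) (Dvd.dvd.mul_left h2 _)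

theorem iter_sum (D : Derivation ℂ F F) (s : Finset ℕ) (a : ℕ → ℂ) (f : ℕ → F) (i : ℕ) :
    D^[i] (∑ j ∈ s, a j • f j) = ∑ j ∈ s, a j • D^[i] (f j) := by
  induction i with
  | zero => simp
  | succ i ih =>
    rw [Function.iterate_succ_apply', ih, map_sum]
    apply Finset.sum_congr rfl
    intro j _
    rw [Derivation.map_smul, Function.iterate_succ_apply']

theorem Ex_comp {D : Derivation ℂ F F} (hD : Raise D) (c c' : ℂ) (K : ℕ) (f : F) :
    (X 0 : F) ^ K ∣ Ex D c K (Ex D c' K f) - Ex D (c + c') K f := by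
  have h := split_sum (fun i j => ((c ^ i / (i.factorial : ℂ)) * (c' ^ j / (j.factorial : ℂ)))
    • D^[i + j] f) K ?_
  · have e1 : Ex D c K (Ex D c' K f) = ∑ i ∈ range K, ∑ j ∈ range K,
        ((c ^ i / (i.factorial : ℂ)) * (c' ^ j / (j.factorial : ℂ))) • D^[i + j] f := by
      unfold Ex
      apply Finset.sum_congr rfl
      intro i _
      rw [iter_sum, Finset.smul_sum]
      apply Finset.sum_congr rfl
      intro j _
      rw [smul_smul, Function.iterate_add_apply]
    have e2 : Ex D (c + c') K f = ∑ n ∈ range K, ∑ ij ∈ antidiagonal n,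
        ((c ^ ij.1 / (ij.1.factorial : ℂ)) * (c' ^ ij.2 / (ij.2.factorial : ℂ)))
          • D^[ij.1 + ij.2] f := by
      unfold Ex
      apply Finset.sum_congr rfl
      intro n _
      rw [(Commute.all c c').add_pow', Finset.sum_div, Finset.sum_smul]
      apply Finset.sum_congr rfl
      intro ij hij
      have hn := HasAntidiagonal.mem_antidiagonal.mp hij
      have hch : (n.choose ij.1 : ℂ) * (ij.1.factorial : ℂ) * (ij.2.factorial : ℂ)
          = (n.factorial : ℂ) := by
        have := Nat.choose_mul_factorial_mul_factorial (n := n) (k := ij.1) (by omega)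
        have h3 : n - ij.1 = ij.2 := by omega
        rw [h3] at this
        exact_mod_cast this
      have f1 : (ij.1.factorial : ℂ) ≠ 0 := by exact_mod_cast Nat.factorial_ne_zero _
      have f2 : (ij.2.factorial : ℂ) ≠ 0 := by exact_mod_cast Nat.factorial_ne_zero _
      have f3 : (n.factorial : ℂ) ≠ 0 := by exact_mod_cast Nat.factorial_ne_zero _
      rw [hn, nsmul_eq_mul]
      congr 1
      field_simp
      rw [← hch]
      ring
    rw [e1, e2]
    exact h
  · intro i j
    have h1 := raise_iter hD f 0 (by simp) (i + j)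
    rw [zero_add] at h1
    rw [smul_eq_C_mul]
    exact Dvd.dvd.mul_left h1 _

theorem Ex_dvd {D : Derivation ℂ F F} (hD : Raise D) (c : ℂ) (L K : ℕ) (f : F)
    (h : (X 0 : F) ^ K ∣ f) : (X 0 : F) ^ K ∣ Ex D c L f := by
  unfold Ex
  apply Finset.dvd_sum
  intro k _
  rw [smul_eq_C_mul]
  exact Dvd.dvd.mul_left ((pow_dvd_pow _ (by omega)).trans (raise_iter hD f K h k)) _

theorem iter_add (D : Derivation ℂ F F) (f g : F) (i : ℕ) :
    D^[i] (f + g) = D^[i] f + D^[i] g := by
  induction i with
  | zero => rfl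
  | succ i ih => rw [Function.iterate_succ_apply', ih, map_add, Function.iterate_succ_apply',
      Function.iterate_succ_apply']

theorem iter_smul (D : Derivation ℂ F F) (a : ℂ) (f : F) (i : ℕ) :
    D^[i] (a • f) = a • D^[i] f := by
  induction i with
  | zero => rfl
  | succ i ih => rw [Function.iterate_succ_apply', ih, Derivation.map_smul, Function.iterate_succ_apply']

theorem Ex_add (D : Derivation ℂ F F) (c : ℂ) (K : ℕ) (f g : F) :
    Ex D c K (f + g) = Ex D c K f + Ex D c K g := by
  unfold Ex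
  rw [← Finset.sum_add_distrib]
  apply Finset.sum_congr rfl
  intro k _
  rw [iter_add, smul_add]

theorem Ex_smul (D : Derivation ℂ F F) (c : ℂ) (K : ℕ) (a : ℂ) (f : F) :
    Ex D c K (a • f) = a • Ex D c K f := by
  unfold Ex
  rw [Finset.smul_sum]
  apply Finset.sum_congr rfl
  intro k _
  rw [iter_smul, smul_comm]

theorem Ex_sub (D : Derivation ℂ F F) (c : ℂ) (K : ℕ) (f g : F) :
    Ex D c K (f - g) = Ex D c K f - Ex D c K g := by
  have h : f - g = f + (-1 : ℂ) • g := by rw [neg_one_smul, sub_eq_add_neg]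
  rw [h, Ex_add, Ex_smul, neg_one_smul, sub_eq_add_neg]

theorem th_add (D : Derivation ℂ F F) (c : ℂ) (f g : F) :
    th D c (f + g) = th D c f + th D c g := by
  ext r
  show coeff r (Ex D c (r 0 + 1) (f + g)) = _
  rw [Ex_add, map_add, map_add]
  rfl

theorem th_smul (D : Derivation ℂ F F) (c : ℂ) (a : ℂ) (f : F) :
    th D c (a • f) = a • th D c f := by
  ext r
  show coeff r (Ex D c (r 0 + 1) (a • f)) = _
  rw [Ex_smul, coeff_smul, coeff_smul]
  rfl

theorem th_mul {D : Derivation ℂ F F} (hD : Raise D) (c : ℂ) (f g : F) :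
    th D c (f * g) = th D c f * th D c g := by
  apply eq_of_dvd
  intro K
  obtain ⟨u, hu⟩ := th_sub hD c K (f * g)
  obtain ⟨v, hv⟩ := th_sub hD c K f
  obtain ⟨w, hw⟩ := th_sub hD c K g
  obtain ⟨z, hz⟩ := Ex_mul hD c K f g
  have e1 : th D c (f * g) = Ex D c K (f * g) + X 0 ^ K * u := by rw [← hu]; ring
  have e2 : th D c f = Ex D c K f + X 0 ^ K * v := by rw [← hv]; ring
  have e3 : th D c g = Ex D c K g + X 0 ^ K * w := by rw [← hw]; ring
  have e4 : Ex D c K (f * g) = Ex D c K f * Ex D c K g - X 0 ^ K * z := by rw [← hz]; ring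
  rw [e1, e2, e3, e4]
  exact ⟨u - z - v * Ex D c K g - w * Ex D c K f - X 0 ^ K * v * w, by ring⟩

theorem th_comp {D : Derivation ℂ F F} (hD : Raise D) (c c' : ℂ) (f : F) :
    th D c (th D c' f) = th D (c + c') f := by
  apply eq_of_dvd
  intro K
  have h1 := th_sub hD c K (th D c' f)
  have h2 := Ex_dvd hD c K K _ (th_sub hD c' K f)
  rw [Ex_sub] at h2
  have h3 := Ex_comp hD c c' K f
  have h4 := th_sub hD (c + c') K f
  have := dvd_sub (dvd_add (dvd_add h1 h2) h3) h4
  convert this using 1
  ring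

theorem Ex_zero (D : Derivation ℂ F F) (K : ℕ) (f : F) : Ex D 0 (K + 1) f = f := by
  unfold Ex
  rw [Finset.sum_range_succ']
  simp

theorem th_zero (D : Derivation ℂ F F) (f : F) : th D 0 f = f := by
  ext r
  show coeff r (Ex D 0 (r 0 + 1) f) = _
  rw [Ex_zero]

theorem iter_one (D : Derivation ℂ F F) (k : ℕ) : D^[k + 1] (1 : F) = 0 := by
  rw [Function.iterate_succ_apply, Derivation.map_one_eq_zero]
  induction k with
  | zero => rfl
  | succ k ih => rw [Function.iterate_succ_apply', ih, map_zero]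

theorem th_one (D : Derivation ℂ F F) (c : ℂ) : th D c (1 : F) = 1 := by
  ext r
  show coeff r (Ex D c (r 0 + 1) 1) = _
  unfold Ex
  rw [Finset.sum_range_succ', Finset.sum_eq_zero]
  · simp
  · intro k _
    rw [iter_one, smul_zero]

/-- the coefficients of pure powers of `X 0` are not changed -/
theorem coeff_pure {D : Derivation ℂ F F} (hP : ∀ f n, coeff (Finsupp.single 0 n) (D f) = 0)
    (c : ℂ) (f : F) (n : ℕ) :
    coeff (Finsupp.single 0 n) (th D c f) = coeff (Finsupp.single 0 n) f := by
  show coeff (Finsupp.single 0 n) (Ex D c ((Finsupp.single 0 n : ℕ →₀ ℕ) 0 + 1) f) = _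
  unfold Ex
  rw [Finset.sum_range_succ', map_add, map_sum, Finset.sum_eq_zero]
  · simp
  · intro k _
    rw [coeff_smul, Function.iterate_succ_apply', hP, mul_zero]

/-- the translation invariant derivation given by a point derivation -/
noncomputable def del (lam : F →ₗ[ℂ] ℂ)
    (hl : ∀ f g : F, lam (f * g) = coeff 0 f * lam g + coeff 0 g * lam f) : Derivation ℂ F F :=
  Derivation.mk'
    { toFun := fun f => ((fun r => lam (T r f)) : F)
      map_add' := fun f g => by
        funext r
        show lam (T r (f + g)) = lam (T r f) + lam (T r g)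
        rw [map_add, map_add]
      map_smul' := fun c f => by
        funext r
        show lam (T r (c • f)) = c * lam (T r f)
        rw [map_smul, map_smul, smul_eq_mul] }
    (by
      intro f g
      ext r
      show lam (T r (f * g)) = coeff r (f * _ + g * _)
      rw [T_mul, map_sum, map_add, coeff_mul, coeff_mul]
      have e : ∑ p ∈ antidiagonal r, coeff p.1 g * lam (T p.2 f)
          = ∑ p ∈ antidiagonal r, coeff p.2 g * lam (T p.1 f) := by
        apply Finset.sum_equiv (Equiv.prodComm _ _)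
        · intro i
          rw [HasAntidiagonal.mem_antidiagonal, HasAntidiagonal.mem_antidiagonal]
          simp only [Equiv.prodComm_apply, Prod.fst_swap, Prod.snd_swap]
          rw [add_comm]
        · intro i _
          rfl
      show _ = (∑ p ∈ antidiagonal r, coeff p.1 f * lam (T p.2 g))
        + ∑ p ∈ antidiagonal r, coeff p.1 g * lam (T p.2 f)
      rw [e, ← Finset.sum_add_distrib]
      apply Finset.sum_congr rfl
      intro p _
      rw [hl, coeff_zero_T, coeff_zero_T])

theorem coeff_del (lam : F →ₗ[ℂ] ℂ)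
    (hl : ∀ f g : F, lam (f * g) = coeff 0 f * lam g + coeff 0 g * lam f) (f : F) (r : ℕ →₀ ℕ) :
    coeff r (del lam hl f) = lam (T r f) := rfl

theorem T_X (k : ℕ) (r : ℕ →₀ ℕ) :
    T r (X k : F) = if r = 0 then X k else if r = Finsupp.single k 1 then 1 else 0 := by
  classical
  ext s
  rw [coeff_T, coeff_X]
  split_ifs with h1 h2 h3 h2 h3
  · subst h2
    rw [zero_add] at h1
    rw [B_right_zero, one_mul, h1, coeff_X, if_pos rfl]
  · have : s = 0 := by
      rw [h3] at h1
      simpa using h1
    rw [this, add_zero, B_self, coeff_one, if_pos rfl, one_mul]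
  · exfalso
    have h4 : (r, s) ∈ antidiagonal (Finsupp.single k 1 : ℕ →₀ ℕ) :=
      HasAntidiagonal.mem_antidiagonal.mpr h1
    rw [antidiag_single] at h4
    simp only [Finset.mem_insert, Finset.mem_singleton, Prod.mk.injEq] at h4
    rcases h4 with h4 | h4
    · exact h2 h4.1
    · exact h3 h4.1
  · rw [h2, zero_add] at h1
    rw [coeff_X, if_neg h1, mul_zero]
  · rw [mul_zero, coeff_one, if_neg]
    rintro rfl
    exact h1 (by rw [h3, add_zero])
  · simp

theorem del_X (lam : F →ₗ[ℂ] ℂ)
    (hl : ∀ f g : F, lam (f * g) = coeff 0 f * lam g + coeff 0 g * lam f)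
    (h1 : lam 1 = 0) (hX : ∀ k, lam (X k) = 0) (k : ℕ) : del lam hl (X k) = 0 := by
  classical
  ext r
  rw [coeff_del, T_X]
  split_ifs
  · rw [hX]; simp
  · rw [h1]; simp
  · rw [map_zero]; simp

/-- the derivation which is exponentiated -/
noncomputable def DD (lam : F →ₗ[ℂ] ℂ)
    (hl : ∀ f g : F, lam (f * g) = coeff 0 f * lam g + coeff 0 g * lam f) : Derivation ℂ F F :=
  ((X 0 * X 1 : F)) • del lam hl

theorem DD_apply (lam : F →ₗ[ℂ] ℂ)
    (hl : ∀ f g : F, lam (f * g) = coeff 0 f * lam g + coeff 0 g * lam f) (f : F) :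
    DD lam hl f = X 0 * X 1 * del lam hl f := rfl

theorem DD_raise (lam : F →ₗ[ℂ] ℂ)
    (hl : ∀ f g : F, lam (f * g) = coeff 0 f * lam g + coeff 0 g * lam f)
    (h1 : lam 1 = 0) (hX : ∀ k, lam (X k) = 0) : Raise (DD lam hl) := by
  rintro f K ⟨g, rfl⟩
  rw [DD_apply, Derivation.leibniz, Derivation.leibniz_pow, del_X lam hl h1 hX]
  simp only [smul_eq_mul, mul_zero, smul_zero, add_zero]
  exact ⟨X 1 * del lam hl g, by ring⟩

theorem DD_pure (lam : F →ₗ[ℂ] ℂ)
    (hl : ∀ f g : F, lam (f * g) = coeff 0 f * lam g + coeff 0 g * lam f) (f : F) (n : ℕ) :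
    coeff (Finsupp.single 0 n) (DD lam hl f) = 0 := by
  have h : (X 1 : F) ∣ DD lam hl f := ⟨X 0 * del lam hl f, by rw [DD_apply]; ring⟩
  rw [X_dvd_iff] at h
  exact h _ (by simp)

theorem coeff_DD (lam : F →ₗ[ℂ] ℂ)
    (hl : ∀ f g : F, lam (f * g) = coeff 0 f * lam g + coeff 0 g * lam f) (f : F) :
    coeff (Finsupp.single 0 1 + Finsupp.single 1 1) (DD lam hl f) = lam f := by
  have h : (X 0 * X 1 : F) = monomial (Finsupp.single 0 1 + Finsupp.single 1 1) 1 := by
    rw [X, X, monomial_mul_monomial, one_mul]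
  have h2 := coeff_add_mul_monomial (0 : ℕ →₀ ℕ) (Finsupp.single 0 1 + Finsupp.single 1 1)
    (del lam hl f) (1 : ℂ)
  rw [zero_add, mul_one, coeff_del, T_zero] at h2
  rw [DD_apply, h, mul_comm, h2]

end Pool.Agent.V11110.FrPS
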