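import Mathlib

/-!
Positive semidefinite Toeplitz matrices over `ℂ`: one-step extensions.
-/

open Filter Topology Matrix ComplexOrder

namespace Pool.Agent.V11110.Toep

/-- The `k × k` Toeplitz matrix with entries `b (i - j)`. -/
def t (k : ℕ) (b : ℤ → ℂ) : Matrix (Fin k) (Fin k) ℂ :=
  Matrix.of fun i j => b (((i : ℕ) : ℤ) - ((j : ℕ) : ℤ))

lemma t_apply (k : ℕ) (b : ℤ → ℂ) (i j : Fin k) : t k b i j = b (((i : ℕ) : ℤ) - ((j : ℕ) : ℤ)) :=
  rfl

/-- The data `b` with the entries at `n` and `-n` replaced by `z` and `star z`. -/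
def ext {A : Type*} [Star A] (b : ℤ → A) (n : ℕ) (z : A) : ℤ → A := fun l =>
  if l = n then z else if l = -n then star z else b l

lemma ext_self {A : Type*} [Star A] (b : ℤ → A) (n : ℕ) (z : A) : ext b n z n = z := by
  simp [ext]

lemma ext_neg {A : Type*} [Star A] (b : ℤ → A) {n : ℕ} (hn : 0 < n) (z : A) :
    ext b n z (-n) = star z := by
  have : (-(n : ℤ)) ≠ n := by omega
  simp [ext, this]

lemma ext_of_lt {A : Type*} [Star A] (b : ℤ → A) {n : ℕ} (z : A) {l : ℤ} (hl : |l| < n) :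
    ext b n z l = b l := by
  have h1 : l ≠ n := by rintro rfl; simp at hl
  have h2 : l ≠ -n := by rintro rfl; simp at hl
  simp [ext, h1, h2]

lemma t_castSucc (m : ℕ) (b : ℤ → ℂ) (z : ℂ) (i j : Fin (m + 1)) :
    t (m + 2) (ext b (m + 1) z) i.castSucc j.castSucc = t (m + 1) b i j := by
  rw [t_apply, t_apply]
  refine ext_of_lt _ _ ?_
  have := i.2
  have := j.2
  rw [abs_lt]
  simp only [Fin.val_castSucc]
  constructor <;> push_cast <;> omega

lemma t_succ (m : ℕ) (b : ℤ → ℂ) (z : ℂ) (i j : Fin (m + 1)) :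
    t (m + 2) (ext b (m + 1) z) i.succ j.succ = t (m + 1) b i j := by
  rw [t_apply, t_apply]
  have h : (((i.succ : Fin (m + 2)) : ℕ) : ℤ) - (((j.succ : Fin (m + 2)) : ℕ) : ℤ) =
      ((i : ℕ) : ℤ) - ((j : ℕ) : ℤ) := by
    simp only [Fin.val_succ]
    push_cast
    ring
  rw [h]
  refine ext_of_lt _ _ ?_
  have := i.2
  have := j.2
  rw [abs_lt]
  constructor <;> push_cast <;> omega

/-- The quadratic form of a Toeplitz matrix on vectors vanishing at the first index. -/
lemma quad_cons (m : ℕ) (b : ℤ → ℂ) (z : ℂ) (w : Fin (m + 1) → ℂ) :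
    star (Fin.cons 0 w : Fin (m + 2) → ℂ) ⬝ᵥ
      (t (m + 2) (ext b (m + 1) z) *ᵥ (Fin.cons 0 w : Fin (m + 2) → ℂ)) =
    star w ⬝ᵥ (t (m + 1) b *ᵥ w) := by
  simp only [dotProduct, mulVec, Pi.star_apply]
  rw [Fin.sum_univ_succ]
  simp only [Fin.cons_zero, star_zero, zero_mul, zero_add, Fin.cons_succ]
  refine Finset.sum_congr rfl fun i _ => ?_
  rw [Fin.sum_univ_succ]
  simp only [Fin.cons_zero, mul_zero, zero_add, Fin.cons_succ, t_succ]

/-- The quadratic form of a Toeplitz matrix on vectors vanishing at the last index. -/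
lemma quad_snoc (m : ℕ) (b : ℤ → ℂ) (z : ℂ) (x : Fin (m + 2) → ℂ) (hx : x (Fin.last (m + 1)) = 0) :
    star x ⬝ᵥ (t (m + 2) (ext b (m + 1) z) *ᵥ x) =
    star (fun i : Fin (m + 1) => x i.castSucc) ⬝ᵥ
      (t (m + 1) b *ᵥ (fun i : Fin (m + 1) => x i.castSucc)) := by
  simp only [dotProduct, mulVec, Pi.star_apply]
  rw [Fin.sum_univ_castSucc]
  simp only [hx, star_zero, zero_mul, add_zero]
  refine Finset.sum_congr rfl fun i _ => ?_
  rw [Fin.sum_univ_castSucc]
  simp only [hx, mul_zero, add_zero, t_castSucc]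

lemma isHermitian_ext (m : ℕ) (b : ℤ → ℂ) (z : ℂ) (h : (t (m + 1) b).IsHermitian) :
    (t (m + 2) (ext b (m + 1) z)).IsHermitian := by
  have hstar : ∀ l : ℤ, |l| < (m + 1 : ℕ) → star (b l) = b (-l) := by
    intro l hl
    rw [abs_lt] at hl
    rcases le_total 0 l with h0 | h0
    · obtain ⟨n, rfl⟩ := Int.eq_ofNat_of_zero_le h0
      have hn : n < m + 1 := by omega
      have h1 := h.apply (⟨0, by omega⟩ : Fin (m + 1)) ⟨n, hn⟩
      rw [t_apply, t_apply] at h1
      simpa using h1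
    · obtain ⟨n, hn'⟩ := Int.eq_ofNat_of_zero_le (neg_nonneg.2 h0)
      have hl' : l = -(n : ℤ) := by omega
      subst hl'
      have hn : n < m + 1 := by omega
      have h1 := h.apply (⟨n, hn⟩ : Fin (m + 1)) ⟨0, by omega⟩
      rw [t_apply, t_apply] at h1
      simpa using h1
  refine Matrix.IsHermitian.ext fun i j => ?_
  rw [t_apply, t_apply]
  set l : ℤ := ((i : ℕ) : ℤ) - ((j : ℕ) : ℤ) with hl
  have hl' : ((j : ℕ) : ℤ) - ((i : ℕ) : ℤ) = -l := by rw [hl]; ring
  rw [hl']
  have hi := i.2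
  have hj := j.2
  by_cases h1 : l = (m + 1 : ℕ)
  · rw [h1, ext_neg _ (by omega), ext_self, star_star]
  · by_cases h2 : l = -((m + 1 : ℕ) : ℤ)
    · rw [h2, neg_neg, ext_self, ext_neg _ (by omega)]
    · have h3 : |l| < (m + 1 : ℕ) := by
        rw [abs_lt]
        push_cast at *
        omega
      rw [ext_of_lt _ _ h3, ext_of_lt _ _ (by rwa [abs_neg]), hstar _ (by rwa [abs_neg]), neg_neg]

/-- Positive definite Toeplitz data have positive definite one-step extensions. -/
lemma posDef_step (m : ℕ) (b : ℤ → ℂ) (h : (t (m + 1) b).PosDef) :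
    ∃ z : ℂ, (t (m + 2) (ext b (m + 1) z)).PosDef := by
  set T := t (m + 1) b with hT
  have hu : IsUnit T := h.isUnit
  set g : Fin (m + 1) → ℂ := T⁻¹ *ᵥ Pi.single (Fin.last m) 1 with hg
  have hTg : T *ᵥ g = Pi.single (Fin.last m) 1 := by
    rw [hg, Matrix.mulVec_mulVec, Matrix.mul_nonsing_inv _ ((Matrix.isUnit_iff_isUnit_det _).1 hu),
      Matrix.one_mulVec]
  have hg0 : g ≠ 0 := by
    intro h0
    rw [h0, Matrix.mulVec_zero] at hTg
    have := congrFun hTg (Fin.last m)
    simp at this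
  have hgl : 0 < star (g (Fin.last m)) := by
    have h1 := h.dotProduct_mulVec_pos hg0
    rw [hTg] at h1
    simpa using h1
  have hgl' : star (g (Fin.last m)) = g (Fin.last m) := by
    have h1 := (Complex.lt_def.1 hgl).2
    have h2 : (g (Fin.last m)).im = 0 := by
      simp at h1
      linarith
    exact Complex.conj_eq_iff_im.2 h2
  rw [hgl'] at hgl
  have hgne : g (Fin.last m) ≠ 0 := hgl.ne'
  set c : ℂ := -(∑ j : Fin m, b (-(((j : ℕ) : ℤ) + 1)) * g j.castSucc) / g (Fin.last m) with hc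
  refine ⟨star c, ?_⟩
  set Y := t (m + 2) (ext b (m + 1) (star c)) with hY
  have hYH : Y.IsHermitian := isHermitian_ext m b _ h.isHermitian
  set e : Fin (m + 2) → ℂ := Fin.cons 0 g with he
  have hYe : Y *ᵥ e = Pi.single (Fin.last (m + 1)) 1 := by
    funext i
    refine Fin.cases ?_ (fun i => ?_) i
    · have hs : (Pi.single (Fin.last (m + 1)) 1 : Fin (m + 2) → ℂ) 0 = 0 := by
        rw [Pi.single_apply, if_neg]
        exact (Fin.last_pos).ne
      rw [hs]
      simp only [mulVec, dotProduct]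
      rw [Fin.sum_univ_succ, Fin.sum_univ_castSucc]
      simp only [he, Fin.cons_zero, mul_zero, zero_add, Fin.cons_succ]
      have h1 : ∀ j : Fin m, Y 0 (Fin.succ j.castSucc) = b (-(((j : ℕ) : ℤ) + 1)) := by
        intro j
        rw [hY, t_apply]
        have h2 : (((0 : Fin (m + 2)) : ℕ) : ℤ) - (((Fin.succ j.castSucc : Fin (m + 2)) : ℕ) : ℤ) =
            -(((j : ℕ) : ℤ) + 1) := by
          simp
        rw [h2]
        refine ext_of_lt _ _ ?_
        have := j.2
        rw [abs_neg, abs_of_nonneg (by omega)]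
        push_cast
        omega
      have h3 : Y 0 (Fin.succ (Fin.last m)) = c := by
        rw [hY, t_apply]
        have h2 : (((0 : Fin (m + 2)) : ℕ) : ℤ) - (((Fin.succ (Fin.last m) : Fin (m + 2)) : ℕ) : ℤ) =
            -((m + 1 : ℕ) : ℤ) := by
          simp
        rw [h2, ext_neg _ (by omega), star_star]
      simp only [h1, h3, hc]
      rw [div_mul_cancel₀ _ hgne]
      ring
    · have h1 : (Y *ᵥ e) i.succ = (T *ᵥ g) i := by
        simp only [mulVec, dotProduct]
        rw [Fin.sum_univ_succ]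
        simp only [he, Fin.cons_zero, mul_zero, zero_add, Fin.cons_succ, hY, t_succ, hT]
      rw [h1, hTg, Pi.single_apply, Pi.single_apply]
      have : (i.succ = Fin.last (m + 1)) ↔ (i = Fin.last m) := by
        rw [← Fin.succ_last, Fin.succ_inj]
      simp only [this]
  refine Matrix.PosDef.of_dotProduct_mulVec_pos hYH fun x hx => ?_
  set r : ℂ := x (Fin.last (m + 1)) / g (Fin.last m) with hr
  set x' : Fin (m + 2) → ℂ := x - r • e with hx'
  have hel : e (Fin.last (m + 1)) = g (Fin.last m) := by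
    rw [he, ← Fin.succ_last, Fin.cons_succ]
  have hx'l : x' (Fin.last (m + 1)) = 0 := by
    rw [hx', Pi.sub_apply, Pi.smul_apply, hel, hr, smul_eq_mul, div_mul_cancel₀ _ hgne, sub_self]
  have hxx : x = x' + r • e := by rw [hx']; abel
  have h1 : star x' ⬝ᵥ (Y *ᵥ e) = 0 := by
    rw [hYe, dotProduct_single, Pi.star_apply, hx'l, star_zero, zero_mul]
  have h2 : star e ⬝ᵥ (Y *ᵥ x') = 0 := by
    have h3 := congrArg star h1
    rw [star_zero, Matrix.star_dotProduct, star_star, Matrix.star_mulVec, hYH.eq,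
      ← Matrix.dotProduct_mulVec] at h3
    exact h3
  have h4 : star e ⬝ᵥ (Y *ᵥ e) = g (Fin.last m) := by
    rw [hYe, dotProduct_single, Pi.star_apply, hel, mul_one, hgl']
  have h5 : star x ⬝ᵥ (Y *ᵥ x) =
      star x' ⬝ᵥ (Y *ᵥ x') + (star r * r) * g (Fin.last m) := by
    conv_lhs => rw [hxx]
    rw [star_add, star_smul, Matrix.mulVec_add, Matrix.mulVec_smul, add_dotProduct,
      dotProduct_add, dotProduct_add, dotProduct_smul, smul_dotProduct, smul_dotProduct,
      dotProduct_smul, h1, h2, h4]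
    simp only [smul_eq_mul, mul_zero, add_zero, zero_add]
    ring
  have h6 : star x' ⬝ᵥ (Y *ᵥ x') = star (fun i : Fin (m + 1) => x' i.castSucc) ⬝ᵥ
      (T *ᵥ (fun i : Fin (m + 1) => x' i.castSucc)) := quad_snoc m b _ x' hx'l
  rw [h5, h6]
  by_cases hr0 : r = 0
  · have hne : (fun i : Fin (m + 1) => x' i.castSucc) ≠ 0 := by
      intro h0
      apply hx
      rw [hxx, hr0, zero_smul, add_zero]
      funext i
      refine Fin.lastCases ?_ (fun i => ?_) i
      · exact hx'l
      · exact congrFun h0 i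
    have h7 := h.dotProduct_mulVec_pos hne
    rw [hr0]
    simpa using h7
  · have h8 : 0 ≤ star (fun i : Fin (m + 1) => x' i.castSucc) ⬝ᵥ
        (T *ᵥ (fun i : Fin (m + 1) => x' i.castSucc)) :=
      h.posSemidef.dotProduct_mulVec_nonneg _
    have h9 : 0 < (star r * r) * g (Fin.last m) := by
      refine mul_pos ?_ hgl
      have : star r * r = ((‖r‖ ^ 2 : ℝ) : ℂ) := by
        rw [Complex.star_def, Complex.conj_mul']
        push_cast
        rfl
      rw [this]
      have h10 : (0 : ℝ) < ‖r‖ ^ 2 := by positivity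
      exact_mod_cast h10
    exact add_pos_of_nonneg_of_pos h8 h9

/-- Positive semidefiniteness passes to limits. -/
lemma psd_of_tendsto {k : ℕ} {M : ℕ → Matrix (Fin k) (Fin k) ℂ} {M0 : Matrix (Fin k) (Fin k) ℂ}
    (h : ∀ j, (M j).PosSemidef)
    (hM : ∀ i i', Tendsto (fun j => M j i i') atTop (𝓝 (M0 i i'))) : M0.PosSemidef := by
  refine Matrix.PosSemidef.of_dotProduct_mulVec_nonneg ?_ fun x => ?_
  · refine Matrix.IsHermitian.ext fun i i' => ?_
    have h1 : Tendsto (fun j => star (M j i' i)) atTop (𝓝 (star (M0 i' i))) :=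
      (continuous_star.tendsto _).comp (hM i' i)
    have h2 : (fun j => star (M j i' i)) = fun j => M j i i' := by
      funext j
      exact (h j).isHermitian.apply i i'
    rw [h2] at h1
    exact tendsto_nhds_unique h1 (hM i i')
  · have h1 : Tendsto (fun j => star x ⬝ᵥ (M j *ᵥ x)) atTop (𝓝 (star x ⬝ᵥ (M0 *ᵥ x))) := by
      simp only [dotProduct, mulVec]
      exact tendsto_finsetSum _ fun i _ => (tendsto_finsetSum _ fun i' _ =>
        (hM i i').mul_const _).const_mul _
    exact ge_of_tendsto' h1 fun j => (h j).dotProduct_mulVec_nonneg x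

/-- Entries of a positive semidefinite matrix are bounded by the diagonal. -/
lemma norm_entry_le {k : ℕ} {M : Matrix (Fin k) (Fin k) ℂ} (h : M.PosSemidef) (i j : Fin k) :
    2 * ‖M i j‖ ≤ (M i i).re + (M j j).re := by
  obtain ⟨c, hc, hcM⟩ : ∃ c : ℂ, ‖c‖ = 1 ∧ c * M i j = -(‖M i j‖ : ℂ) := by
    by_cases h0 : M i j = 0
    · exact ⟨1, by simp, by simp [h0]⟩
    · have hn : (‖M i j‖ : ℂ) ≠ 0 := by exact_mod_cast norm_ne_zero_iff.2 h0
      refine ⟨-(star (M i j)) / ‖M i j‖, ?_, ?_⟩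
      · rw [norm_div, norm_neg, norm_star, Complex.norm_real, norm_norm,
          div_self (norm_ne_zero_iff.2 h0)]
      · rw [div_mul_eq_mul_div, neg_mul, Complex.star_def, Complex.conj_mul', neg_div, sq,
          mul_div_assoc, div_self hn, mul_one]
  have hcc : star c * c = 1 := by
    rw [Complex.star_def, Complex.conj_mul', hc]; norm_num
  have h1 := h.dotProduct_mulVec_nonneg (Pi.single i 1 + Pi.single j c)
  have hji : M j i = star (M i j) := (h.isHermitian.apply j i).symm
  have h2 : star (Pi.single i 1 + Pi.single j c : Fin k → ℂ) ⬝ᵥ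
      (M *ᵥ (Pi.single i 1 + Pi.single j c)) = M i i + c * M i j + star c * M j i + M j j := by
    rw [Matrix.mulVec_add, star_add, add_dotProduct, dotProduct_add, dotProduct_add]
    have e1 : star (Pi.single i 1 : Fin k → ℂ) = Pi.single i 1 := by
      rw [← Pi.single_star, star_one]
    have e2 : star (Pi.single j c : Fin k → ℂ) = Pi.single j (star c) := by
      rw [← Pi.single_star]
    rw [e1, e2]
    simp only [single_dotProduct, Matrix.mulVec_single, Matrix.col_apply, one_mul,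
      MulOpposite.op_one, one_smul, Pi.smul_apply, MulOpposite.smul_eq_mul_unop,
      MulOpposite.unop_op]
    have e3 : star c * (M j j * c) = M j j := by
      rw [mul_comm (M j j), ← mul_assoc, hcc, one_mul]
    rw [e3]
    ring
  rw [h2, hji, hcM] at h1
  have h3 : star c * star (M i j) = -(‖M i j‖ : ℂ) := by
    rw [← star_mul', hcM]
    simp
  rw [h3] at h1
  have h4 := (Complex.le_def.1 h1).1
  simp at h4
  linarith

lemma ext_tendsto {m : ℕ} {b : ℕ → ℤ → ℂ} {b0 : ℤ → ℂ} {z : ℕ → ℂ} {z0 : ℂ}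
    (hb : ∀ l, Tendsto (fun j => b j l) atTop (𝓝 (b0 l))) (hz : Tendsto z atTop (𝓝 z0))
    (i i' : Fin (m + 2)) :
    Tendsto (fun j => t (m + 2) (ext (b j) (m + 1) (z j)) i i') atTop
      (𝓝 (t (m + 2) (ext b0 (m + 1) z0) i i')) := by
  simp only [t_apply, ext]
  split_ifs
  · exact hz
  · exact (continuous_star.tendsto _).comp hz
  · exact hb _

/-- The corner entry of a positive semidefinite Toeplitz matrix is bounded by the diagonal. -/
lemma corner_le {m : ℕ} {b : ℤ → ℂ} {z : ℂ} (h : (t (m + 2) (ext b (m + 1) z)).PosSemidef) :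
    ‖z‖ ≤ ‖b 0‖ := by
  have h1 := norm_entry_le h (Fin.last (m + 1)) 0
  have e1 : t (m + 2) (ext b (m + 1) z) (Fin.last (m + 1)) 0 = z := by
    rw [t_apply]
    have : (((Fin.last (m + 1) : Fin (m + 2)) : ℕ) : ℤ) - (((0 : Fin (m + 2)) : ℕ) : ℤ) =
      ((m + 1 : ℕ) : ℤ) := by simp
    rw [this, ext_self]
  have e2 : ∀ i, t (m + 2) (ext b (m + 1) z) i i = b 0 := by
    intro i
    rw [t_apply, sub_self]
    exact ext_of_lt _ _ (by simp)
  rw [e1, e2, e2] at h1
  have h2 := Complex.abs_re_le_norm (b 0)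
  have h3 := le_abs_self (b 0).re
  linarith

/-- Positive semidefinite Toeplitz data have positive semidefinite one-step extensions. -/
lemma psd_step (m : ℕ) (b : ℤ → ℂ) (h : (t (m + 1) b).PosSemidef) :
    ∃ z : ℂ, (t (m + 2) (ext b (m + 1) z)).PosSemidef := by
  set b' : ℕ → ℤ → ℂ := fun j l => b l + (if l = 0 then (1 / ((j : ℂ) + 1)) else 0) with hb'
  have hpos : ∀ j : ℕ, (0 : ℂ) < 1 / ((j : ℂ) + 1) := by
    intro j
    have h1 : (1 / ((j : ℂ) + 1)) = ((1 / ((j : ℝ) + 1) : ℝ) : ℂ) := by push_cast; rfl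
    rw [h1]
    have h2 : (0 : ℝ) < 1 / ((j : ℝ) + 1) := by positivity
    exact_mod_cast h2
  have hPD : ∀ j, (t (m + 1) (b' j)).PosDef := by
    intro j
    have h1 : t (m + 1) (b' j) = t (m + 1) b + (1 / ((j : ℂ) + 1)) • (1 : Matrix _ _ ℂ) := by
      ext i i'
      rw [Matrix.add_apply, Matrix.smul_apply, t_apply, t_apply, hb']
      simp only
      by_cases hii : i = i'
      · subst hii; simp
      · have : ((i : ℕ) : ℤ) - ((i' : ℕ) : ℤ) ≠ 0 := by
          intro h0
          apply hii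
          ext
          omega
        rw [if_neg this, Matrix.one_apply_ne hii]
        simp
    rw [h1]
    exact Matrix.PosDef.posSemidef_add h (Matrix.PosDef.one.smul (hpos j))
  choose z hz using fun j => posDef_step m (b' j) (hPD j)
  have hbound : ∀ j, z j ∈ Metric.closedBall (0 : ℂ) (‖b 0‖ + 1) := by
    intro j
    rw [mem_closedBall_zero_iff]
    refine (corner_le (hz j).posSemidef).trans ?_
    simp only [hb', if_true]
    refine (norm_add_le _ _).trans ?_
    gcongr
    rw [norm_div, norm_one]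
    have : ‖(j : ℂ) + 1‖ = (j : ℝ) + 1 := by
      have : ((j : ℂ) + 1) = ((j + 1 : ℕ) : ℂ) := by push_cast; ring
      rw [this, Complex.norm_natCast]
      push_cast
      ring
    rw [this, div_le_one (by positivity)]
    linarith [Nat.cast_nonneg (α := ℝ) j]
  obtain ⟨z0, -, φ, hφ, hlim⟩ := (isCompact_closedBall (0 : ℂ) (‖b 0‖ + 1)).tendsto_subseq hbound
  refine ⟨z0, psd_of_tendsto (M := fun j => t (m + 2) (ext (b' (φ j)) (m + 1) (z (φ j))))
    (fun j => (hz (φ j)).posSemidef) ?_⟩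
  refine ext_tendsto (fun l => ?_) hlim
  have h1 : Tendsto (fun j : ℕ => (1 / ((j : ℂ) + 1))) atTop (𝓝 0) :=
    tendsto_one_div_add_atTop_nhds_zero_nat (𝕜 := ℂ)
  have h2 : Tendsto (fun j : ℕ => b l + (if l = 0 then (1 / ((j : ℂ) + 1)) else 0)) atTop
      (𝓝 (b l)) := by
    by_cases hl : l = 0
    · simp only [hl, if_true]
      simpa using h1.const_add (b 0)
    · simp only [hl, if_false, add_zero]
      exact tendsto_const_nhds
  exact h2.comp hφ.tendsto_atTop

/-- Singular positive semidefinite Toeplitz matrices have a null vector with nonzero last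
coordinate. -/
lemma exists_null (m : ℕ) (b : ℤ → ℂ) (h : (t (m + 1) b).PosSemidef)
    (hn : ¬ (t (m + 1) b).PosDef) :
    ∃ w : Fin (m + 1) → ℂ, w (Fin.last m) ≠ 0 ∧ star w ⬝ᵥ (t (m + 1) b *ᵥ w) = 0 := by
  induction m with
  | zero =>
    have h1 : ∃ w : Fin 1 → ℂ, w ≠ 0 ∧ star w ⬝ᵥ (t 1 b *ᵥ w) = 0 := by
      by_contra hcon
      push Not at hcon
      exact hn (Matrix.PosDef.of_dotProduct_mulVec_pos h.isHermitian fun x hx =>
        lt_of_le_of_ne (h.dotProduct_mulVec_nonneg x) (hcon x hx).symm)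
    obtain ⟨w, hw, h2⟩ := h1
    refine ⟨w, ?_, h2⟩
    intro h0
    apply hw
    funext i
    have : i = Fin.last 0 := Subsingleton.elim _ _
    rw [this, h0]; rfl
  | succ m ih =>
    have h1 : ∃ w : Fin (m + 2) → ℂ, w ≠ 0 ∧ star w ⬝ᵥ (t (m + 2) b *ᵥ w) = 0 := by
      by_contra hcon
      push Not at hcon
      exact hn (Matrix.PosDef.of_dotProduct_mulVec_pos h.isHermitian fun x hx =>
        lt_of_le_of_ne (h.dotProduct_mulVec_nonneg x) (hcon x hx).symm)
    obtain ⟨w, hw, h2⟩ := h1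
    by_cases hl : w (Fin.last (m + 1)) = 0
    · have hstar : b (-((m + 1 : ℕ) : ℤ)) = star (b ((m + 1 : ℕ) : ℤ)) := by
        have h3 := h.isHermitian.apply (0 : Fin (m + 2)) (Fin.last (m + 1))
        rw [t_apply, t_apply] at h3
        simpa using h3.symm
      have hext : ext b (m + 1) (b ((m + 1 : ℕ) : ℤ)) = b := by
        funext l
        rw [ext]
        split_ifs with h3 h4
        · rw [h3]
        · rw [h4, hstar]
        · rfl
      have hT : t (m + 2) b = t (m + 2) (ext b (m + 1) (b ((m + 1 : ℕ) : ℤ))) := by rw [hext]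
      have h5 : star (fun i : Fin (m + 1) => w i.castSucc) ⬝ᵥ
          (t (m + 1) b *ᵥ (fun i : Fin (m + 1) => w i.castSucc)) = 0 := by
        rw [← quad_snoc m b (b ((m + 1 : ℕ) : ℤ)) w hl, ← hT]
        exact h2
      have h6 : (t (m + 1) b).PosSemidef := by
        have h7 := h.submatrix (Fin.castSucc : Fin (m + 1) → Fin (m + 2))
        have h8 : (t (m + 2) b).submatrix Fin.castSucc Fin.castSucc = t (m + 1) b := by
          ext i j
          rw [Matrix.submatrix_apply, hT, t_castSucc]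
        rwa [h8] at h7
      have h9 : ¬ (t (m + 1) b).PosDef := by
        intro hpd
        have hne : (fun i : Fin (m + 1) => w i.castSucc) ≠ 0 := by
          intro h0
          apply hw
          funext i
          refine Fin.lastCases hl (fun i => congrFun h0 i) i
        have := hpd.dotProduct_mulVec_pos hne
        rw [h5] at this
        exact lt_irrefl _ this
      obtain ⟨v, hv, h10⟩ := ih h6 h9
      refine ⟨Fin.cons 0 v, ?_, ?_⟩
      · rw [← Fin.succ_last, Fin.cons_succ]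
        exact hv
      · rw [hT, quad_cons]
        exact h10
    · exact ⟨w, hl, h2⟩

/-- Extensions of singular data are unique. -/
lemma unique_step (m : ℕ) (b : ℤ → ℂ) (h : (t (m + 1) b).PosSemidef)
    (hn : ¬ (t (m + 1) b).PosDef) {z z' : ℂ} (hz : (t (m + 2) (ext b (m + 1) z)).PosSemidef)
    (hz' : (t (m + 2) (ext b (m + 1) z')).PosSemidef) : z = z' := by
  obtain ⟨w, hw, h0⟩ := exists_null m b h hn
  have key : ∀ y : ℂ, (t (m + 2) (ext b (m + 1) y)).PosSemidef →
      star y * w (Fin.last m) =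
        -∑ j : Fin m, b (-(((j : ℕ) : ℤ) + 1)) * w j.castSucc := by
    intro y hy
    have h1 : star (Fin.cons 0 w : Fin (m + 2) → ℂ) ⬝ᵥ
      (t (m + 2) (ext b (m + 1) y) *ᵥ (Fin.cons 0 w : Fin (m + 2) → ℂ)) = 0 := by
      rw [quad_cons]; exact h0
    rw [hy.dotProduct_mulVec_zero_iff] at h1
    have h2 := congrFun h1 0
    simp only [mulVec, dotProduct, Pi.zero_apply] at h2
    rw [Fin.sum_univ_succ, Fin.sum_univ_castSucc] at h2
    simp only [Fin.cons_zero, mul_zero, zero_add, Fin.cons_succ] at h2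
    have h3 : ∀ j : Fin m, t (m + 2) (ext b (m + 1) y) 0 (Fin.succ j.castSucc) =
        b (-(((j : ℕ) : ℤ) + 1)) := by
      intro j
      rw [t_apply]
      have h2 : (((0 : Fin (m + 2)) : ℕ) : ℤ) - (((Fin.succ j.castSucc : Fin (m + 2)) : ℕ) : ℤ) =
          -(((j : ℕ) : ℤ) + 1) := by
        simp
      rw [h2]
      refine ext_of_lt _ _ ?_
      have := j.2
      rw [abs_neg, abs_of_nonneg (by omega)]
      push_cast
      omega
    have h4 : t (m + 2) (ext b (m + 1) y) 0 (Fin.succ (Fin.last m)) = star y := by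
      rw [t_apply]
      have h2 : (((0 : Fin (m + 2)) : ℕ) : ℤ) - (((Fin.succ (Fin.last m) : Fin (m + 2)) : ℕ) : ℤ) =
          -((m + 1 : ℕ) : ℤ) := by
        simp
      rw [h2, ext_neg _ (by omega)]
    simp only [h3, h4] at h2
    rw [eq_neg_iff_add_eq_zero, add_comm]
    exact h2
  have h5 : star z * w (Fin.last m) = star z' * w (Fin.last m) := by
    rw [key z hz, key z' hz']
  have h6 := mul_right_cancel₀ hw h5
  exact star_injective h6

/-- Matrices close to a positive definite one are positive semidefinite, if Hermitian. -/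
lemma eventually_psd {k : ℕ} {M : ℕ → Matrix (Fin k) (Fin k) ℂ} {M0 : Matrix (Fin k) (Fin k) ℂ}
    (h0 : M0.PosDef) (hH : ∀ j, (M j).IsHermitian)
    (hM : ∀ i i', Tendsto (fun j => M j i i') atTop (𝓝 (M0 i i'))) :
    ∀ᶠ j in atTop, (M j).PosSemidef := by
  by_contra hcon
  rw [Filter.not_eventually] at hcon
  -- unit vectors with negative quadratic form
  have hv : ∀ j, ¬ (M j).PosSemidef → ∃ x : Fin k → ℂ, ‖x‖ = 1 ∧ (star x ⬝ᵥ (M j *ᵥ x)).re ≤ 0 := by
    intro j hj
    have h1 : ∃ x : Fin k → ℂ, ¬ 0 ≤ star x ⬝ᵥ (M j *ᵥ x) := by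
      by_contra h2
      push Not at h2
      exact hj (Matrix.PosSemidef.of_dotProduct_mulVec_nonneg (hH j) h2)
    obtain ⟨x, hx⟩ := h1
    have him : (star x ⬝ᵥ (M j *ᵥ x)).im = 0 := by
      have h3 : star (star x ⬝ᵥ (M j *ᵥ x)) = star x ⬝ᵥ (M j *ᵥ x) := by
        rw [← Matrix.star_dotProduct, Matrix.star_mulVec, (hH j).eq,
          ← Matrix.dotProduct_mulVec]
      exact Complex.conj_eq_iff_im.1 h3
    have hre : (star x ⬝ᵥ (M j *ᵥ x)).re < 0 := by
      by_contra h4
      push Not at h4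
      exact hx (Complex.le_def.2 ⟨by simpa using h4, by simpa using him.symm⟩)
    have hx0 : x ≠ 0 := by
      rintro rfl
      simp at hre
    have hxn : 0 < ‖x‖ := norm_pos_iff.2 hx0
    refine ⟨((‖x‖⁻¹ : ℝ) : ℂ) • x, ?_, ?_⟩
    · rw [norm_smul, Complex.norm_real, norm_inv, norm_norm, inv_mul_cancel₀ hxn.ne']
    · rw [star_smul, Matrix.mulVec_smul, dotProduct_smul, smul_dotProduct, Complex.star_def,
        Complex.conj_ofReal, smul_eq_mul, smul_eq_mul, Complex.re_ofReal_mul,
        Complex.re_ofReal_mul]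
      have : 0 < ‖x‖⁻¹ := inv_pos.2 hxn
      nlinarith [mul_pos this this]
  obtain ⟨ψ, hψ, hψ2⟩ := Filter.extraction_of_frequently_atTop hcon
  choose x hx1 hx2 using fun j => hv (ψ j) (hψ2 j)
  have hmem : ∀ j, x j ∈ Metric.sphere (0 : Fin k → ℂ) 1 := fun j => by
    rw [mem_sphere_zero_iff_norm]; exact hx1 j
  obtain ⟨x0, hx0, φ, hφ, hlim⟩ := (isCompact_sphere (0 : Fin k → ℂ) 1).tendsto_subseq hmem
  have hxi : ∀ i, Tendsto (fun j => x (φ j) i) atTop (𝓝 (x0 i)) := fun i =>
    (tendsto_pi_nhds.1 hlim) i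
  have hMi : ∀ i i', Tendsto (fun j => M (ψ (φ j)) i i') atTop (𝓝 (M0 i i')) := fun i i' =>
    (hM i i').comp (hψ.tendsto_atTop.comp hφ.tendsto_atTop)
  have h5 : Tendsto (fun j => star (x (φ j)) ⬝ᵥ (M (ψ (φ j)) *ᵥ (x (φ j)))) atTop
      (𝓝 (star x0 ⬝ᵥ (M0 *ᵥ x0))) := by
    simp only [dotProduct, mulVec, Pi.star_apply]
    exact tendsto_finsetSum _ fun i _ =>
      ((continuous_star.tendsto _).comp (hxi i)).mul
        (tendsto_finsetSum _ fun i' _ => (hMi i i').mul (hxi i'))
  have h6 : (star x0 ⬝ᵥ (M0 *ᵥ x0)).re ≤ 0 :=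
    le_of_tendsto' ((Complex.continuous_re.tendsto _).comp h5) fun j => hx2 (φ j)
  have hne : x0 ≠ 0 := by
    rintro rfl
    simp at hx0
  have h7 := (Complex.lt_def.1 (h0.dotProduct_mulVec_pos hne)).1
  simp at h7
  linarith

end Pool.Agent.V11110.Toep
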