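import Mathlib

namespace Pool.Agent.V11110.ABTwo

/-- An edge-colouring of the complete graph on `X` (the values on the diagonal are irrelevant). -/
def IsColouring {X K : Type} (χ : X → X → K) : Prop := ∀ a b, χ a b = χ b a

/-- `χ` contains a copy of the coloured complete graph `(V, c)`. -/
def Contains {X V K : Type} (χ : X → X → K) (c : V → V → K) : Prop :=
  ∃ f : V → X, Function.Injective f ∧ ∀ a b, a ≠ b → χ (f a) (f b) = c a b

/-- `χ'` arises from `χ` by changing the colours of a nonempty locally finite set of edges. -/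
def IsLocallyFinitePerturbation {X K : Type} (χ χ' : X → X → K) : Prop :=
  IsColouring χ' ∧ (∃ p q, p ≠ q ∧ χ' p q ≠ χ p q) ∧ ∀ v, {w | w ≠ v ∧ χ' v w ≠ χ v w}.Finite

/-- Q1 holds for `(V, c)`: some colouring of a countably infinite complete graph contains no copy
of `(V, c)`, and each of its locally finite perturbations contains one. -/
def Holds {V K : Type} (c : V → V → K) : Prop :=
  ∃ (X : Type) (χ : X → X → K), Countable X ∧ Infinite X ∧ IsColouring χ ∧
    ¬ Contains χ c ∧
    ∀ χ' : X → X → K, IsLocallyFinitePerturbation χ χ' → Contains χ' c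

/-- The ends of every edge of colour `i` are distinguished by the colours of their edges to a
third vertex: no two twins are joined by an edge of colour `i`. -/
def NoTwins {V K : Type} (c : V → V → K) (i : K) : Prop :=
  ∀ a b, a ≠ b → c a b = i → ∃ d, d ≠ a ∧ d ≠ b ∧ c d a ≠ c d b

/-- The graph of the edges of colour other than `j` stays connected after deleting any at most
one vertex. -/
def IsConnectedOff {V K : Type} (c : V → V → K) (j : K) : Prop :=
  ∀ A B : Set V, A.Nonempty → B.Nonempty → Disjoint A B → (A ∪ B)ᶜ.ncard ≤ 1 →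
    ∃ a ∈ A, ∃ b ∈ B, c a b ≠ j

/-- Whenever deleting two vertices `a`, `b` leaves two nonempty parts `A`, `B` joined only in
colour `j`, every injection of `B ∪ {a, b}` into `V` that preserves the colours of all pairs but
`ab` also preserves the colour of `ab`. (Vacuous if no two vertices can be so deleted.) -/
def IsRigidOff {V K : Type} (c : V → V → K) (j : K) : Prop :=
  ∀ (A B : Set V) (a b : V), A.Nonempty → B.Nonempty → Disjoint A B → a ≠ b →
    (A ∪ B)ᶜ = {a, b} → (∀ x ∈ A, ∀ y ∈ B, c x y = j) →
    ∀ ψ : V → V, Set.InjOn ψ Aᶜ →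
      (∀ x y, x ∉ A → y ∉ A → x ≠ y → ¬ (x = a ∧ y = b) → ¬ (x = b ∧ y = a) →
        c (ψ x) (ψ y) = c x y) →
      c (ψ a) (ψ b) = c a b

/-- A fixed point of a causal functional. -/
theorem exists_causal {K : Type} (k0 : K) (F : (ℕ → K) → ℕ → K)
    (hF : ∀ l o o', (∀ i < l, o i = o' i) → F o l = F o' l) :
    ∃ o : ℕ → K, ∀ l, o l = F o l := by
  classical
  let g : ℕ → (ℕ → K) := fun l =>
    Nat.rec (fun _ => k0) (fun k gk => Function.update gk k (F gk k)) l
  have hg : ∀ l, g (l + 1) = Function.update (g l) l (F (g l) l) := fun l => rfl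
  have hstab : ∀ l m i, i < l → l ≤ m → g m i = g l i := by
    intro l m i hi hlm
    induction m, hlm using Nat.le_induction with
    | base => rfl
    | succ m hm ih =>
      rw [hg m, Function.update_of_ne (by omega), ih]
  refine ⟨fun l => g (l + 1) l, ?_⟩
  intro l
  have h1 : g (l + 1) l = F (g l) l := by
    rw [hg l, Function.update_self]
  show g (l + 1) l = _
  rw [h1]
  apply hF
  intro i hi
  rw [hstab (i + 1) l i (by omega) (by omega)]

section Construction

variable {V K : Type} (c : V → V → K) (j0 i0 : K) (ex ey : K → V)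

/-- The vertex set: stage, vertex of the pattern, copy. -/
abbrev Vert (V : Type) := ℕ × V × ℕ

variable (att : ℕ → (Vert V × Vert V) × K)

open Classical in
/-- The pattern used at stage `l`: `c` with one edge of colour `(att l).2` recoloured `o l`. -/
noncomputable def Pat (o : ℕ → K) (l : ℕ) (z w : V) : K :=
  if o l = (att l).2 then j0
  else if (z = ex (att l).2 ∧ w = ey (att l).2) ∨ (z = ey (att l).2 ∧ w = ex (att l).2) then o l
  else c z w

open Classical in
noncomputable def col (o : ℕ → K) (l : ℕ) (z w : V) : K :=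
  if z = w then (if o l = (att l).2 then j0 else i0) else Pat c j0 ex ey att o l z w

open Classical in
/-- Colour of the edges from an older vertex `p` to the new vertices of pattern `z`. -/
noncomputable def Old (o : ℕ → K) (l : ℕ) (p : Vert V) (z : V) : K :=
  if z = ex (att l).2 ∨ z = ey (att l).2 then j0
  else if p = (att l).1.1 then col c j0 i0 ex ey att o l (ey (att l).2) z
  else if p = (att l).1.2 then col c j0 i0 ex ey att o l (ex (att l).2) z else j0

open Classical in
/-- Colour of the edges between the new vertices of patterns `z` and `w`. -/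
noncomputable def New (o : ℕ → K) (l : ℕ) (z w : V) : K :=
  if (z = ex (att l).2 ∨ z = ey (att l).2) ∨ (w = ex (att l).2 ∨ w = ey (att l).2) then j0
  else col c j0 i0 ex ey att o l z w

noncomputable def S (o : ℕ → K) (p q : Vert V) : K :=
  if p.1 < q.1 then Old c j0 i0 ex ey att o q.1 p q.2.1
  else if q.1 < p.1 then Old c j0 i0 ex ey att o p.1 q p.2.1
  else New c j0 i0 ex ey att o p.1 p.2.1 q.2.1

variable {c j0 i0 ex ey att}

theorem Pat_symm (hc : IsColouring c) (o : ℕ → K) (l : ℕ) (z w : V) :
    Pat c j0 ex ey att o l z w = Pat c j0 ex ey att o l w z := by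
  unfold Pat
  by_cases h : o l = (att l).2
  · rw [if_pos h, if_pos h]
  · rw [if_neg h, if_neg h]
    by_cases h1 : (z = ex (att l).2 ∧ w = ey (att l).2) ∨ (z = ey (att l).2 ∧ w = ex (att l).2)
    · rw [if_pos h1, if_pos (h1.symm.imp And.symm And.symm)]
    · rw [if_neg h1, if_neg (fun h2 => h1 (h2.symm.imp And.symm And.symm)), hc]

theorem col_symm (hc : IsColouring c) (o : ℕ → K) (l : ℕ) (z w : V) :
    col c j0 i0 ex ey att o l z w = col c j0 i0 ex ey att o l w z := by
  unfold col
  by_cases h : z = w
  · rw [if_pos h, if_pos h.symm]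
  · rw [if_neg h, if_neg (Ne.symm h), Pat_symm hc]

theorem New_symm (hc : IsColouring c) (o : ℕ → K) (l : ℕ) (z w : V) :
    New c j0 i0 ex ey att o l z w = New c j0 i0 ex ey att o l w z := by
  unfold New
  by_cases h : (z = ex (att l).2 ∨ z = ey (att l).2) ∨ (w = ex (att l).2 ∨ w = ey (att l).2)
  · rw [if_pos h, if_pos h.symm]
  · rw [if_neg h, if_neg (fun h1 => h h1.symm), col_symm hc]

theorem S_lt {o : ℕ → K} {p q : Vert V} (h : p.1 < q.1) :
    S c j0 i0 ex ey att o p q = Old c j0 i0 ex ey att o q.1 p q.2.1 := by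
  unfold S
  rw [if_pos h]

theorem S_gt {o : ℕ → K} {p q : Vert V} (h : q.1 < p.1) :
    S c j0 i0 ex ey att o p q = Old c j0 i0 ex ey att o p.1 q p.2.1 := by
  unfold S
  rw [if_neg (by omega), if_pos h]

theorem S_eq {o : ℕ → K} {p q : Vert V} (h : p.1 = q.1) :
    S c j0 i0 ex ey att o p q = New c j0 i0 ex ey att o p.1 p.2.1 q.2.1 := by
  unfold S
  rw [if_neg (by omega), if_neg (by omega)]

theorem S_symm (hc : IsColouring c) (o : ℕ → K) : IsColouring (S c j0 i0 ex ey att o) := by
  intro p q
  rcases lt_trichotomy p.1 q.1 with h | h | h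
  · rw [S_lt h, S_gt h]
  · rw [S_eq h, S_eq h.symm, h, New_symm hc]
  · rw [S_gt h, S_lt h]

theorem S_congr {o o' : ℕ → K} {p q : Vert V} {l : ℕ} (hp : p.1 < l) (hq : q.1 < l)
    (h : ∀ i < l, o i = o' i) : S c j0 i0 ex ey att o p q = S c j0 i0 ex ey att o' p q := by
  have hcol : ∀ i < l, ∀ z w, col c j0 i0 ex ey att o i z w = col c j0 i0 ex ey att o' i z w := by
    intro i hi z w
    unfold col Pat
    rw [h i hi]
  have hold : ∀ i < l, ∀ p z, Old c j0 i0 ex ey att o i p z = Old c j0 i0 ex ey att o' i p z := by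
    intro i hi p z
    unfold Old
    rw [hcol i hi, hcol i hi]
  have hnew : ∀ i < l, ∀ z w, New c j0 i0 ex ey att o i z w = New c j0 i0 ex ey att o' i z w := by
    intro i hi z w
    unfold New
    rw [hcol i hi]
  unfold S
  rw [hold _ hp, hold _ hq, hnew _ hp]

open Classical in
theorem exists_orient : ∃ o : ℕ → K, ∀ l, (att l).1.1.1 < l → (att l).1.2.1 < l →
    o l = S c j0 i0 ex ey att o (att l).1.1 (att l).1.2 := by
  obtain ⟨o, ho⟩ := exists_causal j0
    (fun o l => if (att l).1.1.1 < l ∧ (att l).1.2.1 < l then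
      S c j0 i0 ex ey att o (att l).1.1 (att l).1.2 else j0) (by
      intro l o o' h
      by_cases h1 : (att l).1.1.1 < l ∧ (att l).1.2.1 < l
      · simp only [if_pos h1]
        exact S_congr h1.1 h1.2 h
      · simp only [if_neg h1])
  refine ⟨o, fun l h1 h2 => ?_⟩
  rw [ho l, if_pos ⟨h1, h2⟩]

end Construction

theorem free {V K : Type} [Fintype V] {c : V → V → K} (hc : IsColouring c) {j0 : K}
    {i0 : K} (hj : IsConnectedOff c j0) (hr : IsRigidOff c j0) (ht : NoTwins c i0) {ex ey : K → V}
    (hexy : ∀ j, ex j ≠ ey j) (hcxy : ∀ j, c (ex j) (ey j) = j)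
    {att : ℕ → (Vert V × Vert V) × K} {o : ℕ → K}
    (ho : ∀ l, (att l).1.1.1 < l → (att l).1.2.1 < l →
      o l = S c j0 i0 ex ey att o (att l).1.1 (att l).1.2)
    {v0 v1 : V} (hv : v0 ≠ v1) : ¬ Contains (S c j0 i0 ex ey att o) c := by
  classical
  rintro ⟨f, hf, hfc⟩
  obtain ⟨a0, -, ha0⟩ := Finset.exists_max_image (Finset.univ : Finset V) (fun a => (f a).1)
    ⟨v0, Finset.mem_univ _⟩
  obtain ⟨l, hl⟩ : ∃ l, (f a0).1 = l := ⟨_, rfl⟩
  have hmax : ∀ a, (f a).1 ≤ l := fun a => hl ▸ ha0 a (Finset.mem_univ _)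
  obtain ⟨u, hu⟩ : ∃ u, (att l).1.1 = u := ⟨_, rfl⟩
  obtain ⟨w, hw⟩ : ∃ w, (att l).1.2 = w := ⟨_, rfl⟩
  obtain ⟨b, hb⟩ : ∃ b, (att l).2 = b := ⟨_, rfl⟩
  have hsplit : ∀ A B : Set V, A.Nonempty → B.Nonempty → Disjoint A B → (A ∪ B)ᶜ.ncard ≤ 1 →
      (∀ a ∈ A, ∀ b ∈ B, S c j0 i0 ex ey att o (f a) (f b) = j0) → False := by
    intro A B hA hB hAB hcard h
    obtain ⟨a, ha, d, hd, hne⟩ := hj A B hA hB hAB hcard
    have had : a ≠ d := by
      rintro rfl
      exact Set.disjoint_left.1 hAB ha hd
    exact hne ((hfc a d had).symm.trans (h a ha d hd))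
  by_cases hob : o l = b
  · -- the new vertices see only the colour `j0`
    have hcol : ∀ z w, col c j0 i0 ex ey att o l z w = j0 := by
      intro z w
      unfold col Pat
      simp only [hb, if_pos hob, ite_self]
    have hold : ∀ p z, Old c j0 i0 ex ey att o l p z = j0 := by
      intro p z
      unfold Old
      rw [hcol, hcol]
      split_ifs <;> rfl
    have hnew : ∀ z w, New c j0 i0 ex ey att o l z w = j0 := by
      intro z w
      unfold New
      rw [hcol]
      split_ifs <;> rfl
    by_cases hA : ∃ a, (f a).1 < l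
    · refine hsplit {a | (f a).1 < l} {a | (f a).1 = l} hA ⟨a0, hl⟩ ?_ ?_ ?_
      · rw [Set.disjoint_left]
        intro a h1 h2
        have h1' : (f a).1 < l := h1
        have h2' : (f a).1 = l := h2
        omega
      · have : ({a | (f a).1 < l} ∪ {a | (f a).1 = l})ᶜ = (∅ : Set V) := by
          ext a
          simp only [Set.mem_compl_iff, Set.mem_union, Set.mem_ofPred_eq, Set.mem_empty_iff_false,
            iff_false, not_not]
          exact (hmax a).lt_or_eq
        rw [this]
        simp
      · intro a ha d hd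
        have h1' : (f a).1 < l := ha
        have h2' : (f d).1 = l := hd
        rw [S_lt (by omega), h2', hold]
    · push Not at hA
      have hall : ∀ a, (f a).1 = l := fun a => le_antisymm (hmax a) (hA a)
      refine hsplit {v0} {v0}ᶜ ⟨v0, rfl⟩ ⟨v1, fun h => hv (Set.mem_singleton_iff.1 h).symm⟩
        disjoint_compl_right (by simp) ?_
      intro a _ d _
      rw [S_eq ((hall a).trans (hall d).symm), hall a, hnew]
  · -- no vertex of the copy is a new vertex of pattern `ex b` or `ey b`
    have hcl : ∀ a, (f a).1 = l → ¬ ((f a).2.1 = ex b ∨ (f a).2.1 = ey b) := by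
      intro a ha h
      have hne : ({a}ᶜ : Set V).Nonempty := by
        by_cases h0 : v0 = a
        · exact ⟨v1, fun h1 => hv (h0.trans (Set.mem_singleton_iff.1 h1).symm)⟩
        · exact ⟨v0, h0⟩
      refine hsplit {a} {a}ᶜ ⟨a, rfl⟩ hne disjoint_compl_right (by simp) ?_
      intro a' ha' d _
      obtain rfl : a' = a := ha'
      rcases (hmax d).lt_or_eq with hd | hd
      · rw [S_gt (by omega), ha]
        unfold Old
        rw [hb, if_pos h]
      · rw [S_eq (ha.trans hd.symm), ha]
        unfold New
        rw [hb, if_pos (Or.inl h)]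
    obtain ⟨A, hAdef⟩ : ∃ A : Set V, A = {a | (f a).1 < l ∧ f a ≠ u ∧ f a ≠ w} := ⟨_, rfl⟩
    have hAmem : ∀ a, a ∈ A ↔ ((f a).1 < l ∧ f a ≠ u ∧ f a ≠ w) := by
      intro a
      rw [hAdef]
      rfl
    have hAw : ∀ a, a ∉ A → (f a).1 < l → f a ≠ u → f a = w := by
      intro a h1 h2 h3
      by_contra h4
      exact h1 ((hAmem a).2 ⟨h2, h3, h4⟩)
    have hAS : ∀ a ∈ A, ∀ d, (f d).1 = l → S c j0 i0 ex ey att o (f a) (f d) = j0 := by
      intro a ha d hd
      obtain ⟨h4, h5, h6⟩ := (hAmem a).1 ha
      rw [S_lt (by omega), hd]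
      unfold Old
      rw [hu, hw, if_neg h5, if_neg h6]
      split_ifs <;> rfl
    let ψ : V → V := fun a =>
      if (f a).1 = l then (f a).2.1 else if f a = u then ey b else ex b
    have ψ1 : ∀ a, (f a).1 = l → ψ a = (f a).2.1 := fun a h => if_pos h
    have ψ2 : ∀ a, (f a).1 < l → f a = u → ψ a = ey b := fun a h h' => by
      simp only [ψ]
      rw [if_neg (by omega), if_pos h']
    have ψ3 : ∀ a, (f a).1 < l → f a ≠ u → ψ a = ex b := fun a h h' => by
      simp only [ψ]
      rw [if_neg (by omega), if_neg h']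
    have hpatxy : Pat c j0 ex ey att o l (ey b) (ex b) = o l := by
      unfold Pat
      rw [hb, if_neg hob, if_pos (Or.inr ⟨rfl, rfl⟩)]
    -- the colour of an edge of the copy is given by the pattern
    have hlt : ∀ a d, a ∉ A → (f a).1 < l → (f d).1 = l →
        S c j0 i0 ex ey att o (f a) (f d) = col c j0 i0 ex ey att o l (ψ a) (ψ d) := by
      intro a d haA ha hd
      rw [S_lt (by omega), hd, ψ1 d hd]
      unfold Old
      rw [hu, hw, hb, if_neg (hcl d hd)]
      by_cases h1 : f a = u
      · rw [if_pos h1, ψ2 a ha h1]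
      · rw [if_neg h1, if_pos (hAw a haA ha h1), ψ3 a ha h1]
    have hol : ∀ a d, a ≠ d → d ∉ A → (f a).1 < l → (f d).1 < l → f a = u →
        S c j0 i0 ex ey att o (f a) (f d) = o l ∧ ψ a = ey b ∧ ψ d = ex b := by
      intro a d had hdA ha hd h1
      have h2 : f d ≠ u := fun e => had (hf (h1.trans e.symm))
      have h3 := hAw d hdA hd h2
      have h4 := ho l (by rw [hu, ← h1]; exact ha) (by rw [hw, ← h3]; exact hd)
      rw [hu, hw, ← h1, ← h3] at h4
      exact ⟨h4.symm, ψ2 a ha h1, ψ3 d hd h2⟩
    have hkey : ∀ a d, a ∉ A → d ∉ A → a ≠ d →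
        c a d = col c j0 i0 ex ey att o l (ψ a) (ψ d) := by
      intro a d haA hdA had
      rw [← hfc a d had]
      rcases (hmax a).lt_or_eq with ha | ha
      · rcases (hmax d).lt_or_eq with hd | hd
        · -- both are among `u`, `w`
          have huw : ∀ a d, a ≠ d → d ∉ A → (f a).1 < l → (f d).1 < l → f a = u →
              S c j0 i0 ex ey att o (f a) (f d) = col c j0 i0 ex ey att o l (ψ a) (ψ d) := by
            intro a d had hdA ha hd h1
            obtain ⟨h4, h5, h6⟩ := hol a d had hdA ha hd h1
            rw [h4, h5, h6]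
            unfold col
            rw [if_neg (hexy b).symm, hpatxy]
          by_cases h1 : f a = u
          · exact huw a d had hdA ha hd h1
          · have h2 : f d = u := by
              by_contra h3
              exact had (hf ((hAw a haA ha h1).trans (hAw d hdA hd h3).symm))
            rw [S_symm hc, col_symm hc]
            exact huw d a had.symm haA hd ha h2
        · exact hlt a d haA ha hd
      · rcases (hmax d).lt_or_eq with hd | hd
        · rw [S_symm hc, col_symm hc]
          exact hlt d a hdA hd ha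
        · rw [S_eq (ha.trans hd.symm), ha, ψ1 a ha, ψ1 d hd]
          unfold New
          rw [hb, if_neg]
          rintro (h | h)
          · exact hcl a ha h
          · exact hcl d hd h
    have hinjA : ∀ a d, a ∉ A → d ∉ A → ψ a = ψ d → a = d := by
      have hmix : ∀ a d, (f a).1 < l → (f d).1 = l → ψ a ≠ ψ d := by
        intro a d ha hd h
        apply hcl d hd
        rw [ψ1 d hd] at h
        by_cases h1 : f a = u
        · rw [ψ2 a ha h1] at h
          exact Or.inr h.symm
        · rw [ψ3 a ha h1] at h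
          exact Or.inl h.symm
      intro a d haA hdA had
      by_contra hne
      rcases (hmax a).lt_or_eq with ha | ha
      · rcases (hmax d).lt_or_eq with hd | hd
        · by_cases h1 : f a = u
          · obtain ⟨-, h5, h6⟩ := hol a d hne hdA ha hd h1
            rw [h5, h6] at had
            exact hexy b had.symm
          · have h2 : f d = u := by
              by_contra h3
              exact hne (hf ((hAw a haA ha h1).trans (hAw d hdA hd h3).symm))
            obtain ⟨-, h5, h6⟩ := hol d a (Ne.symm hne) haA hd ha h2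
            rw [h5, h6] at had
            exact hexy b had
        · exact hmix a d ha hd had
      · rcases (hmax d).lt_or_eq with hd | hd
        · exact hmix d a hd ha had.symm
        · have hi : c a d = i0 := by
            rw [hkey a d haA hdA hne]
            unfold col
            rw [if_pos had, hb, if_neg hob]
          obtain ⟨e, he1, he2, he3⟩ := ht a d hne hi
          apply he3
          by_cases heA : e ∈ A
          · rw [← hfc e a he1, ← hfc e d he2, hAS e heA a ha, hAS e heA d hd]
          · rw [hkey e a heA haA he1, hkey e d heA hdA he2, had]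
    by_cases hA : A.Nonempty
    · have hAl : ∀ a, a ∈ A → (f a).1 < l := fun a h => ((hAmem a).1 h).1
      have hdisj : Disjoint A {a | (f a).1 = l} := by
        rw [Set.disjoint_left]
        intro a h1 h2
        have h2' : (f a).1 = l := h2
        have := hAl a h1
        omega
      have hcompl : ∀ a, a ∈ (A ∪ {a | (f a).1 = l})ᶜ ↔ ((f a).1 < l ∧ (f a = u ∨ f a = w)) := by
        intro a
        simp only [Set.mem_compl_iff, Set.mem_union, not_or]
        constructor
        · rintro ⟨h1, h2⟩
          have h2' : ¬ (f a).1 = l := h2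
          have h3 := lt_of_le_of_ne (hmax a) h2'
          refine ⟨h3, ?_⟩
          by_cases h4 : f a = u
          · exact Or.inl h4
          · exact Or.inr (hAw a h1 h3 h4)
        · rintro ⟨h1, h2⟩
          refine ⟨fun h3 => ?_, fun h3 => ?_⟩
          · obtain ⟨-, h5, h6⟩ := (hAmem a).1 h3
            rcases h2 with h2 | h2
            · exact h5 h2
            · exact h6 h2
          · have h3' : (f a).1 = l := h3
            omega
      by_cases h2 : ∃ a1 b1, a1 ≠ b1 ∧ (f a1).1 < l ∧ f a1 = u ∧ (f b1).1 < l ∧ f b1 = w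
      · obtain ⟨a1, b1, hab, ha1, ha1u, hb1, hb1w⟩ := h2
        have hb1A : b1 ∉ A := fun h => ((hAmem b1).1 h).2.2 hb1w
        have ha1A : a1 ∉ A := fun h => ((hAmem a1).1 h).2.1 ha1u
        obtain ⟨h4, h5, h6⟩ := hol a1 b1 hab hb1A ha1 hb1 ha1u
        have hset : (A ∪ {a | (f a).1 = l})ᶜ = {a1, b1} := by
          ext a
          rw [hcompl]
          simp only [Set.mem_insert_iff, Set.mem_singleton_iff]
          constructor
          · rintro ⟨-, h | h⟩
            · exact Or.inl (hf (h.trans ha1u.symm))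
            · exact Or.inr (hf (h.trans hb1w.symm))
          · rintro (rfl | rfl)
            · exact ⟨ha1, Or.inl ha1u⟩
            · exact ⟨hb1, Or.inr hb1w⟩
        have := hr A {a | (f a).1 = l} a1 b1 hA ⟨a0, hl⟩ hdisj hab hset (by
          intro x hx y hy
          have hy' : (f y).1 = l := hy
          have hxy : x ≠ y := by
            rintro rfl
            have := hAl x hx
            omega
          rw [← hfc x y hxy]
          exact hAS x hx y hy') ψ (by
          intro x hx y hy hxy
          exact hinjA x y hx hy hxy) (by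
          intro x y hx hy hxy h7 h8
          rw [hkey x y hx hy hxy]
          unfold col
          rw [if_neg (fun e => hxy (hinjA x y hx hy e))]
          unfold Pat
          rw [hb, if_neg hob, if_neg]
          rintro (⟨h9, h10⟩ | ⟨h9, h10⟩)
          · exact h8 ⟨hinjA x b1 hx hb1A (h9.trans h6.symm), hinjA y a1 hy ha1A (h10.trans h5.symm)⟩
          · exact h7 ⟨hinjA x a1 hx ha1A (h9.trans h5.symm), hinjA y b1 hy hb1A (h10.trans h6.symm)⟩)
        rw [h5, h6, hc, hcxy, ← hfc a1 b1 hab, h4] at this
        exact hob this.symm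
      · refine hsplit A {a | (f a).1 = l} hA ⟨a0, hl⟩ hdisj ?_ hAS
        rw [Set.ncard_le_one (Set.toFinite _)]
        intro x hx y hy
        rw [hcompl] at hx hy
        by_contra hxy
        apply h2
        rcases hx with ⟨hx1, hx2 | hx2⟩ <;> rcases hy with ⟨hy1, hy2 | hy2⟩
        · exact absurd (hf (hx2.trans hy2.symm)) hxy
        · exact ⟨x, y, hxy, hx1, hx2, hy1, hy2⟩
        · exact ⟨y, x, Ne.symm hxy, hy1, hy2, hx1, hx2⟩
        · exact absurd (hf (hx2.trans hy2.symm)) hxy
    · have hnA : ∀ a, a ∉ A := fun a h => hA ⟨a, h⟩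
      have hinj : Function.Injective ψ := fun a d h => hinjA a d (hnA a) (hnA d) h
      have hbij := Finite.injective_iff_bijective.1 hinj
      -- count the edges of colour `b`
      have hkey' : ∀ a d, a ≠ d → c a d = Pat c j0 ex ey att o l (ψ a) (ψ d) := by
        intro a d had
        rw [hkey a d (hnA a) (hnA d) had]
        unfold col
        rw [if_neg (fun e => had (hinj e))]
      let N1 : Finset (V × V) := Finset.univ.filter (fun t => t.1 ≠ t.2 ∧ c t.1 t.2 = b)
      let N2 : Finset (V × V) := Finset.univ.filter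
        (fun t => t.1 ≠ t.2 ∧ Pat c j0 ex ey att o l t.1 t.2 = b)
      have h1 : N1.card = N2.card := by
        refine Finset.card_bij (fun t _ => (ψ t.1, ψ t.2)) ?_ ?_ ?_
        · intro t ht'
          simp only [N1, N2, Finset.mem_filter, Finset.mem_univ, true_and] at ht' ⊢
          refine ⟨fun e => ht'.1 (hinj e), ?_⟩
          rw [← hkey' _ _ ht'.1]
          exact ht'.2
        · intro t _ t' _ h
          exact Prod.ext (hinj (Prod.ext_iff.1 h).1) (hinj (Prod.ext_iff.1 h).2)
        · rintro ⟨z, z'⟩ hz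
          simp only [N2, Finset.mem_filter, Finset.mem_univ, true_and] at hz
          obtain ⟨a, rfl⟩ := hbij.2 z
          obtain ⟨d, rfl⟩ := hbij.2 z'
          have had : a ≠ d := fun e => hz.1 (by rw [e])
          refine ⟨(a, d), ?_, rfl⟩
          simp only [N1, Finset.mem_filter, Finset.mem_univ, true_and]
          exact ⟨had, (hkey' a d had).trans hz.2⟩
      have h2 : N2 ⊂ N1 := by
        rw [Finset.ssubset_iff_of_subset]
        · refine ⟨(ex b, ey b), ?_, ?_⟩
          · simp only [N1, Finset.mem_filter, Finset.mem_univ, true_and]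
            exact ⟨hexy b, hcxy b⟩
          · simp only [N2, Finset.mem_filter, Finset.mem_univ, true_and, not_and]
            intro _
            rw [Pat_symm hc, hpatxy]
            exact hob
        · rintro ⟨z, z'⟩ hz
          simp only [N2, N1, Finset.mem_filter, Finset.mem_univ, true_and] at hz ⊢
          refine ⟨hz.1, ?_⟩
          have h3 := hz.2
          unfold Pat at h3
          rw [hb, if_neg hob] at h3
          split_ifs at h3
          · exact absurd h3 hob
          · exact h3
      have h3 := Finset.card_lt_card h2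
      omega

theorem perturb {V K : Type} [Fintype V] {c : V → V → K} (hc : IsColouring c) {j0 i0 : K}
    {ex ey : K → V}
    (hexy : ∀ j, ex j ≠ ey j) (hcxy : ∀ j, c (ex j) (ey j) = j)
    {att : ℕ → (Vert V × Vert V) × K}
    (hatt : ∀ (p q : Vert V) (b : K), ∃ l, p.1 < l ∧ q.1 < l ∧ att l = ((p, q), b))
    {o : ℕ → K}
    (ho : ∀ l, (att l).1.1.1 < l → (att l).1.2.1 < l →
      o l = S c j0 i0 ex ey att o (att l).1.1 (att l).1.2)
    {χ' : Vert V → Vert V → K}
    (hχ' : IsLocallyFinitePerturbation (S c j0 i0 ex ey att o) χ') : Contains χ' c := by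
  classical
  obtain ⟨hsymm, ⟨p, q, hpq, hne⟩, hfin⟩ := hχ'
  have hS := S_symm (j0 := j0) (i0 := i0) (ex := ex) (ey := ey) (att := att) hc o
  obtain ⟨b, hb⟩ : ∃ b, χ' p q = b := ⟨_, rfl⟩
  obtain ⟨l, hlp, hlq, hl⟩ := hatt p q b
  have hol : o l = S c j0 i0 ex ey att o p q := by
    rw [ho l (by rw [hl]; exact hlp) (by rw [hl]; exact hlq), hl]
  have hob : o l ≠ (att l).2 := by
    rw [hol, hl]
    show _ ≠ b
    rw [← hb]
    exact hne.symm
  obtain ⟨x, hx⟩ : ∃ x, ex b = x := ⟨_, rfl⟩
  obtain ⟨y, hy⟩ : ∃ y, ey b = y := ⟨_, rfl⟩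
  have hxy : x ≠ y := by
    rw [← hx, ← hy]
    exact hexy b
  have hcb : c x y = b := by
    rw [← hx, ← hy]
    exact hcxy b
  have hcol : ∀ z w, z ≠ w → ¬ (z = x ∧ w = y) → ¬ (z = y ∧ w = x) →
      col c j0 i0 ex ey att o l z w = c z w := by
    intro z w h1 h2 h3
    unfold col Pat
    rw [if_neg h1, if_neg hob, if_neg]
    rw [hl]
    simp only [hx, hy]
    rintro (h | h)
    · exact h2 h
    · exact h3 h
  have hchoice : ∀ s : Finset V, ∃ i : V → ℕ,
      (∀ z ∈ s, (S c j0 i0 ex ey att o p (l, z, i z) = χ' p (l, z, i z)) ∧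
        (S c j0 i0 ex ey att o q (l, z, i z) = χ' q (l, z, i z))) ∧
      ∀ z ∈ s, ∀ z' ∈ s, z ≠ z' →
        (S c j0 i0 ex ey att o (l, z, i z) (l, z', i z') = χ' (l, z, i z) (l, z', i z')) := by
    intro s
    induction s using Finset.induction_on with
    | empty => exact ⟨fun _ => 0, by simp, by simp⟩
    | insert z0 s hz0 ih =>
      obtain ⟨i, hi1, hi2⟩ := ih
      have hbad : ({w | w ≠ p ∧ χ' p w ≠ S c j0 i0 ex ey att o p w} ∪
          {w | w ≠ q ∧ χ' q w ≠ S c j0 i0 ex ey att o q w} ∪
          ⋃ z ∈ s, {w | w ≠ (l, z, i z) ∧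
            χ' (l, z, i z) w ≠ S c j0 i0 ex ey att o (l, z, i z) w}).Finite :=
        ((hfin p).union (hfin q)).union
          (Set.Finite.biUnion (Finset.finite_toSet s) (fun z _ => hfin _))
      have hinf : (Set.range (fun j : ℕ => ((l, z0, j) : Vert V))).Infinite := by
        apply Set.infinite_range_of_injective
        intro j j' h
        simpa using h
      obtain ⟨w, ⟨j, rfl⟩, hw⟩ := (hinf.sdiff hbad).nonempty
      simp only [Set.mem_union, not_or, Set.mem_iUnion, not_exists] at hw
      obtain ⟨⟨hw1, hw2⟩, hw3⟩ := hw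
      have hnp : ((l, z0, j) : Vert V) ≠ p := by
        intro e
        rw [← e] at hlp
        exact lt_irrefl _ hlp
      have hnq : ((l, z0, j) : Vert V) ≠ q := by
        intro e
        rw [← e] at hlq
        exact lt_irrefl _ hlq
      have hw1' : S c j0 i0 ex ey att o p (l, z0, j) = χ' p (l, z0, j) := by
        by_contra h
        exact hw1 ⟨hnp, Ne.symm h⟩
      have hw2' : S c j0 i0 ex ey att o q (l, z0, j) = χ' q (l, z0, j) := by
        by_contra h
        exact hw2 ⟨hnq, Ne.symm h⟩
      have hw3' : ∀ z ∈ s, (S c j0 i0 ex ey att o (l, z, i z) (l, z0, j) =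
          χ' (l, z, i z) (l, z0, j)) := by
        intro z hz
        by_contra h
        refine hw3 z hz ⟨?_, Ne.symm h⟩
        intro e
        have e1 : z0 = z := by simpa using congrArg (fun v : Vert V => v.2.1) e
        exact hz0 (by rw [e1]; exact hz)
      have hupd : ∀ z ∈ s, Function.update i z0 j z = i z := fun z hz =>
        Function.update_of_ne (fun e => hz0 (by rw [← e]; exact hz)) _ _
      refine ⟨Function.update i z0 j, ?_, ?_⟩
      · intro z hz
        rcases Finset.mem_insert.1 hz with rfl | hz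
        · rw [Function.update_self]
          exact ⟨hw1', hw2'⟩
        · rw [hupd z hz]
          exact hi1 z hz
      · intro z hz z' hz' hzz
        rcases Finset.mem_insert.1 hz with e | hzs
        · rcases Finset.mem_insert.1 hz' with e' | hzs'
          · exact absurd (e.trans e'.symm) hzz
          · rw [e, Function.update_self, hupd z' hzs', hS, hsymm]
            exact hw3' z' hzs'
        · rcases Finset.mem_insert.1 hz' with e' | hzs'
          · rw [e', Function.update_self, hupd z hzs]
            exact hw3' z hzs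
          · rw [hupd z hzs, hupd z' hzs']
            exact hi2 z hzs z' hzs' hzz
  obtain ⟨i, hi1, hi2⟩ := hchoice Finset.univ
  let g : V → Vert V := fun a => if a = y then p else if a = x then q else (l, a, i a)
  have gy : g y = p := by simp [g]
  have gx : g x = q := by simp [g, hxy]
  have gz : ∀ z, z ≠ x → z ≠ y → g z = (l, z, i z) := fun z h1 h2 => by simp [g, h1, h2]
  have hpz : ∀ z, z ≠ x → z ≠ y → χ' p (l, z, i z) = c y z := by
    intro z h1 h2
    rw [← (hi1 z (Finset.mem_univ _)).1, S_lt (show p.1 < l from hlp)]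
    show Old c j0 i0 ex ey att o l p z = _
    unfold Old
    rw [if_neg (by rw [hl]; simp only [hx, hy]; exact fun h => h.elim h1 h2), hl]
    simp only [if_true, hy]
    exact hcol _ _ h2.symm (fun h => hxy h.1.symm) (fun h => h1 h.2)
  have hqz : ∀ z, z ≠ x → z ≠ y → χ' q (l, z, i z) = c x z := by
    intro z h1 h2
    rw [← (hi1 z (Finset.mem_univ _)).2, S_lt (show q.1 < l from hlq)]
    show Old c j0 i0 ex ey att o l q z = _
    unfold Old
    rw [if_neg (by rw [hl]; simp only [hx, hy]; exact fun h => h.elim h1 h2), hl]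
    simp only [if_neg hpq.symm, if_true, hx]
    exact hcol _ _ h1.symm (fun h => h2 h.2) (fun h => hxy h.1)
  have hzz : ∀ z z', z ≠ x → z ≠ y → z' ≠ x → z' ≠ y → z ≠ z' →
      χ' (l, z, i z) (l, z', i z') = c z z' := by
    intro z z' h1 h2 h3 h4 h5
    rw [← hi2 z (Finset.mem_univ _) z' (Finset.mem_univ _) h5]
    have := S_eq (c := c) (j0 := j0) (i0 := i0) (ex := ex) (ey := ey) (att := att) (o := o)
      (p := (l, z, i z)) (q := (l, z', i z')) rfl
    rw [this]
    show New c j0 i0 ex ey att o l z z' = _
    unfold New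
    rw [if_neg (by
      rw [hl]
      simp only [hx, hy]
      rintro (h | h)
      · exact h.elim h1 h2
      · exact h.elim h3 h4)]
    exact hcol _ _ h5 (fun h => h1 h.1) (fun h => h2 h.1)
  have hpl : ∀ z, p ≠ (l, z, i z) := fun z e => by
    rw [e] at hlp
    exact lt_irrefl _ hlp
  have hql : ∀ z, q ≠ (l, z, i z) := fun z e => by
    rw [e] at hlq
    exact lt_irrefl _ hlq
  have hcase : ∀ a : V, a = x ∨ a = y ∨ (a ≠ x ∧ a ≠ y) := by
    intro a
    tauto
  refine ⟨g, ?_, ?_⟩
  · intro a d had
    rcases hcase a with rfl | rfl | ⟨h1, h2⟩ <;> rcases hcase d with rfl | rfl | ⟨h3, h4⟩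
    · rfl
    · rw [gx, gy] at had
      exact absurd had.symm hpq
    · rw [gx, gz d h3 h4] at had
      exact absurd had (hql d)
    · rw [gx, gy] at had
      exact absurd had hpq
    · rfl
    · rw [gy, gz d h3 h4] at had
      exact absurd had (hpl d)
    · rw [gx, gz a h1 h2] at had
      exact absurd had.symm (hql a)
    · rw [gy, gz a h1 h2] at had
      exact absurd had.symm (hpl a)
    · rw [gz a h1 h2, gz d h3 h4] at had
      simpa using congrArg (fun v : Vert V => v.2.1) had
  · intro a d had
    rcases hcase a with rfl | rfl | ⟨h1, h2⟩ <;> rcases hcase d with rfl | rfl | ⟨h3, h4⟩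
    · exact absurd rfl had
    · rw [gx, gy, hsymm, hb, hcb]
    · rw [gx, gz d h3 h4]
      exact hqz d h3 h4
    · rw [gx, gy, hb, hc, hcb]
    · exact absurd rfl had
    · rw [gy, gz d h3 h4]
      exact hpz d h3 h4
    · rw [gx, gz a h1 h2, hsymm, hc]
      exact hqz a h1 h2
    · rw [gy, gz a h1 h2, hsymm, hc]
      exact hpz a h1 h2
    · rw [gz a h1 h2, gz d h3 h4]
      exact hzz a d h1 h2 h3 h4 had

/-- Q1 holds for every edge-colouring `c` of a finite complete graph on at least two vertices,
with any number of colours all of which are used, such that for some colour `i` no two twins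
are joined by an edge of colour `i`, and for some colour `j` the graph of the edges of colour
other than `j` stays connected after deleting any at most one vertex and is rigid at the pairs of
vertices separating it. -/
theorem main {V K : Type} [Finite V] [Nontrivial V] (c : V → V → K) (hc : IsColouring c)
    (hall : ∀ j : K, ∃ x y, x ≠ y ∧ c x y = j) (ht : ∃ i : K, NoTwins c i)
    (hj : ∃ j : K, IsConnectedOff c j ∧ IsRigidOff c j) :
    Holds c := by
  classical
  have : Fintype V := Fintype.ofFinite V
  obtain ⟨j0, hj0, hr0⟩ := hj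
  obtain ⟨i0, hi0⟩ := ht
  choose ex ey hexy hcxy using hall
  obtain ⟨v0, v1, hv⟩ := exists_pair_ne V
  have : Finite K := Finite.of_surjective (fun t : V × V => c t.1 t.2)
    (fun j => ⟨(ex j, ey j), hcxy j⟩)
  have : Nonempty K := ⟨j0⟩
  have : Nonempty (Vert V) := ⟨(0, v0, 0)⟩
  obtain ⟨g, hg⟩ := exists_surjective_nat ((Vert V × Vert V) × K)
  let att : ℕ → (Vert V × Vert V) × K := fun n => g (Nat.unpair n).1
  have hatt : ∀ (p q : Vert V) (b : K), ∃ l, p.1 < l ∧ q.1 < l ∧ att l = ((p, q), b) := by
    intro p q b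
    obtain ⟨m, hm⟩ := hg ((p, q), b)
    refine ⟨Nat.pair m (p.1 + q.1 + 1), ?_, ?_, ?_⟩
    · have := Nat.right_le_pair m (p.1 + q.1 + 1)
      omega
    · have := Nat.right_le_pair m (p.1 + q.1 + 1)
      omega
    · simp only [att, Nat.unpair_pair]
      exact hm
  obtain ⟨o, ho⟩ := exists_orient (c := c) (j0 := j0) (i0 := i0) (ex := ex) (ey := ey) (att := att)
  exact ⟨Vert V, S c j0 i0 ex ey att o, inferInstance, inferInstance, S_symm hc o,
    free hc hj0 hr0 hi0 hexy hcxy ho hv, fun χ' h => perturb hc hexy hcxy hatt ho h⟩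

/-- All edges have different colours. -/
def IsRainbow {V K : Type} (c : V → V → K) : Prop :=
  ∀ x y x' y', x ≠ y → x' ≠ y' → c x y = c x' y' → (x = x' ∧ y = y') ∨ (x = y' ∧ y = x')

theorem rainbow_four {V K : Type} [Finite V] (h4 : 4 ≤ Nat.card V) (c : V → V → K)
    (hc : IsColouring c) (hall : ∀ j : K, ∃ x y, x ≠ y ∧ c x y = j) (hR : IsRainbow c) :
    Holds c := by
  classical
  have : Nontrivial V := Finite.one_lt_card_iff_nontrivial.1 (by omega)
  obtain ⟨s, t, hst⟩ := exists_pair_ne V
  have h3 : ∀ a b : V, ∃ d, d ≠ a ∧ d ≠ b := by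
    intro a b
    by_contra hcon
    push Not at hcon
    have h1 : (Set.univ : Set V) ⊆ {a, b} := by
      intro d _
      by_cases h : d = a
      · exact Or.inl h
      · exact Or.inr (hcon d h)
    have h2 := (Set.ncard_le_ncard h1 (Set.toFinite _)).trans (Set.ncard_insert_le a {b})
    rw [Set.ncard_univ, Set.ncard_singleton] at h2
    omega
  refine main c hc hall ⟨c s t, ?_⟩ ⟨c s t, ?_, ?_⟩
  · intro a b hab _
    obtain ⟨d, hd1, hd2⟩ := h3 a b
    refine ⟨d, hd1, hd2, fun h => ?_⟩
    rcases hR d a d b hd1 hd2 h with h | h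
    · exact hab h.2
    · exact hd2 h.1
  · intro A B hA hB hAB hcard
    by_contra hcon
    push Not at hcon
    have hne : ∀ a ∈ A, ∀ b ∈ B, a ≠ b := by
      rintro a ha b hb rfl
      exact Set.disjoint_left.1 hAB ha hb
    have hA1 : A.ncard ≤ 1 := by
      rw [Set.ncard_le_one (Set.toFinite _)]
      intro a ha a' ha'
      obtain ⟨b, hb⟩ := hB
      rcases hR a b a' b (hne a ha b hb) (hne a' ha' b hb)
        ((hcon a ha b hb).trans (hcon a' ha' b hb).symm) with h | h
      · exact h.1
      · exact h.1.trans h.2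
    have hB1 : B.ncard ≤ 1 := by
      rw [Set.ncard_le_one (Set.toFinite _)]
      intro b hb b' hb'
      obtain ⟨a, ha⟩ := hA
      rcases hR a b a b' (hne a ha b hb) (hne a ha b' hb')
        ((hcon a ha b hb).trans (hcon a ha b' hb').symm) with h | h
      · exact h.2
      · exact h.2.trans h.1
    have h5 := Set.ncard_add_ncard_compl (A ∪ B) (Set.toFinite _) (Set.toFinite _)
    have h6 := Set.ncard_union_le A B
    omega
  · intro A B a b _ hB hAB hab hset _ ψ hψ hpres
    obtain ⟨t', ht'⟩ := hB
    have ha : a ∈ (A ∪ B)ᶜ := by rw [hset]; exact Or.inl rfl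
    have hb : b ∈ (A ∪ B)ᶜ := by rw [hset]; exact Or.inr rfl
    have ha1 : a ∉ A := fun h => ha (Or.inl h)
    have hb1 : b ∉ A := fun h => hb (Or.inl h)
    have ht1 : t' ∉ A := fun h => Set.disjoint_left.1 hAB h ht'
    have hta : t' ≠ a := by
      rintro rfl
      exact ha (Or.inr ht')
    have htb : t' ≠ b := by
      rintro rfl
      exact hb (Or.inr ht')
    have h1 := hR (ψ t') (ψ a) t' a (fun e => hta (hψ ht1 ha1 e)) hta
      (hpres t' a ht1 ha1 hta (fun h => hta h.1) (fun h => htb h.1))
    have h2 := hR (ψ t') (ψ b) t' b (fun e => htb (hψ ht1 hb1 e)) htb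
      (hpres t' b ht1 hb1 htb (fun h => hta h.1) (fun h => htb h.1))
    have h3 : ψ a = a ∧ ψ b = b := by
      rcases h1 with ⟨e1, e2⟩ | ⟨e1, e2⟩ <;> rcases h2 with ⟨e3, e4⟩ | ⟨e3, e4⟩
      · exact ⟨e2, e4⟩
      · exact absurd (e1.symm.trans e3) htb
      · exact absurd (e3.symm.trans e1) hta
      · exact absurd (e1.symm.trans e3) hab
    rw [h3.1, h3.2]

end Pool.Agent.V11110.ABTwo
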