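import Mathlib
import Pool.Agent.V11110.ABTwo

namespace Pool.Agent.V11110.ABTri

open Pool.Agent.V11110.ABTwo

/-- `t` is the largest integer at which `A` and `B` differ. -/
def Top (A B : Finset ℤ) (t : ℤ) : Prop := t ∈ symmDiff A B ∧ ∀ i ∈ symmDiff A B, i ≤ t

theorem exists_top {A B : Finset ℤ} (h : A ≠ B) : ∃ t, Top A B t := by
  have hne : (symmDiff A B).Nonempty := by
    rw [Finset.nonempty_iff_ne_empty]
    intro e
    exact h (symmDiff_eq_bot.1 e)
  exact ⟨(symmDiff A B).max' hne, Finset.max'_mem _ _, fun i hi => Finset.le_max' _ _ hi⟩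

theorem top_unique {A B : Finset ℤ} {t t' : ℤ} (h : Top A B t) (h' : Top A B t') : t = t' :=
  le_antisymm (h'.2 t h.1) (h.2 t' h'.1)

theorem top_symm {A B : Finset ℤ} {t : ℤ} (h : Top A B t) : Top B A t := by
  unfold Top at h ⊢
  rw [symmDiff_comm]
  exact h

theorem top_lt {A B C : Finset ℤ} {t s : ℤ} (h : Top A B t) (h' : Top B C s) (hts : t < s) :
    Top A C s := by
  have key : ∀ i, t < i → (i ∈ symmDiff A C ↔ i ∈ symmDiff B C) := by
    intro i hi
    have h1 : i ∉ symmDiff A B := fun h1 => absurd (h.2 i h1) (by omega)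
    simp only [Finset.mem_symmDiff] at h1 ⊢
    tauto
  refine ⟨(key s hts).2 h'.1, fun i hi => ?_⟩
  by_contra hc
  push Not at hc
  have := h'.2 i ((key i (by omega)).1 hi)
  omega

open Classical in
/-- The colouring: the residue modulo three of the largest integer at which `A`, `B` differ. -/
noncomputable def chi (A B : Finset ℤ) : ZMod 3 :=
  if h : ∃ t, Top A B t then ((Classical.choose h : ℤ) : ZMod 3) else 0

theorem chi_eq {A B : Finset ℤ} {t : ℤ} (h : Top A B t) : chi A B = (t : ZMod 3) := by
  unfold chi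
  rw [dif_pos ⟨t, h⟩, top_unique (Classical.choose_spec (⟨t, h⟩ : ∃ t, Top A B t)) h]

theorem chi_symm : IsColouring chi := by
  intro A B
  by_cases h : A = B
  · rw [h]
  · obtain ⟨t, ht⟩ := exists_top h
    rw [chi_eq ht, chi_eq (top_symm ht)]

theorem not_rainbow {A B C : Finset ℤ} (h1 : A ≠ B) (h2 : B ≠ C) (h3 : A ≠ C) :
    chi A B = chi B C ∨ chi B C = chi A C ∨ chi A B = chi A C := by
  obtain ⟨t, ht⟩ := exists_top h1
  obtain ⟨s, hs⟩ := exists_top h2
  rcases lt_trichotomy t s with h | h | h
  · have := top_lt ht hs h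
    right; left
    rw [chi_eq hs, chi_eq this]
  · left
    rw [chi_eq ht, chi_eq hs, h]
  · have := top_symm (top_lt (top_symm hs) (top_symm ht) h)
    right; right
    rw [chi_eq ht, chi_eq this]

theorem levels (l : ℤ) (j : ZMod 3) : {i : ℤ | i < l ∧ (i : ZMod 3) = j}.Infinite := by
  have hinj : Function.Injective (fun m : ℕ => (j.val : ℤ) - 3 * (m + 1 + l.natAbs)) := by
    intro a b h
    simp only at h
    omega
  refine (Set.infinite_range_of_injective hinj).mono ?_
  rintro _ ⟨m, rfl⟩
  have hj : (j.val : ℤ) < 3 := by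
    have := ZMod.val_lt j
    omega
  refine ⟨by simp only; omega, ?_⟩
  have h3 : (3 : ZMod 3) = 0 := by decide
  push_cast
  rw [h3, zero_mul, sub_zero]
  simp

/-- Q1 holds for the complete graph on three vertices with three colours. -/
theorem triangle (c : Fin 3 → Fin 3 → ZMod 3) (hc : IsColouring c)
    (hall : ∀ j : ZMod 3, ∃ x y, x ≠ y ∧ c x y = j) :
    Holds c := by
  classical
  -- the three edges have different colours
  have hcov : ∀ j, j = c 0 1 ∨ j = c 1 2 ∨ j = c 0 2 := by
    intro j
    obtain ⟨x, y, hxy, rfl⟩ := hall j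
    have h10 := hc 1 0
    have h21 := hc 2 1
    have h20 := hc 2 0
    fin_cases x <;> fin_cases y <;> simp_all
  have hdist : c 0 1 ≠ c 1 2 ∧ c 1 2 ≠ c 0 2 ∧ c 0 1 ≠ c 0 2 := by
    generalize c 0 1 = α at hcov ⊢
    generalize c 1 2 = β at hcov ⊢
    generalize c 0 2 = γ at hcov ⊢
    revert α β γ
    decide
  refine ⟨Finset ℤ, chi, inferInstance, inferInstance, chi_symm, ?_, ?_⟩
  · rintro ⟨f, hf, hfc⟩
    have h1 := hfc 0 1 (by decide)
    have h2 := hfc 1 2 (by decide)
    have h3 := hfc 0 2 (by decide)
    have := not_rainbow (A := f 0) (B := f 1) (C := f 2)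
      (fun e => absurd (hf e) (by decide)) (fun e => absurd (hf e) (by decide))
      (fun e => absurd (hf e) (by decide))
    rw [h1, h2, h3] at this
    tauto
  · rintro χ' ⟨hsymm, ⟨p, q, hpq, hne⟩, hfin⟩
    obtain ⟨l, hl⟩ := exists_top hpq
    have ha := chi_eq hl
    -- the third colour
    obtain ⟨s, hs1, hs2⟩ : ∃ s : ZMod 3, s ≠ chi p q ∧ s ≠ χ' p q := by
      generalize chi p q = α
      generalize χ' p q = β
      revert α β
      decide
    have hw : ∃ w : Finset ℤ, w ≠ p ∧ w ≠ q ∧ χ' p w = s ∧ χ' q w = chi p q := by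
      have hinj : Function.Injective (fun i : ℤ => symmDiff p {i}) := by
        intro i j h
        have h1 : ({i} : Finset ℤ) = {j} := symmDiff_right_injective p h
        exact Finset.singleton_injective h1
      have hinf := (levels l s).image hinj.injOn
      obtain ⟨w, ⟨i, ⟨hi1, hi2⟩, rfl⟩, hw⟩ := (hinf.sdiff ((hfin p).union (hfin q))).nonempty
      simp only [Set.mem_union, not_or] at hw
      obtain ⟨hw1, hw2⟩ := hw
      have htop : Top p (symmDiff p {i}) i := by
        unfold Top
        rw [symmDiff_symmDiff_cancel_left]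
        simp
      have htop2 : Top q (symmDiff p {i}) l := top_symm (top_lt (top_symm htop) hl hi1)
      have hwp : symmDiff p {i} ≠ p := by
        intro e
        have := htop.1
        rw [e, symmDiff_self] at this
        simp at this
      have hwq : symmDiff p {i} ≠ q := by
        intro e
        have := htop2.1
        rw [e, symmDiff_self] at this
        simp at this
      refine ⟨symmDiff p {i}, hwp, hwq, ?_, ?_⟩
      · have h1 : χ' p (symmDiff p {i}) = chi p (symmDiff p {i}) := by
          by_contra h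
          exact hw1 ⟨hwp, h⟩
        rw [h1, chi_eq htop, hi2]
      · have h1 : χ' q (symmDiff p {i}) = chi q (symmDiff p {i}) := by
          by_contra h
          exact hw2 ⟨hwq, h⟩
        rw [h1, chi_eq htop2, ha]
    obtain ⟨w, hwp, hwq, hpw, hqw⟩ := hw
    -- the edge of `c` with the new colour of `pq`
    have fin : ∀ x y z : Fin 3, x ≠ y → x ≠ z → y ≠ z → (∀ v, v = x ∨ v = y ∨ v = z) →
        c x y = χ' p q → c x z = s → c y z = chi p q → Contains χ' c := by
      intro x y z hxy hxz hyz hcase h1 h2 h3
      let g : Fin 3 → Finset ℤ := fun v => if v = x then p else if v = y then q else w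
      have gx : g x = p := by simp [g]
      have gy : g y = q := by simp [g, hxy.symm]
      have gz : g z = w := by simp [g, hxz.symm, hyz.symm]
      refine ⟨g, ?_, ?_⟩
      · intro u v huv
        rcases hcase u with rfl | rfl | rfl <;> rcases hcase v with rfl | rfl | rfl <;>
          first
          | rfl
          | (exfalso; simp only [gx, gy, gz] at huv; first
              | exact hpq huv
              | exact hpq huv.symm
              | exact hwp huv
              | exact hwp huv.symm
              | exact hwq huv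
              | exact hwq huv.symm)
      · intro u v huv
        rcases hcase u with rfl | rfl | rfl <;> rcases hcase v with rfl | rfl | rfl
        · exact absurd rfl huv
        · rw [gx, gy, h1]
        · rw [gx, gz, h2, hpw]
        · rw [gx, gy, hsymm, hc, h1]
        · exact absurd rfl huv
        · rw [gy, gz, h3, hqw]
        · rw [gx, gz, hsymm, hc, h2, hpw]
        · rw [gy, gz, hsymm, hc, h3, hqw]
        · exact absurd rfl huv
    obtain ⟨x, y, hxy, hxyb⟩ := hall (χ' p q)
    obtain ⟨z, hzx, hzy, hcase⟩ : ∃ z : Fin 3, x ≠ z ∧ y ≠ z ∧ ∀ v, v = x ∨ v = y ∨ v = z := by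
      clear * - hxy
      revert x y
      decide
    -- all three colours occur at `x y z`
    have hd3 : c x y ≠ c x z ∧ c x y ≠ c y z ∧ c x z ≠ c y z := by
      have h10 := hc 1 0
      have h21 := hc 2 1
      have h20 := hc 2 0
      obtain ⟨d1, d2, d3⟩ := hdist
      clear * - hxy hzx hzy h10 h21 h20 d1 d2 d3
      fin_cases x <;> fin_cases y <;> fin_cases z <;>
        first
        | (exfalso; revert hxy hzx hzy; decide)
        | (refine ⟨?_, ?_, ?_⟩ <;> intro h <;> simp_all)
    have hrest : (c x z = s ∧ c y z = chi p q) ∨ (c x z = chi p q ∧ c y z = s) := by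
      rw [hxyb] at hd3
      obtain ⟨e1, e2, e3⟩ := hd3
      have hne' : χ' p q ≠ chi p q := hne
      generalize c x z = α at *
      generalize c y z = β at *
      generalize chi p q = γ at *
      generalize χ' p q = δ at *
      clear * - e1 e2 e3 hne' hs1 hs2
      revert α β γ δ s
      decide
    rcases hrest with ⟨h1, h2⟩ | ⟨h1, h2⟩
    · exact fin x y z hxy hzx hzy hcase hxyb h1 h2
    · exact fin y x z hxy.symm hzy hzx (fun v => by have := hcase v; tauto)
        (by rw [hc, hxyb]) h2 h1

theorem transport {V V' K K' : Type} (e : V ≃ V') (k : K ≃ K') (c : V → V → K)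
    (c' : V' → V' → K') (h : ∀ x y, x ≠ y → c' (e x) (e y) = k (c x y)) (hH : Holds c') :
    Holds c := by
  obtain ⟨X, χ, h1, h2, h3, h4, h5⟩ := hH
  refine ⟨X, fun a b => k.symm (χ a b), h1, h2, fun a b => by simp only [h3 a b], ?_, ?_⟩
  · rintro ⟨f, hf, hfc⟩
    refine h4 ⟨f ∘ e.symm, hf.comp e.symm.injective, fun a b hab => ?_⟩
    have hab' : e.symm a ≠ e.symm b := fun he => hab (e.symm.injective he)
    have h6 := hfc _ _ hab'
    have h7 := h _ _ hab'
    rw [Equiv.apply_symm_apply, Equiv.apply_symm_apply, ← h6, Equiv.apply_symm_apply] at h7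
    exact h7.symm
  · rintro ρ ⟨hρ1, ⟨p, q, hpq, hρ2⟩, hρ3⟩
    obtain ⟨f, hf, hfc⟩ := h5 (fun a b => k (ρ a b)) ⟨fun a b => by simp only [hρ1 a b],
      ⟨p, q, hpq, fun he => hρ2 (by
        have he' : k (ρ p q) = χ p q := he
        show ρ p q = k.symm (χ p q)
        rw [← he', Equiv.symm_apply_apply])⟩, fun v =>
        (hρ3 v).subset (fun w hw => ⟨hw.1, fun he => hw.2 (by
          show k (ρ v w) = χ v w
          rw [he, Equiv.apply_symm_apply])⟩)⟩
    refine ⟨f ∘ e, hf.comp e.injective, fun a b hab => ?_⟩
    have h6 := hfc (e a) (e b) (fun he => hab (e.injective he))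
    rw [h a b hab] at h6
    exact k.injective h6

theorem rainbow_three {V K : Type} [Finite V] (h3 : Nat.card V = 3) (c : V → V → K)
    (hc : IsColouring c) (hall : ∀ j : K, ∃ x y, x ≠ y ∧ c x y = j) (hR : IsRainbow c) :
    Holds c := by
  classical
  obtain ⟨e⟩ : Nonempty (V ≃ Fin 3) := ⟨Finite.equivFinOfCardEq h3⟩
  let φ : Fin 3 → K := fun m => c (e.symm (m + 1)) (e.symm (m + 2))
  have hne : ∀ m : Fin 3, e.symm (m + 1) ≠ e.symm (m + 2) := by
    intro m he
    have := e.symm.injective he
    clear * - this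
    revert m
    decide
  have hφ : Function.Bijective φ := by
    constructor
    · intro m m' h
      rcases hR _ _ _ _ (hne m) (hne m') h with ⟨h1, h2⟩ | ⟨h1, h2⟩
      · have := e.symm.injective h1
        exact add_right_cancel this
      · have a1 := e.symm.injective h1
        have a2 := e.symm.injective h2
        clear * - a1 a2
        revert m m'
        decide
    · intro j
      obtain ⟨x, y, hxy, rfl⟩ := hall j
      obtain ⟨m, hm⟩ : ∃ m : Fin 3, (m + 1 = e x ∧ m + 2 = e y) ∨ (m + 1 = e y ∧ m + 2 = e x) := by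
        have : e x ≠ e y := fun h => hxy (e.injective h)
        generalize e x = a at this ⊢
        generalize e y = b at this ⊢
        clear * - this
        revert a b
        decide
      refine ⟨m, ?_⟩
      rcases hm with ⟨h1, h2⟩ | ⟨h1, h2⟩
      · show c (e.symm (m + 1)) (e.symm (m + 2)) = _
        rw [h1, h2, Equiv.symm_apply_apply, Equiv.symm_apply_apply]
      · show c (e.symm (m + 1)) (e.symm (m + 2)) = _
        rw [h1, h2, Equiv.symm_apply_apply, Equiv.symm_apply_apply, hc]
  let k : K ≃ ZMod 3 := (Equiv.ofBijective φ hφ).symm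
  refine transport e k c (fun a b => k (c (e.symm a) (e.symm b)))
    (fun x y _ => by simp only [Equiv.symm_apply_apply]) (triangle _ ?_ ?_)
  · intro a b
    show k _ = k _
    rw [hc]
  · intro j
    obtain ⟨x, y, hxy, hj⟩ := hall (k.symm j)
    refine ⟨e x, e y, fun h => hxy (e.injective h), ?_⟩
    show k _ = j
    rw [Equiv.symm_apply_apply, Equiv.symm_apply_apply, hj, Equiv.apply_symm_apply]

end Pool.Agent.V11110.ABTri
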