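import Mathlib

namespace Pool.Agent.V11110.QL

open Matrix

/-- the ring of integers generated by the square root of 7 -/
abbrev R7 : Type := Zsqrtd 7

/-- quaternion order with `i ^ 2 = -1`, `j ^ 2 = 3` -/
abbrev Ord : Type := QuaternionAlgebra R7 (-1) 0 3

theorem sqrt7_sq : Real.sqrt 7 * Real.sqrt 7 = 7 := Real.mul_self_sqrt (by norm_num)
theorem sqrt3_sq : Real.sqrt 3 * Real.sqrt 3 = 3 := Real.mul_self_sqrt (by norm_num)

/-- sign of the place -/
noncomputable def eps (p : Bool) : ℝ := if p then -Real.sqrt 7 else Real.sqrt 7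

theorem eps_sq (p : Bool) : eps p * eps p = 7 := by
  unfold eps
  split_ifs
  · rw [neg_mul_neg, sqrt7_sq]
  · exact sqrt7_sq

/-- real embeddings -/
noncomputable def sg (p : Bool) : R7 →+* ℝ := Zsqrtd.lift ⟨eps p, by rw [eps_sq]; norm_num⟩

theorem sg_apply (p : Bool) (r : R7) : sg p r = (r.re : ℝ) + (r.im : ℝ) * eps p := rfl

theorem nonsq7 : ∀ n : ℤ, (7 : ℤ) ≠ n * n := by
  intro n h
  have h1 : n ≤ 2 ∨ 3 ≤ n := by omega
  have h2 : n ≤ -3 ∨ -2 ≤ n := by omega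
  rcases h1 with h1 | h1
  · rcases h2 with h2 | h2
    · nlinarith
    · interval_cases n <;> omega
  · nlinarith

theorem sg_injective (p : Bool) : Function.Injective (sg p) := Zsqrtd.lift_injective _ nonsq7

instance : IsDomain R7 := (sg_injective false).isDomain (sg false)

theorem sg_three (p : Bool) : sg p 3 = 3 := map_ofNat (sg p) 3

theorem sg_mul_sg (r : R7) : sg false r * sg true r = ((r.norm : ℤ) : ℝ) := by
  rw [sg_apply, sg_apply, Zsqrtd.norm_def]
  have h : eps true = -Real.sqrt 7 := rfl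
  have h' : eps false = Real.sqrt 7 := rfl
  rw [h, h']
  have h7 := sqrt7_sq
  push_cast
  linear_combination (-(r.im : ℝ) * r.im) * h7

theorem norm_eq_zero' (r : R7) : r.norm = 0 ↔ r = 0 := Zsqrtd.norm_eq_zero nonsq7 r

theorem one_le_abs_prod (r : R7) (hr : r ≠ 0) : 1 ≤ |sg false r| * |sg true r| := by
  rw [← abs_mul, sg_mul_sg, ← Int.cast_abs]
  have h : r.norm ≠ 0 := fun h => hr ((norm_eq_zero' r).1 h)
  exact_mod_cast Int.one_le_abs h

theorem eq_zero_of_small (r : R7) (h0 : 0 ≤ sg false r) (h1 : 0 ≤ sg true r)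
    (h2 : sg false r ≤ 4 / 9) (h3 : sg true r ≤ 4 / 9) : r = 0 := by
  by_contra hr
  have h := one_le_abs_prod r hr
  rw [abs_of_nonneg h0, abs_of_nonneg h1] at h
  nlinarith

theorem finite_bounded (A : ℝ) : {r : R7 | |sg false r| ≤ A ∧ |sg true r| ≤ A}.Finite := by
  have hfin : ((fun q : ℤ × ℤ => (⟨q.1, q.2⟩ : R7)) ''
      ((Set.Icc (-⌈A⌉) ⌈A⌉) ×ˢ (Set.Icc (-⌈A⌉) ⌈A⌉))).Finite :=
    ((Set.finite_Icc _ _).prod (Set.finite_Icc _ _)).image _
  refine hfin.subset ?_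
  rintro ⟨a, b⟩ ⟨h1, h2⟩
  rw [sg_apply] at h1 h2
  have e0 : eps false = Real.sqrt 7 := rfl
  have e1 : eps true = -Real.sqrt 7 := rfl
  rw [e0] at h1
  rw [e1] at h2
  simp only at h1 h2
  have h7 : (1:ℝ) ≤ Real.sqrt 7 := by
    rw [Real.one_le_sqrt]; norm_num
  rw [abs_le] at h1 h2
  have ha : |(a : ℝ)| ≤ A := by rw [abs_le]; constructor <;> linarith [h1.1, h1.2, h2.1, h2.2]
  have hb' : |(b : ℝ) * Real.sqrt 7| ≤ A := by
    rw [abs_le]; constructor <;> linarith [h1.1, h1.2, h2.1, h2.2]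
  have hb : |(b : ℝ)| ≤ A := by
    rw [abs_mul, abs_of_nonneg (Real.sqrt_nonneg 7)] at hb'
    have := abs_nonneg (b : ℝ)
    nlinarith
  have key : ∀ z : ℤ, |(z : ℝ)| ≤ A → z ∈ Set.Icc (-⌈A⌉) ⌈A⌉ := by
    intro z hz
    have h4 := Int.le_ceil A
    rw [abs_le] at hz
    constructor
    · have : (-(⌈A⌉ : ℤ) : ℝ) ≤ (z : ℝ) := by linarith [hz.1]
      exact_mod_cast this
    · have : (z : ℝ) ≤ ((⌈A⌉ : ℤ) : ℝ) := by linarith [hz.2]
      exact_mod_cast this
  exact ⟨(a, b), ⟨key a ha, key b hb⟩, rfl⟩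

/-! ### the quaternion order -/

/-- conjugate -/
def cj (q : Ord) : Ord := ⟨q.re, -q.imI, -q.imJ, -q.imK⟩

/-- reduced norm -/
def nrd (q : Ord) : R7 := q.re * q.re + q.imI * q.imI - 3 * (q.imJ * q.imJ) - 3 * (q.imK * q.imK)

/-- scalars -/
def sc (r : R7) : Ord := ⟨r, 0, 0, 0⟩

theorem mul_cj (q : Ord) : q * cj q = sc (nrd q) := by
  ext1 <;> simp [cj, nrd, sc] <;> ring

theorem cj_mul (q : Ord) : cj q * q = sc (nrd q) := by
  ext1 <;> simp [cj, nrd, sc] <;> ring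

theorem nrd_mul (q r : Ord) : nrd (q * r) = nrd q * nrd r := by
  simp [nrd]; ring

theorem nrd_one : nrd 1 = 1 := by simp [nrd]

theorem nrd_cj (q : Ord) : nrd (cj q) = nrd q := by simp [nrd, cj]

theorem sc_mul (r : R7) (q : Ord) : sc r * q = ⟨r * q.re, r * q.imI, r * q.imJ, r * q.imK⟩ := by
  ext1 <;> simp [sc]

theorem sc_comm (r : R7) (q : Ord) : sc r * q = q * sc r := by
  ext1 <;> simp [sc] <;> ring

theorem sc_mul_sc (r s : R7) : sc r * sc s = sc (r * s) := by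
  ext1 <;> simp [sc]

theorem nrd_sc (r : R7) : nrd (sc r) = r * r := by simp [nrd, sc]

/-- the real matrix representations -/
noncomputable def rho (p : Bool) (q : Ord) : Matrix (Fin 2) (Fin 2) ℝ :=
  !![sg p q.re + Real.sqrt 3 * sg p q.imJ, -sg p q.imI + Real.sqrt 3 * sg p q.imK;
     sg p q.imI + Real.sqrt 3 * sg p q.imK, sg p q.re - Real.sqrt 3 * sg p q.imJ]

theorem rho_mul (p : Bool) (q r : Ord) : rho p (q * r) = rho p q * rho p r := by
  have h3 := sqrt3_sq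
  ext i j
  fin_cases i <;> fin_cases j <;>
    simp [rho, Matrix.mul_apply, Fin.sum_univ_two, sg_three]
  · linear_combination (-(sg p q.imJ * sg p r.imJ + sg p q.imK * sg p r.imK)) * h3
  · linear_combination (-(sg p q.imJ * sg p r.imK - sg p q.imK * sg p r.imJ)) * h3
  · linear_combination (-(sg p q.imK * sg p r.imJ - sg p q.imJ * sg p r.imK)) * h3
  · linear_combination (-(sg p q.imJ * sg p r.imJ + sg p q.imK * sg p r.imK)) * h3

theorem rho_det (p : Bool) (q : Ord) : (rho p q).det = sg p (nrd q) := by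
  have h3 := sqrt3_sq
  rw [Matrix.det_fin_two]
  simp [rho, nrd, sg_three]
  linear_combination (-(sg p q.imJ * sg p q.imJ + sg p q.imK * sg p q.imK)) * h3

theorem rho_one (p : Bool) : rho p 1 = 1 := by
  ext i j
  fin_cases i <;> fin_cases j <;> simp [rho]

theorem rho_cj (p : Bool) (q : Ord) : rho p (cj q) = (rho p q).adjugate := by
  rw [Matrix.adjugate_fin_two]
  ext i j
  fin_cases i <;> fin_cases j <;> simp [rho, cj] <;> ring

/-- entries bound coordinates -/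
theorem coord_bound (p : Bool) (q : Ord) (A : ℝ) (h : ∀ i j, |rho p q i j| ≤ A) :
    |sg p q.re| ≤ A ∧ |sg p q.imI| ≤ A ∧ |sg p q.imJ| ≤ A ∧ |sg p q.imK| ≤ A := by
  have h3 : (1:ℝ) ≤ Real.sqrt 3 := by rw [Real.one_le_sqrt]; norm_num
  have h00 := h 0 0
  have h01 := h 0 1
  have h10 := h 1 0
  have h11 := h 1 1
  simp only [rho, Matrix.of_apply, Matrix.cons_val', Matrix.cons_val_zero, Matrix.cons_val_one,
    Matrix.cons_val_fin_one] at h00 h01 h10 h11
  rw [abs_le] at h00 h01 h10 h11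
  have key : ∀ x : ℝ, |Real.sqrt 3 * x| ≤ A → |x| ≤ A := by
    intro x hx
    rw [abs_mul, abs_of_nonneg (Real.sqrt_nonneg 3)] at hx
    have := abs_nonneg x
    nlinarith
  refine ⟨?_, ?_, key _ ?_, key _ ?_⟩ <;> rw [abs_le] <;> constructor <;>
    linarith [h00.1, h00.2, h01.1, h01.2, h10.1, h10.2, h11.1, h11.2]

theorem finite_ord (A : ℝ) : {q : Ord | ∀ p i j, |rho p q i j| ≤ A}.Finite := by
  have hF := finite_bounded A
  have hfin : ((fun q : R7 × R7 × R7 × R7 => (⟨q.1, q.2.1, q.2.2.1, q.2.2.2⟩ : Ord)) ''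
      ({r : R7 | |sg false r| ≤ A ∧ |sg true r| ≤ A} ×ˢ
      ({r : R7 | |sg false r| ≤ A ∧ |sg true r| ≤ A} ×ˢ
      ({r : R7 | |sg false r| ≤ A ∧ |sg true r| ≤ A} ×ˢ
      {r : R7 | |sg false r| ≤ A ∧ |sg true r| ≤ A})))).Finite :=
    (hF.prod (hF.prod (hF.prod hF))).image _
  refine hfin.subset ?_
  rintro ⟨a, b, c, d⟩ h
  have h0 := coord_bound false ⟨a, b, c, d⟩ A (h false)
  have h1 := coord_bound true ⟨a, b, c, d⟩ A (h true)
  exact ⟨(a, b, c, d), ⟨⟨h0.1, h1.1⟩, ⟨h0.2.1, h1.2.1⟩, ⟨h0.2.2.1, h1.2.2.1⟩,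
    ⟨h0.2.2.2, h1.2.2.2⟩⟩, rfl⟩

/-! ### anisotropy -/

/-- reduction modulo the prime `2 + √7` -/
def red (r : R7) : ZMod 3 := (r.re : ZMod 3) + (r.im : ZMod 3)

theorem red_mul (r s : R7) : red (r * s) = red r * red s := by
  unfold red
  rw [Zsqrtd.re_mul, Zsqrtd.im_mul]
  push_cast
  have h : (7 : ZMod 3) = 1 := by decide
  rw [h]; ring

theorem red_add (r s : R7) : red (r + s) = red r + red s := by
  unfold red
  rw [Zsqrtd.re_add, Zsqrtd.im_add]
  push_cast; ring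

theorem red_neg (r : R7) : red (-r) = -red r := by
  unfold red
  rw [Zsqrtd.re_neg, Zsqrtd.im_neg]
  push_cast; ring

def pi7 : R7 := ⟨2, 1⟩
def pi7' : R7 := ⟨2, -1⟩

theorem exists_div_pi (r : R7) (h : red r = 0) : ∃ s, r = pi7 * s := by
  unfold red at h
  rw [← Int.cast_add, ZMod.intCast_zmod_eq_zero_iff_dvd] at h
  obtain ⟨k, hk⟩ := h
  push_cast at hk
  refine ⟨⟨-(2 * k) + 3 * r.im, k - r.im⟩, ?_⟩
  apply Zsqrtd.ext
  · rw [Zsqrtd.re_mul]
    show r.re = 2 * (-(2 * k) + 3 * r.im) + 7 * 1 * (k - r.im)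
    linarith
  · rw [Zsqrtd.im_mul]
    show r.im = 2 * (k - r.im) + 1 * (-(2 * k) + 3 * r.im)
    linarith

theorem sq_add_sq_zmod3 : ∀ a b : ZMod 3, a * a + b * b = 0 → a = 0 ∧ b = 0 := by decide

theorem three_eq : (3 : R7) = -(pi7 * pi7') := by
  apply Zsqrtd.ext <;> simp [pi7, pi7', Zsqrtd.re_mul, Zsqrtd.im_mul]

theorem pi7_ne : pi7 ≠ 0 := by
  intro h
  have := congrArg Zsqrtd.re h
  simp [pi7] at this

theorem aniso_aux (n : ℕ) : ∀ x y z w : R7,
    x.norm.natAbs + y.norm.natAbs + z.norm.natAbs + w.norm.natAbs ≤ n →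
    x * x + y * y = 3 * (z * z + w * w) → x = 0 ∧ y = 0 ∧ z = 0 ∧ w = 0 := by
  induction n with
  | zero =>
    intro x y z w h _
    refine ⟨?_, ?_, ?_, ?_⟩ <;>
      (apply (norm_eq_zero' _).1; apply Int.natAbs_eq_zero.1; omega)
  | succ n ih =>
    intro x y z w h heq
    have h1 : red (x * x + y * y) = 0 := by
      rw [heq, red_mul]
      have : red 3 = 0 := by decide
      rw [this, zero_mul]
    rw [red_add, red_mul, red_mul] at h1
    obtain ⟨hx, hy⟩ := sq_add_sq_zmod3 _ _ h1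
    obtain ⟨x', rfl⟩ := exists_div_pi x hx
    obtain ⟨y', rfl⟩ := exists_div_pi y hy
    have h2 : pi7 * (x' * x' + y' * y') = -pi7' * (z * z + w * w) := by
      apply mul_left_cancel₀ pi7_ne
      rw [three_eq] at heq
      linear_combination heq
    have h3 : red (-pi7' * (z * z + w * w)) = 0 := by
      rw [← h2, red_mul]
      have : red pi7 = 0 := by decide
      rw [this, zero_mul]
    rw [red_mul, red_add, red_mul, red_mul] at h3
    have h4 : red (-pi7') = -1 := by decide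
    rw [h4] at h3
    have h5 : red z * red z + red w * red w = 0 := by
      linear_combination -h3
    obtain ⟨hz, hw⟩ := sq_add_sq_zmod3 _ _ h5
    obtain ⟨z', rfl⟩ := exists_div_pi z hz
    obtain ⟨w', rfl⟩ := exists_div_pi w hw
    have h6 : x' * x' + y' * y' = 3 * (z' * z' + w' * w') := by
      apply mul_left_cancel₀ pi7_ne
      rw [h2, three_eq]; ring
    have hn : ∀ s : R7, (pi7 * s).norm.natAbs = 3 * s.norm.natAbs := by
      intro s
      rw [Zsqrtd.norm_mul, Int.natAbs_mul]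
      rfl
    rw [hn, hn, hn, hn] at h
    obtain ⟨a, b, c, d⟩ := ih x' y' z' w' (by omega) h6
    subst a b c d
    simp

theorem nrd_eq_zero {q : Ord} (h : nrd q = 0) : q = 0 := by
  unfold nrd at h
  have h1 : q.re * q.re + q.imI * q.imI = 3 * (q.imJ * q.imJ + q.imK * q.imK) := by
    linear_combination h
  obtain ⟨a, b, c, d⟩ := aniso_aux _ _ _ _ _ le_rfl h1
  ext1
  · exact a
  · exact b
  · exact c
  · exact d

end Pool.Agent.V11110.QL
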