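import Mathlib
import Pool.Agent.V11110.QL1

namespace Pool.Agent.V11110.QL

open Matrix MeasureTheory

abbrev Idx : Type := Fin 2 × (Bool × Fin 2)

/-- integer coordinates of the order -/
def ofInt (n : Idx → ℤ) : Ord :=
  ⟨⟨n (0, (false, 0)), n (0, (true, 0))⟩, ⟨n (1, (false, 0)), n (1, (true, 0))⟩,
   ⟨n (0, (false, 1)), n (0, (true, 1))⟩, ⟨n (1, (false, 1)), n (1, (true, 1))⟩⟩

theorem ofInt_eq_zero {n : Idx → ℤ} (h : ofInt n = 0) : n = 0 := by
  have h1 := congrArg QuaternionAlgebra.re h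
  have h2 := congrArg QuaternionAlgebra.imI h
  have h3 := congrArg QuaternionAlgebra.imJ h
  have h4 := congrArg QuaternionAlgebra.imK h
  simp only [ofInt] at h1 h2 h3 h4
  have a1 := congrArg Zsqrtd.re h1
  have a2 := congrArg Zsqrtd.im h1
  have a3 := congrArg Zsqrtd.re h2
  have a4 := congrArg Zsqrtd.im h2
  have a5 := congrArg Zsqrtd.re h3
  have a6 := congrArg Zsqrtd.im h3
  have a7 := congrArg Zsqrtd.re h4
  have a8 := congrArg Zsqrtd.im h4
  funext i
  obtain ⟨r, p, c⟩ := i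
  fin_cases r <;> cases p <;> fin_cases c
  · exact a1
  · exact a5
  · exact a2
  · exact a6
  · exact a3
  · exact a7
  · exact a4
  · exact a8

/-- coordinate at a place -/
noncomputable def cf (x : Idx → ℝ) (p : Bool) (r c : Fin 2) : ℝ :=
  x (r, (false, c)) + x (r, (true, c)) * eps p

noncomputable def iotaFun (x : Idx → ℝ) : Idx → ℝ := fun i =>
  !![cf x i.2.1 0 0 + Real.sqrt 3 * cf x i.2.1 0 1, -cf x i.2.1 1 0 + Real.sqrt 3 * cf x i.2.1 1 1;
     cf x i.2.1 1 0 + Real.sqrt 3 * cf x i.2.1 1 1, cf x i.2.1 0 0 - Real.sqrt 3 * cf x i.2.1 0 1]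
    i.1 i.2.2

noncomputable def iota : (Idx → ℝ) →ₗ[ℝ] (Idx → ℝ) where
  toFun := iotaFun
  map_add' x y := by
    funext ⟨r, p, c⟩
    fin_cases r <;> fin_cases c <;> simp [iotaFun, cf] <;> ring
  map_smul' a x := by
    funext ⟨r, p, c⟩
    fin_cases r <;> fin_cases c <;> simp [iotaFun, cf] <;> ring

theorem iota_ofInt (n : Idx → ℤ) (p : Bool) (r c : Fin 2) :
    iota (fun i => (n i : ℝ)) (r, (p, c)) = rho p (ofInt n) r c := by
  show iotaFun _ _ = _
  fin_cases r <;> fin_cases c <;> simp [iotaFun, cf, rho, ofInt, sg_apply]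

theorem iota_injective : Function.Injective iota := by
  rw [injective_iff_map_eq_zero]
  intro x hx
  have h3 : Real.sqrt 3 ≠ 0 := by positivity
  have h7 : Real.sqrt 7 ≠ 0 := by positivity
  have hcf : ∀ p r c, cf x p r c = 0 := by
    intro p
    have h00 := congrFun hx (0, (p, 0))
    have h01 := congrFun hx (0, (p, 1))
    have h10 := congrFun hx (1, (p, 0))
    have h11 := congrFun hx (1, (p, 1))
    change iotaFun x _ = 0 at h00 h01 h10 h11
    simp [iotaFun] at h00 h01 h10 h11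
    have a : cf x p 0 0 = 0 := by linarith
    have b : Real.sqrt 3 * cf x p 0 1 = 0 := by linarith
    have c : cf x p 1 0 = 0 := by linarith
    have d : Real.sqrt 3 * cf x p 1 1 = 0 := by linarith
    have b' := (mul_eq_zero.1 b).resolve_left h3
    have d' := (mul_eq_zero.1 d).resolve_left h3
    intro r c
    fin_cases r <;> fin_cases c
    · exact a
    · exact b'
    · assumption
    · exact d'
  have hx0 : ∀ r c, x (r, (false, c)) = 0 ∧ x (r, (true, c)) = 0 := by
    intro r c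
    have e0 := hcf false r c
    have e1 := hcf true r c
    have k0 : eps false = Real.sqrt 7 := rfl
    have k1 : eps true = -Real.sqrt 7 := rfl
    unfold cf at e0 e1
    rw [k0] at e0
    rw [k1] at e1
    have f0 : x (r, (false, c)) = 0 := by linarith
    have f1 : x (r, (true, c)) * Real.sqrt 7 = 0 := by linarith
    exact ⟨f0, (mul_eq_zero.1 f1).resolve_right h7⟩
  funext ⟨r, p, c⟩
  cases p
  · exact (hx0 r c).1
  · exact (hx0 r c).2

theorem det_iota_ne : LinearMap.det iota ≠ 0 := by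
  have h := (LinearEquiv.ofInjectiveEndo iota iota_injective).isUnit_det'
  have h2 : ((LinearEquiv.ofInjectiveEndo iota iota_injective : (Idx → ℝ) ≃ₗ[ℝ] (Idx → ℝ)) :
      (Idx → ℝ) →ₗ[ℝ] (Idx → ℝ)) = iota := by ext; simp
  rw [h2] at h
  exact h.ne_zero

noncomputable def fG (G : Bool → Matrix (Fin 2) (Fin 2) ℝ) : (Idx → ℝ) →ₗ[ℝ] (Idx → ℝ) :=
  Matrix.toLin' (Matrix.blockDiagonal (fun pc : Bool × Fin 2 => G pc.1))

theorem det_fG (G : Bool → Matrix (Fin 2) (Fin 2) ℝ) (hG : ∀ p, (G p).det = 1) :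
    LinearMap.det (fG G) = 1 := by
  unfold fG
  rw [LinearMap.det_toLin', Matrix.det_blockDiagonal]
  apply Finset.prod_eq_one
  intro pc _
  exact hG pc.1

theorem fG_apply (G : Bool → Matrix (Fin 2) (Fin 2) ℝ) (x : Idx → ℝ) (r : Fin 2) (p : Bool)
    (c : Fin 2) : fG G x (r, (p, c)) = ∑ r', G p r r' * x (r', (p, c)) := by
  unfold fG
  rw [Matrix.toLin'_apply, Matrix.mulVec, dotProduct, Fintype.sum_prod_type]
  apply Finset.sum_congr rfl
  intro r' _
  rw [Finset.sum_eq_single (p, c)]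
  · rw [Matrix.blockDiagonal_apply, if_pos rfl]
  · intro b _ hb
    rw [Matrix.blockDiagonal_apply, if_neg (Ne.symm hb), zero_mul]
  · intro h; exact absurd (Finset.mem_univ _) h

theorem minkowski : ∃ C : ℝ, 0 < C ∧ ∀ G : Bool → Matrix (Fin 2) (Fin 2) ℝ,
    (∀ p, (G p).det = 1) → ∃ α : Ord, α ≠ 0 ∧ ∀ p i j, |(G p * rho p α) i j| < C := by
  set d : ℝ := |LinearMap.det iota| with hd
  have hdpos : 0 < d := abs_pos.2 det_iota_ne
  refine ⟨d + 1, by linarith, ?_⟩
  intro G hG
  set f : (Idx → ℝ) →ₗ[ℝ] (Idx → ℝ) := (fG G).comp iota with hf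
  have hdet : LinearMap.det f = LinearMap.det iota := by
    rw [hf, LinearMap.det_comp, det_fG G hG, one_mul]
  set s : Set (Idx → ℝ) := f ⁻¹' (Set.pi Set.univ fun _ => Set.Ioo (-(d + 1)) (d + 1)) with hs
  have hvol : volume s = ENNReal.ofReal (d⁻¹ * (2 * (d + 1)) ^ 8) := by
    rw [hs, Measure.addHaar_preimage_linearMap _ (by rw [hdet]; exact det_iota_ne),
      Real.volume_pi_Ioo, hdet, abs_inv, ← hd, Finset.prod_const, ← ENNReal.ofReal_pow (by linarith),
      ← ENNReal.ofReal_mul (by positivity)]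
    congr 2
    have : (Finset.univ : Finset Idx).card = 8 := by decide
    rw [this]; ring
  have hF : volume (ZSpan.fundamentalDomain (Pi.basisFun ℝ Idx)) = 1 := by
    rw [ZSpan.fundamentalDomain_pi_basisFun, Real.volume_pi_Ico]
    simp
  have hfr : Module.finrank ℝ (Idx → ℝ) = 8 := by
    rw [Module.finrank_fintype_fun_eq_card]; decide
  have hlt : volume (ZSpan.fundamentalDomain (Pi.basisFun ℝ Idx)) *
      2 ^ Module.finrank ℝ (Idx → ℝ) < volume s := by
    rw [hF, hfr, hvol, one_mul]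
    have h1 : (2:ENNReal) ^ 8 = ENNReal.ofReal (2 ^ 8) := by
      rw [ENNReal.ofReal_pow (by norm_num)]; simp
    rw [h1, ENNReal.ofReal_lt_ofReal_iff (by positivity), mul_pow]
    have h2 : d < (d + 1) ^ 8 := by
      calc d < d + 1 := by linarith
        _ = (d + 1) ^ 1 := by ring
        _ ≤ (d + 1) ^ 8 := pow_le_pow_right₀ (by linarith) (by norm_num)
    rw [← mul_assoc, mul_comm d⁻¹, mul_assoc]
    apply lt_mul_of_one_lt_right (by norm_num)
    rw [inv_mul_eq_div, one_lt_div hdpos]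
    exact h2
  have hsym : ∀ x ∈ s, -x ∈ s := by
    intro x hx i hi
    have h1 := hx i hi
    rw [map_neg, Pi.neg_apply]
    exact ⟨by linarith [h1.2], by linarith [h1.1]⟩
  have hconv : Convex ℝ s := by
    apply Convex.linear_preimage
    exact convex_pi fun _ _ => convex_Ioo _ _
  have hcount : Countable (Submodule.span ℤ (Set.range (Pi.basisFun ℝ Idx))).toAddSubgroup := by
    change Countable (Submodule.span ℤ (Set.range (Pi.basisFun ℝ Idx)))
    infer_instance
  obtain ⟨x, hx0, hxs⟩ := exists_ne_zero_mem_lattice_of_measure_mul_two_pow_lt_measure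
    (ZSpan.isAddFundamentalDomain' (Pi.basisFun ℝ Idx) volume) hsym hconv hlt
  have hx1 : ∀ i, ∃ n : ℤ, (n : ℝ) = (x : Idx → ℝ) i := by
    intro i
    have := ((Pi.basisFun ℝ Idx).mem_span_iff_repr_mem ℤ _).1 x.2 i
    simpa using this
  choose n hn using hx1
  have hxn : (fun i => (n i : ℝ)) = (x : Idx → ℝ) := funext hn
  refine ⟨ofInt n, ?_, ?_⟩
  · intro h0
    apply hx0
    have h1 := ofInt_eq_zero h0
    apply Subtype.ext
    rw [← hxn, h1]
    funext i; simp
  · intro p i j
    have h1 := hxs (i, (p, j)) (Set.mem_univ _)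
    have h2 : f (x : Idx → ℝ) (i, (p, j)) = (G p * rho p (ofInt n)) i j := by
      rw [hf, LinearMap.comp_apply, fG_apply, Matrix.mul_apply]
      apply Finset.sum_congr rfl
      intro r' _
      rw [← hxn, iota_ofInt]
    rw [h2] at h1
    rw [abs_lt]
    exact h1

end Pool.Agent.V11110.QL
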