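import Mathlib
import Pool.Agent.V11110.QL2

namespace Pool.Agent.V11110.QL

open Matrix

theorem diff_of_res (m : ℕ) (z w : R7) (h1 : (z.re : ZMod m) = w.re) (h2 : (z.im : ZMod m) = w.im) :
    ∃ δ : R7, z = w + (m : R7) * δ := by
  rw [ZMod.intCast_eq_intCast_iff_dvd_sub] at h1 h2
  obtain ⟨a, ha⟩ := h1
  obtain ⟨b, hb⟩ := h2
  refine ⟨⟨-a, -b⟩, ?_⟩
  apply Zsqrtd.ext
  · simp; linarith
  · simp; linarith

/-- the finite invariant -/
def key (m : ℕ) (α : Ord) : R7 × ((ZMod m × ZMod m) × (ZMod m × ZMod m) × (ZMod m × ZMod m) ×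
    (ZMod m × ZMod m)) :=
  (nrd α, ((α.re.re : ZMod m), (α.re.im : ZMod m)), ((α.imI.re : ZMod m), (α.imI.im : ZMod m)),
    ((α.imJ.re : ZMod m), (α.imJ.im : ZMod m)), ((α.imK.re : ZMod m), (α.imK.im : ZMod m)))

noncomputable def size (β : Ord) : ℝ := ∑ p : Bool, ∑ i : Fin 2, ∑ j : Fin 2, |rho p β i j|

theorem le_size (β : Ord) (p : Bool) (i j : Fin 2) : |rho p β i j| ≤ size β := by
  unfold size
  have h1 : |rho p β i j| ≤ ∑ j : Fin 2, |rho p β i j| :=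
    Finset.single_le_sum (f := fun j => |rho p β i j|) (fun _ _ => abs_nonneg _) (Finset.mem_univ j)
  have h2 : ∑ j : Fin 2, |rho p β i j| ≤ ∑ i : Fin 2, ∑ j : Fin 2, |rho p β i j| :=
    Finset.single_le_sum (f := fun i => ∑ j : Fin 2, |rho p β i j|)
      (fun _ _ => Finset.sum_nonneg fun _ _ => abs_nonneg _) (Finset.mem_univ i)
  have h3 : ∑ i : Fin 2, ∑ j : Fin 2, |rho p β i j| ≤
      ∑ p : Bool, ∑ i : Fin 2, ∑ j : Fin 2, |rho p β i j| :=
    Finset.single_le_sum (f := fun p => ∑ i : Fin 2, ∑ j : Fin 2, |rho p β i j|)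
      (fun _ _ => Finset.sum_nonneg fun _ _ => Finset.sum_nonneg fun _ _ => abs_nonneg _)
      (Finset.mem_univ p)
  exact h1.trans (h2.trans h3)

theorem three_eq_sc : (3 : Ord) = sc 3 := by
  have h1 : (3 : Ord) = 1 + 1 + 1 := by norm_num
  have h2 : (1 + 1 + 1 : R7) = 3 := by norm_num
  rw [h1]
  ext1
  · simp [sc, h2]
  · simp [sc]
  · simp [sc]
  · simp [sc]

theorem reps (B : ℝ) : ∃ A0 : ℝ, 0 ≤ A0 ∧ ∀ α : Ord, α ≠ 0 → (∀ p, |sg p (nrd α)| ≤ B) →
    ∃ u β : Ord, nrd u = 1 ∧ (∃ γ, u = 1 + 3 * γ) ∧ α = u * β ∧ nrd β = nrd α ∧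
      ∀ p i j, |rho p β i j| ≤ A0 := by
  classical
  set N0 : ℕ := (⌈B * B⌉₊).factorial with hN0
  set m : ℕ := 3 * N0 with hm
  have hmpos : 0 < m := Nat.mul_pos (by norm_num) (Nat.factorial_pos _)
  have : NeZero m := ⟨hmpos.ne'⟩
  set S : Set Ord := {α | α ≠ 0 ∧ ∀ p, |sg p (nrd α)| ≤ B} with hS
  have hfin : (key m '' S).Finite := by
    refine (((finite_bounded B).prod (Set.finite_univ)) :
      ({r : R7 | |sg false r| ≤ B ∧ |sg true r| ≤ B} ×ˢ (Set.univ : Set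
        ((ZMod m × ZMod m) × (ZMod m × ZMod m) × (ZMod m × ZMod m) ×
        (ZMod m × ZMod m)))).Finite).subset ?_
    rintro _ ⟨α, hα, rfl⟩
    exact ⟨⟨hα.2 false, hα.2 true⟩, Set.mem_univ _⟩
  have hrep : ∀ α ∈ S, ∃ β ∈ S, key m β = key m α := fun α hα => ⟨α, hα, rfl⟩
  have hex : ∀ k : R7 × ((ZMod m × ZMod m) × (ZMod m × ZMod m) × (ZMod m × ZMod m) ×
      (ZMod m × ZMod m)), ∃ β : Ord, k ∈ key m '' S → β ∈ S ∧ key m β = k := by
    intro k
    by_cases hk : k ∈ key m '' S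
    · obtain ⟨β, hβ, hβk⟩ := hk
      exact ⟨β, fun _ => ⟨hβ, hβk⟩⟩
    · exact ⟨0, fun h => absurd h hk⟩
  choose rep hrep2 using hex
  obtain ⟨A1, hA1⟩ := (hfin.image (fun k => size (rep k))).bddAbove
  refine ⟨max A1 0, le_max_right _ _, ?_⟩
  intro α hα0 hαB
  have hαS : α ∈ S := ⟨hα0, hαB⟩
  have hkm : key m α ∈ key m '' S := ⟨α, hαS, rfl⟩
  obtain ⟨hβS, hβk⟩ := hrep2 _ hkm
  set β := rep (key m α) with hβ
  have hsz : size β ≤ A1 := hA1 ⟨key m α, hkm, rfl⟩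
  set ν := nrd α with hν
  have hν0 : ν ≠ 0 := fun h => hα0 (nrd_eq_zero h)
  have hnβ : nrd β = ν := congrArg Prod.fst hβk
  simp only [key, Prod.mk.injEq] at hβk
  obtain ⟨-, ⟨a1, a2⟩, ⟨b1, b2⟩, ⟨c1, c2⟩, d1, d2⟩ := hβk
  obtain ⟨δ1, h1⟩ := diff_of_res m _ _ a1.symm a2.symm
  obtain ⟨δ2, h2⟩ := diff_of_res m _ _ b1.symm b2.symm
  obtain ⟨δ3, h3⟩ := diff_of_res m _ _ c1.symm c2.symm
  obtain ⟨δ4, h4⟩ := diff_of_res m _ _ d1.symm d2.symm
  -- divisibility
  have hdvd : (ν.norm.natAbs) ∣ N0 := by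
    rw [hN0]
    apply Nat.dvd_factorial
    · apply Int.natAbs_pos.2
      exact fun h => hν0 ((norm_eq_zero' ν).1 h)
    · have e1 : (ν.norm.natAbs : ℝ) ≤ B * B := by
        have e2 : ((ν.norm.natAbs : ℕ) : ℝ) = |((ν.norm : ℤ) : ℝ)| := by
          rw [Nat.cast_natAbs, Int.cast_abs]
        rw [e2, ← sg_mul_sg, abs_mul]
        exact mul_le_mul (hαB false) (hαB true) (abs_nonneg _)
          ((abs_nonneg _).trans (hαB false))
      exact_mod_cast e1.trans (Nat.le_ceil _)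
  obtain ⟨t, ht⟩ : ∃ t : ℤ, (N0 : ℤ) = ν.norm * t := by
    have : ν.norm ∣ (N0 : ℤ) := Int.natAbs_dvd.1 (Int.natCast_dvd_natCast.2 hdvd)
    exact this
  have hmR : (m : R7) = 3 * (ν * (star ν * (t : R7))) := by
    have e1 : (N0 : R7) = ((ν.norm : ℤ) : R7) * (t : R7) := by
      have : ((N0 : ℤ) : R7) = ((ν.norm * t : ℤ) : R7) := by rw [ht]
      simpa using this
    rw [hm]
    push_cast
    rw [e1, Zsqrtd.norm_eq_mul_conj]
    ring
  set s := star ν * (t : R7) with hs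
  set δ : Ord := ⟨s * δ1, s * δ2, s * δ3, s * δ4⟩ with hδ
  have hthree : (3 : Ord) = sc 3 := three_eq_sc
  have hαβ : α = β + 3 * (sc ν * δ) := by
    rw [hthree, sc_mul, sc_mul]
    ext1
    · show α.re = β.re + 3 * (ν * (s * δ1))
      rw [h1, hmR]; ring
    · show α.imI = β.imI + 3 * (ν * (s * δ2))
      rw [h2, hmR]; ring
    · show α.imJ = β.imJ + 3 * (ν * (s * δ3))
      rw [h3, hmR]; ring
    · show α.imK = β.imK + 3 * (ν * (s * δ4))
      rw [h4, hmR]; ring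
  have hu : (1 + 3 * (δ * cj β)) * β = α := by
    rw [hαβ, add_mul, one_mul, mul_assoc, mul_assoc, cj_mul, hnβ, sc_comm]
  refine ⟨1 + 3 * (δ * cj β), β, ?_, ⟨_, rfl⟩, hu.symm, hnβ, ?_⟩
  · have e1 := congrArg nrd hu
    rw [nrd_mul, hnβ, ← hν] at e1
    exact mul_right_cancel₀ hν0 (by rw [e1, one_mul])
  · intro p i j
    exact (le_size β p i j).trans (hsz.trans (le_max_left _ _))

theorem cocompact_matrices : ∃ A : ℝ, ∀ G : Bool → Matrix (Fin 2) (Fin 2) ℝ,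
    (∀ p, (G p).det = 1) → ∃ u : Ord, nrd u = 1 ∧ (∃ γ, u = 1 + 3 * γ) ∧
      ∀ p i j, |(G p * rho p u) i j| ≤ A := by
  obtain ⟨C, hC, hmink⟩ := minkowski
  obtain ⟨A0, hA0, hreps⟩ := reps (2 * (C * C))
  refine ⟨2 * (C * A0) * (2 * (C * C)), ?_⟩
  intro G hG
  obtain ⟨α, hα0, hα⟩ := hmink G hG
  have hdet : ∀ p, sg p (nrd α) = (G p * rho p α).det := by
    intro p; rw [Matrix.det_mul, hG, one_mul, rho_det]
  have hB : ∀ p, |sg p (nrd α)| ≤ 2 * (C * C) := by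
    intro p
    rw [hdet, Matrix.det_fin_two]
    have a := (hα p 0 0).le
    have b := (hα p 1 1).le
    have c := (hα p 0 1).le
    have d := (hα p 1 0).le
    calc |(G p * rho p α) 0 0 * (G p * rho p α) 1 1 - (G p * rho p α) 0 1 * (G p * rho p α) 1 0|
        ≤ |(G p * rho p α) 0 0 * (G p * rho p α) 1 1| + |(G p * rho p α) 0 1 * (G p * rho p α) 1 0| :=
          abs_sub _ _
      _ ≤ C * C + C * C := by
          rw [abs_mul, abs_mul]
          exact add_le_add (mul_le_mul a b (abs_nonneg _) hC.le)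
            (mul_le_mul c d (abs_nonneg _) hC.le)
      _ = 2 * (C * C) := by ring
  obtain ⟨u, β, hu1, hu2, hαu, hnβ, hβ⟩ := hreps α hα0 hB
  refine ⟨u, hu1, hu2, ?_⟩
  intro p i j
  have hν0 : nrd α ≠ 0 := fun h => hα0 (nrd_eq_zero h)
  have hprod := one_le_abs_prod _ hν0
  have hlow : 1 ≤ |sg p (nrd α)| * (2 * (C * C)) := by
    cases p
    · calc 1 ≤ |sg false (nrd α)| * |sg true (nrd α)| := hprod
        _ ≤ _ := mul_le_mul_of_nonneg_left (hB true) (abs_nonneg _)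
    · calc 1 ≤ |sg false (nrd α)| * |sg true (nrd α)| := hprod
        _ = |sg true (nrd α)| * |sg false (nrd α)| := mul_comm _ _
        _ ≤ _ := mul_le_mul_of_nonneg_left (hB false) (abs_nonneg _)
  have hmat : sg p (nrd α) • (G p * rho p u) = (G p * rho p α) * (rho p β).adjugate := by
    rw [hαu, rho_mul, Matrix.mul_assoc, Matrix.mul_assoc, Matrix.mul_adjugate, rho_det,
      Matrix.mul_smul, Matrix.mul_one, Matrix.mul_smul, nrd_mul, hu1, one_mul]
  have hent : |sg p (nrd α)| * |(G p * rho p u) i j| ≤ 2 * (C * A0) := by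
    rw [← abs_mul]
    have e1 : sg p (nrd α) * (G p * rho p u) i j =
        ((G p * rho p α) * (rho p β).adjugate) i j := by
      rw [← hmat]; rfl
    rw [e1, Matrix.mul_apply, Fin.sum_univ_two]
    have hadj : ∀ k l, |(rho p β).adjugate k l| ≤ A0 := by
      intro k l
      rw [Matrix.adjugate_fin_two]
      fin_cases k <;> fin_cases l <;> simp <;> exact hβ p _ _
    calc |(G p * rho p α) i 0 * (rho p β).adjugate 0 j +
          (G p * rho p α) i 1 * (rho p β).adjugate 1 j|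
        ≤ |(G p * rho p α) i 0 * (rho p β).adjugate 0 j| +
          |(G p * rho p α) i 1 * (rho p β).adjugate 1 j| := abs_add_le _ _
      _ ≤ C * A0 + C * A0 := by
          rw [abs_mul, abs_mul]
          exact add_le_add (mul_le_mul (hα p i 0).le (hadj 0 j) (abs_nonneg _) hC.le)
            (mul_le_mul (hα p i 1).le (hadj 1 j) (abs_nonneg _) hC.le)
      _ = 2 * (C * A0) := by ring
  calc |(G p * rho p u) i j| ≤ |(G p * rho p u) i j| * (|sg p (nrd α)| * (2 * (C * C))) :=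
        le_mul_of_one_le_right (abs_nonneg _) hlow
    _ = (|sg p (nrd α)| * |(G p * rho p u) i j|) * (2 * (C * C)) := by ring
    _ ≤ 2 * (C * A0) * (2 * (C * C)) := by
        apply mul_le_mul_of_nonneg_right hent (by positivity)

end Pool.Agent.V11110.QL
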