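import Mathlib

namespace Pool.Agent.V11110.QL

open Matrix

abbrev SL2 : Type := Matrix.SpecialLinearGroup (Fin 2) ℝ

theorem sl2_det (g : SL2) : g 0 0 * g 1 1 - g 0 1 * g 1 0 = 1 := by
  have h := g.det_coe
  rw [Matrix.det_fin_two] at h
  exact h

theorem coe_smul' (g : SL2) (z : UpperHalfPlane) : ((g • z : UpperHalfPlane) : ℂ) =
    ((g 0 0 : ℂ) * z + (g 0 1 : ℂ)) / ((g 1 0 : ℂ) * z + (g 1 1 : ℂ)) :=
  UpperHalfPlane.coe_specialLinearGroup_apply g z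

theorem denom_ne (g : SL2) (z : UpperHalfPlane) : ((g 1 0 : ℂ) * z + (g 1 1 : ℂ)) ≠ 0 := by
  intro h
  have him := congrArg Complex.im h
  have hre := congrArg Complex.re h
  simp at him hre
  have hz : (z : ℂ).im ≠ 0 := z.im_pos.ne'
  have hc : g 1 0 = 0 := by
    rcases him with h1 | h1
    · exact h1
    · exact absurd h1 hz
  rw [hc] at hre
  simp at hre
  have := sl2_det g
  rw [hc, hre] at this
  simp at this

theorem smul_eq_iff (g : SL2) (z w : UpperHalfPlane) : g • z = w ↔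
    ((g 0 0 : ℂ) * z + (g 0 1 : ℂ)) = (w : ℂ) * ((g 1 0 : ℂ) * z + (g 1 1 : ℂ)) := by
  rw [← UpperHalfPlane.coe_inj, coe_smul', div_eq_iff (denom_ne g z)]

theorem smul_eq_iff_real (g : SL2) (z w : UpperHalfPlane) : g • z = w ↔
    (g 0 0 * z.re + g 0 1 = w.re * (g 1 0 * z.re + g 1 1) - w.im * (g 1 0 * z.im) ∧
      g 0 0 * z.im = w.re * (g 1 0 * z.im) + w.im * (g 1 0 * z.re + g 1 1)) := by
  rw [smul_eq_iff, Complex.ext_iff]
  simp

/-- the orbit of `i` -/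
theorem smul_I_coords (g : SL2) :
    (g • UpperHalfPlane.I).re = (g 0 0 * g 1 0 + g 0 1 * g 1 1) / (g 1 0 ^ 2 + g 1 1 ^ 2) ∧
    (g • UpperHalfPlane.I).im = 1 / (g 1 0 ^ 2 + g 1 1 ^ 2) := by
  have hdet := sl2_det g
  have hpos : 0 < g 1 0 ^ 2 + g 1 1 ^ 2 := by
    by_contra h
    have h1 : g 1 0 = 0 := by nlinarith [sq_nonneg (g 1 0), sq_nonneg (g 1 1)]
    have h2 : g 1 1 = 0 := by nlinarith [sq_nonneg (g 1 0), sq_nonneg (g 1 1)]
    rw [h1, h2] at hdet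
    simp at hdet
  obtain ⟨e1, e2⟩ := (smul_eq_iff_real g UpperHalfPlane.I (g • UpperHalfPlane.I)).1 rfl
  simp at e1 e2
  set X := (g • UpperHalfPlane.I).re
  set Y := (g • UpperHalfPlane.I).im
  constructor
  · rw [eq_div_iff hpos.ne']
    linear_combination (-(g 1 1)) * e1 - (g 1 0) * e2
  · rw [eq_div_iff hpos.ne']
    linear_combination (g 1 0) * e1 - (g 1 1) * e2 + hdet

theorem bottom_pos (g : SL2) : 0 < g 1 0 ^ 2 + g 1 1 ^ 2 := by
  have hdet := sl2_det g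
  by_contra h
  have h1 : g 1 0 = 0 := by nlinarith [sq_nonneg (g 1 0), sq_nonneg (g 1 1)]
  have h2 : g 1 1 = 0 := by nlinarith [sq_nonneg (g 1 0), sq_nonneg (g 1 1)]
  rw [h1, h2] at hdet
  simp at hdet

theorem cosh_dist_I (g : SL2) :
    Real.cosh (dist UpperHalfPlane.I (g • UpperHalfPlane.I)) =
      (g 0 0 ^ 2 + g 0 1 ^ 2 + g 1 0 ^ 2 + g 1 1 ^ 2) / 2 := by
  have hdet := sl2_det g
  have hpos := bottom_pos g
  obtain ⟨e1, e2⟩ := smul_I_coords g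
  rw [UpperHalfPlane.cosh_dist', e1, e2, UpperHalfPlane.I_re, UpperHalfPlane.I_im]
  have key : (g 0 0 * g 1 0 + g 0 1 * g 1 1) ^ 2 + 1 =
      (g 0 0 ^ 2 + g 0 1 ^ 2) * (g 1 0 ^ 2 + g 1 1 ^ 2) := by
    linear_combination (-(g 0 0 * g 1 1 - g 0 1 * g 1 0) - 1) * hdet
  obtain ⟨D, hD⟩ : ∃ D, D = g 1 0 ^ 2 + g 1 1 ^ 2 := ⟨_, rfl⟩
  have hs : g 0 0 ^ 2 + g 0 1 ^ 2 + g 1 0 ^ 2 + g 1 1 ^ 2 = g 0 0 ^ 2 + g 0 1 ^ 2 + D := by
    rw [hD]; ring
  rw [hs]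
  rw [← hD] at key hpos ⊢
  have hD0 : D ≠ 0 := hpos.ne'
  have e3 : ((0 - (g 0 0 * g 1 0 + g 0 1 * g 1 1) / D) ^ 2 + 1 ^ 2 + (1 / D) ^ 2) /
      (2 * 1 * (1 / D)) = (((g 0 0 * g 1 0 + g 0 1 * g 1 1) ^ 2 + 1) / D + D) / 2 := by
    field_simp
    ring
  rw [e3, key, mul_div_assoc, div_self hD0, mul_one]

theorem entries_of_dist (g : SL2) (R : ℝ)
    (h : dist UpperHalfPlane.I (g • UpperHalfPlane.I) ≤ R) (i j : Fin 2) :
    |g i j| ≤ Real.sqrt (2 * Real.cosh R) := by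
  apply Real.abs_le_sqrt
  have h1 := cosh_dist_I g
  have hR : 0 ≤ R := dist_nonneg.trans h
  have h2 : Real.cosh (dist UpperHalfPlane.I (g • UpperHalfPlane.I)) ≤ Real.cosh R := by
    rw [Real.cosh_le_cosh, abs_of_nonneg dist_nonneg, abs_of_nonneg hR]
    exact h
  rw [h1] at h2
  have a := sq_nonneg (g 0 0)
  have b := sq_nonneg (g 0 1)
  have c := sq_nonneg (g 1 0)
  have d := sq_nonneg (g 1 1)
  fin_cases i <;> fin_cases j <;> simp only [Fin.zero_eta, Fin.mk_one] <;> linarith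

theorem dist_of_entries (g : SL2) (A : ℝ) (h : ∀ i j, |g i j| ≤ A) :
    dist UpperHalfPlane.I (g • UpperHalfPlane.I) ≤ 4 * A ^ 2 := by
  have h1 := cosh_dist_I g
  have hA : 0 ≤ A := (abs_nonneg _).trans (h 0 0)
  have hsq : ∀ i j, g i j ^ 2 ≤ A ^ 2 := by
    intro i j
    rw [← sq_abs]
    exact pow_le_pow_left₀ (abs_nonneg _) (h i j) 2
  have h2 := hsq 0 0
  have h3 := hsq 0 1
  have h4 := hsq 1 0
  have h5 := hsq 1 1
  have h6 : dist UpperHalfPlane.I (g • UpperHalfPlane.I) ≤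
      2 * Real.cosh (dist UpperHalfPlane.I (g • UpperHalfPlane.I)) := by
    rw [Real.cosh_eq]
    have e1 := Real.add_one_le_exp (dist UpperHalfPlane.I (g • UpperHalfPlane.I))
    have e2 := Real.exp_pos (-(dist UpperHalfPlane.I (g • UpperHalfPlane.I)))
    linarith
  linarith

theorem exists_smul_I (z : UpperHalfPlane) : ∃ g : SL2, g • UpperHalfPlane.I = z := by
  have hy := z.im_pos
  have hs : 0 < Real.sqrt z.im := Real.sqrt_pos.2 hy
  have hss : Real.sqrt z.im * Real.sqrt z.im = z.im := Real.mul_self_sqrt hy.le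
  refine ⟨⟨!![Real.sqrt z.im, z.re / Real.sqrt z.im; 0, 1 / Real.sqrt z.im], ?_⟩, ?_⟩
  · rw [Matrix.det_fin_two]
    simp
    field_simp
  · rw [smul_eq_iff_real]
    simp
    constructor
    · rw [div_eq_mul_inv]
    · field_simp
      linarith

theorem fixed_eqs (g : SL2) (z : UpperHalfPlane) (h : g • z = z) :
    g 0 0 - g 1 1 = 2 * g 1 0 * z.re ∧ g 0 1 = -(g 1 0 * (z.re ^ 2 + z.im ^ 2)) := by
  obtain ⟨e1, e2⟩ := (smul_eq_iff_real g z z).1 h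
  have hy := z.im_pos
  have e3 : g 0 0 - g 1 1 = 2 * g 1 0 * z.re := by
    apply mul_right_cancel₀ hy.ne'
    linear_combination e2
  refine ⟨e3, ?_⟩
  linear_combination e1 - z.re * e3

theorem fixed_trace (g : SL2) (z : UpperHalfPlane) (h : g • z = z) :
    |g 0 0 + g 1 1| ≤ 2 := by
  obtain ⟨e1, e2⟩ := fixed_eqs g z h
  have hdet := sl2_det g
  apply abs_le_of_sq_le_sq _ (by norm_num)
  have e3 : (g 0 0 + g 1 1) ^ 2 = 4 + (g 0 0 - g 1 1) ^ 2 + 4 * g 0 1 * g 1 0 := by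
    linear_combination 4 * hdet
  rw [e3, e1, e2]
  nlinarith [sq_nonneg (g 1 0 * z.im)]

theorem fixed_unique (g : SL2) (hc : g 1 0 ≠ 0) (z w : UpperHalfPlane) (hz : g • z = z)
    (hw : g • w = w) : z = w := by
  obtain ⟨e1, e2⟩ := fixed_eqs g z hz
  obtain ⟨f1, f2⟩ := fixed_eqs g w hw
  have hre : z.re = w.re := by
    have : 2 * g 1 0 * z.re = 2 * g 1 0 * w.re := by rw [← e1, ← f1]
    exact mul_left_cancel₀ (mul_ne_zero two_ne_zero hc) this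
  have him2 : z.im ^ 2 = w.im ^ 2 := by
    have h1 : g 1 0 * (z.re ^ 2 + z.im ^ 2) = g 1 0 * (w.re ^ 2 + w.im ^ 2) := by linarith
    have h2 := mul_left_cancel₀ hc h1
    rw [hre] at h2
    linarith
  have him : z.im = w.im := by
    have := z.im_pos
    have := w.im_pos
    nlinarith [sq_nonneg (z.im - w.im), sq_nonneg (z.im + w.im)]
  apply UpperHalfPlane.ext
  apply Complex.ext
  · exact hre
  · exact him

theorem exists_fixed (g : SL2) (hc : g 1 0 ≠ 0) (ht : (g 0 0 + g 1 1) ^ 2 < 4) :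
    ∃ z : UpperHalfPlane, g • z = z := by
  have hdet := sl2_det g
  have hs : 0 < Real.sqrt (4 - (g 0 0 + g 1 1) ^ 2) := Real.sqrt_pos.2 (by linarith)
  have hss : Real.sqrt (4 - (g 0 0 + g 1 1) ^ 2) ^ 2 = 4 - (g 0 0 + g 1 1) ^ 2 :=
    Real.sq_sqrt (by linarith)
  have hac : 0 < |g 1 0| := abs_pos.2 hc
  have hac2 : |g 1 0| ^ 2 = g 1 0 ^ 2 := sq_abs _
  refine ⟨⟨⟨(g 0 0 - g 1 1) / (2 * g 1 0), Real.sqrt (4 - (g 0 0 + g 1 1) ^ 2) / (2 * |g 1 0|)⟩,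
    by positivity⟩, ?_⟩
  rw [smul_eq_iff_real]
  set S := Real.sqrt (4 - (g 0 0 + g 1 1) ^ 2) with hS
  show g 0 0 * ((g 0 0 - g 1 1) / (2 * g 1 0)) + g 0 1 = (g 0 0 - g 1 1) / (2 * g 1 0) *
    (g 1 0 * ((g 0 0 - g 1 1) / (2 * g 1 0)) + g 1 1) - S / (2 * |g 1 0|) *
    (g 1 0 * (S / (2 * |g 1 0|))) ∧ g 0 0 * (S / (2 * |g 1 0|)) =
    (g 0 0 - g 1 1) / (2 * g 1 0) * (g 1 0 * (S / (2 * |g 1 0|))) + S / (2 * |g 1 0|) *
    (g 1 0 * ((g 0 0 - g 1 1) / (2 * g 1 0)) + g 1 1)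
  have hy2 : S / (2 * |g 1 0|) * (g 1 0 * (S / (2 * |g 1 0|))) =
      (4 - (g 0 0 + g 1 1) ^ 2) / (4 * g 1 0) := by
    have : S / (2 * |g 1 0|) * (g 1 0 * (S / (2 * |g 1 0|))) =
        g 1 0 * S ^ 2 / (4 * |g 1 0| ^ 2) := by field_simp; ring
    rw [this, hss, hac2]
    field_simp
  constructor
  · rw [hy2]
    field_simp
    linear_combination (-16) * hdet
  · field_simp
    ring

/-- diagonal matrices -/
noncomputable def dg (μ : ℝ) (hμ : μ ≠ 0) : SL2 :=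
  ⟨!![μ, 0; 0, μ⁻¹], by rw [Matrix.det_fin_two]; simp [hμ]⟩

theorem dg_apply (μ : ℝ) (hμ : μ ≠ 0) : dg μ hμ 0 0 = μ ∧ dg μ hμ 0 1 = 0 ∧ dg μ hμ 1 0 = 0 ∧
    dg μ hμ 1 1 = μ⁻¹ := ⟨rfl, rfl, rfl, rfl⟩

theorem sl2_ext {g h : SL2} (h00 : g 0 0 = h 0 0) (h01 : g 0 1 = h 0 1) (h10 : g 1 0 = h 1 0)
    (h11 : g 1 1 = h 1 1) : g = h := by
  ext i j
  fin_cases i <;> fin_cases j
  · exact h00
  · exact h01
  · exact h10
  · exact h11

theorem sl2_mul (g h : SL2) (i j : Fin 2) : (g * h) i j = g i 0 * h 0 j + g i 1 * h 1 j := by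
  rw [Matrix.SpecialLinearGroup.coe_mul, Matrix.mul_apply, Fin.sum_univ_two]

theorem dg_mul (μ ν : ℝ) (hμ : μ ≠ 0) (hν : ν ≠ 0) :
    dg μ hμ * dg ν hν = dg (μ * ν) (mul_ne_zero hμ hν) := by
  apply sl2_ext <;> rw [sl2_mul] <;> simp [dg_apply, mul_comm]

theorem dg_pow (μ : ℝ) (hμ : μ ≠ 0) (n : ℕ) : dg μ hμ ^ n = dg (μ ^ n) (pow_ne_zero n hμ) := by
  induction n with
  | zero => apply sl2_ext <;> simp [dg_apply]
  | succ n ih =>
    rw [pow_succ, ih, dg_mul]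
    simp only [pow_succ]

/-- points on the imaginary axis -/
noncomputable def ver (x t : ℝ) : UpperHalfPlane := ⟨⟨x, Real.exp t⟩, Real.exp_pos t⟩

theorem dist_ver (x s t : ℝ) : dist (ver x s) (ver x t) = |s - t| := by
  rw [UpperHalfPlane.dist_of_re_eq (show (ver x s).re = (ver x t).re from rfl)]
  show dist (Real.log (Real.exp s)) (Real.log (Real.exp t)) = _
  rw [Real.log_exp, Real.log_exp, Real.dist_eq]

theorem dg_smul_ver (μ : ℝ) (hμ : μ ≠ 0) (t : ℝ) :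
    dg μ hμ • ver 0 t = ver 0 (t + 2 * Real.log |μ|) := by
  rw [smul_eq_iff_real]
  obtain ⟨h1, h2, h3, h4⟩ := dg_apply μ hμ
  rw [h1, h2, h3, h4]
  show μ * 0 + 0 = 0 * (0 * 0 + μ⁻¹) - Real.exp (t + 2 * Real.log |μ|) * (0 * Real.exp t) ∧
    μ * Real.exp t = 0 * (0 * Real.exp t) + Real.exp (t + 2 * Real.log |μ|) * (0 * 0 + μ⁻¹)
  have hlog : Real.exp (2 * Real.log |μ|) = μ ^ 2 := by
    rw [two_mul, Real.exp_add, Real.exp_log (abs_pos.2 hμ), ← sq, sq_abs]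
  constructor
  · ring
  · rw [Real.exp_add, hlog]
    field_simp
    ring

/-- diagonalisation of hyperbolic elements -/
theorem exists_diag_hyp (g : SL2) (hc : g 1 0 ≠ 0) (ht : 2 < g 0 0 + g 1 1) :
    ∃ (P : SL2) (l : ℝ) (hl : 1 < l), g * P = P * dg l (by positivity) := by
  have hdet := sl2_det g
  set t := g 0 0 + g 1 1 with htdef
  have hs : 0 < Real.sqrt (t ^ 2 - 4) := Real.sqrt_pos.2 (by nlinarith)
  have hss : Real.sqrt (t ^ 2 - 4) ^ 2 = t ^ 2 - 4 := Real.sq_sqrt (by nlinarith)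
  set S := Real.sqrt (t ^ 2 - 4) with hS
  set l := (t + S) / 2 with hl
  have hl1 : 1 < l := by rw [hl]; linarith
  have hl0 : l ≠ 0 := by positivity
  have hq : l ^ 2 - t * l + 1 = 0 := by
    rw [hl]
    linear_combination (1 / 4) * hss
  have hqi : l⁻¹ ^ 2 - t * l⁻¹ + 1 = 0 := by
    have e : l⁻¹ ^ 2 - t * l⁻¹ + 1 = (l ^ 2 - t * l + 1) * l⁻¹ ^ 2 := by
      field_simp; ring
    rw [e, hq, zero_mul]
  have hdiff : l - l⁻¹ ≠ 0 := by
    have : l⁻¹ < 1 := inv_lt_one_of_one_lt₀ hl1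
    linarith
  set s := 1 / (g 1 0 * (l - l⁻¹)) with hsdef
  have hsmul : s * (g 1 0 * (l - l⁻¹)) = 1 := by
    rw [hsdef]; exact one_div_mul_cancel (mul_ne_zero hc hdiff)
  refine ⟨⟨!![l - g 1 1, s * (l⁻¹ - g 1 1); g 1 0, s * g 1 0], ?_⟩, l, hl1, ?_⟩
  · rw [Matrix.det_fin_two]
    simp
    linear_combination hsmul
  · apply sl2_ext <;> rw [sl2_mul, sl2_mul]
    · show g 0 0 * (l - g 1 1) + g 0 1 * g 1 0 = (l - g 1 1) * l + s * (l⁻¹ - g 1 1) * 0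
      linear_combination (-1) * hdet - hq + l * htdef
    · show g 0 0 * (s * (l⁻¹ - g 1 1)) + g 0 1 * (s * g 1 0) =
        (l - g 1 1) * 0 + s * (l⁻¹ - g 1 1) * l⁻¹
      linear_combination (-s) * hdet - s * hqi + s * l⁻¹ * htdef
    · show g 1 0 * (l - g 1 1) + g 1 1 * g 1 0 = g 1 0 * l + s * g 1 0 * 0
      ring
    · show g 1 0 * (s * (l⁻¹ - g 1 1)) + g 1 1 * (s * g 1 0) = g 1 0 * 0 + s * g 1 0 * l⁻¹
      ring

/-- an element commuting with a power of a hyperbolic element is diagonal in the same basis -/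
theorem comm_diag (g P : SL2) (l : ℝ) (hl : 1 < l) (hP : g * P = P * dg l (by positivity))
    (h : SL2) (n : ℕ) (hn : 1 ≤ n) (hh : h * g ^ n = g ^ n * h) :
    ∃ (μ : ℝ) (hμ : μ ≠ 0), h * P = P * dg μ hμ := by
  have hl0 : l ≠ 0 := by positivity
  have hg : g = P * dg l hl0 * P⁻¹ := by rw [← hP, mul_inv_cancel_right]
  have hgn : g ^ n = P * dg (l ^ n) (pow_ne_zero n hl0) * P⁻¹ := by
    rw [hg, conj_pow, dg_pow]
  set k := P⁻¹ * h * P with hk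
  have hcomm : k * dg (l ^ n) (pow_ne_zero n hl0) = dg (l ^ n) (pow_ne_zero n hl0) * k := by
    have e1 : k * dg (l ^ n) (pow_ne_zero n hl0) = P⁻¹ * (h * g ^ n) * P := by
      rw [hk, hgn]; group
    have e2 : dg (l ^ n) (pow_ne_zero n hl0) * k = P⁻¹ * (g ^ n * h) * P := by
      rw [hk, hgn]; group
    rw [e1, e2, hh]
  have hln : 1 < l ^ n := one_lt_pow₀ hl (by omega)
  have hlni : (l ^ n)⁻¹ < 1 := inv_lt_one_of_one_lt₀ hln
  have hne : l ^ n - (l ^ n)⁻¹ ≠ 0 := by linarith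
  obtain ⟨d1, d2, d3, d4⟩ := dg_apply (l ^ n) (pow_ne_zero n hl0)
  have c01 := congrArg (fun M : SL2 => M 0 1) hcomm
  have c10 := congrArg (fun M : SL2 => M 1 0) hcomm
  simp only [sl2_mul, d1, d2, d3, d4] at c01 c10
  have k01 : k 0 1 = 0 := by
    have : k 0 1 * (l ^ n - (l ^ n)⁻¹) = 0 := by linear_combination -c01
    exact (mul_eq_zero.1 this).resolve_right hne
  have k10 : k 1 0 = 0 := by
    have : k 1 0 * (l ^ n - (l ^ n)⁻¹) = 0 := by linear_combination c10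
    exact (mul_eq_zero.1 this).resolve_right hne
  have hdet := sl2_det k
  rw [k01, k10] at hdet
  have h00 : k 0 0 ≠ 0 := by
    intro h0; rw [h0] at hdet; simp at hdet
  refine ⟨k 0 0, h00, ?_⟩
  have hkd : k = dg (k 0 0) h00 := by
    apply sl2_ext
    · rfl
    · rw [k01]; rfl
    · rw [k10]; rfl
    · show k 1 1 = (k 0 0)⁻¹
      exact eq_inv_of_mul_eq_one_right (by linarith)
  rw [← hkd, hk]; group

end Pool.Agent.V11110.QL
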