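import Mathlib

/-!
The Hopf algebra structure of the universal enveloping algebra of a Lie algebra.
-/

open TensorProduct

namespace Pool.Agent.V11110.UEA

variable (R L : Type*) [CommRing R] [LieRing L] [LieAlgebra R L]

/-- The universal enveloping algebra. -/
abbrev U := UniversalEnvelopingAlgebra R L

variable {R L}

attribute [local instance 100] LieRing.ofAssociativeRing

/-- The canonical Lie algebra map. -/
noncomputable abbrev ι : L →ₗ⁅R⁆ U R L := UniversalEnvelopingAlgebra.ι R

/-- `x ↦ x ⊗ 1 + 1 ⊗ x`. -/
noncomputable def δ : L →ₗ⁅R⁆ (U R L ⊗[R] U R L) where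
  toFun x := ι x ⊗ₜ[R] 1 + 1 ⊗ₜ[R] ι x
  map_add' x y := by
    simp only [map_add, TensorProduct.add_tmul, TensorProduct.tmul_add]
    abel
  map_smul' c x := by
    simp only [map_smul, TensorProduct.smul_tmul', TensorProduct.tmul_smul, smul_add,
      RingHom.id_apply]
  map_lie' := by
    intro x y
    simp only [LieHom.map_lie, Ring.lie_def, mul_add, add_mul,
      Algebra.TensorProduct.tmul_mul_tmul, mul_one, one_mul, TensorProduct.sub_tmul,
      TensorProduct.tmul_sub]
    abel

/-- The comultiplication. -/
noncomputable def Δ : U R L →ₐ[R] (U R L ⊗[R] U R L) := UniversalEnvelopingAlgebra.lift R δ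

/-- The counit. -/
noncomputable def ε : U R L →ₐ[R] R := UniversalEnvelopingAlgebra.lift R (0 : L →ₗ⁅R⁆ R)

@[simp] lemma Δ_ι (x : L) : Δ (R := R) (ι x) = ι x ⊗ₜ[R] 1 + 1 ⊗ₜ[R] ι x :=
  UniversalEnvelopingAlgebra.lift_ι_apply R δ x

@[simp] lemma ε_ι (x : L) : ε (R := R) (ι x) = 0 :=
  UniversalEnvelopingAlgebra.lift_ι_apply R _ x

lemma hom_ext' {A : Type*} [Ring A] [Algebra R A] {f g : U R L →ₐ[R] A}
    (h : ∀ x, f (ι x) = g (ι x)) : f = g := by
  apply UniversalEnvelopingAlgebra.hom_ext
  ext x
  exact h x

noncomputable instance : Bialgebra R (U R L) :=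
  Bialgebra.ofAlgHom Δ ε
    (by
      apply hom_ext'
      intro x
      simp only [AlgHom.comp_apply, Δ_ι, map_add, Algebra.TensorProduct.map_tmul, map_one,
        AlgHom.coe_id, id_eq, TensorProduct.add_tmul, TensorProduct.tmul_add]
      simp [Algebra.TensorProduct.one_def]
      abel)
    (by
      apply hom_ext'
      intro x
      simp [-UniversalEnvelopingAlgebra.ι_apply])
    (by
      apply hom_ext'
      intro x
      simp [-UniversalEnvelopingAlgebra.ι_apply])

lemma comul_eq (a : U R L) : Coalgebra.comul (R := R) a = Δ a := rfl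
lemma counit_eq (a : U R L) : Coalgebra.counit (R := R) a = ε a := rfl

/-- `x ↦ -x`, as a Lie algebra map to the opposite algebra. -/
noncomputable def σ : L →ₗ⁅R⁆ (U R L)ᵐᵒᵖ where
  toFun x := MulOpposite.op (-ι x)
  map_add' x y := by simp [add_comm]
  map_smul' c x := by simp
  map_lie' := by
    intro x y
    simp only [LieHom.map_lie, Ring.lie_def, ← MulOpposite.op_mul, ← MulOpposite.op_sub, neg_mul_neg,
      neg_sub]

/-- The antipode, as a homomorphism to the opposite algebra. -/
noncomputable def Sop : U R L →ₐ[R] (U R L)ᵐᵒᵖ := UniversalEnvelopingAlgebra.lift R σ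

/-- The antipode. -/
noncomputable def S : U R L →ₗ[R] U R L :=
  (MulOpposite.opLinearEquiv R).symm.toLinearMap ∘ₗ Sop.toLinearMap

lemma S_ι (x : L) : S (R := R) (ι x) = -ι x := by
  have h := UniversalEnvelopingAlgebra.lift_ι_apply R (σ (R := R) (L := L)) x
  show MulOpposite.unop (Sop (ι x)) = _
  rw [Sop, h]
  rfl

lemma S_mul (a b : U R L) : S (a * b) = S b * S a := by
  show MulOpposite.unop (Sop (a * b)) = MulOpposite.unop (Sop b) * MulOpposite.unop (Sop a)
  rw [map_mul, MulOpposite.unop_mul]

lemma S_one : S (1 : U R L) = 1 := by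
  show MulOpposite.unop (Sop (1 : U R L)) = 1
  rw [map_one, MulOpposite.unop_one]

lemma adjoin_ι : Algebra.adjoin R (Set.range (ι : L → U R L)) = ⊤ := by
  set T := Algebra.adjoin R (Set.range (ι : L → U R L)) with hT
  let j : L →ₗ⁅R⁆ T :=
    { toFun := fun x => ⟨ι x, Algebra.subset_adjoin ⟨x, rfl⟩⟩
      map_add' := fun x y => Subtype.ext (map_add _ x y)
      map_smul' := fun c x => Subtype.ext (map_smul _ c x)
      map_lie' := by
        intro x y
        refine Subtype.ext ?_
        simp only [LieHom.map_lie, Ring.lie_def]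
        rfl }
  have h : T.val.comp (UniversalEnvelopingAlgebra.lift R j) = AlgHom.id R (U R L) := by
    apply hom_ext'
    intro x
    rw [AlgHom.comp_apply, UniversalEnvelopingAlgebra.lift_ι_apply]
    rfl
  rw [eq_top_iff]
  intro a _
  have h1 := DFunLike.congr_fun h a
  rw [AlgHom.comp_apply] at h1
  rw [← AlgHom.id_apply (R := R) a, ← h1]
  exact (UniversalEnvelopingAlgebra.lift R j a).2

lemma induction {p : U R L → Prop} (halg : ∀ r, p (algebraMap R _ r)) (hι : ∀ x, p (ι x))
    (hadd : ∀ a b, p a → p b → p (a + b)) (hmul : ∀ a b, p a → p b → p (a * b)) (a : U R L) :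
    p a := by
  have ha : a ∈ Algebra.adjoin R (Set.range (ι : L → U R L)) := by
    rw [adjoin_ι]; trivial
  induction ha using Algebra.adjoin_induction with
  | mem x hx => obtain ⟨y, rfl⟩ := hx; exact hι y
  | algebraMap r => exact halg r
  | add x y _ _ hx hy => exact hadd x y hx hy
  | mul x y _ _ hx hy => exact hmul x y hx hy

lemma key_r (z : U R L ⊗[R] U R L) (u v : U R L) :
    LinearMap.mul' R (U R L) (S.rTensor (U R L) (z * (u ⊗ₜ[R] v))) =
      S u * LinearMap.mul' R (U R L) (S.rTensor (U R L) z) * v := by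
  induction z using TensorProduct.induction_on with
  | zero => simp
  | tmul a b => simp [S_mul, mul_assoc]
  | add x y hx hy => rw [add_mul, map_add, map_add, hx, hy, map_add, map_add, mul_add, add_mul]

lemma key_l (z : U R L ⊗[R] U R L) (u v : U R L) :
    LinearMap.mul' R (U R L) (S.lTensor (U R L) ((u ⊗ₜ[R] v) * z)) =
      u * LinearMap.mul' R (U R L) (S.lTensor (U R L) z) * S v := by
  induction z using TensorProduct.induction_on with
  | zero => simp
  | tmul a b => simp [S_mul, mul_assoc]
  | add x y hx hy => rw [mul_add, map_add, map_add, hx, hy, map_add, map_add, mul_add, add_mul]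

lemma key_r' (z w : U R L ⊗[R] U R L) (r : R)
    (hz : LinearMap.mul' R (U R L) (S.rTensor (U R L) z) = algebraMap R _ r) :
    LinearMap.mul' R (U R L) (S.rTensor (U R L) (z * w)) =
      algebraMap R _ r * LinearMap.mul' R (U R L) (S.rTensor (U R L) w) := by
  induction w using TensorProduct.induction_on with
  | zero => simp
  | tmul a b =>
    rw [key_r, hz, ← Algebra.commutes]
    simp [mul_assoc]
  | add x y hx hy => rw [mul_add, map_add, map_add, hx, hy, map_add, map_add, mul_add]

lemma key_l' (z w : U R L ⊗[R] U R L) (r : R)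
    (hz : LinearMap.mul' R (U R L) (S.lTensor (U R L) w) = algebraMap R _ r) :
    LinearMap.mul' R (U R L) (S.lTensor (U R L) (z * w)) =
      algebraMap R _ r * LinearMap.mul' R (U R L) (S.lTensor (U R L) z) := by
  induction z using TensorProduct.induction_on with
  | zero => simp
  | tmul a b =>
    rw [key_l, hz, ← Algebra.commutes]
    simp [mul_assoc]
  | add x y hx hy => rw [add_mul, map_add, map_add, hx, hy, map_add, map_add, mul_add]

lemma antipode_r (a : U R L) :
    LinearMap.mul' R (U R L) (S.rTensor (U R L) (Δ a)) = algebraMap R _ (ε a) := by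
  induction a using induction with
  | halg r =>
    rw [AlgHom.commutes, AlgHom.commutes, Algebra.TensorProduct.algebraMap_apply]
    simp only [LinearMap.rTensor_tmul, LinearMap.mul'_apply, mul_one, Algebra.algebraMap_self,
      RingHom.id_apply]
    rw [Algebra.algebraMap_eq_smul_one, map_smul, S_one]
  | hι x =>
    rw [Δ_ι, ε_ι]
    simp [-UniversalEnvelopingAlgebra.ι_apply, S_ι, S_one]
  | hadd a b ha hb => rw [map_add, map_add, map_add, ha, hb, map_add, map_add]
  | hmul a b ha hb => rw [map_mul, key_r' _ _ _ ha, hb, map_mul, map_mul]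

lemma antipode_l (a : U R L) :
    LinearMap.mul' R (U R L) (S.lTensor (U R L) (Δ a)) = algebraMap R _ (ε a) := by
  induction a using induction with
  | halg r =>
    rw [AlgHom.commutes, AlgHom.commutes, Algebra.TensorProduct.algebraMap_apply]
    simp only [LinearMap.lTensor_tmul, LinearMap.mul'_apply, Algebra.algebraMap_self,
      RingHom.id_apply, S_one, mul_one]
  | hι x =>
    rw [Δ_ι, ε_ι]
    simp [-UniversalEnvelopingAlgebra.ι_apply, S_ι, S_one]
  | hadd a b ha hb => rw [map_add, map_add, map_add, ha, hb, map_add, map_add]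
  | hmul a b ha hb =>
    rw [map_mul, key_l' _ _ _ hb, ha, map_mul, map_mul, ← map_mul, mul_comm, map_mul]

noncomputable instance : HopfAlgebra R (U R L) where
  antipode := S
  mul_antipode_rTensor_comul := LinearMap.ext fun a => antipode_r a
  mul_antipode_lTensor_comul := LinearMap.ext fun a => antipode_l a

end Pool.Agent.V11110.UEA
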