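import Mathlib
import Pool.Agent.V11110.UEAHopf

/-!
The enveloping algebra of the Lie algebra of derivations of `ℂ[X]`: it is a finitely generated
Hopf algebra, and every submultiplicative seminorm kills the augmentation ideal.
-/

open Polynomial Pool.Agent.V11110.UEA

namespace Pool.Agent.V11110.Witt

attribute [local instance 100] LieRing.ofAssociativeRing

/-- The Lie algebra of derivations of `ℂ[X]`. -/
abbrev W := Derivation ℂ ℂ[X] ℂ[X]

/-- The vector field `X ^ n d/dX`. -/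
noncomputable def D (n : ℕ) : W := (X : ℂ[X]) ^ n • Polynomial.derivative'

lemma D_apply (n : ℕ) (f : ℂ[X]) : D n f = X ^ n * Polynomial.derivative f := rfl

lemma lie_D (a b : ℕ) (hab : 1 ≤ a + b) :
    ⁅D a, D b⁆ = ((b : ℂ) - a) • D (a + b - 1) := by
  apply Polynomial.derivation_ext
  rw [Derivation.commutator_apply]
  simp only [D_apply, Derivation.smul_apply, derivative_X, mul_one, derivative_X_pow]
  rcases a with _ | a <;> rcases b with _ | b
  · omega
  · simp [smul_eq_C_mul]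
  · simp [smul_eq_C_mul]
    ring
  · have h1 : a + 1 + (b + 1) - 1 = a + b + 1 := by omega
    rw [h1]
    simp only [Nat.cast_add, Nat.cast_one, Nat.add_sub_cancel, smul_eq_C_mul, map_sub, map_add,
      map_natCast, map_one]
    ring

lemma mem_span (d : W) : d ∈ Submodule.span ℂ (Set.range D) := by
  have h : d = ∑ n ∈ (d X).support, (d X).coeff n • D n := by
    have h0 : d = mkDerivation ℂ (d X) := by
      apply Polynomial.derivation_ext
      rw [mkDerivation_X]
    conv_lhs => rw [h0, (d X).as_sum_support, map_sum]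
    refine Finset.sum_congr rfl fun n _ => ?_
    apply Polynomial.derivation_ext
    rw [mkDerivation_X, Derivation.smul_apply, D_apply, derivative_X, mul_one,
      ← C_mul_X_pow_eq_monomial, smul_eq_C_mul]
  rw [h]
  exact Submodule.sum_mem _ fun n _ => Submodule.smul_mem _ _ (Submodule.subset_span ⟨n, rfl⟩)

/-- The Hopf algebra. -/
abbrev UW := U ℂ W

lemma lie_ι (x y : W) : (ι (R := ℂ) ⁅x, y⁆ : UW) = ι x * ι y - ι y * ι x := by
  rw [LieHom.map_lie, Ring.lie_def]

lemma finiteType : Algebra.FiniteType ℂ UW := by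
  refine ⟨Subalgebra.fg_def.2 ⟨{ι (R := ℂ) (D 0), ι (R := ℂ) (D 3)}, by simp, ?_⟩⟩
  set T := Algebra.adjoin ℂ ({ι (R := ℂ) (D 0), ι (R := ℂ) (D 3)} : Set UW) with hT
  have h0 : ι (R := ℂ) (D 0) ∈ T := Algebra.subset_adjoin (Set.mem_insert _ _)
  have h3 : ι (R := ℂ) (D 3) ∈ T :=
    Algebra.subset_adjoin (Set.mem_insert_of_mem _ (Set.mem_singleton _))
  have hlie : ∀ x y : W, ι (R := ℂ) x ∈ T → ι (R := ℂ) y ∈ T → ι (R := ℂ) ⁅x, y⁆ ∈ T := by
    intro x y hx hy
    rw [lie_ι]
    exact T.sub_mem (T.mul_mem hx hy) (T.mul_mem hy hx)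
  have hstep : ∀ (x : W) (c : ℂ), c ≠ 0 → ι (R := ℂ) (c • x) ∈ T → ι (R := ℂ) x ∈ T := by
    intro x c hc hx
    have h := T.smul_mem hx c⁻¹
    rwa [← map_smul, smul_smul, inv_mul_cancel₀ hc, one_smul] at h
  have h2 : ι (R := ℂ) (D 2) ∈ T := by
    have h := hlie _ _ h0 h3
    rw [lie_D 0 3 (by norm_num)] at h
    exact hstep _ _ (by norm_num) h
  have h1 : ι (R := ℂ) (D 1) ∈ T := by
    have h := hlie _ _ h0 h2
    rw [lie_D 0 2 (by norm_num)] at h
    exact hstep _ _ (by norm_num) h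
  have hge : ∀ n : ℕ, ι (R := ℂ) (D (n + 3)) ∈ T := by
    intro n
    induction n with
    | zero => exact h3
    | succ n ih =>
      have h := hlie _ _ h2 ih
      rw [lie_D 2 (n + 3) (by omega)] at h
      have h4 : 2 + (n + 3) - 1 = n + 1 + 3 := by omega
      rw [h4] at h
      refine hstep _ _ ?_ h
      have : ((n + 3 : ℕ) : ℂ) - (2 : ℕ) = ((n + 1 : ℕ) : ℂ) := by push_cast; ring
      rw [this]
      exact_mod_cast (by omega : n + 1 ≠ 0)
  have hall : ∀ n : ℕ, ι (R := ℂ) (D n) ∈ T := by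
    intro n
    match n with
    | 0 => exact h0
    | 1 => exact h1
    | 2 => exact h2
    | n + 3 => exact hge n
  have hι : ∀ d : W, ι (R := ℂ) d ∈ T := by
    intro d
    have hd := mem_span d
    induction hd using Submodule.span_induction with
    | mem x hx => obtain ⟨n, rfl⟩ := hx; exact hall n
    | zero => rw [map_zero]; exact T.zero_mem
    | add x y _ _ hx hy => rw [map_add]; exact T.add_mem hx hy
    | smul c x _ hx => rw [map_smul]; exact T.smul_mem hx c
  rw [eq_top_iff, ← adjoin_ι]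
  refine Algebra.adjoin_le ?_
  rintro _ ⟨x, rfl⟩
  exact hι x

/-- Every submultiplicative seminorm kills the generators. -/
lemma seminorm_ι (p : Seminorm ℂ UW) (hp : ∀ a b, p (a * b) ≤ p a * p b) (d : W) :
    p (ι (R := ℂ) d) = 0 := by
  have hbr : ∀ x y : W, p (ι (R := ℂ) ⁅x, y⁆) ≤ 2 * p (ι (R := ℂ) x) * p (ι (R := ℂ) y) := by
    intro x y
    rw [lie_ι]
    calc p (ι x * ι y - ι y * ι x) ≤ p (ι (R := ℂ) x * ι y) + p (ι (R := ℂ) y * ι x) :=
          map_sub_le_add p _ _
      _ ≤ p (ι (R := ℂ) x) * p (ι (R := ℂ) y) + p (ι (R := ℂ) y) * p (ι (R := ℂ) x) :=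
          add_le_add (hp _ _) (hp _ _)
      _ = 2 * p (ι (R := ℂ) x) * p (ι (R := ℂ) y) := by ring
  have hsm : ∀ (c : ℂ) (x : W), p (ι (R := ℂ) (c • x)) = ‖c‖ * p (ι (R := ℂ) x) := by
    intro c x
    rw [map_smul, map_smul_eq_mul]
  -- large indices
  obtain ⟨N, hN⟩ := exists_nat_gt (2 * p (ι (R := ℂ) (D 1)))
  have hlarge : ∀ n, N + 1 ≤ n → p (ι (R := ℂ) (D n)) = 0 := by
    intro n hn
    have h := hbr (D 1) (D n)
    rw [lie_D 1 n (by omega), Nat.add_sub_cancel_left, hsm] at h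
    have h1 : ‖((n : ℂ) - (1 : ℕ))‖ = (n : ℝ) - 1 := by
      have : ((n : ℂ) - (1 : ℕ)) = (((n : ℝ) - 1 : ℝ) : ℂ) := by push_cast; ring
      rw [this, Complex.norm_real, Real.norm_eq_abs, abs_of_nonneg]
      have : (1 : ℝ) ≤ n := by exact_mod_cast (by omega : 1 ≤ n)
      linarith
    rw [h1] at h
    have h2 : (N : ℝ) ≤ (n : ℝ) - 1 := by
      have : ((N + 1 : ℕ) : ℝ) ≤ n := by exact_mod_cast hn
      push_cast at this
      linarith
    have h3 : 0 ≤ p (ι (R := ℂ) (D n)) := apply_nonneg p _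
    nlinarith
  have hdown : ∀ n, p (ι (R := ℂ) (D (n + 1))) = 0 → p (ι (R := ℂ) (D n)) = 0 := by
    intro n hn
    have h := hbr (D 0) (D (n + 1))
    rw [lie_D 0 (n + 1) (by omega), hn, mul_zero, hsm] at h
    have h1 : ‖(((n + 1 : ℕ) : ℂ) - (0 : ℕ))‖ = (n : ℝ) + 1 := by
      rw [Nat.cast_zero, sub_zero, Complex.norm_natCast]
      push_cast
      ring
    have h4 : 0 + (n + 1) - 1 = n := by omega
    rw [h1, h4] at h
    have h3 : 0 ≤ p (ι (R := ℂ) (D n)) := apply_nonneg p _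
    nlinarith
  have hall : ∀ k n, N + 1 ≤ n + k → p (ι (R := ℂ) (D n)) = 0 := by
    intro k
    induction k with
    | zero => intro n hn; exact hlarge n hn
    | succ k ih => intro n hn; exact hdown n (ih (n + 1) (by omega))
  have hD : ∀ n, p (ι (R := ℂ) (D n)) = 0 := fun n => hall (N + 1) n (by omega)
  have hd := mem_span d
  induction hd using Submodule.span_induction with
  | mem x hx => obtain ⟨n, rfl⟩ := hx; exact hD n
  | zero => rw [map_zero, map_zero]
  | add x y _ _ hx hy =>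
    refine le_antisymm ?_ (apply_nonneg p _)
    rw [map_add]
    calc p (ι x + ι y) ≤ p (ι (R := ℂ) x) + p (ι (R := ℂ) y) := map_add_le_add p _ _
      _ = 0 := by rw [hx, hy, add_zero]
  | smul c x _ hx => rw [hsm, hx, mul_zero]

/-- The action on `ℂ[X]`. -/
noncomputable def act : W →ₗ⁅ℂ⁆ Module.End ℂ ℂ[X] where
  toFun d := (d : ℂ[X] →ₗ[ℂ] ℂ[X])
  map_add' _ _ := rfl
  map_smul' _ _ := rfl
  map_lie' := by
    intro x y
    ext1 f
    rfl

lemma ι_ne_zero : (ι (R := ℂ) (D 0) : UW) ≠ 0 := by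
  intro h
  have h1 := UniversalEnvelopingAlgebra.lift_ι_apply ℂ act (D 0)
  rw [h, map_zero] at h1
  have h2 := congrArg (fun T : Module.End ℂ ℂ[X] => T X) h1
  have h3 : (D 0) X = (1 : ℂ[X]) := by rw [D_apply]; simp
  have h4 : act (D 0) X = (D 0) X := rfl
  simp only [LinearMap.zero_apply] at h2
  rw [h4, h3] at h2
  exact zero_ne_one h2

end Pool.Agent.V11110.Witt
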