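import Mathlib

namespace Pool.Agent.V11110.AC

open Filter Topology

/-- nonarchimedean seminorm on a rational vector space, trivially valued scalars -/
structure IsVal {V : Type*} [AddCommGroup V] [Module ℚ V] (N : V → ℝ) : Prop where
  nonneg : ∀ v, 0 ≤ N v
  zero : N 0 = 0
  add_le : ∀ v w, N (v + w) ≤ max (N v) (N w)
  smul : ∀ (q : ℚ) (v : V), q ≠ 0 → N (q • v) = N v

/-- countable spherical completeness -/
def SphComplete {V : Type*} [AddCommGroup V] (N : V → ℝ) : Prop :=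
  ∀ (v : ℕ → V) (ρ : ℕ → ℝ), Antitone ρ → (∀ n m, n ≤ m → N (v m - v n) ≤ ρ n) →
    ∃ x, ∀ n, N (x - v n) ≤ ρ n

/-- residue maps onto the reals -/
structure IsRes {V : Type*} [AddCommGroup V] [Module ℚ V] (N : V → ℝ)
    (res : ℝ → V →ₗ[ℚ] ℝ) : Prop where
  zero_iff : ∀ ρ, 0 < ρ → ∀ v, N v ≤ ρ → (res ρ v = 0 ↔ N v < ρ)
  surj : ∀ ρ, 0 < ρ → ∀ c, ∃ v, N v ≤ ρ ∧ res ρ v = c

section
variable {V W : Type*} [AddCommGroup V] [Module ℚ V] [AddCommGroup W] [Module ℚ W]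

theorem IsVal.neg {N : V → ℝ} (h : IsVal N) (v : V) : N (-v) = N v := by
  have := h.smul (-1) v (by norm_num)
  simpa using this

theorem IsVal.sub_le {N : V → ℝ} (h : IsVal N) (v w : V) : N (v - w) ≤ max (N v) (N w) := by
  have := h.add_le v (-w)
  rw [h.neg] at this
  simpa [sub_eq_add_neg] using this

def Rel (NV : V → ℝ) (NW : W → ℝ) (rV : ℝ → V →ₗ[ℚ] ℝ) (rW : ℝ → W →ₗ[ℚ] ℝ) (v : V) (w : W) :
    Prop :=
  NW w ≤ NV v ∧ ∀ ρ, 0 < ρ → NV v ≤ ρ → rW ρ w = rV ρ v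

variable {NV : V → ℝ} {NW : W → ℝ} {rV : ℝ → V →ₗ[ℚ] ℝ} {rW : ℝ → W →ₗ[ℚ] ℝ}

theorem Rel.eq (_hV : IsVal NV) (hW : IsVal NW) (hrV : IsRes NV rV) (hrW : IsRes NW rW)
    {v : V} {w : W} (h : Rel NV NW rV rW v w) : NW w = NV v := by
  rcases h with ⟨h1, h2⟩
  refine le_antisymm h1 ?_
  by_contra hlt
  rw [not_le] at hlt
  have hpos : 0 < NV v := lt_of_le_of_lt (hW.nonneg w) hlt
  have h3 := h2 (NV v) hpos le_rfl
  have h4 : rW (NV v) w = 0 := (hrW.zero_iff _ hpos w h1).2 hlt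
  rw [h4] at h3
  have h5 := (hrV.zero_iff _ hpos v le_rfl).1 h3.symm
  exact lt_irrefl _ h5

theorem Rel.smul (hV : IsVal NV) (hW : IsVal NW) {v : V} {w : W}
    (h : Rel NV NW rV rW v w) (q : ℚ) (hq : q ≠ 0) : Rel NV NW rV rW (q • v) (q • w) := by
  rcases h with ⟨h1, h2⟩
  refine ⟨?_, ?_⟩
  · rw [hV.smul q v hq, hW.smul q w hq]; exact h1
  · intro ρ hρ hle
    rw [hV.smul q v hq] at hle
    rw [map_smul, map_smul, h2 ρ hρ hle]

def Good (NV : V → ℝ) (NW : W → ℝ) (rV : ℝ → V →ₗ[ℚ] ℝ) (rW : ℝ → W →ₗ[ℚ] ℝ)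
    (f : V →ₗ.[ℚ] W) : Prop :=
  ∀ v : f.domain, Rel NV NW rV rW (v : V) (f v)

/-- one-step extension -/
theorem exists_step (hV : IsVal NV) (hW : IsVal NW) (hrV : IsRes NV rV) (hrW : IsRes NW rW)
    (scW : SphComplete NW) (f : V →ₗ.[ℚ] W) (hf : Good NV NW rV rW f) (x : V) :
    ∃ y : W, ∀ a : f.domain, Rel NV NW rV rW (x + a) (y + f a) := by
  have hfeq : ∀ a : f.domain, NW (f a) = NV a := fun a => (hf a).eq hV hW hrV hrW
  by_cases hatt : ∃ a0 : f.domain, ∀ a : f.domain, NV (x + a0) ≤ NV (x + a)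
  · obtain ⟨a0, ha0⟩ := hatt
    obtain ⟨z, hz1, hz2⟩ : ∃ z : W, NW z ≤ NV (x + a0) ∧
        ∀ ρ, 0 < ρ → NV (x + a0) ≤ ρ → rW ρ z = rV ρ (x + a0) := by
      rcases (hV.nonneg (x + a0)).eq_or_lt with h0 | h0
      · refine ⟨0, ?_, ?_⟩
        · rw [hW.zero]; exact hV.nonneg _
        · intro ρ hρ _
          rw [map_zero]
          refine ((hrV.zero_iff ρ hρ _ ?_).2 ?_).symm
          · rw [← h0]; exact hρ.le
          · rw [← h0]; exact hρ
      · obtain ⟨z, hz1, hz2⟩ := hrW.surj (NV (x + a0)) h0 (rV (NV (x + a0)) (x + a0))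
        refine ⟨z, hz1, ?_⟩
        intro ρ hρ hle
        rcases hle.eq_or_lt with h1 | h1
        · rw [← h1]; exact hz2
        · rw [(hrW.zero_iff ρ hρ z (hz1.trans hle)).2 (lt_of_le_of_lt hz1 h1),
            (hrV.zero_iff ρ hρ _ hle).2 h1]
    refine ⟨z - f a0, ?_⟩
    intro a
    have e1 : x + (a : V) = (x + a0) + ((a - a0 : f.domain) : V) := by
      push_cast; abel
    have e2 : z - f a0 + f a = z + f (a - a0) := by
      rw [LinearPMap.map_sub]; abel
    have hb : NV ((a - a0 : f.domain) : V) ≤ NV (x + a) := by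
      have e3 : ((a - a0 : f.domain) : V) = (x + a) - (x + a0) := by push_cast; abel
      rw [e3]
      refine (hV.sub_le _ _).trans ?_
      exact max_le le_rfl (ha0 a)
    rw [e2]
    refine ⟨?_, ?_⟩
    · refine (hW.add_le _ _).trans (max_le (hz1.trans (ha0 a)) ?_)
      rw [hfeq]; exact hb
    · intro ρ hρ hle
      rw [map_add, hz2 ρ hρ ((ha0 a).trans hle), (hf (a - a0)).2 ρ hρ (hb.trans hle), e1,
        (rV ρ).map_add (x + a0)]
  · push Not at hatt
    set S : Set ℝ := Set.range (fun a : f.domain => NV (x + a)) with hS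
    have hSne : S.Nonempty := ⟨_, ⟨0, rfl⟩⟩
    have hSbdd : BddBelow S := ⟨0, by rintro _ ⟨a, rfl⟩; exact hV.nonneg _⟩
    obtain ⟨u, hu1, hu2, hu3⟩ := exists_seq_tendsto_sInf hSne hSbdd
    choose a ha using hu3
    have ha' : ∀ n, NV (x + a n) = u n := ha
    obtain ⟨y', hy'⟩ := scW (fun n => f (a n)) u hu1 (by
      intro n m hnm
      have : f (a m) - f (a n) = f (a m - a n) := by rw [LinearPMap.map_sub]
      rw [this, hfeq]
      have e3 : ((a m - a n : f.domain) : V) = (x + a m) - (x + a n) := by push_cast; abel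
      rw [e3]
      refine (hV.sub_le _ _).trans ?_
      rw [ha', ha']
      exact max_le (hu1 hnm) le_rfl)
    refine ⟨-y', ?_⟩
    intro b
    have hlt : sInf S < NV (x + b) := by
      obtain ⟨b', hb'⟩ := hatt b
      exact lt_of_le_of_lt (csInf_le hSbdd ⟨b', rfl⟩) hb'
    obtain ⟨n, hn⟩ := (hu2.eventually_lt_const hlt).exists
    have hyn : NW (-y' + f (a n)) ≤ u n := by
      have : -y' + f (a n) = -(y' - f (a n)) := by abel
      rw [this, hW.neg]; exact hy' n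
    have e1 : x + (b : V) = (x + a n) + ((b - a n : f.domain) : V) := by push_cast; abel
    have e2 : -y' + f b = (-y' + f (a n)) + f (b - a n) := by
      rw [LinearPMap.map_sub]; abel
    have hb : NV ((b - a n : f.domain) : V) ≤ NV (x + b) := by
      have e3 : ((b - a n : f.domain) : V) = (x + b) - (x + a n) := by push_cast; abel
      rw [e3]
      refine (hV.sub_le _ _).trans ?_
      rw [ha']
      exact max_le le_rfl hn.le
    rw [e2]
    refine ⟨?_, ?_⟩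
    · refine (hW.add_le _ _).trans (max_le (hyn.trans hn.le) ?_)
      rw [hfeq]; exact hb
    · intro ρ hρ hle
      have h1 : rW ρ (-y' + f (a n)) = 0 :=
        (hrW.zero_iff ρ hρ _ (hyn.trans (hn.le.trans hle))).2
          (lt_of_le_of_lt hyn (lt_of_lt_of_le hn hle))
      have h2 : rV ρ (x + a n) = 0 := by
        refine (hrV.zero_iff ρ hρ _ ?_).2 ?_
        · rw [ha']; exact hn.le.trans hle
        · rw [ha']; exact lt_of_lt_of_le hn hle
      rw [map_add, h1, (hf (b - a n)).2 ρ hρ (hb.trans hle), e1,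
        (rV ρ).map_add (x + a n), h2]

theorem good_extend (hV : IsVal NV) (hW : IsVal NW)
    (f : V →ₗ.[ℚ] W) (hf : Good NV NW rV rW f) (x : V) (hx : x ∉ f.domain) (y : W)
    (hy : ∀ a : f.domain, Rel NV NW rV rW (x + a) (y + f a)) :
    Good NV NW rV rW (f.supSpanSingleton x y hx) := by
  rintro ⟨v, hv⟩
  have hv' := hv
  rw [LinearPMap.domain_supSpanSingleton, Submodule.mem_sup] at hv'
  obtain ⟨a, ha, b, hb, hab⟩ := hv'
  obtain ⟨q, rfl⟩ := Submodule.mem_span_singleton.1 hb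
  subst hab
  rw [LinearPMap.supSpanSingleton_apply_mk _ _ _ hx _ ha]
  rcases eq_or_ne q 0 with rfl | hq
  · simpa using hf ⟨a, ha⟩
  · have h1 := (hy (q⁻¹ • ⟨a, ha⟩)).smul hV hW q hq
    have e1 : q • (x + ((q⁻¹ • (⟨a, ha⟩ : f.domain) : f.domain) : V)) = a + q • x := by
      rw [smul_add, Submodule.coe_smul, smul_smul, mul_inv_cancel₀ hq, one_smul, add_comm]
    have e2 : q • (y + f (q⁻¹ • (⟨a, ha⟩ : f.domain))) = f ⟨a, ha⟩ + q • y := by
      rw [smul_add, LinearPMap.map_smul, smul_smul, mul_inv_cancel₀ hq, one_smul, add_comm]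
    rw [e1, e2] at h1
    exact h1

theorem exists_isometry (hV : IsVal NV) (hW : IsVal NW) (hrV : IsRes NV rV) (hrW : IsRes NW rW)
    (scV : SphComplete NV) (scW : SphComplete NW) :
    ∃ φ : V →ₗ[ℚ] W, (∀ v, NW (φ v) = NV v) ∧ ∀ w, ∃ v, NW (w - φ v) = 0 := by
  obtain ⟨f, -, hmax⟩ := zorn_le_nonempty₀ {f : V →ₗ.[ℚ] W | Good NV NW rV rW f} (by
    intro c hc hchain y hyc
    have hdir : DirectedOn (· ≤ ·) c := hchain.directedOn
    refine ⟨LinearPMap.sSup c hdir, ?_, fun z hz => LinearPMap.le_sSup hdir hz⟩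
    rintro ⟨v, hv⟩
    have hv' := hv
    rw [LinearPMap.domain_sSup, Submodule.mem_sSup_of_directed (Set.Nonempty.image _ ⟨y, hyc⟩)
      (by
        rintro _ ⟨g, hg, rfl⟩ _ ⟨g', hg', rfl⟩
        obtain ⟨k, hk, h1, h2⟩ := hdir g hg g' hg'
        exact ⟨_, ⟨k, hk, rfl⟩, h1.1, h2.1⟩)] at hv'
    obtain ⟨_, ⟨g, hg, rfl⟩, hvg⟩ := hv'
    have h2 : LinearPMap.sSup c hdir ⟨v, hv⟩ = g ⟨v, hvg⟩ :=
      LinearPMap.sSup_apply hdir hg ⟨v, hvg⟩
    rw [h2]
    exact hc hg ⟨v, hvg⟩) ⊥ (by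
    rintro ⟨v, hv⟩
    have hv0 : v = 0 := (Submodule.mem_bot ℚ).1 hv
    subst hv0
    have : (⊥ : V →ₗ.[ℚ] W) ⟨0, hv⟩ = 0 := LinearPMap.map_zero _
    rw [this]
    refine ⟨?_, ?_⟩
    · rw [hV.zero, hW.zero]
    · intro ρ _ _
      rw [map_zero, map_zero])
  have hf : Good NV NW rV rW f := hmax.1
  have htop : f.domain = ⊤ := by
    rw [Submodule.eq_top_iff']
    intro x
    by_contra hx
    obtain ⟨y, hy⟩ := exists_step hV hW hrV hrW scW f hf x
    have hg := good_extend hV hW f hf x hx y hy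
    have hle : f ≤ f.supSpanSingleton x y hx := LinearPMap.left_le_sup _ _ _
    have hle' := hmax.2 hg hle
    exact hx (hle'.1 (by
      rw [LinearPMap.domain_supSpanSingleton]
      exact Submodule.mem_sup_right (Submodule.mem_span_singleton_self x)))
  have hmem : ∀ v, v ∈ f.domain := by intro v; rw [htop]; trivial
  let φ : V →ₗ[ℚ] W := f.toFun.comp (LinearMap.codRestrict f.domain LinearMap.id hmem)
  have hφ : ∀ v, φ v = f ⟨v, hmem v⟩ := fun v => rfl
  have hrel : ∀ v, Rel NV NW rV rW v (φ v) := fun v => hf ⟨v, hmem v⟩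
  have hiso : ∀ v, NW (φ v) = NV v := fun v => (hrel v).eq hV hW hrV hrW
  refine ⟨φ, hiso, ?_⟩
  intro w
  by_cases hatt : ∃ v0 : V, ∀ v : V, NW (w + φ v0) ≤ NW (w + φ v)
  · obtain ⟨v0, hv0⟩ := hatt
    rcases (hW.nonneg (w + φ v0)).eq_or_lt with h0 | h0
    · refine ⟨-v0, ?_⟩
      rw [map_neg, sub_neg_eq_add]; exact h0.symm
    · exfalso
      set ρ := NW (w + φ v0) with hρ
      obtain ⟨v1, h1, h2⟩ := hrV.surj ρ h0 (-(rW ρ (w + φ v0)))
      have h3 : NW (w + φ (v0 + v1)) ≤ ρ := by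
        rw [map_add, ← add_assoc]
        refine (hW.add_le _ _).trans (max_le le_rfl ?_)
        rw [hiso]; exact h1
      have h4 : rW ρ (w + φ (v0 + v1)) = 0 := by
        rw [φ.map_add, ← add_assoc, (rW ρ).map_add, (hrel v1).2 ρ h0 h1, h2]; ring
      have h5 := (hrW.zero_iff ρ h0 _ h3).1 h4
      exact absurd (hv0 (v0 + v1)) (not_le.2 h5)
  · push Not at hatt
    exfalso
    set S : Set ℝ := Set.range (fun v : V => NW (w + φ v)) with hS
    have hSne : S.Nonempty := ⟨_, ⟨0, rfl⟩⟩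
    have hSbdd : BddBelow S := ⟨0, by rintro _ ⟨a, rfl⟩; exact hW.nonneg _⟩
    obtain ⟨u, hu1, hu2, hu3⟩ := exists_seq_tendsto_sInf hSne hSbdd
    choose a ha using hu3
    have ha' : ∀ n, NW (w + φ (a n)) = u n := ha
    obtain ⟨v, hv⟩ := scV a u hu1 (by
      intro n m hnm
      rw [← hiso]
      have e3 : φ (a m - a n) = (w + φ (a m)) - (w + φ (a n)) := by rw [map_sub]; abel
      rw [e3]
      refine (hW.sub_le _ _).trans ?_
      rw [ha', ha']
      exact max_le (hu1 hnm) le_rfl)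
    have h6 : ∀ n, NW (w + φ v) ≤ u n := by
      intro n
      have e3 : w + φ v = (w + φ (a n)) + φ (v - a n) := by rw [map_sub]; abel
      rw [e3]
      refine (hW.add_le _ _).trans ?_
      rw [ha', hiso]
      exact max_le le_rfl (hv n)
    have h7 : NW (w + φ v) ≤ sInf S := ge_of_tendsto' hu2 h6
    obtain ⟨v', hv'⟩ := hatt v
    exact absurd (csInf_le hSbdd ⟨v', rfl⟩) (not_le.2 (lt_of_lt_of_le hv' h7))

end

end Pool.Agent.V11110.AC
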