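import Mathlib
import Pool.Agent.V11110.AC1

namespace Pool.Agent.V11110.AC

open Filter Topology Cardinal

theorem exists_ulim (ω : Ultrafilter ℕ) (f : ℕ → ℝ) (a b : ℝ)
    (h : ∀ᶠ i in (ω : Filter ℕ), f i ∈ Set.Icc a b) : ∃ l, Tendsto f ω (𝓝 l) := by
  have hK : IsCompact (Set.Icc a b) := isCompact_Icc
  obtain ⟨l, -, hl⟩ := hK.ultrafilter_le_nhds' (ω.map f) h
  exact ⟨l, hl⟩

/-- a free ultrafilter with infinitesimal positive exponents -/
structure Sc where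
  ω : Ultrafilter ℕ
  e : ℕ → ℝ
  free : (ω : Filter ℕ) ≤ atTop
  lim : Tendsto e (ω : Filter ℕ) (𝓝 0)
  pos : ∀ᶠ i in (ω : Filter ℕ), 0 < e i

theorem Sc.const_rpow (c : Sc) (K : ℝ) (hK : 0 < K) :
    Tendsto (fun i => K ^ (c.e i)) (c.ω : Filter ℕ) (𝓝 1) := by
  have h := (tendsto_const_nhds (x := K) (f := (c.ω : Filter ℕ))).rpow c.lim (Or.inl hK.ne')
  simpa using h

theorem add_rpow_le {a b e : ℝ} (ha : 0 ≤ a) (hb : 0 ≤ b) (he : 0 < e) :
    (a + b) ^ e ≤ 2 ^ e * max (a ^ e) (b ^ e) := by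
  rcases le_total a b with h | h
  · calc (a + b) ^ e ≤ (2 * b) ^ e := Real.rpow_le_rpow (by positivity) (by linarith) he.le
      _ = 2 ^ e * b ^ e := Real.mul_rpow (by norm_num) hb
      _ ≤ _ := by gcongr; exact le_max_right _ _
  · calc (a + b) ^ e ≤ (2 * a) ^ e := Real.rpow_le_rpow (by positivity) (by linarith) he.le
      _ = 2 ^ e * a ^ e := Real.mul_rpow (by norm_num) ha
      _ ≤ _ := by gcongr; exact le_max_left _ _

section
variable (c : Sc) (E : Type) [NontriviallyNormedField E] [CharZero E]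

theorem norm_ratsmul (q : ℚ) (x : E) : ‖q • x‖ = ‖(q : E)‖ * ‖x‖ := by
  rw [Rat.smul_def, norm_mul]

/-- sequences of moderate growth -/
def U : Submodule ℚ (ℕ → E) where
  carrier := {x | ∃ C : ℝ, ∀ᶠ i in (c.ω : Filter ℕ), ‖x i‖ ^ (c.e i) ≤ C}
  zero_mem' := by
    refine ⟨0, ?_⟩
    filter_upwards [c.pos] with i hi
    simp [Real.zero_rpow hi.ne']
  add_mem' := by
    rintro x y ⟨C, hC⟩ ⟨D, hD⟩
    refine ⟨2 * max C D, ?_⟩
    have h2 : ∀ᶠ i in (c.ω : Filter ℕ), (2:ℝ) ^ (c.e i) < 2 :=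
      (c.const_rpow 2 (by norm_num)).eventually_lt_const (by norm_num)
    filter_upwards [c.pos, hC, hD, h2] with i h0 h1 h2 h3
    calc ‖x i + y i‖ ^ (c.e i) ≤ (‖x i‖ + ‖y i‖) ^ (c.e i) :=
          Real.rpow_le_rpow (norm_nonneg _) (norm_add_le _ _) h0.le
      _ ≤ 2 ^ (c.e i) * max (‖x i‖ ^ (c.e i)) (‖y i‖ ^ (c.e i)) :=
          add_rpow_le (norm_nonneg _) (norm_nonneg _) h0
      _ ≤ 2 * max C D := by
          apply mul_le_mul h3.le (max_le_max h1 h2)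
          · exact le_max_of_le_left (Real.rpow_nonneg (norm_nonneg _) _)
          · norm_num
  smul_mem' := by
    rintro q x ⟨C, hC⟩
    rcases eq_or_ne q 0 with rfl | hq
    · refine ⟨0, ?_⟩
      filter_upwards [c.pos] with i hi
      simp [Real.zero_rpow hi.ne']
    · have hq' : 0 < ‖(q : E)‖ := by rw [norm_pos_iff]; exact_mod_cast hq
      refine ⟨2 * C, ?_⟩
      have h2 : ∀ᶠ i in (c.ω : Filter ℕ), ‖(q : E)‖ ^ (c.e i) < 2 :=
        (c.const_rpow _ hq').eventually_lt_const (by norm_num)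
      filter_upwards [c.pos, hC, h2] with i h0 h1 h2
      rw [Pi.smul_apply, norm_ratsmul, Real.mul_rpow (norm_nonneg _) (norm_nonneg _)]
      apply mul_le_mul h2.le h1 (Real.rpow_nonneg (norm_nonneg _) _) (by norm_num)

variable {E}

theorem mem_U (x : ℕ → E) : x ∈ U c E ↔ ∃ C : ℝ, ∀ᶠ i in (c.ω : Filter ℕ), ‖x i‖ ^ (c.e i) ≤ C :=
  Iff.rfl

noncomputable def nrm (x : U c E) : ℝ :=
  limUnder (c.ω : Filter ℕ) (fun i => ‖(x : ℕ → E) i‖ ^ (c.e i))

theorem tendsto_nrm (x : U c E) :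
    Tendsto (fun i => ‖(x : ℕ → E) i‖ ^ (c.e i)) (c.ω : Filter ℕ) (𝓝 (nrm c x)) := by
  obtain ⟨C, hC⟩ := x.2
  apply tendsto_nhds_limUnder
  apply exists_ulim c.ω _ 0 C
  filter_upwards [hC] with i hi
  exact ⟨Real.rpow_nonneg (norm_nonneg _) _, hi⟩

theorem nrm_eq {x : U c E} {l : ℝ}
    (h : Tendsto (fun i => ‖(x : ℕ → E) i‖ ^ (c.e i)) (c.ω : Filter ℕ) (𝓝 l)) : nrm c x = l :=
  tendsto_nhds_unique (tendsto_nrm c x) h

theorem isVal_nrm : IsVal (nrm c (E := E)) where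
  nonneg x := ge_of_tendsto' (tendsto_nrm c x) (fun i => Real.rpow_nonneg (norm_nonneg _) _)
  zero := by
    apply nrm_eq
    apply tendsto_const_nhds.congr'
    filter_upwards [c.pos] with i hi
    simp [Real.zero_rpow hi.ne']
  add_le x y := by
    have h1 : Tendsto (fun i => (2:ℝ) ^ (c.e i) * max (‖(x : ℕ → E) i‖ ^ (c.e i))
        (‖(y : ℕ → E) i‖ ^ (c.e i))) (c.ω : Filter ℕ) (𝓝 (1 * max (nrm c x) (nrm c y))) :=
      (c.const_rpow 2 (by norm_num)).mul ((tendsto_nrm c x).max (tendsto_nrm c y))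
    rw [one_mul] at h1
    refine le_of_tendsto_of_tendsto (tendsto_nrm c (x + y)) h1 ?_
    filter_upwards [c.pos] with i h0
    calc ‖((x + y : U c E) : ℕ → E) i‖ ^ (c.e i)
        ≤ (‖(x : ℕ → E) i‖ + ‖(y : ℕ → E) i‖) ^ (c.e i) :=
          Real.rpow_le_rpow (norm_nonneg _) (norm_add_le _ _) h0.le
      _ ≤ _ := add_rpow_le (norm_nonneg _) (norm_nonneg _) h0
  smul q x hq := by
    have hq' : 0 < ‖(q : E)‖ := by rw [norm_pos_iff]; exact_mod_cast hq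
    apply nrm_eq
    have h1 : Tendsto (fun i => ‖(q : E)‖ ^ (c.e i) * ‖(x : ℕ → E) i‖ ^ (c.e i))
        (c.ω : Filter ℕ) (𝓝 (1 * nrm c x)) := (c.const_rpow _ hq').mul (tendsto_nrm c x)
    rw [one_mul] at h1
    apply h1.congr
    intro i
    rw [Submodule.coe_smul, Pi.smul_apply, norm_ratsmul,
      Real.mul_rpow (norm_nonneg _) (norm_nonneg _)]

omit c E [NontriviallyNormedField E] [CharZero E] in
theorem exists_index (T : ℕ → ℕ → Prop) (hT : ∀ n i, T n i → n ≤ i) :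
    ∃ k : ℕ → ℕ, ∀ n i, T n i → n ≤ k i ∧ T (k i) i := by
  classical
  refine ⟨fun i => Nat.findGreatest (fun n => T n i) i, ?_⟩
  intro n i hn
  exact ⟨Nat.le_findGreatest (hT n i hn) hn,
    Nat.findGreatest_spec (P := fun n => T n i) (hT n i hn) hn⟩

theorem exists_diag (v : ℕ → ℕ → E) (ρ : ℕ → ℝ)
    (h : ∀ m n, m ≤ n → ∀ δ : ℝ, 0 < δ → ∀ᶠ i in (c.ω : Filter ℕ),
      ‖v n i - v m i‖ ^ (c.e i) ≤ ρ m + δ) :
    ∃ x : ℕ → E, ∀ n : ℕ, ∀ δ : ℝ, 0 < δ → ∀ᶠ i in (c.ω : Filter ℕ),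
      ‖x i - v n i‖ ^ (c.e i) ≤ ρ n + δ := by
  have hT : ∀ n : ℕ, ∀ᶠ i in (c.ω : Filter ℕ), (n ≤ i ∧ ∀ m ∈ Finset.range (n + 1),
      ‖v n i - v m i‖ ^ (c.e i) ≤ ρ m + 1 / ((n : ℝ) + 1)) := by
    intro n
    have h1 : ∀ᶠ i in (c.ω : Filter ℕ), n ≤ i := c.free (eventually_ge_atTop n)
    have h2 : ∀ᶠ i in (c.ω : Filter ℕ), ∀ m ∈ Finset.range (n + 1),
        ‖v n i - v m i‖ ^ (c.e i) ≤ ρ m + 1 / ((n : ℝ) + 1) := by
      rw [Finset.eventually_all]
      intro m hm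
      exact h m n (Nat.lt_succ_iff.1 (Finset.mem_range.1 hm)) _ (by positivity)
    exact h1.and h2
  obtain ⟨k, hk⟩ := exists_index (fun n i => (n ≤ i ∧ ∀ m ∈ Finset.range (n + 1),
      ‖v n i - v m i‖ ^ (c.e i) ≤ ρ m + 1 / ((n : ℝ) + 1))) (fun n i h => h.1)
  refine ⟨fun i => v (k i) i, ?_⟩
  intro n δ hδ
  obtain ⟨n1, hn1⟩ := exists_nat_one_div_lt hδ
  filter_upwards [hT (max n n1)] with i hi
  obtain ⟨h1, -, h2⟩ := hk _ i hi
  have h3 := h2 n (Finset.mem_range.2 (by have := le_max_left n n1; omega))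
  have h4 : 1 / ((k i : ℝ) + 1) ≤ 1 / ((n1 : ℝ) + 1) := by
    apply one_div_le_one_div_of_le (by positivity)
    have : (n1 : ℝ) ≤ (k i : ℝ) := by exact_mod_cast (le_max_right n n1).trans h1
    linarith
  linarith

theorem sphComplete_aux (v : ℕ → U c E) (ρ : ℕ → ℝ)
    (hv : ∀ n m, n ≤ m → nrm c (v m - v n) ≤ ρ n) :
    ∃ x : U c E, ∀ n, nrm c (x - v n) ≤ ρ n := by
  obtain ⟨x, hx⟩ := exists_diag c (fun n => (v n : ℕ → E)) ρ (by
    intro m n hmn δ hδ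
    have h4 : nrm c (v n - v m) < ρ m + δ := by
      have := hv m n hmn
      linarith
    have h3 := (tendsto_nrm c (v n - v m)).eventually_lt_const h4
    filter_upwards [h3] with i hi
    exact hi.le)
  have hxU : x ∈ U c E := by
    have h0 : (fun i => x i - (v 0 : ℕ → E) i) ∈ U c E := ⟨_, hx 0 1 one_pos⟩
    have h1 := (U c E).add_mem h0 (v 0).2
    have h2 : (fun i => x i - (v 0 : ℕ → E) i) + (v 0 : ℕ → E) = x := by
      ext i; simp
    rwa [h2] at h1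
  refine ⟨⟨x, hxU⟩, ?_⟩
  intro n
  have key : ∀ ε : ℝ, 0 < ε → nrm c (⟨x, hxU⟩ - v n) ≤ ρ n + ε := by
    intro ε hε
    have h5 := tendsto_nrm c (⟨x, hxU⟩ - v n)
    refine le_of_tendsto h5 ?_
    filter_upwards [hx n ε hε] with i hi
    exact hi
  exact le_of_forall_pos_le_add key

theorem sphComplete_nrm : SphComplete (nrm c (E := E)) :=
  fun v ρ _ hv => sphComplete_aux c v ρ hv

end

section
variable (E : Type) [NontriviallyNormedField E] [CharZero E] [ProperSpace E]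

theorem mk_E : #E = 𝔠 := by
  apply le_antisymm
  · obtain ⟨s, hs⟩ := TopologicalSpace.exists_dense_seq E
    have hex : ∀ (x : E) (n : ℕ), ∃ k, dist x (s k) < 1 / ((n : ℝ) + 1) := by
      intro x n
      have := hs.exists_dist_lt x (ε := 1 / ((n : ℝ) + 1)) (by positivity)
      exact this
    choose g hg using hex
    have hinj : Function.Injective g := by
      intro x y hxy
      by_contra hne
      have hd : 0 < dist x y := dist_pos.2 hne
      obtain ⟨n, hn⟩ := exists_nat_one_div_lt (half_pos hd)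
      have h1 := hg x n
      have h2 := hg y n
      rw [← hxy] at h2
      have h3 := dist_triangle_right x y (s (g x n))
      linarith
    have h := Cardinal.mk_le_of_injective hinj
    have h2 : #(ℕ → ℕ) = 𝔠 := by simp
    rwa [h2] at h
  · exact continuum_le_cardinal_of_nontriviallyNormedField E

theorem mk_seq : #(ℕ → E) = 𝔠 := by
  have : #(ℕ → E) = #E ^ #ℕ := by simp
  rw [this, mk_E, mk_nat, continuum_power_aleph0]

omit [CharZero E] [ProperSpace E] in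
theorem exists_shell : ∃ K : ℝ, 1 ≤ K ∧ ∀ t : ℝ, 0 < t → ∃ g : E, g ≠ 0 ∧ ‖g‖ ≤ t ∧ t ≤ K * ‖g‖ := by
  obtain ⟨x, hx⟩ := NormedField.exists_one_lt_norm E
  refine ⟨‖x‖, hx.le, ?_⟩
  intro t ht
  obtain ⟨n, hn⟩ := exists_mem_Ico_zpow ht hx
  have hx0 : x ≠ 0 := norm_pos_iff.1 (by linarith)
  refine ⟨x ^ n, zpow_ne_zero _ hx0, ?_, ?_⟩
  · rw [norm_zpow]; exact hn.1
  · rw [norm_zpow, ← zpow_one_add₀ (norm_pos_iff.2 hx0).ne', add_comm]; exact hn.2.le

end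

section
variable (c : Sc) (E : Type) [NontriviallyNormedField E] [CharZero E] [ProperSpace E]

theorem exists_gauge (ρ : ℝ) (hρ : 0 < ρ) : ∃ g : ℕ → E, ∀ a : E, a ≠ 0 →
    Tendsto (fun i => ‖a * g i‖ ^ (c.e i)) (c.ω : Filter ℕ) (𝓝 ρ) := by
  obtain ⟨K, hK, hsh⟩ := exists_shell E
  have hK0 : 0 < K := by linarith
  choose g hg0 hg1 hg2 using fun i : ℕ => hsh (ρ ^ (c.e i)⁻¹) (Real.rpow_pos_of_pos hρ _)
  refine ⟨g, ?_⟩
  intro a ha
  have ha' : 0 < ‖a‖ := norm_pos_iff.2 ha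
  have h1 : Tendsto (fun i => (‖a‖ / K) ^ (c.e i) * ρ) (c.ω : Filter ℕ) (𝓝 (1 * ρ)) :=
    (c.const_rpow _ (by positivity)).mul_const ρ
  have h2 : Tendsto (fun i => ‖a‖ ^ (c.e i) * ρ) (c.ω : Filter ℕ) (𝓝 (1 * ρ)) :=
    (c.const_rpow _ ha').mul_const ρ
  rw [one_mul] at h1 h2
  refine tendsto_of_tendsto_of_tendsto_of_le_of_le' h1 h2 ?_ ?_
  · filter_upwards [c.pos] with i hi
    have hρi : ρ = (ρ ^ (c.e i)⁻¹) ^ (c.e i) := by
      rw [← Real.rpow_mul hρ.le, inv_mul_cancel₀ hi.ne', Real.rpow_one]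
    calc (‖a‖ / K) ^ (c.e i) * ρ = (‖a‖ / K * ρ ^ (c.e i)⁻¹) ^ (c.e i) := by
          rw [Real.mul_rpow (by positivity) (by positivity), ← hρi]
      _ ≤ ‖a * g i‖ ^ (c.e i) := by
          apply Real.rpow_le_rpow (by positivity) _ hi.le
          rw [norm_mul, div_mul_eq_mul_div, div_le_iff₀ hK0, mul_assoc]
          gcongr
          rw [mul_comm]; exact hg2 i
  · filter_upwards [c.pos] with i hi
    have hρi : ρ = (ρ ^ (c.e i)⁻¹) ^ (c.e i) := by
      rw [← Real.rpow_mul hρ.le, inv_mul_cancel₀ hi.ne', Real.rpow_one]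
    calc ‖a * g i‖ ^ (c.e i) ≤ (‖a‖ * ρ ^ (c.e i)⁻¹) ^ (c.e i) := by
          apply Real.rpow_le_rpow (norm_nonneg _) _ hi.le
          rw [norm_mul]
          gcongr
          exact hg1 i
      _ = ‖a‖ ^ (c.e i) * ρ := by
          rw [Real.mul_rpow (by positivity) (by positivity), ← hρi]

/-- open ball submodule -/
def Bo (ρ : ℝ) (hρ : 0 < ρ) : Submodule ℚ (U c E) where
  carrier := {x | nrm c x < ρ}
  zero_mem' := by
    show nrm c (0 : U c E) < ρ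
    rw [(isVal_nrm c).zero]; exact hρ
  add_mem' := by
    intro x y hx hy
    exact lt_of_le_of_lt ((isVal_nrm c).add_le x y) (max_lt hx hy)
  smul_mem' := by
    intro q x hx
    rcases eq_or_ne q 0 with rfl | hq
    · show nrm c ((0:ℚ) • x) < ρ
      rw [zero_smul, (isVal_nrm c).zero]; exact hρ
    · show nrm c (q • x) < ρ
      rw [(isVal_nrm c).smul q x hq]; exact hx

/-- closed ball submodule -/
def Bc (ρ : ℝ) (hρ : 0 < ρ) : Submodule ℚ (U c E) where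
  carrier := {x | nrm c x ≤ ρ}
  zero_mem' := by
    show nrm c (0 : U c E) ≤ ρ
    rw [(isVal_nrm c).zero]; exact hρ.le
  add_mem' := by
    intro x y hx hy
    exact ((isVal_nrm c).add_le x y).trans (max_le hx hy)
  smul_mem' := by
    intro q x hx
    rcases eq_or_ne q 0 with rfl | hq
    · show nrm c ((0:ℚ) • x) ≤ ρ
      rw [zero_smul, (isVal_nrm c).zero]; exact hρ.le
    · show nrm c (q • x) ≤ ρ
      rw [(isVal_nrm c).smul q x hq]; exact hx

omit c E [NontriviallyNormedField E] [CharZero E] [ProperSpace E] in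
theorem exists_equiv_real (P : Type) [AddCommGroup P] [Module ℚ P] (hcard : #P = 𝔠) :
    Nonempty (P ≃ₗ[ℚ] ℝ) := by
  have : Module.Free ℚ P := Module.Free.of_divisionRing ℚ P
  have hrk : Module.rank ℚ P = Module.rank ℚ ℝ := by
    rw [Real.rank_rat_real]
    rw [Module.Free.rank_eq_mk_of_infinite_lt ℚ P]
    · exact hcard
    · rw [lift_id, lift_id, hcard]
      simpa using aleph0_lt_continuum
  exact nonempty_linearEquiv_of_rank_eq hrk

theorem exists_res_one (ρ : ℝ) (hρ : 0 < ρ) : ∃ r : U c E →ₗ[ℚ] ℝ,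
    (∀ v, nrm c v ≤ ρ → (r v = 0 ↔ nrm c v < ρ)) ∧ ∀ a, ∃ v, nrm c v ≤ ρ ∧ r v = a := by
  set Q := U c E ⧸ Bo c E ρ hρ with hQ
  set P : Submodule ℚ (U c E ⧸ Bo c E ρ hρ) := (Bc c E ρ hρ).map (Bo c E ρ hρ).mkQ with hP
  obtain ⟨g, hg⟩ := exists_gauge c E ρ hρ
  have hgU : ∀ a : E, (fun i => a * g i) ∈ U c E := by
    intro a
    rcases eq_or_ne a 0 with rfl | ha
    · have : (fun i => (0:E) * g i) = 0 := by ext i; simp
      rw [this]; exact (U c E).zero_mem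
    · refine ⟨ρ + 1, ?_⟩
      filter_upwards [(hg a ha).eventually_lt_const (show ρ < ρ + 1 by linarith)] with i hi
      exact hi.le
  have hgn : ∀ a : E, a ≠ 0 → nrm c ⟨_, hgU a⟩ = ρ := fun a ha => nrm_eq c (hg a ha)
  have hgn' : ∀ a : E, nrm c ⟨_, hgU a⟩ ≤ ρ := by
    intro a
    rcases eq_or_ne a 0 with rfl | ha
    · have : (⟨_, hgU 0⟩ : U c E) = 0 := by ext i; simp
      rw [this, (isVal_nrm c).zero]; exact hρ.le
    · exact (hgn a ha).le
  have hcard : #P = 𝔠 := by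
    apply le_antisymm
    · calc #P ≤ #(U c E ⧸ Bo c E ρ hρ) := mk_subtype_le _
        _ ≤ #(U c E) := mk_le_of_surjective (Submodule.mkQ_surjective _)
        _ ≤ #(ℕ → E) := mk_subtype_le _
        _ = 𝔠 := mk_seq E
    · rw [← mk_E E]
      refine mk_le_of_injective (f := fun a : E =>
        (⟨(Bo c E ρ hρ).mkQ ⟨_, hgU a⟩, Submodule.mem_map_of_mem (hgn' a)⟩ : P)) ?_
      intro a b hab
      by_contra hne
      have h1 : (Bo c E ρ hρ).mkQ ⟨_, hgU a⟩ = (Bo c E ρ hρ).mkQ ⟨_, hgU b⟩ :=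
        congrArg Subtype.val hab
      rw [Submodule.mkQ_apply, Submodule.mkQ_apply, Submodule.Quotient.eq] at h1
      have h2 : (⟨_, hgU a⟩ - ⟨_, hgU b⟩ : U c E) = ⟨_, hgU (a - b)⟩ := by
        ext i; simp [sub_mul]
      rw [h2] at h1
      have h3 : nrm c ⟨_, hgU (a - b)⟩ < ρ := h1
      rw [hgn (a - b) (sub_ne_zero.2 hne)] at h3
      exact lt_irrefl _ h3
  obtain ⟨T⟩ := exists_equiv_real P hcard
  obtain ⟨R, hR⟩ := LinearMap.exists_extend (T : P →ₗ[ℚ] ℝ)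
  have hR' : ∀ v : U c E, ∀ hv : nrm c v ≤ ρ, R ((Bo c E ρ hρ).mkQ v) =
      T ⟨(Bo c E ρ hρ).mkQ v, Submodule.mem_map_of_mem hv⟩ := by
    intro v hv
    have := LinearMap.congr_fun hR ⟨(Bo c E ρ hρ).mkQ v, Submodule.mem_map_of_mem hv⟩
    exact this
  refine ⟨R.comp (Bo c E ρ hρ).mkQ, ?_, ?_⟩
  · intro v hv
    rw [LinearMap.comp_apply, hR' v hv, LinearEquiv.map_eq_zero_iff, Submodule.mk_eq_zero,
      Submodule.mkQ_apply, Submodule.Quotient.mk_eq_zero]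
    rfl
  · intro a
    obtain ⟨v, hv, hv2⟩ := (T.symm a).2
    refine ⟨v, hv, ?_⟩
    rw [LinearMap.comp_apply, hR' v hv]
    have : (⟨(Bo c E ρ hρ).mkQ v, Submodule.mem_map_of_mem hv⟩ : P) = T.symm a := Subtype.ext hv2
    rw [this, LinearEquiv.apply_symm_apply]

theorem exists_res : ∃ r : ℝ → U c E →ₗ[ℚ] ℝ, IsRes (nrm c) r := by
  classical
  choose r hr1 hr2 using fun p : {ρ : ℝ // 0 < ρ} => exists_res_one c E p.1 p.2
  refine ⟨fun ρ => if h : 0 < ρ then r ⟨ρ, h⟩ else 0, ?_, ?_⟩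
  · intro ρ hρ v hv
    simp only [hρ, dif_pos]
    exact hr1 ⟨ρ, hρ⟩ v hv
  · intro ρ hρ a
    simp only [hρ, dif_pos]
    exact hr2 ⟨ρ, hρ⟩ a

end

/-- the comparison of the two valued spaces -/
theorem exists_comparison (c : Sc) (E F : Type) [NontriviallyNormedField E] [CharZero E]
    [ProperSpace E] [NontriviallyNormedField F] [CharZero F] [ProperSpace F] :
    ∃ φ : U c E → U c F, (∀ v w, nrm c (φ v - φ w) = nrm c (v - w)) ∧
      ∀ w, ∃ v, nrm c (w - φ v) = 0 := by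
  obtain ⟨rE, hE⟩ := exists_res c E
  obtain ⟨rF, hF⟩ := exists_res c F
  obtain ⟨φ, h1, h2⟩ := exists_isometry (isVal_nrm c) (isVal_nrm c) hE hF (sphComplete_nrm c)
    (sphComplete_nrm c)
  refine ⟨φ, ?_, h2⟩
  intro v w
  rw [← map_sub, h1]

end Pool.Agent.V11110.AC
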