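import Mathlib
import Pool.Agent.V11110.AC2

namespace Pool.Agent.V11110.AC

open Filter Topology

/-- the horospherical distance profile -/
noncomputable def HD (n t s : ℝ) : ℝ :=
  2 * Real.log (max (max (Real.exp t) (Real.exp s)) n) - t - s

theorem HD_arg_pos (n t s : ℝ) : 0 < max (max (Real.exp t) (Real.exp s)) n :=
  lt_max_of_lt_left (lt_max_of_lt_left (Real.exp_pos t))

theorem HD_tendsto {α : Type*} {ω : Filter α} {n t s : α → ℝ} {n' t' s' : ℝ}
    (hn : Tendsto n ω (𝓝 n')) (ht : Tendsto t ω (𝓝 t')) (hs : Tendsto s ω (𝓝 s')) :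
    Tendsto (fun i => HD (n i) (t i) (s i)) ω (𝓝 (HD n' t' s')) := by
  unfold HD
  have h1 : Tendsto (fun i => max (max (Real.exp (t i)) (Real.exp (s i))) (n i)) ω
      (𝓝 (max (max (Real.exp t') (Real.exp s')) n')) :=
    (((Real.continuous_exp.tendsto _).comp ht).max
      ((Real.continuous_exp.tendsto _).comp hs)).max hn
  exact (((h1.log (HD_arg_pos _ _ _).ne').const_mul 2).sub ht).sub hs

theorem max_rpow {a b e : ℝ} (ha : 0 ≤ a) (hb : 0 ≤ b) (he : 0 ≤ e) :
    (max a b) ^ e = max (a ^ e) (b ^ e) := by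
  rcases le_total a b with h | h
  · rw [max_eq_right h, max_eq_right (Real.rpow_le_rpow ha h he)]
  · rw [max_eq_left h, max_eq_left (Real.rpow_le_rpow hb h he)]

theorem HD_scale {n t s e : ℝ} (hn : 0 ≤ n) (he : 0 < e) :
    HD n t s * e = HD (n ^ e) (t * e) (s * e) := by
  unfold HD
  have h1 : max (max (Real.exp (t * e)) (Real.exp (s * e))) (n ^ e) =
      (max (max (Real.exp t) (Real.exp s)) n) ^ e := by
    rw [max_rpow (le_max_of_le_left (Real.exp_pos _).le) hn he.le,
      max_rpow (Real.exp_pos _).le (Real.exp_pos _).le he.le, ← Real.exp_mul, ← Real.exp_mul]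
  rw [h1, Real.log_rpow (HD_arg_pos _ _ _)]
  ring

theorem HD_shift (n t s c : ℝ) : HD (n * Real.exp c) (t + c) (s + c) = HD n t s := by
  unfold HD
  have h1 : max (max (Real.exp (t + c)) (Real.exp (s + c))) (n * Real.exp c) =
      (max (max (Real.exp t) (Real.exp s)) n) * Real.exp c := by
    rw [Real.exp_add, Real.exp_add, ← max_mul_of_nonneg _ _ (Real.exp_pos c).le,
      ← max_mul_of_nonneg _ _ (Real.exp_pos c).le]
  rw [h1, Real.log_mul (HD_arg_pos _ _ _).ne' (Real.exp_pos c).ne', Real.log_exp]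
  ring

theorem HD_mono {n n' t s : ℝ} (h : n ≤ n') : HD n t s ≤ HD n' t s := by
  unfold HD
  have := Real.log_le_log (HD_arg_pos n t s) (max_le_max le_rfl h)
  linarith

theorem HD_upper {n n' t s K : ℝ} (hK : 1 ≤ K) (h : n' ≤ K * n) :
    HD n' t s ≤ HD n t s + 2 * Real.log K := by
  unfold HD
  have h1 : max (max (Real.exp t) (Real.exp s)) n' ≤
      K * (max (max (Real.exp t) (Real.exp s)) n) := by
    apply max_le
    · calc max (Real.exp t) (Real.exp s) ≤ max (max (Real.exp t) (Real.exp s)) n := le_max_left _ _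
        _ ≤ _ := le_mul_of_one_le_left (HD_arg_pos n t s).le hK
    · refine h.trans ?_
      gcongr
      exact le_max_right _ _
  have h2 := Real.log_le_log (HD_arg_pos n' t s) h1
  rw [Real.log_mul (by linarith) (HD_arg_pos n t s).ne'] at h2
  linarith

theorem HD_ge_sub (n t s : ℝ) : t - s ≤ HD n t s := by
  unfold HD
  have h1 : Real.log (Real.exp t) ≤ Real.log (max (max (Real.exp t) (Real.exp s)) n) :=
    Real.log_le_log (Real.exp_pos _) ((le_max_left _ _).trans (le_max_left _ _))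
  rw [Real.log_exp] at h1
  linarith

theorem HD_symm (n t s : ℝ) : HD n t s = HD n s t := by
  unfold HD
  rw [max_comm (Real.exp t) (Real.exp s)]
  ring

theorem HD_nonneg (n t s : ℝ) : 0 ≤ HD n t s := by
  have h1 := HD_ge_sub n t s
  have h2 := HD_ge_sub n s t
  rw [HD_symm n s t] at h2
  linarith

theorem HD_ge_log {n : ℝ} (hn : 0 < n) (t s : ℝ) : 2 * Real.log n - t - s ≤ HD n t s := by
  unfold HD
  have h1 : Real.log n ≤ Real.log (max (max (Real.exp t) (Real.exp s)) n) :=
    Real.log_le_log hn (le_max_right _ _)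
  linarith

/-- horospherical coordinates on a metric space -/
structure Model (S E : Type) [MetricSpace S] [NormedField E] where
  pt : E → ℝ → S
  surj : ∀ p, ∃ x t, pt x t = p
  c0 : ℝ
  c0_nonneg : 0 ≤ c0
  approx : ∀ x y t s, |dist (pt x t) (pt y s) - HD ‖x - y‖ t s| ≤ c0

theorem exists_coord {S E : Type} [MetricSpace S] [NontriviallyNormedField E] [CharZero E]
    (M : Model S E) (c : Sc) (p : ℕ → S) :
    ∃ Coord : (ℕ → S) → ℝ → U c E → Prop,
      (∀ z, (∃ C, ∀ᶠ i in (c.ω : Filter ℕ), dist (p i) (z i) * c.e i ≤ C) → ∃ τ u, Coord z τ u) ∧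
      (∀ τ u, ∃ z, (∃ C, ∀ᶠ i in (c.ω : Filter ℕ), dist (p i) (z i) * c.e i ≤ C) ∧ Coord z τ u) ∧
      (∀ z w τ σ u v, Coord z τ u → Coord w σ v →
        Tendsto (fun i => dist (z i) (w i) * c.e i) (c.ω : Filter ℕ)
          (𝓝 (HD (nrm c (u - v)) τ σ))) := by
  obtain ⟨K, hK, hsh⟩ := exists_shell E
  choose x0 t0 hp using fun i => M.surj (p i)
  choose s hs0 hs1 hs2 using fun i => hsh (Real.exp (t0 i)) (Real.exp_pos _)
  have hKlog : 0 ≤ Real.log K := Real.log_nonneg hK
  -- the basic comparison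
  have hcmp : ∀ i x y t t' (n : ℝ), ‖x - y‖ = ‖s i‖ * n →  0 ≤ n →
      |dist (M.pt x t) (M.pt y t') - HD n (t - t0 i) (t' - t0 i)| ≤ M.c0 + 2 * Real.log K := by
    intro i x y t t' n hn hn0
    have h1 := M.approx x y t t'
    have h2 : HD n (t - t0 i) (t' - t0 i) = HD (n * Real.exp (t0 i)) t t' := by
      rw [← HD_shift n (t - t0 i) (t' - t0 i) (t0 i), sub_add_cancel, sub_add_cancel]
    have h3 : HD ‖x - y‖ t t' ≤ HD (n * Real.exp (t0 i)) t t' := by
      apply HD_mono
      rw [hn, mul_comm]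
      exact mul_le_mul_of_nonneg_left (hs1 i) hn0
    have h4 : HD (n * Real.exp (t0 i)) t t' ≤ HD ‖x - y‖ t t' + 2 * Real.log K := by
      apply HD_upper hK
      rw [hn, ← mul_assoc, mul_comm]
      exact mul_le_mul_of_nonneg_right (hs2 i) hn0
    rw [h2]
    rw [abs_le] at h1 ⊢
    constructor <;> linarith [h1.1, h1.2]
  let Coord : (ℕ → S) → ℝ → U c E → Prop := fun z τ u =>
    ∃ (x : ℕ → E) (t : ℕ → ℝ), (∀ i, z i = M.pt (x i) (t i)) ∧
      (∀ i, x i - x0 i = s i * (u : ℕ → E) i) ∧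
      Tendsto (fun i => (t i - t0 i) * c.e i) (c.ω : Filter ℕ) (𝓝 τ)
  have h3 : ∀ z w τ σ u v, Coord z τ u → Coord w σ v →
        Tendsto (fun i => dist (z i) (w i) * c.e i) (c.ω : Filter ℕ)
          (𝓝 (HD (nrm c (u - v)) τ σ)) := by
    rintro z w τ σ u v ⟨x, t, hz, hx, ht⟩ ⟨y, t', hw, hy, ht'⟩
    have h1 : Tendsto (fun i => HD (‖((u - v : U c E) : ℕ → E) i‖ ^ (c.e i)) ((t i - t0 i) * c.e i)
        ((t' i - t0 i) * c.e i)) (c.ω : Filter ℕ) (𝓝 (HD (nrm c (u - v)) τ σ)) :=
      HD_tendsto (tendsto_nrm c (u - v)) ht ht'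
    have h2 : Tendsto (fun i => dist (z i) (w i) * c.e i -
        HD (‖((u - v : U c E) : ℕ → E) i‖ ^ (c.e i)) ((t i - t0 i) * c.e i)
        ((t' i - t0 i) * c.e i)) (c.ω : Filter ℕ) (𝓝 0) := by
      have hb : Tendsto (fun i => (M.c0 + 2 * Real.log K) * c.e i) (c.ω : Filter ℕ) (𝓝 0) := by
        have := c.lim.const_mul (M.c0 + 2 * Real.log K)
        simpa using this
      refine squeeze_zero_norm' ?_ hb
      filter_upwards [c.pos] with i hi
      rw [← HD_scale (norm_nonneg _) hi, ← sub_mul, Real.norm_eq_abs, abs_mul, abs_of_pos hi,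
        hz i, hw i]
      apply mul_le_mul_of_nonneg_right _ hi.le
      apply hcmp
      · rw [← norm_mul]
        congr 1
        have e1 := hx i
        have e2 := hy i
        have e3 : x i - y i = (x i - x0 i) - (y i - x0 i) := by ring
        rw [e3, e1, e2]
        simp [mul_sub]
      · exact norm_nonneg _
    have h4 := h2.add h1
    simpa using h4
  refine ⟨Coord, ?_, ?_, h3⟩
  · rintro z ⟨C, hC⟩
    choose x t hz using fun i => M.surj (z i)
    have hsu : ∀ i, x i - x0 i = s i * ((x i - x0 i) / s i) := by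
      intro i
      rw [mul_div_cancel₀ _ (hs0 i)]
    set D := M.c0 + 2 * Real.log K with hD
    have hD0 : 0 ≤ D := by have := M.c0_nonneg; positivity
    have hHD : ∀ᶠ i in (c.ω : Filter ℕ),
        HD ‖(x i - x0 i) / s i‖ 0 (t i - t0 i) * c.e i ≤ C + D := by
      have he1 : ∀ᶠ i in (c.ω : Filter ℕ), c.e i < 1 := c.lim.eventually_lt_const one_pos
      filter_upwards [hC, c.pos, he1] with i h1 h2 h3
      have h5 := hcmp i (x0 i) (x i) (t0 i) (t i) ‖(x i - x0 i) / s i‖ (by
        rw [← norm_mul, mul_div_cancel₀ _ (hs0 i), norm_sub_rev]) (norm_nonneg _)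
      rw [sub_self, hp i, hz i, abs_le] at h5
      have h6 : HD ‖(x i - x0 i) / s i‖ 0 (t i - t0 i) ≤ dist (p i) (z i) + D := by
        linarith [h5.1]
      calc HD ‖(x i - x0 i) / s i‖ 0 (t i - t0 i) * c.e i ≤ (dist (p i) (z i) + D) * c.e i :=
            mul_le_mul_of_nonneg_right h6 h2.le
        _ = dist (p i) (z i) * c.e i + D * c.e i := by ring
        _ ≤ C + D * 1 := by gcongr
        _ = C + D := by ring
    have habs : ∀ᶠ i in (c.ω : Filter ℕ), (t i - t0 i) * c.e i ∈ Set.Icc (-(C + D)) (C + D) := by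
      filter_upwards [hHD, c.pos] with i h1 h2
      have h3 := HD_ge_sub ‖(x i - x0 i) / s i‖ 0 (t i - t0 i)
      have h4 := HD_ge_sub ‖(x i - x0 i) / s i‖ (t i - t0 i) 0
      rw [HD_symm] at h4
      have h5 := mul_le_mul_of_nonneg_right h3 h2.le
      have h6 := mul_le_mul_of_nonneg_right h4 h2.le
      constructor
      · nlinarith
      · nlinarith
    obtain ⟨τ, hτ⟩ := exists_ulim c.ω _ _ _ habs
    have hu : (fun i => (x i - x0 i) / s i) ∈ U c E := by
      refine ⟨Real.exp (C + D), ?_⟩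
      filter_upwards [hHD, c.pos, habs] with i h1 h2 h3
      rcases (norm_nonneg ((x i - x0 i) / s i)).eq_or_lt with h0 | h0
      · rw [← h0, Real.zero_rpow h2.ne']
        exact (Real.exp_pos _).le
      · have h4 := HD_ge_log h0 0 (t i - t0 i)
        have h5 := mul_le_mul_of_nonneg_right h4 h2.le
        rw [Real.rpow_def_of_pos h0]
        apply Real.exp_le_exp.2
        have h6 := h3.2
        nlinarith
    exact ⟨τ, ⟨_, hu⟩, x, t, fun i => (hz i).symm, hsu, hτ⟩
  · intro τ u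
    have hc : Coord (fun i => M.pt (x0 i + s i * (u : ℕ → E) i) (t0 i + τ * (c.e i)⁻¹)) τ u := by
      refine ⟨fun i => x0 i + s i * (u : ℕ → E) i, fun i => t0 i + τ * (c.e i)⁻¹, fun i => rfl,
        fun i => by ring, ?_⟩
      apply tendsto_const_nhds.congr'
      filter_upwards [c.pos] with i hi
      have : c.e i ≠ 0 := hi.ne'
      field_simp
      ring
    have hc0 : Coord p 0 0 := by
      refine ⟨x0, t0, fun i => (hp i).symm, fun i => by simp, ?_⟩
      simp
    refine ⟨_, ?_, hc⟩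
    have h4 := h3 _ _ _ _ _ _ hc0 hc
    refine ⟨HD (nrm c (0 - u)) 0 τ + 1, ?_⟩
    filter_upwards [h4.eventually_lt_const (lt_add_one _)] with i hi
    exact hi.le

end Pool.Agent.V11110.AC
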