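import Mathlib
import Pool.Agent.V11110.AC3

namespace Pool.Agent.V11110.AC

open Filter Topology

theorem HD_zero (a b : ℝ) : HD 0 a b = |a - b| := by
  unfold HD
  rw [max_eq_left (le_max_of_le_left (Real.exp_pos a).le)]
  rcases le_total a b with h | h
  · rw [max_eq_right (Real.exp_le_exp.2 h), Real.log_exp, abs_of_nonpos (by linarith)]; ring
  · rw [max_eq_left (Real.exp_le_exp.2 h), Real.log_exp, abs_of_nonneg (by linarith)]; ring

/-! ### the hyperbolic plane -/

open UpperHalfPlane in
/-- point with horizontal coordinate `x` and logarithmic height `t` -/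
noncomputable def hpt (x t : ℝ) : ℍ := ⟨⟨x, Real.exp t⟩, Real.exp_pos t⟩

theorem cosh_dist_hpt (x y t s : ℝ) : Real.cosh (dist (hpt x t) (hpt y s)) =
    ((x - y) ^ 2 + Real.exp t ^ 2 + Real.exp s ^ 2) / (2 * Real.exp t * Real.exp s) :=
  UpperHalfPlane.cosh_dist' _ _

theorem hpt_surj (z : UpperHalfPlane) : ∃ x t, hpt x t = z := by
  refine ⟨z.re, Real.log z.im, ?_⟩
  apply UpperHalfPlane.ext
  apply Complex.ext
  · rfl
  · show Real.exp (Real.log z.im) = z.im
    exact Real.exp_log z.im_pos

theorem hpt_approx (x y t s : ℝ) : |dist (hpt x t) (hpt y s) - HD ‖x - y‖ t s| ≤ 2 := by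
  set D := dist (hpt x t) (hpt y s) with hD
  have hc := cosh_dist_hpt x y t s
  rw [← hD] at hc
  have hD0 : 0 ≤ D := dist_nonneg
  unfold HD
  have hMpos : 0 < max (max (Real.exp t) (Real.exp s)) ‖x - y‖ := HD_arg_pos _ _ _
  have h1 : Real.exp t ≤ max (max (Real.exp t) (Real.exp s)) ‖x - y‖ :=
    (le_max_left _ _).trans (le_max_left _ _)
  have h2 : Real.exp s ≤ max (max (Real.exp t) (Real.exp s)) ‖x - y‖ :=
    (le_max_right _ _).trans (le_max_left _ _)
  have h3 : ‖x - y‖ ≤ max (max (Real.exp t) (Real.exp s)) ‖x - y‖ := le_max_right _ _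
  have h5 : max (max (Real.exp t) (Real.exp s)) ‖x - y‖ ^ 2 ≤
      (x - y) ^ 2 + Real.exp t ^ 2 + Real.exp s ^ 2 := by
    have hsq : ‖x - y‖ ^ 2 = (x - y) ^ 2 := by rw [Real.norm_eq_abs, sq_abs]
    rcases max_choice (max (Real.exp t) (Real.exp s)) ‖x - y‖ with h | h
    · rw [h]
      rcases max_choice (Real.exp t) (Real.exp s) with h' | h'
      · rw [h']; nlinarith [sq_nonneg (x - y), sq_nonneg (Real.exp s)]
      · rw [h']; nlinarith [sq_nonneg (x - y), sq_nonneg (Real.exp t)]
    · rw [h, hsq]; nlinarith [sq_nonneg (Real.exp t), sq_nonneg (Real.exp s)]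
  set M := max (max (Real.exp t) (Real.exp s)) ‖x - y‖ with hM
  have het := Real.exp_pos t
  have hes := Real.exp_pos s
  have h4 : (x - y) ^ 2 ≤ M ^ 2 := by
    have hsq : ‖x - y‖ ^ 2 = (x - y) ^ 2 := by rw [Real.norm_eq_abs, sq_abs]
    rw [← hsq]
    exact pow_le_pow_left₀ (norm_nonneg _) h3 2
  have h6 : (x - y) ^ 2 + Real.exp t ^ 2 + Real.exp s ^ 2 ≤ 3 * M ^ 2 := by
    have := pow_le_pow_left₀ het.le h1 2
    have := pow_le_pow_left₀ hes.le h2 2
    linarith
  have hce := Real.cosh_eq D
  have hee : Real.exp (-D) ≤ Real.exp D := Real.exp_le_exp.2 (by linarith)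
  have hneg := Real.exp_pos (-D)
  have hprod : 0 < Real.exp t * Real.exp s := mul_pos het hes
  have hup : Real.exp D ≤ 3 * M ^ 2 / (Real.exp t * Real.exp s) := by
    have e1 : Real.exp D ≤ 2 * Real.cosh D := by rw [hce]; linarith
    rw [hc] at e1
    refine e1.trans ?_
    have e2 : 2 * (((x - y) ^ 2 + Real.exp t ^ 2 + Real.exp s ^ 2) /
        (2 * Real.exp t * Real.exp s)) =
        ((x - y) ^ 2 + Real.exp t ^ 2 + Real.exp s ^ 2) / (Real.exp t * Real.exp s) := by
      field_simp
    rw [e2]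
    gcongr
  have hlo : M ^ 2 / (2 * (Real.exp t * Real.exp s)) ≤ Real.exp D := by
    have e1 : Real.cosh D ≤ Real.exp D := by rw [hce]; linarith
    rw [hc] at e1
    refine le_trans ?_ e1
    rw [mul_assoc]
    gcongr
  have hM2 : 0 < M ^ 2 := by positivity
  have l1 : D ≤ Real.log (3 * M ^ 2 / (Real.exp t * Real.exp s)) := by
    rw [Real.le_log_iff_exp_le (by positivity)]; exact hup
  have l2 : Real.log (M ^ 2 / (2 * (Real.exp t * Real.exp s))) ≤ D := by
    rw [Real.log_le_iff_le_exp (by positivity)]; exact hlo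
  rw [Real.log_div (by positivity) hprod.ne', Real.log_mul (by norm_num) hM2.ne', Real.log_pow,
    Real.log_mul het.ne' hes.ne', Real.log_exp, Real.log_exp] at l1
  rw [Real.log_div hM2.ne' (by positivity), Real.log_mul (by norm_num) hprod.ne', Real.log_pow,
    Real.log_mul het.ne' hes.ne', Real.log_exp, Real.log_exp] at l2
  have l3 : Real.log 3 ≤ 2 := by
    have := Real.log_le_sub_one_of_pos (show (0:ℝ) < 3 by norm_num)
    linarith
  have l4 : Real.log 2 ≤ 2 := by
    have := Real.log_le_sub_one_of_pos (show (0:ℝ) < 2 by norm_num)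
    linarith
  push_cast at l1 l2
  rw [abs_le]
  constructor <;> linarith

/-- horospherical model of the hyperbolic plane -/
noncomputable def hModel : Model UpperHalfPlane ℝ where
  pt := hpt
  surj := hpt_surj
  c0 := 2
  c0_nonneg := by norm_num
  approx := hpt_approx

theorem geo_of_line {X : Type} [MetricSpace X] (Γ : ℝ → X)
    (h : ∀ a b, dist (Γ a) (Γ b) = |a - b|) (u v : ℝ) :
    ∃ (L : ℝ) (γ : ℝ → X), 0 ≤ L ∧ γ 0 = Γ u ∧ γ L = Γ v ∧
      ∀ a ∈ Set.Icc 0 L, ∀ b ∈ Set.Icc 0 L, dist (γ a) (γ b) = |a - b| := by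
  rcases le_total u v with huv | huv
  · refine ⟨v - u, fun a => Γ (u + a), by linarith, by simp, by simp, ?_⟩
    intro a _ b _
    rw [h]; congr 1; ring
  · refine ⟨u - v, fun a => Γ (u - a), by linarith, by simp, by simp, ?_⟩
    intro a _ b _
    rw [h, abs_sub_comm]; congr 1; ring

open UpperHalfPlane in
noncomputable def semi (c ρ : ℝ) (hρ : 0 < ρ) (u : ℝ) : ℍ :=
  ⟨⟨c + ρ * (Real.sinh u / Real.cosh u), ρ / Real.cosh u⟩, div_pos hρ (Real.cosh_pos u)⟩

theorem dist_semi (c ρ : ℝ) (hρ : 0 < ρ) (u v : ℝ) :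
    dist (semi c ρ hρ u) (semi c ρ hρ v) = |u - v| := by
  apply Real.cosh_strictMonoOn.injOn (Set.mem_Ici.2 dist_nonneg) (Set.mem_Ici.2 (abs_nonneg _))
  rw [Real.cosh_abs, UpperHalfPlane.cosh_dist', Real.cosh_sub]
  show ((c + ρ * (Real.sinh u / Real.cosh u) - (c + ρ * (Real.sinh v / Real.cosh v))) ^ 2 +
    (ρ / Real.cosh u) ^ 2 + (ρ / Real.cosh v) ^ 2) / (2 * (ρ / Real.cosh u) * (ρ / Real.cosh v)) =
    Real.cosh u * Real.cosh v - Real.sinh u * Real.sinh v
  have h1 := Real.cosh_pos u
  have h2 := Real.cosh_pos v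
  have h3 := Real.cosh_sq u
  have h4 := Real.cosh_sq v
  rw [div_eq_iff (by positivity)]
  field_simp
  generalize Real.cosh u = a at *
  generalize Real.cosh v = b at *
  generalize Real.sinh u = p at *
  generalize Real.sinh v = q at *
  linear_combination (-(ρ ^ 2 * b ^ 2)) * h3 + (-(ρ ^ 2 * a ^ 2)) * h4

theorem geo_H (z w : UpperHalfPlane) :
    ∃ (L : ℝ) (γ : ℝ → UpperHalfPlane), 0 ≤ L ∧ γ 0 = z ∧ γ L = w ∧
      ∀ a ∈ Set.Icc 0 L, ∀ b ∈ Set.Icc 0 L, dist (γ a) (γ b) = |a - b| := by
  by_cases hre : z.re = w.re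
  · obtain ⟨L, γ, h1, h2, h3, h4⟩ := geo_of_line (fun t => hpt z.re t) (by
      intro a b
      rw [UpperHalfPlane.dist_of_re_eq
        (show (hpt z.re a).re = (hpt z.re b).re from rfl)]
      show dist (Real.log (Real.exp a)) (Real.log (Real.exp b)) = _
      rw [Real.log_exp, Real.log_exp, Real.dist_eq]) (Real.log z.im) (Real.log w.im)
    refine ⟨L, γ, h1, ?_, ?_, h4⟩
    · rw [h2]
      apply UpperHalfPlane.ext
      apply Complex.ext
      · rfl
      · show Real.exp (Real.log z.im) = z.im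
        exact Real.exp_log z.im_pos
    · rw [h3]
      apply UpperHalfPlane.ext
      apply Complex.ext
      · exact hre
      · show Real.exp (Real.log w.im) = w.im
        exact Real.exp_log w.im_pos
  · set c := ((z.re ^ 2 + z.im ^ 2) - (w.re ^ 2 + w.im ^ 2)) / (2 * (z.re - w.re)) with hc
    set ρ := Real.sqrt ((z.re - c) ^ 2 + z.im ^ 2) with hρ
    have hz := z.im_pos
    have hw := w.im_pos
    have hρpos : 0 < ρ := Real.sqrt_pos.2 (by positivity)
    have hρ2 : ρ ^ 2 = (z.re - c) ^ 2 + z.im ^ 2 := Real.sq_sqrt (by positivity)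
    have hρ3 : ρ ^ 2 = (w.re - c) ^ 2 + w.im ^ 2 := by
      rw [hρ2, hc]
      have : z.re - w.re ≠ 0 := sub_ne_zero.2 hre
      field_simp
      ring
    have key : ∀ q : UpperHalfPlane, ρ ^ 2 = (q.re - c) ^ 2 + q.im ^ 2 →
        semi c ρ hρpos (Real.arsinh ((q.re - c) / q.im)) = q := by
      intro q hq
      have hq0 := q.im_pos
      have hcosh : Real.cosh (Real.arsinh ((q.re - c) / q.im)) = ρ / q.im := by
        rw [Real.cosh_arsinh]
        have : 1 + ((q.re - c) / q.im) ^ 2 = (ρ / q.im) ^ 2 := by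
          rw [div_pow, div_pow, hq]
          field_simp
          ring
        rw [this, Real.sqrt_sq (by positivity)]
      apply UpperHalfPlane.ext
      apply Complex.ext
      · show c + ρ * (Real.sinh (Real.arsinh ((q.re - c) / q.im)) /
          Real.cosh (Real.arsinh ((q.re - c) / q.im))) = q.re
        rw [Real.sinh_arsinh, hcosh]
        field_simp
        ring
      · show ρ / Real.cosh (Real.arsinh ((q.re - c) / q.im)) = q.im
        rw [hcosh]
        field_simp
    obtain ⟨L, γ, h1, h2, h3, h4⟩ := geo_of_line (semi c ρ hρpos) (dist_semi c ρ hρpos)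
      (Real.arsinh ((z.re - c) / z.im)) (Real.arsinh ((w.re - c) / w.im))
    refine ⟨L, γ, h1, ?_, ?_, h4⟩
    · rw [h2]; exact key z hρ2
    · rw [h3]; exact key w hρ3

/-! ### the tree -/

theorem logM_ultra {n12 n13 n32 t1 t2 t3 : ℝ} (h : n12 ≤ max n13 n32) :
    Real.log (max (max (Real.exp t1) (Real.exp t2)) n12) ≤
      max (Real.log (max (max (Real.exp t1) (Real.exp t3)) n13))
        (Real.log (max (max (Real.exp t3) (Real.exp t2)) n32)) := by
  have h1 : max (max (Real.exp t1) (Real.exp t2)) n12 ≤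
      max (max (max (Real.exp t1) (Real.exp t3)) n13) (max (max (Real.exp t3) (Real.exp t2)) n32) := by
    apply max_le
    · apply max_le
      · exact le_max_of_le_left (le_max_of_le_left (le_max_left _ _))
      · exact le_max_of_le_right (le_max_of_le_left (le_max_right _ _))
    · exact h.trans (max_le_max (le_max_right _ _) (le_max_right _ _))
  rcases le_max_iff.1 h1 with h2 | h2
  · exact le_max_of_le_left (Real.log_le_log (HD_arg_pos _ _ _) h2)
  · exact le_max_of_le_right (Real.log_le_log (HD_arg_pos _ _ _) h2)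

theorem logM_ge_left (n t s : ℝ) :
    t ≤ Real.log (max (max (Real.exp t) (Real.exp s)) n) := by
  have h1 : Real.log (Real.exp t) ≤ Real.log (max (max (Real.exp t) (Real.exp s)) n) :=
    Real.log_le_log (Real.exp_pos _) ((le_max_left _ _).trans (le_max_left _ _))
  rwa [Real.log_exp] at h1

theorem logM_ge_right (n t s : ℝ) :
    s ≤ Real.log (max (max (Real.exp t) (Real.exp s)) n) := by
  have h1 : Real.log (Real.exp s) ≤ Real.log (max (max (Real.exp t) (Real.exp s)) n) :=
    Real.log_le_log (Real.exp_pos _) ((le_max_right _ _).trans (le_max_left _ _))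
  rwa [Real.log_exp] at h1

theorem HD_triangle {n13 n12 n23 t1 t2 t3 : ℝ} (h : n13 ≤ max n12 n23) :
    HD n13 t1 t3 ≤ HD n12 t1 t2 + HD n23 t2 t3 := by
  have h1 := logM_ultra (t1 := t1) (t2 := t3) (t3 := t2) h
  have h2 := logM_ge_right n12 t1 t2
  have h3 := logM_ge_left n23 t2 t3
  unfold HD
  rcases le_max_iff.1 h1 with h4 | h4 <;> linarith

/-- horocyclic coordinates over an ultrametric field -/
structure TP (E : Type) where
  x : E
  t : ℝ

noncomputable instance TP.inst (E : Type) [NormedField E] [IsUltrametricDist E] :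
    PseudoMetricSpace (TP E) where
  dist p q := HD ‖p.x - q.x‖ p.t q.t
  dist_self p := by
    show HD ‖p.x - p.x‖ p.t p.t = 0
    rw [sub_self, norm_zero, HD_zero]; simp
  dist_comm p q := by
    show HD ‖p.x - q.x‖ p.t q.t = HD ‖q.x - p.x‖ q.t p.t
    rw [HD_symm, norm_sub_rev]
  dist_triangle p q r := by
    apply HD_triangle
    have : p.x - r.x = (p.x - q.x) + (q.x - r.x) := by abel
    rw [this]
    exact IsUltrametricDist.norm_add_le_max _ _

theorem TP.dist_def {E : Type} [NormedField E] [IsUltrametricDist E] (p q : TP E) :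
    dist p q = HD ‖p.x - q.x‖ p.t q.t := rfl

section
variable {E : Type} [NormedField E] [IsUltrametricDist E]

theorem TP.four (p q r s : TP E) :
    dist p q + dist r s ≤ max (dist p r + dist q s) (dist p s + dist q r) := by
  have hu : ∀ a b c : TP E, ‖a.x - b.x‖ ≤ max ‖a.x - c.x‖ ‖c.x - b.x‖ := by
    intro a b c
    have : a.x - b.x = (a.x - c.x) + (c.x - b.x) := by abel
    rw [this]
    exact IsUltrametricDist.norm_add_le_max _ _
  have hd : ∀ a b : TP E, dist a b =
      2 * Real.log (max (max (Real.exp a.t) (Real.exp b.t)) ‖a.x - b.x‖) - a.t - b.t :=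
    fun a b => rfl
  have hm : ∀ a b c : TP E, Real.log (max (max (Real.exp a.t) (Real.exp b.t)) ‖a.x - b.x‖) ≤
      max (Real.log (max (max (Real.exp a.t) (Real.exp c.t)) ‖a.x - c.x‖))
        (Real.log (max (max (Real.exp c.t) (Real.exp b.t)) ‖c.x - b.x‖)) :=
    fun a b c => logM_ultra (hu a b c)
  have hs : ∀ a b : TP E, Real.log (max (max (Real.exp a.t) (Real.exp b.t)) ‖a.x - b.x‖) =
      Real.log (max (max (Real.exp b.t) (Real.exp a.t)) ‖b.x - a.x‖) := by
    intro a b
    rw [max_comm (Real.exp a.t), norm_sub_rev]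
  rw [hd p q, hd r s, hd p r, hd q s, hd p s, hd q r]
  have k1 := hm p q r
  have k2 := hm p q s
  have k3 := hm r s p
  have k4 := hm r s q
  rw [hs r q] at k1
  rw [hs s q] at k2
  rw [hs r p] at k3
  rw [hs r q] at k4
  generalize Real.log (max (max (Real.exp p.t) (Real.exp q.t)) ‖p.x - q.x‖) = P at *
  generalize Real.log (max (max (Real.exp r.t) (Real.exp s.t)) ‖r.x - s.x‖) = Q at *
  generalize Real.log (max (max (Real.exp p.t) (Real.exp r.t)) ‖p.x - r.x‖) = A at *
  generalize Real.log (max (max (Real.exp q.t) (Real.exp s.t)) ‖q.x - s.x‖) = B at *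
  generalize Real.log (max (max (Real.exp p.t) (Real.exp s.t)) ‖p.x - s.x‖) = C at *
  generalize Real.log (max (max (Real.exp q.t) (Real.exp r.t)) ‖q.x - r.x‖) = D at *
  by_contra hcon
  rw [not_le, max_lt_iff] at hcon
  obtain ⟨c1, c2⟩ := hcon
  rcases le_max_iff.1 k1 with a1 | a1 <;> rcases le_max_iff.1 k2 with a2 | a2 <;>
    rcases le_max_iff.1 k3 with a3 | a3 <;> rcases le_max_iff.1 k4 with a4 | a4 <;> linarith

/-- the tree -/
abbrev Tr (E : Type) [NormedField E] [IsUltrametricDist E] : Type := SeparationQuotient (TP E)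

theorem Tr.four (p q r s : Tr E) :
    dist p q + dist r s ≤ max (dist p r + dist q s) (dist p s + dist q r) := by
  obtain ⟨p, rfl⟩ := SeparationQuotient.surjective_mk p
  obtain ⟨q, rfl⟩ := SeparationQuotient.surjective_mk q
  obtain ⟨r, rfl⟩ := SeparationQuotient.surjective_mk r
  obtain ⟨s, rfl⟩ := SeparationQuotient.surjective_mk s
  exact TP.four p q r s

noncomputable def tpt (x : E) (t : ℝ) : Tr E := SeparationQuotient.mk ⟨x, t⟩

theorem dist_tpt (x y : E) (t s : ℝ) : dist (tpt x t) (tpt y s) = HD ‖x - y‖ t s := rfl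

theorem tpt_surj (p : Tr E) : ∃ x t, tpt x t = p := by
  obtain ⟨p, rfl⟩ := SeparationQuotient.surjective_mk p
  exact ⟨p.x, p.t, rfl⟩

/-- horospherical model of the tree -/
noncomputable def tModel : Model (Tr E) E where
  pt := tpt
  surj := tpt_surj
  c0 := 0
  c0_nonneg := le_rfl
  approx x y t s := by rw [dist_tpt]; simp

theorem continuous_tpt : Continuous (fun q : E × ℝ => (tpt q.1 q.2 : Tr E)) := by
  rw [continuous_iff_continuousAt]
  intro q
  rw [ContinuousAt, tendsto_iff_dist_tendsto_zero]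
  have h1 : Tendsto (fun q' : E × ℝ => HD ‖q'.1 - q.1‖ q'.2 q.2) (𝓝 q)
      (𝓝 (HD ‖q.1 - q.1‖ q.2 q.2)) := by
    apply HD_tendsto
    · exact ((continuous_fst.sub continuous_const).norm).tendsto q
    · exact continuous_snd.tendsto q
    · exact tendsto_const_nhds
  rw [sub_self, norm_zero, HD_zero, sub_self, abs_zero] at h1
  exact h1

theorem properSpace_Tr [ProperSpace E] : ProperSpace (Tr E) := by
  refine ⟨?_⟩
  intro p r
  obtain ⟨x0, t0, rfl⟩ := tpt_surj p
  have hK : IsCompact ((Metric.closedBall x0 (Real.exp (t0 + r))) ×ˢ (Set.Icc (t0 - r) (t0 + r))) :=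
    (isCompact_closedBall _ _).prod isCompact_Icc
  have hK2 := hK.image (continuous_tpt (E := E))
  refine hK2.of_isClosed_subset Metric.isClosed_closedBall ?_
  intro q hq
  obtain ⟨x, t, rfl⟩ := tpt_surj q
  rw [Metric.mem_closedBall, dist_tpt] at hq
  have h1 := HD_ge_sub ‖x - x0‖ t t0
  have h2 := HD_ge_sub ‖x - x0‖ t0 t
  rw [HD_symm] at h2
  have ht : t ∈ Set.Icc (t0 - r) (t0 + r) := ⟨by linarith, by linarith⟩
  refine ⟨(x, t), ⟨?_, ht⟩, rfl⟩
  rw [Metric.mem_closedBall, dist_eq_norm]
  rcases (norm_nonneg (x - x0)).eq_or_lt with h0 | h0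
  · rw [← h0]; positivity
  · have h3 := HD_ge_log h0 t t0
    rw [← Real.log_le_iff_le_exp h0]
    linarith [ht.2]

theorem tpt_eq {x y : E} {t s : ℝ} (h : HD ‖x - y‖ t s = 0) : tpt x t = tpt y s :=
  dist_eq_zero.1 (by rw [dist_tpt]; exact h)

theorem geo_Tr (p q : Tr E) :
    ∃ (L : ℝ) (γ : ℝ → Tr E), 0 ≤ L ∧ γ 0 = p ∧ γ L = q ∧
      ∀ a ∈ Set.Icc 0 L, ∀ b ∈ Set.Icc 0 L, dist (γ a) (γ b) = |a - b| := by
  obtain ⟨x, t, rfl⟩ := tpt_surj p
  obtain ⟨y, s, rfl⟩ := tpt_surj q
  set n := ‖x - y‖ with hn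
  set m := Real.log (max (max (Real.exp t) (Real.exp s)) n) with hm
  have hexpm : Real.exp m = max (max (Real.exp t) (Real.exp s)) n :=
    Real.exp_log (HD_arg_pos _ _ _)
  have htm : t ≤ m := logM_ge_left _ _ _
  have hsm : s ≤ m := logM_ge_right _ _ _
  have hnm : n ≤ Real.exp m := by rw [hexpm]; exact le_max_right _ _
  -- the apex formula
  have hap : ∀ a b, a ≤ m → b ≤ m → (n = Real.exp m ∨ a = m ∨ b = m) →
      HD n a b = 2 * m - a - b := by
    intro a b ha hb hor
    unfold HD
    have : max (max (Real.exp a) (Real.exp b)) n = Real.exp m := by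
      apply le_antisymm
      · exact max_le (max_le (Real.exp_le_exp.2 ha) (Real.exp_le_exp.2 hb)) hnm
      · rcases hor with h | h | h
        · rw [← h]; exact le_max_right _ _
        · rw [h]; exact (le_max_left _ _).trans (le_max_left _ _)
        · rw [h]; exact (le_max_right _ _).trans (le_max_left _ _)
    rw [this, Real.log_exp]
  have hcase : n = Real.exp m ∨ t = m ∨ s = m := by
    rcases max_choice (max (Real.exp t) (Real.exp s)) n with h | h
    · rcases max_choice (Real.exp t) (Real.exp s) with h' | h'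
      · right; left
        apply Real.exp_injective
        rw [hexpm, h, h']
      · right; right
        apply Real.exp_injective
        rw [hexpm, h, h']
    · left
      rw [hexpm, h]
  refine ⟨2 * m - t - s, fun a => if a ≤ m - t then tpt x (t + a) else tpt y (2 * m - t - a),
    by linarith, ?_, ?_, ?_⟩
  · have : (0:ℝ) ≤ m - t := by linarith
    simp [this]
  · show (if 2 * m - t - s ≤ m - t then tpt x (t + (2 * m - t - s))
      else tpt y (2 * m - t - (2 * m - t - s))) = tpt y s
    split_ifs with h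
    · have hs : s = m := by linarith
      apply tpt_eq
      rw [← hn, hap _ _ (by linarith) hsm (Or.inr (Or.inr hs))]
      linarith
    · congr 1; ring
  · -- it is enough to treat a ≤ b
    have main : ∀ a b, 0 ≤ a → a ≤ b → b ≤ 2 * m - t - s →
        dist (if a ≤ m - t then tpt x (t + a) else tpt y (2 * m - t - a) : Tr E)
          (if b ≤ m - t then tpt x (t + b) else tpt y (2 * m - t - b)) = b - a := by
      intro a b ha hab hb
      split_ifs with h1 h2 h2
      · rw [dist_tpt, sub_self, norm_zero, HD_zero, abs_of_nonpos (by linarith)]; ring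
      · rw [dist_tpt, ← hn, hap _ _ (by linarith) (by linarith)]
        · ring
        · rcases hcase with h | h | h
          · exact Or.inl h
          · right; left; linarith
          · exfalso; linarith
      · exfalso; linarith
      · rw [dist_tpt, sub_self, norm_zero, HD_zero, abs_of_nonneg (by linarith)]; ring
    intro a ha b hb
    rcases le_total a b with h | h
    · rw [abs_of_nonpos (by linarith)]
      exact (main a b ha.1 h hb.2).trans (by ring)
    · rw [abs_of_nonneg (by linarith), dist_comm]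
      exact main b a hb.1 h ha.2

end

end Pool.Agent.V11110.AC
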