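import Mathlib

namespace Pool.Agent.V11110.AC

open Filter Topology

section
variable {X : Type} [MetricSpace X]

noncomputable def gp (w x y : X) : ℝ := (dist w x + dist w y - dist x y) / 2

theorem gp_comm (w x y : X) : gp w x y = gp w y x := by
  unfold gp; rw [dist_comm x y]; ring

theorem gp_le_left (w x y : X) : gp w x y ≤ dist w x := by
  unfold gp
  have := dist_triangle w x y
  linarith

theorem gp_nonneg (w x y : X) : 0 ≤ gp w x y := by
  unfold gp
  have := dist_triangle_left x y w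
  linarith

theorem gp_self (w x : X) : gp w x x = dist w x := by
  unfold gp; rw [dist_self]; ring

theorem gp_base (w x : X) : gp w w x = 0 := by
  unfold gp; rw [dist_self]; ring

theorem gp_min (h4 : ∀ p q r s : X, dist p q + dist r s ≤
    max (dist p r + dist q s) (dist p s + dist q r)) (w x y z : X) :
    min (gp w x y) (gp w y z) ≤ gp w x z := by
  have h := h4 x z w y
  unfold gp
  rw [dist_comm x w, dist_comm z w, dist_comm z y] at h
  rcases le_max_iff.1 h with h1 | h1
  · exact (min_le_right _ _).trans (by linarith)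
  · exact (min_le_left _ _).trans (by linarith)

theorem dist_path (p : ℕ → X) (J : ℝ) (hJ : ∀ n, dist (p n) (p (n + 1)) ≤ J) (m k : ℕ) :
    dist (p m) (p (m + k)) ≤ J * k := by
  induction k with
  | zero => simp
  | succ k ih =>
    calc dist (p m) (p (m + (k + 1))) ≤ dist (p m) (p (m + k)) + dist (p (m + k)) (p (m + k + 1)) :=
          dist_triangle _ _ _
      _ ≤ J * k + J := add_le_add ih (hJ _)
      _ = J * ((k + 1 : ℕ) : ℝ) := by push_cast; ring

theorem exists_switch (P : ℕ → Prop) (k : ℕ) (h0 : P 0) (hk : ¬ P k) :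
    ∃ i, i < k ∧ P i ∧ ¬ P (i + 1) := by
  classical
  have hex : ∃ n, ¬ P n := ⟨k, hk⟩
  have h1 := Nat.find_spec hex
  have h2 : Nat.find hex ≠ 0 := by
    intro h
    rw [h] at h1
    exact h1 h0
  obtain ⟨j, hj⟩ := Nat.exists_eq_succ_of_ne_zero h2
  refine ⟨j, ?_, ?_, ?_⟩
  · have := Nat.find_min' hex hk
    omega
  · by_contra hc
    have := Nat.find_min' hex hc
    omega
  · rw [← Nat.succ_eq_add_one, ← hj]; exact h1

/-- a coarse path in a tree-like space passes close to the branch point -/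
theorem product_bound (h4 : ∀ p q r s : X, dist p q + dist r s ≤
    max (dist p r + dist q s) (dist p s + dist q r)) (p : ℕ → X) (J : ℝ)
    (hJ : ∀ n, dist (p n) (p (n + 1)) ≤ J) (K : ℕ)
    (hK : ∀ m k, dist (p m) (p (m + k)) ≤ 2 * J → k ≤ K) (k l : ℕ) :
    gp (p k) (p 0) (p (k + l)) ≤ J * K := by
  have hJ0 : 0 ≤ J := dist_nonneg.trans (hJ 0)
  set w := p k with hw
  set L := gp w (p 0) (p (k + l)) with hL
  rcases (gp_nonneg w (p 0) (p (k + l))).eq_or_lt with h0 | h0
  · rw [hL, ← h0]; positivity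
  have hstep : ∀ x y z : X, L ≤ gp w x z → gp w y z < L → dist x y ≤ J → dist w x ≤ L + J := by
    intro x y z h1 h2 h3
    have h5 := gp_min h4 w y x z
    have h6 : gp w y x < L := by
      rcases min_le_iff.1 h5 with h | h
      · exact lt_of_le_of_lt h h2
      · exact absurd (h1.trans h) (not_le.2 h2)
    unfold gp at h6
    rw [dist_comm y x] at h6
    have h7 := dist_triangle w y x
    rw [dist_comm y x] at h7
    linarith
  obtain ⟨i, hik, hi1, hi2⟩ := exists_switch (fun i => L ≤ gp w (p i) (p 0)) k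
    (by
      show L ≤ gp w (p 0) (p 0)
      rw [gp_self]; exact gp_le_left _ _ _)
    (by
      show ¬ (L ≤ gp w (p k) (p 0))
      rw [← hw, gp_base]; exact not_le.2 h0)
  obtain ⟨j, hjl, hj1, hj2⟩ := exists_switch (fun j => L ≤ gp w (p (k + l - j)) (p (k + l))) l
    (by
      show L ≤ gp w (p (k + l - 0)) (p (k + l))
      rw [Nat.sub_zero, gp_self, hL, gp_comm]; exact gp_le_left _ _ _)
    (by
      show ¬ (L ≤ gp w (p (k + l - l)) (p (k + l)))
      rw [Nat.add_sub_cancel, ← hw, gp_base]; exact not_le.2 h0)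
  have d1 : dist w (p i) ≤ L + J := hstep _ _ _ hi1 (not_le.1 hi2) (hJ i)
  have d2 : dist w (p (k + l - j)) ≤ L + J := by
    refine hstep _ _ _ hj1 (not_le.1 hj2) ?_
    have : k + l - j = (k + l - (j + 1)) + 1 := by omega
    rw [this, dist_comm]
    exact hJ _
  have g1 : L ≤ gp w (p i) (p (k + l - j)) := by
    have e1 := gp_min h4 w (p i) (p 0) (p (k + l - j))
    have e2 := gp_min h4 w (p 0) (p (k + l)) (p (k + l - j))
    rw [gp_comm w (p (k + l))] at e2
    refine le_trans (le_min hi1 (le_trans (le_min le_rfl hj1) e2)) e1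
  have d3 : dist (p i) (p (k + l - j)) ≤ 2 * J := by
    unfold gp at g1
    linarith
  have hidx : k + l - j = i + (k + l - j - i) := by omega
  rw [hidx] at d3
  have d4 := hK _ _ d3
  have d5 : L ≤ dist w (p i) := hi1.trans (gp_le_left _ _ _)
  have d6 := dist_path p J hJ i (k - i)
  have e1 : i + (k - i) = k := by omega
  rw [e1, dist_comm, ← hw] at d6
  refine d5.trans (d6.trans ?_)
  apply mul_le_mul_of_nonneg_left _ hJ0
  have : k - i ≤ K := by omega
  exact_mod_cast this

theorem linear_bound (h4 : ∀ p q r s : X, dist p q + dist r s ≤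
    max (dist p r + dist q s) (dist p s + dist q r)) (p : ℕ → X) (J : ℝ)
    (hJ : ∀ n, dist (p n) (p (n + 1)) ≤ J)
    (hprop : ∀ R : ℝ, ∃ K : ℕ, ∀ m k, dist (p m) (p (m + k)) ≤ R → k ≤ K) :
    ∃ c : ℝ, 0 < c ∧ ∀ N : ℕ, (N : ℝ) ≤ c * (dist (p 0) (p N) + c) := by
  obtain ⟨K1, hK1⟩ := hprop (2 * J)
  have hJ0 : 0 ≤ J := dist_nonneg.trans (hJ 0)
  set R := J * K1 with hR
  have hR0 : 0 ≤ R := by positivity
  obtain ⟨K2, hK2⟩ := hprop (1 + 2 * R)
  refine ⟨(K2 : ℝ) + 1 + (2 * R + 1), by positivity, ?_⟩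
  intro N
  set D := dist (p 0) (p N) with hD
  have hD0 : 0 ≤ D := dist_nonneg
  have h1 : ∀ k, k ≤ N → dist (p 0) (p k) + dist (p k) (p N) ≤ D + 2 * R := by
    intro k hk
    have h := product_bound h4 p J hJ K1 hK1 k (N - k)
    rw [show k + (N - k) = N by omega] at h
    unfold gp at h
    rw [dist_comm (p k) (p 0)] at h
    linarith
  have h2 : ∀ k l, k ≤ N → l ≤ N → dist (p k) (p l) ≤
      |dist (p 0) (p k) - dist (p 0) (p l)| + 2 * R := by
    intro k l hk hl
    have e1 := gp_min h4 (p 0) (p k) (p N) (p l)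
    have e2 := h1 k hk
    have e3 := h1 l hl
    have e4 := le_abs_self (dist (p 0) (p k) - dist (p 0) (p l))
    have e5 := neg_abs_le (dist (p 0) (p k) - dist (p 0) (p l))
    unfold gp at e1
    rw [dist_comm (p N) (p l)] at e1
    rcases min_le_iff.1 e1 with h | h <;> linarith
  set q := N / (K2 + 1) with hq
  have hqN : q * (K2 + 1) ≤ N := Nat.div_mul_le_self _ _
  have hlt : N < (K2 + 1) * (q + 1) := Nat.lt_mul_div_succ N (Nat.succ_pos K2)
  have hsep : ∀ i j, i < j → j ≤ q →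
      1 < |dist (p 0) (p (i * (K2 + 1))) - dist (p 0) (p (j * (K2 + 1)))| := by
    intro i j hij hj
    by_contra hc
    rw [not_lt] at hc
    have hjN : j * (K2 + 1) ≤ N := (Nat.mul_le_mul_right _ hj).trans hqN
    have hle : i * (K2 + 1) ≤ j * (K2 + 1) := Nat.mul_le_mul_right _ hij.le
    have e1 := h2 (i * (K2 + 1)) (j * (K2 + 1)) (hle.trans hjN) hjN
    have e2 : j * (K2 + 1) = i * (K2 + 1) + (j - i) * (K2 + 1) := by
      rw [← Nat.add_mul]; congr 1; omega
    rw [e2] at e1 hc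
    have e3 := hK2 (i * (K2 + 1)) ((j - i) * (K2 + 1)) (by linarith)
    have e4 : K2 + 1 ≤ (j - i) * (K2 + 1) := Nat.le_mul_of_pos_left _ (by omega)
    omega
  have hcard : (Finset.range (q + 1)).card ≤ (Finset.range (⌊D + 2 * R⌋₊ + 1)).card := by
    apply Finset.card_le_card_of_injOn (fun j => ⌊dist (p 0) (p (j * (K2 + 1)))⌋₊)
    · intro j hj
      have hj' : j ≤ q := Nat.lt_succ_iff.1 (Finset.mem_range.1 (Finset.mem_coe.1 hj))
      have hjN : j * (K2 + 1) ≤ N := (Nat.mul_le_mul_right _ hj').trans hqN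
      apply Finset.mem_coe.2
      rw [Finset.mem_range, Nat.lt_succ_iff]
      apply Nat.floor_le_floor
      have := h1 _ hjN
      have h5 : 0 ≤ dist (p (j * (K2 + 1))) (p N) := dist_nonneg
      linarith
    · have hno : ∀ i j, i < j → j ≤ q → ⌊dist (p 0) (p (i * (K2 + 1)))⌋₊ ≠
          ⌊dist (p 0) (p (j * (K2 + 1)))⌋₊ := by
        intro i j hij hj heq
        have e1 := hsep i j hij hj
        have a1 := Nat.floor_le (show 0 ≤ dist (p 0) (p (i * (K2 + 1))) from dist_nonneg)
        have a2 := Nat.lt_floor_add_one (dist (p 0) (p (i * (K2 + 1))))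
        have a3 := Nat.floor_le (show 0 ≤ dist (p 0) (p (j * (K2 + 1))) from dist_nonneg)
        have a4 := Nat.lt_floor_add_one (dist (p 0) (p (j * (K2 + 1))))
        rw [heq] at a1 a2
        have : |dist (p 0) (p (i * (K2 + 1))) - dist (p 0) (p (j * (K2 + 1)))| < 1 := by
          rw [abs_lt]; constructor <;> linarith
        linarith
      intro i hi j hj heq
      have hi' : i ≤ q := Nat.lt_succ_iff.1 (Finset.mem_range.1 (Finset.mem_coe.1 hi))
      have hj' : j ≤ q := Nat.lt_succ_iff.1 (Finset.mem_range.1 (Finset.mem_coe.1 hj))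
      rcases lt_trichotomy i j with h | h | h
      · exact absurd heq (hno i j h hj')
      · exact h
      · exact absurd heq.symm (hno j i h hi')
  rw [Finset.card_range, Finset.card_range] at hcard
  have hq1 : (q : ℝ) ≤ D + 2 * R := by
    have e1 : q ≤ ⌊D + 2 * R⌋₊ := by omega
    exact (Nat.cast_le.2 e1).trans (Nat.floor_le (by positivity))
  have hN1 : (N : ℝ) ≤ ((K2 : ℝ) + 1) * ((q : ℝ) + 1) := by exact_mod_cast hlt.le
  calc (N : ℝ) ≤ ((K2 : ℝ) + 1) * ((q : ℝ) + 1) := hN1
    _ ≤ ((K2 : ℝ) + 1 + (2 * R + 1)) * (D + ((K2 : ℝ) + 1 + (2 * R + 1))) := by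
        apply mul_le_mul
        · linarith
        · have : (0:ℝ) ≤ K2 := Nat.cast_nonneg _
          linarith
        · positivity
        · positivity

/-- distorted sequences in a tree-like space grow linearly -/
theorem distorted_linear (h4 : ∀ p q r s : X, dist p q + dist r s ≤
    max (dist p r + dist q s) (dist p s + dist q r)) (p : ℕ → X) (f : ℕ → ℝ)
    (hmono : ∀ m n, 1 ≤ m → m ≤ n → f m ≤ f n) (hunb : ∀ C : ℝ, ∃ N, 1 ≤ N ∧ C < f N)
    (A B : ℝ) (hA : 0 < A) (N0 : ℕ)
    (hp : ∀ m k, N0 ≤ k → A * f k ≤ dist (p m) (p (m + k)) ∧ dist (p m) (p (m + k)) ≤ B * f k) :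
    ∃ c : ℝ, 0 < c ∧ ∀ N : ℕ, N0 ≤ N → (N : ℝ) ≤ c * (B * f N + c) := by
  obtain ⟨c, hc, h⟩ := linear_bound h4 p (B * f (1 + N0) + B * f N0) (by
    intro n
    have e1 := (hp n (1 + N0) (by omega)).2
    have e2 := (hp (n + 1) N0 le_rfl).2
    have e3 := dist_triangle_right (p n) (p (n + 1)) (p (n + 1 + N0))
    rw [← add_assoc] at e1
    linarith) (by
    intro R
    obtain ⟨M, hM1, hM⟩ := hunb (R / A)
    refine ⟨max M N0, ?_⟩
    intro m k hmk
    by_contra hk
    rw [not_le, max_lt_iff] at hk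
    have e1 := (hp m k hk.2.le).1
    have e2 := hmono M k hM1 hk.1.le
    rw [div_lt_iff₀ hA] at hM
    nlinarith)
  refine ⟨c, hc, ?_⟩
  intro N hN
  have e1 := (hp 0 N hN).2
  rw [zero_add] at e1
  refine (h N).trans ?_
  apply mul_le_mul_of_nonneg_left _ hc.le
  linarith

theorem log_not_linear (c B C : ℝ) (hc : 0 < c) (hB : 0 < B) (hC : 0 < C) (f : ℕ → ℝ) (N0 : ℕ)
    (h : ∀ N : ℕ, N0 ≤ N → (N : ℝ) ≤ c * (B * f N + c))
    (hf : ∀ᶠ N : ℕ in atTop, f N ≤ C * (1 + Real.log N)) : False := by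
  have hlo := Real.isLittleO_log_id_atTop.def (show 0 < 1 / (2 * (c * B * C)) by positivity)
  have hlo' : ∀ᶠ N : ℕ in atTop, ‖Real.log N‖ ≤ 1 / (2 * (c * B * C)) * ‖((N : ℝ))‖ :=
    tendsto_natCast_atTop_atTop.eventually hlo
  have hlarge : ∀ᶠ N : ℕ in atTop, 2 * (c * B * C + c * c) < (N : ℝ) :=
    tendsto_natCast_atTop_atTop.eventually (eventually_gt_atTop _)
  obtain ⟨N, h1, h2, h3, h4⟩ := (hf.and (hlo'.and (hlarge.and (eventually_ge_atTop N0)))).exists
  have h5 := h N h4
  have h6 : Real.log N ≤ 1 / (2 * (c * B * C)) * N := by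
    have e1 := le_abs_self (Real.log N)
    rw [Real.norm_eq_abs, Real.norm_eq_abs, Nat.abs_cast] at h2
    linarith
  have h7 : c * B * C * Real.log N ≤ N / 2 := by
    calc c * B * C * Real.log N ≤ c * B * C * (1 / (2 * (c * B * C)) * N) := by gcongr
      _ = N / 2 := by field_simp
  have h8 : c * (B * f N + c) ≤ c * (B * (C * (1 + Real.log N)) + c) := by gcongr
  nlinarith

end

end Pool.Agent.V11110.AC
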