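import Pool.Agent.V11110.GL10

/-!
The automorphism of the rational form.
-/

set_option autoImplicit false

open Matrix Polynomial
open scoped TensorProduct

namespace Pool.Agent.V11110.GL

variable {n : ℕ} {G : SimpleGraph (Fin n)} {M : Type*} [LieRing M] [LieAlgebra ℚ M] {r : ℕ}

/-- The matrix of brackets seen by a functional. -/
noncomputable def Bm (bM : Module.Basis (Fin n ⊕ Fin r) ℚ M) :
    (M →ₗ[ℚ] ℚ) →ₗ[ℚ] Matrix (Fin n) (Fin n) ℚ where
  toFun ψ := Matrix.of fun a c => ψ ⁅bM (Sum.inl a), bM (Sum.inl c)⁆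
  map_add' ψ χ := by ext a c; rfl
  map_smul' t ψ := by ext a c; rfl

theorem Bm_apply (bM : Module.Basis (Fin n ⊕ Fin r) ℚ M) (ψ : M →ₗ[ℚ] ℚ) (a c : Fin n) :
    Bm bM ψ a c = ψ ⁅bM (Sum.inl a), bM (Sum.inl c)⁆ := rfl

theorem realData {α : Fin n → (M →ₗ[ℚ] ℝ)} (h : MData G M α)
    (bM : Module.Basis (Fin n ⊕ Fin r) ℚ M) (Θ : Matrix (Fin n) (Fin n) ℝ)
    (h1 : (Matrix.of fun i a => α i (bM (Sum.inl a))) * Θ = 1)
    (h2 : Θ * (Matrix.of fun i a => α i (bM (Sum.inl a))) = 1) :
    RealData G (LinearMap.range (Bm bM)) Θ (Matrix.of fun i a => α i (bM (Sum.inl a))) := by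
  set A : Matrix (Fin n) (Fin n) ℝ := Matrix.of fun i a => α i (bM (Sum.inl a)) with hA
  have hAapp : ∀ i a, A i a = α i (bM (Sum.inl a)) := fun _ _ => rfl
  have hexp : ∀ (S : Matrix (Fin n) (Fin n) ℝ) a c,
      (Aᵀ * S * A) a c = ∑ i, ∑ j, α i (bM (Sum.inl a)) * α j (bM (Sum.inl c)) * S i j := by
    intro S a c
    simp only [Matrix.mul_apply, Matrix.transpose_apply, Finset.sum_mul, hAapp]
    rw [Finset.sum_comm]
    exact Finset.sum_congr rfl fun i _ => Finset.sum_congr rfl fun j _ => by ring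
  refine ⟨h1, h2, ?_, ?_⟩
  · rintro _ ⟨ψ, rfl⟩
    obtain ⟨S, hS, hS2⟩ := h.t1 ((Algebra.linearMap ℚ ℝ).comp ψ)
    have e1 : toR (Bm bM ψ) = Aᵀ * S * A := by
      ext a c
      rw [hexp, ← hS2, toR_apply, Bm_apply]
      rfl
    have e2 : Θᵀ * (Aᵀ * S * A) * Θ = S := by
      have e3 : Θᵀ * Aᵀ = 1 := by rw [← Matrix.transpose_mul, h1, Matrix.transpose_one]
      calc Θᵀ * (Aᵀ * S * A) * Θ = (Θᵀ * Aᵀ) * S * (A * Θ) := by simp only [Matrix.mul_assoc]
        _ = S := by rw [e3, h1, Matrix.one_mul, Matrix.mul_one]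
    rw [e1, e2]
    exact hS
  · intro e he
    obtain ⟨ψ, hψ⟩ := h.t2 e he
    have e1 : Aᵀ * e * A = ∑ k, ψ (bM k) • toR (Bm bM (bM.coord k)) := by
      ext a c
      rw [hexp, ← hψ, Matrix.sum_apply]
      conv_lhs => rw [← bM.sum_repr ⁅bM (Sum.inl a), bM (Sum.inl c)⁆]
      rw [map_sum]
      refine Finset.sum_congr rfl fun k _ => ?_
      rw [map_smul, Matrix.smul_apply, toR_apply, Bm_apply, Module.Basis.coord_apply,
        Rat.smul_def, smul_eq_mul, mul_comm]
    rw [e1]
    refine Submodule.sum_mem _ fun k _ => Submodule.smul_mem _ _ ?_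
    exact Submodule.subset_span ⟨_, ⟨bM.coord k, rfl⟩, rfl⟩

/-- Elements of the derived subspace are central. -/
theorem WW_central {α : Fin n → (M →ₗ[ℚ] ℝ)} (h : MData G M α) {w : M} (hw : w ∈ WW M) (z : M) :
    ⁅w, z⁆ = 0 := by
  unfold WW at hw
  induction hw using Submodule.span_induction with
  | mem x hx => obtain ⟨y, y', rfl⟩ := hx; exact h.nil y y' z
  | zero => exact zero_lie z
  | add x y _ _ hx hy => rw [add_lie, hx, hy, add_zero]
  | smul c x _ hx => rw [smul_lie, hx, smul_zero]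

theorem M_expand {α : Fin n → (M →ₗ[ℚ] ℝ)} (h : MData G M α)
    (bM : Module.Basis (Fin n ⊕ Fin r) ℚ M) (hbW : ∀ c, bM (Sum.inr c) ∈ WW M) (x y : M) :
    ⁅x, y⁆ = ∑ a, ∑ c, (bM.coord (Sum.inl a) x * bM.coord (Sum.inl c) y) •
      ⁅bM (Sum.inl a), bM (Sum.inl c)⁆ := by
  have hx := bM.sum_repr x
  have hy := bM.sum_repr y
  rw [Fintype.sum_sum_type] at hx hy
  have h1 : ∀ z : M, ⁅∑ e, bM.repr x (Sum.inr e) • bM (Sum.inr e), z⁆ = 0 := by
    intro z
    exact WW_central h (Submodule.sum_mem _ fun e _ => Submodule.smul_mem _ _ (hbW e)) z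
  have h2 : ∀ z : M, ⁅z, ∑ e, bM.repr y (Sum.inr e) • bM (Sum.inr e)⁆ = 0 := by
    intro z
    rw [← lie_skew, WW_central h (Submodule.sum_mem _ fun e _ => Submodule.smul_mem _ _ (hbW e)) z,
      neg_zero]
  conv_lhs => rw [← hx, ← hy]
  rw [add_lie, h1, add_zero, lie_add, h2, add_zero, sum_lie]
  refine Finset.sum_congr rfl fun i _ => ?_
  rw [lie_sum]
  refine Finset.sum_congr rfl fun j _ => ?_
  rw [smul_lie, lie_smul, smul_smul]
  rfl

/-- The endomorphism of the rational form attached to a matrix. -/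
theorem exists_g {α : Fin n → (M →ₗ[ℚ] ℝ)} (h : MData G M α)
    (bM : Module.Basis (Fin n ⊕ Fin r) ℚ M) (hbW : ∀ c, bM (Sum.inr c) ∈ WW M)
    (hcoord : ∀ w ∈ WW M, ∀ a, bM.coord (Sum.inl a) w = 0)
    (T : Matrix (Fin n) (Fin n) ℚ)
    (hT : ∀ A ∈ LinearMap.range (Bm bM), Tᵀ * A * T ∈ LinearMap.range (Bm bM)) :
    ∃ g : Module.End ℚ M, (∀ x y, g ⁅x, y⁆ = ⁅g x, g y⁆) ∧
      ∀ a, g (bM (Sum.inl a)) = ∑ c, T c a • bM (Sum.inl c) := by
  classical
  choose ψ hψ using fun c => hT (Bm bM (bM.coord (Sum.inr c))) ⟨_, rfl⟩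
  let g : Module.End ℚ M := bM.constr ℚ (Sum.elim (fun a => ∑ c, T c a • bM (Sum.inl c))
    (fun d => ∑ c, ψ c (bM (Sum.inr d)) • bM (Sum.inr c)))
  have hgl : ∀ a, g (bM (Sum.inl a)) = ∑ c, T c a • bM (Sum.inl c) := by
    intro a; simp [g, Module.Basis.constr_basis]
  have hgr : ∀ d, g (bM (Sum.inr d)) = ∑ c, ψ c (bM (Sum.inr d)) • bM (Sum.inr c) := by
    intro d; simp [g, Module.Basis.constr_basis]
  -- elements of the derived subspace
  have hWexp : ∀ w ∈ WW M, w = ∑ d, bM.coord (Sum.inr d) w • bM (Sum.inr d) := by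
    intro w hw
    conv_lhs => rw [← bM.sum_repr w]
    rw [Fintype.sum_sum_type]
    have : ∑ a, bM.repr w (Sum.inl a) • bM (Sum.inl a) = 0 := by
      refine Finset.sum_eq_zero fun a _ => ?_
      have h1 : bM.repr w (Sum.inl a) = 0 := hcoord w hw a
      rw [h1, zero_smul]
    rw [this, zero_add]
    rfl
  have hgW : ∀ w ∈ WW M, g w = ∑ c, ψ c w • bM (Sum.inr c) := by
    intro w hw
    have h1 := hWexp w hw
    have h2 : ∀ c, ψ c w = ∑ d, bM.coord (Sum.inr d) w * ψ c (bM (Sum.inr d)) := by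
      intro c
      conv_lhs => rw [h1]
      rw [map_sum]
      exact Finset.sum_congr rfl fun d _ => by rw [map_smul, smul_eq_mul]
    conv_lhs => rw [h1]
    rw [map_sum]
    simp only [map_smul, hgr, h2, Finset.smul_sum, Finset.sum_smul, smul_smul]
    rw [Finset.sum_comm]
  have hgen : ∀ a a', g ⁅bM (Sum.inl a), bM (Sum.inl a')⁆
      = ∑ k, ∑ l, (T k a * T l a') • ⁅bM (Sum.inl k), bM (Sum.inl l)⁆ := by
    intro a a'
    rw [hgW _ (bracket_mem_WW _ _)]
    have h1 : ∀ c, ψ c ⁅bM (Sum.inl a), bM (Sum.inl a')⁆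
        = ∑ k, ∑ l, T k a * T l a' *
          bM.coord (Sum.inr c) ⁅bM (Sum.inl k), bM (Sum.inl l)⁆ := by
      intro c
      have h2 := congrFun (congrFun (hψ c) a) a'
      rw [Bm_apply] at h2
      rw [h2]
      simp only [Matrix.mul_apply, Matrix.transpose_apply, Finset.sum_mul, Bm_apply]
      rw [Finset.sum_comm]
      exact Finset.sum_congr rfl fun i _ => Finset.sum_congr rfl fun j _ => by ring
    calc ∑ c, ψ c ⁅bM (Sum.inl a), bM (Sum.inl a')⁆ • bM (Sum.inr c)
        = ∑ c, ∑ k, ∑ l, (T k a * T l a') •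
          (bM.coord (Sum.inr c) ⁅bM (Sum.inl k), bM (Sum.inl l)⁆ • bM (Sum.inr c)) := by
          refine Finset.sum_congr rfl fun c _ => ?_
          rw [h1, Finset.sum_smul]
          refine Finset.sum_congr rfl fun k _ => ?_
          rw [Finset.sum_smul]
          refine Finset.sum_congr rfl fun l _ => ?_
          rw [smul_smul]
      _ = ∑ k, ∑ l, ∑ c, (T k a * T l a') •
          (bM.coord (Sum.inr c) ⁅bM (Sum.inl k), bM (Sum.inl l)⁆ • bM (Sum.inr c)) := by
          rw [Finset.sum_comm]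
          refine Finset.sum_congr rfl fun k _ => ?_
          rw [Finset.sum_comm]
      _ = _ := by
          refine Finset.sum_congr rfl fun k _ => Finset.sum_congr rfl fun l _ => ?_
          rw [← Finset.smul_sum, ← hWexp _ (bracket_mem_WW _ _)]
  have hcg : ∀ k x, bM.coord (Sum.inl k) (g x) = ∑ a, T k a * bM.coord (Sum.inl a) x := by
    intro k x
    conv_lhs => rw [← bM.sum_repr x]
    rw [Fintype.sum_sum_type, map_add, map_add, map_sum, map_sum, map_sum, map_sum]
    have h1 : ∑ d, bM.coord (Sum.inl k) (g (bM.repr x (Sum.inr d) • bM (Sum.inr d))) = 0 := by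
      refine Finset.sum_eq_zero fun d _ => ?_
      rw [map_smul, map_smul, hgr, map_sum, Finset.sum_eq_zero, smul_zero]
      intro c _
      rw [map_smul, hcoord _ (hbW c), smul_zero]
    rw [h1, add_zero]
    refine Finset.sum_congr rfl fun a _ => ?_
    rw [map_smul, map_smul, hgl, map_sum, Finset.sum_eq_single k]
    · rw [map_smul, Module.Basis.coord_apply, Module.Basis.repr_self, Finsupp.single_eq_same,
        smul_eq_mul, smul_eq_mul, mul_one, mul_comm]
      rfl
    · intro c _ hc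
      rw [map_smul, Module.Basis.coord_apply, Module.Basis.repr_self, Finsupp.single_apply,
        if_neg (fun h => hc (Sum.inl.inj h)), smul_zero]
    · simp
  refine ⟨g, fun x y => ?_, hgl⟩
  rw [M_expand h bM hbW (g x) (g y), M_expand h bM hbW x y, map_sum]
  calc ∑ a, g (∑ c, (bM.coord (Sum.inl a) x * bM.coord (Sum.inl c) y) •
        ⁅bM (Sum.inl a), bM (Sum.inl c)⁆)
      = ∑ a, ∑ c, ∑ k, ∑ l, ((bM.coord (Sum.inl a) x * bM.coord (Sum.inl c) y) *
        (T k a * T l c)) • ⁅bM (Sum.inl k), bM (Sum.inl l)⁆ := by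
        refine Finset.sum_congr rfl fun a _ => ?_
        rw [map_sum]
        refine Finset.sum_congr rfl fun c _ => ?_
        rw [map_smul, hgen, Finset.smul_sum]
        refine Finset.sum_congr rfl fun k _ => ?_
        rw [Finset.smul_sum]
        refine Finset.sum_congr rfl fun l _ => ?_
        rw [smul_smul]
    _ = ∑ k, ∑ l, ∑ a, ∑ c, ((bM.coord (Sum.inl a) x * bM.coord (Sum.inl c) y) *
        (T k a * T l c)) • ⁅bM (Sum.inl k), bM (Sum.inl l)⁆ := by
        have e1 : ∀ a, ∑ c, ∑ k, ∑ l, ((bM.coord (Sum.inl a) x * bM.coord (Sum.inl c) y) *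
            (T k a * T l c)) • ⁅bM (Sum.inl k), bM (Sum.inl l)⁆
            = ∑ k, ∑ l, ∑ c, ((bM.coord (Sum.inl a) x * bM.coord (Sum.inl c) y) *
            (T k a * T l c)) • ⁅bM (Sum.inl k), bM (Sum.inl l)⁆ := by
          intro a
          rw [Finset.sum_comm]
          refine Finset.sum_congr rfl fun k _ => ?_
          rw [Finset.sum_comm]
        simp only [e1]
        rw [Finset.sum_comm]
        refine Finset.sum_congr rfl fun k _ => ?_
        rw [Finset.sum_comm]
    _ = _ := by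
        refine Finset.sum_congr rfl fun k _ => Finset.sum_congr rfl fun l _ => ?_
        rw [hcg, hcg, Finset.sum_mul_sum, Finset.sum_smul]
        refine Finset.sum_congr rfl fun a _ => ?_
        rw [Finset.sum_smul]
        refine Finset.sum_congr rfl fun c _ => ?_
        congr 1
        ring

/-- Main theorem of this development. -/
theorem exists_hyperbolic [FiniteDimensional ℚ M] {α : Fin n → (M →ₗ[ℚ] ℝ)} (h : MData G M α)
    (hA1 : ∀ i, ∃ j, j ≠ i ∧ Q G i j)
    (hA2 : ∀ i j, G.Adj i j → Q G i j → ∃ k, k ≠ i ∧ k ≠ j ∧ Q G i k) :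
    ∃ g : M ≃ₗ⁅ℚ⁆ M, ∃ q : Polynomial ℤ,
      q.map (Int.castRingHom ℚ) = LinearMap.charpoly g.toLinearEquiv.toLinearMap ∧
      (q.coeff 0 = 1 ∨ q.coeff 0 = -1) ∧
      ∀ z : ℂ, (q.map (Int.castRingHom ℂ)).IsRoot z → ‖z‖ ≠ 1 := by
  classical
  obtain ⟨r, bM, Θ, hΘ1, hΘ2, hcoord, hbW⟩ := exists_adapted h
  have hRD := realData h bM Θ hΘ1 hΘ2
  obtain ⟨T, hT, hTvec, hTform⟩ := exists_T_good hRD hA1 hA2
  obtain ⟨g, hg, hgl⟩ := exists_g h bM hbW hcoord T hT
  have hgood : ∀ ζ : ℂ, ((LinearMap.charpoly g).map (algebraMap ℚ ℂ)).IsRoot ζ → Good ζ := by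
    intro ζ hζ
    obtain ⟨ψ, hψ0, hψ⟩ := exists_functional_of_root bM g hζ
    have hexp : ∀ a c, ψ ⁅bM (Sum.inl a), bM (Sum.inl c)⁆
        = (∑ d, ψ (bM (Sum.inr d)) • rc (toR (Bm bM (bM.coord (Sum.inr d))))) a c := by
      intro a c
      rw [Matrix.sum_apply]
      conv_lhs => rw [← bM.sum_repr ⁅bM (Sum.inl a), bM (Sum.inl c)⁆]
      rw [Fintype.sum_sum_type, map_add, map_sum, map_sum]
      have h1 : ∑ k, ψ (bM.repr ⁅bM (Sum.inl a), bM (Sum.inl c)⁆ (Sum.inl k) • bM (Sum.inl k))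
          = 0 := by
        refine Finset.sum_eq_zero fun k _ => ?_
        have h2 : bM.repr ⁅bM (Sum.inl a), bM (Sum.inl c)⁆ (Sum.inl k) = 0 :=
          hcoord _ (bracket_mem_WW _ _) k
        rw [h2, zero_smul, map_zero]
      rw [h1, zero_add]
      refine Finset.sum_congr rfl fun d _ => ?_
      rw [map_smul, Matrix.smul_apply, rc_apply, toR_apply, Bm_apply, Module.Basis.coord_apply,
        Rat.smul_def, smul_eq_mul, mul_comm]
      push_cast
      rfl
    by_cases hβ : (∑ d, ψ (bM (Sum.inr d)) • rc (toR (Bm bM (bM.coord (Sum.inr d))))) = 0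
    · -- the functional factors through the quotient
      have hbr0 : ∀ a c, ψ ⁅bM (Sum.inl a), bM (Sum.inl c)⁆ = 0 := by
        intro a c
        rw [hexp, hβ]; rfl
      have hW0 : ∀ w ∈ WW M, ψ w = 0 := by
        intro w hw
        unfold WW at hw
        induction hw using Submodule.span_induction with
        | mem x hx =>
          obtain ⟨y, z, rfl⟩ := hx
          rw [M_expand h bM hbW, map_sum]
          refine Finset.sum_eq_zero fun a _ => ?_
          rw [map_sum]
          refine Finset.sum_eq_zero fun c _ => ?_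
          rw [map_smul, hbr0, smul_zero]
        | zero => exact map_zero _
        | add x y _ _ hx hy => rw [map_add, hx, hy, add_zero]
        | smul c x _ hx => rw [map_smul, hx, smul_zero]
      refine hTvec ζ (fun a => ψ (bM (Sum.inl a))) ?_ ?_
      · intro h0
        apply hψ0
        apply bM.ext
        rintro (a | c)
        · exact congrFun h0 a
        · rw [hW0 _ (hbW c)]; rfl
      · intro a
        rw [← hψ, hgl, map_sum]
        refine Finset.sum_congr rfl fun c _ => ?_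
        rw [map_smul, rc_apply, toR_apply, Rat.smul_def, mul_comm]
        push_cast
        rfl
    · refine hTform ζ r (fun d => ψ (bM (Sum.inr d))) (fun d => Bm bM (bM.coord (Sum.inr d)))
        (fun d => ⟨_, rfl⟩) hβ ?_
      ext a c
      rw [Matrix.smul_apply, smul_eq_mul, ← hexp, ← hψ, hg, hgl, hgl, sum_lie, map_sum]
      simp only [Matrix.mul_apply, Matrix.transpose_apply, Finset.sum_mul]
      rw [Finset.sum_comm]
      refine Finset.sum_congr rfl fun k _ => ?_
      rw [lie_sum, map_sum]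
      refine Finset.sum_congr rfl fun l _ => ?_
      rw [smul_lie, lie_smul, map_smul, map_smul, hexp, rc_apply, rc_apply, toR_apply, toR_apply,
        Rat.smul_def, Rat.smul_def]
      push_cast
      ring
  have hmonic := LinearMap.charpoly_monic g
  obtain ⟨q, hq1, hq2, hq3⟩ := exists_int_poly (LinearMap.charpoly g) hmonic hgood
  have hker : LinearMap.ker g = ⊥ := by
    by_contra hk
    obtain ⟨x, hx, hx0⟩ := (Submodule.ne_bot_iff _).mp hk
    have h1 : (LinearMap.charpoly g).coeff 0 ≠ 0 := by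
      rw [← hq1, Polynomial.coeff_map]
      rcases hq2 with h | h <;> rw [h] <;> simp
    have h2 := LinearMap.aeval_self_charpoly g
    have h3 := LinearMap.congr_fun h2 x
    rw [← Polynomial.divX_mul_X_add (LinearMap.charpoly g), map_add, map_mul, aeval_X, aeval_C,
      LinearMap.add_apply, Module.End.mul_apply, hx, map_zero, zero_add,
      Module.algebraMap_end_apply, LinearMap.zero_apply] at h3
    exact hx0 ((smul_eq_zero.mp h3).resolve_left h1)
  have hbij : Function.Bijective g :=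
    ⟨LinearMap.ker_eq_bot.mp hker, LinearMap.injective_iff_surjective.mp (LinearMap.ker_eq_bot.mp hker)⟩
  let e : M ≃ₗ[ℚ] M := LinearEquiv.ofBijective g hbij
  let ge : M ≃ₗ⁅ℚ⁆ M :=
    { e with
      map_lie' := fun {x y} => hg x y }
  refine ⟨ge, q, ?_, hq2, hq3⟩
  rw [hq1]
  congr 1

end Pool.Agent.V11110.GL
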