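import Mathlib

namespace Pool.Agent.V11110.AF

/-- The largest `e ≤ n` with `2 ^ e ∣ i`. -/
def lev (n : ℕ) (i : ℤ) : ℕ := Nat.findGreatest (fun e => (2 : ℤ) ^ e ∣ i) n

/-- The symbols of the periodic sequences. -/
def sy (n : ℕ) (i : ℤ) : ℕ := lev n i % 2

theorem lev_le (n : ℕ) (i : ℤ) : lev n i ≤ n := Nat.findGreatest_le n

theorem dvd_lev (n : ℕ) (i : ℤ) : (2 : ℤ) ^ lev n i ∣ i := by
  unfold lev
  exact Nat.findGreatest_spec (P := fun e => (2 : ℤ) ^ e ∣ i) (Nat.zero_le n) (by simp)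

theorem lev_eq {n e : ℕ} {i : ℤ} (he : e ≤ n) (h1 : (2 : ℤ) ^ e ∣ i)
    (h2 : e = n ∨ ¬ (2 : ℤ) ^ (e + 1) ∣ i) : lev n i = e := by
  have hle : e ≤ lev n i := Nat.le_findGreatest he h1
  rcases h2 with h2 | h2
  · subst h2
    exact le_antisymm (lev_le _ _) hle
  · by_contra hne
    have h3 : e + 1 ≤ lev n i := by omega
    exact h2 ((pow_dvd_pow 2 h3).trans (dvd_lev n i))

theorem not_dvd_of_lev {n : ℕ} {i : ℤ} (h : lev n i < n) : ¬ (2 : ℤ) ^ (lev n i + 1) ∣ i := by
  intro h1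
  have := Nat.le_findGreatest (P := fun e => (2 : ℤ) ^ e ∣ i) (show lev n i + 1 ≤ n from h) h1
  unfold lev at this
  omega

theorem step {m n k : ℕ} {i j : ℤ} (hk1 : k + 1 ≤ n) (hk2 : k ≤ m) (h1 : (2 : ℤ) ^ k ∣ i - j)
    (h2 : ¬ (2 : ℤ) ^ (k + 1) ∣ i - j) :
    ∃ s : ℕ, 1 ≤ s ∧ s ≤ 2 ^ (k + 2) ∧ sy m (j + s) ≠ sy n (i + s) := by
  set P : ℤ := 2 ^ k with hP
  have hPpos : 0 < P := by positivity
  have e1 : (2 : ℤ) ^ (k + 1) = 2 * P := by rw [pow_succ, mul_comm]
  have e2 : (2 : ℤ) ^ (k + 2) = 4 * P := by rw [pow_add, hP]; ring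
  set s₀ : ℤ := (P - j - 1) % (2 * P) + 1 with hs₀
  have hs1 : 0 ≤ (P - j - 1) % (2 * P) := Int.emod_nonneg _ (by positivity)
  have hs2 : (P - j - 1) % (2 * P) < 2 * P := Int.emod_lt_of_pos _ (by positivity)
  obtain ⟨b, hb⟩ : ∃ b, j + s₀ = P * (2 * b + 1) := by
    refine ⟨-((P - j - 1) / (2 * P)), ?_⟩
    have := Int.emod_add_mul_ediv (P - j - 1) (2 * P)
    rw [hs₀]
    linarith
  obtain ⟨c, hc⟩ := h1
  have hcodd : c % 2 = 1 := by
    by_contra hcon
    apply h2
    have : c % 2 = 0 := by omega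
    obtain ⟨c', hc'⟩ := Int.dvd_of_emod_eq_zero this
    exact ⟨c', by rw [hc, e1, hc']; ring⟩
  obtain ⟨a, ha⟩ : ∃ a, c = 2 * a + 1 := ⟨c / 2, by omega⟩
  have his : i + s₀ = 2 * P * (a + b + 1) := by
    have : i + s₀ = (i - j) + (j + s₀) := by ring
    rw [this, hc, hb, ha]; ring
  -- choice of s
  obtain ⟨s, hs1', hs2', hj, hj', hi, hi'⟩ : ∃ s : ℤ, 1 ≤ s ∧ s ≤ 4 * P ∧ P ∣ j + s ∧
      ¬ 2 * P ∣ j + s ∧ 2 * P ∣ i + s ∧ ¬ 4 * P ∣ i + s := by
    have key1 : ∀ x : ℤ, ¬ 2 * P ∣ P * (2 * x + 1) := by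
      rintro x ⟨y, hy⟩
      have : P * (2 * x + 1) = P * (2 * y) := by rw [hy]; ring
      have := mul_left_cancel₀ hPpos.ne' this
      omega
    rcases Int.even_or_odd (a + b + 1) with hev | hod
    · obtain ⟨y, hy⟩ := hev
      refine ⟨s₀ + 2 * P, by linarith, by linarith, ?_, ?_, ?_, ?_⟩
      · exact ⟨2 * b + 3, by rw [← add_assoc, hb]; ring⟩
      · have : j + (s₀ + 2 * P) = P * (2 * (b + 1) + 1) := by rw [← add_assoc, hb]; ring
        rw [this]; exact key1 _
      · exact ⟨a + b + 2, by rw [← add_assoc, his]; ring⟩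
      · have : i + (s₀ + 2 * P) = 2 * (P * (2 * y + 1)) := by rw [← add_assoc, his, hy]; ring
        rw [this]
        intro h
        apply key1 y
        obtain ⟨z, hz⟩ := h
        exact ⟨z, by linarith⟩
    · obtain ⟨y, hy⟩ := hod
      refine ⟨s₀, by linarith, by linarith, ⟨2 * b + 1, hb⟩, by rw [hb]; exact key1 _,
        ⟨a + b + 1, his⟩, ?_⟩
      have : i + s₀ = 2 * (P * (2 * y + 1)) := by rw [his, hy]; ring
      rw [this]
      intro h
      apply key1 y
      obtain ⟨z, hz⟩ := h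
      exact ⟨z, by linarith⟩
  refine ⟨s.toNat, by omega, ?_, ?_⟩
  · have : (s.toNat : ℤ) ≤ (2 ^ (k + 2) : ℕ) := by
      push_cast
      rw [e2]
      omega
    exact_mod_cast this
  · have hcast : (s.toNat : ℤ) = s := by omega
    rw [hcast]
    have l1 : lev m (j + s) = k := lev_eq hk2 hj (Or.inr (by rw [e1]; exact hj'))
    have l2 : lev n (i + s) = k + 1 := lev_eq hk1 (by rw [e1]; exact hi)
      (Or.inr (by rw [show k + 1 + 1 = k + 2 from rfl, e2]; exact hi'))
    unfold sy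
    rw [l1, l2]
    omega

theorem aligned {m n v : ℕ} {i j : ℤ}
    (hH : ∀ s : ℕ, 1 ≤ s → s ≤ 2 ^ (v + 2) → sy m (j + s) = sy n (i + s)) :
    ∀ k, k ≤ v + 1 → (∀ k' < k, k' ≤ m ∧ k' ≤ n ∧ (k' < m ∨ k' < n)) → (2 : ℤ) ^ k ∣ i - j := by
  intro k
  induction k with
  | zero => intro _ _; simp
  | succ k ih =>
    intro hk hall
    have h1 := ih (by omega) (fun k' hk' => hall k' (by omega))
    by_contra hcon
    obtain ⟨hm, hn, hor⟩ := hall k (by omega)
    have hpow : 2 ^ (k + 2) ≤ 2 ^ (v + 2) := Nat.pow_le_pow_right (by norm_num) (by omega)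
    rcases hor with h | h
    · have h1' : (2 : ℤ) ^ k ∣ j - i := by
        rw [← Int.neg_sub]; exact (dvd_neg).mpr h1
      have hcon' : ¬ (2 : ℤ) ^ (k + 1) ∣ j - i := by
        rw [← Int.neg_sub]; exact fun h3 => hcon ((dvd_neg).mp h3)
      obtain ⟨s, hs1, hs2, hs3⟩ := step (m := n) (n := m) h hn h1' hcon'
      exact hs3 (hH s hs1 (hs2.trans hpow)).symm
    · obtain ⟨s, hs1, hs2, hs3⟩ := step (m := m) (n := n) h hm h1 hcon
      exact hs3 (hH s hs1 (hs2.trans hpow))

/-- A shift making the level exact. -/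
theorem exact_shift {e : ℕ} {i : ℤ} (h : (2 : ℤ) ^ e ∣ i) :
    ∃ s : ℕ, 1 ≤ s ∧ s ≤ 2 ^ (e + 1) ∧ (2 : ℤ) ^ e ∣ (s : ℤ) ∧ (2 : ℤ) ^ e ∣ i + s ∧
      ¬ (2 : ℤ) ^ (e + 1) ∣ i + s := by
  set P : ℤ := 2 ^ e with hP
  have hPpos : 0 < P := by positivity
  have e1 : (2 : ℤ) ^ (e + 1) = 2 * P := by rw [pow_succ, mul_comm]
  obtain ⟨c, hc⟩ := h
  have key1 : ∀ x : ℤ, ¬ 2 * P ∣ P * (2 * x + 1) := by
    rintro x ⟨y, hy⟩
    have : P * (2 * x + 1) = P * (2 * y) := by rw [hy]; ring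
    have := mul_left_cancel₀ hPpos.ne' this
    omega
  rcases Int.even_or_odd c with hev | hod
  · obtain ⟨y, hy⟩ := hev
    refine ⟨2 ^ e, Nat.one_le_two_pow, Nat.pow_le_pow_right (by norm_num) (by omega), ?_, ?_, ?_⟩
    · push_cast; exact dvd_refl _
    · push_cast; rw [← hP]; exact ⟨c + 1, by rw [hc]; ring⟩
    · push_cast
      rw [← hP, e1]
      have : i + P = P * (2 * y + 1) := by rw [hc, hy]; ring
      rw [this]; exact key1 y
  · obtain ⟨y, hy⟩ := hod
    refine ⟨2 ^ (e + 1), Nat.one_le_two_pow, le_rfl, ?_, ?_, ?_⟩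
    · push_cast; rw [e1]; exact ⟨2, by ring⟩
    · push_cast; rw [e1]; exact ⟨c + 2, by rw [hc]; ring⟩
    · push_cast
      rw [e1]
      have : i + 2 * P = P * (2 * (y + 1) + 1) := by rw [hc, hy]; ring
      rw [this]; exact key1 _

/-- The separation lemma. -/
theorem comb {m n : ℕ} {i j : ℤ} (hne : sy m j ≠ sy n i)
    (hH : ∀ s : ℕ, 1 ≤ s → s ≤ 2 ^ (lev m j + 2) → sy m (j + s) = sy n (i + s)) : False := by
  set v := lev m j with hv
  have hvm : v ≤ m := lev_le m j
  have hdj : (2 : ℤ) ^ v ∣ j := dvd_lev m j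
  have hal := aligned (v := v) hH
  -- if aligned at level v + 1 and the level of j is exact then contradiction
  have fin1 : ∀ (_ : v ≤ n) (_ : (2 : ℤ) ^ (v + 1) ∣ i - j) (_ : ¬ (2 : ℤ) ^ (v + 1) ∣ j), False := by
    intro hvn h1 h2
    apply hne
    have h3 : lev n i = v := by
      refine lev_eq hvn ?_ (Or.inr ?_)
      · have : i = (i - j) + j := by ring
        rw [this]
        exact dvd_add ((pow_dvd_pow 2 (by omega)).trans h1) hdj
      · intro h4
        apply h2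
        have : j = i - (i - j) := by ring
        rw [this]
        exact dvd_sub h4 h1
    unfold sy
    rw [h3, ← hv]
  rcases lt_trichotomy m n with hmn | hmn | hmn
  · -- m < n
    have h1 : (2 : ℤ) ^ (v + 1) ∣ i - j := hal (v + 1) le_rfl (fun k' hk' => ⟨by omega, by omega,
      Or.inr (by omega)⟩)
    by_cases h2 : (2 : ℤ) ^ (v + 1) ∣ j
    · have hvm' : v = m := by
        by_contra hne'
        have h3 : lev m j < m := by omega
        exact not_dvd_of_lev h3 (by rw [← hv]; exact h2)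
      have h3 : (2 : ℤ) ^ (m + 1) ∣ i := by
        rw [← hvm']
        have : i = (i - j) + j := by ring
        rw [this]
        exact dvd_add h1 h2
      obtain ⟨s, hs1, hs2, hs3, hs4, hs5⟩ := exact_shift h3
      have l2 : lev n (i + s) = m + 1 := lev_eq (by omega) hs4 (Or.inr hs5)
      have l1 : lev m (j + s) = m := lev_eq le_rfl
        (dvd_add (by rw [← hvm']; exact hdj) ((pow_dvd_pow 2 (by omega)).trans hs3)) (Or.inl rfl)
      have h4 := hH s hs1 (by rw [hvm']; exact hs2)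
      unfold sy at h4
      rw [l1, l2] at h4
      omega
    · exact fin1 (by omega) h1 h2
  · -- m = n
    subst hmn
    rcases hvm.lt_or_eq with h | h
    · have h1 : (2 : ℤ) ^ (v + 1) ∣ i - j := hal (v + 1) le_rfl (fun k' hk' => ⟨by omega, by omega,
        Or.inr (by omega)⟩)
      exact fin1 hvm h1 (not_dvd_of_lev (by omega))
    · have h1 : (2 : ℤ) ^ v ∣ i - j := hal v (by omega) (fun k' hk' => ⟨by omega, by omega,
        Or.inr (by omega)⟩)
      apply hne
      have h3 : lev m i = v := by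
        refine lev_eq hvm ?_ (Or.inl h)
        have : i = (i - j) + j := by ring
        rw [this]
        exact dvd_add h1 hdj
      unfold sy
      rw [h3, ← hv]
  · -- n < m
    rcases le_or_gt v n with h | h
    · have h1 : (2 : ℤ) ^ (v + 1) ∣ i - j := hal (v + 1) le_rfl (fun k' hk' => ⟨by omega, by omega,
        Or.inl (by omega)⟩)
      exact fin1 h h1 (not_dvd_of_lev (by omega))
    · have h1 : (2 : ℤ) ^ (n + 1) ∣ i - j := hal (n + 1) (by omega) (fun k' hk' => ⟨by omega,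
        by omega, Or.inl (by omega)⟩)
      have h2 : (2 : ℤ) ^ (n + 1) ∣ j := (pow_dvd_pow 2 (by omega)).trans hdj
      obtain ⟨s, hs1, hs2, hs3, hs4, hs5⟩ := exact_shift h2
      have l1 : lev m (j + s) = n + 1 := lev_eq (by omega) hs4 (Or.inr hs5)
      have l2 : lev n (i + s) = n := by
        refine lev_eq le_rfl ?_ (Or.inl rfl)
        have : i + s = (i - j) + (j + s) := by ring
        rw [this]
        exact (pow_dvd_pow 2 (by omega)).trans (dvd_add h1 hs4)
      have h4 := hH s hs1 (hs2.trans (Nat.pow_le_pow_right (by norm_num) (by omega)))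
      unfold sy at h4
      rw [l1, l2] at h4
      omega

theorem lev_congr {n q P : ℕ} {x y : ℤ} (hn : P ≤ n) (hq : P ≤ q) (hxy : (2 : ℤ) ^ P ∣ x - y)
    (hx : ¬ (2 : ℤ) ^ P ∣ x) : lev n x = lev q y := by
  set e := lev n x with he
  have heP : e < P := by
    by_contra hcon
    exact hx ((pow_dvd_pow 2 (by omega)).trans (dvd_lev n x))
  have h1 : ¬ (2 : ℤ) ^ (e + 1) ∣ x := not_dvd_of_lev (by omega)
  symm
  refine lev_eq (by omega) ?_ (Or.inr ?_)
  · have : y = x - (x - y) := by ring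
    rw [this]
    exact dvd_sub (dvd_lev n x) ((pow_dvd_pow 2 (by omega)).trans hxy)
  · intro h2
    apply h1
    have : x = (x - y) + y := by ring
    rw [this]
    exact dvd_add ((pow_dvd_pow 2 (by omega)).trans hxy) h2

/-- Windows of the finer sequence occur in the coarser one. -/
theorem window {n q : ℕ} (hnq : q + 1 ≤ n) (i : ℤ) :
    ∃ i' : ℤ, ∀ s : ℕ, s < 2 ^ q → sy n (i + s) = sy (q + 1) (i' + s) := by
  set P : ℤ := 2 ^ q with hP
  have hPpos : 0 < P := by positivity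
  set s₀ : ℤ := (-i) % P with hs₀
  have hs1 : 0 ≤ s₀ := Int.emod_nonneg _ hPpos.ne'
  have hs2 : s₀ < P := Int.emod_lt_of_pos _ hPpos
  have hdiv : P ∣ i + s₀ := by
    have := Int.emod_add_mul_ediv (-i) P
    exact ⟨-((-i) / P), by linarith⟩
  obtain ⟨p', hp', hb⟩ : ∃ p' : ℤ, P ∣ p' ∧ sy n (i + s₀) = sy (q + 1) p' := by
    by_cases h : sy n (i + s₀) = q % 2
    · refine ⟨P, dvd_refl _, ?_⟩
      have l1 : lev (q + 1) P = q := by
        refine lev_eq (by omega) (dvd_refl _) (Or.inr ?_)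
        intro h2
        have := Int.le_of_dvd hPpos h2
        rw [pow_succ] at this
        linarith
      rw [h]; unfold sy; rw [l1]
    · refine ⟨2 * P, ⟨2, by ring⟩, ?_⟩
      have l1 : lev (q + 1) (2 * P) = q + 1 := by
        refine lev_eq le_rfl ?_ (Or.inl rfl)
        rw [pow_succ, mul_comm]
      have h3 : sy n (i + s₀) < 2 := Nat.mod_lt _ (by norm_num)
      unfold sy at h h3 ⊢
      rw [l1]
      omega
  refine ⟨p' - s₀, fun s hs => ?_⟩
  by_cases hss : (s : ℤ) = s₀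
  · rw [hss, sub_add_cancel]; exact hb
  · unfold sy
    have h1 : (2 : ℤ) ^ q ∣ (i + s) - (p' - s₀ + s) := by
      have : (i + s) - (p' - s₀ + s) = (i + s₀) - p' := by ring
      rw [this]
      exact dvd_sub hdiv hp'
    have h2 : ¬ (2 : ℤ) ^ q ∣ (i + s) := by
      intro h3
      have h4 : P ∣ (s : ℤ) - s₀ := by
        have : (s : ℤ) - s₀ = (i + s) - (i + s₀) := by ring
        rw [this]
        exact dvd_sub h3 hdiv
      have h5 : (s : ℤ) < P := by rw [hP]; exact_mod_cast hs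
      obtain ⟨c, hc⟩ := h4
      have h6 : c = 0 := by
        by_contra hc0
        rcases lt_or_gt_of_ne hc0 with h7 | h7
        · have : P * c ≤ P * (-1) := by
            apply mul_le_mul_of_nonneg_left (by omega) hPpos.le
          have h8 : (0 : ℤ) ≤ (s : ℤ) := Int.natCast_nonneg s
          linarith
        · have : P * 1 ≤ P * c := by
            apply mul_le_mul_of_nonneg_left (by omega) hPpos.le
          linarith
      rw [h6, mul_zero] at hc
      exact hss (by linarith)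
    rw [lev_congr (n := n) (q := q + 1) (P := q) (by omega) (by omega) h1 h2]

end Pool.Agent.V11110.AF
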