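import Pool.Agent.V11110.AF1

open Filter Topology

noncomputable section

namespace Pool.Agent.V11110.AF

theorem sy_le (n : ℕ) (i : ℤ) : sy n i ≤ 1 := by
  have : sy n i < 2 := Nat.mod_lt _ (by norm_num)
  omega

/-- The angles. -/
def xx (n : ℕ) (i : ℤ) : ℝ := ∑' s : ℕ, (sy n (i + s) : ℝ) / 2 ^ (s + 1)

theorem summ_geo : Summable (fun s : ℕ => (1 : ℝ) / 2 ^ (s + 1)) := by
  have := summable_geometric_two' (1 : ℝ)
  refine this.congr (fun s => ?_)
  rw [pow_succ]; field_simp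

theorem tsum_geo : ∑' s : ℕ, (1 : ℝ) / 2 ^ (s + 1) = 1 := by
  refine (tsum_congr (fun s => ?_)).trans (tsum_geometric_two' (1 : ℝ))
  rw [pow_succ]; field_simp

theorem term_le (n : ℕ) (i : ℤ) (s : ℕ) : (sy n (i + s) : ℝ) / 2 ^ (s + 1) ≤ 1 / 2 ^ (s + 1) := by
  have : (sy n (i + s) : ℝ) ≤ 1 := by exact_mod_cast sy_le n _
  gcongr

theorem summ_xx (n : ℕ) (i : ℤ) : Summable (fun s : ℕ => (sy n (i + s) : ℝ) / 2 ^ (s + 1)) :=
  Summable.of_nonneg_of_le (fun s => by positivity) (term_le n i) summ_geo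

theorem xx_nonneg (n : ℕ) (i : ℤ) : 0 ≤ xx n i := tsum_nonneg (fun s => by positivity)

theorem xx_le_one (n : ℕ) (i : ℤ) : xx n i ≤ 1 := by
  rw [← tsum_geo]
  exact (summ_xx n i).tsum_le_tsum (term_le n i) summ_geo

theorem xx_rec (n : ℕ) (i : ℤ) : xx n i = (sy n i + xx n (i + 1)) / 2 := by
  have h := (summ_xx n i).tsum_eq_zero_add
  have h2 : ∀ s : ℕ, (sy n (i + ((s + 1 : ℕ) : ℤ)) : ℝ) / 2 ^ (s + 1 + 1)
      = (1 / 2) * ((sy n (i + 1 + s) : ℝ) / 2 ^ (s + 1)) := by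
    intro s
    have : i + ((s + 1 : ℕ) : ℤ) = i + 1 + s := by push_cast; ring
    rw [this, pow_succ]
    ring
  unfold xx
  rw [h]
  simp only [h2]
  rw [tsum_mul_left]
  simp only [Nat.cast_zero, add_zero, zero_add, pow_one]
  ring

theorem sy_one_even {n : ℕ} {i : ℤ} (h : sy n i = 1) : (2 : ℤ) ∣ i := by
  have h1 : 1 ≤ lev n i := by
    by_contra hcon
    have : lev n i = 0 := by omega
    unfold sy at h
    rw [this] at h
    omega
  have := (pow_dvd_pow (2 : ℤ) h1).trans (dvd_lev n i)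
  simpa using this

theorem sy_succ {n : ℕ} {i : ℤ} (h : sy n i = 1) : sy n (i + 1) = 0 := by
  have h1 := sy_one_even h
  by_contra hcon
  have h2 : sy n (i + 1) = 1 := by have := sy_le n (i + 1); omega
  have h3 := sy_one_even h2
  omega

theorem xx_le_half {n : ℕ} {i : ℤ} (h : sy n i = 0) : xx n i ≤ 1 / 2 := by
  rw [xx_rec, h]
  have := xx_le_one n (i + 1)
  push_cast
  linarith

theorem half_le_xx {n : ℕ} {i : ℤ} (h : sy n i = 1) : 1 / 2 ≤ xx n i := by
  rw [xx_rec, h]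
  have := xx_nonneg n (i + 1)
  push_cast
  linarith

theorem xx_le (n : ℕ) (i : ℤ) : xx n i ≤ 3 / 4 := by
  have h := sy_le n i
  rcases Nat.le_one_iff_eq_zero_or_eq_one.mp h with h | h
  · have := xx_le_half h; linarith
  · have h2 := xx_le_half (sy_succ h)
    rw [xx_rec, h]
    push_cast
    linarith

theorem xx_le' {n : ℕ} {i : ℤ} (h : sy n i = 0) : xx n i ≤ 3 / 8 := by
  rw [xx_rec, h]
  have := xx_le n (i + 1)
  push_cast
  linarith

theorem half_mul_le (n : ℕ) (i : ℤ) : xx n (i + 1) / 2 ≤ xx n i := by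
  rw [xx_rec n i]
  have : (0 : ℝ) ≤ sy n i := by positivity
  linarith

theorem sy_two {n : ℕ} (hn : 1 ≤ n) {i : ℤ} (h1 : (2 : ℤ) ∣ i) (h2 : ¬ (4 : ℤ) ∣ i) :
    sy n i = 1 := by
  have : lev n i = 1 := lev_eq hn (by simpa using h1) (Or.inr (by norm_num; exact h2))
  unfold sy
  rw [this]

theorem xx_ge {n : ℕ} (hn : 1 ≤ n) (i : ℤ) : 1 / 16 ≤ xx n i := by
  have h0 := half_mul_le n i
  have h1 := half_mul_le n (i + 1)
  have h2 := half_mul_le n (i + 1 + 1)
  have hh : i % 4 = 2 ∨ (i + 1) % 4 = 2 ∨ (i + 1 + 1) % 4 = 2 ∨ (i + 1 + 1 + 1) % 4 = 2 := by omega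
  rcases hh with h | h | h | h
  · have := half_le_xx (sy_two hn (i := i) (by omega) (by omega)); linarith
  · have := half_le_xx (sy_two hn (i := i + 1) (by omega) (by omega)); linarith
  · have := half_le_xx (sy_two hn (i := i + 1 + 1) (by omega) (by omega)); linarith
  · have := half_le_xx (sy_two hn (i := i + 1 + 1 + 1) (by omega) (by omega)); linarith

/-- The point of the circle with given angle. -/
def ee (x : ℝ) : ℂ := Complex.exp ((2 * Real.pi * x : ℝ) * Complex.I)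

theorem norm_ee (x : ℝ) : ‖ee x‖ = 1 := Complex.norm_exp_ofReal_mul_I _

theorem ee_sub_sq (x y : ℝ) : ‖ee x - ee y‖ ^ 2 = 2 - 2 * Real.cos (2 * Real.pi * (x - y)) := by
  rw [← Complex.normSq_eq_norm_sq, Complex.normSq_apply]
  unfold ee
  rw [Complex.sub_re, Complex.sub_im, Complex.exp_ofReal_mul_I_re, Complex.exp_ofReal_mul_I_re,
    Complex.exp_ofReal_mul_I_im, Complex.exp_ofReal_mul_I_im,
    show 2 * Real.pi * (x - y) = 2 * Real.pi * x - 2 * Real.pi * y by ring, Real.cos_sub]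
  have h1 := Real.sin_sq_add_cos_sq (2 * Real.pi * x)
  have h2 := Real.sin_sq_add_cos_sq (2 * Real.pi * y)
  linear_combination h1 + h2

theorem ee_add_sq (x y : ℝ) : ‖ee x + ee y‖ ^ 2 = 2 + 2 * Real.cos (2 * Real.pi * (x - y)) := by
  rw [← Complex.normSq_eq_norm_sq, Complex.normSq_apply]
  unfold ee
  rw [Complex.add_re, Complex.add_im, Complex.exp_ofReal_mul_I_re, Complex.exp_ofReal_mul_I_re,
    Complex.exp_ofReal_mul_I_im, Complex.exp_ofReal_mul_I_im,
    show 2 * Real.pi * (x - y) = 2 * Real.pi * x - 2 * Real.pi * y by ring, Real.cos_sub]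
  have h1 := Real.sin_sq_add_cos_sq (2 * Real.pi * x)
  have h2 := Real.sin_sq_add_cos_sq (2 * Real.pi * y)
  linear_combination h1 + h2

theorem cos_le_aux {d : ℝ} (h1 : 1 / 8 ≤ d) (h2 : d ≤ 7 / 8) : Real.cos (2 * Real.pi * d) ≤ 3 / 4 := by
  have hpi := Real.pi_pos
  have hs : Real.cos (Real.pi / 4) ≤ 3 / 4 := by
    rw [Real.cos_pi_div_four]
    have : Real.sqrt 2 ≤ 3 / 2 := by
      rw [Real.sqrt_le_left (by norm_num)]; norm_num
    linarith
  rcases le_or_gt d (1 / 2) with h | h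
  · refine le_trans ?_ hs
    exact Real.cos_le_cos_of_nonneg_of_le_pi (by positivity) (by nlinarith) (by nlinarith)
  · refine le_trans ?_ hs
    rw [← Real.cos_two_pi_sub]
    exact Real.cos_le_cos_of_nonneg_of_le_pi (by positivity) (by nlinarith) (by nlinarith)

theorem cos_ge_aux {d : ℝ} (h : |d| ≤ 1 / 3) : -(1 / 2) ≤ Real.cos (2 * Real.pi * d) := by
  have hpi := Real.pi_pos
  have h1 : Real.cos (2 * Real.pi * d) = Real.cos (2 * Real.pi * |d|) := by
    rcases abs_cases d with ⟨h2, _⟩ | ⟨h2, _⟩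
    · rw [h2]
    · rw [h2, mul_neg, Real.cos_neg]
  rw [h1]
  have h2 : Real.cos (Real.pi - Real.pi / 3) = -(1 / 2) := by
    rw [Real.cos_pi_sub, Real.cos_pi_div_three]
  rw [← h2]
  have h3 := abs_nonneg d
  exact Real.cos_le_cos_of_nonneg_of_le_pi (by positivity) (by linarith) (by nlinarith)

/-- The points of the periodic orbits. -/
def uu (n : ℕ) (i : ℤ) : ℂ := ee (xx n i)

theorem norm_uu (n : ℕ) (i : ℤ) : ‖uu n i‖ = 1 := norm_ee _

theorem uu_sq (n : ℕ) (i : ℤ) : uu n i ^ 2 = uu n (i + 1) := by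
  unfold uu ee
  rw [← Complex.exp_nat_mul]
  have h1 : ((2 : ℕ) : ℂ) * (((2 * Real.pi * xx n i : ℝ) : ℂ) * Complex.I)
      = ((2 * Real.pi * xx n (i + 1) : ℝ) : ℂ) * Complex.I
        + (sy n i : ℕ) * (2 * Real.pi * Complex.I) := by
    rw [xx_rec n i]
    push_cast
    ring
  rw [h1, Complex.exp_add, Complex.exp_nat_mul_two_pi_mul_I, mul_one]

theorem same_of_close {m n : ℕ} (hm : 1 ≤ m) (hn : 1 ≤ n) {i j : ℤ}
    (h : ‖uu m j - uu n i‖ < 1 / 2) : sy m j = sy n i := by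
  by_contra hne
  have h1 : ‖uu m j - uu n i‖ ^ 2 < 1 / 4 := by
    have := norm_nonneg (uu m j - uu n i)
    nlinarith
  unfold uu at h1
  rw [ee_sub_sq] at h1
  have hj := sy_le m j
  have hi := sy_le n i
  rcases Nat.le_one_iff_eq_zero_or_eq_one.mp hj with hj | hj <;>
    rcases Nat.le_one_iff_eq_zero_or_eq_one.mp hi with hi | hi
  · exact hne (hj.trans hi.symm)
  · have e : Real.cos (2 * Real.pi * (xx m j - xx n i))
        = Real.cos (2 * Real.pi * (xx n i - xx m j)) := by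
      rw [← Real.cos_neg]; congr 1; ring
    rw [e] at h1
    have h2 := xx_le' hj
    have h3 := xx_ge hm j
    have h4 := half_le_xx hi
    have h5 := xx_le n i
    have := cos_le_aux (d := xx n i - xx m j) (by linarith) (by linarith)
    linarith
  · have h2 := xx_le' hi
    have h3 := xx_ge hn i
    have h4 := half_le_xx hj
    have h5 := xx_le m j
    have := cos_le_aux (d := xx m j - xx n i) (by linarith) (by linarith)
    linarith
  · exact hne (hj.trans hi.symm)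

theorem diff_of_close {m n : ℕ} (hm : 1 ≤ m) (hn : 1 ≤ n) {i j : ℤ}
    (h : ‖uu m j + uu n i‖ < 1 / 2) : sy m j ≠ sy n i := by
  intro he
  have h1 : ‖uu m j + uu n i‖ ^ 2 < 1 / 4 := by
    have := norm_nonneg (uu m j + uu n i)
    nlinarith
  unfold uu at h1
  rw [ee_add_sq] at h1
  have habs : |xx m j - xx n i| ≤ 1 / 3 := by
    have h3 := xx_ge hm j
    have h3' := xx_ge hn i
    have h5 := xx_le m j
    have h5' := xx_le n i
    rcases Nat.le_one_iff_eq_zero_or_eq_one.mp (sy_le m j) with hj | hj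
    · have h6 := xx_le' hj
      have h6' := xx_le' (he ▸ hj)
      rw [abs_le]
      constructor <;> linarith
    · have h6 := half_le_xx hj
      have h6' := half_le_xx (he ▸ hj)
      rw [abs_le]
      constructor <;> linarith
  have := cos_ge_aux habs
  linarith

theorem sq_close {m n : ℕ} {i j : ℤ} (s : ℕ) :
    ‖uu m (j + 1 + s) - uu n (i + 1 + s)‖ ≤ 2 ^ (s + 1) * ‖uu m j + uu n i‖ := by
  induction s with
  | zero =>
    simp only [Nat.cast_zero, add_zero, zero_add, pow_one]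
    rw [← uu_sq, ← uu_sq]
    have : uu m j ^ 2 - uu n i ^ 2 = (uu m j - uu n i) * (uu m j + uu n i) := by ring
    rw [this, norm_mul]
    have h1 := norm_sub_le (uu m j) (uu n i)
    rw [norm_uu, norm_uu] at h1
    have := norm_nonneg (uu m j + uu n i)
    nlinarith
  | succ s ih =>
    have e1 : j + 1 + ((s + 1 : ℕ) : ℤ) = (j + 1 + s) + 1 := by push_cast; ring
    have e2 : i + 1 + ((s + 1 : ℕ) : ℤ) = (i + 1 + s) + 1 := by push_cast; ring
    rw [e1, e2, ← uu_sq, ← uu_sq]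
    have : uu m (j + 1 + s) ^ 2 - uu n (i + 1 + s) ^ 2
        = (uu m (j + 1 + s) - uu n (i + 1 + s)) * (uu m (j + 1 + s) + uu n (i + 1 + s)) := by ring
    rw [this, norm_mul]
    have h1 := norm_add_le (uu m (j + 1 + s)) (uu n (i + 1 + s))
    rw [norm_uu, norm_uu] at h1
    have h2 := norm_nonneg (uu m (j + 1 + s) - uu n (i + 1 + s))
    have h3 := norm_nonneg (uu m j + uu n i)
    have e3 : (2 : ℝ) ^ (s + 1 + 1) = 2 ^ (s + 1) * 2 := pow_succ _ _
    rw [e3]
    nlinarith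

/-- Separation of the orbits from the wrong preimages. -/
theorem sep {m n : ℕ} (hm : 1 ≤ m) (hn : 1 ≤ n) (i j : ℤ) :
    1 / 2 / 2 ^ (2 ^ (lev m j + 2)) ≤ ‖uu m j + uu n i‖ := by
  by_contra hcon
  push Not at hcon
  have hsmall : ∀ s : ℕ, s ≤ 2 ^ (lev m j + 2) → (2 : ℝ) ^ s * ‖uu m j + uu n i‖ < 1 / 2 := by
    intro s hs
    have h1 : (2 : ℝ) ^ s ≤ 2 ^ (2 ^ (lev m j + 2)) := pow_le_pow_right₀ (by norm_num) hs
    have h2 := norm_nonneg (uu m j + uu n i)
    have h3 : (2 : ℝ) ^ (2 ^ (lev m j + 2)) * ‖uu m j + uu n i‖ < 1 / 2 := by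
      rw [lt_div_iff₀ (by positivity)] at hcon
      linarith
    nlinarith
  refine comb (m := m) (n := n) (i := i) (j := j) (diff_of_close hm hn ?_) ?_
  · have := hsmall 0 (Nat.zero_le _)
    simpa using this
  · intro s hs1 hs2
    obtain ⟨s', rfl⟩ : ∃ s', s = s' + 1 := ⟨s - 1, by omega⟩
    have e1 : j + ((s' + 1 : ℕ) : ℤ) = j + 1 + s' := by push_cast; ring
    have e2 : i + ((s' + 1 : ℕ) : ℤ) = i + 1 + s' := by push_cast; ring
    rw [e1, e2]
    apply same_of_close hm hn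
    exact lt_of_le_of_lt (sq_close s') (hsmall (s' + 1) hs2)

theorem xx_close {m n : ℕ} (L : ℕ) : ∀ (i j : ℤ), (∀ s : ℕ, s < L → sy m (j + s) = sy n (i + s)) →
    |xx m j - xx n i| ≤ 1 / 2 ^ L := by
  induction L with
  | zero =>
    intro i j _
    have h1 := xx_nonneg m j
    have h2 := xx_nonneg n i
    have h3 := xx_le_one m j
    have h4 := xx_le_one n i
    rw [abs_le]
    constructor <;> norm_num <;> linarith
  | succ L ih =>
    intro i j h
    have h0 := h 0 (by omega)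
    simp only [Nat.cast_zero, add_zero] at h0
    have h1 := ih (i + 1) (j + 1) (fun s hs => by
      have := h (s + 1) (by omega)
      have e1 : j + ((s + 1 : ℕ) : ℤ) = j + 1 + s := by push_cast; ring
      have e2 : i + ((s + 1 : ℕ) : ℤ) = i + 1 + s := by push_cast; ring
      rwa [e1, e2] at this)
    rw [xx_rec m j, xx_rec n i, h0]
    have e3 : ((sy n i : ℝ) + xx m (j + 1)) / 2 - ((sy n i : ℝ) + xx n (i + 1)) / 2
        = (xx m (j + 1) - xx n (i + 1)) / 2 := by ring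
    rw [e3, abs_div, abs_two, pow_succ]
    rw [div_le_iff₀ (by norm_num)]
    calc _ ≤ 1 / 2 ^ L := h1
      _ = 1 / (2 ^ L * 2) * 2 := by field_simp

theorem ee_close (x y : ℝ) : ‖ee x - ee y‖ ≤ 7 * |x - y| := by
  have h1 : ‖ee x - ee y‖ ^ 2 ≤ (2 * Real.pi * (x - y)) ^ 2 := by
    rw [ee_sub_sq]
    have := Real.one_sub_sq_div_two_le_cos (x := 2 * Real.pi * (x - y))
    linarith
  have h2 : ‖ee x - ee y‖ ≤ |2 * Real.pi * (x - y)| := by
    rw [← sq_abs (2 * Real.pi * (x - y))] at h1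
    exact (sq_le_sq₀ (norm_nonneg _) (abs_nonneg _)).mp h1
  refine h2.trans ?_
  rw [abs_mul, abs_of_pos (by positivity : (0 : ℝ) < 2 * Real.pi)]
  have h3 : Real.pi < 3.5 := lt_trans Real.pi_lt_d2 (by norm_num)
  have h4 := abs_nonneg (x - y)
  nlinarith

/-- Every orbit is well approximated by the orbit of a given level. -/
theorem approx {n q : ℕ} (hnq : q + 1 ≤ n) (i : ℤ) :
    ∃ i' : ℤ, ‖uu n i - uu (q + 1) i'‖ ≤ 7 / 2 ^ (2 ^ q) := by
  obtain ⟨i', hi'⟩ := window hnq i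
  refine ⟨i', (ee_close _ _).trans ?_⟩
  have := xx_close (2 ^ q) i' i hi'
  calc 7 * |xx n i - xx (q + 1) i'| ≤ 7 * (1 / 2 ^ (2 ^ q)) := by linarith
    _ = _ := by ring

theorem lev_period (n : ℕ) (i : ℤ) : lev n (i + 2 ^ n) = lev n i := by
  have hd : ∀ e ≤ n, ((2 : ℤ) ^ e ∣ i + 2 ^ n ↔ (2 : ℤ) ^ e ∣ i) := by
    intro e he
    exact (dvd_add_left (pow_dvd_pow 2 he))
  refine lev_eq (lev_le n i) ((hd _ (lev_le n i)).mpr (dvd_lev n i)) ?_
  rcases (lev_le n i).lt_or_eq with h | h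
  · right
    intro h2
    exact not_dvd_of_lev h ((hd _ h).mp h2)
  · exact Or.inl h

theorem sy_period (n : ℕ) (i : ℤ) : sy n (i + 2 ^ n) = sy n i := by
  unfold sy; rw [lev_period]

theorem xx_period (n : ℕ) (i : ℤ) : xx n (i + 2 ^ n) = xx n i := by
  unfold xx
  refine tsum_congr (fun s => ?_)
  have : i + 2 ^ n + s = (i + s) + 2 ^ n := by ring
  rw [this, sy_period]

theorem uu_period (n : ℕ) (i : ℤ) : uu n (i + 2 ^ n) = uu n i := by
  unfold uu; rw [xx_period]

end Pool.Agent.V11110.AF
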