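import Pool.Agent.V11110.AF2

open Filter Topology ComplexConjugate

noncomputable section

namespace Pool.Agent.V11110.AF

/-- The widths. -/
def de (k : ℕ) : ℝ := 1 / 2 ^ (2 ^ k)

theorem de_pos (k : ℕ) : 0 < de k := by unfold de; positivity

/-- The denominator of the bump. -/
def den (k : ℕ) (ζ z : ℂ) : ℂ := 1 + de k - conj ζ * z

/-- The bump. -/
def bump (k : ℕ) (ζ z : ℂ) : ℂ := de k / den k ζ z

theorem re_conj_mul_le {ζ z : ℂ} (hζ : ‖ζ‖ = 1) (hz : ‖z‖ ≤ 1) : (conj ζ * z).re ≤ 1 := by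
  refine (Complex.re_le_norm _).trans ?_
  rw [norm_mul, Complex.norm_conj, hζ, one_mul]
  exact hz

theorem den_re {k : ℕ} {ζ z : ℂ} (hζ : ‖ζ‖ = 1) (hz : ‖z‖ ≤ 1) : de k ≤ (den k ζ z).re := by
  unfold den
  rw [Complex.sub_re, Complex.add_re, Complex.one_re, Complex.ofReal_re]
  have := re_conj_mul_le hζ hz
  linarith

theorem one_sub_eq {ζ z : ℂ} (hζ : ‖ζ‖ = 1) : ‖1 - conj ζ * z‖ = ‖z - ζ‖ := by
  have h1 : conj ζ * ζ = 1 := by
    rw [mul_comm, Complex.mul_conj, Complex.normSq_eq_norm_sq, hζ]; norm_num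
  have h2 : 1 - conj ζ * z = conj ζ * (ζ - z) := by rw [mul_sub, h1]
  rw [h2, norm_mul, Complex.norm_conj, hζ, one_mul, norm_sub_rev]

theorem den_ge {k : ℕ} {ζ z : ℂ} (hζ : ‖ζ‖ = 1) (hz : ‖z‖ ≤ 1) : ‖z - ζ‖ ≤ ‖den k ζ z‖ := by
  rw [← one_sub_eq hζ]
  have h1 : ‖1 - conj ζ * z‖ ^ 2 ≤ ‖den k ζ z‖ ^ 2 := by
    rw [← Complex.normSq_eq_norm_sq, ← Complex.normSq_eq_norm_sq, Complex.normSq_apply,
      Complex.normSq_apply]
    unfold den
    have h2 := re_conj_mul_le hζ hz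
    have h3 := de_pos k
    simp only [Complex.sub_re, Complex.add_re, Complex.one_re, Complex.ofReal_re, Complex.sub_im,
      Complex.add_im, Complex.one_im, Complex.ofReal_im, add_zero]
    nlinarith
  exact (sq_le_sq₀ (norm_nonneg _) (norm_nonneg _)).mp h1

theorem den_ne {k : ℕ} {ζ z : ℂ} (hζ : ‖ζ‖ = 1) (hz : ‖z‖ ≤ 1) : den k ζ z ≠ 0 := by
  intro h
  have := den_re (k := k) hζ hz
  rw [h] at this
  have h3 := de_pos k
  simp at this
  linarith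

theorem norm_den_ge {k : ℕ} {ζ z : ℂ} (hζ : ‖ζ‖ = 1) (hz : ‖z‖ ≤ 1) : de k ≤ ‖den k ζ z‖ :=
  (den_re hζ hz).trans (Complex.re_le_norm _)

theorem norm_bump_le_one {k : ℕ} {ζ z : ℂ} (hζ : ‖ζ‖ = 1) (hz : ‖z‖ ≤ 1) : ‖bump k ζ z‖ ≤ 1 := by
  unfold bump
  rw [norm_div, Complex.norm_real, Real.norm_of_nonneg (de_pos k).le]
  exact div_le_one_of_le₀ (norm_den_ge hζ hz) (norm_nonneg _)

theorem norm_bump_le {k : ℕ} {ζ z : ℂ} (hζ : ‖ζ‖ = 1) (hz : ‖z‖ ≤ 1) {D : ℝ} (hD : 0 < D)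
    (h : D ≤ ‖z - ζ‖) : ‖bump k ζ z‖ ≤ de k / D := by
  unfold bump
  rw [norm_div, Complex.norm_real, Real.norm_of_nonneg (de_pos k).le]
  exact div_le_div_of_nonneg_left (de_pos k).le hD (h.trans (den_ge hζ hz))

theorem bump_re {k : ℕ} {ζ z : ℂ} :
    (bump k ζ z).re = de k * (den k ζ z).re / ‖den k ζ z‖ ^ 2 := by
  unfold bump
  rw [Complex.div_re, Complex.ofReal_re, Complex.ofReal_im, Complex.normSq_eq_norm_sq]
  ring

theorem bump_re_nonneg {k : ℕ} {ζ z : ℂ} (hζ : ‖ζ‖ = 1) (hz : ‖z‖ ≤ 1) : 0 ≤ (bump k ζ z).re := by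
  rw [bump_re]
  have h1 := de_pos k
  have h2 := den_re (k := k) hζ hz
  have h3 : 0 ≤ (den k ζ z).re := by linarith
  positivity

theorem bump_re_ge {k : ℕ} {ζ z : ℂ} (hζ : ‖ζ‖ = 1) (hz : ‖z‖ ≤ 1) (h : ‖z - ζ‖ ≤ 8 * de k) :
    1 / 81 ≤ (bump k ζ z).re := by
  rw [bump_re]
  have h1 := de_pos k
  have h2 := den_re (k := k) hζ hz
  have h3 : ‖den k ζ z‖ ≤ 9 * de k := by
    have : den k ζ z = (de k : ℂ) + (1 - conj ζ * z) := by unfold den; ring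
    rw [this]
    refine (norm_add_le _ _).trans ?_
    rw [one_sub_eq hζ, Complex.norm_real, Real.norm_of_nonneg h1.le]
    linarith
  have h4 := norm_den_ge (k := k) hζ hz
  have h6 : 0 < ‖den k ζ z‖ := lt_of_lt_of_le h1 h4
  rw [div_le_div_iff₀ (by norm_num) (by positivity)]
  have h5 : ‖den k ζ z‖ ^ 2 ≤ (9 * de k) ^ 2 := pow_le_pow_left₀ (norm_nonneg _) h3 2
  nlinarith

theorem bump_diff {k : ℕ} {ζ z : ℂ} (hζ : ‖ζ‖ = 1) (hz : ‖z‖ ≤ 1) :
    DifferentiableAt ℂ (bump k ζ) z := by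
  unfold bump
  refine DifferentiableAt.div (differentiableAt_const _) ?_ (den_ne hζ hz)
  unfold den
  fun_prop

/-- The centres of level `k`. -/
def idx (k : ℕ) : Finset (Σ _ : ℕ, ℕ) := (Finset.Icc 1 (k + 1)).sigma (fun n => Finset.range (2 ^ n))

/-- The block of level `k`. -/
def HH (k : ℕ) (z : ℂ) : ℂ := ∑ p ∈ idx k, bump k (-uu p.1 (p.2 : ℤ)) z

theorem card_idx (k : ℕ) : ((idx k).card : ℝ) ≤ 2 ^ (k + 2) := by
  have h1 : (idx k).card = ∑ n ∈ Finset.Icc 1 (k + 1), 2 ^ n := by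
    unfold idx
    rw [Finset.card_sigma]
    simp
  have h2 : ∑ n ∈ Finset.Icc 1 (k + 1), 2 ^ n ≤ 2 ^ (k + 2) := by
    have h3 : ∑ n ∈ Finset.range (k + 2), 2 ^ n = 2 ^ (k + 2) - 1 := Nat.geomSum_eq (by norm_num) _ |>.trans (by simp)
    calc ∑ n ∈ Finset.Icc 1 (k + 1), 2 ^ n ≤ ∑ n ∈ Finset.range (k + 2), 2 ^ n := by
          apply Finset.sum_le_sum_of_subset
          intro n hn
          rw [Finset.mem_Icc] at hn
          rw [Finset.mem_range]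
          omega
      _ ≤ 2 ^ (k + 2) := by rw [h3]; exact Nat.sub_le _ _
  rw [h1]
  exact_mod_cast h2

theorem norm_neg_uu (n : ℕ) (i : ℤ) : ‖-uu n i‖ = 1 := by rw [norm_neg, norm_uu]

theorem norm_HH_le {k : ℕ} {z : ℂ} (hz : ‖z‖ ≤ 1) : ‖HH k z‖ ≤ 2 ^ (k + 2) := by
  unfold HH
  refine (norm_sum_le _ _).trans ?_
  refine (Finset.sum_le_sum (fun p _ => norm_bump_le_one (norm_neg_uu _ _) hz)).trans ?_
  rw [Finset.sum_const, nsmul_eq_mul, mul_one]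
  exact card_idx k

theorem norm_HH_le' {k : ℕ} {z : ℂ} (hz : ‖z‖ ≤ 1) {D : ℝ} (hD : 0 < D)
    (h : ∀ p ∈ idx k, D ≤ ‖z + uu p.1 (p.2 : ℤ)‖) : ‖HH k z‖ ≤ 2 ^ (k + 2) * (de k / D) := by
  unfold HH
  refine (norm_sum_le _ _).trans ?_
  refine (Finset.sum_le_sum (fun p hp => norm_bump_le (norm_neg_uu _ _) hz hD
    (by rw [sub_neg_eq_add]; exact h p hp))).trans ?_
  rw [Finset.sum_const, nsmul_eq_mul]
  have := de_pos k
  exact mul_le_mul_of_nonneg_right (card_idx k) (by positivity)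

theorem HH_re_nonneg {k : ℕ} {z : ℂ} (hz : ‖z‖ ≤ 1) : 0 ≤ (HH k z).re := by
  unfold HH
  rw [Complex.re_sum]
  exact Finset.sum_nonneg (fun p _ => bump_re_nonneg (norm_neg_uu _ _) hz)

theorem HH_re_ge {k : ℕ} {z : ℂ} (hz : ‖z‖ ≤ 1) {p : Σ _ : ℕ, ℕ} (hp : p ∈ idx k)
    (h : ‖z + uu p.1 (p.2 : ℤ)‖ ≤ 8 * de k) : 1 / 81 ≤ (HH k z).re := by
  unfold HH
  rw [Complex.re_sum]
  refine (bump_re_ge (norm_neg_uu p.1 (p.2 : ℤ)) hz (by rw [sub_neg_eq_add]; exact h)).trans ?_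
  exact Finset.single_le_sum (f := fun p : (Σ _ : ℕ, ℕ) => (bump k (-uu p.1 (p.2 : ℤ)) z).re)
    (fun p _ => bump_re_nonneg (norm_neg_uu _ _) hz) hp

/-- Normalising the index. -/
theorem exists_idx {k n : ℕ} (h1 : 1 ≤ n) (h2 : n ≤ k + 1) (i : ℤ) :
    ∃ p ∈ idx k, uu p.1 (p.2 : ℤ) = uu n i := by
  have hper : Function.Periodic (uu n) (2 ^ n) := uu_period n
  refine ⟨⟨n, (i % 2 ^ n).toNat⟩, ?_, ?_⟩
  · unfold idx
    rw [Finset.mem_sigma, Finset.mem_Icc, Finset.mem_range]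
    refine ⟨⟨h1, h2⟩, ?_⟩
    have h3 : i % 2 ^ n < 2 ^ n := Int.emod_lt_of_pos _ (by positivity)
    have h4 : 0 ≤ i % 2 ^ n := Int.emod_nonneg _ (by positivity)
    have : ((i % 2 ^ n).toNat : ℤ) < ((2 ^ n : ℕ) : ℤ) := by
      rw [Int.toNat_of_nonneg h4]; push_cast; exact h3
    exact_mod_cast this
  · have h4 : 0 ≤ i % 2 ^ n := Int.emod_nonneg _ (by positivity)
    change uu n ((i % 2 ^ n).toNat : ℤ) = uu n i
    rw [Int.toNat_of_nonneg h4]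
    have h5 := hper.sub_zsmul_eq (i / 2 ^ n) (x := i)
    have h6 : i - (i / 2 ^ n) • (2 ^ n : ℤ) = i % 2 ^ n := by
      rw [smul_eq_mul, mul_comm]
      have := Int.emod_add_mul_ediv i (2 ^ n)
      linarith
    rw [← h5, h6]

/-- Partial sums. -/
def SS (m : ℕ) (z : ℂ) : ℂ := ∑ k ∈ Finset.range m, HH k z

/-- The approximating weights. -/
def Wm (m : ℕ) (z : ℂ) : ℂ := 1 / (1 + SS m z)

theorem SS_re_nonneg {m : ℕ} {z : ℂ} (hz : ‖z‖ ≤ 1) : 0 ≤ (SS m z).re := by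
  unfold SS
  rw [Complex.re_sum]
  exact Finset.sum_nonneg (fun p _ => HH_re_nonneg hz)

theorem one_le_norm {m : ℕ} {z : ℂ} (hz : ‖z‖ ≤ 1) : 1 ≤ ‖1 + SS m z‖ := by
  have h1 := Complex.re_le_norm (1 + SS m z)
  rw [Complex.add_re, Complex.one_re] at h1
  have := SS_re_nonneg (m := m) hz
  linarith

theorem Wm_diff {m : ℕ} {z : ℂ} (hz : ‖z‖ ≤ 1) : DifferentiableAt ℂ (Wm m) z := by
  unfold Wm
  refine DifferentiableAt.div (differentiableAt_const _) ?_ ?_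
  · refine DifferentiableAt.add (differentiableAt_const _) ?_
    unfold SS
    refine DifferentiableAt.fun_sum (fun k _ => ?_)
    unfold HH
    exact DifferentiableAt.fun_sum (fun p _ => bump_diff (norm_neg_uu _ _) hz)
  · intro h
    have := one_le_norm (m := m) hz
    rw [h, norm_zero] at this
    linarith

theorem Wm_le {m K : ℕ} {z : ℂ} (hz : ‖z‖ ≤ 1) (hK : K ≤ m)
    (h : ∀ k < K, 1 / 81 ≤ (HH k z).re) : ‖Wm m z‖ ≤ 81 / (K + 1) := by
  have h1 : (K : ℝ) / 81 ≤ (SS m z).re := by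
    unfold SS
    rw [Complex.re_sum]
    calc (K : ℝ) / 81 = ∑ k ∈ Finset.range K, (1 / 81 : ℝ) := by
          rw [Finset.sum_const, Finset.card_range, nsmul_eq_mul]; ring
      _ ≤ ∑ k ∈ Finset.range K, (HH k z).re :=
          Finset.sum_le_sum (fun k hk => h k (Finset.mem_range.mp hk))
      _ ≤ ∑ k ∈ Finset.range m, (HH k z).re :=
          Finset.sum_le_sum_of_subset_of_nonneg
            (fun k hk => Finset.mem_range.mpr ((Finset.mem_range.mp hk).trans_le hK))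
            (fun k _ _ => HH_re_nonneg hz)
  have h2 := Complex.re_le_norm (1 + SS m z)
  rw [Complex.add_re, Complex.one_re] at h2
  unfold Wm
  rw [norm_div, norm_one, div_le_div_iff₀ (by linarith [one_le_norm (m := m) hz]) (by positivity)]
  nlinarith

theorem Wm_sub {m m₀ : ℕ} {z : ℂ} (hz : ‖z‖ ≤ 1) :
    ‖Wm m z - Wm m₀ z‖ ≤ ‖SS m z - SS m₀ z‖ := by
  have h1 := one_le_norm (m := m) hz
  have h2 := one_le_norm (m := m₀) hz
  have n1 : (1 + SS m z) ≠ 0 := by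
    intro h; rw [h, norm_zero] at h1; linarith
  have n2 : (1 + SS m₀ z) ≠ 0 := by
    intro h; rw [h, norm_zero] at h2; linarith
  have e : Wm m z - Wm m₀ z = (SS m₀ z - SS m z) / ((1 + SS m z) * (1 + SS m₀ z)) := by
    unfold Wm
    field_simp
    ring
  rw [e, norm_div, norm_mul, norm_sub_rev]
  refine div_le_self (norm_nonneg _) ?_
  nlinarith

end Pool.Agent.V11110.AF
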