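import Pool.Agent.V11110.AF3

open Filter Topology ComplexConjugate

noncomputable section

namespace Pool.Agent.V11110.AF

theorem num_a (j : ℕ) : 2 * (j + 4) + 3 + 2 ^ (j + 2) ≤ 2 ^ (j + 4) := by
  have h1 : j + 1 ≤ 2 ^ j := Nat.lt_two_pow_self
  have h2 : 2 ^ (j + 2) = 4 * 2 ^ j := by rw [pow_add]; ring
  have h3 : 2 ^ (j + 4) = 16 * 2 ^ j := by rw [pow_add]; ring
  omega

theorem num_b (j : ℕ) : 2 * (j + 5) + 2 + 2 ^ (j + 4) ≤ 2 ^ (j + 5) := by
  have h1 : j + 1 ≤ 2 ^ j := Nat.lt_two_pow_self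
  have h2 : 2 ^ (j + 4) = 16 * 2 ^ j := by rw [pow_add]; ring
  have h3 : 2 ^ (j + 5) = 32 * 2 ^ j := by rw [pow_add]; ring
  omega

theorem num1 {k v : ℕ} (h : v + 4 ≤ k) :
    (2 : ℝ) ^ (k + 2) * (de k / (1 / 2 / 2 ^ (2 ^ (v + 2)))) ≤ 1 / 2 ^ k := by
  have h1 : k + (k + 3 + 2 ^ (v + 2)) ≤ 2 ^ k := by
    obtain ⟨j, rfl⟩ : ∃ j, k = j + 4 := ⟨k - 4, by omega⟩
    have h2 := num_a j
    have h3 : 2 ^ (v + 2) ≤ 2 ^ (j + 2) := Nat.pow_le_pow_right (by norm_num) (by omega)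
    omega
  have h2 : (2 : ℝ) ^ k * 2 ^ (k + 3 + 2 ^ (v + 2)) ≤ 2 ^ (2 ^ k) := by
    rw [← pow_add]
    exact pow_le_pow_right₀ (by norm_num) h1
  have h3 : (2 : ℝ) ^ (k + 2) * (de k / (1 / 2 / 2 ^ (2 ^ (v + 2))))
      = 2 ^ (k + 3 + 2 ^ (v + 2)) / 2 ^ (2 ^ k) := by
    unfold de
    rw [pow_add 2 (k + 3), pow_succ 2 (k + 2)]
    field_simp
  rw [h3, div_le_div_iff₀ (by positivity) (by positivity)]
  linarith

theorem num2 {k k' : ℕ} (h : k' + 1 ≤ k) (h5 : 5 ≤ k) : (2 : ℝ) ^ (2 * k + 2) * de k ≤ de k' := by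
  have h1 : 2 * k + 2 + 2 ^ k' ≤ 2 ^ k := by
    obtain ⟨j, rfl⟩ : ∃ j, k = j + 5 := ⟨k - 5, by omega⟩
    have h2 := num_b j
    have h3 : 2 ^ k' ≤ 2 ^ (j + 4) := Nat.pow_le_pow_right (by norm_num) (by omega)
    omega
  have h2 : (2 : ℝ) ^ (2 * k + 2) * 2 ^ (2 ^ k') ≤ 2 ^ (2 ^ k) := by
    rw [← pow_add]
    exact pow_le_pow_right₀ (by norm_num) h1
  unfold de
  rw [mul_one_div, div_le_div_iff₀ (by positivity) (by positivity)]
  linarith

theorem caseB {K k : ℕ} {z : ℂ} (hz : ‖z‖ ≤ 1) (hK : K ≤ k) (h5 : 5 ≤ k)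
    (hbig : 1 / 2 ^ k < ‖HH k z‖) : ∀ k' < K, 1 / 81 ≤ (HH k' z).re := by
  have hp : ∃ p ∈ idx k, ‖z + uu p.1 (p.2 : ℤ)‖ < 2 ^ (2 * k + 2) * de k := by
    by_contra hcon
    push Not at hcon
    have hpos := de_pos k
    have h1 := norm_HH_le' hz (by positivity : (0 : ℝ) < 2 ^ (2 * k + 2) * de k) hcon
    have h2 : (2 : ℝ) ^ (k + 2) * (de k / (2 ^ (2 * k + 2) * de k)) = 1 / 2 ^ k := by
      have : (2 : ℝ) ^ (2 * k + 2) = 2 ^ (k + 2) * 2 ^ k := by rw [← pow_add]; congr 1; omega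
      rw [this]
      field_simp
    rw [h2] at h1
    linarith
  obtain ⟨p, hp, hzp⟩ := hp
  intro k' hk'
  have hnum := num2 (k := k) (k' := k') (by omega) h5
  have hpos := de_pos k'
  have hpn : 1 ≤ p.1 := by
    unfold idx at hp
    rw [Finset.mem_sigma, Finset.mem_Icc] at hp
    exact hp.1.1
  rcases le_or_gt p.1 (k' + 1) with h | h
  · obtain ⟨p', hp', he⟩ := exists_idx hpn h (p.2 : ℤ)
    refine HH_re_ge hz hp' ?_
    rw [he]
    linarith
  · obtain ⟨i', hi'⟩ := approx (n := p.1) (q := k') (by omega) (p.2 : ℤ)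
    obtain ⟨p', hp', he⟩ := exists_idx (k := k') (n := k' + 1) (by omega) le_rfl i'
    refine HH_re_ge hz hp' ?_
    rw [he]
    have h1 : z + uu (k' + 1) i' = (z + uu p.1 (p.2 : ℤ)) - (uu p.1 (p.2 : ℤ) - uu (k' + 1) i') := by
      ring
    rw [h1]
    refine (norm_sub_le _ _).trans ?_
    have h2 : (7 : ℝ) / 2 ^ (2 ^ k') = 7 * de k' := by unfold de; ring
    rw [h2] at hi'
    linarith

theorem sum_half (m₀ n : ℕ) : ∑ k ∈ Finset.range n, (1 : ℝ) / 2 ^ (m₀ + k) ≤ 2 / 2 ^ m₀ := by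
  have h1 : ∀ n : ℕ, ∑ k ∈ Finset.range n, (1 : ℝ) / 2 ^ (m₀ + k) = 2 / 2 ^ m₀ - 2 / 2 ^ (m₀ + n) := by
    intro n
    induction n with
    | zero => simp
    | succ n ih =>
      rw [Finset.sum_range_succ, ih, ← add_assoc, pow_succ]
      field_simp
      ring
  rw [h1 n]
  have : (0 : ℝ) ≤ 2 / 2 ^ (m₀ + n) := by positivity
  linarith

theorem Wm_cauchy_step {K m₀ : ℕ} (hK : K ≤ m₀) (h5 : 5 ≤ m₀) {m : ℕ} (hm : m₀ ≤ m) {z : ℂ}
    (hz : ‖z‖ ≤ 1) : ‖Wm m z - Wm m₀ z‖ ≤ 162 / (K + 1) + 2 / 2 ^ m₀ := by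
  by_cases hA : ∀ k, m₀ ≤ k → ‖HH k z‖ ≤ 1 / 2 ^ k
  · have h1 : ‖SS m z - SS m₀ z‖ ≤ 2 / 2 ^ m₀ := by
      obtain ⟨n, rfl⟩ := Nat.exists_eq_add_of_le hm
      have h2 : SS (m₀ + n) z - SS m₀ z = ∑ k ∈ Finset.range n, HH (m₀ + k) z := by
        unfold SS
        rw [Finset.sum_range_add, add_sub_cancel_left]
      rw [h2]
      refine (norm_sum_le _ _).trans ((Finset.sum_le_sum (fun k _ => hA (m₀ + k) (by omega))).trans ?_)
      exact sum_half m₀ n
    have h2 : (0 : ℝ) ≤ 162 / (K + 1) := by positivity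
    exact (Wm_sub hz).trans (by linarith)
  · push Not at hA
    obtain ⟨k, hk, hbig⟩ := hA
    have h1 := caseB (K := K) hz (by omega) (by omega) hbig
    have h2 := Wm_le (m := m) hz (by omega) h1
    have h3 := Wm_le (m := m₀) hz hK h1
    have h4 : (0 : ℝ) ≤ 2 / 2 ^ m₀ := by positivity
    refine (norm_sub_le _ _).trans ?_
    have h5 : (162 : ℝ) / (K + 1) = 81 / (K + 1) + 81 / (K + 1) := by ring
    linarith

theorem Wm_cauchy : UniformCauchySeqOn Wm atTop (Metric.closedBall (0 : ℂ) 1) := by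
  rw [Metric.uniformCauchySeqOn_iff]
  intro ε hε
  obtain ⟨K, hK⟩ := exists_nat_gt (162 * 8 / ε)
  obtain ⟨M, hM⟩ := exists_pow_lt_of_lt_one (show 0 < ε / 8 by positivity)
    (show (1 / 2 : ℝ) < 1 by norm_num)
  set m₀ := K + M + 5 with hm₀
  have key : ∀ m ≥ m₀, ∀ z ∈ Metric.closedBall (0 : ℂ) 1, ‖Wm m z - Wm m₀ z‖ < ε / 2 := by
    intro m hm z hz
    have hz' : ‖z‖ ≤ 1 := by simpa using hz
    have h1 := Wm_cauchy_step (K := K) (m₀ := m₀) (by omega) (by omega) hm hz'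
    have h2 : (162 : ℝ) / (K + 1) < ε / 8 := by
      rw [div_lt_iff₀ (by positivity)]
      rw [div_lt_iff₀ hε] at hK
      nlinarith
    have h3 : (2 : ℝ) / 2 ^ m₀ ≤ 2 * (1 / 2) ^ M := by
      have h4 : (1 / 2 : ℝ) ^ M = 1 / 2 ^ M := by rw [div_pow, one_pow]
      rw [h4, mul_one_div]
      exact div_le_div_of_nonneg_left (by norm_num) (by positivity)
        (pow_le_pow_right₀ (by norm_num) (by omega))
    linarith
  refine ⟨m₀, fun m hm n hn z hz => ?_⟩
  rw [dist_eq_norm]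
  have h1 := key m hm z hz
  have h2 := key n hn z hz
  have h3 : Wm m z - Wm n z = (Wm m z - Wm m₀ z) - (Wm n z - Wm m₀ z) := by ring
  rw [h3]
  exact (norm_sub_le _ _).trans_lt (by linarith)

theorem exists_W : ∃ W : ℂ → ℂ, TendstoUniformlyOn Wm W atTop (Metric.closedBall (0 : ℂ) 1) := by
  classical
  have h1 : ∀ z ∈ Metric.closedBall (0 : ℂ) 1, ∃ a, Tendsto (fun m => Wm m z) atTop (𝓝 a) :=
    fun z hz => cauchySeq_tendsto_of_complete (Wm_cauchy.cauchySeq hz)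
  choose! W hW using h1
  exact ⟨W, Wm_cauchy.tendstoUniformlyOn_of_tendsto hW⟩

/-- The weight. -/
def WW : ℂ → ℂ := Classical.choose exists_W

theorem WW_lim : TendstoUniformlyOn Wm WW atTop (Metric.closedBall (0 : ℂ) 1) :=
  Classical.choose_spec exists_W

theorem WW_tendsto {z : ℂ} (hz : ‖z‖ ≤ 1) : Tendsto (fun m => Wm m z) atTop (𝓝 (WW z)) :=
  WW_lim.tendsto_at (by simpa using hz)

theorem WW_cont : ContinuousOn WW (Metric.closedBall (0 : ℂ) 1) := by
  refine WW_lim.continuousOn (Frequently.of_forall (fun m z hz => ?_))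
  exact (Wm_diff (by simpa using hz)).continuousAt.continuousWithinAt

theorem WW_diff : DifferentiableOn ℂ WW (Metric.ball (0 : ℂ) 1) := by
  have h1 : TendstoLocallyUniformlyOn Wm WW atTop (Metric.ball (0 : ℂ) 1) :=
    (WW_lim.mono Metric.ball_subset_closedBall).tendstoLocallyUniformlyOn
  refine h1.differentiableOn (Eventually.of_forall (fun m z hz => ?_)) Metric.isOpen_ball
  have : ‖z‖ ≤ 1 := by
    have := Metric.ball_subset_closedBall hz
    simpa using this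
  exact (Wm_diff this).differentiableWithinAt

theorem WW_le {z : ℂ} (hz : ‖z‖ ≤ 1) : ‖WW z‖ ≤ 1 := by
  refine le_of_tendsto (WW_tendsto hz).norm (Eventually.of_forall (fun m => ?_))
  unfold Wm
  rw [norm_div, norm_one]
  have := one_le_norm (m := m) hz
  exact div_le_one_of_le₀ this (norm_nonneg _)

theorem WW_zero {n : ℕ} (hn : 1 ≤ n) (i : ℤ) : WW (-uu n i) = 0 := by
  have hz : ‖-uu n i‖ ≤ 1 := (norm_neg_uu n i).le
  have h1 : ∀ m, ‖Wm (n + m) (-uu n i)‖ ≤ 81 / (m + 1) := by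
    intro m
    have h2 : (m : ℝ) / 81 ≤ (SS (n + m) (-uu n i)).re := by
      unfold SS
      rw [Complex.re_sum, Finset.sum_range_add]
      have h3 : (0 : ℝ) ≤ ∑ k ∈ Finset.range n, (HH k (-uu n i)).re :=
        Finset.sum_nonneg (fun k _ => HH_re_nonneg hz)
      have h4 : (m : ℝ) / 81 ≤ ∑ k ∈ Finset.range m, (HH (n + k) (-uu n i)).re := by
        calc (m : ℝ) / 81 = ∑ k ∈ Finset.range m, (1 / 81 : ℝ) := by
              rw [Finset.sum_const, Finset.card_range, nsmul_eq_mul]; ring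
          _ ≤ _ := Finset.sum_le_sum (fun k _ => by
              obtain ⟨p', hp', he⟩ := exists_idx (k := n + k) hn (by omega) i
              refine HH_re_ge hz hp' ?_
              rw [he, neg_add_cancel, norm_zero]
              have := de_pos (n + k)
              positivity)
      linarith
    have h3 := Complex.re_le_norm (1 + SS (n + m) (-uu n i))
    rw [Complex.add_re, Complex.one_re] at h3
    unfold Wm
    rw [norm_div, norm_one, div_le_div_iff₀ (by linarith [one_le_norm (m := n + m) hz])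
      (by positivity)]
    nlinarith
  have h2 : Tendsto (fun m => Wm (n + m) (-uu n i)) atTop (𝓝 0) := by
    refine squeeze_zero_norm h1 ?_
    have := (tendsto_one_div_add_atTop_nhds_zero_nat (𝕜 := ℝ)).const_mul 81
    simpa [div_eq_mul_inv] using this
  have h3 : Tendsto (fun m => Wm (n + m) (-uu n i)) atTop (𝓝 (WW (-uu n i))) := by
    have := (tendsto_add_atTop_iff_nat (f := fun m => Wm m (-uu n i)) n).mpr (WW_tendsto hz)
    simpa [add_comm] using this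
  exact tendsto_nhds_unique h3 h2

theorem SS_bound {m : ℕ} (hm : 1 ≤ m) (j : ℤ) (M : ℕ) :
    ‖SS M (uu m j)‖ ≤ 2 ^ (lev m j + 6) + 2 := by
  have hz : ‖uu m j‖ ≤ 1 := (norm_uu m j).le
  set v := lev m j with hv
  have h1 : ∀ k, ‖HH k (uu m j)‖ ≤ (if k < v + 4 then (2 : ℝ) ^ (k + 2) else 0) + 1 / 2 ^ (0 + k) := by
    intro k
    split_ifs with h
    · have h2 := norm_HH_le (k := k) hz
      have : (0 : ℝ) ≤ 1 / 2 ^ (0 + k) := by positivity
      linarith
    · rw [zero_add, zero_add]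
      refine (norm_HH_le' hz (D := 1 / 2 / 2 ^ (2 ^ (v + 2))) (by positivity) (fun p hp => ?_)).trans
        (num1 (by omega))
      have hpn : 1 ≤ p.1 := by
        unfold idx at hp
        rw [Finset.mem_sigma, Finset.mem_Icc] at hp
        exact hp.1.1
      exact sep hm hpn _ _
  unfold SS
  refine (norm_sum_le _ _).trans ((Finset.sum_le_sum (fun k _ => h1 k)).trans ?_)
  rw [Finset.sum_add_distrib]
  have h2 : ∑ k ∈ Finset.range M, (if k < v + 4 then (2 : ℝ) ^ (k + 2) else 0)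
      ≤ 2 ^ (v + 6) := by
    have h3 : ∑ k ∈ Finset.range M, (if k < v + 4 then (2 : ℝ) ^ (k + 2) else 0)
        ≤ ∑ k ∈ Finset.range (v + 4), (2 : ℝ) ^ (k + 2) := by
      rw [← Finset.sum_filter]
      apply Finset.sum_le_sum_of_subset_of_nonneg
      · intro k hk
        rw [Finset.mem_filter] at hk
        exact Finset.mem_range.mpr hk.2
      · intro k _ _; positivity
    refine h3.trans ?_
    have h4 : ∀ n : ℕ, ∑ k ∈ Finset.range n, (2 : ℝ) ^ (k + 2) = 2 ^ (n + 2) - 4 := by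
      intro n
      induction n with
      | zero => norm_num
      | succ n ih => rw [Finset.sum_range_succ, ih]; ring
    rw [h4]
    have : v + 4 + 2 = v + 6 := by omega
    rw [this]
    linarith
  have h3 := sum_half 0 M
  rw [pow_zero, div_one] at h3
  linarith

theorem WW_ge {m : ℕ} (hm : 1 ≤ m) (j : ℤ) : 1 / 2 ^ (lev m j + 7) ≤ ‖WW (uu m j)‖ := by
  have hz : ‖uu m j‖ ≤ 1 := (norm_uu m j).le
  refine ge_of_tendsto (WW_tendsto hz).norm (Eventually.of_forall (fun M => ?_))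
  unfold Wm
  have h1 := SS_bound hm j M
  have h2 := one_le_norm (m := M) hz
  rw [norm_div, norm_one]
  refine div_le_div_of_nonneg_left (by norm_num) (by linarith) ?_
  refine (norm_add_le _ _).trans ?_
  rw [norm_one]
  have h3 : (2 : ℝ) ^ (lev m j + 7) = 2 ^ (lev m j + 6) * 2 := pow_succ _ _
  have h4 : (1 : ℝ) ≤ 2 ^ (lev m j) := one_le_pow₀ (by norm_num)
  have h5 : (2 : ℝ) ^ (lev m j + 6) = 2 ^ (lev m j) * 64 := by rw [pow_add]; norm_num
  linarith

end Pool.Agent.V11110.AF
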