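import Mathlib

open Filter Topology ComplexConjugate

noncomputable section

namespace Pool.Agent.V11110.AF

/-- Membership in the disc algebra. -/
def InA (f : ℂ → ℂ) : Prop :=
  ContinuousOn f (Metric.closedBall 0 1) ∧ DifferentiableOn ℂ f (Metric.ball 0 1)

/-- The supremum norm over the closed disc. -/
def supN (f : ℂ → ℂ) : ℝ := ⨆ z : Metric.closedBall (0 : ℂ) 1, ‖f z‖

theorem supN_bdd {f : ℂ → ℂ} (hf : ContinuousOn f (Metric.closedBall 0 1)) :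
    BddAbove (Set.range (fun z : Metric.closedBall (0 : ℂ) 1 => ‖f z‖)) := by
  have h1 := (isCompact_closedBall (0 : ℂ) 1).bddAbove_image hf.norm
  have h2 : Set.range (fun z : Metric.closedBall (0 : ℂ) 1 => ‖f z‖)
      = (fun z => ‖f z‖) '' (Metric.closedBall (0 : ℂ) 1) := by
    ext x
    constructor
    · rintro ⟨z, rfl⟩; exact ⟨z, z.2, rfl⟩
    · rintro ⟨z, hz, rfl⟩; exact ⟨⟨z, hz⟩, rfl⟩
  rw [h2]
  exact h1

theorem supN_ge {f : ℂ → ℂ} (hf : ContinuousOn f (Metric.closedBall 0 1)) {z : ℂ} (hz : ‖z‖ ≤ 1) :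
    ‖f z‖ ≤ supN f :=
  le_ciSup (supN_bdd hf) (⟨z, by simpa using hz⟩ : Metric.closedBall (0 : ℂ) 1)

theorem supN_le {f : ℂ → ℂ} {C : ℝ} (h : ∀ z : ℂ, ‖z‖ ≤ 1 → ‖f z‖ ≤ C) : supN f ≤ C := by
  haveI : Nonempty (Metric.closedBall (0 : ℂ) 1) := ⟨⟨0, by simp⟩⟩
  exact ciSup_le (fun z => h z (mem_closedBall_zero_iff.mp z.2))

theorem InA.const (c : ℂ) : InA (fun _ => c) := ⟨continuousOn_const, differentiableOn_const _⟩

theorem InA.mul {f g : ℂ → ℂ} (hf : InA f) (hg : InA g) : InA (fun z => f z * g z) :=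
  ⟨hf.1.mul hg.1, hf.2.mul hg.2⟩

theorem InA.sub {f g : ℂ → ℂ} (hf : InA f) (hg : InA g) : InA (fun z => f z - g z) :=
  ⟨hf.1.sub hg.1, hf.2.sub hg.2⟩

theorem InA.sum {ι : Type*} (s : Finset ι) {f : ι → ℂ → ℂ} (hf : ∀ i, InA (f i)) :
    InA (fun z => ∑ i ∈ s, f i z) :=
  ⟨continuousOn_finset_sum s (fun i _ => (hf i).1), DifferentiableOn.fun_sum (fun i _ => (hf i).2)⟩

theorem InA.prod {ι : Type*} (s : Finset ι) {f : ι → ℂ → ℂ} (hf : ∀ i, InA (f i)) :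
    InA (fun z => ∏ i ∈ s, f i z) := by
  classical
  induction s using Finset.induction_on with
  | empty => simpa using InA.const 1
  | insert a s ha ih =>
    have := (hf a).mul ih
    refine (by simpa [Finset.prod_insert ha] using this)

theorem InA.pow {f : ℂ → ℂ} (hf : InA f) (n : ℕ) : InA (fun z => f z ^ n) :=
  ⟨hf.1.pow n, hf.2.pow n⟩

theorem InA.of_poly {f : ℂ → ℂ} (hf : Differentiable ℂ f) : InA f :=
  ⟨hf.continuous.continuousOn, hf.differentiableOn⟩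

theorem InA.comp_pow {f : ℂ → ℂ} (hf : InA f) {k : ℕ} (hk : k ≠ 0) : InA (fun z => f (z ^ k)) := by
  constructor
  · refine hf.1.comp (by fun_prop) (fun z hz => ?_)
    have : ‖z‖ ≤ 1 := by simpa using hz
    simpa using pow_le_one₀ (norm_nonneg z) this
  · refine hf.2.comp (by fun_prop) (fun z hz => ?_)
    have : ‖z‖ < 1 := by simpa using hz
    simpa using pow_lt_one₀ (norm_nonneg z) this hk

/-- The cocycle product. -/
def PP (w : ℂ → ℂ) (j : ℕ) (z : ℂ) : ℂ := ∏ i ∈ Finset.range j, w (z ^ (2 ^ i))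

theorem PP_succ (w : ℂ → ℂ) (j : ℕ) (z : ℂ) : PP w (j + 1) z = w z * PP w j (z ^ 2) := by
  unfold PP
  rw [Finset.prod_range_succ', mul_comm]
  congr 1
  · simp
  · refine Finset.prod_congr rfl (fun i _ => ?_)
    rw [← pow_mul, pow_succ, mul_comm]

theorem PP_inA {w : ℂ → ℂ} (hw : InA w) (j : ℕ) : InA (PP w j) :=
  InA.prod _ (fun i => hw.comp_pow (by positivity))

/-- The basic functions. -/
def hh (w : ℂ → ℂ) (l t : ℂ) (N j : ℕ) (z : ℂ) : ℂ :=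
  (l ^ j)⁻¹ * PP w j z * ((1 + conj t * z ^ (2 ^ j)) / 2) ^ N

theorem hh_inA {w : ℂ → ℂ} (hw : InA w) (l t : ℂ) (N j : ℕ) : InA (hh w l t N j) := by
  refine ((InA.const _).mul (PP_inA hw j)).mul (InA.pow (InA.of_poly ?_) N)
  fun_prop

theorem hh_step {w : ℂ → ℂ} {l t : ℂ} (hl : l ≠ 0) (N j : ℕ) (z : ℂ) :
    w z * hh w l t N j (z ^ 2) = l * hh w l t N (j + 1) z := by
  unfold hh
  rw [PP_succ, ← pow_mul]
  have : 2 * 2 ^ j = 2 ^ (j + 1) := by rw [pow_succ, mul_comm]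
  rw [this]
  field_simp
  ring

/-- The approximate eigenvector. -/
def FF (w : ℂ → ℂ) (l t : ℂ) (N K : ℕ) (z : ℂ) : ℂ :=
  ∑ a ∈ Finset.range (K + 1), ∑ b ∈ Finset.range (K + 1), hh w l t N (a + b) z

theorem FF_inA {w : ℂ → ℂ} (hw : InA w) (l t : ℂ) (N K : ℕ) : InA (FF w l t N K) :=
  InA.sum _ (fun a => InA.sum _ (fun b => hh_inA hw l t N (a + b)))

theorem FF_step {w : ℂ → ℂ} {l t : ℂ} (hl : l ≠ 0) (N K : ℕ) (z : ℂ) :
    w z * FF w l t N K (z ^ 2) - l * FF w l t N K z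
      = l * ∑ a ∈ Finset.range (K + 1), (hh w l t N (a + (K + 1)) z - hh w l t N a z) := by
  unfold FF
  rw [Finset.mul_sum, Finset.mul_sum, Finset.mul_sum, ← Finset.sum_sub_distrib]
  refine Finset.sum_congr rfl (fun a _ => ?_)
  rw [Finset.mul_sum, Finset.mul_sum, ← Finset.sum_sub_distrib]
  have h1 : ∀ b, w z * hh w l t N (a + b) (z ^ 2) - l * hh w l t N (a + b) z
      = l * (hh w l t N (a + (b + 1)) z - hh w l t N (a + b) z) := by
    intro b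
    rw [hh_step hl, mul_sub, add_assoc]
  simp only [h1]
  rw [← Finset.mul_sum, Finset.sum_range_sub (fun b => hh w l t N (a + b) z), add_zero]

theorem norm_half_le {u : ℂ} (hu : ‖u‖ ≤ 1) : ‖(1 + u) / 2‖ ≤ (1 + ‖u‖) / 2 := by
  rw [norm_div]
  have h2 : ‖(2 : ℂ)‖ = 2 := by norm_num
  rw [h2]
  have := norm_add_le 1 u
  rw [norm_one] at this
  linarith

theorem norm_half_lt {u : ℂ} (hu : ‖u‖ ≤ 1) (hne : u ≠ 1) : ‖(1 + u) / 2‖ < 1 := by
  have h1 : u.re < 1 := by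
    have h2 : u.re ≤ ‖u‖ := Complex.re_le_norm u
    rcases (h2.trans hu).lt_or_eq with h | h
    · exact h
    · exfalso
      apply hne
      have h3 : u.re ^ 2 + u.im ^ 2 ≤ 1 := by
        have h4 : ‖u‖ ^ 2 = u.re ^ 2 + u.im ^ 2 := by
          rw [← Complex.normSq_eq_norm_sq, Complex.normSq_apply]; ring
        rw [← h4]
        have := norm_nonneg u
        nlinarith
      have h5 : u.im = 0 := by
        rw [h] at h3
        nlinarith [sq_nonneg u.im]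
      exact Complex.ext h h5
  have h2 : ‖(1 + u) / 2‖ ^ 2 < 1 := by
    rw [norm_div, div_pow, ← Complex.normSq_eq_norm_sq, Complex.normSq_apply]
    have h4 : ‖u‖ ^ 2 = u.re ^ 2 + u.im ^ 2 := by
      rw [← Complex.normSq_eq_norm_sq, Complex.normSq_apply]; ring
    have h5 : ‖u‖ ^ 2 ≤ 1 := by
      have := norm_nonneg u
      nlinarith
    have h6 : ‖(2 : ℂ)‖ = 2 := by norm_num
    rw [h6]
    simp only [Complex.add_re, Complex.one_re, Complex.add_im, Complex.one_im, zero_add]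
    nlinarith
  have := norm_nonneg ((1 + u) / 2)
  nlinarith

theorem PP_bound {w : ℂ → ℂ} (hw : InA w) (j : ℕ) : ∃ B : ℝ, 0 < B ∧ ∀ z : ℂ, ‖z‖ ≤ 1 →
    ‖PP w j z‖ ≤ B := by
  refine ⟨supN (PP w j) + 1, ?_, fun z hz => ?_⟩
  · have h1 := supN_ge (PP_inA hw j).1 (z := 0) (by simp)
    have := norm_nonneg (PP w j 0)
    linarith
  · have := supN_ge (PP_inA hw j).1 hz
    linarith

theorem norm_conj_mul_pow {t z : ℂ} (ht : ‖t‖ = 1) (hz : ‖z‖ ≤ 1) (k : ℕ) :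
    ‖conj t * z ^ k‖ ≤ 1 := by
  rw [norm_mul, Complex.norm_conj, ht, one_mul, norm_pow]
  exact pow_le_one₀ (norm_nonneg _) hz

theorem conj_mul_eq_one {t u : ℂ} (ht : ‖t‖ = 1) : conj t * u = 1 ↔ u = t := by
  have h1 : conj t * t = 1 := by
    rw [mul_comm, Complex.mul_conj, Complex.normSq_eq_norm_sq, ht]; norm_num
  constructor
  · intro h
    have h2 : t * (conj t * u) = t := by rw [h, mul_one]
    rwa [← mul_assoc, mul_comm t, h1, one_mul] at h2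
  · rintro rfl; exact h1

theorem norm_hh (w : ℂ → ℂ) (l t : ℂ) (N j : ℕ) (z : ℂ) : ‖hh w l t N j z‖
    = (‖l‖ ^ j)⁻¹ * ‖PP w j z‖ * ‖(1 + conj t * z ^ (2 ^ j)) / 2‖ ^ N := by
  unfold hh
  rw [norm_mul, norm_mul, norm_inv, norm_pow, norm_pow]

/-- The local bound. -/
theorem local_bound {w : ℂ → ℂ} (hw : InA w) {l t : ℂ} (hl : l ≠ 0) (ht : ‖t‖ = 1) {C : ℝ}
    (j : ℕ) {z₁ : ℂ} (hz₁ : ‖z₁‖ = 1)
    (hC : z₁ ^ (2 ^ j) = t → ‖PP w j z₁‖ ≤ C * ‖l‖ ^ j) (δ : ℝ) (hδ : 0 < δ) :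
    ∃ S ∈ 𝓝[Metric.sphere (0 : ℂ) 1] z₁, ∀ᶠ N in atTop, ∀ z ∈ S, ‖z‖ = 1 →
      ‖hh w l t N j z‖ ≤ (if z₁ ^ (2 ^ j) = t then C + 1 else 0) + δ := by
  have hlpos : 0 < ‖l‖ := norm_pos_iff.mpr hl
  have hsub : Metric.sphere (0 : ℂ) 1 ⊆ Metric.closedBall (0 : ℂ) 1 := Metric.sphere_subset_closedBall
  by_cases h : z₁ ^ (2 ^ j) = t
  · have hcont : ContinuousWithinAt (fun z => (‖l‖ ^ j)⁻¹ * ‖PP w j z‖)
        (Metric.sphere (0 : ℂ) 1) z₁ := by
      refine ContinuousWithinAt.mul continuousWithinAt_const ?_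
      exact (((PP_inA hw j).1.mono hsub) z₁ (by simpa using hz₁)).norm
    have hval : (‖l‖ ^ j)⁻¹ * ‖PP w j z₁‖ < C + 1 := by
      have h1 := hC h
      have : (‖l‖ ^ j)⁻¹ * ‖PP w j z₁‖ ≤ C := by
        rw [inv_mul_le_iff₀ (by positivity), mul_comm]
        exact h1
      linarith
    refine ⟨{z | (‖l‖ ^ j)⁻¹ * ‖PP w j z‖ < C + 1}, hcont.eventually (gt_mem_nhds hval) , ?_⟩
    refine Eventually.of_forall (fun N z hz hz1 => ?_)
    rw [if_pos h, norm_hh]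
    have h3 : ‖(1 + conj t * z ^ (2 ^ j)) / 2‖ ≤ 1 := by
      have h4 := norm_conj_mul_pow ht hz1.le (2 ^ j)
      exact (norm_half_le h4).trans (by linarith)
    have h5 : ‖(1 + conj t * z ^ (2 ^ j)) / 2‖ ^ N ≤ 1 := pow_le_one₀ (norm_nonneg _) h3
    have h6 : (0 : ℝ) ≤ (‖l‖ ^ j)⁻¹ * ‖PP w j z‖ := by positivity
    have h7 : (‖l‖ ^ j)⁻¹ * ‖PP w j z‖ < C + 1 := hz
    calc _ ≤ (‖l‖ ^ j)⁻¹ * ‖PP w j z‖ * 1 := mul_le_mul_of_nonneg_left h5 h6
      _ ≤ _ := by linarith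
  · have hlt : ‖(1 + conj t * z₁ ^ (2 ^ j)) / 2‖ < 1 :=
      norm_half_lt (norm_conj_mul_pow ht hz₁.le _) (fun h2 => h ((conj_mul_eq_one ht).mp h2))
    obtain ⟨ρ, hρ1, hρ2⟩ := exists_between hlt
    have hρ0 : 0 ≤ ρ := (norm_nonneg _).trans hρ1.le
    obtain ⟨B, hB0, hB⟩ := PP_bound hw j
    have hcont : Continuous (fun z : ℂ => ‖(1 + conj t * z ^ (2 ^ j)) / 2‖) := by fun_prop
    refine ⟨{z | ‖(1 + conj t * z ^ (2 ^ j)) / 2‖ < ρ},
      hcont.continuousWithinAt.eventually (gt_mem_nhds hρ1), ?_⟩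
    have hlim : Tendsto (fun N : ℕ => (‖l‖ ^ j)⁻¹ * B * ρ ^ N) atTop (𝓝 ((‖l‖ ^ j)⁻¹ * B * 0)) :=
      (tendsto_pow_atTop_nhds_zero_of_lt_one hρ0 hρ2).const_mul _
    rw [mul_zero] at hlim
    filter_upwards [hlim.eventually (gt_mem_nhds hδ)] with N hN z hz hz1
    rw [if_neg h, zero_add, norm_hh]
    have h1 := hB z hz1.le
    have h2 : ‖(1 + conj t * z ^ (2 ^ j)) / 2‖ ^ N ≤ ρ ^ N :=
      pow_le_pow_left₀ (norm_nonneg _) (le_of_lt hz) N
    calc _ ≤ (‖l‖ ^ j)⁻¹ * B * ρ ^ N := by gcongr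
      _ ≤ δ := hN.le

/-- The global bound on the circle. -/
theorem circle_bound {w : ℂ → ℂ} (hw : InA w) {l t : ℂ} (hl : l ≠ 0) (ht : ‖t‖ = 1) {C : ℝ}
    (hC0 : 0 ≤ C) (n : ℕ)
    (hC : ∀ j < n, ∀ z : ℂ, ‖z‖ = 1 → z ^ (2 ^ j) = t → ‖PP w j z‖ ≤ C * ‖l‖ ^ j)
    (hper : ∀ k, 1 ≤ k → k < n → t ^ (2 ^ k) ≠ t) :
    ∀ᶠ N in atTop, ∀ z : ℂ, ‖z‖ = 1 → ∑ j ∈ Finset.range n, ‖hh w l t N j z‖ ≤ C + 2 := by
  classical
  have key : ∀ᶠ N in atTop, ∀ z ∈ Metric.sphere (0 : ℂ) 1, ‖z‖ = 1 →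
      ∑ j ∈ Finset.range n, ‖hh w l t N j z‖ ≤ C + 2 := by
    refine IsCompact.induction_on (isCompact_sphere (0 : ℂ) 1)
      (p := fun S => ∀ᶠ N in atTop, ∀ z ∈ S, ‖z‖ = 1 →
        ∑ j ∈ Finset.range n, ‖hh w l t N j z‖ ≤ C + 2) ?_ ?_ ?_ ?_
    · exact Eventually.of_forall (fun N z hz => absurd hz (Set.notMem_empty z))
    · intro s s' hss h
      filter_upwards [h] with N hN z hz
      exact hN z (hss hz)
    · intro s s' h h'
      filter_upwards [h, h'] with N hN hN' z hz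
      rcases hz with hz | hz
      · exact hN z hz
      · exact hN' z hz
    · intro z₁ hz₁
      have hz₁' : ‖z₁‖ = 1 := by simpa using hz₁
      have hloc : ∀ j : ℕ, ∃ S ∈ 𝓝[Metric.sphere (0 : ℂ) 1] z₁, j < n → ∀ᶠ N in atTop,
          ∀ z ∈ S, ‖z‖ = 1 →
          ‖hh w l t N j z‖ ≤ (if z₁ ^ (2 ^ j) = t then C + 1 else 0) + 1 / (n + 1 : ℝ) := by
        intro j
        by_cases hj : j < n
        · obtain ⟨S, hS, h⟩ := local_bound hw hl ht (C := C) j hz₁' (hC j hj z₁ hz₁')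
            (1 / (n + 1 : ℝ)) (by positivity)
          exact ⟨S, hS, fun _ => h⟩
        · exact ⟨Set.univ, Filter.univ_mem, fun h => absurd h hj⟩
      choose S hS hSb using hloc
      refine ⟨⋂ j ∈ Finset.range n, S j, (Filter.biInter_finset_mem _).mpr (fun j _ => hS j), ?_⟩
      have hall : ∀ᶠ N in atTop, ∀ j ∈ Finset.range n, ∀ z ∈ S j, ‖z‖ = 1 →
          ‖hh w l t N j z‖ ≤ (if z₁ ^ (2 ^ j) = t then C + 1 else 0) + 1 / (n + 1 : ℝ) :=
        (Filter.eventually_all_finset _).mpr (fun j hj => hSb j (Finset.mem_range.mp hj))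
      filter_upwards [hall] with N hN z hz hz1
      have h1 : ∑ j ∈ Finset.range n, ‖hh w l t N j z‖
          ≤ ∑ j ∈ Finset.range n, ((if z₁ ^ (2 ^ j) = t then C + 1 else 0) + 1 / (n + 1 : ℝ)) := by
        refine Finset.sum_le_sum (fun j hj => hN j hj z ?_ hz1)
        exact Set.mem_iInter₂.mp hz j hj
      refine h1.trans ?_
      rw [Finset.sum_add_distrib, Finset.sum_const, Finset.card_range, nsmul_eq_mul,
        ← Finset.sum_filter, Finset.sum_const, nsmul_eq_mul]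
      have hcard : ((Finset.range n).filter (fun j => z₁ ^ (2 ^ j) = t)).card ≤ 1 := by
        rw [Finset.card_le_one]
        intro i hi j hj
        rw [Finset.mem_filter, Finset.mem_range] at hi hj
        by_contra hne
        have key2 : ∀ i j : ℕ, i < j → j < n → z₁ ^ (2 ^ i) = t → z₁ ^ (2 ^ j) = t → False := by
          intro i j hij hjn h1 h2
          apply hper (j - i) (by omega) (by omega)
          rw [← h1, ← pow_mul, ← pow_add]
          have : i + (j - i) = j := by omega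
          rw [this, h2, h1]
        rcases lt_or_gt_of_ne hne with h | h
        · exact key2 i j h hj.1 hi.2 hj.2
        · exact key2 j i h hi.1 hj.2 hi.2
      have hcard' : (((Finset.range n).filter (fun j => z₁ ^ (2 ^ j) = t)).card : ℝ) ≤ 1 := by
        exact_mod_cast hcard
      have h3 : (n : ℝ) * (1 / (n + 1 : ℝ)) ≤ 1 := by
        rw [mul_one_div, div_le_one (by positivity)]; linarith
      nlinarith
  filter_upwards [key] with N hN z hz
  exact hN z (by simpa using hz) hz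

end Pool.Agent.V11110.AF
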