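import Pool.Agent.V11110.AF5

open Filter Topology ComplexConjugate

noncomputable section

namespace Pool.Agent.V11110.AF

/-- The upper semi-Fredholm spectrum of the weighted composition operator `f ↦ w · f ∘ B`. -/
def InUsf (B w : ℂ → ℂ) (l : ℂ) : Prop :=
  ∃ x : ℕ → ℂ → ℂ, (∀ n, InA (x n) ∧ supN (x n) = 1) ∧
    (∀ φ : ℕ → ℕ, StrictMono φ → ∀ f : ℂ → ℂ, InA f →
      ¬ Tendsto (fun n => supN (fun z => x (φ n) z - f z)) atTop (𝓝 0)) ∧
    Tendsto (fun n => supN (fun z => w z * x n (B z) - l * x n z)) atTop (𝓝 0)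

theorem max_mod {f : ℂ → ℂ} (hf : InA f) {C : ℝ} (h : ∀ z : ℂ, ‖z‖ = 1 → ‖f z‖ ≤ C) {z : ℂ}
    (hz : ‖z‖ ≤ 1) : ‖f z‖ ≤ C := by
  have hd : DiffContOnCl ℂ f (Metric.ball 0 1) :=
    ⟨hf.2, by rw [closure_ball 0 one_ne_zero]; exact hf.1⟩
  refine Complex.norm_le_of_forall_mem_frontier_norm_le Metric.isBounded_ball hd (fun z hz => ?_) ?_
  · rw [frontier_ball 0 one_ne_zero] at hz
    exact h z (by simpa using hz)
  · rw [closure_ball 0 one_ne_zero]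
    simpa using hz

theorem roots_or {w : ℂ → ℂ} {b : ℕ → ℂ} (hb : ∀ j, b (j + 1) ^ 2 = b j)
    (hw : ∀ j, w (-b (j + 1)) = 0) (j : ℕ) : ∀ z : ℂ, z ^ (2 ^ j) = b 0 → z = b j ∨ PP w j z = 0 := by
  induction j with
  | zero => intro z hz; left; simpa using hz
  | succ j ih =>
    intro z hz
    have h1 : (z ^ 2) ^ (2 ^ j) = b 0 := by
      rw [← pow_mul, ← hz]; congr 1; rw [pow_succ, mul_comm]
    rcases ih (z ^ 2) h1 with h | h
    · rw [← hb j] at h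
      rcases sq_eq_sq_iff_eq_or_eq_neg.mp h with h2 | h2
      · exact Or.inl h2
      · right
        rw [PP_succ, h2, hw, zero_mul]
    · right
      rw [PP_succ, h, mul_zero]

theorem sphere_neBot {b : ℂ} (hb : ‖b‖ = 1) : (𝓝[Metric.sphere (0 : ℂ) 1 \ {b}] b).NeBot := by
  rw [← mem_closure_iff_nhdsWithin_neBot]
  have hlim : Tendsto (fun n : ℕ => b * Complex.exp (((1 / (n + 1 : ℝ) : ℝ) : ℂ) * Complex.I)) atTop
      (𝓝 (b * Complex.exp (((0 : ℝ) : ℂ) * Complex.I))) := by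
    refine Tendsto.const_mul b ?_
    have hc : Continuous (fun x : ℝ => Complex.exp ((x : ℂ) * Complex.I)) := by fun_prop
    exact (hc.tendsto 0).comp tendsto_one_div_add_atTop_nhds_zero_nat
  simp only [Complex.ofReal_zero, zero_mul, Complex.exp_zero, mul_one] at hlim
  refine mem_closure_of_tendsto hlim (Eventually.of_forall (fun n => ⟨?_, ?_⟩))
  · rw [mem_sphere_zero_iff_norm, norm_mul, hb, one_mul, Complex.norm_exp_ofReal_mul_I]
  · intro h
    have hb0 : b ≠ 0 := by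
      intro h0; rw [h0, norm_zero] at hb; exact zero_ne_one hb
    have h1 : Complex.exp (((1 / (n + 1 : ℝ) : ℝ) : ℂ) * Complex.I) = 1 := by
      have h2 : b * Complex.exp (((1 / (n + 1 : ℝ) : ℝ) : ℂ) * Complex.I) = b * 1 := by
        rw [mul_one]; exact h
      exact mul_left_cancel₀ hb0 h2
    rw [Complex.exp_eq_one_iff] at h1
    obtain ⟨m, hm⟩ := h1
    have h3 : (1 / (n + 1 : ℝ)) = m * (2 * Real.pi) := by
      have h4 := congrArg Complex.im hm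
      simp only [Complex.mul_im, Complex.ofReal_re, Complex.I_im, mul_one, Complex.ofReal_im,
        Complex.I_re, mul_zero, add_zero] at h4
      rw [h4]
      simp
    have h5 : (0 : ℝ) < 1 / (n + 1 : ℝ) := by positivity
    have h6 : 1 / (n + 1 : ℝ) ≤ 1 := by
      rw [div_le_one (by positivity)]
      have : (0 : ℝ) ≤ n := Nat.cast_nonneg n
      linarith
    have hpi := Real.pi_gt_three
    have hm0 : (0 : ℝ) < m := by
      by_contra hcon
      push Not at hcon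
      nlinarith
    have hm1 : (1 : ℝ) ≤ m := by exact_mod_cast hm0
    nlinarith

theorem exists_z0 {w : ℂ → ℂ} (hw : InA w) {b : ℕ → ℂ} (hbn : ∀ j, ‖b j‖ = 1)
    (hb : ∀ j, b (j + 1) ^ 2 = b j) (hwb : ∀ j, w (-b (j + 1)) = 0) {r c₁ c₂ : ℝ} (hr : 0 < r)
    (hc₁ : 0 < c₁) (hg1 : ∀ j, c₁ * r ^ j ≤ ‖PP w j (b j)‖) (hg2 : ∀ j, ‖PP w j (b j)‖ ≤ c₂ * r ^ j)
    (K n : ℕ) : ∃ z₀ : ℂ, ‖z₀‖ = 1 ∧ c₁ / 2 * r ^ K ≤ ‖PP w K z₀‖ ∧
      (∀ j < n, ∀ z : ℂ, ‖z‖ = 1 → z ^ (2 ^ j) = z₀ ^ (2 ^ K) → ‖PP w j z‖ ≤ (c₂ + 1) * r ^ j) ∧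
      (∀ k, 1 ≤ k → k < n → (z₀ ^ (2 ^ K)) ^ (2 ^ k) ≠ z₀ ^ (2 ^ K)) := by
  have := sphere_neBot (hbn K)
  have hbK : b K ^ (2 ^ K) = b 0 := by
    have : ∀ j, b j ^ (2 ^ j) = b 0 := by
      intro j
      induction j with
      | zero => simp
      | succ j ih =>
        rw [← ih, ← hb j, ← pow_mul]; congr 1; rw [pow_succ, mul_comm]
    exact this K
  have hle : 𝓝[Metric.sphere (0 : ℂ) 1 \ {b K}] (b K) ≤ 𝓝[Metric.sphere (0 : ℂ) 1] (b K) :=
    nhdsWithin_mono _ Set.sdiff_subset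
  have hc2 : 0 ≤ c₂ := by
    have h1 := hg2 0
    rw [pow_zero, mul_one] at h1
    exact (norm_nonneg _).trans h1
  have e1 : ∀ᶠ z in 𝓝[Metric.sphere (0 : ℂ) 1 \ {b K}] (b K), c₁ / 2 * r ^ K < ‖PP w K z‖ := by
    apply hle
    have hcont : ContinuousWithinAt (fun z => ‖PP w K z‖) (Metric.sphere (0 : ℂ) 1) (b K) :=
      (((PP_inA hw K).1.mono Metric.sphere_subset_closedBall) (b K) (by simpa using hbn K)).norm
    refine hcont.eventually (lt_mem_nhds ?_)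
    refine lt_of_lt_of_le ?_ (hg1 K)
    have : 0 < r ^ K := by positivity
    nlinarith
  have e2 : ∀ᶠ z₀ in 𝓝[Metric.sphere (0 : ℂ) 1 \ {b K}] (b K), ∀ j ∈ Finset.range n, ∀ z : ℂ,
      ‖z‖ = 1 → z ^ (2 ^ j) = z₀ ^ (2 ^ K) → ‖PP w j z‖ ≤ (c₂ + 1) * r ^ j := by
    rw [Filter.eventually_all_finset]
    intro j _
    set A : Set ℂ := {z ∈ Metric.sphere (0 : ℂ) 1 | (c₂ + 1) * r ^ j ≤ ‖PP w j z‖} with hA
    have hAc : IsCompact A := by
      have hcont : ContinuousOn (fun z => ‖PP w j z‖) (Metric.sphere (0 : ℂ) 1) :=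
        ((PP_inA hw j).1.mono Metric.sphere_subset_closedBall).norm
      have hcl : IsClosed A := by
        have := hcont.preimage_isClosed_of_isClosed Metric.isClosed_sphere
          (isClosed_Ici (a := (c₂ + 1) * r ^ j))
        exact this
      exact (isCompact_sphere (0 : ℂ) 1).of_isClosed_subset hcl (fun z hz => hz.1)
    have hA' : IsClosed ((fun z : ℂ => z ^ (2 ^ j)) '' A) :=
      (hAc.image (by fun_prop)).isClosed
    have hnot : b K ^ (2 ^ K) ∉ ((fun z : ℂ => z ^ (2 ^ j)) '' A) := by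
      rw [hbK]
      rintro ⟨z, ⟨hz1, hz2⟩, hz3⟩
      have hpos : 0 < r ^ j := by positivity
      rcases roots_or hb hwb j z hz3 with h | h
      · rw [h] at hz2
        have := hg2 j
        nlinarith
      · rw [h, norm_zero] at hz2
        nlinarith
    have hopen : IsOpen {z₀ : ℂ | z₀ ^ (2 ^ K) ∉ ((fun z : ℂ => z ^ (2 ^ j)) '' A)} :=
      hA'.isOpen_compl.preimage (by fun_prop : Continuous (fun z : ℂ => z ^ (2 ^ K)))
    have hmem : {z₀ : ℂ | z₀ ^ (2 ^ K) ∉ ((fun z : ℂ => z ^ (2 ^ j)) '' A)} ∈ 𝓝 (b K) :=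
      hopen.mem_nhds hnot
    have := mem_nhdsWithin_of_mem_nhds (t := Metric.sphere (0 : ℂ) 1 \ {b K}) hmem
    filter_upwards [this] with z₀ hz₀ z hz hzt
    by_contra hcon
    push Not at hcon
    exact hz₀ ⟨z, ⟨by simpa using hz, hcon.le⟩, hzt⟩
  have e3 : ∀ᶠ z₀ in 𝓝[Metric.sphere (0 : ℂ) 1 \ {b K}] (b K), ∀ k ∈ Finset.Ico 1 n,
      (z₀ ^ (2 ^ K)) ^ (2 ^ k) ≠ z₀ ^ (2 ^ K) := by
    rw [Filter.eventually_all_finset]
    intro k hk
    have hk1 : 1 ≤ k := (Finset.mem_Ico.mp hk).1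
    have hfin : {z : ℂ | (z ^ (2 ^ K)) ^ (2 ^ k) = z ^ (2 ^ K)}.Finite := by
      have hne : (Polynomial.X ^ (2 ^ K * 2 ^ k) - Polynomial.X ^ (2 ^ K) : Polynomial ℂ) ≠ 0 := by
        intro h
        have h1 := sub_eq_zero.mp h
        have h2 := congrArg Polynomial.natDegree h1
        rw [Polynomial.natDegree_X_pow, Polynomial.natDegree_X_pow] at h2
        have h3 : 1 < 2 ^ k := Nat.one_lt_two_pow (by omega)
        have h4 : 0 < 2 ^ K := by positivity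
        nlinarith
      refine (Polynomial.finite_setOfPred_isRoot hne).subset (fun z hz => ?_)
      have hz' : (z ^ (2 ^ K)) ^ (2 ^ k) = z ^ (2 ^ K) := hz
      change Polynomial.IsRoot _ z
      rw [Polynomial.IsRoot, Polynomial.eval_sub, Polynomial.eval_pow, Polynomial.eval_pow,
        Polynomial.eval_X, pow_mul, hz', sub_self]
    have hcl : IsClosed ({z : ℂ | (z ^ (2 ^ K)) ^ (2 ^ k) = z ^ (2 ^ K)} \ {b K}) :=
      (hfin.subset Set.sdiff_subset).isClosed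
    have hmem : ({z : ℂ | (z ^ (2 ^ K)) ^ (2 ^ k) = z ^ (2 ^ K)} \ {b K})ᶜ ∈ 𝓝 (b K) :=
      hcl.isOpen_compl.mem_nhds (fun h => h.2 rfl)
    have h1 := mem_nhdsWithin_of_mem_nhds (t := Metric.sphere (0 : ℂ) 1 \ {b K}) hmem
    filter_upwards [h1, self_mem_nhdsWithin] with z₀ hz₀ hz₀' hcon
    exact hz₀ ⟨hcon, hz₀'.2⟩
  obtain ⟨z₀, h1, h2, h3, h4⟩ := (e1.and (e2.and (e3.and self_mem_nhdsWithin))).exists
  refine ⟨z₀, by simpa using h4.1, h1.le, fun j hj => h2 j (Finset.mem_range.mpr hj),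
    fun k hk1 hk2 => h3 k (Finset.mem_Ico.mpr ⟨hk1, hk2⟩)⟩

end Pool.Agent.V11110.AF
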