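import Pool.Agent.V11110.AF6

open Filter Topology ComplexConjugate

noncomputable section

namespace Pool.Agent.V11110.AF

theorem hh_small_lim {w : ℂ → ℂ} {l t : ℂ} {z₀ : ℂ} (j : ℕ)
    (h : ‖(1 + conj t * z₀ ^ (2 ^ j)) / 2‖ < 1) :
    Tendsto (fun N => hh w l t N j z₀) atTop (𝓝 0) := by
  have h1 := (tendsto_pow_atTop_nhds_zero_of_norm_lt_one h).const_mul ((l ^ j)⁻¹ * PP w j z₀)
  rw [mul_zero] at h1
  exact h1

theorem FF_lim {w : ℂ → ℂ} {l : ℂ} {z₀ : ℂ} (hz₀ : ‖z₀‖ = 1) (K n : ℕ) (hn : 2 * K < n)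
    (hper : ∀ k, 1 ≤ k → k < n → (z₀ ^ (2 ^ K)) ^ (2 ^ k) ≠ z₀ ^ (2 ^ K)) :
    Tendsto (fun N => FF w l (z₀ ^ (2 ^ K)) N K z₀) atTop
      (𝓝 ((K + 1 : ℕ) • ((l ^ K)⁻¹ * PP w K z₀))) := by
  classical
  set t := z₀ ^ (2 ^ K) with ht
  have htn : ‖t‖ = 1 := by rw [ht, norm_pow, hz₀, one_pow]
  have hj : ∀ j, j ≤ 2 * K → Tendsto (fun N => hh w l t N j z₀) atTop
      (𝓝 (if j = K then (l ^ K)⁻¹ * PP w K z₀ else 0)) := by
    intro j hjK
    split_ifs with h
    · subst h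
      have h1 : ∀ N, hh w l t N j z₀ = (l ^ j)⁻¹ * PP w j z₀ := by
        intro N
        unfold hh
        rw [← ht, (conj_mul_eq_one htn).mpr rfl]
        norm_num
      simp only [h1]
      exact tendsto_const_nhds
    · refine hh_small_lim j (norm_half_lt (norm_conj_mul_pow htn hz₀.le _) (fun h2 => ?_))
      have h3 : z₀ ^ (2 ^ j) = t := (conj_mul_eq_one htn).mp h2
      rcases lt_or_gt_of_ne h with h4 | h4
      · apply hper (K - j) (by omega) (by omega)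
        change t ^ (2 ^ (K - j)) = t
        conv_lhs => rw [← h3]
        rw [← pow_mul, ← pow_add]
        have : j + (K - j) = K := by omega
        rw [this]
      · apply hper (j - K) (by omega) (by omega)
        rw [← pow_mul, ← pow_add]
        have : K + (j - K) = j := by omega
        rw [this, h3]
  have hsum : (K + 1 : ℕ) • ((l ^ K)⁻¹ * PP w K z₀)
      = ∑ a ∈ Finset.range (K + 1), ∑ b ∈ Finset.range (K + 1),
        (if a + b = K then (l ^ K)⁻¹ * PP w K z₀ else 0) := by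
    have h1 : ∀ a ∈ Finset.range (K + 1), ∑ b ∈ Finset.range (K + 1),
        (if a + b = K then (l ^ K)⁻¹ * PP w K z₀ else 0) = (l ^ K)⁻¹ * PP w K z₀ := by
      intro a ha
      rw [Finset.mem_range] at ha
      rw [Finset.sum_eq_single (K - a)]
      · rw [if_pos (by omega)]
      · intro b _ hb
        rw [if_neg (by omega)]
      · intro h
        exact absurd (Finset.mem_range.mpr (by omega)) h
    rw [Finset.sum_congr rfl h1, Finset.sum_const, Finset.card_range]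
  rw [hsum]
  unfold FF
  refine tendsto_finset_sum _ (fun a ha => tendsto_finset_sum _ (fun b hb => ?_))
  rw [Finset.mem_range] at ha hb
  exact hj (a + b) (by omega)

theorem FF_small {w : ℂ → ℂ} (hw : InA w) {l t : ℂ} (ht : ‖t‖ = 1) (K : ℕ) {ρ : ℝ} (hρ0 : 0 ≤ ρ)
    (hρ : ρ < 1) : ∀ᶠ N in atTop, ∀ z : ℂ, ‖z‖ ≤ ρ → ‖FF w l t N K z‖ ≤ 1 := by
  have hB := fun j => PP_bound hw j
  choose B hB0 hB using hB
  have hlim : Tendsto (fun N : ℕ => ∑ a ∈ Finset.range (K + 1), ∑ b ∈ Finset.range (K + 1),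
      (‖l‖ ^ (a + b))⁻¹ * B (a + b) * ((1 + ρ) / 2) ^ N) atTop
      (𝓝 (∑ a ∈ Finset.range (K + 1), ∑ b ∈ Finset.range (K + 1),
      (‖l‖ ^ (a + b))⁻¹ * B (a + b) * 0)) := by
    refine tendsto_finset_sum _ (fun a _ => tendsto_finset_sum _ (fun b _ => ?_))
    exact (tendsto_pow_atTop_nhds_zero_of_lt_one (by positivity) (by linarith)).const_mul _
  simp only [mul_zero, Finset.sum_const_zero] at hlim
  filter_upwards [hlim.eventually (gt_mem_nhds one_pos)] with N hN z hz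
  have hz1 : ‖z‖ ≤ 1 := hz.trans hρ.le
  unfold FF
  refine (norm_sum_le _ _).trans ((Finset.sum_le_sum (fun a _ => (norm_sum_le _ _).trans
    (Finset.sum_le_sum (fun b _ => ?_)))).trans hN.le)
  rw [norm_hh]
  have h1 := hB (a + b) z hz1
  have h2 : ‖(1 + conj t * z ^ (2 ^ (a + b))) / 2‖ ≤ (1 + ρ) / 2 := by
    refine (norm_half_le (norm_conj_mul_pow ht hz1 _)).trans ?_
    have h3 : ‖conj t * z ^ (2 ^ (a + b))‖ ≤ ρ := by
      rw [norm_mul, Complex.norm_conj, ht, one_mul, norm_pow]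
      refine (pow_le_of_le_one (norm_nonneg _) hz1 (by positivity)).trans hz
    linarith
  have h4 := (hB0 (a + b)).le
  gcongr

theorem approx_vec {w : ℂ → ℂ} (hw : InA w) {b : ℕ → ℂ} (hbn : ∀ j, ‖b j‖ = 1)
    (hb : ∀ j, b (j + 1) ^ 2 = b j) (hwb : ∀ j, w (-b (j + 1)) = 0) {c₁ c₂ : ℝ} {l : ℂ}
    (hl : l ≠ 0) (hc₁ : 0 < c₁) (hg1 : ∀ j, c₁ * ‖l‖ ^ j ≤ ‖PP w j (b j)‖)
    (hg2 : ∀ j, ‖PP w j (b j)‖ ≤ c₂ * ‖l‖ ^ j) (K : ℕ) :
    ∃ F : ℂ → ℂ, InA F ∧ supN F = 1 ∧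
      (∀ z : ℂ, ‖z‖ ≤ 1 → ‖w z * F (z ^ 2) - l * F z‖
        ≤ (‖l‖ * (c₂ + 3) + 1) * (4 / c₁) / (K + 1)) ∧
      (∀ z : ℂ, ‖z‖ ≤ 1 - 1 / (K + 2) → ‖F z‖ ≤ (‖l‖ * (c₂ + 3) + 1) * (4 / c₁) / (K + 1)) := by
  have hlpos : 0 < ‖l‖ := norm_pos_iff.mpr hl
  have hc2 : 0 ≤ c₂ := by
    have h1 := hg2 0
    rw [pow_zero, mul_one] at h1
    exact (norm_nonneg _).trans h1
  obtain ⟨z₀, hz₀, hz1, hz2, hz3⟩ := exists_z0 hw hbn hb hwb hlpos hc₁ hg1 hg2 K
    ((K + 1) + (K + 1))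
  set t := z₀ ^ (2 ^ K) with ht
  have htn : ‖t‖ = 1 := by rw [ht, norm_pow, hz₀, one_pow]
  have hN1 := circle_bound hw hl htn (C := c₂ + 1) (by linarith) ((K + 1) + (K + 1)) hz2 hz3
  have hlimF := (FF_lim (w := w) (l := l) hz₀ K ((K + 1) + (K + 1)) (by omega) hz3).norm
  have hval : (K + 1 : ℝ) * c₁ / 4 < ‖(K + 1 : ℕ) • ((l ^ K)⁻¹ * PP w K z₀)‖ := by
    rw [nsmul_eq_mul, norm_mul, norm_mul, norm_inv, norm_pow, Complex.norm_natCast]
    have h1 : c₁ / 2 ≤ (‖l‖ ^ K)⁻¹ * ‖PP w K z₀‖ := by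
      rw [le_inv_mul_iff₀ (by positivity), mul_comm]; exact hz1
    push_cast
    have h2 : (0 : ℝ) < K + 1 := by positivity
    nlinarith
  have hN2 := hlimF.eventually (lt_mem_nhds hval)
  have hρ0 : (0 : ℝ) ≤ 1 - 1 / (K + 2) := by
    have : 1 / ((K : ℝ) + 2) ≤ 1 := by
      rw [div_le_one (by positivity)]
      have : (0 : ℝ) ≤ K := Nat.cast_nonneg K
      linarith
    linarith
  have hρ1 : 1 - 1 / ((K : ℝ) + 2) < 1 := by
    have : 0 < 1 / ((K : ℝ) + 2) := by positivity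
    linarith
  have hN3 := FF_small hw (l := l) htn K hρ0 hρ1
  obtain ⟨N, h1, h2, h3⟩ := (hN1.and (hN2.and hN3)).exists
  set L := supN (FF w l t N K) with hL
  have hFA := FF_inA hw l t N K
  have hLge : (K + 1 : ℝ) * c₁ / 4 ≤ L := h2.le.trans (supN_ge hFA.1 hz₀.le)
  have hLpos : 0 < L := lt_of_lt_of_le (by positivity) hLge
  have hLinv : L⁻¹ ≤ (4 / c₁) / (K + 1) := by
    rw [div_div, inv_le_comm₀ hLpos (by positivity), inv_div]
    linarith
  have hnormF : ∀ z : ℂ, ‖(L : ℂ)⁻¹ * FF w l t N K z‖ = L⁻¹ * ‖FF w l t N K z‖ := by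
    intro z
    rw [norm_mul, norm_inv, Complex.norm_real, Real.norm_of_nonneg hLpos.le]
  have hFA' : InA (fun z => (L : ℂ)⁻¹ * FF w l t N K z) := (InA.const _).mul hFA
  refine ⟨fun z => (L : ℂ)⁻¹ * FF w l t N K z, hFA', ?_, ?_, ?_⟩
  · apply le_antisymm
    · refine supN_le (fun z hz => ?_)
      rw [hnormF]
      rw [inv_mul_le_iff₀ hLpos, mul_one]
      exact supN_ge hFA.1 hz
    · have h5 : L ≤ L * supN (fun z => (L : ℂ)⁻¹ * FF w l t N K z) := by
        refine supN_le (fun z hz => ?_)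
        have h6 := supN_ge hFA'.1 hz
        rw [hnormF, inv_mul_le_iff₀ hLpos] at h6
        exact h6
      nlinarith
  · intro z hz
    have h4 : w z * ((L : ℂ)⁻¹ * FF w l t N K (z ^ 2)) - l * ((L : ℂ)⁻¹ * FF w l t N K z)
        = (L : ℂ)⁻¹ * (w z * FF w l t N K (z ^ 2) - l * FF w l t N K z) := by ring
    have h5 : ‖w z * FF w l t N K (z ^ 2) - l * FF w l t N K z‖ ≤ ‖l‖ * (c₂ + 3) := by
      have hA : InA (fun z => w z * FF w l t N K (z ^ 2) - l * FF w l t N K z) :=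
        (hw.mul (hFA.comp_pow two_ne_zero)).sub ((InA.const l).mul hFA)
      refine max_mod hA (fun z hz => ?_) hz
      beta_reduce
      rw [FF_step hl, norm_mul]
      refine mul_le_mul_of_nonneg_left ?_ hlpos.le
      refine (norm_sum_le _ _).trans ?_
      have h6 := h1 z hz
      rw [Finset.sum_range_add] at h6
      calc ∑ a ∈ Finset.range (K + 1), ‖hh w l t N (a + (K + 1)) z - hh w l t N a z‖
          ≤ ∑ a ∈ Finset.range (K + 1), (‖hh w l t N (K + 1 + a) z‖ + ‖hh w l t N a z‖) := by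
            refine Finset.sum_le_sum (fun a _ => ?_)
            rw [add_comm a (K + 1)]
            exact norm_sub_le _ _
        _ ≤ c₂ + 3 := by
            rw [Finset.sum_add_distrib]
            linarith
    rw [h4, norm_mul, norm_inv, Complex.norm_real, Real.norm_of_nonneg hLpos.le]
    have h7 : 0 ≤ L⁻¹ := by positivity
    have h8 : (0 : ℝ) ≤ 4 / c₁ / (K + 1) := by positivity
    calc L⁻¹ * ‖w z * FF w l t N K (z ^ 2) - l * FF w l t N K z‖
        ≤ (4 / c₁ / (K + 1)) * (‖l‖ * (c₂ + 3) + 1) :=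
          mul_le_mul hLinv (h5.trans (by linarith)) (norm_nonneg _) h8
      _ = _ := by ring
  · intro z hz
    rw [hnormF]
    have h7 : 0 ≤ L⁻¹ := by positivity
    have h8 : (0 : ℝ) ≤ 4 / c₁ / (K + 1) := by positivity
    have h9 : (0 : ℝ) ≤ ‖l‖ * (c₂ + 3) := by positivity
    calc L⁻¹ * ‖FF w l t N K z‖ ≤ (4 / c₁ / (K + 1)) * (‖l‖ * (c₂ + 3) + 1) :=
          mul_le_mul hLinv ((h3 z hz).trans (by linarith)) (norm_nonneg _) h8
      _ = _ := by ring

/-- The spectrum contains all numbers of modulus the growth rate along a backward orbit all of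
whose wrong preimages are zeros of the weight. -/
theorem usf_of_growth {w : ℂ → ℂ} (hw : InA w) {b : ℕ → ℂ} (hbn : ∀ j, ‖b j‖ = 1)
    (hb : ∀ j, b (j + 1) ^ 2 = b j) (hwb : ∀ j, w (-b (j + 1)) = 0) {c₁ c₂ : ℝ} {l : ℂ}
    (hl : l ≠ 0) (hc₁ : 0 < c₁) (hg1 : ∀ j, c₁ * ‖l‖ ^ j ≤ ‖PP w j (b j)‖)
    (hg2 : ∀ j, ‖PP w j (b j)‖ ≤ c₂ * ‖l‖ ^ j) : InUsf (fun z => z ^ 2) w l := by
  choose F hF1 hF2 hF3 hF4 using approx_vec hw hbn hb hwb hl hc₁ hg1 hg2
  set C := (‖l‖ * (c₂ + 3) + 1) * (4 / c₁) with hC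
  have hlim : Tendsto (fun K : ℕ => C / (K + 1)) atTop (𝓝 0) := by
    have := (tendsto_one_div_add_atTop_nhds_zero_nat (𝕜 := ℝ)).const_mul C
    simpa [div_eq_mul_inv] using this
  refine ⟨F, fun n => ⟨hF1 n, hF2 n⟩, ?_, ?_⟩
  · intro φ hφ f hf hten
    have hptw : ∀ z : ℂ, ‖z‖ < 1 → f z = 0 := by
      intro z hz
      have h1 : Tendsto (fun n => F (φ n) z) atTop (𝓝 0) := by
        have h2 : ∀ᶠ n : ℕ in atTop, ‖F (φ n) z‖ ≤ C / ((φ n : ℕ) + 1) := by
          have h3 : Tendsto (fun n : ℕ => 1 - 1 / (((φ n : ℕ) : ℝ) + 2)) atTop (𝓝 1) := by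
            have h4 : Tendsto (fun n : ℕ => 1 / ((n : ℝ) + 2)) atTop (𝓝 0) := by
              have h5 := (tendsto_add_atTop_iff_nat (f := fun n : ℕ => 1 / ((n : ℝ) + 1)) 1).mpr
                tendsto_one_div_add_atTop_nhds_zero_nat
              refine h5.congr (fun n => ?_)
              push_cast
              ring_nf
            have h5 := (tendsto_const_nhds (x := (1 : ℝ))).sub (h4.comp hφ.tendsto_atTop)
            simpa using h5
          filter_upwards [h3.eventually (lt_mem_nhds hz)] with n hn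
          exact hF4 (φ n) z hn.le
        exact squeeze_zero_norm' h2 (hlim.comp hφ.tendsto_atTop)
      have h6 : Tendsto (fun n => F (φ n) z - f z) atTop (𝓝 0) := by
        refine squeeze_zero_norm (fun n => ?_) hten
        exact supN_ge ((hF1 (φ n)).sub hf).1 hz.le
      have h7 := h1.sub h6
      simp only [sub_sub_cancel, sub_zero] at h7
      exact tendsto_nhds_unique tendsto_const_nhds h7
    have hzero : ∀ z : ℂ, ‖z‖ ≤ 1 → f z = 0 := by
      intro z hz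
      have h1 : z ∈ closure (Metric.ball (0 : ℂ) 1) := by
        rw [closure_ball 0 one_ne_zero]; simpa using hz
      have h2 : Set.EqOn f (fun _ => 0) (closure (Metric.ball (0 : ℂ) 1)) := by
        refine Set.EqOn.of_subset_closure (s := Metric.ball (0 : ℂ) 1) ?_ ?_ continuousOn_const
          subset_closure subset_rfl
        · intro y hy; exact hptw y (by simpa using hy)
        · rw [closure_ball 0 one_ne_zero]; exact hf.1
      exact h2 h1
    have h1 : ∀ n, 1 ≤ supN (fun z => F (φ n) z - f z) := by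
      intro n
      rw [← hF2 (φ n)]
      refine supN_le (fun z hz => ?_)
      have h2 := supN_ge ((hF1 (φ n)).sub hf).1 hz
      simpa [hzero z hz] using h2
    have h2 := ge_of_tendsto' hten h1
    linarith
  · refine squeeze_zero (fun n => ?_) (fun n => supN_le (hF3 n)) hlim
    have h1 : InA (fun z => w z * F n (z ^ 2) - l * F n z) :=
      (hw.mul ((hF1 n).comp_pow two_ne_zero)).sub ((InA.const l).mul (hF1 n))
    exact (norm_nonneg _).trans (supN_ge h1.1 (z := 0) (by simp))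

end Pool.Agent.V11110.AF
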