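import Pool.Agent.V11110.AF7
import Pool.Agent.V11110.AF4

open Filter Topology ComplexConjugate
open scoped ENNReal

noncomputable section

namespace Pool.Agent.V11110.AF

theorem WW_inA : InA WW := ⟨WW_cont, WW_diff⟩

/-- Backward orbit. -/
def bb (m : ℕ) (j : ℕ) : ℂ := uu m (-(j : ℤ))

theorem bb_sq (m j : ℕ) : bb m (j + 1) ^ 2 = bb m j := by
  unfold bb
  rw [uu_sq]
  congr 1
  push_cast
  ring

theorem norm_bb (m j : ℕ) : ‖bb m j‖ = 1 := norm_uu _ _

theorem bb_period (m j : ℕ) : bb m (j + 2 ^ m) = bb m j := by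
  unfold bb
  have : -((j : ℕ) : ℤ) = -(((j + 2 ^ m : ℕ) : ℕ) : ℤ) + 2 ^ m := by push_cast; ring
  rw [this, uu_period]

/-- The logarithmic radius. -/
def rad (w : ℂ → ℂ) (m : ℕ) : ℝ :=
  (∑ i ∈ Finset.range (2 ^ m), Real.log ‖w (bb m (i + 1))‖) / 2 ^ m

theorem growth (w : ℂ → ℂ) (m : ℕ) (hne : ∀ j, w (bb m (j + 1)) ≠ 0) :
    ∃ c₁ c₂ : ℝ, 0 < c₁ ∧ (∀ j, c₁ * Real.exp (rad w m) ^ j ≤ ‖PP w j (bb m j)‖) ∧
      (∀ j, ‖PP w j (bb m j)‖ ≤ c₂ * Real.exp (rad w m) ^ j) := by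
  set ψ : ℕ → ℝ := fun i => Real.log ‖w (bb m (i + 1))‖ - rad w m with hψ
  set G : ℕ → ℝ := fun j => ∑ i ∈ Finset.range j, ψ i with hG
  have hper : ∀ i, ψ (i + 2 ^ m) = ψ i := by
    intro i
    rw [hψ]
    beta_reduce
    have : i + 2 ^ m + 1 = (i + 1) + 2 ^ m := by ring
    rw [this, bb_period]
  have hwin : ∀ j, ∑ i ∈ Finset.range (2 ^ m), ψ (j + i) = 0 := by
    intro j
    induction j with
    | zero =>
      simp only [zero_add]
      rw [hψ]
      rw [Finset.sum_sub_distrib, Finset.sum_const, Finset.card_range, nsmul_eq_mul]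
      unfold rad
      push_cast
      field_simp
      ring
    | succ j ih =>
      have h1 := Finset.sum_range_succ' (fun i => ψ (j + i)) (2 ^ m)
      have h2 := Finset.sum_range_succ (fun i => ψ (j + i)) (2 ^ m)
      rw [ih] at h2
      rw [h2] at h1
      rw [hper, add_zero, zero_add] at h1
      have h3 : ∀ i, ψ (j + 1 + i) = ψ (j + (i + 1)) := by intro i; congr 1; ring
      simp only [h3]
      linarith
  have hGper : Function.Periodic G (2 ^ m) := by
    intro j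
    rw [hG]
    beta_reduce
    rw [Finset.sum_range_add, hwin, add_zero]
  set M : ℝ := ∑ i ∈ Finset.range (2 ^ m), |G i| with hM
  have hGM : ∀ j, |G j| ≤ M := by
    intro j
    rw [← hGper.map_mod_nat j]
    exact Finset.single_le_sum (f := fun i => |G i|) (fun i _ => abs_nonneg _)
      (Finset.mem_range.mpr (Nat.mod_lt _ (by positivity)))
  have hPP : ∀ j, ‖PP w j (bb m j)‖ = Real.exp (G j) * Real.exp (rad w m) ^ j := by
    intro j
    induction j with
    | zero => simp [PP, hG]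
    | succ j ih =>
      rw [PP_succ, bb_sq, norm_mul, ih]
      have h1 : G (j + 1) = G j + ψ j := Finset.sum_range_succ _ _
      have h2 : ‖w (bb m (j + 1))‖ = Real.exp (ψ j + rad w m) := by
        rw [hψ]
        beta_reduce
        rw [sub_add_cancel, Real.exp_log (norm_pos_iff.mpr (hne j))]
      rw [h1, h2, Real.exp_add, Real.exp_add, pow_succ]
      ring
  refine ⟨Real.exp (-M), Real.exp M, Real.exp_pos _, fun j => ?_, fun j => ?_⟩
  · rw [hPP j]
    refine mul_le_mul_of_nonneg_right ?_ (by positivity)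
    exact Real.exp_le_exp.mpr (abs_le.mp (hGM j)).1
  · rw [hPP j]
    refine mul_le_mul_of_nonneg_right ?_ (by positivity)
    exact Real.exp_le_exp.mpr (abs_le.mp (hGM j)).2

theorem usf_of_orbit {w : ℂ → ℂ} (hw : InA w) (m : ℕ) (hne : ∀ j, w (bb m (j + 1)) ≠ 0)
    (hz : ∀ j, w (-bb m (j + 1)) = 0) {l : ℂ} (hl : ‖l‖ = Real.exp (rad w m)) :
    InUsf (fun z => z ^ 2) w l := by
  obtain ⟨c₁, c₂, hc₁, h1, h2⟩ := growth w m hne
  rw [← hl] at h1 h2
  have hl0 : l ≠ 0 := by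
    intro h
    rw [h, norm_zero] at hl
    exact absurd hl (Real.exp_pos _).ne
  exact usf_of_growth hw (norm_bb m) (bb_sq m) hz hl0 hc₁ h1 h2

/-! ### the average level -/

theorem lev_odd {m : ℕ} {x : ℤ} (h : ¬ (2 : ℤ) ∣ x) : lev m x = 0 := by
  by_contra hne
  have h1 : 1 ≤ lev m x := by omega
  have := (pow_dvd_pow (2 : ℤ) h1).trans (dvd_lev m x)
  exact h (by simpa using this)

theorem lev_double (m : ℕ) (y : ℤ) : lev (m + 1) (2 * y) = lev m y + 1 := by
  refine lev_eq (by have := lev_le m y; omega) ?_ ?_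
  · rw [pow_succ, mul_comm]
    exact mul_dvd_mul_left 2 (dvd_lev m y)
  · rcases (lev_le m y).lt_or_eq with h | h
    · right
      intro h2
      rw [pow_succ, mul_comm] at h2
      exact not_dvd_of_lev h ((mul_dvd_mul_iff_left two_ne_zero).mp h2)
    · left; omega

theorem sum_pairs (f : ℕ → ℕ) (n : ℕ) :
    ∑ i ∈ Finset.range (2 * n), f i = ∑ i ∈ Finset.range n, (f (2 * i) + f (2 * i + 1)) := by
  induction n with
  | zero => simp
  | succ n ih =>
    rw [show 2 * (n + 1) = 2 * n + 1 + 1 by ring, Finset.sum_range_succ, Finset.sum_range_succ, ih,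
      Finset.sum_range_succ]
    ring

theorem sum_lev (m : ℕ) : ∑ i ∈ Finset.range (2 ^ m), lev m (-((i + 1 : ℕ) : ℤ)) + 1 = 2 ^ m := by
  induction m with
  | zero =>
    simp only [pow_zero, Finset.sum_range_one]
    have := lev_le 0 (-((0 + 1 : ℕ) : ℤ))
    omega
  | succ m ih =>
    have e : 2 ^ (m + 1) = 2 * 2 ^ m := by rw [pow_succ, mul_comm]
    rw [e, sum_pairs]
    have h1 : ∀ i : ℕ, lev (m + 1) (-((2 * i + 1 : ℕ) : ℤ)) = 0 := by
      intro i
      apply lev_odd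
      push_cast
      omega
    have h2 : ∀ i : ℕ, lev (m + 1) (-((2 * i + 1 + 1 : ℕ) : ℤ)) = lev m (-((i + 1 : ℕ) : ℤ)) + 1 := by
      intro i
      have e3 : (-((2 * i + 1 + 1 : ℕ) : ℤ)) = 2 * (-((i + 1 : ℕ) : ℤ)) := by push_cast; ring
      rw [e3, lev_double]
    simp only [h1, h2, zero_add]
    rw [Finset.sum_add_distrib, Finset.sum_const, Finset.card_range, smul_eq_mul, mul_one]
    omega

theorem rad_WW_ge {m : ℕ} (hm : 1 ≤ m) : -(8 * Real.log 2) ≤ rad WW m := by
  unfold rad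
  rw [le_div_iff₀ (by positivity)]
  have h1 : ∀ i ∈ Finset.range (2 ^ m), -(((lev m (-((i + 1 : ℕ) : ℤ)) : ℕ) : ℝ) + 7) * Real.log 2
      ≤ Real.log ‖WW (bb m (i + 1))‖ := by
    intro i _
    have h2 := WW_ge hm (-((i + 1 : ℕ) : ℤ))
    have h3 := Real.log_le_log (by positivity) h2
    rw [Real.log_div one_ne_zero (by positivity), Real.log_one, Real.log_pow, zero_sub] at h3
    refine le_trans (le_of_eq ?_) h3
    push_cast
    ring
  have h2 := Finset.sum_le_sum h1
  refine le_trans ?_ h2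
  rw [← Finset.sum_mul, Finset.sum_neg_distrib, Finset.sum_add_distrib, Finset.sum_const,
    Finset.card_range, nsmul_eq_mul]
  have h3 : (∑ i ∈ Finset.range (2 ^ m), ((lev m (-((i + 1 : ℕ) : ℤ)) : ℕ) : ℝ)) ≤ 2 ^ m := by
    have h4 := sum_lev m
    have h5 : ((∑ i ∈ Finset.range (2 ^ m), lev m (-((i + 1 : ℕ) : ℤ)) + 1 : ℕ) : ℝ) = 2 ^ m := by
      rw [h4]; push_cast; rfl
    push_cast at h5
    push_cast
    linarith
  have hlog : 0 < Real.log 2 := Real.log_pos (by norm_num)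
  push_cast
  push_cast at h3
  nlinarith

theorem rad_WW_le {m : ℕ} : rad WW m ≤ 0 := by
  unfold rad
  apply div_nonpos_of_nonpos_of_nonneg _ (by positivity)
  refine Finset.sum_nonpos (fun i _ => ?_)
  exact Real.log_nonpos (norm_nonneg _) (WW_le (norm_bb m _).le)

/-! ### disjointness of the orbits -/

theorem no_common_aux {m n : ℕ} (hmn : m < n) {i j : ℤ}
    (h : ∀ s : ℕ, sy m (j + s) = sy n (i + s)) : False := by
  have hal := aligned (m := m) (n := n) (v := m) (i := i) (j := j) (fun s _ _ => h s) (m + 1) le_rfl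
    (fun k' hk' => ⟨by omega, by omega, Or.inr (by omega)⟩)
  set P : ℤ := 2 ^ (m + 1) with hP
  have hPpos : 0 < P := by positivity
  obtain ⟨s₀, hs₀⟩ : ∃ s₀ : ℕ, P ∣ i + s₀ := by
    refine ⟨((-i) % P).toNat, ?_⟩
    rw [Int.toNat_of_nonneg (Int.emod_nonneg _ hPpos.ne')]
    have := Int.emod_add_mul_ediv (-i) P
    exact ⟨-((-i) / P), by linarith⟩
  obtain ⟨s, hs1, hs2, hs3, hs4, hs5⟩ := exact_shift (e := m + 1) hs₀
  have e1 : lev n (i + ((s₀ + s : ℕ) : ℤ)) = m + 1 := by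
    refine lev_eq (by omega) ?_ (Or.inr ?_)
    · push_cast; rw [← add_assoc]; exact hs4
    · push_cast; rw [← add_assoc]; exact hs5
  have e2 : lev m (j + ((s₀ + s : ℕ) : ℤ)) = m := by
    refine lev_eq le_rfl ?_ (Or.inl rfl)
    have : j + ((s₀ + s : ℕ) : ℤ) = (i + s₀ + s) - (i - j) := by push_cast; ring
    rw [this]
    exact (pow_dvd_pow 2 (by omega)).trans (dvd_sub hs4 hal)
  have h1 := h (s₀ + s)
  unfold sy at h1
  rw [e1, e2] at h1
  omega

theorem uu_ne {m n : ℕ} (hm : 1 ≤ m) (hn : 1 ≤ n) (hmn : m ≠ n) (i j : ℤ) : uu m j ≠ uu n i := by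
  intro h
  have h1 : ∀ s : ℕ, uu m (j + s) = uu n (i + s) := by
    intro s
    induction s with
    | zero => simpa using h
    | succ s ih =>
      have e1 : j + ((s + 1 : ℕ) : ℤ) = (j + s) + 1 := by push_cast; ring
      have e2 : i + ((s + 1 : ℕ) : ℤ) = (i + s) + 1 := by push_cast; ring
      rw [e1, e2, ← uu_sq, ← uu_sq, ih]
  have h2 : ∀ s : ℕ, sy m (j + s) = sy n (i + s) := fun s =>
    same_of_close hm hn (by rw [h1 s, sub_self, norm_zero]; norm_num)
  rcases lt_or_gt_of_ne hmn with h3 | h3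
  · exact no_common_aux h3 h2
  · exact no_common_aux h3 (fun s => (h2 s).symm)

end Pool.Agent.V11110.AF
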