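import Pool.Agent.V11110.AF8

open Filter Topology ComplexConjugate
open scoped ENNReal

noncomputable section

namespace Pool.Agent.V11110.AF

/-- The space of coefficient sequences. -/
abbrev E1 := lp (fun _ : ℕ => ℂ) 1

theorem E1_summable (c : E1) : Summable (fun k => ‖c k‖) := by
  have h1 := (memℓp_gen_iff (by norm_num)).mp (lp.memℓp c)
  simpa using h1

theorem E1_norm (c : E1) : ‖c‖ = ∑' k, ‖c k‖ := by
  rw [lp.norm_eq_tsum_rpow (by norm_num)]
  simp

theorem term_bound (c : E1) {z : ℂ} (hz : ‖z‖ ≤ 1) (k : ℕ) : ‖c k * z ^ k‖ ≤ ‖c k‖ := by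
  rw [norm_mul, norm_pow]
  exact mul_le_of_le_one_right (norm_nonneg _) (pow_le_one₀ (norm_nonneg _) hz)

theorem E1_summable' (c : E1) {z : ℂ} (hz : ‖z‖ ≤ 1) : Summable (fun k => c k * z ^ k) :=
  Summable.of_norm_bounded (E1_summable c) (term_bound c hz)

/-- The power series. -/
def gc (c : E1) (z : ℂ) : ℂ := ∑' k, c k * z ^ k

theorem gc_norm_le (c : E1) {z : ℂ} (hz : ‖z‖ ≤ 1) : ‖gc c z‖ ≤ ‖c‖ := by
  rw [E1_norm]
  unfold gc
  exact tsum_of_norm_bounded (E1_summable c).hasSum (term_bound c hz)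

theorem gc_inA (c : E1) : InA (gc c) := by
  constructor
  · refine continuousOn_tsum (fun k => by fun_prop) (E1_summable c) (fun k z hz => ?_)
    exact term_bound c (by simpa using hz) k
  · refine Complex.differentiableOn_tsum_of_summable_norm (E1_summable c) (fun k => by fun_prop)
      Metric.isOpen_ball (fun k z hz => ?_)
    have h1 : ‖z‖ < 1 := by simpa using hz
    exact term_bound c h1.le k

theorem gc_add (c d : E1) {z : ℂ} (hz : ‖z‖ ≤ 1) : gc (c + d) z = gc c z + gc d z := by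
  unfold gc
  rw [← (E1_summable' c hz).tsum_add (E1_summable' d hz)]
  refine tsum_congr (fun k => ?_)
  rw [lp.coeFn_add, Pi.add_apply]
  ring

theorem gc_smul (a : ℂ) (c : E1) (z : ℂ) : gc (a • c) z = a * gc c z := by
  unfold gc
  rw [← tsum_mul_left]
  refine tsum_congr (fun k => ?_)
  rw [lp.coeFn_smul, Pi.smul_apply, smul_eq_mul]
  ring

theorem gc_cont {z : ℂ} (hz : ‖z‖ ≤ 1) : Continuous (fun c : E1 => gc c z) := by
  refine Metric.continuous_iff.mpr (fun c ε hε => ⟨ε, hε, fun d hd => ?_⟩)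
  have h1 : gc d z - gc c z = gc (d - c) z := by
    have h2 := gc_add c (d - c) hz
    rw [add_sub_cancel] at h2
    rw [h2]; ring
  rw [dist_eq_norm, h1]
  refine (gc_norm_le _ hz).trans_lt ?_
  rwa [← dist_eq_norm]

/-- Averages of the real part over an orbit. -/
def LL (m : ℕ) (c : E1) : ℝ := (∑ i ∈ Finset.range (2 ^ m), (gc c (bb m (i + 1))).re) / 2 ^ m

theorem LL_cont (m : ℕ) : Continuous (LL m) := by
  unfold LL
  refine Continuous.div_const (continuous_finset_sum _ (fun i _ => ?_)) _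
  exact Complex.continuous_re.comp (gc_cont (norm_bb _ _).le)

theorem LL_add (m : ℕ) (c d : E1) : LL m (c + d) = LL m c + LL m d := by
  unfold LL
  rw [← add_div, ← Finset.sum_add_distrib]
  congr 1
  refine Finset.sum_congr rfl (fun i _ => ?_)
  rw [gc_add _ _ (norm_bb _ _).le, Complex.add_re]

theorem LL_smul (m : ℕ) (a : ℝ) (c : E1) : LL m ((a : ℂ) • c) = a * LL m c := by
  unfold LL
  rw [mul_div_assoc', Finset.mul_sum]
  congr 1
  refine Finset.sum_congr rfl (fun i _ => ?_)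
  rw [gc_smul, Complex.re_ofReal_mul]

theorem LL_abs (m : ℕ) (c : E1) : |LL m c| ≤ ‖c‖ := by
  unfold LL
  rw [abs_div, abs_of_pos (by positivity : (0 : ℝ) < 2 ^ m), div_le_iff₀ (by positivity)]
  refine (Finset.abs_sum_le_sum_abs _ _).trans ?_
  refine (Finset.sum_le_sum (fun i _ => (Complex.abs_re_le_norm _).trans
    (gc_norm_le c (norm_bb m (i + 1)).le))).trans ?_
  rw [Finset.sum_const, Finset.card_range, nsmul_eq_mul]
  push_cast
  linarith [mul_comm (‖c‖) ((2 : ℝ) ^ m)]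

open Classical in
theorem exists_sep {m n : ℕ} (hm : 1 ≤ m) (hn : 1 ≤ n) (hmn : m ≠ n) :
    ∃ d : E1, LL m d ≠ LL n d := by
  set A : Finset ℂ := (Finset.range (2 ^ m)).image (fun i => bb m (i + 1)) with hA
  set B : Finset ℂ := (Finset.range (2 ^ n)).image (fun i => bb n (i + 1)) with hB
  set p : Polynomial ℂ := Lagrange.interpolate (A ∪ B) id (fun z => if z ∈ A then 1 else 0) with hp
  set d : E1 := ∑ k ∈ Finset.range (p.natDegree + 1), lp.single 1 k (p.coeff k) with hd
  have hgc : ∀ z : ℂ, ‖z‖ ≤ 1 → gc d z = p.eval z := by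
    intro z hz
    have h1 : ∀ s : Finset ℕ, gc (∑ k ∈ s, lp.single 1 k (p.coeff k)) z
        = ∑ k ∈ s, p.coeff k * z ^ k := by
      intro s
      induction s using Finset.induction_on with
      | empty =>
        rw [Finset.sum_empty, Finset.sum_empty]
        unfold gc
        simp
      | insert a s ha ih =>
        rw [Finset.sum_insert ha, Finset.sum_insert ha, gc_add _ _ hz, ih]
        congr 1
        unfold gc
        rw [tsum_eq_single a]
        · rw [lp.single_apply, Pi.single_eq_same]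
        · intro k hk
          rw [lp.single_apply, Pi.single_eq_of_ne hk, zero_mul]
    rw [hd, h1, Polynomial.eval_eq_sum_range]
  have hnode : ∀ z ∈ A ∪ B, p.eval z = if z ∈ A then 1 else 0 := by
    intro z hz
    exact Lagrange.eval_interpolate_at_node (v := id) (fun z => if z ∈ A then (1 : ℂ) else 0)
      (Set.injOn_id _) hz
  have h1 : LL m d = 1 := by
    unfold LL
    have h2 : ∀ i ∈ Finset.range (2 ^ m), (gc d (bb m (i + 1))).re = 1 := by
      intro i hi
      have hmem : bb m (i + 1) ∈ A := Finset.mem_image.mpr ⟨i, hi, rfl⟩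
      rw [hgc _ (norm_bb _ _).le, hnode _ (Finset.mem_union_left _ hmem), if_pos hmem]
      rfl
    rw [Finset.sum_congr rfl h2, Finset.sum_const, Finset.card_range, nsmul_eq_mul]
    push_cast
    field_simp
  have h2 : LL n d = 0 := by
    unfold LL
    have h2 : ∀ i ∈ Finset.range (2 ^ n), (gc d (bb n (i + 1))).re = 0 := by
      intro i hi
      have hmem : bb n (i + 1) ∈ B := Finset.mem_image.mpr ⟨i, hi, rfl⟩
      have hnot : bb n (i + 1) ∉ A := by
        intro h
        obtain ⟨j, _, hj⟩ := Finset.mem_image.mp h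
        exact uu_ne hm hn hmn _ _ hj
      rw [hgc _ (norm_bb _ _).le, hnode _ (Finset.mem_union_right _ hmem), if_neg hnot]
      rfl
    rw [Finset.sum_congr rfl h2, Finset.sum_const_zero, zero_div]
  exact ⟨d, by rw [h1, h2]; exact one_ne_zero⟩

theorem exists_generic : ∃ c : E1, ∀ m n : ℕ, 1 ≤ m → 1 ≤ n → m ≠ n →
    rad WW m + LL m c ≠ rad WW n + LL n c := by
  let O : ℕ × ℕ → Set E1 := fun p => {c | 1 ≤ p.1 → 1 ≤ p.2 → p.1 ≠ p.2 →
    rad WW p.1 + LL p.1 c ≠ rad WW p.2 + LL p.2 c}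
  have hopen : ∀ p, IsOpen (O p) := by
    intro p
    by_cases h : 1 ≤ p.1 ∧ 1 ≤ p.2 ∧ p.1 ≠ p.2
    · have h1 : O p = {c | rad WW p.1 + LL p.1 c ≠ rad WW p.2 + LL p.2 c} := by
        ext c
        exact ⟨fun hc => hc h.1 h.2.1 h.2.2, fun hc _ _ _ => hc⟩
      rw [h1]
      exact isOpen_ne_fun (continuous_const.add (LL_cont _)) (continuous_const.add (LL_cont _))
    · have h1 : O p = Set.univ := by
        ext c
        exact ⟨fun _ => trivial, fun _ h2 h3 h4 => absurd ⟨h2, h3, h4⟩ h⟩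
      rw [h1]
      exact isOpen_univ
  have hdense : ∀ p, Dense (O p) := by
    intro p
    by_cases h : 1 ≤ p.1 ∧ 1 ≤ p.2 ∧ p.1 ≠ p.2
    · obtain ⟨d, hd⟩ := exists_sep h.1 h.2.1 h.2.2
      intro c
      rw [Metric.mem_closure_iff]
      intro ε hε
      by_cases hc : rad WW p.1 + LL p.1 c ≠ rad WW p.2 + LL p.2 c
      · exact ⟨c, fun _ _ _ => hc, by rw [dist_self]; exact hε⟩
      · push Not at hc
        set t : ℝ := ε / (2 * (‖d‖ + 1)) with ht
        have htpos : 0 < t := by positivity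
        refine ⟨c + (t : ℂ) • d, fun _ _ _ h2 => ?_, ?_⟩
        · rw [LL_add, LL_add, LL_smul, LL_smul] at h2
          apply hd
          have h3 : t * LL p.1 d = t * LL p.2 d := by linarith
          exact mul_left_cancel₀ htpos.ne' h3
        · rw [dist_eq_norm]
          have h3 : c - (c + (t : ℂ) • d) = -((t : ℂ) • d) := by abel
          rw [h3, norm_neg, norm_smul, Complex.norm_real, Real.norm_of_nonneg htpos.le, ht]
          rw [div_mul_eq_mul_div, div_lt_iff₀ (by positivity)]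
          have := norm_nonneg d
          nlinarith
    · have h1 : O p = Set.univ := by
        ext c
        exact ⟨fun _ => trivial, fun _ h2 h3 h4 => absurd ⟨h2, h3, h4⟩ h⟩
      rw [h1]
      exact dense_univ
  have h1 : Dense (⋂ p, O p) := dense_iInter_of_isOpen hopen hdense
  obtain ⟨c, hc⟩ := h1.nonempty
  rw [Set.mem_iInter] at hc
  exact ⟨c, fun m n => hc (m, n)⟩

/-- The weight. -/
def ww (c : E1) (z : ℂ) : ℂ := WW z * Complex.exp (gc c z)

theorem ww_inA (c : E1) : InA (ww c) := by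
  have h1 : InA (fun z => Complex.exp (gc c z)) :=
    ⟨Complex.continuous_exp.comp_continuousOn (gc_inA c).1, (gc_inA c).2.cexp⟩
  exact WW_inA.mul h1

theorem WW_ne {m : ℕ} (hm : 1 ≤ m) (j : ℤ) : WW (uu m j) ≠ 0 := by
  intro h
  have h1 := WW_ge hm j
  rw [h, norm_zero] at h1
  have : (0 : ℝ) < 1 / 2 ^ (lev m j + 7) := by positivity
  linarith

theorem rad_ww (c : E1) {m : ℕ} (hm : 1 ≤ m) : rad (ww c) m = rad WW m + LL m c := by
  unfold rad LL
  rw [← add_div, ← Finset.sum_add_distrib]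
  congr 1
  refine Finset.sum_congr rfl (fun i _ => ?_)
  unfold ww
  have h1 : WW (bb m (i + 1)) ≠ 0 := WW_ne hm _
  rw [norm_mul, Complex.norm_exp, Real.log_mul (norm_ne_zero_iff.mpr h1) (Real.exp_pos _).ne',
    Real.log_exp]

theorem main_point : ∃ w : ℂ → ℂ, InA w ∧ ∃ r : ℝ, 0 < r ∧
    AccPt r (𝓟 {ρ : ℝ | ∃ l : ℂ, ‖l‖ = ρ ∧ ∀ μ : ℂ, ‖μ‖ = ‖l‖ → InUsf (fun z => z ^ 2) w μ}) := by
  obtain ⟨c, hc⟩ := exists_generic
  refine ⟨ww c, ww_inA c, ?_⟩
  have hmem : ∀ m : ℕ, 1 ≤ m → Real.exp (rad (ww c) m) ∈ {ρ : ℝ | ∃ l : ℂ, ‖l‖ = ρ ∧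
      ∀ μ : ℂ, ‖μ‖ = ‖l‖ → InUsf (fun z => z ^ 2) (ww c) μ} := by
    intro m hm
    have hn : ‖((Real.exp (rad (ww c) m) : ℝ) : ℂ)‖ = Real.exp (rad (ww c) m) := by
      rw [Complex.norm_real, Real.norm_of_nonneg (Real.exp_pos _).le]
    refine ⟨((Real.exp (rad (ww c) m) : ℝ) : ℂ), hn, fun μ hμ => ?_⟩
    refine usf_of_orbit (ww_inA c) m (fun j => ?_) (fun j => ?_) (hμ.trans hn)
    · exact mul_ne_zero (WW_ne hm _) (Complex.exp_ne_zero _)
    · unfold ww bb
      rw [WW_zero hm, zero_mul]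
  have hinj : Set.InjOn (fun m : ℕ => Real.exp (rad (ww c) m)) (Set.Ici 1) := by
    intro m hm n hn hmn
    by_contra hne
    apply hc m n hm hn hne
    have := Real.exp_injective hmn
    rwa [rad_ww c hm, rad_ww c hn] at this
  have hinf : ((fun m : ℕ => Real.exp (rad (ww c) m)) '' (Set.Ici 1)).Infinite :=
    (Set.infinite_image_iff hinj).mpr (Set.Ici_infinite 1)
  have hsub : (fun m : ℕ => Real.exp (rad (ww c) m)) '' (Set.Ici 1)
      ⊆ Set.Icc (Real.exp (-(8 * Real.log 2) - ‖c‖)) (Real.exp ‖c‖) := by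
    rintro _ ⟨m, hm, rfl⟩
    have h1 := rad_ww c hm
    have h2 := rad_WW_ge hm
    have h3 := rad_WW_le (m := m)
    have h4 := abs_le.mp (LL_abs m c)
    exact ⟨Real.exp_le_exp.mpr (by linarith [h4.1]), Real.exp_le_exp.mpr (by linarith [h4.2])⟩
  obtain ⟨r, hr, hacc⟩ := hinf.exists_accPt_of_subset_isCompact isCompact_Icc hsub
  refine ⟨r, (Real.exp_pos _).trans_le hr.1, hacc.mono (Filter.principal_mono.mpr ?_)⟩
  rintro _ ⟨m, hm, rfl⟩
  exact hmem m hm

end Pool.Agent.V11110.AF
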