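import Mathlib

/-! Finite check for the local repair rule used in the strongly irreducible domino tilings. -/

namespace V11110.DT

/-- activity of the four edges around a corner -/
def act (A : Fin 4 → Bool) (i : Fin 4) : Bool := A i && !(A 0 && A 1 && A 2 && A 3)

def rr (U : Fin 4 → Bool) (i : Fin 4) : Bool := if i = 0 ∨ i = 2 then !(U i) else U i

def step (U : Fin 4 → Bool) (i : Fin 4) (x : ℕ) : ℕ := if rr U i then x - 1 else x + 1

def md (i : Fin 4) : ℕ := if i = 0 ∨ i = 2 then 3 else 4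

def JJ (A U : Fin 4 → Bool) (i : Fin 4) : ℕ :=
  if !(act A (i - 1)) then md i
  else if !(act A (i - 2)) then step U i (md (i - 1))
  else step U i (step U (i - 1) (md (i - 2)))

/-- the pair of lines `i, i+1` is joined by a domino in layer `k` -/
def EE (A U : Fin 4 → Bool) (i : Fin 4) (k : ℕ) : Bool := act A i && decide (JJ A U i = k)

/-- the vertical edge `k` of line `i` is covered -/
def uh (A U : Fin 4 → Bool) (i : Fin 4) : ℕ → Bool
  | 0 => U i
  | k + 1 => !(uh A U i k || EE A U i (k + 1) || EE A U (i - 1) (k + 1))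

def Valid (A U : Fin 4 → Bool) : Prop :=
  (A 0 ≠ A 3 → U 0 = !(A 0)) ∧ (A 0 ≠ A 1 → U 1 = !(A 0)) ∧
  (A 1 ≠ A 2 → U 2 = !(A 2)) ∧ (A 2 ≠ A 3 → U 3 = !(A 2))

instance (A U : Fin 4 → Bool) : Decidable (Valid A U) := by unfold Valid; infer_instance

def pick (a b c d : Bool) : Fin 4 → Bool := fun i =>
  match i.val with
  | 0 => a
  | 1 => b
  | 2 => c
  | _ => d

lemma pick_eta (A : Fin 4 → Bool) : A = pick (A 0) (A 1) (A 2) (A 3) := by
  funext i
  fin_cases i <;> rfl

/-- at most one of three -/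
def amo (a b c : Bool) : Bool := !(a && b) && !(a && c) && !(b && c)

lemma check_amo : ∀ a0 a1 a2 a3 u0 u1 u2 u3 : Bool, Valid (pick a0 a1 a2 a3) (pick u0 u1 u2 u3) →
    ∀ i : Fin 4, ∀ k : Fin 6,
      amo (uh (pick a0 a1 a2 a3) (pick u0 u1 u2 u3) i k)
        (EE (pick a0 a1 a2 a3) (pick u0 u1 u2 u3) i (k + 1))
        (EE (pick a0 a1 a2 a3) (pick u0 u1 u2 u3) (i - 1) (k + 1)) = true := by
  decide +kernel

lemma check_fin : ∀ a0 a1 a2 a3 u0 u1 u2 u3 : Bool, Valid (pick a0 a1 a2 a3) (pick u0 u1 u2 u3) →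
    ∀ i : Fin 4,
      uh (pick a0 a1 a2 a3) (pick u0 u1 u2 u3) i 6 =
        (if pick a0 a1 a2 a3 i ≠ pick a0 a1 a2 a3 (i - 1) then !(pick u0 u1 u2 u3 i)
          else pick u0 u1 u2 u3 i) := by
  decide +kernel

lemma uh_exact {A U : Fin 4 → Bool} (h : Valid A U) (i : Fin 4) {k : ℕ} (hk1 : 1 ≤ k) (hk : k ≤ 6) :
    (uh A U i k = true ∧ uh A U i (k-1) = false ∧ EE A U i k = false ∧ EE A U (i-1) k = false) ∨
    (uh A U i k = false ∧ uh A U i (k-1) = true ∧ EE A U i k = false ∧ EE A U (i-1) k = false) ∨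
    (uh A U i k = false ∧ uh A U i (k-1) = false ∧ EE A U i k = true ∧ EE A U (i-1) k = false) ∨
    (uh A U i k = false ∧ uh A U i (k-1) = false ∧ EE A U i k = false ∧ EE A U (i-1) k = true) := by
  obtain ⟨k, rfl⟩ : ∃ k', k = k' + 1 := ⟨k - 1, by omega⟩
  have h1 := check_amo (A 0) (A 1) (A 2) (A 3) (U 0) (U 1) (U 2) (U 3)
    (by rw [← pick_eta, ← pick_eta]; exact h) i ⟨k, by omega⟩
  rw [← pick_eta, ← pick_eta] at h1
  have h2 : uh A U i (k+1) = !(uh A U i k || EE A U i (k + 1) || EE A U (i - 1) (k + 1)) := rfl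
  simp only [Nat.add_sub_cancel]
  simp only at h1
  rw [h2]
  revert h1
  generalize uh A U i k = x
  generalize EE A U i (k+1) = y
  generalize EE A U (i-1) (k+1) = z
  revert x y z
  decide

lemma uh_six {A U : Fin 4 → Bool} (h : Valid A U) (i : Fin 4) :
    uh A U i 6 = if A i ≠ A (i - 1) then !(U i) else U i := by
  have h1 := check_fin (A 0) (A 1) (A 2) (A 3) (U 0) (U 1) (U 2) (U 3)
    (by rw [← pick_eta, ← pick_eta]; exact h) i
  rw [← pick_eta, ← pick_eta] at h1
  exact h1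

end V11110.DT
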