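import Pool.Agent.V11110.DT1

/-! Domino tilings of `ℝ^d`: the local rule producing a tiling from a sparse field. -/

namespace V11110.DT

/-- The alphabet `{±e_1, …, ±e_d}`: `(i, true)` stands for `e_i`, `(i, false)` for `-e_i`. -/
abbrev Letter (d : ℕ) := Fin d × Bool

/-- `opp a` stands for the opposite vector. -/
def opp {d : ℕ} (a : Letter d) : Letter d := (a.1, !a.2)

/-- the vector of `ℤ^d` a letter stands for -/
def vec {d : ℕ} (a : Letter d) : Fin d → ℤ := Pi.single a.1 (if a.2 then 1 else -1)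

/-- `X_d`: the configurations with `x (v + x_v) = -x_v` for all `v`, that is, the domino tilings. -/
def DominoTilings (d : ℕ) : Set ((Fin d → ℤ) → Letter d) :=
  {x | ∀ v, x (v + vec (x v)) = opp (x v)}

abbrev V (n : ℕ) := Fin (n + 3) → ℤ

variable {n : ℕ}

def P (a b c : ℤ) : V n := fun i =>
  if (i : ℕ) = 0 then a else if (i : ℕ) = 1 then b else if (i : ℕ) = 2 then c else 0

lemma P_add (a b c a' b' c' : ℤ) :
    (P a b c : V n) + P a' b' c' = P (a + a') (b + b') (c + c') := by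
  funext i
  simp only [P, Pi.add_apply]
  split_ifs <;> simp

lemma P_zero : (P 0 0 0 : V n) = 0 := by
  funext i
  simp [P]

lemma P_apply0 (a b c : ℤ) (h : 0 < n + 3) : (P a b c : V n) ⟨0, h⟩ = a := by simp [P]
lemma P_apply1 (a b c : ℤ) (h : 1 < n + 3) : (P a b c : V n) ⟨1, h⟩ = b := by simp [P]
lemma P_apply2 (a b c : ℤ) (h : 2 < n + 3) : (P a b c : V n) ⟨2, h⟩ = c := by simp [P]

lemma P_inj {a b c a' b' c' : ℤ} (h : (P a b c : V n) = P a' b' c') :
    a = a' ∧ b = b' ∧ c = c' := by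
  have h0 := congrFun h ⟨0, by omega⟩
  have h1 := congrFun h ⟨1, by omega⟩
  have h2 := congrFun h ⟨2, by omega⟩
  rw [P_apply0, P_apply0] at h0
  rw [P_apply1, P_apply1] at h1
  rw [P_apply2, P_apply2] at h2
  exact ⟨h0, h1, h2⟩

lemma vP (v : V n) (a b c a' b' c' : ℤ) :
    v + P a b c + P a' b' c' = v + P (a + a') (b + b') (c + c') := by
  rw [add_assoc, P_add]

/-- two positions which are too close -/
def Conf (v w : V n) : Prop :=
  v ≠ w ∧ ∃ a b c : ℤ, w = v + P a b c ∧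
    ((|a| ≤ 1 ∧ |b| ≤ 1 ∧ |c| < 8) ∨ (a = 0 ∧ b = 0 ∧ |c| < 304))

/-- fields: `(alpha, beta, flip)` -/
abbrev Fd (n : ℕ) := V n → Bool × Bool × Bool

def ox : Fin 4 → ℤ := ![0, 1, 1, 0]
def oy : Fin 4 → ℤ := ![0, 0, 1, 1]

def W (i : Fin 4) (k : ℕ) : V n := P (-(ox i)) (-(oy i)) (-(k : ℤ))

/-- comparison of the horizontal and vertical sides of a face -/
def cmp (a a' b b' : Bool) : Bool := decide (a.toNat + a'.toNat < b.toNat + b'.toNat)

def uu (F : Fd n) (v : V n) : Bool :=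
  cmp (F v).1 (F (v + P 0 (-1) 0)).1 (F v).2.1 (F (v + P (-1) 0 0)).2.1

def FA (F : Fd n) (g : V n) : Fin 4 → Bool :=
  pick (!(F (g + P 0 0 2)).2.1) (!(F (g + P 1 0 2)).1) (!(F (g + P 0 1 2)).2.1)
    (!(F (g + P 0 0 2)).1)

def FU (F : Fd n) (g : V n) : Fin 4 → Bool :=
  pick (uu F (g + P 0 0 2)) (uu F (g + P 1 0 2)) (uu F (g + P 1 1 2)) (uu F (g + P 0 1 2))

def Fl (F : Fd n) (g : V n) : Prop := (F (g + P 0 0 3)).2.2 = true

/-- event `i` for the cell `v` -/
def hev (F : Fd n) (v : V n) (i : Fin 4) : Prop :=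
  ∃ k : ℕ, 1 ≤ k ∧ k ≤ 6 ∧ Fl F (v + W i k) ∧ EE (FA F (v + W i k)) (FU F (v + W i k)) i k = true

def upw (F : Fd n) (v : V n) : Prop :=
  ∃ (i : Fin 4) (k : ℕ), 1 ≤ k ∧ k ≤ 5 ∧ Fl F (v + W i k)

/-- the vertical edge at `v` is covered -/
def up (F : Fd n) (v : V n) : Prop :=
  (∃ (i : Fin 4) (k : ℕ), 1 ≤ k ∧ k ≤ 5 ∧ Fl F (v + W i k) ∧
    uh (FA F (v + W i k)) (FU F (v + W i k)) i k = true) ∨ (¬ upw F v ∧ uu F v = true)

def cov0 (F : Fd n) (v : V n) : Prop := hev F v 0 ∨ hev F (v + P 1 0 0) 2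
def cov1 (F : Fd n) (v : V n) : Prop := hev F v 1 ∨ hev F (v + P 0 1 0) 3

/-- the cell `v` is matched in direction `a` -/
def CC (F : Fd n) (v : V n) (a : Letter (n + 3)) : Prop :=
  ((a.1 : ℕ) = 0 ∧ (a.2 = true ∧ cov0 F v ∨ a.2 = false ∧ cov0 F (v + P (-1) 0 0))) ∨
  ((a.1 : ℕ) = 1 ∧ (a.2 = true ∧ cov1 F v ∨ a.2 = false ∧ cov1 F (v + P 0 (-1) 0))) ∨
  ((a.1 : ℕ) = 2 ∧ (a.2 = true ∧ up F v ∨ a.2 = false ∧ up F (v + P 0 0 (-1))))

open Classical in
noncomputable def sel (p : Letter (n + 3) → Prop) : Letter (n + 3) :=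
  if h : ∃ a, p a then h.choose else (⟨0, by omega⟩, true)

noncomputable def TT (F : Fd n) (v : V n) : Letter (n + 3) := sel (CC F v)

/-- the constraints on fields -/
structure Good (F : Fd n) : Prop where
  curv : ∀ v, ((F v).1 ^^ (F (v + P 0 (-1) 0)).1 ^^ (F v).2.1 ^^ (F (v + P (-1) 0 0)).2.1) = true
  alp : ∀ v, (F (v + P 0 0 (-1))).1 = ((F v).1 ^^ true ^^ (F v).2.2 ^^ (F (v + P (-1) 0 0)).2.2)
  bet : ∀ v, (F (v + P 0 0 (-1))).2.1 =
    ((F v).2.1 ^^ true ^^ (F v).2.2 ^^ (F (v + P 0 (-1) 0)).2.2)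
  sparse : ∀ g g', Fl F g → Fl F g' → ¬ Conf g g'

lemma win_unique {F : Fd n} (hF : Good F) {v : V n} {i i' : Fin 4} {k k' : ℕ}
    (h : Fl F (v + W i k)) (h' : Fl F (v + W i' k')) (hk : k ≤ 6) (hk' : k' ≤ 6) :
    i = i' ∧ k = k' := by
  have key : v + W i k = v + W i' k' := by
    by_contra hne
    refine hF.sparse _ _ h h' ⟨hne, ox i - ox i', oy i - oy i', (k : ℤ) - k', ?_, Or.inl ?_⟩
    · rw [W, W, vP]
      congr 2 <;> ring
    · refine ⟨?_, ?_, ?_⟩
      · fin_cases i <;> fin_cases i' <;> simp [ox]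
      · fin_cases i <;> fin_cases i' <;> simp [oy]
      · rw [abs_lt]; constructor <;> omega
  have := P_inj (add_left_cancel key)
  obtain ⟨h1, h2, h3⟩ := this
  constructor
  · revert h1 h2
    fin_cases i <;> fin_cases i' <;> simp [ox, oy]
  · omega

/-- flips at the four corners of the cell `v` -/
lemma corner {F : Fd n} (v : V n) (i : Fin 4) :
    Fl F (v + W i 3) ↔ (F (v + P (-(ox i)) (-(oy i)) 0)).2.2 = true := by
  rw [Fl, W, vP]
  simp

lemma uu_toggle {F : Fd n} (hF : Good F) {v : V n} (h : ∀ i, ¬ Fl F (v + W i 3)) :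
    uu F (v + P 0 0 (-1)) = !(uu F v) := by
  have h0 := h 0
  have h1 := h 1
  have h2 := h 2
  have h3 := h 3
  rw [corner] at h0 h1 h2 h3
  simp only [ox, oy, Matrix.cons_val_zero, Matrix.cons_val_one, Matrix.cons_val, neg_zero, P_zero, add_zero,
    Bool.not_eq_true] at h0 h1 h2 h3
  have e1 := hF.alp v
  have e2 := hF.bet v
  have e3 := hF.alp (v + P 0 (-1) 0)
  have e4 := hF.bet (v + P (-1) 0 0)
  have c := hF.curv v
  simp only [vP] at e1 e2 e3 e4
  norm_num at e1 e2 e3 e4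
  rw [h0, h1] at e1
  rw [h0, h3] at e2
  rw [h3, h2] at e3
  rw [h1, h2] at e4
  simp only [uu, vP]
  norm_num
  rw [e1, e2, e3, e4]
  revert c
  generalize (F v).1 = a
  generalize (F (v + P 0 (-1) 0)).1 = a'
  generalize (F v).2.1 = b
  generalize (F (v + P (-1) 0 0)).2.1 = b'
  revert a a' b b'
  decide

lemma uu_flip {F : Fd n} (hF : Good F) {v : V n} {i : Fin 4} (h : Fl F (v + W i 3)) :
    uu F v = if FA F (v + W i 3) i ≠ FA F (v + W i 3) (i - 1) then uu F (v + P 0 0 (-1))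
      else !(uu F (v + P 0 0 (-1))) := by
  have hun : ∀ j, j ≠ i → ¬ Fl F (v + W j 3) := by
    intro j hj hj'
    exact hj (win_unique hF hj' h (by norm_num) (by norm_num)).1
  have hall : ∀ j, (F (v + P (-(ox j)) (-(oy j)) 0)).2.2 = decide (j = i) := by
    intro j
    by_cases hji : j = i
    · subst hji
      rw [(corner v j).1 h]; simp
    · have := hun j hji
      rw [corner] at this
      simp only [Bool.not_eq_true] at this
      rw [this]; simp [hji]
  have h0 := hall 0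
  have h1 := hall 1
  have h2 := hall 2
  have h3 := hall 3
  simp only [ox, oy, Matrix.cons_val_zero, Matrix.cons_val_one, Matrix.cons_val, neg_zero, P_zero, add_zero]
    at h0 h1 h2 h3
  have e1 := hF.alp v
  have e2 := hF.bet v
  have e3 := hF.alp (v + P 0 (-1) 0)
  have e4 := hF.bet (v + P (-1) 0 0)
  have c := hF.curv v
  simp only [vP] at e1 e2 e3 e4
  norm_num at e1 e2 e3 e4
  rw [h0, h1] at e1
  rw [h0, h3] at e2
  rw [h3, h2] at e3
  rw [h1, h2] at e4
  clear h0 h1 h2 h3 hall hun h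
  simp only [uu, vP, FA, W]
  revert e1 e2 e3 e4
  fin_cases i
  · simp only [ox, oy, Matrix.cons_val_zero, Fin.zero_eta, Fin.isValue, pick]
    norm_num
    intro e1 e2 e3 e4
    rw [e1, e2, e3, e4]
    revert c
    generalize (F v).1 = a
    generalize (F (v + P 0 (-1) 0)).1 = a'
    generalize (F v).2.1 = b
    generalize (F (v + P (-1) 0 0)).2.1 = b'
    revert a a' b b'
    decide
  · simp only [ox, oy, Matrix.cons_val_one, Fin.mk_one, Fin.isValue, pick]
    norm_num
    intro e1 e2 e3 e4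
    rw [e1, e2, e3, e4]
    revert c
    generalize (F v).1 = a
    generalize (F (v + P 0 (-1) 0)).1 = a'
    generalize (F v).2.1 = b
    generalize (F (v + P (-1) 0 0)).2.1 = b'
    revert a a' b b'
    decide
  · simp only [ox, oy, Matrix.cons_val, Fin.reduceFinMk, Fin.isValue]
    simp only [show (2 - 1 : Fin 4) = 1 from rfl, pick]
    norm_num
    intro e1 e2 e3 e4
    rw [e1, e2, e3, e4]
    revert c
    generalize (F v).1 = a
    generalize (F (v + P 0 (-1) 0)).1 = a'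
    generalize (F v).2.1 = b
    generalize (F (v + P (-1) 0 0)).2.1 = b'
    revert a a' b b'
    decide
  · simp only [ox, oy, Matrix.cons_val, Fin.reduceFinMk, Fin.isValue]
    simp only [show (3 - 1 : Fin 4) = 2 from rfl, pick]
    norm_num
    intro e1 e2 e3 e4
    rw [e1, e2, e3, e4]
    revert c
    generalize (F v).1 = a
    generalize (F (v + P 0 (-1) 0)).1 = a'
    generalize (F v).2.1 = b
    generalize (F (v + P (-1) 0 0)).2.1 = b'
    revert a a' b b'
    decide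

lemma valid {F : Fd n} (hF : Good F) (g : V n) : Valid (FA F g) (FU F g) := by
  have c0 := hF.curv (g + P 0 0 2)
  have c1 := hF.curv (g + P 1 0 2)
  have c2 := hF.curv (g + P 1 1 2)
  have c3 := hF.curv (g + P 0 1 2)
  simp only [vP] at c0 c1 c2 c3
  norm_num at c0 c1 c2 c3
  refine ⟨?_, ?_, ?_, ?_⟩
  · simp only [FA, FU, pick, uu, vP]
    norm_num
    revert c0
    generalize (F (g + P 0 0 2)).1 = a
    generalize (F (g + P 0 (-1) 2)).1 = a'
    generalize (F (g + P 0 0 2)).2.1 = b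
    generalize (F (g + P (-1) 0 2)).2.1 = b'
    revert a a' b b'
    decide
  · simp only [FA, FU, pick, uu, vP]
    norm_num
    revert c1
    generalize (F (g + P 1 0 2)).1 = a
    generalize (F (g + P 1 (-1) 2)).1 = a'
    generalize (F (g + P 1 0 2)).2.1 = b
    generalize (F (g + P 0 0 2)).2.1 = b'
    revert a a' b b'
    decide
  · simp only [FA, FU, pick, uu, vP]
    norm_num
    revert c2
    generalize (F (g + P 1 1 2)).1 = a
    generalize (F (g + P 1 0 2)).1 = a'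
    generalize (F (g + P 1 1 2)).2.1 = b
    generalize (F (g + P 0 1 2)).2.1 = b'
    revert a a' b b'
    decide
  · simp only [FA, FU, pick, uu, vP]
    norm_num
    revert c3
    generalize (F (g + P 0 1 2)).1 = a
    generalize (F (g + P 0 0 2)).1 = a'
    generalize (F (g + P 0 1 2)).2.1 = b
    generalize (F (g + P (-1) 1 2)).2.1 = b'
    revert a a' b b'
    decide

lemma FU_apply (F : Fd n) (g : V n) (i : Fin 4) :
    FU F g i = uu F (g + P (ox i) (oy i) 2) := by
  fin_cases i <;> rfl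

lemma W_add (v : V n) (i : Fin 4) (k l : ℕ) :
    v + P 0 0 (l : ℤ) + W i (k + l) = v + W i k := by
  simp only [W, vP]
  congr 2 <;> push_cast <;> ring

lemma W_sub (v : V n) (i : Fin 4) (k l : ℕ) :
    v + P 0 0 (-(l : ℤ)) + W i k = v + W i (k + l) := by
  simp only [W, vP]
  congr 2 <;> push_cast <;> ring

lemma up_iff {F : Fd n} (hF : Good F) {v : V n} {i : Fin 4} {k : ℕ} (h : Fl F (v + W i k))
    (hk : k ≤ 6) :
    up F v ↔ uh (FA F (v + W i k)) (FU F (v + W i k)) i k = true := by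
  have noflip : ∀ l : ℕ, l ≤ 6 → l ≠ k → ∀ j, ¬ Fl F (v + W j l) := by
    intro l hl hlk j hj
    exact hlk (win_unique hF hj h hl hk).2
  by_cases hk0 : k = 0
  · subst hk0
    have hnu : ¬ upw F v := by
      rintro ⟨j, l, hl1, hl2, hl⟩
      exact noflip l (by omega) (by omega) j hl
    have e1 : up F v ↔ uu F v = true := by
      constructor
      · rintro (⟨j, l, hl1, hl2, hl, -⟩ | ⟨-, h⟩)
        · exact absurd ⟨j, l, hl1, hl2, hl⟩ hnu
        · exact h
      · exact fun h => Or.inr ⟨hnu, h⟩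
    rw [e1]
    show _ ↔ FU F (v + W i 0) i = true
    rw [FU_apply]
    have e2 : v + W i 0 + P (ox i) (oy i) 2 = v + P 0 0 2 := by
      rw [W, vP]
      congr 2 <;> simp
    rw [e2]
    have t1 := uu_toggle hF (v := v + P 0 0 2) (by
      intro j
      have := W_add v j 1 2
      norm_num at this
      rw [this]
      exact noflip 1 (by norm_num) (by norm_num) j)
    have t2 := uu_toggle hF (v := v + P 0 0 1) (by
      intro j
      have := W_add v j 2 1
      norm_num at this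
      rw [this]
      exact noflip 2 (by norm_num) (by norm_num) j)
    rw [vP] at t1 t2
    norm_num [P_zero] at t1 t2
    rw [t2, t1]
    simp
  by_cases hk6 : k = 6
  · subst hk6
    have hnu : ¬ upw F v := by
      rintro ⟨j, l, hl1, hl2, hl⟩
      exact noflip l (by omega) (by omega) j hl
    have e1 : up F v ↔ uu F v = true := by
      constructor
      · rintro (⟨j, l, hl1, hl2, hl, -⟩ | ⟨-, h⟩)
        · exact absurd ⟨j, l, hl1, hl2, hl⟩ hnu
        · exact h
      · exact fun h => Or.inr ⟨hnu, h⟩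
    rw [e1, uh_six (valid hF _), FU_apply]
    have e2 : v + W i 6 + P (ox i) (oy i) 2 = v + P 0 0 (-4) := by
      rw [W, vP]
      congr 2 <;> simp
    rw [e2]
    have t1 := uu_toggle hF (v := v) (noflip 3 (by norm_num) (by norm_num))
    have t2 := uu_toggle hF (v := v + P 0 0 (-1)) (by
      intro j
      have := W_sub v j 3 1
      norm_num at this
      rw [this]
      exact noflip 4 (by norm_num) (by norm_num) j)
    have t3 := uu_toggle hF (v := v + P 0 0 (-2)) (by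
      intro j
      have := W_sub v j 3 2
      norm_num at this
      rw [this]
      exact noflip 5 (by norm_num) (by norm_num) j)
    have e3 := W_sub v i 3 3
    norm_num at e3
    have t4 := uu_flip hF (v := v + P 0 0 (-3)) (i := i) (by rw [e3]; exact h)
    rw [e3] at t4
    rw [vP] at t2 t3 t4
    norm_num at t2 t3 t4
    rw [t1] at t2
    rw [t2] at t3
    rw [t3] at t4
    norm_num
    revert t4
    generalize uu F v = x
    generalize uu F (v + P 0 0 (-4)) = y
    by_cases hc : FA F (v + W i 6) i = FA F (v + W i 6) (i - 1)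
    · simp only [hc, if_true]
      revert x y
      decide
    · simp only [hc, if_false]
      revert x y
      decide
  · constructor
    · rintro (⟨j, l, hl1, hl2, hl, hl3⟩ | ⟨hnu, -⟩)
      · obtain ⟨rfl, rfl⟩ := win_unique hF h hl hk (by omega)
        exact hl3
      · exact absurd ⟨i, k, by omega, by omega, h⟩ hnu
    · intro hu
      exact Or.inl ⟨i, k, by omega, by omega, h, hu⟩

lemma hev_iff {F : Fd n} (hF : Good F) {v : V n} {i : Fin 4} {k : ℕ} (h : Fl F (v + W i k))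
    (hk1 : 1 ≤ k) (hk : k ≤ 6) (j : Fin 4) :
    hev F v j ↔ (j = i ∧ EE (FA F (v + W i k)) (FU F (v + W i k)) i k = true) := by
  constructor
  · rintro ⟨l, hl1, hl2, hl, hE⟩
    obtain ⟨rfl, rfl⟩ := win_unique hF h hl hk hl2
    exact ⟨rfl, hE⟩
  · rintro ⟨rfl, hE⟩
    exact ⟨k, hk1, hk, h, hE⟩

/-- moving to the neighbouring line -/
lemma hev_iff' {F : Fd n} (hF : Good F) {v : V n} {i : Fin 4} {k : ℕ} (h : Fl F (v + W i k))
    (hk1 : 1 ≤ k) (hk : k ≤ 6) (j : Fin 4) :
    hev F (v + P (ox j - ox (j + 1)) (oy j - oy (j + 1)) 0) j ↔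
      (j + 1 = i ∧ EE (FA F (v + W i k)) (FU F (v + W i k)) (i - 1) k = true) := by
  have key : ∀ l : ℕ, v + P (ox j - ox (j + 1)) (oy j - oy (j + 1)) 0 + W j l = v + W (j + 1) l := by
    intro l
    simp only [W, vP]
    congr 2 <;> ring
  constructor
  · rintro ⟨l, hl1, hl2, hl, hE⟩
    rw [key] at hl hE
    obtain ⟨rfl, rfl⟩ := win_unique hF h hl hk hl2
    refine ⟨rfl, ?_⟩
    have : j + 1 - 1 = j := by abel
    rw [this]
    exact hE
  · rintro ⟨rfl, hE⟩
    refine ⟨k, hk1, hk, ?_, ?_⟩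
    · rw [key]; exact h
    · rw [key]
      have : j + 1 - 1 = j := by abel
      rw [this] at hE
      exact hE

lemma hev_none {F : Fd n} {v : V n} (h : ∀ (i : Fin 4) (k : ℕ), 1 ≤ k → k ≤ 6 → ¬ Fl F (v + W i k))
    (j : Fin 4) : ¬ hev F v j := by
  rintro ⟨l, hl1, hl2, hl, -⟩
  exact h _ _ hl1 hl2 hl

lemma hev_none' {F : Fd n} {v : V n} (h : ∀ (i : Fin 4) (k : ℕ), 1 ≤ k → k ≤ 6 → ¬ Fl F (v + W i k))
    (j : Fin 4) : ¬ hev F (v + P (ox j - ox (j + 1)) (oy j - oy (j + 1)) 0) j := by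
  rintro ⟨l, hl1, hl2, hl, -⟩
  apply h (j + 1) l hl1 hl2
  convert hl using 1
  simp only [W, vP]
  congr 2 <;> ring

def dec6 : Fin 6 → Letter (n + 3) := ![(⟨2, by omega⟩, true), (⟨2, by omega⟩, false),
  (⟨0, by omega⟩, true), (⟨0, by omega⟩, false), (⟨1, by omega⟩, true), (⟨1, by omega⟩, false)]

def code (F : Fd n) (v : V n) : Fin 6 → Prop := ![up F v, up F (v + P 0 0 (-1)), cov0 F v,
  cov0 F (v + P (-1) 0 0), cov1 F v, cov1 F (v + P 0 (-1) 0)]

lemma CC_iff (F : Fd n) (v : V n) (a : Letter (n + 3)) :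
    CC F v a ↔ ∃ j, a = dec6 j ∧ code F v j := by
  constructor
  · obtain ⟨⟨k, hk⟩, s⟩ := a
    rintro (⟨h0, ⟨h1, h2⟩ | ⟨h1, h2⟩⟩ | ⟨h0, ⟨h1, h2⟩ | ⟨h1, h2⟩⟩ | ⟨h0, ⟨h1, h2⟩ | ⟨h1, h2⟩⟩) <;>
      simp only at h0 h1 <;> subst h0 h1
    · exact ⟨2, rfl, h2⟩
    · exact ⟨3, rfl, h2⟩
    · exact ⟨4, rfl, h2⟩
    · exact ⟨5, rfl, h2⟩
    · exact ⟨0, rfl, h2⟩
    · exact ⟨1, rfl, h2⟩
  · rintro ⟨j, rfl, h⟩
    fin_cases j
    · exact Or.inr (Or.inr ⟨rfl, Or.inl ⟨rfl, h⟩⟩)
    · exact Or.inr (Or.inr ⟨rfl, Or.inr ⟨rfl, h⟩⟩)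
    · exact Or.inl ⟨rfl, Or.inl ⟨rfl, h⟩⟩
    · exact Or.inl ⟨rfl, Or.inr ⟨rfl, h⟩⟩
    · exact Or.inr (Or.inl ⟨rfl, Or.inl ⟨rfl, h⟩⟩)
    · exact Or.inr (Or.inl ⟨rfl, Or.inr ⟨rfl, h⟩⟩)

lemma exu {F : Fd n} {v : V n} (r : Fin 6) (h : ∀ j, code F v j ↔ j = r) : ∃! a, CC F v a := by
  refine ⟨dec6 r, (CC_iff F v _).2 ⟨r, rfl, (h r).2 rfl⟩, ?_⟩
  intro a ha
  obtain ⟨j, rfl, hj⟩ := (CC_iff F v a).1 ha
  rw [(h j).1 hj]

lemma exists_unique_CC {F : Fd n} (hF : Good F) (v : V n) : ∃! a, CC F v a := by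
  by_cases hw : ∃ (i : Fin 4) (k : ℕ), 1 ≤ k ∧ k ≤ 6 ∧ Fl F (v + W i k)
  · obtain ⟨i, k, hk1, hk6, h⟩ := hw
    have hex := uh_exact (valid hF (v + W i k)) i hk1 hk6
    have u1 := up_iff hF h hk6
    have hs : v + P 0 0 (-1) + W i (k - 1) = v + W i k := by
      have := W_sub v i (k - 1) 1
      rw [Nat.sub_add_cancel hk1] at this
      exact_mod_cast this
    have u2 := up_iff hF (v := v + P 0 0 (-1)) (i := i) (k := k - 1) (by rw [hs]; exact h) (by omega)
    rw [hs] at u2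
    have a := hev_iff hF h hk1 hk6
    have b := hev_iff' hF h hk1 hk6
    have b0 := b 0
    have b1 := b 1
    have b2 := b 2
    have b3 := b 3
    have o1 : (0 : Fin 4) + 1 = 1 := rfl
    have o2 : (1 : Fin 4) + 1 = 2 := rfl
    have o3 : (2 : Fin 4) + 1 = 3 := rfl
    have o4 : (3 : Fin 4) + 1 = 0 := rfl
    simp only [ox, oy, o1, o2, o3, o4, Matrix.cons_val_zero, Matrix.cons_val_one, Matrix.cons_val] at b0 b1 b2 b3
    norm_num at b0 b1 b2 b3
    have c0 : cov0 F v ↔ _ := or_congr (a 0) b2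
    have c1 : cov1 F v ↔ _ := or_congr (a 1) b3
    have z1 : v + P (-1) 0 0 + P 1 0 0 = v := by rw [vP]; norm_num [P_zero]
    have z2 : v + P 0 (-1) 0 + P 0 1 0 = v := by rw [vP]; norm_num [P_zero]
    have c0' : cov0 F (v + P (-1) 0 0) ↔
        (1 = i ∧ EE (FA F (v + W i k)) (FU F (v + W i k)) (i - 1) k = true) ∨
        (2 = i ∧ EE (FA F (v + W i k)) (FU F (v + W i k)) i k = true) := or_congr b0
      (by rw [z1]; exact a 2)
    have c1' : cov1 F (v + P 0 (-1) 0) ↔
        (2 = i ∧ EE (FA F (v + W i k)) (FU F (v + W i k)) (i - 1) k = true) ∨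
        (3 = i ∧ EE (FA F (v + W i k)) (FU F (v + W i k)) i k = true) := or_congr b1
      (by rw [z2]; exact a 3)
    clear z1 z2
    revert hex u1 u2 c0 c1 c0' c1'
    generalize uh (FA F (v + W i k)) (FU F (v + W i k)) i k = x1
    generalize uh (FA F (v + W i k)) (FU F (v + W i k)) i (k - 1) = x2
    generalize EE (FA F (v + W i k)) (FU F (v + W i k)) i k = x3
    generalize EE (FA F (v + W i k)) (FU F (v + W i k)) (i - 1) k = x4
    clear a b b0 b1 b2 b3
    intro hex u1 u2 c0 c1 c0' c1'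
    rcases hex with ⟨rfl, rfl, rfl, rfl⟩ | ⟨rfl, rfl, rfl, rfl⟩ | ⟨rfl, rfl, rfl, rfl⟩ | ⟨rfl, rfl, rfl, rfl⟩
    · exact exu 0 (by intro j; fin_cases j <;> simp [code, u1, u2, c0, c1, c0', c1'])
    · exact exu 1 (by intro j; fin_cases j <;> simp [code, u1, u2, c0, c1, c0', c1'])
    · fin_cases i
      · exact exu 2 (by intro j; fin_cases j <;> simp [code, u1, u2, c0, c1, c0', c1'])
      · exact exu 4 (by intro j; fin_cases j <;> simp [code, u1, u2, c0, c1, c0', c1'])
      · exact exu 3 (by intro j; fin_cases j <;> simp [code, u1, u2, c0, c1, c0', c1'])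
      · exact exu 5 (by intro j; fin_cases j <;> simp [code, u1, u2, c0, c1, c0', c1'])
    · fin_cases i
      · exact exu 4 (by intro j; fin_cases j <;> simp [code, u1, u2, c0, c1, c0', c1'])
      · exact exu 3 (by intro j; fin_cases j <;> simp [code, u1, u2, c0, c1, c0', c1'])
      · exact exu 5 (by intro j; fin_cases j <;> simp [code, u1, u2, c0, c1, c0', c1'])
      · exact exu 2 (by intro j; fin_cases j <;> simp [code, u1, u2, c0, c1, c0', c1'])
  · have hno : ∀ (i : Fin 4) (k : ℕ), 1 ≤ k → k ≤ 6 → ¬ Fl F (v + W i k) := by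
      intro i k h1 h2 h3
      exact hw ⟨i, k, h1, h2, h3⟩
    have hnu : ¬ upw F v := by
      rintro ⟨j, l, hl1, hl2, hl⟩
      exact hno j l hl1 (by omega) hl
    have hnu' : ¬ upw F (v + P 0 0 (-1)) := by
      rintro ⟨j, l, hl1, hl2, hl⟩
      have := W_sub v j l 1
      norm_num at this
      rw [this] at hl
      exact hno j (l + 1) (by omega) (by omega) hl
    have e1 : up F v ↔ uu F v = true := by
      constructor
      · rintro (⟨j, l, hl1, hl2, hl, -⟩ | ⟨-, h⟩)
        · exact absurd ⟨j, l, hl1, hl2, hl⟩ hnu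
        · exact h
      · exact fun h => Or.inr ⟨hnu, h⟩
    have e2 : up F (v + P 0 0 (-1)) ↔ uu F (v + P 0 0 (-1)) = true := by
      constructor
      · rintro (⟨j, l, hl1, hl2, hl, -⟩ | ⟨-, h⟩)
        · exact absurd ⟨j, l, hl1, hl2, hl⟩ hnu'
        · exact h
      · exact fun h => Or.inr ⟨hnu', h⟩
    rw [uu_toggle hF (fun i => hno i 3 (by norm_num) (by norm_num))] at e2
    have a := fun j => hev_none hno j
    have b := fun j => hev_none' hno j
    have b0 := b 0
    have b1 := b 1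
    have b2 := b 2
    have b3 := b 3
    have o1 : (0 : Fin 4) + 1 = 1 := rfl
    have o2 : (1 : Fin 4) + 1 = 2 := rfl
    have o3 : (2 : Fin 4) + 1 = 3 := rfl
    have o4 : (3 : Fin 4) + 1 = 0 := rfl
    simp only [ox, oy, o1, o2, o3, o4, Matrix.cons_val_zero, Matrix.cons_val_one, Matrix.cons_val] at b0 b1 b2 b3
    norm_num at b0 b1 b2 b3
    have c0 : ¬ cov0 F v := by
      rintro (h | h)
      · exact a 0 h
      · exact b2 h
    have c1 : ¬ cov1 F v := by
      rintro (h | h)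
      · exact a 1 h
      · exact b3 h
    have c0' : ¬ cov0 F (v + P (-1) 0 0) := by
      rintro (h | h)
      · exact b0 h
      · rw [vP] at h
        norm_num [P_zero] at h
        exact a 2 h
    have c1' : ¬ cov1 F (v + P 0 (-1) 0) := by
      rintro (h | h)
      · exact b1 h
      · rw [vP] at h
        norm_num [P_zero] at h
        exact a 3 h
    rcases Bool.eq_false_or_eq_true (uu F v) with hu | hu
    · rw [hu] at e1 e2
      exact exu 0 (by intro j; fin_cases j <;> simp [code, e1, e2, c0, c1, c0', c1'])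
    · rw [hu] at e1 e2
      exact exu 1 (by intro j; fin_cases j <;> simp [code, e1, e2, c0, c1, c0', c1'])

lemma vec_0t : (vec (d := n + 3) (⟨0, by omega⟩, true)) = P 1 0 0 := by
  funext i
  simp only [vec, P, Pi.single_apply, Fin.ext_iff]
  split_ifs <;> first | rfl | omega
lemma vec_0f : (vec (d := n + 3) (⟨0, by omega⟩, false)) = P (-1) 0 0 := by
  funext i
  simp only [vec, P, Pi.single_apply, Fin.ext_iff]
  split_ifs <;> first | rfl | omega
lemma vec_1t : (vec (d := n + 3) (⟨1, by omega⟩, true)) = P 0 1 0 := by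
  funext i
  simp only [vec, P, Pi.single_apply, Fin.ext_iff]
  split_ifs <;> first | rfl | omega
lemma vec_1f : (vec (d := n + 3) (⟨1, by omega⟩, false)) = P 0 (-1) 0 := by
  funext i
  simp only [vec, P, Pi.single_apply, Fin.ext_iff]
  split_ifs <;> first | rfl | omega
lemma vec_2t : (vec (d := n + 3) (⟨2, by omega⟩, true)) = P 0 0 1 := by
  funext i
  simp only [vec, P, Pi.single_apply, Fin.ext_iff]
  split_ifs <;> first | rfl | omega
lemma vec_2f : (vec (d := n + 3) (⟨2, by omega⟩, false)) = P 0 0 (-1) := by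
  funext i
  simp only [vec, P, Pi.single_apply, Fin.ext_iff]
  split_ifs <;> first | rfl | omega

lemma CC_opp {F : Fd n} {v : V n} {a : Letter (n + 3)} (h : CC F v a) :
    CC F (v + vec a) (opp a) := by
  obtain ⟨j, rfl, hj⟩ := (CC_iff F v a).1 h
  rw [CC_iff]
  fin_cases j
  · refine ⟨1, rfl, ?_⟩
    show up F (v + vec (d := n + 3) (⟨2, by omega⟩, true) + P 0 0 (-1))
    rw [vec_2t, vP]
    norm_num [P_zero]
    exact hj
  · refine ⟨0, rfl, ?_⟩
    show up F (v + vec (d := n + 3) (⟨2, by omega⟩, false))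
    rw [vec_2f]
    exact hj
  · refine ⟨3, rfl, ?_⟩
    show cov0 F (v + vec (d := n + 3) (⟨0, by omega⟩, true) + P (-1) 0 0)
    rw [vec_0t, vP]
    norm_num [P_zero]
    exact hj
  · refine ⟨2, rfl, ?_⟩
    show cov0 F (v + vec (d := n + 3) (⟨0, by omega⟩, false))
    rw [vec_0f]
    exact hj
  · refine ⟨5, rfl, ?_⟩
    show cov1 F (v + vec (d := n + 3) (⟨1, by omega⟩, true) + P 0 (-1) 0)
    rw [vec_1t, vP]
    norm_num [P_zero]
    exact hj
  · refine ⟨4, rfl, ?_⟩
    show cov1 F (v + vec (d := n + 3) (⟨1, by omega⟩, false))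
    rw [vec_1f]
    exact hj

lemma TT_spec {F : Fd n} (hF : Good F) (v : V n) : CC F v (TT F v) := by
  have h := (exists_unique_CC hF v).exists
  rw [TT, sel, dif_pos h]
  exact h.choose_spec

theorem TT_mem {F : Fd n} (hF : Good F) : TT F ∈ DominoTilings (n + 3) := by
  intro v
  exact (exists_unique_CC hF _).unique (TT_spec hF _) (CC_opp (TT_spec hF v))

end V11110.DT
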