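import Pool.Agent.V11110.DT2

/-! Domino tilings of `ℝ^d`: locality, equivariance, fields of `m`. -/

namespace V11110.DT

variable {n : ℕ}

/-- agreement of two fields near `v` -/
def Agr (r : ℤ) (F F' : Fd n) (v : V n) : Prop :=
  ∀ a b c : ℤ, |a| ≤ r → |b| ≤ r → |c| ≤ r → F (v + P a b c) = F' (v + P a b c)

lemma Agr.symm {r : ℤ} {F F' : Fd n} {v : V n} (h : Agr r F F' v) : Agr r F' F v :=
  fun a b c ha hb hc => (h a b c ha hb hc).symm

lemma Agr.shift {r : ℤ} {F F' : Fd n} {v : V n} (h : Agr r F F' v) {s x y z : ℤ}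
    (hx : |x| ≤ s) (hy : |y| ≤ s) (hz : |z| ≤ s) : Agr (r - s) F F' (v + P x y z) := by
  intro a b c ha hb hc
  rw [vP]
  apply h
  · calc |x + a| ≤ |x| + |a| := abs_add_le _ _
      _ ≤ r := by linarith
  · calc |y + b| ≤ |y| + |b| := abs_add_le _ _
      _ ≤ r := by linarith
  · calc |z + c| ≤ |z| + |c| := abs_add_le _ _
      _ ≤ r := by linarith

lemma Agr.mono {r s : ℤ} {F F' : Fd n} {v : V n} (h : Agr r F F' v) (hs : s ≤ r) :
    Agr s F F' v :=
  fun a b c ha hb hc => h a b c (ha.trans hs) (hb.trans hs) (hc.trans hs)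

lemma uu_congr {F F' : Fd n} {v : V n} (h : Agr 1 F F' v) : uu F v = uu F' v := by
  have h0 := h 0 0 0 (by norm_num) (by norm_num) (by norm_num)
  rw [P_zero, add_zero] at h0
  simp only [uu]
  rw [h0, h 0 (-1) 0 (by norm_num) (by norm_num) (by norm_num),
    h (-1) 0 0 (by norm_num) (by norm_num) (by norm_num)]

lemma FA_congr {F F' : Fd n} {v : V n} (h : Agr 3 F F' v) : FA F v = FA F' v := by
  simp only [FA]
  rw [h 0 0 2 (by norm_num) (by norm_num) (by norm_num),
    h 1 0 2 (by norm_num) (by norm_num) (by norm_num),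
    h 0 1 2 (by norm_num) (by norm_num) (by norm_num)]

lemma FU_congr {F F' : Fd n} {v : V n} (h : Agr 3 F F' v) : FU F v = FU F' v := by
  simp only [FU]
  rw [uu_congr ((h.shift (s := 2) (x := 0) (y := 0) (z := 2) (by norm_num) (by norm_num) (by norm_num)).mono (by norm_num)),
    uu_congr ((h.shift (s := 2) (x := 1) (y := 0) (z := 2) (by norm_num) (by norm_num) (by norm_num)).mono (by norm_num)),
    uu_congr ((h.shift (s := 2) (x := 1) (y := 1) (z := 2) (by norm_num) (by norm_num) (by norm_num)).mono (by norm_num)),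
    uu_congr ((h.shift (s := 2) (x := 0) (y := 1) (z := 2) (by norm_num) (by norm_num) (by norm_num)).mono (by norm_num))]

lemma Fl_congr {F F' : Fd n} {v : V n} (h : Agr 3 F F' v) : Fl F v ↔ Fl F' v := by
  simp only [Fl]
  rw [h 0 0 3 (by norm_num) (by norm_num) (by norm_num)]

lemma Agr.win {F F' : Fd n} {v : V n} (h : Agr 9 F F' v) (i : Fin 4) {k : ℕ} (hk : k ≤ 6) :
    Agr 3 F F' (v + W i k) := by
  rw [W]
  apply (h.shift (s := 6) _ _ _).mono (by norm_num)
  · fin_cases i <;> simp [ox]
  · fin_cases i <;> simp [oy]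
  · rw [abs_neg, abs_le]
    constructor <;> omega

lemma hev_mp {F F' : Fd n} {v : V n} (h : Agr 9 F F' v) (i : Fin 4) (hh : hev F v i) :
    hev F' v i := by
  obtain ⟨k, h1, h2, h3, h4⟩ := hh
  have hw := h.win i h2
  exact ⟨k, h1, h2, (Fl_congr hw).1 h3, by rw [← FA_congr hw, ← FU_congr hw]; exact h4⟩

lemma upw_mp {F F' : Fd n} {v : V n} (h : Agr 9 F F' v) (hh : upw F v) : upw F' v := by
  obtain ⟨i, k, h1, h2, h3⟩ := hh
  have hw := h.win i (k := k) (by omega)
  exact ⟨i, k, h1, h2, (Fl_congr hw).1 h3⟩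

lemma up_mp {F F' : Fd n} {v : V n} (h : Agr 9 F F' v) (hh : up F v) : up F' v := by
  rcases hh with ⟨i, k, h1, h2, h3, h4⟩ | ⟨h1, h2⟩
  · have hw := h.win i (k := k) (by omega)
    exact Or.inl ⟨i, k, h1, h2, (Fl_congr hw).1 h3, by rw [← FA_congr hw, ← FU_congr hw]; exact h4⟩
  · exact Or.inr ⟨fun hu => h1 (upw_mp h.symm hu), by rw [← uu_congr (h.mono (by norm_num))]; exact h2⟩

lemma cov0_mp {F F' : Fd n} {v : V n} (h : Agr 10 F F' v) (hh : cov0 F v) : cov0 F' v := by
  rcases hh with h1 | h1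
  · exact Or.inl (hev_mp (h.mono (by norm_num)) _ h1)
  · exact Or.inr (hev_mp ((h.shift (s := 1) (by norm_num) (by norm_num) (by norm_num)).mono (by norm_num)) _ h1)

lemma cov1_mp {F F' : Fd n} {v : V n} (h : Agr 10 F F' v) (hh : cov1 F v) : cov1 F' v := by
  rcases hh with h1 | h1
  · exact Or.inl (hev_mp (h.mono (by norm_num)) _ h1)
  · exact Or.inr (hev_mp ((h.shift (s := 1) (by norm_num) (by norm_num) (by norm_num)).mono (by norm_num)) _ h1)

lemma code_mp {F F' : Fd n} {v : V n} (h : Agr 11 F F' v) (j : Fin 6) (hh : code F v j) :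
    code F' v j := by
  have h1 := h.mono (s := 10) (by norm_num)
  have h2 := h.mono (s := 9) (by norm_num)
  fin_cases j
  · exact up_mp h2 hh
  · exact up_mp ((h.shift (s := 1) (by norm_num) (by norm_num) (by norm_num)).mono (by norm_num)) hh
  · exact cov0_mp h1 hh
  · exact cov0_mp ((h.shift (s := 1) (by norm_num) (by norm_num) (by norm_num)).mono (by norm_num)) hh
  · exact cov1_mp h1 hh
  · exact cov1_mp ((h.shift (s := 1) (by norm_num) (by norm_num) (by norm_num)).mono (by norm_num)) hh

lemma TT_congr {F F' : Fd n} {v : V n} (h : Agr 11 F F' v) : TT F v = TT F' v := by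
  have : CC F v = CC F' v := by
    funext a
    apply propext
    rw [CC_iff, CC_iff]
    constructor
    · rintro ⟨j, h1, h2⟩
      exact ⟨j, h1, code_mp h j h2⟩
    · rintro ⟨j, h1, h2⟩
      exact ⟨j, h1, code_mp h.symm j h2⟩
  rw [TT, TT, this]

/-- translation of a field -/
def sh (u : V n) (F : Fd n) : Fd n := fun v => F (u + v)

lemma uu_sh (u : V n) (F : Fd n) (v : V n) : uu (sh u F) v = uu F (u + v) := by
  simp only [uu, sh, add_assoc]

lemma FA_sh (u : V n) (F : Fd n) (v : V n) : FA (sh u F) v = FA F (u + v) := by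
  simp only [FA, sh, add_assoc]

lemma FU_sh (u : V n) (F : Fd n) (v : V n) : FU (sh u F) v = FU F (u + v) := by
  simp only [FU, uu_sh, add_assoc]

lemma Fl_sh (u : V n) (F : Fd n) (v : V n) : Fl (sh u F) v ↔ Fl F (u + v) := by
  simp only [Fl, sh, add_assoc]

lemma hev_sh (u : V n) (F : Fd n) (v : V n) (i : Fin 4) : hev (sh u F) v i ↔ hev F (u + v) i := by
  simp only [hev, Fl_sh, FA_sh, FU_sh, add_assoc]

lemma upw_sh (u : V n) (F : Fd n) (v : V n) : upw (sh u F) v ↔ upw F (u + v) := by
  simp only [upw, Fl_sh, add_assoc]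

lemma up_sh (u : V n) (F : Fd n) (v : V n) : up (sh u F) v ↔ up F (u + v) := by
  simp only [up, upw_sh, uu_sh, Fl_sh, FA_sh, FU_sh, add_assoc]

lemma cov0_sh (u : V n) (F : Fd n) (v : V n) : cov0 (sh u F) v ↔ cov0 F (u + v) := by
  simp only [cov0, hev_sh, add_assoc]

lemma cov1_sh (u : V n) (F : Fd n) (v : V n) : cov1 (sh u F) v ↔ cov1 F (u + v) := by
  simp only [cov1, hev_sh, add_assoc]

lemma TT_sh (u : V n) (F : Fd n) (v : V n) : TT (sh u F) v = TT F (u + v) := by
  have : CC (sh u F) v = CC F (u + v) := by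
    funext a
    apply propext
    simp only [CC, up_sh, cov0_sh, cov1_sh, add_assoc]
  rw [TT, TT, this]

abbrev i1 : Fin (n + 3) := ⟨1, by omega⟩
abbrev i2 : Fin (n + 3) := ⟨2, by omega⟩
abbrev i0 : Fin (n + 3) := ⟨0, by omega⟩

/-- the field of `m` -/
def fld (m : V n → Bool) : Fd n := fun v =>
  (m v ^^ m (v + P (-1) 0 0) ^^ (v i1 + v i2).bodd,
   m v ^^ m (v + P 0 (-1) 0) ^^ (v i2).bodd,
   m v ^^ m (v + P 0 0 (-1)))

/-- admissible pairs -/
structure Adm (m S : V n → Bool) : Prop where
  flip : ∀ v, S v = false → m v = m (v + P 0 0 (-1))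
  indep : ∀ v w, Conf v w → ¬ (S v = true ∧ S w = true)
  maxl : ∀ v, S v = false → ∃ w, Conf v w ∧ S w = true

lemma Conf.translate {v w : V n} (h : Conf v w) (u : V n) : Conf (u + v) (u + w) := by
  obtain ⟨h1, a, b, c, h2, h3⟩ := h
  refine ⟨fun h => h1 (add_left_cancel h), a, b, c, ?_, h3⟩
  rw [h2, add_assoc]

lemma Conf.symm {v w : V n} (h : Conf v w) : Conf w v := by
  obtain ⟨h1, a, b, c, h2, h3⟩ := h
  refine ⟨fun h => h1 h.symm, -a, -b, -c, ?_, ?_⟩
  · rw [h2, vP]
    simp [P_zero]
  · simpa using h3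

lemma at1 (v : V n) (a b c : ℤ) : (v + P a b c : V n) i1 = v i1 + b := by simp [P]
lemma at2 (v : V n) (a b c : ℤ) : (v + P a b c : V n) i2 = v i2 + c := by simp [P]

lemma fld_good {m S : V n → Bool} (h : Adm m S) : Good (fld m) := by
  have hb : (-1 : ℤ).bodd = true := rfl
  have hz : (0 : ℤ).bodd = false := rfl
  refine ⟨?_, ?_, ?_, ?_⟩
  · intro v
    simp only [fld, vP, at1, at2, Int.bodd_add, hb, hz]
    norm_num only
    generalize m v = a
    generalize m (v + P (-1) 0 0) = b
    generalize m (v + P 0 (-1) 0) = c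
    generalize m (v + P (-1) (-1) 0) = d
    generalize (v i1).bodd = e
    generalize (v i2).bodd = f
    revert a b c d e f
    decide
  · intro v
    simp only [fld, vP, at1, at2, Int.bodd_add, hb, hz]
    norm_num only
    generalize m v = a
    generalize m (v + P (-1) 0 0) = b
    generalize m (v + P 0 0 (-1)) = c
    generalize m (v + P (-1) 0 (-1)) = d
    generalize (v i1).bodd = e
    generalize (v i2).bodd = f
    revert a b c d e f
    decide
  · intro v
    simp only [fld, vP, at1, at2, Int.bodd_add, hb, hz]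
    norm_num only
    generalize m v = a
    generalize m (v + P 0 (-1) 0) = b
    generalize m (v + P 0 0 (-1)) = c
    generalize m (v + P 0 (-1) (-1)) = d
    generalize (v i2).bodd = f
    revert a b c d f
    decide
  · intro g g' h1 h2 hc
    have key : ∀ g, Fl (fld m) g → S (g + P 0 0 3) = true := by
      intro g hg
      by_contra hne
      rw [Bool.not_eq_true] at hne
      have := h.flip _ hne
      simp only [Fl, fld, bne_iff_ne, ne_eq] at hg
      exact hg this
    have hc' := hc.translate (P 0 0 3)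
    rw [add_comm _ g, add_comm _ g'] at hc'
    exact h.indep _ _ hc' ⟨key g h1, key g' h2⟩

/-- the translated `m`, corrected so that the fields correspond -/
def shm (u : V n) (m : V n → Bool) : V n → Bool := fun v =>
  m (u + v) ^^ (((u i1).bodd ^^ (u i2).bodd) && (v i0).bodd) ^^ ((u i2).bodd && (v i1).bodd)

lemma at0 (v : V n) (a b c : ℤ) : (v + P a b c : V n) i0 = v i0 + a := by simp [P]

lemma Pv0 (a b c : ℤ) : (P a b c : V n) i0 = a := by simp [P]
lemma Pv1 (a b c : ℤ) : (P a b c : V n) i1 = b := by simp [P]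

lemma fld_shm (u : V n) (m : V n → Bool) : fld (shm u m) = sh u (fld m) := by
  have hb : (-1 : ℤ).bodd = true := rfl
  have hz : (0 : ℤ).bodd = false := rfl
  funext v
  simp only [fld, sh, shm, Pv0, Pv1, Int.bodd_add, hb, hz, add_assoc, Pi.add_apply]
  refine Prod.ext ?_ (Prod.ext ?_ ?_)
  · simp only
    generalize m (u + v) = a
    generalize m (u + (v + P (-1) 0 0)) = b
    generalize (u i1).bodd = c
    generalize (u i2).bodd = d
    generalize (v i0).bodd = e
    generalize (v i1).bodd = f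
    generalize (v i2).bodd = g
    revert a b c d e f g
    decide
  · simp only
    generalize m (u + v) = a
    generalize m (u + (v + P 0 (-1) 0)) = b
    generalize (u i1).bodd = c
    generalize (u i2).bodd = d
    generalize (v i0).bodd = e
    generalize (v i1).bodd = f
    generalize (v i2).bodd = g
    revert a b c d e f g
    decide
  · simp only
    generalize m (u + v) = a
    generalize m (u + (v + P 0 0 (-1))) = b
    generalize (u i1).bodd = c
    generalize (u i2).bodd = d
    generalize (v i0).bodd = e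
    generalize (v i1).bodd = f
    revert a b c d e f
    decide

lemma adm_shm {m S : V n → Bool} (h : Adm m S) (u : V n) : Adm (shm u m) (fun v => S (u + v)) := by
  have hb : (-1 : ℤ).bodd = true := rfl
  have hz : (0 : ℤ).bodd = false := rfl
  refine ⟨?_, ?_, ?_⟩
  · intro v hv
    have := h.flip _ hv
    simp only [shm, at0, at1, Int.bodd_add, hz, ← add_assoc]
    rw [this]
    simp
  · intro v w hvw
    exact h.indep _ _ (hvw.translate u)
  · intro v hv
    obtain ⟨w, hw, hS⟩ := h.maxl _ hv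
    refine ⟨-u + w, ?_, by simpa using hS⟩
    have := hw.translate (-u)
    simpa using this

lemma TT_shm (u : V n) (m : V n → Bool) (v : V n) : TT (fld (shm u m)) v = TT (fld m) (u + v) := by
  rw [fld_shm, TT_sh]

lemma TT_fld_congr {m m' : V n → Bool} {v : V n}
    (h : ∀ a b c : ℤ, |a| ≤ 12 → |b| ≤ 12 → |c| ≤ 12 → m (v + P a b c) = m' (v + P a b c)) :
    TT (fld m) v = TT (fld m') v := by
  apply TT_congr
  intro a b c ha hb hc
  have key : ∀ x y z : ℤ, |x| ≤ 1 → |y| ≤ 1 → |z| ≤ 1 →
      m (v + P (a + x) (b + y) (c + z)) = m' (v + P (a + x) (b + y) (c + z)) := by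
    intro x y z hx hy hz
    apply h
    · calc |a + x| ≤ |a| + |x| := abs_add_le _ _
        _ ≤ 12 := by linarith
    · calc |b + y| ≤ |b| + |y| := abs_add_le _ _
        _ ≤ 12 := by linarith
    · calc |c + z| ≤ |c| + |z| := abs_add_le _ _
        _ ≤ 12 := by linarith
  have k0 := key 0 0 0 (by norm_num) (by norm_num) (by norm_num)
  rw [add_zero, add_zero, add_zero] at k0
  simp only [fld, vP]
  rw [k0, key (-1) 0 0 (by norm_num) (by norm_num) (by norm_num),
    key 0 (-1) 0 (by norm_num) (by norm_num) (by norm_num),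
    key 0 0 (-1) (by norm_num) (by norm_num) (by norm_num)]

end V11110.DT
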