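import Pool.Agent.V11110.DT3

/-! Domino tilings of `ℝ^d`: maximal sparse sets, gluing, compactness. -/

namespace V11110.DT

variable {n : ℕ}

/-- sparse sets extend to maximal ones -/
lemma exists_maximal (T : Set (V n)) (hT : ∀ v w, Conf v w → ¬ (v ∈ T ∧ w ∈ T)) :
    ∃ S : V n → Bool, (∀ v ∈ T, S v = true) ∧ (∀ v w, Conf v w → ¬ (S v = true ∧ S w = true)) ∧
      ∀ v, S v = false → ∃ w, Conf v w ∧ S w = true := by
  classical
  let Fam : Set (Set (V n)) := {X | ∀ v w, Conf v w → ¬ (v ∈ X ∧ w ∈ X)}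
  obtain ⟨M, hTM, hM⟩ := zorn_subset_nonempty Fam (by
    intro c hc hch hne
    refine ⟨⋃₀ c, ?_, fun s hs => Set.subset_sUnion_of_mem hs⟩
    rintro v w hvw ⟨⟨X, hX, hv⟩, ⟨Y, hY, hw⟩⟩
    rcases hch.total hX hY with h | h
    · exact hc hY v w hvw ⟨h hv, hw⟩
    · exact hc hX v w hvw ⟨hv, h hw⟩) T hT
  refine ⟨fun v => decide (v ∈ M), ?_, ?_, ?_⟩
  · intro v hv
    simpa using hTM hv
  · intro v w hvw ⟨h1, h2⟩
    simp only [decide_eq_true_eq] at h1 h2
    exact hM.1 v w hvw ⟨h1, h2⟩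
  · intro v hv
    simp only [decide_eq_false_iff_not] at hv
    by_contra hcon
    push Not at hcon
    have hins : insert v M ∈ Fam := by
      rintro x y hxy ⟨hx, hy⟩
      rcases hx with rfl | hx
      · rcases hy with rfl | hy
        · exact hxy.1 rfl
        · exact (hcon y hxy) (by simpa using hy)
      · rcases hy with rfl | hy
        · exact (hcon x hxy.symm) (by simpa using hx)
        · exact hM.1 x y hxy ⟨hx, hy⟩
    have := hM.2 hins (Set.subset_insert _ _)
    exact hv (this (Set.mem_insert _ _))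

/-- every long vertical interval contains a point of `S` -/
lemma gap {S : V n → Bool} (h1 : ∀ v w, Conf v w → ¬ (S v = true ∧ S w = true))
    (h2 : ∀ v, S v = false → ∃ w, Conf v w ∧ S w = true) (v : V n) :
    ∃ j : ℤ, 0 < j ∧ j < 912 ∧ S (v + P 0 0 j) = true := by
  by_contra hcon
  push Not at hcon
  have key : ∀ k : Fin 10, ∃ a b c : ℤ, |a| ≤ 1 ∧ |b| ≤ 1 ∧ |c| < 8 ∧
      S (v + P a b (304 + 16 * (k : ℤ) + c)) = true := by
    intro k
    have hk : ((k : ℕ) : ℤ) ≤ 9 := by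
      have := k.2
      omega
    have hk0 : (0 : ℤ) ≤ ((k : ℕ) : ℤ) := by positivity
    have hS : S (v + P 0 0 (304 + 16 * (k : ℤ))) = false := by
      have := hcon (304 + 16 * (k : ℤ)) (by omega) (by omega)
      simpa using this
    obtain ⟨w, ⟨-, a, b, c, hw, hc⟩, hSw⟩ := h2 _ hS
    rw [vP, zero_add, zero_add] at hw
    rw [hw] at hSw
    rcases hc with ⟨ha, hb, hc⟩ | ⟨ha, hb, hc⟩
    · exact ⟨a, b, c, ha, hb, hc, hSw⟩
    · exfalso
      rw [abs_lt] at hc
      rw [ha, hb] at hSw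
      exact hcon _ (by omega) (by omega) hSw
  choose a b c ha hb hc hS using key
  have hmaps : ∀ k ∈ (Finset.univ : Finset (Fin 10)),
      (a k, b k) ∈ (Finset.Icc (-1 : ℤ) 1) ×ˢ (Finset.Icc (-1 : ℤ) 1) := by
    intro k _
    rw [Finset.mem_product, Finset.mem_Icc, Finset.mem_Icc]
    exact ⟨abs_le.1 (ha k), abs_le.1 (hb k)⟩
  obtain ⟨k, -, l, -, hkl, hab⟩ := Finset.exists_ne_map_eq_of_card_lt_of_maps_to
    (by rw [Finset.card_product]; simp) hmaps
  rw [Prod.mk.injEq] at hab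
  have hk := k.2
  have hl := l.2
  have hck := abs_lt.1 (hc k)
  have hcl := abs_lt.1 (hc l)
  by_cases heq : v + P (a k) (b k) (304 + 16 * (k : ℤ) + c k)
      = v + P (a l) (b l) (304 + 16 * (l : ℤ) + c l)
  · have h3 := (P_inj (add_left_cancel heq)).2.2
    apply hkl
    apply Fin.ext
    omega
  · refine h1 _ _ ⟨heq, 0, 0, (304 + 16 * (l : ℤ) + c l) - (304 + 16 * (k : ℤ) + c k), ?_, Or.inr ⟨rfl, rfl, ?_⟩⟩
      ⟨hS k, hS l⟩
    · rw [vP, hab.1, hab.2]
      congr 2 <;> ring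
    · rw [abs_lt]
      constructor <;> omega

/-- `v` is at vertical-slice distance at most `r` from `A` -/
def Near (A : Set (V n)) (r : ℤ) (v : V n) : Prop :=
  ∃ x y z : ℤ, |x| ≤ r ∧ |y| ≤ r ∧ |z| ≤ r ∧ v + P x y z ∈ A

lemma Near.move {A : Set (V n)} {r : ℤ} {v : V n} (h : Near A r v) {s x y z : ℤ}
    (hx : |x| ≤ s) (hy : |y| ≤ s) (hz : |z| ≤ s) : Near A (r + s) (v + P x y z) := by
  obtain ⟨a, b, c, ha, hb, hc, hA⟩ := h
  refine ⟨-x + a, -y + b, -z + c, ?_, ?_, ?_, ?_⟩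
  · calc |-x + a| ≤ |-x| + |a| := abs_add_le _ _
      _ ≤ r + s := by rw [abs_neg]; linarith
  · calc |-y + b| ≤ |-y| + |b| := abs_add_le _ _
      _ ≤ r + s := by rw [abs_neg]; linarith
  · calc |-z + c| ≤ |-z| + |c| := abs_add_le _ _
      _ ≤ r + s := by rw [abs_neg]; linarith
  · rw [vP]
    have e1 : x + (-x + a) = a := by ring
    have e2 : y + (-y + b) = b := by ring
    have e3 : z + (-z + c) = c := by ring
    rw [e1, e2, e3]
    exact hA

lemma Near.mono {A : Set (V n)} {r s : ℤ} {v : V n} (h : Near A r v) (hrs : r ≤ s) :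
    Near A s v := by
  obtain ⟨a, b, c, ha, hb, hc, hA⟩ := h
  exact ⟨a, b, c, ha.trans hrs, hb.trans hrs, hc.trans hrs, hA⟩

lemma P_abs {a b c r : ℤ} (ha : |a| ≤ r) (hb : |b| ≤ r) (hc : |c| ≤ r) (i : Fin (n + 3)) :
    |(P a b c : V n) i| ≤ r := by
  simp only [P]
  split_ifs
  · exact ha
  · exact hb
  · exact hc
  · simpa using (abs_nonneg a).trans ha

lemma Near.disj {A B : Set (V n)} {r s k : ℤ}
    (hAB : ∀ a ∈ A, ∀ b ∈ B, ∃ i, k ≤ |a i - b i|) (hk : r + s < k) {v : V n}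
    (h1 : Near A r v) (h2 : Near B s v) : False := by
  obtain ⟨a, b, c, ha, hb, hc, hA⟩ := h1
  obtain ⟨a', b', c', ha', hb', hc', hB⟩ := h2
  obtain ⟨i, hi⟩ := hAB _ hA _ hB
  have e1 := P_abs (n := n) ha hb hc i
  have e2 := P_abs (n := n) ha' hb' hc' i
  simp only [Pi.add_apply] at hi
  have : v i + (P a b c : V n) i - (v i + (P a' b' c' : V n) i)
      = (P a b c : V n) i - (P a' b' c' : V n) i := by ring
  rw [this] at hi
  have h3 : |(P a b c : V n) i - (P a' b' c' : V n) i| ≤ |(P a b c : V n) i| + |(P a' b' c' : V n) i| :=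
    abs_sub _ _
  linarith

/-- no point of `S` between the heights `0` and `j` above `v` -/
def Conn (S : V n → Bool) (v : V n) (j : ℤ) : Prop :=
  ∀ i : ℤ, min 0 j < i → i ≤ max 0 j → S (v + P 0 0 i) = false

def EE' (S : V n → Bool) (A : Set (V n)) (v : V n) : Prop :=
  ∃ j : ℤ, Near A 12 (v + P 0 0 j) ∧ Conn S v j

lemma EE'_step {S : V n → Bool} {A : Set (V n)} {v : V n} (hS : S v = false) :
    EE' S A v ↔ EE' S A (v + P 0 0 (-1)) := by
  constructor
  · rintro ⟨j, hj, hc⟩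
    refine ⟨j + 1, ?_, ?_⟩
    · rw [vP]
      have : (-1 : ℤ) + (j + 1) = j := by ring
      rw [this, add_zero]
      exact hj
    · intro i h1 h2
      rw [vP, add_zero]
      by_cases h0 : -1 + i = 0
      · rw [h0, P_zero, add_zero]; exact hS
      · exact hc _ (by omega) (by omega)
  · rintro ⟨j, hj, hc⟩
    refine ⟨j - 1, ?_, ?_⟩
    · rw [vP] at hj
      have : (-1 : ℤ) + j = j - 1 := by ring
      rw [this, add_zero] at hj
      exact hj
    · intro t h1 h2
      by_cases h0 : t = 0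
      · rw [h0, P_zero, add_zero]; exact hS
      · have := hc (t + 1) (by omega) (by omega)
        rw [vP, add_zero] at this
        have e : (-1 : ℤ) + (t + 1) = t := by ring
        rw [e] at this
        exact this

lemma EE'_near {S : V n → Bool} (h1 : ∀ v w, Conf v w → ¬ (S v = true ∧ S w = true))
    (h2 : ∀ v, S v = false → ∃ w, Conf v w ∧ S w = true) {A : Set (V n)} {v : V n}
    (h : EE' S A v) : Near A 924 v := by
  obtain ⟨j, hj, hc⟩ := h
  have hj1 : j ≤ 912 := by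
    by_contra hcon
    obtain ⟨i, hi1, hi2, hi3⟩ := gap h1 h2 v
    rw [hc i (by omega) (by omega)] at hi3
    exact absurd hi3 (by decide)
  have hj2 : -912 ≤ j := by
    by_contra hcon
    obtain ⟨i, hi1, hi2, hi3⟩ := gap h1 h2 (v + P 0 0 j)
    rw [vP, add_zero, hc (j + i) (by omega) (by omega)] at hi3
    exact absurd hi3 (by decide)
  have := hj.move (s := 912) (x := 0) (y := 0) (z := -j) (by norm_num) (by norm_num)
    (by rw [abs_neg, abs_le]; exact ⟨hj2, hj1⟩)
  rw [vP] at this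
  simpa [P_zero] using this

/-- gluing of two admissible pairs -/
theorem glue {m₁ S₁ m₂ S₂ : V n → Bool} (h₁ : Adm m₁ S₁) (h₂ : Adm m₂ S₂) (A B : Set (V n))
    (hAB : ∀ a ∈ A, ∀ b ∈ B, ∃ i, (3000 : ℤ) ≤ |a i - b i|) :
    ∃ m S, Adm m S ∧ (∀ v, Near A 12 v → m v = m₁ v) ∧ (∀ v, Near B 12 v → m v = m₂ v) := by
  classical
  obtain ⟨S, hS0, hS1, hS2⟩ := exists_maximal
    {w | (S₁ w = true ∧ Near A 1300 w) ∨ (S₂ w = true ∧ Near B 1300 w)} (by
      have cross : ∀ v w, Conf v w → Near A 1300 v → Near B 1300 w → False := by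
        rintro v w ⟨-, a, b, c, rfl, h⟩ hv hw
        have habc : |a| ≤ 304 ∧ |b| ≤ 304 ∧ |c| ≤ 304 := by
          rcases h with ⟨h1, h2, h3⟩ | ⟨h1, h2, h3⟩
          · refine ⟨?_, ?_, ?_⟩ <;> linarith
          · rw [h1, h2]
            refine ⟨by norm_num, by norm_num, by linarith⟩
        exact Near.disj hAB (by norm_num) (hv.move habc.1 habc.2.1 habc.2.2) hw
      rintro v w hvw ⟨hv | hv, hw | hw⟩
      · exact h₁.indep v w hvw ⟨hv.1, hw.1⟩
      · exact cross v w hvw hv.2 hw.2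
      · exact cross w v hvw.symm hw.2 hv.2
      · exact h₂.indep v w hvw ⟨hv.1, hw.1⟩)
  have sA : ∀ v, Near A 996 v → S v = false → S₁ v = false := by
    intro v hv hSv
    by_contra hne
    rw [Bool.not_eq_false] at hne
    rw [hS0 v (Or.inl ⟨hne, hv.mono (by norm_num)⟩)] at hSv
    exact absurd hSv (by decide)
  have sB : ∀ v, Near B 996 v → S v = false → S₂ v = false := by
    intro v hv hSv
    by_contra hne
    rw [Bool.not_eq_false] at hne
    rw [hS0 v (Or.inr ⟨hne, hv.mono (by norm_num)⟩)] at hSv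
    exact absurd hSv (by decide)
  let m : V n → Bool := fun v => if EE' S A v then m₁ v else if EE' S B v then m₂ v else false
  have selfE : ∀ (C : Set (V n)) v, Near C 12 v → EE' S C v := by
    intro C v hv
    refine ⟨0, by simpa [P_zero] using hv, ?_⟩
    intro i h1 h2
    exfalso
    omega
  refine ⟨m, S, ⟨?_, hS1, hS2⟩, ?_, ?_⟩
  · intro v hv
    have eA := EE'_step (A := A) hv
    have eB := EE'_step (A := B) hv
    by_cases hA : EE' S A v
    · have hA' := eA.1 hA
      simp only [m, if_pos hA, if_pos hA']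
      exact h₁.flip v (sA v ((EE'_near hS1 hS2 hA).mono (by norm_num)) hv)
    · have hA' : ¬ EE' S A (v + P 0 0 (-1)) := fun h => hA (eA.2 h)
      by_cases hB : EE' S B v
      · have hB' := eB.1 hB
        simp only [m, if_neg hA, if_neg hA', if_pos hB, if_pos hB']
        exact h₂.flip v (sB v ((EE'_near hS1 hS2 hB).mono (by norm_num)) hv)
      · have hB' : ¬ EE' S B (v + P 0 0 (-1)) := fun h => hB (eB.2 h)
        simp only [m, if_neg hA, if_neg hA', if_neg hB, if_neg hB']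
  · intro v hv
    simp only [m, if_pos (selfE A v hv)]
  · intro v hv
    have hA : ¬ EE' S A v := fun h => Near.disj hAB (by norm_num) (EE'_near hS1 hS2 h) hv
    simp only [m, if_neg hA, if_pos (selfE B v hv)]

end V11110.DT
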