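import Mathlib

/-!
Combinatorics of 2-step nilpotent Lie algebras of graphs: the preorder on vertices,
the space of forms supported on the edges, and the algebra of matrices acting on them.
-/

set_option autoImplicit false

open Matrix

namespace Pool.Agent.V11110.GL

variable {n : ℕ} (G : SimpleGraph (Fin n))

/-- The link of `w` is contained in the star of `v`. -/
def P (w v : Fin n) : Prop := ∀ b, G.Adj w b → b = v ∨ G.Adj v b

theorem P_refl (w : Fin n) : P G w w := fun _ hb => Or.inr hb

theorem P_trans {u w v : Fin n} (h1 : P G u w) (h2 : P G w v) : P G u v := by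
  intro b hb
  rcases h1 b hb with h | h
  · subst h
    rcases h2 u hb.symm with h3 | h3
    · subst h3; exact Or.inr hb
    · rcases h1 v h3.symm with h4 | h4
      · exact Or.inl h4.symm
      · exact Or.inr h4.symm
  · exact h2 b h

/-- Equivalence of vertices. -/
def Q (i j : Fin n) : Prop := P G i j ∧ P G j i

theorem Q_refl (i : Fin n) : Q G i i := ⟨P_refl G i, P_refl G i⟩
theorem Q_symm {i j : Fin n} (h : Q G i j) : Q G j i := ⟨h.2, h.1⟩
theorem Q_trans {i j k : Fin n} (h1 : Q G i j) (h2 : Q G j k) : Q G i k :=
  ⟨P_trans G h1.1 h2.1, P_trans G h2.2 h1.2⟩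

section Ring

variable {K : Type*} [CommRing K]

/-- Antisymmetric matrices supported on the edges. -/
def Form (e : Matrix (Fin n) (Fin n) K) : Prop :=
  (∀ i j, e i j = - e j i) ∧ ∀ i j, ¬ G.Adj i j → e i j = 0

/-- Matrices supported on the preorder. -/
def InP (D : Matrix (Fin n) (Fin n) K) : Prop := ∀ w v, ¬ P G w v → D w v = 0

variable {G}

theorem InP.one : InP G (1 : Matrix (Fin n) (Fin n) K) := by
  intro w v h
  rw [Matrix.one_apply_ne]
  rintro rfl
  exact h (P_refl G w)

theorem InP.zero : InP G (0 : Matrix (Fin n) (Fin n) K) := fun _ _ _ => rfl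

theorem InP.add {D D' : Matrix (Fin n) (Fin n) K} (h : InP G D) (h' : InP G D') :
    InP G (D + D') := by
  intro w v hwv
  rw [Matrix.add_apply, h w v hwv, h' w v hwv, add_zero]

theorem InP.smul {D : Matrix (Fin n) (Fin n) K} (c : K) (h : InP G D) : InP G (c • D) := by
  intro w v hwv
  rw [Matrix.smul_apply, h w v hwv, smul_zero]

theorem InP.mul {D D' : Matrix (Fin n) (Fin n) K} (h : InP G D) (h' : InP G D') :
    InP G (D * D') := by
  intro w v hwv
  rw [Matrix.mul_apply]
  refine Finset.sum_eq_zero fun k _ => ?_
  by_cases h1 : P G w k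
  · by_cases h2 : P G k v
    · exact absurd (P_trans G h1 h2) hwv
    · rw [h' k v h2, mul_zero]
  · rw [h w k h1, zero_mul]

theorem InP.pow {D : Matrix (Fin n) (Fin n) K} (h : InP G D) (m : ℕ) : InP G (D ^ m) := by
  induction m with
  | zero => rw [pow_zero]; exact InP.one
  | succ m ih => rw [pow_succ]; exact ih.mul h

theorem InP.aeval {D : Matrix (Fin n) (Fin n) K} (h : InP G D) (q : Polynomial K) :
    InP G (Polynomial.aeval D q) := by
  induction q using Polynomial.induction_on' with
  | add p q hp hq => rw [map_add]; exact hp.add hq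
  | monomial m a =>
    rw [Polynomial.aeval_monomial, Algebra.algebraMap_eq_smul_one, smul_mul_assoc, one_mul]
    exact (h.pow m).smul a

/-- Entries of products in the same class only involve entries of the class. -/
theorem InP.mul_apply_class {D D' : Matrix (Fin n) (Fin n) K} (h : InP G D) (h' : InP G D')
    {i j : Fin n} (hij : Q G i j) [DecidablePred fun k => Q G i k] :
    (D * D') i j = ∑ k ∈ Finset.univ.filter (fun k => Q G i k), D i k * D' k j := by
  rw [Matrix.mul_apply, Finset.sum_filter]
  refine Finset.sum_congr rfl fun k _ => ?_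
  split_ifs with hk
  · rfl
  · by_cases h1 : P G i k
    · by_cases h2 : P G k j
      · exact absurd ⟨h1, P_trans G h2 hij.2⟩ hk
      · rw [h' k j h2, mul_zero]
    · rw [h i k h1, zero_mul]

/-- Blocks of polynomials in a matrix with scalar blocks. -/
theorem InP.aeval_scalar_block {D : Matrix (Fin n) (Fin n) K} (h : InP G D) (c : Fin n → K)
    (hc : ∀ i j, Q G i j → D i j = if i = j then c i else 0)
    (hcl : ∀ i j, Q G i j → c i = c j) (q : Polynomial K) (i j : Fin n) (hij : Q G i j) :
    Polynomial.aeval D q i j = if i = j then q.eval (c i) else 0 := by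
  classical
  induction q using Polynomial.induction_on' generalizing i j with
  | add p q hp hq =>
    rw [map_add, Matrix.add_apply, hp i j hij, hq i j hij, Polynomial.eval_add]
    split_ifs <;> simp
  | monomial m a =>
    rw [Polynomial.aeval_monomial, Algebra.algebraMap_eq_smul_one, smul_mul_assoc, one_mul,
      Polynomial.eval_monomial, Matrix.smul_apply]
    have key : ∀ m : ℕ, ∀ i j, Q G i j → (D ^ m) i j = if i = j then c i ^ m else 0 := by
      intro m
      induction m with
      | zero =>
        intro i j _
        rw [pow_zero, Matrix.one_apply]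
        simp
      | succ m ih =>
        intro i j hij
        rw [pow_succ, InP.mul_apply_class (h.pow m) h hij]
        have : ∀ k ∈ Finset.univ.filter (fun k => Q G i k),
            (D ^ m) i k * D k j = if i = k then (if i = j then c i ^ (m + 1) else 0) else 0 := by
          intro k hk
          rw [Finset.mem_filter] at hk
          rw [ih i k hk.2, hc k j (Q_trans G (Q_symm G hk.2) hij)]
          by_cases hik : i = k
          · subst hik
            simp only [if_true]
            split_ifs <;> simp [pow_succ]
          · simp [hik]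
        rw [Finset.sum_congr rfl this, Finset.sum_ite_eq]
        simp [Q_refl G i]
    rw [key m i j hij]
    split_ifs <;> simp

theorem Form.diag {e : Matrix (Fin n) (Fin n) K} (he : Form G e) (i : Fin n) : e i i = 0 :=
  he.2 i i (G.irrefl)

theorem Form.add {e e' : Matrix (Fin n) (Fin n) K} (he : Form G e) (he' : Form G e') :
    Form G (e + e') := by
  refine ⟨fun i j => ?_, fun i j h => ?_⟩
  · rw [Matrix.add_apply, Matrix.add_apply, he.1 i j, he'.1 i j]; ring
  · rw [Matrix.add_apply, he.2 i j h, he'.2 i j h, add_zero]

theorem Form.smul {e : Matrix (Fin n) (Fin n) K} (c : K) (he : Form G e) : Form G (c • e) := by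
  refine ⟨fun i j => ?_, fun i j h => ?_⟩
  · rw [Matrix.smul_apply, Matrix.smul_apply, he.1 i j]; simp
  · rw [Matrix.smul_apply, he.2 i j h, smul_zero]

theorem Form.zero : Form G (0 : Matrix (Fin n) (Fin n) K) :=
  ⟨fun i j => by simp, fun i j _ => rfl⟩

/-- `D` in the algebra acts on forms as a derivation. -/
theorem Form.deriv {e D : Matrix (Fin n) (Fin n) K} (he : Form G e) (hD : InP G D) :
    Form G (Dᵀ * e + e * D) := by
  have hanti : ∀ i j, (Dᵀ * e + e * D) i j = - (Dᵀ * e + e * D) j i := by
    intro i j
    simp only [Matrix.add_apply, Matrix.mul_apply, Matrix.transpose_apply]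
    rw [← Finset.sum_add_distrib, ← Finset.sum_add_distrib, ← Finset.sum_neg_distrib]
    refine Finset.sum_congr rfl fun k _ => ?_
    rw [he.1 k j, he.1 i k]; ring
  refine ⟨hanti, fun i j hij => ?_⟩
  by_cases h : i = j
  · subst h
    simp only [Matrix.add_apply, Matrix.mul_apply, Matrix.transpose_apply]
    rw [← Finset.sum_add_distrib]
    refine Finset.sum_eq_zero fun k _ => ?_
    rw [he.1 k i]; ring
  · simp only [Matrix.add_apply, Matrix.mul_apply, Matrix.transpose_apply]
    rw [Finset.sum_eq_zero, Finset.sum_eq_zero, add_zero]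
    · intro k _
      by_cases h1 : G.Adj i k
      · by_cases h2 : P G k j
        · rcases h2 i h1.symm with h3 | h3
          · exact absurd h3 h
          · exact absurd h3.symm hij
        · rw [hD k j h2, mul_zero]
      · rw [he.2 i k h1, zero_mul]
    · intro k _
      by_cases h1 : G.Adj k j
      · by_cases h2 : P G k i
        · rcases h2 j h1 with h3 | h3
          · exact absurd h3.symm h
          · exact absurd h3 hij
        · rw [hD k i h2, zero_mul]
      · rw [he.2 k j h1, mul_zero]

/-- `D` in the algebra acts on forms by congruence. -/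
theorem Form.congr {e D : Matrix (Fin n) (Fin n) K} (he : Form G e) (hD : InP G D) :
    Form G (Dᵀ * e * D) := by
  have hexp : ∀ i j, (Dᵀ * e * D) i j = ∑ l, ∑ k, D k i * e k l * D l j := by
    intro i j
    simp only [Matrix.mul_apply, Matrix.transpose_apply, Finset.sum_mul]
  have hanti : ∀ i j, (Dᵀ * e * D) i j = - (Dᵀ * e * D) j i := by
    intro i j
    rw [hexp, hexp, Finset.sum_comm, ← Finset.sum_neg_distrib]
    refine Finset.sum_congr rfl fun k _ => ?_
    rw [← Finset.sum_neg_distrib]
    refine Finset.sum_congr rfl fun l _ => ?_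
    rw [he.1 k l]; ring
  refine ⟨hanti, fun i j hij => ?_⟩
  rw [hexp]
  by_cases h : i = j
  · subst h
    -- antisymmetry pairs up the terms
    have hz : ∀ l k, D k i * e k l * D l i = -(D l i * e l k * D k i) := by
      intro l k; rw [he.1 k l]; ring
    -- use the decomposition k < l, k = l, k > l
    have h1 : ∑ l, ∑ k, D k i * e k l * D l i
        = ∑ l, ∑ k, (if k < l then D k i * e k l * D l i else 0)
        + ∑ l, ∑ k, (if l < k then D k i * e k l * D l i else 0) := by
      rw [← Finset.sum_add_distrib]
      refine Finset.sum_congr rfl fun l _ => ?_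
      rw [← Finset.sum_add_distrib]
      refine Finset.sum_congr rfl fun k _ => ?_
      rcases lt_trichotomy k l with hlt | heq | hgt
      · simp [hlt, not_lt.mpr hlt.le]
      · subst heq
        simp [he.diag k]
      · simp [hgt, not_lt.mpr hgt.le]
    rw [h1, Finset.sum_comm (f := fun l k => if l < k then D k i * e k l * D l i else 0),
      ← Finset.sum_add_distrib]
    refine Finset.sum_eq_zero fun l _ => ?_
    rw [← Finset.sum_add_distrib]
    refine Finset.sum_eq_zero fun k _ => ?_
    split_ifs
    · rw [hz l k]; ring
    · simp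
  · refine Finset.sum_eq_zero fun l _ => Finset.sum_eq_zero fun k _ => ?_
    by_cases hk : P G k i
    · by_cases hl : P G l j
      · by_cases hkl : G.Adj k l
        · exfalso
          rcases hk l hkl with h1 | h1
          · subst h1
            rcases hl k hkl.symm with h2 | h2
            · subst h2; exact hij hkl.symm
            · rcases hk j h2.symm with h3 | h3
              · exact h h3.symm
              · exact hij h3
          · rcases hl i h1.symm with h2 | h2
            · exact h h2
            · exact hij h2.symm
        · rw [he.2 k l hkl]; ring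
      · rw [hD l j hl]; ring
    · rw [hD k i hk]; ring

/-- Conversely, matrices acting on all forms as derivations lie in the algebra. -/
theorem inP_of_deriv {D : Matrix (Fin n) (Fin n) K}
    (h : ∀ e : Matrix (Fin n) (Fin n) K, Form G e → Form G (Dᵀ * e + e * D)) : InP G D := by
  classical
  intro w v hwv
  unfold P at hwv
  push Not at hwv
  obtain ⟨b, hwb, hbv, hvb⟩ := hwv
  have hvw : v ≠ w := by rintro rfl; exact hvb hwb
  have hwb' : w ≠ b := hwb.ne
  set e : Matrix (Fin n) (Fin n) K :=
    Matrix.single w b 1 - Matrix.single b w 1 with he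
  have heF : Form G e := by
    refine ⟨fun i j => ?_, fun i j hij => ?_⟩
    · simp only [he, Matrix.sub_apply, Matrix.single_apply]
      by_cases h1 : w = i ∧ b = j
      · obtain ⟨rfl, rfl⟩ := h1
        simp [hwb', hwb'.symm]
      · by_cases h2 : b = i ∧ w = j
        · obtain ⟨rfl, rfl⟩ := h2
          simp [hwb', hwb'.symm]
        · have h3 : ¬ (w = j ∧ b = i) := fun h => h2 ⟨h.2, h.1⟩
          have h4 : ¬ (b = j ∧ w = i) := fun h => h1 ⟨h.2, h.1⟩
          simp [h1, h2, h3, h4]
    · simp only [he, Matrix.sub_apply, Matrix.single_apply]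
      have h1 : ¬ (w = i ∧ b = j) := by rintro ⟨rfl, rfl⟩; exact hij hwb
      have h2 : ¬ (b = i ∧ w = j) := by rintro ⟨rfl, rfl⟩; exact hij hwb.symm
      simp [h1, h2]
  have h0 := (h e heF).2 v b hvb
  simp only [Matrix.add_apply, Matrix.mul_apply, Matrix.transpose_apply] at h0
  have h1 : ∑ k, D k v * e k b = D w v := by
    rw [Finset.sum_eq_single w]
    · simp [he, hwb']
    · intro k _ hk
      simp [he, hk.symm, hwb']
    · simp
  have h2 : ∑ k, e v k * D k b = 0 := by
    refine Finset.sum_eq_zero fun k _ => ?_
    simp [he, hvw.symm, hbv]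
  rw [h1, h2, add_zero] at h0
  exact h0

end Ring

end Pool.Agent.V11110.GL
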