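import Pool.Agent.V11110.GL9

/-!
Construction of the automorphism of the rational form.
-/

set_option autoImplicit false

open Matrix Polynomial
open scoped TensorProduct

namespace Pool.Agent.V11110.GL

section charpoly

/-- Integrality of a polynomial with good roots. -/
theorem exists_int_poly (χ : ℚ[X]) (hχ : χ.Monic)
    (hroots : ∀ ζ : ℂ, (χ.map (algebraMap ℚ ℂ)).IsRoot ζ → Good ζ) :
    ∃ q : ℤ[X], q.map (Int.castRingHom ℚ) = χ ∧ (q.coeff 0 = 1 ∨ q.coeff 0 = -1) ∧
      ∀ z : ℂ, (q.map (Int.castRingHom ℂ)).IsRoot z → ‖z‖ ≠ 1 := by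
  classical
  set P := χ.map (algebraMap ℚ ℂ) with hP
  have hPm : P.Monic := hχ.map _
  have hP0 : P ≠ 0 := hPm.ne_zero
  have hsplit : P.Splits := IsAlgClosed.splits P
  have hprod : P = (P.roots.map (fun a => X - C a)).prod := hsplit.eq_prod_roots_of_monic hPm
  have hgood : ∀ ζ ∈ P.roots, Good ζ := fun ζ hζ =>
    hroots ζ ((Polynomial.mem_roots hP0).mp hζ)
  have hlift : ∀ s : Multiset ℂ, (∀ ζ ∈ s, IsIntegral ℤ ζ) →
      ∀ k, IsIntegral ℤ ((s.map (fun a => X - C a)).prod.coeff k) := by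
    intro s
    induction s using Multiset.induction_on with
    | empty =>
      intro _ k
      rw [Multiset.map_zero, Multiset.prod_zero, Polynomial.coeff_one]
      split_ifs
      · exact isIntegral_one
      · exact isIntegral_zero
    | cons a s ih =>
      intro hs k
      have hs' := ih fun ζ hζ => hs ζ (Multiset.mem_cons_of_mem hζ)
      have ha := hs a (Multiset.mem_cons_self a s)
      rw [Multiset.map_cons, Multiset.prod_cons, sub_mul, Polynomial.coeff_sub,
        Polynomial.coeff_C_mul]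
      refine IsIntegral.sub ?_ (ha.mul (hs' k))
      cases k with
      | zero => rw [Polynomial.coeff_X_mul_zero]; exact isIntegral_zero
      | succ k => rw [Polynomial.coeff_X_mul]; exact hs' k
  have hcoeff : ∀ k, IsIntegral ℤ (P.coeff k) := by
    intro k
    rw [hprod]
    exact hlift P.roots (fun ζ hζ => (hgood ζ hζ).2.1) k
  have hint : ∀ k, ∃ z : ℤ, (z : ℚ) = χ.coeff k := by
    intro k
    have h1 := hcoeff k
    rw [hP, Polynomial.coeff_map, isIntegral_algebraMap_iff (algebraMap ℚ ℂ).injective] at h1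
    obtain ⟨z, hz⟩ := IsIntegrallyClosed.isIntegral_iff.mp h1
    exact ⟨z, hz⟩
  have hmem : χ ∈ Polynomial.lifts (Int.castRingHom ℚ) := by
    rw [Polynomial.lifts_iff_coeff_lifts]
    intro k
    obtain ⟨z, hz⟩ := hint k
    exact ⟨z, hz⟩
  obtain ⟨q, hq⟩ := (Polynomial.mem_lifts χ).mp hmem
  refine ⟨q, hq, ?_, ?_⟩
  · have h1 : P.coeff 0 = (-1) ^ P.natDegree * P.roots.prod :=
      hsplit.coeff_zero_eq_prod_roots_of_monic hPm
    have h2 : ∀ s : Multiset ℂ, (∀ ζ ∈ s, Good ζ) → s.prod ≠ 0 ∧ IsIntegral ℤ (s.prod)⁻¹ := by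
      intro s
      induction s using Multiset.induction_on with
      | empty => intro _; simp [isIntegral_one]
      | cons a s ih =>
        intro hs
        obtain ⟨e1, e2⟩ := ih fun ζ hζ => hs ζ (Multiset.mem_cons_of_mem hζ)
        have ha := hs a (Multiset.mem_cons_self a s)
        rw [Multiset.prod_cons, mul_inv]
        exact ⟨mul_ne_zero ha.1 e1, ha.2.2.1.mul e2⟩
    obtain ⟨h3, h4⟩ := h2 P.roots hgood
    have hc : P.coeff 0 = ((χ.coeff 0 : ℚ) : ℂ) := by rw [hP, Polynomial.coeff_map]; rfl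
    have hne : χ.coeff 0 ≠ 0 := by
      intro h0
      rw [h0] at hc
      rw [hc] at h1
      have : (-1 : ℂ) ^ P.natDegree * P.roots.prod ≠ 0 :=
        mul_ne_zero (pow_ne_zero _ (by norm_num)) h3
      apply this
      rw [← h1]; simp
    have hi1 : IsIntegral ℤ ((χ.coeff 0 : ℚ) : ℂ) := by rw [← hc]; exact hcoeff 0
    have hi2 : IsIntegral ℤ (((χ.coeff 0 : ℚ) : ℂ)⁻¹) := by
      rw [← hc, h1, mul_inv]
      refine IsIntegral.mul ?_ h4
      rw [← inv_pow]
      have : ((-1 : ℂ))⁻¹ = -1 := by norm_num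
      rw [this]
      exact (isIntegral_one.neg).pow _
    have hq0 : ((q.coeff 0 : ℤ) : ℚ) = χ.coeff 0 := by
      rw [← hq, Polynomial.coeff_map]; rfl
    rcases rat_unit hi1 hi2 hne with h | h
    · left; rw [h] at hq0; exact_mod_cast hq0
    · right; rw [h] at hq0; exact_mod_cast hq0
  · intro z hz
    refine (hroots z ?_).2.2.2
    have h5 : P = q.map (Int.castRingHom ℂ) := by
      rw [hP, ← hq, Polynomial.map_map]
      congr 1
    rw [h5]
    exact hz

/-- Roots of the characteristic polynomial give eigenfunctionals. -/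
theorem exists_functional_of_root {M : Type*} [AddCommGroup M] [Module ℚ M] [Module.Finite ℚ M]
    {ι : Type*} [Fintype ι] [DecidableEq ι] (bM : Module.Basis ι ℚ M) (g : Module.End ℚ M) {ζ : ℂ}
    (hζ : ((LinearMap.charpoly g).map (algebraMap ℚ ℂ)).IsRoot ζ) :
    ∃ ψ : M →ₗ[ℚ] ℂ, ψ ≠ 0 ∧ ∀ x, ψ (g x) = ζ * ψ x := by
  classical
  set Mg := LinearMap.toMatrix bM bM g with hMg
  rw [← LinearMap.charpoly_toMatrix g bM, ← Matrix.charpoly_map, Polynomial.IsRoot,
    Matrix.eval_charpoly] at hζ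
  obtain ⟨v, hv0, hv⟩ := Matrix.exists_vecMul_eq_zero_iff.mpr hζ
  have hv' : ∀ k, ∑ l, v l * ((Mg l k : ℚ) : ℂ) = ζ * v k := by
    intro k
    have h1 := congrFun hv k
    rw [Matrix.vecMul_sub, Pi.sub_apply, Pi.zero_apply, sub_eq_zero] at h1
    have h2 : (v ᵥ* (Matrix.scalar ι) ζ) k = ζ * v k := by
      rw [Matrix.scalar_apply, Matrix.vecMul_diagonal, mul_comm]
    rw [h2] at h1
    rw [h1]
    rfl
  let ψ : M →ₗ[ℚ] ℂ := bM.constr ℚ v
  have hψ : ∀ k, ψ (bM k) = v k := fun k => bM.constr_basis ℚ v k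
  refine ⟨ψ, ?_, ?_⟩
  · rintro h0
    apply hv0
    funext k
    rw [← hψ k, h0]
    rfl
  · have h3 : ψ.comp g = ζ • ψ := by
      apply bM.ext
      intro k
      rw [LinearMap.comp_apply, LinearMap.smul_apply, hψ, smul_eq_mul, ← hv' k]
      have h4 : g (bM k) = ∑ l, Mg l k • bM l := by
        rw [hMg]
        conv_lhs => rw [← bM.sum_repr (g (bM k))]
        exact Finset.sum_congr rfl fun l _ => by rw [LinearMap.toMatrix_apply]
      rw [h4, map_sum]
      refine Finset.sum_congr rfl fun l _ => ?_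
      rw [map_smul, hψ, Rat.smul_def, mul_comm]
    intro x
    have := LinearMap.congr_fun h3 x
    exact this

end charpoly

variable {n : ℕ} {G : SimpleGraph (Fin n)} {M : Type*} [LieRing M] [LieAlgebra ℚ M]

/-- The derived subspace. -/
def WW (M : Type*) [LieRing M] [LieAlgebra ℚ M] : Submodule ℚ M :=
  Submodule.span ℚ {m | ∃ x y : M, ⁅x, y⁆ = m}

theorem bracket_mem_WW (x y : M) : ⁅x, y⁆ ∈ WW M := Submodule.subset_span ⟨x, y, rfl⟩

/-- Existence of an adapted basis. -/
theorem exists_adapted [FiniteDimensional ℚ M] {α : Fin n → (M →ₗ[ℚ] ℝ)} (h : MData G M α) :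
    ∃ (r : ℕ) (bM : Module.Basis (Fin n ⊕ Fin r) ℚ M) (Θ : Matrix (Fin n) (Fin n) ℝ),
      (Matrix.of fun i a => α i (bM (Sum.inl a))) * Θ = 1 ∧
      Θ * (Matrix.of fun i a => α i (bM (Sum.inl a))) = 1 ∧
      (∀ w ∈ WW M, ∀ a, bM.coord (Sum.inl a) w = 0) ∧ ∀ c, bM (Sum.inr c) ∈ WW M := by
  classical
  obtain ⟨C, hC⟩ := Submodule.exists_isCompl (WW M)
  obtain ⟨k, ⟨bC⟩⟩ : ∃ k, Nonempty (Module.Basis (Fin k) ℚ C) := ⟨_, ⟨Module.finBasis ℚ C⟩⟩
  obtain ⟨r, ⟨bW⟩⟩ : ∃ r, Nonempty (Module.Basis (Fin r) ℚ (WW M)) :=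
    ⟨_, ⟨Module.finBasis ℚ (WW M)⟩⟩
  let e := Submodule.prodEquivOfIsCompl C (WW M) hC.symm
  let bM : Module.Basis (Fin k ⊕ Fin r) ℚ M := (bC.prod bW).map e
  have hinl : ∀ a, bM (Sum.inl a) = bC a := by
    intro a
    simp [bM, e]
  have hinr : ∀ c, bM (Sum.inr c) = bW c := by
    intro c
    simp [bM, e]
  have hcoord : ∀ w ∈ WW M, ∀ a, bM.coord (Sum.inl a) w = 0 := by
    intro w hw a
    rw [Module.Basis.coord_apply]
    simp only [bM, Module.Basis.map_repr, LinearEquiv.trans_apply]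
    have h1 : e.symm w = ((0 : C), (⟨w, hw⟩ : WW M)) :=
      Submodule.prodEquivOfIsCompl_symm_apply_right C (WW M) hC.symm ⟨w, hw⟩
    rw [h1]
    simp
  have hαW : ∀ i, ∀ w ∈ WW M, α i w = 0 := by
    intro i w hw
    unfold WW at hw
    induction hw using Submodule.span_induction with
    | mem x hx => obtain ⟨y, z, rfl⟩ := hx; exact h.t3 i y z
    | zero => exact map_zero _
    | add x y _ _ hx hy => rw [map_add, hx, hy, add_zero]
    | smul c x _ hx => rw [map_smul, hx, smul_zero]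
  let L : (Fin k → ℝ) →ₗ[ℝ] (Fin n → ℝ) :=
    { toFun := fun s i => ∑ a, s a * α i (bM (Sum.inl a))
      map_add' := fun s t => by
        funext i
        simp only [Pi.add_apply, add_mul, Finset.sum_add_distrib]
      map_smul' := fun c s => by
        funext i
        simp only [Pi.smul_apply, smul_eq_mul, RingHom.id_apply, Finset.mul_sum, mul_assoc] }
  have hLinj : Function.Injective L := by
    rw [← LinearMap.ker_eq_bot, LinearMap.ker_eq_bot']
    intro s hs
    funext a0
    have h1 := h.t5 k s (fun a => bM (Sum.inl a)) (fun i => congrFun hs i)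
      ((Algebra.linearMap ℚ ℝ).comp (bM.coord (Sum.inl a0))) (fun x y => by
        rw [LinearMap.comp_apply, hcoord _ (bracket_mem_WW x y), map_zero])
    rw [Finset.sum_eq_single a0] at h1
    · rw [LinearMap.comp_apply, Module.Basis.coord_apply, Module.Basis.repr_self] at h1
      simpa using h1
    · intro a _ ha
      rw [LinearMap.comp_apply, Module.Basis.coord_apply, Module.Basis.repr_self,
        Finsupp.single_apply, if_neg (fun h => ha (Sum.inl.inj h)), map_zero, mul_zero]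
    · simp
  have hLsurj : Function.Surjective L := by
    rw [← LinearMap.range_eq_top, eq_top_iff]
    intro v _
    have h1 := h.t4 v
    refine (Submodule.span_le.mpr ?_) h1
    rintro _ ⟨m, rfl⟩
    refine ⟨fun a => ((bM.repr m (Sum.inl a) : ℚ) : ℝ), ?_⟩
    funext i
    change ∑ a, ((bM.repr m (Sum.inl a) : ℚ) : ℝ) * α i (bM (Sum.inl a)) = α i m
    conv_rhs => rw [← bM.sum_repr m]
    rw [Fintype.sum_sum_type, map_add, map_sum, map_sum]
    have h2 : ∑ c, α i (bM.repr m (Sum.inr c) • bM (Sum.inr c)) = 0 := by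
      refine Finset.sum_eq_zero fun c _ => ?_
      rw [map_smul, hinr, hαW i _ (bW c).2, smul_zero]
    rw [h2, add_zero]
    refine Finset.sum_congr rfl fun a _ => ?_
    rw [map_smul, Rat.smul_def]
  have hkn : k = n := by
    have h1 := (LinearEquiv.ofBijective L ⟨hLinj, hLsurj⟩).finrank_eq
    rw [Module.finrank_fin_fun, Module.finrank_fin_fun] at h1
    exact h1
  subst hkn
  set A : Matrix (Fin k) (Fin k) ℝ := Matrix.of fun i a => α i (bM (Sum.inl a)) with hA
  have hAinj : Function.Injective A.mulVec := by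
    intro s t hst
    apply hLinj
    funext i
    have h1 := congrFun hst i
    change ∑ a, s a * α i (bM (Sum.inl a)) = ∑ a, t a * α i (bM (Sum.inl a))
    change ∑ a, A i a * s a = ∑ a, A i a * t a at h1
    simp only [hA, Matrix.of_apply] at h1
    simpa only [mul_comm] using h1
  have hAu : IsUnit A := Matrix.mulVec_injective_iff_isUnit.mp hAinj
  obtain ⟨⟨A1, A2, h12, h21⟩, hAA⟩ := hAu
  refine ⟨r, bM, A2, ?_, ?_, hcoord, fun c => ?_⟩
  · have h1 : A * A2 = 1 := by rw [← hAA]; exact h12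
    exact h1
  · have h1 : A2 * A = 1 := by rw [← hAA]; exact h21
    exact h1
  · rw [hinr]; exact (bW c).2

end Pool.Agent.V11110.GL
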