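import Pool.Agent.V11110.GL1

/-!
Comparison of rational and real forms.
-/

set_option autoImplicit false

open Matrix Polynomial

namespace Pool.Agent.V11110.GL

variable {n : ℕ}

/-- Finitely many reals have a common finite expansion over the rationals. -/
theorem exists_expansion {ι : Type*} [Finite ι] (x : ι → ℝ) :
    ∃ (m : ℕ) (r : Fin m → ℝ) (c : Fin m → (ℝ →ₗ[ℚ] ℚ)),
      ∀ i, x i = ∑ k, r k * ((c k (x i) : ℚ) : ℝ) := by
  classical
  cases nonempty_fintype ι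
  let B := Module.Basis.ofVectorSpace ℚ ℝ
  let S : Finset _ := Finset.univ.biUnion fun i => (B.repr (x i)).support
  let e := S.equivFin
  refine ⟨S.card, fun k => B (e.symm k), fun k => B.coord (e.symm k), fun i => ?_⟩
  have h := B.linearCombination_repr (x i)
  rw [Finsupp.linearCombination_apply, Finsupp.sum] at h
  have h2 : (B.repr (x i)).support ⊆ S := fun a ha =>
    Finset.mem_biUnion.mpr ⟨i, Finset.mem_univ _, ha⟩
  rw [Finset.sum_subset h2 (fun a _ ha => by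
    rw [Finsupp.notMem_support_iff.mp ha, zero_smul])] at h
  have h3 : ∑ k, B (e.symm k) * ((B.coord (e.symm k) (x i) : ℚ) : ℝ)
      = ∑ a ∈ S, (B.repr (x i)) a • B a := by
    rw [← Finset.sum_coe_sort S (fun a => (B.repr (x i)) a • B a)]
    rw [← e.symm.sum_comp]
    refine Finset.sum_congr rfl fun k _ => ?_
    rw [Module.Basis.coord_apply, Rat.smul_def, mul_comm]
  rw [h3]
  exact h.symm

theorem exists_functional : ∃ c : ℝ →ₗ[ℚ] ℚ, c 1 = 1 := by
  obtain ⟨g, hg⟩ := LinearMap.exists_leftInverse_of_injective (Algebra.linearMap ℚ ℝ)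
    (LinearMap.ker_eq_bot.mpr (algebraMap ℚ ℝ).injective)
  refine ⟨g, ?_⟩
  have := congrArg (fun f => f (1:ℚ)) hg
  simpa using this

/-- Rational matrices as real matrices. -/
noncomputable def toR : Matrix (Fin n) (Fin n) ℚ →ₐ[ℚ] Matrix (Fin n) (Fin n) ℝ :=
  (Algebra.ofId ℚ ℝ).mapMatrix

theorem toR_apply (A : Matrix (Fin n) (Fin n) ℚ) (i j : Fin n) : toR A i j = ((A i j : ℚ) : ℝ) := by
  rfl

theorem toR_transpose (A : Matrix (Fin n) (Fin n) ℚ) : toR Aᵀ = (toR A)ᵀ := by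
  ext i j
  rfl

theorem toR_injective : Function.Injective (toR : Matrix (Fin n) (Fin n) ℚ → _) := by
  intro A B h
  ext i j
  have := congrFun (congrFun h i) j
  rw [toR_apply, toR_apply] at this
  exact_mod_cast this

/-- Apply a rational functional to the entries. -/
noncomputable def mapc (c : ℝ →ₗ[ℚ] ℚ) (X : Matrix (Fin n) (Fin n) ℝ) : Matrix (Fin n) (Fin n) ℚ := X.map c

theorem mapc_apply (c : ℝ →ₗ[ℚ] ℚ) (X : Matrix (Fin n) (Fin n) ℝ) (i j : Fin n) :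
    mapc c X i j = c (X i j) := rfl

theorem c_mul (c : ℝ →ₗ[ℚ] ℚ) (x : ℝ) (q : ℚ) : c (x * (q : ℝ)) = c x * q := by
  have : x * (q : ℝ) = q • x := by rw [Rat.smul_def, mul_comm]
  rw [this, map_smul, smul_eq_mul, mul_comm]

theorem mapc_add (c : ℝ →ₗ[ℚ] ℚ) (X Y : Matrix (Fin n) (Fin n) ℝ) :
    mapc c (X + Y) = mapc c X + mapc c Y := by
  ext i j; simp [mapc_apply]

theorem mapc_mul_toR (c : ℝ →ₗ[ℚ] ℚ) (X : Matrix (Fin n) (Fin n) ℝ)
    (A : Matrix (Fin n) (Fin n) ℚ) : mapc c (X * toR A) = mapc c X * A := by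
  ext i j
  simp only [mapc_apply, Matrix.mul_apply, map_sum, toR_apply, c_mul]

theorem mapc_toR_mul (c : ℝ →ₗ[ℚ] ℚ) (X : Matrix (Fin n) (Fin n) ℝ)
    (A : Matrix (Fin n) (Fin n) ℚ) : mapc c (toR A * X) = A * mapc c X := by
  ext i j
  simp only [mapc_apply, Matrix.mul_apply, map_sum, toR_apply]
  refine Finset.sum_congr rfl fun k _ => ?_
  rw [mul_comm, c_mul, mul_comm]

theorem mapc_transpose (c : ℝ →ₗ[ℚ] ℚ) (X : Matrix (Fin n) (Fin n) ℝ) :
    mapc c Xᵀ = (mapc c X)ᵀ := by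
  ext i j; rfl

theorem mapc_toR (c : ℝ →ₗ[ℚ] ℚ) (A : Matrix (Fin n) (Fin n) ℚ) : mapc c (toR A) = c 1 • A := by
  ext i j
  have := c_mul c 1 (A i j)
  rw [one_mul] at this
  rw [mapc_apply, toR_apply, this, Matrix.smul_apply, smul_eq_mul]

/-- Expansion of a real matrix. -/
theorem matrix_expansion (X : Matrix (Fin n) (Fin n) ℝ) :
    ∃ (m : ℕ) (r : Fin m → ℝ) (c : Fin m → (ℝ →ₗ[ℚ] ℚ)),
      X = ∑ k, r k • toR (mapc (c k) X) := by
  obtain ⟨m, r, c, h⟩ := exists_expansion (fun p : Fin n × Fin n => X p.1 p.2)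
  refine ⟨m, r, c, ?_⟩
  ext i j
  rw [Matrix.sum_apply]
  have h1 : X i j = ∑ k, r k * ((c k (X i j) : ℚ) : ℝ) := h (i, j)
  have h2 : ∀ k, (r k • toR (mapc (c k) X)) i j = r k * ((c k (X i j) : ℚ) : ℝ) := by
    intro k
    rw [Matrix.smul_apply, toR_apply, mapc_apply, smul_eq_mul]
  simp only [h2]
  exact h1

/-- The real span of a rational space of matrices. -/
noncomputable def rspan (B : Submodule ℚ (Matrix (Fin n) (Fin n) ℚ)) :
    Submodule ℝ (Matrix (Fin n) (Fin n) ℝ) :=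
  Submodule.span ℝ (toR '' (B : Set (Matrix (Fin n) (Fin n) ℚ)))

theorem mapc_mem (B : Submodule ℚ (Matrix (Fin n) (Fin n) ℚ)) {X : Matrix (Fin n) (Fin n) ℝ}
    (hX : X ∈ rspan B) : ∀ c : ℝ →ₗ[ℚ] ℚ, mapc c X ∈ B := by
  unfold rspan at hX
  induction hX using Submodule.span_induction with
  | mem x hx =>
    obtain ⟨A, hA, rfl⟩ := hx
    intro c
    rw [mapc_toR]
    exact B.smul_mem _ hA
  | zero =>
    intro c
    have : mapc c (0 : Matrix (Fin n) (Fin n) ℝ) = 0 := by ext i j; simp [mapc_apply]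
    rw [this]
    exact B.zero_mem
  | add x y _ _ hx hy => intro c; rw [mapc_add]; exact B.add_mem (hx c) (hy c)
  | smul a x _ hx =>
    intro c
    have : mapc c (a • x) = mapc (c.comp (LinearMap.mulLeft ℚ a)) x := by
      ext i j; simp [mapc_apply]
    rw [this]
    exact hx _

theorem mem_of_toR_mem (B : Submodule ℚ (Matrix (Fin n) (Fin n) ℚ))
    {A : Matrix (Fin n) (Fin n) ℚ} (h : toR A ∈ rspan B) : A ∈ B := by
  obtain ⟨c, hc⟩ := exists_functional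
  have := mapc_mem B h c
  rwa [mapc_toR, hc, one_smul] at this

/-- Real data: the rational space of forms `B` becomes, in the real coordinates given by `Θ`,
the space of forms supported on the edges of `G`. -/
structure RealData (G : SimpleGraph (Fin n)) (B : Submodule ℚ (Matrix (Fin n) (Fin n) ℚ))
    (Θ Θ' : Matrix (Fin n) (Fin n) ℝ) : Prop where
  inv1 : Θ' * Θ = 1
  inv2 : Θ * Θ' = 1
  r1 : ∀ A ∈ B, Form G (Θᵀ * toR A * Θ)
  r2 : ∀ e : Matrix (Fin n) (Fin n) ℝ, Form G e → Θ'ᵀ * e * Θ' ∈ rspan B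

namespace RealData

variable {G : SimpleGraph (Fin n)} {B : Submodule ℚ (Matrix (Fin n) (Fin n) ℚ)}
  {Θ Θ' : Matrix (Fin n) (Fin n) ℝ} (h : RealData G B Θ Θ')

include h

theorem tinv1 : Θᵀ * Θ'ᵀ = 1 := by rw [← Matrix.transpose_mul, h.inv1, Matrix.transpose_one]
theorem tinv2 : Θ'ᵀ * Θᵀ = 1 := by rw [← Matrix.transpose_mul, h.inv2, Matrix.transpose_one]

theorem form_of_mem {X : Matrix (Fin n) (Fin n) ℝ} (hX : X ∈ rspan B) : Form G (Θᵀ * X * Θ) := by
  unfold rspan at hX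
  induction hX using Submodule.span_induction with
  | mem x hx => obtain ⟨A, hA, rfl⟩ := hx; exact h.r1 A hA
  | zero => rw [Matrix.mul_zero, Matrix.zero_mul]; exact Form.zero
  | add x y _ _ hx hy => rw [Matrix.mul_add, Matrix.add_mul]; exact hx.add hy
  | smul a x _ hx => rw [Matrix.mul_smul, Matrix.smul_mul]; exact hx.smul a

theorem mem_of_form {X : Matrix (Fin n) (Fin n) ℝ} (hX : Form G (Θᵀ * X * Θ)) : X ∈ rspan B := by
  have h1 := h.r2 _ hX
  have h2 : Θ'ᵀ * (Θᵀ * X * Θ) * Θ' = X := by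
    calc Θ'ᵀ * (Θᵀ * X * Θ) * Θ' = (Θ'ᵀ * Θᵀ) * X * (Θ * Θ') := by
          simp only [Matrix.mul_assoc]
      _ = X := by rw [h.tinv2, h.inv2, Matrix.one_mul, Matrix.mul_one]
  rwa [h2] at h1

theorem mem_of_form' {A : Matrix (Fin n) (Fin n) ℚ} (hX : Form G (Θᵀ * toR A * Θ)) : A ∈ B :=
  mem_of_toR_mem B (h.mem_of_form hX)

/-- conjugation identity -/
theorem conj_deriv (D X : Matrix (Fin n) (Fin n) ℝ) :
    Θᵀ * (Dᵀ * X + X * D) * Θ
      = (Θ' * D * Θ)ᵀ * (Θᵀ * X * Θ) + (Θᵀ * X * Θ) * (Θ' * D * Θ) := by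
  have e1 : (Θ' * D * Θ)ᵀ = Θᵀ * Dᵀ * Θ'ᵀ := by
    rw [Matrix.transpose_mul, Matrix.transpose_mul, Matrix.mul_assoc]
  have e2 : Θᵀ * Dᵀ * Θ'ᵀ * (Θᵀ * X * Θ) = Θᵀ * Dᵀ * (Θ'ᵀ * Θᵀ) * X * Θ := by
    simp only [Matrix.mul_assoc]
  have e3 : (Θᵀ * X * Θ) * (Θ' * D * Θ) = Θᵀ * X * (Θ * Θ') * D * Θ := by
    simp only [Matrix.mul_assoc]
  rw [e1, e2, e3, h.tinv2, h.inv2]
  simp only [Matrix.mul_one, Matrix.mul_add, Matrix.add_mul, Matrix.mul_assoc]

theorem conj_congr (D X : Matrix (Fin n) (Fin n) ℝ) :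
    Θᵀ * (Dᵀ * X * D) * Θ = (Θ' * D * Θ)ᵀ * (Θᵀ * X * Θ) * (Θ' * D * Θ) := by
  have e1 : (Θ' * D * Θ)ᵀ = Θᵀ * Dᵀ * Θ'ᵀ := by
    rw [Matrix.transpose_mul, Matrix.transpose_mul, Matrix.mul_assoc]
  have e2 : Θᵀ * Dᵀ * Θ'ᵀ * (Θᵀ * X * Θ) * (Θ' * D * Θ)
      = Θᵀ * Dᵀ * (Θ'ᵀ * Θᵀ) * X * (Θ * Θ') * D * Θ := by
    simp only [Matrix.mul_assoc]
  rw [e1, e2, h.tinv2, h.inv2]
  simp only [Matrix.mul_one, Matrix.mul_assoc]

/-- A real matrix in the algebra preserves the real span. -/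
theorem deriv_mem {D X : Matrix (Fin n) (Fin n) ℝ} (hD : InP G (Θ' * D * Θ))
    (hX : X ∈ rspan B) : Dᵀ * X + X * D ∈ rspan B := by
  apply h.mem_of_form
  rw [h.conj_deriv]
  exact (h.form_of_mem hX).deriv hD

theorem congr_mem {D : Matrix (Fin n) (Fin n) ℚ} (hD : InP G (Θ' * toR D * Θ))
    {A : Matrix (Fin n) (Fin n) ℚ} (hA : A ∈ B) : Dᵀ * A * D ∈ B := by
  apply h.mem_of_form'
  rw [map_mul, map_mul, toR_transpose, h.conj_congr]
  exact (h.r1 A hA).congr hD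

/-- A rational matrix acting on rational forms lies in the algebra. -/
theorem inP_of_rat {D : Matrix (Fin n) (Fin n) ℚ} (hD : ∀ A ∈ B, Dᵀ * A + A * D ∈ B) :
    InP G (Θ' * toR D * Θ) := by
  apply inP_of_deriv
  intro e he
  have h1 := h.r2 e he
  have h2 : ∀ X ∈ rspan B, (toR D)ᵀ * X + X * toR D ∈ rspan B := by
    intro X hX
    unfold rspan at hX
    induction hX using Submodule.span_induction with
    | mem x hx =>
      obtain ⟨A, hA, rfl⟩ := hx
      refine Submodule.subset_span ⟨Dᵀ * A + A * D, hD A hA, ?_⟩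
      rw [map_add, map_mul, map_mul, toR_transpose]
    | zero => rw [Matrix.mul_zero, Matrix.zero_mul, add_zero]; exact Submodule.zero_mem _
    | add x y _ _ hx hy =>
      have : (toR D)ᵀ * (x + y) + (x + y) * toR D
          = ((toR D)ᵀ * x + x * toR D) + ((toR D)ᵀ * y + y * toR D) := by
        rw [Matrix.mul_add, Matrix.add_mul]; abel
      rw [this]
      exact Submodule.add_mem _ hx hy
    | smul a x _ hx =>
      have : (toR D)ᵀ * (a • x) + (a • x) * toR D = a • ((toR D)ᵀ * x + x * toR D) := by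
        rw [Matrix.mul_smul, Matrix.smul_mul, smul_add]
      rw [this]
      exact Submodule.smul_mem _ _ hx
  have h3 := h.form_of_mem (h2 _ h1)
  rw [h.conj_deriv] at h3
  have h4 : Θᵀ * (Θ'ᵀ * e * Θ') * Θ = e := by
    calc Θᵀ * (Θ'ᵀ * e * Θ') * Θ = (Θᵀ * Θ'ᵀ) * e * (Θ' * Θ) := by simp only [Matrix.mul_assoc]
      _ = e := by rw [h.tinv1, h.inv1, Matrix.one_mul, Matrix.mul_one]
  rwa [h4] at h3

/-- Rational parts of a real matrix in the algebra are in the algebra. -/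
theorem inP_mapc {D : Matrix (Fin n) (Fin n) ℝ} (hD : InP G (Θ' * D * Θ)) (c : ℝ →ₗ[ℚ] ℚ) :
    InP G (Θ' * toR (mapc c D) * Θ) := by
  apply h.inP_of_rat
  intro A hA
  have h1 : Dᵀ * toR A + toR A * D ∈ rspan B :=
    h.deriv_mem hD (Submodule.subset_span ⟨A, hA, rfl⟩)
  have h2 := mapc_mem B h1 c
  rwa [mapc_add, mapc_mul_toR, mapc_toR_mul, mapc_transpose] at h2

end RealData

end Pool.Agent.V11110.GL
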