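import Pool.Agent.V11110.GL2

/-!
A rational element of the algebra with scalar blocks separating the classes.
-/

set_option autoImplicit false

open Matrix Polynomial

namespace Pool.Agent.V11110.GL

variable {n : ℕ}

/-- Representatives of the classes as real numbers. -/
theorem exists_rep (G : SimpleGraph (Fin n)) : ∃ c : Fin n → ℝ, ∀ i j, c i = c j ↔ Q G i j := by
  classical
  let s : Setoid (Fin n) := ⟨Q G, Q_refl G, fun h => Q_symm G h, fun h h' => Q_trans G h h'⟩
  let r : Fin n → Fin n := fun i => (Quotient.mk s i).out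
  refine ⟨fun i => ((r i : ℕ) : ℝ), fun i j => ?_⟩
  constructor
  · intro h
    have h1 : r i = r j := by
      apply Fin.ext
      have h' : ((r i : ℕ) : ℝ) = ((r j : ℕ) : ℝ) := h
      exact_mod_cast h'
    have h2 : Quotient.mk s (Quotient.mk s i).out = Quotient.mk s (Quotient.mk s j).out :=
      congrArg (Quotient.mk s) h1
    rw [Quotient.out_eq, Quotient.out_eq] at h2
    exact Quotient.exact h2
  · intro h
    have h3 : Quotient.mk s i = Quotient.mk s j := Quotient.sound h
    have h4 : r i = r j := congrArg Quotient.out h3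
    have h5 : ((r i : ℕ) : ℝ) = ((r j : ℕ) : ℝ) := by rw [h4]
    exact h5

section

variable {G : SimpleGraph (Fin n)} {B : Submodule ℚ (Matrix (Fin n) (Fin n) ℚ)}
  {Θ Θ' : Matrix (Fin n) (Fin n) ℝ}

/-- Elements which are scalar on blocks, described by a rational condition. -/
noncomputable def ZZ (G : SimpleGraph (Fin n)) (Θ Θ' : Matrix (Fin n) (Fin n) ℝ) :
    Submodule ℚ (Matrix (Fin n) (Fin n) ℚ) where
  carrier := {z | InP G (Θ' * toR z * Θ) ∧ ∀ y w : Matrix (Fin n) (Fin n) ℚ,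
    InP G (Θ' * toR y * Θ) → InP G (Θ' * toR w * Θ) →
      Matrix.trace (z * y * w) = Matrix.trace (y * z * w)}
  zero_mem' := by
    refine ⟨?_, fun y w _ _ => by simp⟩
    rw [map_zero, Matrix.mul_zero, Matrix.zero_mul]
    exact InP.zero
  add_mem' := by
    rintro a b ⟨ha, ha'⟩ ⟨hb, hb'⟩
    refine ⟨?_, fun y w hy hw => ?_⟩
    · rw [map_add, Matrix.mul_add, Matrix.add_mul]
      exact ha.add hb
    · rw [Matrix.add_mul, Matrix.add_mul, Matrix.mul_add, Matrix.add_mul, Matrix.trace_add,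
        Matrix.trace_add, ha' y w hy hw, hb' y w hy hw]
  smul_mem' := by
    rintro c a ⟨ha, ha'⟩
    refine ⟨?_, fun y w hy hw => ?_⟩
    · rw [map_smul, Matrix.mul_smul, Matrix.smul_mul]
      have : (c • (Θ' * toR a * Θ)) = ((c : ℝ) • (Θ' * toR a * Θ)) := by
        ext i j
        simp [Rat.smul_def]
      rw [this]
      exact ha.smul _
    · rw [Matrix.smul_mul, Matrix.smul_mul, Matrix.mul_smul, Matrix.smul_mul, Matrix.trace_smul,
        Matrix.trace_smul, ha' y w hy hw]

theorem mapc_trace (c : ℝ →ₗ[ℚ] ℚ) (X : Matrix (Fin n) (Fin n) ℝ) :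
    Matrix.trace (mapc c X) = c (Matrix.trace X) := by
  simp [Matrix.trace, mapc_apply]

theorem mapc_sum_smul {m : ℕ} (r : Fin m → ℝ) (A : Fin m → Matrix (Fin n) (Fin n) ℚ)
    (X : Matrix (Fin n) (Fin n) ℝ) : (∑ k, r k • toR (A k)) * X = ∑ k, r k • (toR (A k) * X) := by
  rw [Finset.sum_mul]
  refine Finset.sum_congr rfl fun k _ => ?_
  rw [Matrix.smul_mul]

/-- The trace identity holds for real matrices in the algebra. -/
theorem real_trace (h : RealData G B Θ Θ') {z : Matrix (Fin n) (Fin n) ℚ} (hz : z ∈ ZZ G Θ Θ')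
    (y w : Matrix (Fin n) (Fin n) ℝ) (hy : InP G (Θ' * y * Θ)) (hw : InP G (Θ' * w * Θ)) :
    Matrix.trace (toR z * y * w) = Matrix.trace (y * toR z * w) := by
  obtain ⟨m, r, c, hyy⟩ := matrix_expansion y
  obtain ⟨m', r', c', hww⟩ := matrix_expansion w
  have hcast : ∀ A : Matrix (Fin n) (Fin n) ℚ,
      Matrix.trace (toR A) = ((Matrix.trace A : ℚ) : ℝ) := by
    intro A; simp [Matrix.trace, toR_apply]
  have key : ∀ k l, Matrix.trace (toR z * toR (mapc (c k) y) * toR (mapc (c' l) w))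
      = Matrix.trace (toR (mapc (c k) y) * toR z * toR (mapc (c' l) w)) := by
    intro k l
    rw [← map_mul, ← map_mul, ← map_mul, ← map_mul, hcast, hcast,
      hz.2 _ _ (h.inP_mapc hy (c k)) (h.inP_mapc hw (c' l))]
  have e1 : Matrix.trace (toR z * y * w) = ∑ k, ∑ l, r k * r' l *
      Matrix.trace (toR z * toR (mapc (c k) y) * toR (mapc (c' l) w)) := by
    conv_lhs => rw [hyy, hww]
    simp only [Finset.mul_sum, Finset.sum_mul, Matrix.mul_smul, Matrix.smul_mul,
      Matrix.trace_sum, Matrix.trace_smul, smul_eq_mul]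
    rw [Finset.sum_comm]
    refine Finset.sum_congr rfl fun k _ => Finset.sum_congr rfl fun l _ => ?_
    ring
  have e2 : Matrix.trace (y * toR z * w) = ∑ k, ∑ l, r k * r' l *
      Matrix.trace (toR (mapc (c k) y) * toR z * toR (mapc (c' l) w)) := by
    conv_lhs => rw [hyy, hww]
    simp only [Finset.mul_sum, Finset.sum_mul, Matrix.mul_smul, Matrix.smul_mul,
      Matrix.trace_sum, Matrix.trace_smul, smul_eq_mul]
    rw [Finset.sum_comm]
    refine Finset.sum_congr rfl fun k _ => Finset.sum_congr rfl fun l _ => ?_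
    ring
  rw [e1, e2]
  refine Finset.sum_congr rfl fun k _ => Finset.sum_congr rfl fun l _ => ?_
  rw [key]

theorem inP_single {i j : Fin n} (hij : P G i j) :
    InP G (Matrix.single i j (1:ℝ)) := by
  intro w v hwv
  rw [Matrix.single_apply, if_neg]
  rintro ⟨rfl, rfl⟩
  exact hwv hij

/-- Trace identity transported to the real coordinates. -/
theorem tilde_trace (h : RealData G B Θ Θ') {z : Matrix (Fin n) (Fin n) ℚ} (hz : z ∈ ZZ G Θ Θ')
    (y w : Matrix (Fin n) (Fin n) ℝ) (hy : InP G y) (hw : InP G w) :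
    Matrix.trace ((Θ' * toR z * Θ) * y * w) = Matrix.trace (y * (Θ' * toR z * Θ) * w) := by
  have hc : ∀ y : Matrix (Fin n) (Fin n) ℝ, Θ' * (Θ * y * Θ') * Θ = y := by
    intro y
    calc Θ' * (Θ * y * Θ') * Θ = (Θ' * Θ) * y * (Θ' * Θ) := by simp only [Matrix.mul_assoc]
      _ = y := by rw [h.inv1, Matrix.one_mul, Matrix.mul_one]
  have h1 := real_trace h hz (Θ * y * Θ') (Θ * w * Θ') (by rw [hc]; exact hy) (by rw [hc]; exact hw)
  have e1 : Matrix.trace (toR z * (Θ * y * Θ') * (Θ * w * Θ'))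
      = Matrix.trace ((Θ' * toR z * Θ) * y * w) := by
    calc Matrix.trace (toR z * (Θ * y * Θ') * (Θ * w * Θ'))
        = Matrix.trace ((toR z * Θ * y * (Θ' * Θ) * w) * Θ') := by simp only [Matrix.mul_assoc]
      _ = Matrix.trace (Θ' * (toR z * Θ * y * (Θ' * Θ) * w)) := Matrix.trace_mul_comm _ _
      _ = _ := by rw [h.inv1, Matrix.mul_one]; simp only [Matrix.mul_assoc]
  have e2 : Matrix.trace ((Θ * y * Θ') * toR z * (Θ * w * Θ'))
      = Matrix.trace (y * (Θ' * toR z * Θ) * w) := by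
    calc Matrix.trace ((Θ * y * Θ') * toR z * (Θ * w * Θ'))
        = Matrix.trace (Θ * (y * (Θ' * toR z * Θ) * w * Θ')) := by simp only [Matrix.mul_assoc]
      _ = Matrix.trace ((y * (Θ' * toR z * Θ) * w * Θ') * Θ) := Matrix.trace_mul_comm _ _
      _ = Matrix.trace (y * (Θ' * toR z * Θ) * w * (Θ' * Θ)) := by simp only [Matrix.mul_assoc]
      _ = _ := by rw [h.inv1, Matrix.mul_one]
  rw [← e1, ← e2]
  exact h1

theorem trace_mul_single' (M : Matrix (Fin n) (Fin n) ℝ) (i j : Fin n) :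
    Matrix.trace (M * Matrix.single i j (1:ℝ)) = M j i := by
  rw [Matrix.trace, Finset.sum_eq_single j]
  · simp [Matrix.diag_apply]
  · intro b _ hb
    simp [Matrix.diag_apply, hb]
  · simp

theorem block_scalar (h : RealData G B Θ Θ') {z : Matrix (Fin n) (Fin n) ℚ} (hz : z ∈ ZZ G Θ Θ')
    {i j : Fin n} (hij : Q G i j) :
    (Θ' * toR z * Θ) i j = if i = j then (Θ' * toR z * Θ) i i else 0 := by
  by_cases he : i = j
  · subst he; simp
  · rw [if_neg he]
    have h1 := tilde_trace h hz (Matrix.single i i (1:ℝ)) (Matrix.single j i (1:ℝ))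
      (inP_single (P_refl G i)) (inP_single hij.2)
    have e1 : Matrix.single i i (1:ℝ) * Matrix.single j i (1:ℝ) = 0 := by
      ext a b
      rw [Matrix.mul_apply]
      refine Finset.sum_eq_zero fun k _ => ?_
      rw [Matrix.single_apply, Matrix.single_apply]
      by_cases h2 : i = a ∧ i = k
      · have : ¬ (j = k ∧ i = b) := by rintro ⟨h3, _⟩; exact he (h2.2.trans h3.symm)
        simp [this]
      · simp [h2]
    rw [Matrix.mul_assoc (Θ' * toR z * Θ), e1, Matrix.mul_zero, Matrix.trace_zero,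
      trace_mul_single'] at h1
    have e2 : (Matrix.single i i (1:ℝ) * (Θ' * toR z * Θ)) i j = (Θ' * toR z * Θ) i j := by
      simp
    rw [e2] at h1
    exact h1.symm

theorem block_const (h : RealData G B Θ Θ') {z : Matrix (Fin n) (Fin n) ℚ} (hz : z ∈ ZZ G Θ Θ')
    {i j : Fin n} (hij : Q G i j) : (Θ' * toR z * Θ) i i = (Θ' * toR z * Θ) j j := by
  have h1 := tilde_trace h hz (Matrix.single i j (1:ℝ)) (Matrix.single j i (1:ℝ))
    (inP_single hij.1) (inP_single hij.2)
  have e1 : Matrix.single i j (1:ℝ) * Matrix.single j i (1:ℝ) = Matrix.single i i 1 := by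
    simp
  rw [Matrix.mul_assoc (Θ' * toR z * Θ), e1, trace_mul_single', trace_mul_single'] at h1
  have e2 : (Matrix.single i j (1:ℝ) * (Θ' * toR z * Θ)) i j = (Θ' * toR z * Θ) j j := by
    simp
  rw [e2] at h1
  exact h1

theorem trace_diag_comm {c : Fin n → ℝ} (hc : ∀ i j, Q G i j → c i = c j)
    {y w : Matrix (Fin n) (Fin n) ℝ} (hy : InP G y) (hw : InP G w) :
    Matrix.trace (Matrix.diagonal c * y * w) = Matrix.trace (y * Matrix.diagonal c * w) := by
  simp only [Matrix.trace, Matrix.diag_apply, Matrix.mul_apply (M := _ * _), Matrix.diagonal_mul,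
    Matrix.mul_diagonal]
  refine Finset.sum_congr rfl fun i _ => Finset.sum_congr rfl fun k _ => ?_
  by_cases h1 : P G i k
  · by_cases h2 : P G k i
    · rw [hc i k ⟨h1, h2⟩]; ring
    · rw [hw k i h2]; ring
  · rw [hy i k h1]; ring

/-- Rational parts of the real diagonal element are in `ZZ`. -/
theorem mapc_diag_mem (h : RealData G B Θ Θ') {c : Fin n → ℝ} (hc : ∀ i j, Q G i j → c i = c j)
    (f : ℝ →ₗ[ℚ] ℚ) : mapc f (Θ * Matrix.diagonal c * Θ') ∈ ZZ G Θ Θ' := by
  have hconj : Θ' * (Θ * Matrix.diagonal c * Θ') * Θ = Matrix.diagonal c := by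
    calc Θ' * (Θ * Matrix.diagonal c * Θ') * Θ = (Θ' * Θ) * Matrix.diagonal c * (Θ' * Θ) := by
          simp only [Matrix.mul_assoc]
      _ = _ := by rw [h.inv1, Matrix.one_mul, Matrix.mul_one]
  have hdiag : InP G (Matrix.diagonal c) := by
    intro w v hwv
    rw [Matrix.diagonal_apply_ne]
    rintro rfl
    exact hwv (P_refl G w)
  refine ⟨h.inP_mapc (by rw [hconj]; exact hdiag) f, fun y w hy hw => ?_⟩
  have e1 : mapc f (Θ * Matrix.diagonal c * Θ') * y * w
      = mapc f (Θ * Matrix.diagonal c * Θ' * toR y * toR w) := by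
    rw [mapc_mul_toR, mapc_mul_toR]
  have e2 : y * mapc f (Θ * Matrix.diagonal c * Θ') * w
      = mapc f (toR y * (Θ * Matrix.diagonal c * Θ') * toR w) := by
    rw [mapc_mul_toR, mapc_toR_mul]
  rw [e1, e2, mapc_trace, mapc_trace]
  congr 1
  have e3 : Matrix.trace (Θ * Matrix.diagonal c * Θ' * toR y * toR w)
      = Matrix.trace (Matrix.diagonal c * (Θ' * toR y * Θ) * (Θ' * toR w * Θ)) := by
    calc Matrix.trace (Θ * Matrix.diagonal c * Θ' * toR y * toR w)
        = Matrix.trace (Θ * (Matrix.diagonal c * Θ' * toR y * toR w)) := by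
          simp only [Matrix.mul_assoc]
      _ = Matrix.trace ((Matrix.diagonal c * Θ' * toR y * toR w) * Θ) := Matrix.trace_mul_comm _ _
      _ = Matrix.trace ((Matrix.diagonal c * Θ' * toR y * (Θ * Θ') * toR w) * Θ) := by
          rw [h.inv2, Matrix.mul_one]
      _ = _ := by simp only [Matrix.mul_assoc]
  have e4 : Matrix.trace (toR y * (Θ * Matrix.diagonal c * Θ') * toR w)
      = Matrix.trace ((Θ' * toR y * Θ) * Matrix.diagonal c * (Θ' * toR w * Θ)) := by
    calc Matrix.trace (toR y * (Θ * Matrix.diagonal c * Θ') * toR w)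
        = Matrix.trace ((Θ * Θ') * toR y * (Θ * Matrix.diagonal c * Θ') * toR w) := by
          rw [h.inv2, Matrix.one_mul]
      _ = Matrix.trace (Θ * (Θ' * toR y * (Θ * Matrix.diagonal c * Θ') * toR w)) := by
          simp only [Matrix.mul_assoc]
      _ = Matrix.trace ((Θ' * toR y * (Θ * Matrix.diagonal c * Θ') * toR w) * Θ) :=
          Matrix.trace_mul_comm _ _
      _ = _ := by simp only [Matrix.mul_assoc]
  rw [e3, e4]
  exact trace_diag_comm hc hy hw

/-- The difference of two diagonal entries in real coordinates. -/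
noncomputable def dfun (Θ Θ' : Matrix (Fin n) (Fin n) ℝ) (i j : Fin n) :
    Matrix (Fin n) (Fin n) ℝ →ₗ[ℝ] ℝ where
  toFun X := (Θ' * X * Θ) i i - (Θ' * X * Θ) j j
  map_add' X Y := by simp only [Matrix.mul_add, Matrix.add_mul, Matrix.add_apply]; ring
  map_smul' c X := by
    simp only [Matrix.mul_smul, Matrix.smul_mul, Matrix.smul_apply, smul_eq_mul, RingHom.id_apply]
    ring

/-- Existence of a rational element separating the classes. -/
theorem exists_separating (h : RealData G B Θ Θ') :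
    ∃ z : Matrix (Fin n) (Fin n) ℚ, z ∈ ZZ G Θ Θ' ∧
      ∀ i j, ¬ Q G i j → (Θ' * toR z * Θ) i i ≠ (Θ' * toR z * Θ) j j := by
  classical
  obtain ⟨c, hc⟩ := exists_rep G
  let E := ZZ G Θ Θ'
  let fn : Fin n × Fin n → (E →ₗ[ℚ] ℝ) := fun p =>
    ((dfun Θ Θ' p.1 p.2).restrictScalars ℚ).comp (toR.toLinearMap.comp E.subtype)
  let s : Finset (Submodule ℚ E) :=
    (Finset.univ.filter (fun p : Fin n × Fin n => ¬ Q G p.1 p.2)).image
      (fun p => LinearMap.ker (fn p))
  have hs : (⊤ : Submodule ℚ E) ∉ s := by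
    intro htop
    rw [Finset.mem_image] at htop
    obtain ⟨⟨i, j⟩, hp, hk⟩ := htop
    rw [Finset.mem_filter] at hp
    have hall : ∀ z : E, dfun Θ Θ' i j (toR (z : Matrix (Fin n) (Fin n) ℚ)) = 0 := by
      intro z
      have : z ∈ LinearMap.ker (fn (i, j)) := by rw [hk]; trivial
      exact this
    obtain ⟨m, r, f, hexp⟩ := matrix_expansion (Θ * Matrix.diagonal c * Θ')
    have h0 : dfun Θ Θ' i j (Θ * Matrix.diagonal c * Θ') = 0 := by
      rw [hexp, map_sum]
      refine Finset.sum_eq_zero fun k _ => ?_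
      rw [map_smul, hall ⟨_, mapc_diag_mem h (fun i j hij => (hc i j).mpr hij) (f k)⟩, smul_zero]
    have hconj : Θ' * (Θ * Matrix.diagonal c * Θ') * Θ = Matrix.diagonal c := by
      calc Θ' * (Θ * Matrix.diagonal c * Θ') * Θ = (Θ' * Θ) * Matrix.diagonal c * (Θ' * Θ) := by
            simp only [Matrix.mul_assoc]
        _ = _ := by rw [h.inv1, Matrix.one_mul, Matrix.mul_one]
    have h1 : (Θ' * (Θ * Matrix.diagonal c * Θ') * Θ) i i
        - (Θ' * (Θ * Matrix.diagonal c * Θ') * Θ) j j = 0 := h0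
    rw [hconj, Matrix.diagonal_apply_eq, Matrix.diagonal_apply_eq, sub_eq_zero] at h1
    exact hp.2 ((hc i j).mp h1)
  have hne := Subspace.biUnion_ne_univ_of_top_notMem hs
  rw [Set.ne_univ_iff_exists_notMem] at hne
  obtain ⟨z, hz⟩ := hne
  refine ⟨z, z.2, fun i j hij heq => hz ?_⟩
  rw [Set.mem_iUnion₂]
  refine ⟨LinearMap.ker (fn (i, j)), ?_, ?_⟩
  · rw [Finset.mem_image]
    exact ⟨(i, j), by simp [hij], rfl⟩
  · change fn (i, j) z = 0
    change (Θ' * toR (z : Matrix (Fin n) (Fin n) ℚ) * Θ) i i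
      - (Θ' * toR (z : Matrix (Fin n) (Fin n) ℚ) * Θ) j j = 0
    rw [heq, sub_self]

end

end Pool.Agent.V11110.GL
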