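import Pool.Agent.V11110.GL3

/-!
A rational semisimple element separating the classes, and its real diagonalisation.
-/

set_option autoImplicit false

open Matrix Polynomial

namespace Pool.Agent.V11110.GL

variable {n : ℕ}

/-- Matrices in the algebra with zero blocks are nilpotent. -/
theorem pow_eq_zero_of_blocks {G : SimpleGraph (Fin n)} {K : Type*} [CommRing K]
    {D : Matrix (Fin n) (Fin n) K} (hD : InP G D) (h0 : ∀ i j, Q G i j → D i j = 0) :
    D ^ (n + 1) = 0 := by
  classical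
  let ht : Fin n → ℕ := fun i => (Finset.univ.filter (fun w => P G w i)).card
  have hlt : ∀ i j, D i j ≠ 0 → ht i < ht j := by
    intro i j hij
    have h1 : P G i j := by by_contra h; exact hij (hD i j h)
    have h2 : ¬ P G j i := fun h => hij (h0 i j ⟨h1, h⟩)
    apply Finset.card_lt_card
    rw [Finset.ssubset_iff_of_subset]
    · exact ⟨j, by simp [P_refl], by simpa using h2⟩
    · intro w hw
      rw [Finset.mem_filter] at hw ⊢
      exact ⟨hw.1, P_trans G hw.2 h1⟩
  have key : ∀ k i j, (D ^ k) i j ≠ 0 → ht i + k ≤ ht j := by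
    intro k
    induction k with
    | zero =>
      intro i j h
      rw [pow_zero] at h
      have : i = j := by by_contra hne; exact h (Matrix.one_apply_ne hne)
      subst this; simp
    | succ k ih =>
      intro i j h
      rw [pow_succ, Matrix.mul_apply] at h
      obtain ⟨l, _, hl⟩ := Finset.exists_ne_zero_of_sum_ne_zero h
      have h1 : (D ^ k) i l ≠ 0 := left_ne_zero_of_mul hl
      have h2 : D l j ≠ 0 := right_ne_zero_of_mul hl
      have := ih i l h1
      have := hlt l j h2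
      omega
  ext i j
  by_contra h
  have h1 := key (n + 1) i j h
  have h2 : ht j ≤ n := by
    have := Finset.card_le_univ (Finset.univ.filter (fun w => P G w j))
    simpa using this
  omega

/-- Conjugation as an algebra homomorphism. -/
noncomputable def tl (Θ Θ' : Matrix (Fin n) (Fin n) ℝ) (h1 : Θ' * Θ = 1) (h2 : Θ * Θ' = 1) :
    Matrix (Fin n) (Fin n) ℚ →ₐ[ℚ] Matrix (Fin n) (Fin n) ℝ :=
  AlgHom.ofLinearMap
    { toFun := fun X => Θ' * toR X * Θ
      map_add' := fun X Y => by rw [map_add, Matrix.mul_add, Matrix.add_mul]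
      map_smul' := fun c X => by
        rw [map_smul, Matrix.mul_smul, Matrix.smul_mul, RingHom.id_apply] }
    (by
      change Θ' * toR 1 * Θ = 1
      rw [map_one, Matrix.mul_one, h1])
    (by
      intro X Y
      change Θ' * toR (X * Y) * Θ = (Θ' * toR X * Θ) * (Θ' * toR Y * Θ)
      rw [map_mul]
      calc Θ' * (toR X * toR Y) * Θ = Θ' * (toR X * (1 * toR Y)) * Θ := by rw [Matrix.one_mul]
        _ = Θ' * (toR X * ((Θ * Θ') * toR Y)) * Θ := by rw [h2]
        _ = _ := by simp only [Matrix.mul_assoc])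

theorem tl_apply (Θ Θ' : Matrix (Fin n) (Fin n) ℝ) (h1 : Θ' * Θ = 1) (h2 : Θ * Θ' = 1)
    (X : Matrix (Fin n) (Fin n) ℚ) : tl Θ Θ' h1 h2 X = Θ' * toR X * Θ := rfl

/-- The semisimple part, as a polynomial. -/
theorem exists_ss (z : Matrix (Fin n) (Fin n) ℚ) :
    ∃ q : ℚ[X], IsNilpotent (z - aeval z q) ∧ Squarefree (minpoly ℚ (aeval z q)) := by
  let e := Matrix.toLinAlgEquiv' (R := ℚ) (n := Fin n)
  obtain ⟨ν, _, s, hs, hnil, hss, heq⟩ :=
    Module.End.exists_isNilpotent_isSemisimple (K := ℚ) (f := e z)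
  rw [Algebra.adjoin_singleton_eq_range_aeval] at hs
  obtain ⟨q, hq⟩ := hs
  have h1 : e (aeval z q) = s := by
    rw [← hq]
    exact (Polynomial.aeval_algHom_apply e.toAlgHom z q).symm
  refine ⟨q, ?_, ?_⟩
  · have h2 : e (z - aeval z q) = ν := by rw [map_sub, h1, heq]; abel
    obtain ⟨k, hk⟩ := hnil
    refine ⟨k, ?_⟩
    apply e.injective
    rw [map_pow, h2, hk, map_zero]
  · have h3 := hss.minpoly_squarefree
    rw [← h1, minpoly.algEquiv_eq] at h3
    exact h3

section

variable {G : SimpleGraph (Fin n)} {B : Submodule ℚ (Matrix (Fin n) (Fin n) ℚ)}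
  {Θ Θ' : Matrix (Fin n) (Fin n) ℝ}

/-- A real matrix in the algebra with scalar blocks, distinct for distinct classes, killed by
a squarefree polynomial, can be diagonalised within the algebra. -/
theorem diag_of_squarefree {S : Matrix (Fin n) (Fin n) ℝ} (hS : InP G S) {c : Fin n → ℝ}
    (hcb : ∀ i j, Q G i j → S i j = if i = j then c i else 0)
    (hc : ∀ i j, c i = c j ↔ Q G i j) {p : ℝ[X]} (hp : Squarefree p) (hpS : aeval S p = 0) :
    ∃ g g' : Matrix (Fin n) (Fin n) ℝ, InP G g ∧ InP G g' ∧ g' * g = 1 ∧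
      S * g = g * Matrix.diagonal c := by
  classical
  let s : Finset ℝ := Finset.univ.image c
  have hcs : ∀ i, c i ∈ s := fun i => Finset.mem_image_of_mem _ (Finset.mem_univ i)
  let μ : ℝ[X] := ∏ x ∈ s, (X - C x)
  have hμc : ∀ i, μ.eval (c i) = 0 := by
    intro i
    rw [Polynomial.eval_prod]
    exact Finset.prod_eq_zero (hcs i) (by simp)
  have hblock := fun (q : ℝ[X]) => InP.aeval_scalar_block hS c hcb (fun i j h => (hc i j).mpr h) q
  have hμnil : (aeval S μ) ^ (n + 1) = 0 := by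
    apply pow_eq_zero_of_blocks (hS.aeval μ)
    intro i j hij
    rw [hblock μ i j hij, hμc i]
    simp
  have hμ0 : aeval S μ = 0 := by
    have h1 : minpoly ℝ S ∣ p := minpoly.dvd ℝ S hpS
    have h2 : Squarefree (minpoly ℝ S) := hp.squarefree_of_dvd h1
    have h3 : minpoly ℝ S ∣ μ ^ (n + 1) := minpoly.dvd ℝ S (by rw [map_pow]; exact hμnil)
    rw [h2.dvd_pow_iff_dvd (Nat.succ_ne_zero n)] at h3
    obtain ⟨r, hr⟩ := h3
    rw [hr, map_mul, minpoly.aeval, zero_mul]
  -- Lagrange idempotents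
  let L : ℝ → ℝ[X] := fun x => C ((∏ y ∈ s.erase x, (x - y))⁻¹) * ∏ y ∈ s.erase x, (X - C y)
  have hL1 : ∀ x, (L x).eval x = 1 := by
    intro x
    simp only [L, Polynomial.eval_mul, Polynomial.eval_C, Polynomial.eval_prod,
      Polynomial.eval_sub, Polynomial.eval_X]
    apply inv_mul_cancel₀
    rw [Finset.prod_ne_zero_iff]
    intro y hy
    exact sub_ne_zero.mpr (Finset.ne_of_mem_erase hy).symm
  have hL0 : ∀ x, ∀ y ∈ s, y ≠ x → (L x).eval y = 0 := by
    intro x y hy hyx
    simp only [L, Polynomial.eval_mul, Polynomial.eval_C, Polynomial.eval_prod,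
      Polynomial.eval_sub, Polynomial.eval_X]
    rw [Finset.prod_eq_zero (Finset.mem_erase.mpr ⟨hyx, hy⟩) (sub_self y), mul_zero]
  have hSE : ∀ x ∈ s, S * aeval S (L x) = x • aeval S (L x) := by
    intro x hx
    have h1 : (X - C x) * L x = C ((∏ y ∈ s.erase x, (x - y))⁻¹) * μ := by
      simp only [L, μ]
      rw [← Finset.mul_prod_erase s (fun y => X - C y) hx]
      ring
    have h2 : aeval S (X - C x) * aeval S (L x)
        = aeval S (C ((∏ y ∈ s.erase x, (x - y))⁻¹)) * aeval S μ := by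
      rw [← map_mul, ← map_mul, h1]
    rw [hμ0, mul_zero, map_sub, aeval_X, aeval_C, sub_mul, sub_eq_zero] at h2
    rw [h2, Algebra.algebraMap_eq_smul_one, smul_mul_assoc, one_mul]
  have hqE : ∀ x ∈ s, ∀ q : ℝ[X], aeval S q * aeval S (L x) = q.eval x • aeval S (L x) := by
    intro x hx q
    induction q using Polynomial.induction_on' with
    | add p q hp hq => rw [map_add, add_mul, hp, hq, eval_add, add_smul]
    | monomial m a =>
      have hk : ∀ m : ℕ, S ^ m * aeval S (L x) = x ^ m • aeval S (L x) := by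
        intro m
        induction m with
        | zero => simp
        | succ m ih => rw [pow_succ', mul_assoc, ih, mul_smul_comm, hSE x hx, smul_smul, pow_succ]
      rw [aeval_monomial, Algebra.algebraMap_eq_smul_one, smul_mul_assoc, one_mul, smul_mul_assoc,
        hk, smul_smul, eval_monomial]
  let g : Matrix (Fin n) (Fin n) ℝ := Matrix.of fun i j => (aeval S (L (c j))) i j
  let g' : Matrix (Fin n) (Fin n) ℝ := Matrix.of fun i j => (aeval S (L (c i))) i j
  refine ⟨g, g', ?_, ?_, ?_, ?_⟩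
  · intro i j hij
    exact hS.aeval (L (c j)) i j hij
  · intro i j hij
    exact hS.aeval (L (c i)) i j hij
  · ext i j
    have h1 : (g' * g) i j = (aeval S (L (c i)) * aeval S (L (c j))) i j := by
      rw [Matrix.mul_apply, Matrix.mul_apply]
      rfl
    rw [h1, hqE (c j) (hcs j), Matrix.smul_apply, smul_eq_mul]
    by_cases hij : Q G i j
    · rw [hblock _ i j hij, ← (hc i j).mpr hij, hL1, one_mul, Matrix.one_apply]
    · have h2 : c j ≠ c i := fun h => hij ((hc i j).mp h.symm)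
      rw [hL0 (c i) (c j) (hcs j) h2, zero_mul, Matrix.one_apply_ne]
      rintro rfl
      exact h2 rfl
  · ext i j
    rw [Matrix.mul_diagonal]
    have h1 : (S * g) i j = (S * aeval S (L (c j))) i j := by
      rw [Matrix.mul_apply, Matrix.mul_apply]
      rfl
    rw [h1, hSE (c j) (hcs j), Matrix.smul_apply, smul_eq_mul, mul_comm]
    rfl

/-- The semisimple part separates the classes and is diagonalisable over the reals. -/
theorem exists_diag_rat (h : RealData G B Θ Θ') :
    ∃ (s : Matrix (Fin n) (Fin n) ℚ) (c : Fin n → ℝ) (g g' : Matrix (Fin n) (Fin n) ℝ),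
      InP G g ∧ InP G g' ∧ g' * g = 1 ∧ (∀ i j, c i = c j ↔ Q G i j) ∧
      (∀ i, IsIntegral ℚ (c i)) ∧ (Θ' * toR s * Θ) * g = g * Matrix.diagonal c := by
  classical
  obtain ⟨z, hz, hzs⟩ := exists_separating h
  obtain ⟨q, hnil, hsq⟩ := exists_ss z
  let φ := tl Θ Θ' h.inv1 h.inv2
  let c : Fin n → ℝ := fun i => (φ z) i i
  have hzb : ∀ i j, Q G i j → (φ z) i j = if i = j then c i else 0 := fun i j hij =>
    block_scalar h hz hij
  have hc : ∀ i j, c i = c j ↔ Q G i j := by
    intro i j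
    constructor
    · intro he
      by_contra hij
      exact hzs i j hij he
    · intro hij
      exact block_const h hz hij
  have hzP : InP G (φ z) := hz.1
  have haev : ∀ r : ℚ[X], φ (aeval z r) = aeval (φ z) (r.map (algebraMap ℚ ℝ)) := by
    intro r
    rw [Polynomial.aeval_map_algebraMap]
    exact (Polynomial.aeval_algHom_apply φ z r).symm
  have hblock := fun (r : ℝ[X]) =>
    InP.aeval_scalar_block hzP c hzb (fun i j hij => (hc i j).mpr hij) r
  -- the scalar on blocks is unchanged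
  have hqc : ∀ i, (q.map (algebraMap ℚ ℝ)).eval (c i) = c i := by
    intro i
    obtain ⟨k, hk⟩ := hnil
    have h1 : φ ((z - aeval z q) ^ k) = aeval (φ z) ((X - q.map (algebraMap ℚ ℝ)) ^ k) := by
      rw [map_pow, map_sub, haev, map_pow, map_sub, aeval_X]
    rw [hk, map_zero] at h1
    have h2 := hblock ((X - q.map (algebraMap ℚ ℝ)) ^ k) i i (Q_refl G i)
    rw [← h1, if_pos rfl, eval_pow, eval_sub, eval_X] at h2
    have h3 : (c i - (q.map (algebraMap ℚ ℝ)).eval (c i)) ^ k = 0 := h2.symm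
    exact (sub_eq_zero.mp (eq_zero_of_pow_eq_zero h3)).symm
  let s := aeval z q
  have hsP : InP G (φ s) := by
    rw [haev]
    exact hzP.aeval _
  have hsb : ∀ i j, Q G i j → (φ s) i j = if i = j then c i else 0 := by
    intro i j hij
    rw [haev, hblock _ i j hij, hqc]
  have hsep : Squarefree ((minpoly ℚ s).map (algebraMap ℚ ℝ)) :=
    ((PerfectField.separable_iff_squarefree.mpr hsq).map).squarefree
  have hps : aeval (φ s) ((minpoly ℚ s).map (algebraMap ℚ ℝ)) = 0 := by
    rw [Polynomial.aeval_map_algebraMap, Polynomial.aeval_algHom_apply, minpoly.aeval, map_zero]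
  obtain ⟨g, g', hg, hg', hgg, hdiag⟩ := diag_of_squarefree hsP hsb hc hsep hps
  refine ⟨s, c, g, g', hg, hg', hgg, hc, ?_, hdiag⟩
  intro i
  refine ⟨minpoly ℚ s, minpoly.monic (Matrix.isIntegral s), ?_⟩
  have h1 := InP.aeval_scalar_block hsP c hsb (fun i j hij => (hc i j).mpr hij)
    ((minpoly ℚ s).map (algebraMap ℚ ℝ)) i i (Q_refl G i)
  rw [hps, if_pos rfl, Polynomial.eval_map] at h1
  exact h1.symm

theorem inP_of_comm_diag {c : Fin n → ℝ} (hc : ∀ i j, c i = c j ↔ Q G i j)
    {T : Matrix (Fin n) (Fin n) ℝ} (hT : T * Matrix.diagonal c = Matrix.diagonal c * T) :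
    ∀ i j, ¬ Q G i j → T i j = 0 := by
  intro i j hij
  have h1 := congrFun (congrFun hT i) j
  rw [Matrix.mul_diagonal, Matrix.diagonal_mul] at h1
  have h2 : (c i - c j) * T i j = 0 := by linear_combination -h1
  rcases mul_eq_zero.mp h2 with h3 | h3
  · exact absurd ((hc i j).mp (sub_eq_zero.mp h3)) hij
  · exact h3

theorem exists_common_multiple {ι : Type*} [Fintype ι] (c : ι → ℝ)
    (hc : ∀ i, IsIntegral ℚ (c i)) : ∃ a : ℤ, a ≠ 0 ∧ ∀ i, IsIntegral ℤ ((a : ℝ) * c i) := by
  classical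
  have h1 : ∀ i, ∃ y : ℤ, y ≠ 0 ∧ IsIntegral ℤ (y • c i) := by
    intro i
    have h2 : IsAlgebraic ℤ (c i) :=
      (IsFractionRing.isAlgebraic_iff ℤ ℚ ℝ).mpr (hc i).isAlgebraic
    exact h2.exists_integral_multiple
  choose y hy0 hy using h1
  refine ⟨∏ i, y i, Finset.prod_ne_zero_iff.mpr fun i _ => hy0 i, fun i => ?_⟩
  rw [← Finset.mul_prod_erase Finset.univ y (Finset.mem_univ i)]
  have h3 : (((y i * ∏ j ∈ Finset.univ.erase i, y j : ℤ)) : ℝ) * c i
      = (((∏ j ∈ Finset.univ.erase i, y j : ℤ)) : ℝ) * (y i • c i) := by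
    rw [zsmul_eq_mul]; push_cast; ring
  rw [h3]
  exact IsIntegral.mul (isIntegral_algebraMap (R := ℤ) (x := ∏ j ∈ Finset.univ.erase i, y j)) (hy i)

/-- Rational element `t` with good real diagonalisation. -/
theorem exists_diag (h : RealData G B Θ Θ') :
    ∃ (t : Matrix (Fin n) (Fin n) ℚ) (Gm Gm' : Matrix (Fin n) (Fin n) ℝ) (τ : Fin n → ℝ)
      (M : ℝ), Gm' * Gm = 1 ∧ Gm * Gm' = 1 ∧ toR t * Gm = Gm * Matrix.diagonal τ ∧
      (∀ i j, τ i = τ j ↔ Q G i j) ∧ (∀ i j, ¬ Q G i j → 1 ≤ |τ i - τ j|) ∧ 10 ≤ M ∧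
      (∀ i, M ≤ τ i ∧ τ i ≤ 2 * M) ∧ (∀ i, IsIntegral ℤ (τ i)) ∧
      (∀ T : Matrix (Fin n) (Fin n) ℚ, T * t = t * T → ∀ A ∈ B, Tᵀ * A * T ∈ B) ∧
      (∀ A ∈ B, Form G (Gmᵀ * toR A * Gm)) := by
  classical
  obtain ⟨s, c, g, g', hg, hg', hgg, hc, hint, hdiag⟩ := exists_diag_rat h
  have hgg' : g * g' = 1 := mul_eq_one_comm.mp hgg
  obtain ⟨a0, ha0, ha0i⟩ := exists_common_multiple c hint
  -- separation
  obtain ⟨N, hN1, hN⟩ : ∃ N : ℕ, 1 ≤ N ∧ ∀ i j, ¬ Q G i j → 1 ≤ (N : ℝ) * |c i - c j| := by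
    have h1 : ∀ p : Fin n × Fin n, ∃ N : ℕ, ¬ Q G p.1 p.2 → 1 ≤ (N : ℝ) * |c p.1 - c p.2| := by
      intro p
      by_cases hp : Q G p.1 p.2
      · exact ⟨0, fun h => absurd hp h⟩
      · have hpos : 0 < |c p.1 - c p.2| := by
          rw [abs_pos, sub_ne_zero]
          exact fun h => hp ((hc _ _).mp h)
        obtain ⟨N, hN⟩ := exists_nat_gt (1 / |c p.1 - c p.2|)
        refine ⟨N, fun _ => ?_⟩
        have := (div_lt_iff₀ hpos).mp hN
        linarith
    choose N hN using h1
    refine ⟨1 + ∑ p, N p, by omega, fun i j hij => ?_⟩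
    have h2 : (N (i, j) : ℝ) ≤ ((1 + ∑ p, N p : ℕ) : ℝ) := by
      have : N (i, j) ≤ ∑ p, N p :=
        Finset.single_le_sum (f := N) (fun p _ => Nat.zero_le _) (Finset.mem_univ (i, j))
      exact_mod_cast this.trans (Nat.le_add_left _ _)
    exact (hN (i, j) hij).trans (mul_le_mul_of_nonneg_right h2 (abs_nonneg _))
  let a : ℤ := a0 * N
  have ha : a ≠ 0 := mul_ne_zero ha0 (by exact_mod_cast (by omega : N ≠ 0))
  obtain ⟨b, hb⟩ := exists_nat_gt (10 + 3 * ∑ i, |(a : ℝ) * c i|)
  let t : Matrix (Fin n) (Fin n) ℚ := (a : ℚ) • s + (b : ℚ) • 1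
  let τ : Fin n → ℝ := fun i => (a : ℝ) * c i + b
  have hab : ∀ i, |(a : ℝ) * c i| ≤ ∑ i, |(a : ℝ) * c i| := fun i =>
    Finset.single_le_sum (f := fun i => |(a : ℝ) * c i|) (fun _ _ => abs_nonneg _)
      (Finset.mem_univ i)
  have haR : (a : ℝ) ≠ 0 := by exact_mod_cast ha
  refine ⟨t, Θ * g, g' * Θ', τ, (b : ℝ) - ∑ i, |(a : ℝ) * c i|, ?_, ?_, ?_, ?_, ?_, ?_, ?_, ?_,
    ?_, ?_⟩
  · calc g' * Θ' * (Θ * g) = g' * (Θ' * Θ) * g := by simp only [Matrix.mul_assoc]
      _ = 1 := by rw [h.inv1, Matrix.mul_one, hgg]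
  · calc Θ * g * (g' * Θ') = Θ * (g * g') * Θ' := by simp only [Matrix.mul_assoc]
      _ = 1 := by rw [hgg', Matrix.mul_one, h.inv2]
  · have h1 : toR s * (Θ * g) = Θ * g * Matrix.diagonal c := by
      calc toR s * (Θ * g) = (Θ * Θ') * toR s * (Θ * g) := by rw [h.inv2, Matrix.one_mul]
        _ = Θ * ((Θ' * toR s * Θ) * g) := by simp only [Matrix.mul_assoc]
        _ = _ := by rw [hdiag, Matrix.mul_assoc]
    have h2 : toR t = (a : ℝ) • toR s + (b : ℝ) • 1 := by
      ext i j
      simp only [toR_apply, t, Matrix.add_apply, Matrix.smul_apply, smul_eq_mul, Matrix.one_apply]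
      split_ifs <;> push_cast <;> rfl
    have h3 : Matrix.diagonal τ = (a : ℝ) • Matrix.diagonal c + (b : ℝ) • 1 := by
      ext i j
      by_cases hij : i = j
      · subst hij; simp [τ]
      · simp [hij]
    rw [h2, h3, Matrix.add_mul, Matrix.mul_add, Matrix.smul_mul, Matrix.smul_mul, h1,
      Matrix.one_mul, Matrix.mul_smul, Matrix.mul_smul, Matrix.mul_one]
  · intro i j
    rw [← hc i j]
    simp only [τ]
    constructor
    · intro he
      exact mul_left_cancel₀ haR (add_right_cancel he)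
    · intro he; rw [he]
  · intro i j hij
    have h1 : τ i - τ j = (a0 : ℝ) * ((N : ℝ) * (c i - c j)) := by
      simp only [τ, a]; push_cast; ring
    rw [h1, abs_mul, abs_mul, Nat.abs_cast]
    have h2 : (1:ℝ) ≤ |(a0 : ℝ)| := by
      have : (1:ℤ) ≤ |a0| := Int.one_le_abs ha0
      exact_mod_cast this
    have h3 := hN i j hij
    nlinarith
  · have : 0 ≤ ∑ i, |(a : ℝ) * c i| := Finset.sum_nonneg fun _ _ => abs_nonneg _
    linarith
  · intro i
    have h1 := abs_le.mp (hab i)
    have : 0 ≤ ∑ i, |(a : ℝ) * c i| := Finset.sum_nonneg fun _ _ => abs_nonneg _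
    simp only [τ]
    constructor <;> linarith [h1.1, h1.2]
  · intro i
    have h1 : τ i = (N : ℝ) * ((a0 : ℝ) * c i) + b := by simp only [τ, a]; push_cast; ring
    rw [h1]
    have hNi : IsIntegral ℤ ((N : ℕ) : ℝ) := by
      have := isIntegral_algebraMap (R := ℤ) (A := ℝ) (x := (N : ℤ))
      simpa using this
    have hbi : IsIntegral ℤ ((b : ℕ) : ℝ) := by
      have := isIntegral_algebraMap (R := ℤ) (A := ℝ) (x := (b : ℤ))
      simpa using this
    exact (hNi.mul (ha0i i)).add hbi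
  · intro T hT A hA
    apply h.congr_mem _ hA
    have hTs : T * s = s * T := by
      have h1 : (a : ℚ) • (T * s) = (a : ℚ) • (s * T) := by
        simp only [t, Matrix.mul_add, Matrix.add_mul, Matrix.mul_smul, Matrix.smul_mul,
          Matrix.mul_one, Matrix.one_mul] at hT
        exact add_right_cancel hT
      have haQ : (a : ℚ) ≠ 0 := by exact_mod_cast ha
      exact smul_right_injective _ haQ h1
    let φ := tl Θ Θ' h.inv1 h.inv2
    have hcomm : φ T * φ s = φ s * φ T := by rw [← map_mul, hTs, map_mul]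
    have hd1 : φ s * g = g * Matrix.diagonal c := hdiag
    have hd2 : g' * φ s = Matrix.diagonal c * g' := by
      calc g' * φ s = g' * (φ s * g) * g' := by
            rw [Matrix.mul_assoc g' (φ s * g), Matrix.mul_assoc (φ s) g, hgg', Matrix.mul_one]
        _ = (g' * g) * Matrix.diagonal c * g' := by rw [hd1]; simp only [Matrix.mul_assoc]
        _ = _ := by rw [hgg, Matrix.one_mul]
    have h1 : (g' * φ T * g) * Matrix.diagonal c = Matrix.diagonal c * (g' * φ T * g) := by
      calc (g' * φ T * g) * Matrix.diagonal c = g' * φ T * (g * Matrix.diagonal c) := by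
            simp only [Matrix.mul_assoc]
        _ = g' * (φ T * φ s) * g := by rw [← hd1]; simp only [Matrix.mul_assoc]
        _ = (g' * φ s) * (φ T * g) := by rw [hcomm]; simp only [Matrix.mul_assoc]
        _ = _ := by rw [hd2]; simp only [Matrix.mul_assoc]
    have h2 : InP G (g' * φ T * g) := by
      intro i j hij
      exact inP_of_comm_diag hc h1 i j (fun hq => hij hq.1)
    have h3 : g * (g' * φ T * g) * g' = φ T := by
      calc g * (g' * φ T * g) * g' = (g * g') * φ T * (g * g') := by simp only [Matrix.mul_assoc]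
        _ = _ := by rw [hgg', Matrix.one_mul, Matrix.mul_one]
    change InP G (φ T)
    rw [← h3]
    exact (hg.mul h2).mul hg'
  · intro A hA
    have h1 : (Θ * g)ᵀ * toR A * (Θ * g) = gᵀ * (Θᵀ * toR A * Θ) * g := by
      rw [Matrix.transpose_mul]
      simp only [Matrix.mul_assoc]
    rw [h1]
    exact (h.r1 A hA).congr hg

end

end Pool.Agent.V11110.GL
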