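import Pool.Agent.V11110.GL4

/-!
Construction of a rational matrix commuting with a given one and satisfying trinomial relations.
-/

set_option autoImplicit false

open Matrix Polynomial

namespace Pool.Agent.V11110.GL

/-- One isotypic component. -/
theorem exists_T_component {U : Type*} [AddCommGroup U] [Module ℚ U] [FiniteDimensional ℚ U]
    (t : Module.End ℚ U) (q : ℚ[X]) (hq : Irreducible q) (h0 : aeval t q = 0) :
    ∃ (m : ℕ) (T : Module.End ℚ U) (u : Fin m → U), T * t = t * T ∧
      T ^ m - t * T ^ (m - 1) + 1 = 0 ∧ ∀ x, ∃ p : Fin m → ℚ[X], x = ∑ b, aeval t (p b) (u b) := by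
  classical
  have : Fact (Irreducible q) := ⟨hq⟩
  let ρ : AdjoinRoot q →ₐ[ℚ] Module.End ℚ U :=
    Ideal.Quotient.liftₐ (Ideal.span {q}) (aeval t) (by
      intro a ha
      obtain ⟨b, rfl⟩ := Ideal.mem_span_singleton'.mp ha
      rw [map_mul, h0, mul_zero])
  have hρ : ∀ p : ℚ[X], ρ (AdjoinRoot.mk q p) = aeval t p := fun p => rfl
  letI : Module (AdjoinRoot q) U := Module.compHom U ρ.toRingHom
  have hsmul : ∀ (k : AdjoinRoot q) (x : U), k • x = ρ k x := fun _ _ => rfl
  have : IsScalarTower ℚ (AdjoinRoot q) U := by
    refine ⟨fun a k x => ?_⟩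
    rw [hsmul, hsmul, map_smul, LinearMap.smul_apply]
  have : Module.Finite (AdjoinRoot q) U := Module.Finite.of_restrictScalars_finite ℚ _ U
  have ht : ∀ x, t x = (AdjoinRoot.root q) • x := by
    intro x
    rw [hsmul]
    have : AdjoinRoot.root q = AdjoinRoot.mk q X := rfl
    rw [this, hρ, aeval_X]
  set m := Module.finrank (AdjoinRoot q) U with hm
  have hspan : ∀ x : U, ∃ p : Fin m → ℚ[X],
      x = ∑ b, aeval t (p b) (Module.finBasis (AdjoinRoot q) U b) := by
    intro x
    have h1 := (Module.finBasis (AdjoinRoot q) U).sum_repr x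
    choose p hp using fun b => AdjoinRoot.mk_surjective
      ((Module.finBasis (AdjoinRoot q) U).repr x b)
    refine ⟨p, ?_⟩
    conv_lhs => rw [← h1]
    refine Finset.sum_congr rfl fun b _ => ?_
    rw [← hp b, hsmul, hρ]
  rcases Nat.eq_zero_or_pos m with hm0 | hmpos
  · have hsub : Subsingleton U := by
      rw [hm] at hm0
      exact Module.finrank_zero_iff.mp hm0
    refine ⟨m, 0, _, ?_, ?_, hspan⟩
    · ext x; exact Subsingleton.elim _ _
    · ext x; exact Subsingleton.elim _ _
  · let f : (AdjoinRoot q)[X] := X ^ m + (- (C (AdjoinRoot.root q) * X ^ (m - 1)) + 1)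
    have hdeg : (- (C (AdjoinRoot.root q) * X ^ (m - 1)) + 1 : (AdjoinRoot q)[X]).degree < m := by
      refine lt_of_le_of_lt (Polynomial.degree_add_le _ _) (max_lt ?_ ?_)
      · rw [Polynomial.degree_neg]
        refine lt_of_le_of_lt (Polynomial.degree_C_mul_X_pow_le _ _) ?_
        exact_mod_cast Nat.sub_lt hmpos Nat.one_pos
      · refine lt_of_le_of_lt Polynomial.degree_one_le ?_
        exact_mod_cast hmpos
    have hmonic : f.Monic := Polynomial.monic_X_pow_add hdeg
    have hnat : f.natDegree = m := by
      have h1 : f.degree = m := by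
        rw [Polynomial.degree_add_eq_left_of_degree_lt]
        · exact Polynomial.degree_X_pow m
        · rw [Polynomial.degree_X_pow]; exact hdeg
      exact Polynomial.natDegree_eq_of_degree_eq_some h1
    have : Module.Finite (AdjoinRoot q) (AdjoinRoot f) := hmonic.finite_adjoinRoot
    have hfin : Module.finrank (AdjoinRoot q) U = Module.finrank (AdjoinRoot q) (AdjoinRoot f) := by
      rw [(AdjoinRoot.powerBasis' hmonic).finrank, AdjoinRoot.powerBasis'_dim, hnat]
    let e : U ≃ₗ[AdjoinRoot q] AdjoinRoot f := LinearEquiv.ofFinrankEq U (AdjoinRoot f) hfin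
    let T : Module.End ℚ U :=
      { toFun := fun x => e.symm (AdjoinRoot.root f * e x)
        map_add' := fun x y => by rw [map_add, mul_add, map_add]
        map_smul' := fun a x => by
          rw [RingHom.id_apply]
          have h1 : a • x = (algebraMap ℚ (AdjoinRoot q) a) • x := (algebraMap_smul _ a x).symm
          have h2 : ∀ y : U, a • y = (algebraMap ℚ (AdjoinRoot q) a) • y :=
            fun y => (algebraMap_smul _ a y).symm
          rw [h1, h2, map_smul, mul_smul_comm, map_smul] }
    have hT : ∀ x, T x = e.symm (AdjoinRoot.root f * e x) := fun _ => rfl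
    have hTp : ∀ k x, (T ^ k) x = e.symm ((AdjoinRoot.root f) ^ k * e x) := by
      intro k
      induction k with
      | zero => intro x; simp
      | succ k ih =>
        intro x
        rw [pow_succ', Module.End.mul_apply, ih, hT, LinearEquiv.apply_symm_apply, pow_succ']
        ring_nf
    refine ⟨m, T, _, ?_, ?_, hspan⟩
    · ext x
      rw [Module.End.mul_apply, Module.End.mul_apply, ht, ht, hT, hT, map_smul, mul_smul_comm,
        map_smul]
    · ext x
      rw [LinearMap.add_apply, LinearMap.sub_apply, Module.End.mul_apply, Module.End.one_apply,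
        LinearMap.zero_apply, ht, hTp, hTp]
      have hroot : (AdjoinRoot.root f) ^ m
          - (AdjoinRoot.root q) • (AdjoinRoot.root f) ^ (m - 1) + 1 = 0 := by
        have h1 : aeval (AdjoinRoot.root f) f = 0 := by
          rw [AdjoinRoot.aeval_eq, AdjoinRoot.mk_self]
        simp only [f, map_add, map_neg, map_mul, map_pow, aeval_X, aeval_C, map_one] at h1
        rw [Algebra.smul_def]
        rw [← h1]
        ring
      have h2 : x = e.symm (1 * e x) := by simp
      conv_lhs => rw [h2]
      rw [LinearEquiv.apply_symm_apply, one_mul, ← map_smul, ← map_sub, ← map_add]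
      have h3 : AdjoinRoot.root f ^ m * e x
          - AdjoinRoot.root q • (AdjoinRoot.root f ^ (m - 1) * e x) + e x
          = ((AdjoinRoot.root f) ^ m
          - (AdjoinRoot.root q) • (AdjoinRoot.root f) ^ (m - 1) + 1) * e x := by
        rw [add_mul, sub_mul, one_mul, smul_mul_assoc]
      rw [h3, hroot, zero_mul, map_zero]

/-- Patching the components. -/
theorem exists_T_patch {ι : Type*} [Fintype ι] [DecidableEq ι] {V : Type*} [AddCommGroup V]
    [Module ℚ V] [FiniteDimensional ℚ V] (t : Module.End ℚ V) (q : ι → ℚ[X])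
    (hirr : ∀ i, Irreducible (q i)) (hcop : ∀ i j, i ≠ j → IsCoprime (q i) (q j))
    (h0 : aeval t (∏ i, q i) = 0) :
    ∃ T : Module.End ℚ V, T * t = t * T ∧ ∀ i, ∃ (m : ℕ) (e : ℚ[X]) (u : Fin m → V),
      q i ∣ e - 1 ∧ (T ^ m - t * T ^ (m - 1) + 1) * aeval t e = 0 ∧
      ∀ x, ∃ p : Fin m → ℚ[X], aeval t e x = ∑ b, aeval t (p b) (u b) := by
  classical
  -- the idempotent polynomials
  have he : ∀ i, ∃ e : ℚ[X], q i ∣ e - 1 ∧ aeval t (q i * e) = 0 ∧ ∀ j, j ≠ i → q j ∣ e := by
    intro i
    have h1 : IsCoprime (q i) (∏ j ∈ Finset.univ.erase i, q j) := by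
      apply IsCoprime.prod_right
      intro j hj
      exact hcop i j (Finset.ne_of_mem_erase hj).symm
    obtain ⟨a, b, hab⟩ := h1
    refine ⟨b * ∏ j ∈ Finset.univ.erase i, q j, ⟨-a, by linear_combination hab⟩, ?_, ?_⟩
    · have h2 : q i * (b * ∏ j ∈ Finset.univ.erase i, q j) = b * ∏ j, q j := by
        rw [← Finset.mul_prod_erase Finset.univ q (Finset.mem_univ i)]; ring
      rw [h2, map_mul, h0, mul_zero]
    · intro j hj
      exact Dvd.dvd.mul_left (Finset.dvd_prod_of_mem q (Finset.mem_erase.mpr
        ⟨hj, Finset.mem_univ j⟩)) b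
  choose e he1 he2 he3 using he
  let U : ι → Submodule ℚ V := fun i => LinearMap.ker (aeval t (q i))
  have hUt : ∀ i, ∀ x ∈ U i, t x ∈ U i := by
    intro i x hx
    change aeval t (q i) (t x) = 0
    have h1 : aeval t (q i) * t = t * aeval t (q i) := by
      have h2 : aeval t (q i * X) = aeval t (X * q i) := by rw [mul_comm]
      rwa [map_mul, map_mul, aeval_X] at h2
    have h3 := LinearMap.congr_fun h1 x
    rw [Module.End.mul_apply, Module.End.mul_apply] at h3
    have h4 : aeval t (q i) x = 0 := hx
    rw [h3, h4, map_zero]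
  let tr : ∀ i, Module.End ℚ (U i) := fun i => t.restrict (hUt i)
  have htr : ∀ i (x : U i), ((tr i x : U i) : V) = t x := fun i x => rfl
  have htrp : ∀ i (p : ℚ[X]) (x : U i), ((aeval (tr i) p x : U i) : V) = aeval t p x := by
    intro i p x
    induction p using Polynomial.induction_on' with
    | add p q hp hq =>
      rw [map_add, map_add, LinearMap.add_apply, LinearMap.add_apply, Submodule.coe_add, hp, hq]
    | monomial k a =>
      have hk : ∀ k : ℕ, ∀ x : U i, (((tr i ^ k) x : U i) : V) = (t ^ k) x := by
        intro k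
        induction k with
        | zero => intro x; rfl
        | succ k ih =>
          intro x
          rw [pow_succ, pow_succ, Module.End.mul_apply, Module.End.mul_apply, ih, htr]
      rw [aeval_monomial, aeval_monomial, Module.End.mul_apply, Module.End.mul_apply,
        Module.algebraMap_end_apply, Module.algebraMap_end_apply, Submodule.coe_smul, hk]
  have htr0 : ∀ i, aeval (tr i) (q i) = 0 := by
    intro i
    ext x
    rw [htrp]
    exact x.2
  choose m Tc u hTc1 hTc2 hTc3 using fun i => exists_T_component (tr i) (q i) (hirr i) (htr0 i)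
  have hemem : ∀ i x, aeval t (e i) x ∈ U i := by
    intro i x
    change aeval t (q i) (aeval t (e i) x) = 0
    rw [← Module.End.mul_apply, ← map_mul, he2]
    rfl
  let π : ∀ i, V →ₗ[ℚ] U i := fun i => (aeval t (e i)).codRestrict (U i) (hemem i)
  have hπ : ∀ i x, ((π i x : U i) : V) = aeval t (e i) x := fun i x => rfl
  let T : Module.End ℚ V := ∑ i, (U i).subtype ∘ₗ Tc i ∘ₗ π i
  have hTapp : ∀ x, T x = ∑ i, ((Tc i (π i x) : U i) : V) := by
    intro x
    simp only [T, LinearMap.sum_apply, LinearMap.comp_apply, Submodule.subtype_apply]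
  have hπi : ∀ i (x : U i), π i x = x := by
    intro i x
    apply Subtype.ext
    rw [hπ]
    obtain ⟨r, hr⟩ := he1 i
    have h1 : e i = r * q i + 1 := by linear_combination hr
    have h2 : aeval t (q i) (x : V) = 0 := x.2
    rw [h1, map_add, map_mul, LinearMap.add_apply, Module.End.mul_apply, h2, map_zero, zero_add,
      map_one, Module.End.one_apply]
  have hπj : ∀ i j, j ≠ i → ∀ (x : U i), π j x = 0 := by
    intro i j hj x
    apply Subtype.ext
    rw [hπ]
    obtain ⟨r, hr⟩ := he3 j i hj.symm
    have h2 : aeval t (q i) (x : V) = 0 := x.2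
    rw [hr, mul_comm, map_mul, Module.End.mul_apply, h2, map_zero]
    rfl
  have hTU : ∀ i (x : U i), T x = ((Tc i x : U i) : V) := by
    intro i x
    rw [hTapp, Finset.sum_eq_single i]
    · rw [hπi]
    · intro j _ hj
      rw [hπj i j hj, map_zero]
      rfl
    · simp
  have hTUk : ∀ k i (x : U i), (T ^ k) x = (((Tc i ^ k) x : U i) : V) := by
    intro k
    induction k with
    | zero => intro i x; rfl
    | succ k ih =>
      intro i x
      rw [pow_succ, Module.End.mul_apply, hTU, ih, pow_succ, Module.End.mul_apply]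
  refine ⟨T, ?_, ?_⟩
  · ext x
    rw [Module.End.mul_apply, Module.End.mul_apply, hTapp, hTapp, map_sum]
    refine Finset.sum_congr rfl fun i _ => ?_
    have h1 : π i (t x) = tr i (π i x) := by
      apply Subtype.ext
      rw [hπ, htr, hπ]
      have h2 : aeval t (e i) * t = t * aeval t (e i) := by
        have h3 : aeval t (e i * X) = aeval t (X * e i) := by rw [mul_comm]
        rwa [map_mul, map_mul, aeval_X] at h3
      exact LinearMap.congr_fun h2 x
    rw [h1, ← htr, ← Module.End.mul_apply, hTc1, Module.End.mul_apply]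
  · intro i
    refine ⟨m i, e i, fun b => ((u i b : U i) : V), he1 i, ?_, ?_⟩
    · ext x
      rw [Module.End.mul_apply, LinearMap.zero_apply, ← hπ i x, LinearMap.add_apply,
        LinearMap.sub_apply, Module.End.mul_apply, Module.End.one_apply, hTUk, hTUk, ← htr,
        ← Submodule.coe_sub, ← Submodule.coe_add]
      have h1 := LinearMap.congr_fun (hTc2 i) (π i x)
      rw [LinearMap.add_apply, LinearMap.sub_apply, Module.End.mul_apply, Module.End.one_apply,
        LinearMap.zero_apply] at h1
      rw [h1]
      rfl
    · intro x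
      obtain ⟨p, hp⟩ := hTc3 i (π i x)
      refine ⟨p, ?_⟩
      rw [← hπ i x]
      conv_lhs => rw [hp]
      rw [Submodule.coe_sum]
      refine Finset.sum_congr rfl fun b _ => ?_
      rw [htrp]

section real

variable {n : ℕ} {t : Matrix (Fin n) (Fin n) ℚ} {Gm Gm' : Matrix (Fin n) (Fin n) ℝ}
  {τ : Fin n → ℝ}

theorem toR_aeval_mul (hd : toR t * Gm = Gm * Matrix.diagonal τ) (p : ℚ[X]) :
    toR (aeval t p) * Gm = Gm * Matrix.diagonal (fun i => aeval (τ i) p) := by
  induction p using Polynomial.induction_on' with
  | add p q hp hq =>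
    have h1 : Matrix.diagonal (fun i => aeval (τ i) (p + q))
        = Matrix.diagonal (fun i => aeval (τ i) p) + Matrix.diagonal (fun i => aeval (τ i) q) := by
      rw [Matrix.diagonal_add]
      congr 1
      funext i
      rw [map_add]
    rw [map_add, map_add, Matrix.add_mul, hp, hq, h1, Matrix.mul_add]
  | monomial k a =>
    have hk : ∀ k : ℕ, toR (t ^ k) * Gm = Gm * Matrix.diagonal (fun i => τ i ^ k) := by
      intro k
      induction k with
      | zero => simp
      | succ k ih =>
        rw [pow_succ, map_mul, Matrix.mul_assoc, hd, ← Matrix.mul_assoc, ih, Matrix.mul_assoc,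
          Matrix.diagonal_mul_diagonal]
        congr 2
    have h1 : aeval t (monomial k a) = a • t ^ k := by
      rw [aeval_monomial, Algebra.algebraMap_eq_smul_one, smul_mul_assoc, one_mul]
    have h2 : (fun i => aeval (τ i) (monomial k a)) = fun i => a • (τ i ^ k) := by
      funext i
      rw [aeval_monomial, Algebra.algebraMap_eq_smul_one, smul_mul_assoc, one_mul]
    have h3 : Matrix.diagonal (fun i => a • (τ i ^ k)) = a • Matrix.diagonal (fun i => τ i ^ k) := by
      rw [← Matrix.diagonal_smul]
      rfl
    rw [h1, h2, h3, map_smul, Matrix.smul_mul, hk, Matrix.mul_smul]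

/-- A rational matrix commuting with `t` satisfying trinomial relations. -/
theorem exists_T (h1 : Gm' * Gm = 1) (h2 : Gm * Gm' = 1)
    (hd : toR t * Gm = Gm * Matrix.diagonal τ) (hint : ∀ i, IsIntegral ℤ (τ i)) :
    ∃ (T : Matrix (Fin n) (Fin n) ℚ) (m : Fin n → ℕ), T * t = t * T ∧
      (∀ i j, τ i = τ j → m i = m j) ∧
      (∀ i, Fintype.card {j // τ j = τ i} ≤ m i) ∧
      ∀ i r, ((toR T) ^ (m i) * Gm) r i - τ i * ((toR T) ^ (m i - 1) * Gm) r i + Gm r i = 0 := by
  classical
  have hintQ : ∀ i, IsIntegral ℚ (τ i) := fun i => (hint i).tower_top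
  let e := Matrix.toLinAlgEquiv' (R := ℚ) (n := Fin n)
  have heav : ∀ (X : Matrix (Fin n) (Fin n) ℚ) (p : ℚ[X]), aeval (e X) p = e (aeval X p) :=
    fun X p => Polynomial.aeval_algHom_apply e.toAlgHom X p
  let P : Finset ℚ[X] := Finset.univ.image (fun i => minpoly ℚ (τ i))
  let q : {p // p ∈ P} → ℚ[X] := fun p => p.1
  let idx : Fin n → {p // p ∈ P} := fun i =>
    ⟨minpoly ℚ (τ i), Finset.mem_image_of_mem _ (Finset.mem_univ i)⟩
  have hirr : ∀ i, Irreducible (q i) := by
    rintro ⟨p, hp⟩
    obtain ⟨i, _, rfl⟩ := Finset.mem_image.mp hp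
    exact minpoly.irreducible (hintQ i)
  have hmon : ∀ i, (q i).Monic := by
    rintro ⟨p, hp⟩
    obtain ⟨i, _, rfl⟩ := Finset.mem_image.mp hp
    exact minpoly.monic (hintQ i)
  have hcop : ∀ i j, i ≠ j → IsCoprime (q i) (q j) := by
    intro i j hij
    rw [(hirr i).coprime_iff_not_dvd]
    intro hdvd
    have h3 := (hirr i).associated_of_dvd (hirr j) hdvd
    exact hij (Subtype.ext (Polynomial.eq_of_monic_of_associated (hmon i) (hmon j) h3))
  have h0 : aeval t (∏ i, q i) = 0 := by
    apply toR_injective
    have h3 := toR_aeval_mul hd (∏ i, q i)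
    have h4 : (fun i => aeval (τ i) (∏ i, q i)) = fun _ => (0:ℝ) := by
      funext i
      rw [map_prod]
      exact Finset.prod_eq_zero (Finset.mem_univ (idx i)) (minpoly.aeval ℚ (τ i))
    rw [h4] at h3
    have h5 : Matrix.diagonal (fun _ : Fin n => (0:ℝ)) = 0 := Matrix.diagonal_zero
    rw [h5, Matrix.mul_zero] at h3
    calc toR (aeval t (∏ i, q i)) = toR (aeval t (∏ i, q i)) * Gm * Gm' := by
          rw [Matrix.mul_assoc, h2, Matrix.mul_one]
      _ = toR 0 := by rw [h3, Matrix.zero_mul, map_zero]
  obtain ⟨T', hT'1, hT'2⟩ := exists_T_patch (e t) q hirr hcop (by rw [heav, h0, map_zero])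
  choose m ee u hee hrel hspan using hT'2
  let T := e.symm T'
  have hTT : e T = T' := e.apply_symm_apply T'
  have heval : ∀ i, aeval (τ i) (ee (idx i)) = 1 := by
    intro i
    obtain ⟨r, hr⟩ := hee (idx i)
    have h3 : ee (idx i) = q (idx i) * r + 1 := by linear_combination hr
    have h4 : aeval (τ i) (q (idx i)) = 0 := minpoly.aeval ℚ (τ i)
    rw [h3, map_add, map_mul, h4, zero_mul, zero_add, map_one]
  refine ⟨T, fun i => m (idx i), ?_, ?_, ?_, ?_⟩
  · apply e.injective
    rw [map_mul, map_mul, hTT, hT'1]
  · intro i j hij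
    have : idx i = idx j := Subtype.ext (by simp only [idx, hij])
    simp only [this]
  · intro i
    -- the pairing argument
    let S := {j // τ j = τ i}
    let L : (S → ℝ) →ₗ[ℝ] (Fin (m (idx i)) → ℝ) :=
      { toFun := fun a b => ∑ j : S, a j * ∑ r, Gm' j r * ((u (idx i) b r : ℚ) : ℝ)
        map_add' := by
          intro a a'
          funext b
          simp only [Pi.add_apply, add_mul, Finset.sum_add_distrib]
        map_smul' := by
          intro c a
          funext b
          simp only [Pi.smul_apply, smul_eq_mul, RingHom.id_apply, Finset.mul_sum, mul_assoc] }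
    have hinj : Function.Injective L := by
      rw [← LinearMap.ker_eq_bot, LinearMap.ker_eq_bot']
      intro a ha
      let ρ : Fin n → ℝ := fun r => ∑ j : S, a j * Gm' j r
      let pr : (Fin n → ℚ) →ₗ[ℚ] ℝ :=
        { toFun := fun x => ∑ r, ρ r * ((x r : ℚ) : ℝ)
          map_add' := by
            intro x y
            rw [← Finset.sum_add_distrib]
            refine Finset.sum_congr rfl fun r _ => ?_
            rw [Pi.add_apply]; push_cast; ring
          map_smul' := by
            intro c x
            rw [Finset.smul_sum]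
            refine Finset.sum_congr rfl fun r _ => ?_
            rw [Pi.smul_apply, smul_eq_mul, RingHom.id_apply, Rat.smul_def]; push_cast; ring }
      have hd' : Gm' * toR t = Matrix.diagonal τ * Gm' := by
        calc Gm' * toR t = Gm' * (toR t * Gm) * Gm' := by
              rw [Matrix.mul_assoc Gm', Matrix.mul_assoc (toR t), h2, Matrix.mul_one]
          _ = (Gm' * Gm) * Matrix.diagonal τ * Gm' := by rw [hd]; simp only [Matrix.mul_assoc]
          _ = _ := by rw [h1, Matrix.one_mul]
      have hρt : ∀ c, ∑ r, ρ r * ((t r c : ℚ) : ℝ) = τ i * ρ c := by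
        intro c
        simp only [ρ, Finset.sum_mul, Finset.mul_sum]
        rw [Finset.sum_comm]
        refine Finset.sum_congr rfl fun j _ => ?_
        have h3 := congrFun (congrFun hd' (j : Fin n)) c
        rw [Matrix.mul_apply, Matrix.diagonal_mul, j.2] at h3
        simp only [toR_apply] at h3
        calc ∑ r, a j * Gm' j r * ((t r c : ℚ) : ℝ)
            = a j * ∑ r, Gm' j r * ((t r c : ℚ) : ℝ) := by
              rw [Finset.mul_sum]
              exact Finset.sum_congr rfl fun r _ => by ring
          _ = _ := by rw [h3]; ring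
      have hprt : ∀ x, pr ((e t) x) = τ i * pr x := by
        intro x
        change ∑ r, ρ r * (((e t) x r : ℚ) : ℝ) = τ i * ∑ r, ρ r * ((x r : ℚ) : ℝ)
        have h3 : ∀ r, (((e t) x r : ℚ) : ℝ) = ∑ c, ((t r c : ℚ) : ℝ) * ((x c : ℚ) : ℝ) := by
          intro r
          have : (e t) x r = ∑ c, t r c * x c := by
            simp [e, Matrix.mulVec, dotProduct]
          rw [this]
          push_cast
          rfl
        simp only [h3, Finset.mul_sum]
        rw [Finset.sum_comm]
        refine Finset.sum_congr rfl fun c _ => ?_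
        calc ∑ r, ρ r * (((t r c : ℚ) : ℝ) * ((x c : ℚ) : ℝ))
            = (∑ r, ρ r * ((t r c : ℚ) : ℝ)) * ((x c : ℚ) : ℝ) := by
              rw [Finset.sum_mul]
              exact Finset.sum_congr rfl fun r _ => by ring
          _ = _ := by rw [hρt]; ring
      have hprp : ∀ (p : ℚ[X]) x, pr (aeval (e t) p x) = aeval (τ i) p * pr x := by
        intro p
        induction p using Polynomial.induction_on' with
        | add p q hp hq =>
          intro x
          rw [map_add, LinearMap.add_apply, map_add, hp, hq, map_add, add_mul]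
        | monomial k c =>
          intro x
          have hk : ∀ k : ℕ, ∀ x, pr (((e t) ^ k) x) = τ i ^ k * pr x := by
            intro k
            induction k with
            | zero => intro x; simp
            | succ k ih =>
              intro x
              rw [pow_succ, Module.End.mul_apply, ih, hprt, pow_succ]; ring
          rw [aeval_monomial, Module.End.mul_apply, Module.algebraMap_end_apply, map_smul, hk,
            aeval_monomial, Algebra.smul_def]
          ring
      have hpr0 : ∀ x, pr x = 0 := by
        intro x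
        have h3 : pr (aeval (e t) (ee (idx i)) x) = pr x := by
          rw [hprp, heval, one_mul]
        rw [← h3]
        obtain ⟨p, hp⟩ := hspan (idx i) x
        rw [hp, map_sum]
        refine Finset.sum_eq_zero fun b _ => ?_
        rw [hprp]
        have h4 : pr (u (idx i) b) = 0 := by
          have h5 := congrFun ha b
          change ∑ j : S, a j * ∑ r, Gm' j r * ((u (idx i) b r : ℚ) : ℝ) = 0 at h5
          change ∑ r, (∑ j : S, a j * Gm' j r) * ((u (idx i) b r : ℚ) : ℝ) = 0
          rw [← h5]
          simp only [Finset.sum_mul, Finset.mul_sum]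
          rw [Finset.sum_comm]
          exact Finset.sum_congr rfl fun j _ => Finset.sum_congr rfl fun r _ => by ring
        rw [h4, mul_zero]
      have hρ0 : ∀ r, ρ r = 0 := by
        intro r
        have h3 := hpr0 (Pi.single r 1)
        change ∑ r', ρ r' * ((Pi.single (M := fun _ => ℚ) r 1 r' : ℚ) : ℝ) = 0 at h3
        rw [Finset.sum_eq_single r] at h3
        · simpa using h3
        · intro r' _ hr'
          simp [Pi.single_apply, hr']
        · simp
      funext j
      have h3 : ∑ r, ρ r * Gm r (j : Fin n) = a j := by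
        simp only [ρ, Finset.sum_mul]
        rw [Finset.sum_comm, Finset.sum_eq_single j]
        · have h4 := congrFun (congrFun h1 (j : Fin n)) (j : Fin n)
          rw [Matrix.mul_apply, Matrix.one_apply_eq] at h4
          calc ∑ r, a j * Gm' j r * Gm r j = a j * ∑ r, Gm' j r * Gm r j := by
                rw [Finset.mul_sum]
                exact Finset.sum_congr rfl fun r _ => by ring
            _ = a j := by rw [h4, mul_one]
        · intro l _ hl
          have h4 := congrFun (congrFun h1 (l : Fin n)) (j : Fin n)
          rw [Matrix.mul_apply, Matrix.one_apply_ne (fun h => hl (Subtype.ext h))] at h4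
          calc ∑ r, a l * Gm' l r * Gm r j = a l * ∑ r, Gm' l r * Gm r j := by
                rw [Finset.mul_sum]
                exact Finset.sum_congr rfl fun r _ => by ring
            _ = 0 := by rw [h4, mul_zero]
        · simp
      rw [← h3]
      refine Finset.sum_eq_zero fun r _ => ?_
      rw [hρ0, zero_mul]
    have hfin := LinearMap.finrank_le_finrank_of_injective hinj
    rw [Module.finrank_fintype_fun_eq_card, Module.finrank_fintype_fun_eq_card,
      Fintype.card_fin] at hfin
    exact hfin
  · intro i r
    have h3 : (T ^ m (idx i) - t * T ^ (m (idx i) - 1) + 1) * aeval t (ee (idx i)) = 0 := by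
      apply e.injective
      rw [map_mul, map_add, map_sub, map_mul, map_pow, map_pow, hTT, map_one, ← heav, map_zero]
      exact hrel (idx i)
    have hcomm : ∀ k : ℕ, t * T ^ k = T ^ k * t := by
      have h4 : Commute t T := by
        apply e.injective
        rw [map_mul, map_mul, hTT, hT'1]
      intro k
      exact h4.pow_right k
    rw [hcomm] at h3
    have h4 := congrArg (fun X => (toR X * Gm) r i) h3
    simp only [map_mul, map_add, map_sub, map_pow, map_one, map_zero, Matrix.zero_mul,
      Matrix.zero_apply] at h4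
    rw [Matrix.mul_assoc, toR_aeval_mul hd, ← Matrix.mul_assoc, Matrix.mul_diagonal, heval,
      mul_one, Matrix.add_mul, Matrix.sub_mul, Matrix.one_mul, Matrix.mul_assoc, hd,
      ← Matrix.mul_assoc, Matrix.add_apply, Matrix.sub_apply, Matrix.mul_diagonal] at h4
    rw [mul_comm (τ i)]
    exact h4

end real

end Pool.Agent.V11110.GL
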