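import Pool.Agent.V11110.GL5

/-!
Roots of the trinomials and the eigenvalues of the constructed matrix.
-/

set_option autoImplicit false

open Matrix Polynomial

namespace Pool.Agent.V11110.GL

/-- Hyperbolic algebraic units. -/
def Good (ζ : ℂ) : Prop := ζ ≠ 0 ∧ IsIntegral ℤ ζ ∧ IsIntegral ℤ ζ⁻¹ ∧ ‖ζ‖ ≠ 1

/-- Root of the trinomial. -/
def TRoot (τ : ℝ) (m : ℕ) (z : ℂ) : Prop := z ^ m - (τ : ℂ) * z ^ (m - 1) + 1 = 0

theorem TRoot.norm_eq {τ : ℝ} {m : ℕ} {z : ℂ} (hm : 2 ≤ m) (h : TRoot τ m z) :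
    ‖z‖ ^ (m - 1) * ‖z - τ‖ = 1 := by
  obtain ⟨k, rfl⟩ : ∃ k, m = k + 1 := ⟨m - 1, by omega⟩
  have h1 : z ^ k * (z - τ) = -1 := by
    unfold TRoot at h
    rw [Nat.add_sub_cancel] at h
    linear_combination h
  rw [Nat.add_sub_cancel, ← norm_pow, ← norm_mul, h1, norm_neg, norm_one]

theorem TRoot.large {τ : ℝ} {m : ℕ} {z : ℂ} (hτ : 10 ≤ τ) (hm : 2 ≤ m) (h : TRoot τ m z)
    (hz : 1 ≤ ‖z‖) : τ - 1 / 9 ≤ ‖z‖ ∧ ‖z‖ ≤ τ + 1 / 9 := by
  have h1 := h.norm_eq hm
  have h2 : 1 ≤ ‖z‖ ^ (m - 1) := one_le_pow₀ hz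
  have h3 : ‖z - τ‖ ≤ 1 := by
    have := norm_nonneg (z - τ)
    nlinarith
  have hτn : ‖(τ : ℂ)‖ = τ := by
    rw [Complex.norm_real, Real.norm_of_nonneg (by linarith)]
  have h4 : τ - ‖z - τ‖ ≤ ‖z‖ := by
    have := norm_sub_norm_le (τ : ℂ) z
    rw [hτn, norm_sub_rev] at this
    linarith
  have h4' : ‖z‖ ≤ τ + ‖z - τ‖ := by
    have := norm_sub_norm_le z (τ : ℂ)
    rw [hτn] at this
    linarith
  have h5 : 9 ≤ ‖z‖ := by linarith
  have h6 : 9 ≤ ‖z‖ ^ (m - 1) := by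
    calc (9:ℝ) ≤ ‖z‖ ^ 1 := by rw [pow_one]; exact h5
      _ ≤ ‖z‖ ^ (m - 1) := pow_le_pow_right₀ hz (by omega)
  have h7 : ‖z - τ‖ ≤ 1 / 9 := by
    have := norm_nonneg (z - τ)
    nlinarith
  constructor <;> linarith

theorem TRoot.norm_ne_one {τ : ℝ} {m : ℕ} {z : ℂ} (hτ : 10 ≤ τ) (hm : 2 ≤ m)
    (h : TRoot τ m z) : ‖z‖ ≠ 1 := by
  intro h1
  have := (h.large hτ hm h1.ge).1
  linarith

theorem TRoot.ne_zero {τ : ℝ} {m : ℕ} {z : ℂ} (hm : 2 ≤ m) (h : TRoot τ m z) : z ≠ 0 := by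
  rintro rfl
  unfold TRoot at h
  rw [zero_pow (by omega), zero_pow (by omega)] at h
  simp at h

theorem prod_aux {τ σ M : ℝ} {m k : ℕ} {z w : ℂ} (hM : 10 ≤ M) (hτ : M ≤ τ) (hσ : M ≤ σ)
    (hσ' : σ ≤ 2 * M) (hm : 2 ≤ m) (hk : 2 ≤ k) (hz : TRoot τ m z) (hw : TRoot σ k w)
    (hcase : 1 ≤ |τ - σ| ∨ 3 ≤ k) (hz1 : 1 ≤ ‖z‖) (hw1 : ‖w‖ < 1) (h : ‖z‖ * ‖w‖ = 1) :
    False := by
  obtain ⟨hz2, hz3⟩ := hz.large (by linarith) hm hz1
  have hwn := hw.norm_eq hk
  have hw0 : 0 < ‖w‖ := norm_pos_iff.mpr (hw.ne_zero hk)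
  have hσn : ‖(σ : ℂ)‖ = σ := by
    rw [Complex.norm_real, Real.norm_of_nonneg (by linarith)]
  have h1 : ‖w - σ‖ ≤ ‖w‖ + σ := by
    have := norm_sub_le w (σ : ℂ)
    rwa [hσn] at this
  have h2 : σ - ‖w‖ ≤ ‖w - σ‖ := by
    have := norm_sub_norm_le (σ : ℂ) w
    rw [hσn, norm_sub_rev] at this
    linarith
  by_cases hk2 : k = 2
  · subst hk2
    have h3 : ‖w - σ‖ = ‖z‖ := by
      have h4 : ‖w‖ * ‖w - σ‖ = 1 := by simpa using hwn
      have h5 : ‖w‖ * ‖w - σ‖ = ‖w‖ * ‖z‖ := by rw [h4, mul_comm, h]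
      exact mul_left_cancel₀ hw0.ne' h5
    have h6 : ‖w‖ ≤ 1 / 9 := by nlinarith
    rcases hcase with hc | hc
    · have : |τ - σ| ≤ 2 / 9 := by
        rw [abs_le]
        constructor <;> linarith
      linarith
    · omega
  · have hk3 : 3 ≤ k := by omega
    have h3 : ‖w‖ ^ (k - 1) ≤ ‖w‖ ^ 2 := pow_le_pow_of_le_one hw0.le hw1.le (by omega)
    have h4 : 1 ≤ ‖w‖ ^ 2 * (σ + 1) := by
      calc (1:ℝ) = ‖w‖ ^ (k - 1) * ‖w - σ‖ := hwn.symm
        _ ≤ ‖w‖ ^ 2 * ‖w - σ‖ := mul_le_mul_of_nonneg_right h3 (norm_nonneg _)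
        _ ≤ _ := mul_le_mul_of_nonneg_left (by linarith) (by positivity)
    have h5 : ‖z‖ ^ 2 * ‖w‖ ^ 2 = 1 := by rw [← mul_pow, h, one_pow]
    have h6 : ‖z‖ ^ 2 ≤ σ + 1 := by
      have h7 : 0 ≤ ‖z‖ ^ 2 := by positivity
      calc ‖z‖ ^ 2 = ‖z‖ ^ 2 * 1 := (mul_one _).symm
        _ ≤ ‖z‖ ^ 2 * (‖w‖ ^ 2 * (σ + 1)) := mul_le_mul_of_nonneg_left h4 h7
        _ = (‖z‖ ^ 2 * ‖w‖ ^ 2) * (σ + 1) := by ring
        _ = σ + 1 := by rw [h5, one_mul]
    nlinarith

theorem prod_ne_one {τ σ M : ℝ} {m k : ℕ} {z w : ℂ} (hM : 10 ≤ M) (hτ : M ≤ τ)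
    (hτ' : τ ≤ 2 * M) (hσ : M ≤ σ)
    (hσ' : σ ≤ 2 * M) (hm : 2 ≤ m) (hk : 2 ≤ k) (hz : TRoot τ m z) (hw : TRoot σ k w)
    (hcase : 1 ≤ |τ - σ| ∨ (3 ≤ m ∧ 3 ≤ k)) : ‖z * w‖ ≠ 1 := by
  intro h
  rw [norm_mul] at h
  rcases le_or_gt 1 ‖z‖ with hz1 | hz1
  · rcases le_or_gt 1 ‖w‖ with hw1 | hw1
    · have h1 := (hz.large (by linarith) hm hz1).1
      have h2 := (hw.large (by linarith) hk hw1).1
      nlinarith
    · exact prod_aux hM hτ hσ hσ' hm hk hz hw (hcase.imp id fun h => h.2) hz1 hw1 h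
  · rcases le_or_gt 1 ‖w‖ with hw1 | hw1
    · refine prod_aux hM hσ hτ hτ' hk hm hw hz (hcase.imp (fun h => ?_) fun h => h.1) hw1 hz1
        (by rw [mul_comm]; exact h)
      rwa [abs_sub_comm]
    · have := norm_nonneg z
      have := norm_nonneg w
      nlinarith

theorem TRoot.integral {τ : ℝ} {m : ℕ} {z : ℂ} (hτ : IsIntegral ℤ τ) (hm : 2 ≤ m)
    (h : TRoot τ m z) : IsIntegral ℤ z ∧ IsIntegral ℤ z⁻¹ := by
  have hτC : IsIntegral ℤ (τ : ℂ) := by
    have := hτ.map (Algebra.ofId ℝ ℂ |>.restrictScalars ℤ)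
    exact this
  let R := integralClosure ℤ ℂ
  let t : R := ⟨(τ : ℂ), hτC⟩
  have hz0 := h.ne_zero hm
  constructor
  · have h1 : IsIntegral R z := by
      refine ⟨X ^ m + (-(C t * X ^ (m - 1)) + 1), Polynomial.monic_X_pow_add ?_, ?_⟩
      · refine lt_of_le_of_lt (Polynomial.degree_add_le _ _) (max_lt ?_ ?_)
        · rw [Polynomial.degree_neg]
          refine lt_of_le_of_lt (Polynomial.degree_C_mul_X_pow_le _ _) ?_
          exact_mod_cast Nat.sub_lt (by omega) Nat.one_pos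
        · refine lt_of_le_of_lt Polynomial.degree_one_le ?_
          exact_mod_cast (by omega : 0 < m)
      · unfold TRoot at h
        simp only [eval₂_add, eval₂_pow, eval₂_X, eval₂_neg, eval₂_mul, eval₂_C, eval₂_one]
        have : (algebraMap R ℂ) t = (τ : ℂ) := rfl
        rw [this]
        linear_combination h
    exact isIntegral_trans z h1
  · have h1 : IsIntegral R z⁻¹ := by
      refine ⟨X ^ m + (-(C t * X ^ 1) + 1), Polynomial.monic_X_pow_add ?_, ?_⟩
      · refine lt_of_le_of_lt (Polynomial.degree_add_le _ _) (max_lt ?_ ?_)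
        · rw [Polynomial.degree_neg]
          refine lt_of_le_of_lt (Polynomial.degree_C_mul_X_pow_le _ _) ?_
          exact_mod_cast (by omega : 1 < m)
        · refine lt_of_le_of_lt Polynomial.degree_one_le ?_
          exact_mod_cast (by omega : 0 < m)
      · simp only [eval₂_add, eval₂_pow, eval₂_X, eval₂_neg, eval₂_mul, eval₂_C, eval₂_one]
        have : (algebraMap R ℂ) t = (τ : ℂ) := rfl
        rw [this]
        obtain ⟨k, rfl⟩ : ∃ k, m = k + 1 := ⟨m - 1, by omega⟩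
        unfold TRoot at h
        rw [Nat.add_sub_cancel] at h
        have h2 : z⁻¹ ^ (k + 1) * (z ^ (k + 1) - (τ : ℂ) * z ^ k + 1) = 0 := by rw [h, mul_zero]
        have h3 : z⁻¹ ^ (k + 1) * z ^ (k + 1) = 1 := by
          rw [← mul_pow, inv_mul_cancel₀ hz0, one_pow]
        have h4 : z⁻¹ ^ (k + 1) * z ^ k = z⁻¹ := by
          rw [pow_succ', mul_assoc, ← mul_pow, inv_mul_cancel₀ hz0, one_pow, mul_one]
        linear_combination h2 - h3 + (τ : ℂ) * h4
    exact isIntegral_trans z⁻¹ h1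

theorem TRoot.good {τ : ℝ} {m : ℕ} {z : ℂ} (hτ : IsIntegral ℤ τ) (hτ10 : 10 ≤ τ) (hm : 2 ≤ m)
    (h : TRoot τ m z) : Good z :=
  ⟨h.ne_zero hm, (h.integral hτ hm).1, (h.integral hτ hm).2, h.norm_ne_one hτ10 hm⟩

theorem good_prod {τ σ M : ℝ} {m k : ℕ} {z w : ℂ} (hM : 10 ≤ M) (hτ : M ≤ τ)
    (hτ' : τ ≤ 2 * M) (hσ : M ≤ σ)
    (hσ' : σ ≤ 2 * M) (hτi : IsIntegral ℤ τ) (hσi : IsIntegral ℤ σ) (hm : 2 ≤ m) (hk : 2 ≤ k)
    (hz : TRoot τ m z) (hw : TRoot σ k w)
    (hcase : 1 ≤ |τ - σ| ∨ (3 ≤ m ∧ 3 ≤ k)) : Good (z * w) := by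
  refine ⟨mul_ne_zero (hz.ne_zero hm) (hw.ne_zero hk),
    (hz.integral hτi hm).1.mul (hw.integral hσi hk).1, ?_,
    prod_ne_one hM hτ hτ' hσ hσ' hm hk hz hw hcase⟩
  rw [mul_inv]
  exact (hz.integral hτi hm).2.mul (hw.integral hσi hk).2

/-- A vector killed by a polynomial of an endomorphism gives an eigenvector. -/
theorem exists_eigen {V : Type*} [AddCommGroup V] [Module ℂ V] (A : Module.End ℂ V) :
    ∀ (d : ℕ) (p : ℂ[X]), p.natDegree ≤ d → p ≠ 0 → ∀ x : V, x ≠ 0 → aeval A p x = 0 →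
    ∃ z, p.IsRoot z ∧ ∃ r : ℂ[X], aeval A r x ≠ 0 ∧ A (aeval A r x) = z • aeval A r x := by
  intro d
  induction d with
  | zero =>
    intro p hd hp x hx h
    obtain ⟨c, rfl⟩ : ∃ c, p = C c := ⟨p.coeff 0, Polynomial.eq_C_of_natDegree_le_zero hd⟩
    rw [aeval_C, Module.algebraMap_end_apply] at h
    have hc : c ≠ 0 := by rintro rfl; exact hp (map_zero C)
    exact absurd h (smul_ne_zero hc hx)
  | succ d ih =>
    intro p hd hp x hx h
    by_cases h0 : p.degree = 0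
    · have hd0 : p.natDegree ≤ d := by
        rw [Polynomial.natDegree_eq_of_degree_eq_some h0]
        exact Nat.zero_le d
      exact ih p hd0 hp x hx h
    · obtain ⟨z, hz⟩ := IsAlgClosed.exists_root p h0
      obtain ⟨p', rfl⟩ := Polynomial.dvd_iff_isRoot.mpr hz
      have hp' : p' ≠ 0 := right_ne_zero_of_mul hp
      have hd' : p'.natDegree ≤ d := by
        rw [Polynomial.natDegree_mul (left_ne_zero_of_mul hp) hp', Polynomial.natDegree_X_sub_C]
          at hd
        omega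
      by_cases h1 : aeval A p' x = 0
      · obtain ⟨w, hw, r, hr1, hr2⟩ := ih p' hd' hp' x hx h1
        refine ⟨w, ?_, r, hr1, hr2⟩
        rw [Polynomial.IsRoot, Polynomial.eval_mul, hw, mul_zero]
      · refine ⟨z, hz, p', h1, ?_⟩
        rw [map_mul, Module.End.mul_apply, map_sub, aeval_X, aeval_C, LinearMap.sub_apply,
          Module.algebraMap_end_apply, sub_eq_zero] at h
        exact h

theorem commute_aeval {V : Type*} [AddCommGroup V] [Module ℂ V] {L R : Module.End ℂ V}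
    (h : Commute L R) (p : ℂ[X]) : Commute (aeval L p) R := by
  induction p using Polynomial.induction_on' with
  | add p q hp hq => rw [map_add]; exact hp.add_left hq
  | monomial k a =>
    rw [aeval_monomial]
    exact (Algebra.commute_algebraMap_left a R).mul_left (h.pow_left k)

/-- Commuting endomorphisms: eigenvalues of the product. -/
theorem exists_pair {V : Type*} [AddCommGroup V] [Module ℂ V] {L R : Module.End ℂ V}
    (hLR : Commute L R) {p q : ℂ[X]} (hp : p ≠ 0) (hq : q ≠ 0) {x : V} (hx : x ≠ 0)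
    (h1 : aeval L p x = 0) (h2 : aeval R q x = 0) {ζ : ℂ} (h3 : L (R x) = ζ • x) :
    ∃ z w, p.IsRoot z ∧ q.IsRoot w ∧ ζ = z * w := by
  obtain ⟨z, hz, r, hr1, hr2⟩ := exists_eigen L _ p le_rfl hp x hx h1
  set x' := aeval L r x with hx'
  have hc1 : Commute (aeval L r) R := commute_aeval hLR r
  have hc2 : Commute (aeval R q) (aeval L r) := commute_aeval hc1.symm q
  have hc3 : Commute (aeval L r) L := commute_aeval (Commute.refl L) r
  have h2' : aeval R q x' = 0 := by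
    rw [hx', ← Module.End.mul_apply, hc2.eq, Module.End.mul_apply, h2, map_zero]
  have h3' : L (R x') = ζ • x' := by
    have e1 : R x' = aeval L r (R x) := by
      rw [hx', ← Module.End.mul_apply, ← hc1.eq, Module.End.mul_apply]
    have e2 : L (aeval L r (R x)) = aeval L r (L (R x)) := by
      rw [← Module.End.mul_apply, ← hc3.eq, Module.End.mul_apply]
    rw [e1, e2, h3, map_smul]
  obtain ⟨w, hw, r', hr1', hr2'⟩ := exists_eigen R _ q le_rfl hq x' hr1 h2'
  refine ⟨z, w, hz, hw, ?_⟩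
  set x'' := aeval R r' x' with hx''
  have hd1 : Commute (aeval R r') L := commute_aeval hLR.symm r'
  have hd3 : Commute (aeval R r') R := commute_aeval (Commute.refl R) r'
  have e3 : L x'' = z • x'' := by
    rw [hx'', ← Module.End.mul_apply, ← hd1.eq, Module.End.mul_apply, hr2, map_smul]
  have e4 : L (R x'') = ζ • x'' := by
    have e1 : R x'' = aeval R r' (R x') := by
      rw [hx'', ← Module.End.mul_apply, ← hd3.eq, Module.End.mul_apply]
    rw [e1, ← Module.End.mul_apply, ← hd1.eq, Module.End.mul_apply, h3', map_smul]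
  rw [hr2', map_smul, e3, smul_smul] at e4
  have e5 : (ζ - w * z) • x'' = 0 := by rw [sub_smul, e4, sub_self]
  rcases smul_eq_zero.mp e5 with e6 | e6
  · rw [sub_eq_zero] at e6
    rw [e6, mul_comm]
  · exact absurd e6 hr1'

/-- The trinomial. -/
noncomputable def tri (τ : ℝ) (m : ℕ) : ℂ[X] := X ^ m - C (τ : ℂ) * X ^ (m - 1) + 1

theorem tri_ne_zero {τ : ℝ} {m : ℕ} (hm : 2 ≤ m) : tri τ m ≠ 0 := by
  intro h
  have h1 := congrArg (Polynomial.eval 0) h
  simp only [tri, eval_add, eval_sub, eval_mul, eval_pow, eval_X, eval_C, eval_one,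
    eval_zero] at h1
  rw [zero_pow (by omega), zero_pow (by omega)] at h1
  simp at h1

theorem tri_root {τ : ℝ} {m : ℕ} {z : ℂ} (h : (tri τ m).IsRoot z) : TRoot τ m z := by
  unfold TRoot
  simp only [tri, Polynomial.IsRoot, eval_add, eval_sub, eval_mul, eval_pow, eval_X, eval_C,
    eval_one] at h
  exact h

section hat

variable {n : ℕ} {Th β : Matrix (Fin n) (Fin n) ℂ} {τ : Fin n → ℝ} {m : Fin n → ℕ} {ζ : ℂ}

theorem hat_case (hblk : ∀ a b, τ a ≠ τ b → Th a b = 0)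
    (hm : ∀ i j, τ i = τ j → m i = m j) (hm2 : ∀ i, 2 ≤ m i)
    (hrel : ∀ i r, (Th ^ (m i)) r i - (τ i : ℂ) * (Th ^ (m i - 1)) r i
      + (1 : Matrix (Fin n) (Fin n) ℂ) r i = 0)
    (hβ : Thᵀ * β * Th = ζ • β) {i j : Fin n} (hij : β i j ≠ 0) :
    ∃ z w, TRoot (τ i) (m i) z ∧ TRoot (τ j) (m j) w ∧ ζ = z * w := by
  classical
  let E : Fin n → Matrix (Fin n) (Fin n) ℂ := fun i =>
    Matrix.diagonal (fun k => if τ k = τ i then 1 else 0)
  have hEc : ∀ i, Commute Th (E i) := by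
    intro i
    ext a b
    rw [Matrix.mul_diagonal, Matrix.diagonal_mul]
    by_cases hab : τ a = τ b
    · rw [hab, mul_comm]
    · rw [hblk a b hab]; ring
  have hEt : ∀ i, (E i)ᵀ = E i := fun i => Matrix.diagonal_transpose _
  have hEii : ∀ i, E i * E i = E i := by
    intro i
    rw [Matrix.diagonal_mul_diagonal]
    congr 1
    funext k
    split_ifs <;> simp
  have hrel' : ∀ i, (Th ^ (m i) - (τ i : ℂ) • Th ^ (m i - 1) + 1) * E i = 0 := by
    intro i
    ext r k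
    rw [Matrix.mul_diagonal, Matrix.zero_apply]
    by_cases hk : τ k = τ i
    · rw [if_pos hk, mul_one, Matrix.add_apply, Matrix.sub_apply, Matrix.smul_apply, smul_eq_mul]
      have := hrel k r
      rw [hm k i hk, hk] at this
      exact this
    · rw [if_neg hk, mul_zero]
  let x : Matrix (Fin n) (Fin n) ℂ := E i * β * E j
  have hx : x ≠ 0 := by
    intro h0
    apply hij
    have h1 := congrFun (congrFun h0 i) j
    simp only [x, E] at h1
    rw [Matrix.mul_diagonal, Matrix.diagonal_mul] at h1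
    simpa using h1
  let L : Module.End ℂ (Matrix (Fin n) (Fin n) ℂ) := LinearMap.mulLeft ℂ Thᵀ
  let R : Module.End ℂ (Matrix (Fin n) (Fin n) ℂ) := LinearMap.mulRight ℂ Th
  have hLR : Commute L R := by
    ext1 y
    change Thᵀ * (y * Th) = Thᵀ * y * Th
    rw [Matrix.mul_assoc]
  have hLk : ∀ k y, (L ^ k) y = (Thᵀ) ^ k * y := by
    intro k y
    simp only [L, LinearMap.pow_mulLeft, LinearMap.mulLeft_apply]
  have hRk : ∀ k y, (R ^ k) y = y * Th ^ k := by
    intro k y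
    simp only [R, LinearMap.pow_mulRight, LinearMap.mulRight_apply]
  have hLx : aeval L (tri (τ i) (m i)) x = 0 := by
    have h1 : aeval L (tri (τ i) (m i)) x
        = (Thᵀ ^ (m i) - (τ i : ℂ) • Thᵀ ^ (m i - 1) + 1) * x := by
      simp only [tri, map_add, map_sub, map_mul, map_pow, aeval_X, aeval_C, map_one]
      rw [LinearMap.add_apply, LinearMap.sub_apply, Module.End.mul_apply,
        Module.algebraMap_end_apply, Module.End.one_apply, hLk, hLk, Matrix.add_mul,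
        Matrix.sub_mul, Matrix.one_mul, Matrix.smul_mul]
    rw [h1]
    have h2 : (Thᵀ ^ (m i) - (τ i : ℂ) • Thᵀ ^ (m i - 1) + 1) * E i = 0 := by
      have h3 : (Thᵀ ^ (m i) - (τ i : ℂ) • Thᵀ ^ (m i - 1) + 1) * E i
          = (E i * (Th ^ (m i) - (τ i : ℂ) • Th ^ (m i - 1) + 1))ᵀ := by
        rw [Matrix.transpose_mul, hEt, Matrix.transpose_add, Matrix.transpose_sub,
          Matrix.transpose_smul, Matrix.transpose_pow, Matrix.transpose_pow,
          Matrix.transpose_one]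
      have h4 : Commute (Th ^ (m i) - (τ i : ℂ) • Th ^ (m i - 1) + 1) (E i) :=
        (((hEc i).pow_left _).sub_left (((hEc i).pow_left _).smul_left _)).add_left
          (Commute.one_left _)
      rw [h3, ← h4.eq, hrel', Matrix.transpose_zero]
    have h5 : x = E i * (β * E j) := Matrix.mul_assoc _ _ _
    rw [h5, ← Matrix.mul_assoc, h2, Matrix.zero_mul]
  have hRx : aeval R (tri (τ j) (m j)) x = 0 := by
    have h1 : aeval R (tri (τ j) (m j)) x
        = x * (Th ^ (m j) - (τ j : ℂ) • Th ^ (m j - 1) + 1) := by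
      simp only [tri, map_add, map_sub, map_mul, map_pow, aeval_X, aeval_C, map_one]
      rw [LinearMap.add_apply, LinearMap.sub_apply, Module.End.mul_apply,
        Module.algebraMap_end_apply, Module.End.one_apply, hRk, hRk, Matrix.mul_add,
        Matrix.mul_sub, Matrix.mul_one, Matrix.mul_smul]
    have h4 : Commute (Th ^ (m j) - (τ j : ℂ) • Th ^ (m j - 1) + 1) (E j) :=
      (((hEc j).pow_left _).sub_left (((hEc j).pow_left _).smul_left _)).add_left
        (Commute.one_left _)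
    rw [h1]
    change E i * β * E j * _ = 0
    rw [Matrix.mul_assoc (E i * β), ← h4.eq, hrel', Matrix.mul_zero]
  have hζ : L (R x) = ζ • x := by
    change Thᵀ * ((E i * β * E j) * Th) = ζ • (E i * β * E j)
    have h6 : Thᵀ * E i = E i * Thᵀ := by
      have h7 := congrArg Matrix.transpose (hEc i).eq
      rw [Matrix.transpose_mul, Matrix.transpose_mul, hEt] at h7
      exact h7.symm
    calc Thᵀ * ((E i * β * E j) * Th) = (Thᵀ * E i) * β * (E j * Th) := by
          simp only [Matrix.mul_assoc]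
      _ = E i * (Thᵀ * β * Th) * E j := by
          rw [h6, ← (hEc j).eq]; simp only [Matrix.mul_assoc]
      _ = _ := by rw [hβ, Matrix.mul_smul, Matrix.smul_mul]
  obtain ⟨z, w, hz, hw, hzw⟩ := exists_pair hLR (tri_ne_zero (hm2 i)) (tri_ne_zero (hm2 j)) hx
    hLx hRx hζ
  exact ⟨z, w, tri_root hz, tri_root hw, hzw⟩

theorem hat_vec (hrel : ∀ i r, (Th ^ (m i)) r i - (τ i : ℂ) * (Th ^ (m i - 1)) r i
      + (1 : Matrix (Fin n) (Fin n) ℂ) r i = 0)
    {y : Fin n → ℂ} (hy : ∀ a, ∑ b, y b * Th b a = ζ * y a) {i : Fin n} (hi : y i ≠ 0) :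
    TRoot (τ i) (m i) ζ := by
  have hk : ∀ k a, ∑ b, y b * (Th ^ k) b a = ζ ^ k * y a := by
    intro k
    induction k with
    | zero =>
      intro a
      rw [Finset.sum_eq_single a]
      · simp
      · intro b _ hb; simp [hb]
      · simp
    | succ k ih =>
      intro a
      calc ∑ b, y b * (Th ^ (k + 1)) b a = ∑ b, ∑ c, y b * ((Th ^ k) b c * Th c a) := by
            refine Finset.sum_congr rfl fun b _ => ?_
            rw [pow_succ, Matrix.mul_apply, Finset.mul_sum]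
        _ = ∑ c, (∑ b, y b * (Th ^ k) b c) * Th c a := by
            rw [Finset.sum_comm]
            refine Finset.sum_congr rfl fun c _ => ?_
            rw [Finset.sum_mul]
            exact Finset.sum_congr rfl fun b _ => by ring
        _ = ζ ^ k * ∑ c, y c * Th c a := by
            rw [Finset.mul_sum]
            exact Finset.sum_congr rfl fun c _ => by rw [ih]; ring
        _ = _ := by rw [hy]; ring
  have h1 : ∑ r, y r * ((Th ^ (m i)) r i - (τ i : ℂ) * (Th ^ (m i - 1)) r i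
      + (1 : Matrix (Fin n) (Fin n) ℂ) r i) = 0 :=
    Finset.sum_eq_zero fun r _ => by rw [hrel, mul_zero]
  have h2 : ∑ r, y r * ((Th ^ (m i)) r i - (τ i : ℂ) * (Th ^ (m i - 1)) r i
      + (1 : Matrix (Fin n) (Fin n) ℂ) r i)
      = (ζ ^ (m i) - (τ i : ℂ) * ζ ^ (m i - 1) + 1) * y i := by
    have h3 := hk (m i) i
    have h4 := hk (m i - 1) i
    have h5 : ∑ r, y r * (1 : Matrix (Fin n) (Fin n) ℂ) r i = y i := by
      rw [Finset.sum_eq_single i]
      · simp
      · intro b _ hb; simp [hb]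
      · simp
    calc ∑ r, y r * ((Th ^ (m i)) r i - (τ i : ℂ) * (Th ^ (m i - 1)) r i
      + (1 : Matrix (Fin n) (Fin n) ℂ) r i) = ∑ r, y r * (Th ^ (m i)) r i
        - (τ i : ℂ) * ∑ r, y r * (Th ^ (m i - 1)) r i
        + ∑ r, y r * (1 : Matrix (Fin n) (Fin n) ℂ) r i := by
          rw [Finset.mul_sum, ← Finset.sum_sub_distrib, ← Finset.sum_add_distrib]
          exact Finset.sum_congr rfl fun r _ => by ring
      _ = _ := by rw [h3, h4, h5]; ring
  rw [h2] at h1
  exact (mul_eq_zero.mp h1).resolve_right hi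

end hat

/-- Real matrices as complex matrices. -/
noncomputable def rc {n : ℕ} : Matrix (Fin n) (Fin n) ℝ →+* Matrix (Fin n) (Fin n) ℂ :=
  (algebraMap ℝ ℂ).mapMatrix

theorem rc_apply {n : ℕ} (A : Matrix (Fin n) (Fin n) ℝ) (i j : Fin n) :
    rc A i j = ((A i j : ℝ) : ℂ) := rfl

theorem rc_transpose {n : ℕ} (A : Matrix (Fin n) (Fin n) ℝ) : rc Aᵀ = (rc A)ᵀ := rfl

theorem rc_smul {n : ℕ} (c : ℝ) (A : Matrix (Fin n) (Fin n) ℝ) : rc (c • A) = (c : ℂ) • rc A := by
  ext i j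
  rw [rc_apply, Matrix.smul_apply, Matrix.smul_apply, rc_apply, smul_eq_mul, smul_eq_mul]
  push_cast
  rfl

/-- The rational matrix with hyperbolic unit eigenvalues. -/
theorem exists_T_good {n : ℕ} {G : SimpleGraph (Fin n)}
    {B : Submodule ℚ (Matrix (Fin n) (Fin n) ℚ)} {Θ Θ' : Matrix (Fin n) (Fin n) ℝ}
    (h : RealData G B Θ Θ') (hA1 : ∀ i, ∃ j, j ≠ i ∧ Q G i j)
    (hA2 : ∀ i j, G.Adj i j → Q G i j → ∃ k, k ≠ i ∧ k ≠ j ∧ Q G i k) :
    ∃ T : Matrix (Fin n) (Fin n) ℚ, (∀ A ∈ B, Tᵀ * A * T ∈ B) ∧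
      (∀ (ζ : ℂ) (y : Fin n → ℂ), y ≠ 0 →
        (∀ a, ∑ b, y b * (rc (toR T)) b a = ζ * y a) → Good ζ) ∧
      (∀ (ζ : ℂ) (r : ℕ) (ψ : Fin r → ℂ) (A : Fin r → Matrix (Fin n) (Fin n) ℚ),
        (∀ c, A c ∈ B) → (∑ c, ψ c • rc (toR (A c))) ≠ 0 →
        (rc (toR T))ᵀ * (∑ c, ψ c • rc (toR (A c))) * rc (toR T)
          = ζ • (∑ c, ψ c • rc (toR (A c))) → Good ζ) := by
  classical
  obtain ⟨t, Gm, Gm', τ, M, hG1, hG2, hd, hτQ, hτsep, hM, hτM, hτint, hcong, hform⟩ :=
    exists_diag h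
  obtain ⟨T, m, hTt, hmeq, hcard, hrel⟩ := exists_T hG1 hG2 hd hτint
  have hm2 : ∀ i, 2 ≤ m i := by
    intro i
    obtain ⟨j, hji, hij⟩ := hA1 i
    refine le_trans ?_ (hcard i)
    have : 1 < Fintype.card {j // τ j = τ i} := by
      rw [Fintype.one_lt_card_iff]
      exact ⟨⟨i, rfl⟩, ⟨j, ((hτQ i j).mpr hij).symm⟩, fun h => hji (congrArg Subtype.val h).symm⟩
    omega
  have hm3 : ∀ i j, G.Adj i j → Q G i j → 3 ≤ m i := by
    intro i j hadj hij
    obtain ⟨k, hki, hkj, hik⟩ := hA2 i j hadj hij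
    refine le_trans ?_ (hcard i)
    have : 2 < Fintype.card {j // τ j = τ i} := by
      rw [Fintype.two_lt_card_iff]
      refine ⟨⟨i, rfl⟩, ⟨j, ((hτQ i j).mpr hij).symm⟩, ⟨k, ((hτQ i k).mpr hik).symm⟩, ?_, ?_, ?_⟩
      · exact fun h => hadj.ne (congrArg Subtype.val h)
      · exact fun h => hki (congrArg Subtype.val h).symm
      · exact fun h => hkj (congrArg Subtype.val h).symm
    omega
  set Tc := rc (toR T) with hTc
  set Gc := rc Gm with hGc
  set Gc' := rc Gm' with hGc'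
  have hG1c : Gc' * Gc = 1 := by rw [hGc, hGc', ← map_mul, hG1, map_one]
  have hG2c : Gc * Gc' = 1 := by rw [hGc, hGc', ← map_mul, hG2, map_one]
  let Th : Matrix (Fin n) (Fin n) ℂ := Gc' * Tc * Gc
  have hThk : ∀ k : ℕ, Th ^ k = Gc' * Tc ^ k * Gc := by
    intro k
    induction k with
    | zero => rw [pow_zero, pow_zero, Matrix.mul_one, hG1c]
    | succ k ih =>
      rw [pow_succ, ih, pow_succ]
      calc Gc' * Tc ^ k * Gc * (Gc' * Tc * Gc) = Gc' * Tc ^ k * (Gc * Gc') * Tc * Gc := by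
            simp only [Matrix.mul_assoc]
        _ = _ := by rw [hG2c, Matrix.mul_one]; simp only [Matrix.mul_assoc]
  -- block structure
  have hdc : rc (toR t) * Gc = Gc * Matrix.diagonal (fun i => (τ i : ℂ)) := by
    rw [hGc, ← map_mul, hd, map_mul]
    congr 1
    ext i j
    rw [rc_apply, Matrix.diagonal_apply, Matrix.diagonal_apply]
    split_ifs <;> simp
  have hTtc : Tc * rc (toR t) = rc (toR t) * Tc := by
    rw [hTc, ← map_mul, ← map_mul, hTt, map_mul, map_mul]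
  have hdc' : Gc' * rc (toR t) = Matrix.diagonal (fun i => (τ i : ℂ)) * Gc' := by
    calc Gc' * rc (toR t) = Gc' * (rc (toR t) * Gc) * Gc' := by
          rw [Matrix.mul_assoc Gc', Matrix.mul_assoc (rc (toR t)), hG2c, Matrix.mul_one]
      _ = (Gc' * Gc) * Matrix.diagonal (fun i => (τ i : ℂ)) * Gc' := by
          rw [hdc]; simp only [Matrix.mul_assoc]
      _ = _ := by rw [hG1c, Matrix.one_mul]
  have hThd : Th * Matrix.diagonal (fun i => (τ i : ℂ))
      = Matrix.diagonal (fun i => (τ i : ℂ)) * Th := by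
    calc Gc' * Tc * Gc * Matrix.diagonal (fun i => (τ i : ℂ))
        = Gc' * Tc * (Gc * Matrix.diagonal (fun i => (τ i : ℂ))) := by
          simp only [Matrix.mul_assoc]
      _ = Gc' * (Tc * rc (toR t)) * Gc := by rw [← hdc]; simp only [Matrix.mul_assoc]
      _ = (Gc' * rc (toR t)) * Tc * Gc := by rw [hTtc]; simp only [Matrix.mul_assoc]
      _ = _ := by rw [hdc']; simp only [Th, Matrix.mul_assoc]
  have hblk : ∀ a b, τ a ≠ τ b → Th a b = 0 := by
    intro a b hab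
    have h1 := congrFun (congrFun hThd a) b
    rw [Matrix.mul_diagonal, Matrix.diagonal_mul] at h1
    have h2 : ((τ a : ℂ) - τ b) * Th a b = 0 := by linear_combination -h1
    refine (mul_eq_zero.mp h2).resolve_left ?_
    intro h3
    rw [sub_eq_zero] at h3
    exact hab (by exact_mod_cast h3)
  have hrelc : ∀ i r, (Th ^ (m i)) r i - (τ i : ℂ) * (Th ^ (m i - 1)) r i
      + (1 : Matrix (Fin n) (Fin n) ℂ) r i = 0 := by
    intro i r
    have h1 : ∀ s, (Tc ^ (m i) * Gc) s i - (τ i : ℂ) * (Tc ^ (m i - 1) * Gc) s i + Gc s i = 0 := by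
      intro s
      have h2 := hrel i s
      have h3 : ∀ k : ℕ, (Tc ^ k * Gc) s i = (((toR T ^ k * Gm) s i : ℝ) : ℂ) := by
        intro k
        rw [hTc, hGc, ← map_pow, ← map_mul, rc_apply]
      rw [h3, h3]
      have h4 : Gc s i = ((Gm s i : ℝ) : ℂ) := rfl
      rw [h4]
      exact_mod_cast h2
    have h5 : Th ^ (m i) - (τ i : ℂ) • Th ^ (m i - 1) + 1
        = Gc' * (Tc ^ (m i) * Gc - (τ i : ℂ) • (Tc ^ (m i - 1) * Gc) + Gc) := by
      rw [hThk, hThk, Matrix.mul_add, Matrix.mul_sub, hG1c, Matrix.mul_smul]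
      simp only [Matrix.mul_assoc]
    have h6 := congrFun (congrFun h5 r) i
    rw [Matrix.add_apply, Matrix.sub_apply, Matrix.smul_apply, smul_eq_mul] at h6
    rw [h6, Matrix.mul_apply]
    refine Finset.sum_eq_zero fun s _ => ?_
    rw [Matrix.add_apply, Matrix.sub_apply, Matrix.smul_apply, smul_eq_mul, h1, mul_zero]
  have hτ10 : ∀ i, 10 ≤ τ i := fun i => hM.trans (hτM i).1
  refine ⟨T, hcong T hTt, ?_, ?_⟩
  · intro ζ y hy hyT
    let yh : Fin n → ℂ := fun i => ∑ b, y b * Gc b i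
    have hyh : ∀ a, ∑ b, yh b * Th b a = ζ * yh a := by
      intro a
      have e1 : ∑ b, yh b * Th b a = ∑ c, y c * (Gc * Th) c a := by
        simp only [yh, Finset.sum_mul, Matrix.mul_apply, Finset.mul_sum]
        rw [Finset.sum_comm]
        exact Finset.sum_congr rfl fun c _ => Finset.sum_congr rfl fun b _ => by ring
      have e2 : Gc * Th = Tc * Gc := by
        calc Gc * (Gc' * Tc * Gc) = (Gc * Gc') * Tc * Gc := by simp only [Matrix.mul_assoc]
          _ = _ := by rw [hG2c, Matrix.one_mul]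
      rw [e1, e2]
      simp only [yh, Matrix.mul_apply, Finset.mul_sum]
      rw [Finset.sum_comm]
      refine Finset.sum_congr rfl fun b _ => ?_
      calc ∑ c, y c * (Tc c b * Gc b a) = (∑ c, y c * Tc c b) * Gc b a := by
            rw [Finset.sum_mul]
            exact Finset.sum_congr rfl fun c _ => by ring
        _ = _ := by rw [hyT]; ring
    obtain ⟨i, hi⟩ : ∃ i, yh i ≠ 0 := by
      by_contra hcon
      push Not at hcon
      apply hy
      funext b
      have e1 : ∑ i, yh i * Gc' i b = y b := by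
        simp only [yh, Finset.sum_mul]
        rw [Finset.sum_comm]
        calc ∑ c, ∑ i, y c * Gc c i * Gc' i b = ∑ c, y c * (Gc * Gc') c b := by
              refine Finset.sum_congr rfl fun c _ => ?_
              rw [Matrix.mul_apply, Finset.mul_sum]
              exact Finset.sum_congr rfl fun i _ => by ring
          _ = y b := by
              rw [hG2c, Finset.sum_eq_single b]
              · simp
              · intro c _ hc; simp [hc]
              · simp
      rw [← e1]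
      exact Finset.sum_eq_zero fun i _ => by rw [hcon i, zero_mul]
    exact (hat_vec hrelc hyh hi).good (hτint i) (hτ10 i) (hm2 i)
  · intro ζ r ψ A hA hβ0 hβ
    set β := ∑ c, ψ c • rc (toR (A c)) with hβdef
    let βh : Matrix (Fin n) (Fin n) ℂ := Gcᵀ * β * Gc
    have hT2 : Thᵀ * βh * Th = ζ • βh := by
      have e1 : Thᵀ = Gcᵀ * Tcᵀ * Gc'ᵀ := by
        simp only [Th]
        rw [Matrix.transpose_mul, Matrix.transpose_mul, Matrix.mul_assoc]
      have e2 : Gc'ᵀ * Gcᵀ = 1 := by rw [← Matrix.transpose_mul, hG2c, Matrix.transpose_one]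
      calc Thᵀ * βh * Th = Gcᵀ * Tcᵀ * (Gc'ᵀ * Gcᵀ) * β * (Gc * Gc') * Tc * Gc := by
            rw [e1]; simp only [βh, Th, Matrix.mul_assoc]
        _ = Gcᵀ * (Tcᵀ * β * Tc) * Gc := by
            rw [e2, hG2c]; simp only [Matrix.mul_one, Matrix.mul_assoc]
        _ = _ := by rw [hβ, Matrix.mul_smul, Matrix.smul_mul]
    have hFβ : Form G βh := by
      have e1 : βh = ∑ c, ψ c • rc (Gmᵀ * toR (A c) * Gm) := by
        simp only [βh, hβdef, Finset.mul_sum, Finset.sum_mul, Matrix.mul_smul, Matrix.smul_mul]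
        refine Finset.sum_congr rfl fun c _ => ?_
        rw [map_mul, map_mul, rc_transpose]
      have e2 : ∀ c, Form G (rc (Gmᵀ * toR (A c) * Gm)) := by
        intro c
        have e3 := hform (A c) (hA c)
        refine ⟨fun i j => ?_, fun i j hij => ?_⟩
        · rw [rc_apply, rc_apply, e3.1 i j]; push_cast; rfl
        · rw [rc_apply, e3.2 i j hij]; simp
      rw [e1]
      have e4 : ∀ s : Finset (Fin r), Form G (∑ c ∈ s, ψ c • rc (Gmᵀ * toR (A c) * Gm)) := by
        intro s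
        induction s using Finset.induction_on with
        | empty => rw [Finset.sum_empty]; exact Form.zero
        | insert a s ha ih => rw [Finset.sum_insert ha]; exact ((e2 a).smul _).add ih
      exact e4 _
    obtain ⟨i, j, hij⟩ : ∃ i j, βh i j ≠ 0 := by
      by_contra hcon
      push Not at hcon
      apply hβ0
      have e1 : βh = 0 := by ext i j; exact hcon i j
      have e2 : Gc'ᵀ * Gcᵀ = 1 := by rw [← Matrix.transpose_mul, hG2c, Matrix.transpose_one]
      calc β = (Gc'ᵀ * Gcᵀ) * β * (Gc * Gc') := by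
            rw [e2, hG2c, Matrix.one_mul, Matrix.mul_one]
        _ = Gc'ᵀ * βh * Gc' := by simp only [βh, Matrix.mul_assoc]
        _ = 0 := by rw [e1, Matrix.mul_zero, Matrix.zero_mul]
    have hadj : G.Adj i j := by
      by_contra hn
      exact hij (hFβ.2 i j hn)
    obtain ⟨z, w, hz, hw, rfl⟩ := hat_case hblk hmeq hm2 hrelc hT2 hij
    refine good_prod hM (hτM i).1 (hτM i).2 (hτM j).1 (hτM j).2 (hτint i) (hτint j) (hm2 i)
      (hm2 j) hz hw ?_
    by_cases hq : Q G i j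
    · right
      exact ⟨hm3 i j hadj hq, hm3 j i hadj.symm (Q_symm G hq)⟩
    · left
      exact hτsep i j hq

end Pool.Agent.V11110.GL
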