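import Pool.Agent.V11110.GL6

/-!
Consequences for the graph of the existence of a hyperbolic automorphism.
-/

set_option autoImplicit false

open Matrix Polynomial

namespace Pool.Agent.V11110.GL

theorem integral_inv_of_root {p : ℤ[X]} (hmonic : p.Monic) (hp0 : p.coeff 0 = 1 ∨ p.coeff 0 = -1)
    {ξ : ℂ} (hξ : aeval ξ p = 0) : ξ ≠ 0 ∧ IsIntegral ℤ ξ ∧ IsIntegral ℤ ξ⁻¹ := by
  have hint : IsIntegral ℤ ξ := ⟨p, hmonic, by rwa [← Polynomial.aeval_def]⟩
  have h1 : ξ * aeval ξ p.divX + ((p.coeff 0 : ℤ) : ℂ) = 0 := by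
    have h2 := congrArg (aeval ξ) (Polynomial.divX_mul_X_add p)
    rw [map_add, map_mul, aeval_X, aeval_C, hξ] at h2
    rw [mul_comm]
    simpa using h2
  have hne : ξ ≠ 0 := by
    rintro rfl
    rw [zero_mul, zero_add] at h1
    rcases hp0 with h | h <;> rw [h] at h1 <;> norm_num at h1
  have hint2 : IsIntegral ℤ (aeval ξ p.divX) := by
    have h3 : aeval ξ p.divX ∈ Algebra.adjoin ℤ {ξ} := Polynomial.aeval_mem_adjoin_singleton ℤ ξ
    have h4 : Algebra.adjoin ℤ {ξ} ≤ integralClosure ℤ ℂ :=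
      Algebra.adjoin_le (by rintro _ rfl; exact hint)
    exact h4 h3
  refine ⟨hne, hint, ?_⟩
  rcases hp0 with h | h
  · have h5 : ξ⁻¹ = - aeval ξ p.divX := by
      rw [h] at h1
      have h6 : ξ * (- aeval ξ p.divX) = 1 := by
        push_cast at h1
        linear_combination -h1
      exact inv_eq_of_mul_eq_one_right h6
    rw [h5]
    exact hint2.neg
  · have h5 : ξ⁻¹ = aeval ξ p.divX := by
      rw [h] at h1
      have h6 : ξ * (aeval ξ p.divX) = 1 := by
        push_cast at h1
        linear_combination h1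
      exact inv_eq_of_mul_eq_one_right h6
    rw [h5]
    exact hint2

theorem rat_unit {a : ℚ} (h1 : IsIntegral ℤ ((a : ℚ) : ℂ)) (h2 : IsIntegral ℤ (((a : ℚ) : ℂ)⁻¹))
    (h0 : a ≠ 0) : a = 1 ∨ a = -1 := by
  have e1 : ((a : ℚ) : ℂ) = algebraMap ℚ ℂ a := rfl
  have e2 : (((a : ℚ) : ℂ)⁻¹) = algebraMap ℚ ℂ a⁻¹ := by rw [map_inv₀]; rfl
  rw [e2, isIntegral_algebraMap_iff (algebraMap ℚ ℂ).injective] at h2
  rw [e1, isIntegral_algebraMap_iff (algebraMap ℚ ℂ).injective] at h1
  obtain ⟨x, hx⟩ := IsIntegrallyClosed.isIntegral_iff.mp h1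
  obtain ⟨y, hy⟩ := IsIntegrallyClosed.isIntegral_iff.mp h2
  have hx' : (x : ℚ) = a := hx
  have hy' : (y : ℚ) = a⁻¹ := hy
  have h3 : x * y = 1 := by
    have : ((x * y : ℤ) : ℚ) = 1 := by
      push_cast
      rw [hx', hy', mul_inv_cancel₀ h0]
    exact_mod_cast this
  rcases Int.eq_one_or_neg_one_of_mul_eq_one h3 with h | h
  · left; rw [← hx', h]; rfl
  · right; rw [← hx', h]; rfl

/-- A power of a hyperbolic unimodular endomorphism has no rational eigenvalue. -/
theorem no_rat {N : Type*} [AddCommGroup N] [Module ℚ N] [FiniteDimensional ℚ N]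
    (f : Module.End ℚ N) (p : ℤ[X]) (hp : aeval f (p.map (Int.castRingHom ℚ)) = 0)
    (hmonic : p.Monic) (hp0 : p.coeff 0 = 1 ∨ p.coeff 0 = -1)
    (hroot : ∀ z : ℂ, (p.map (Int.castRingHom ℂ)).IsRoot z → ‖z‖ ≠ 1)
    (k : ℕ) (hk : 0 < k) (Λ : N →ₗ[ℚ] ℚ) (x : N) (a : ℚ)
    (h : ∀ m, Λ (((f ^ k) ^ m) x) = a ^ m) : False := by
  set h' := f ^ k with hh'
  have hΛ : ∀ q : ℚ[X], Λ (aeval h' q x) = q.eval a := by
    intro q
    induction q using Polynomial.induction_on' with
    | add p q hp hq => rw [map_add, LinearMap.add_apply, map_add, hp, hq, eval_add]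
    | monomial m c =>
      rw [aeval_monomial, Module.End.mul_apply, Module.algebraMap_end_apply, map_smul, h,
        eval_monomial, smul_eq_mul]
  by_cases hcop : IsCoprime (p.map (Int.castRingHom ℚ)) (X ^ k - C a)
  · obtain ⟨u, v, huv⟩ := hcop
    have h1 := congrArg (aeval f) huv
    rw [map_add, map_mul, map_mul, hp, mul_zero, zero_add, map_sub, map_pow, aeval_X, aeval_C,
      map_one, ← hh'] at h1
    have hint : IsIntegral ℚ h' := Algebra.IsIntegral.isIntegral h'
    have hμa : (minpoly ℚ h').IsRoot a := by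
      have h2 := hΛ (minpoly ℚ h')
      rw [minpoly.aeval, LinearMap.zero_apply, map_zero] at h2
      exact h2.symm
    obtain ⟨μ', hμ'⟩ := Polynomial.dvd_iff_isRoot.mpr hμa
    have hμ'0 : μ' ≠ 0 := by
      rintro rfl
      rw [mul_zero] at hμ'
      exact minpoly.ne_zero hint hμ'
    have h3 : aeval h' μ' = 0 := by
      have h4 : (h' - algebraMap ℚ (Module.End ℚ N) a) * aeval h' μ' = 0 := by
        have h5 := minpoly.aeval ℚ h'
        rw [hμ', map_mul, map_sub, aeval_X, aeval_C] at h5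
        exact h5
      calc aeval h' μ' = (aeval f v * (h' - algebraMap ℚ (Module.End ℚ N) a)) * aeval h' μ' := by
            rw [h1, one_mul]
        _ = 0 := by rw [mul_assoc, h4, mul_zero]
    have h6 := minpoly.degree_le_of_ne_zero ℚ h' hμ'0 h3
    rw [hμ', Polynomial.degree_mul, Polynomial.degree_X_sub_C] at h6
    have h7 : μ'.degree ≠ ⊥ := by rwa [Ne, Polynomial.degree_eq_bot]
    obtain ⟨d, hd⟩ : ∃ d : ℕ, μ'.degree = d := ⟨μ'.natDegree, Polynomial.degree_eq_natDegree hμ'0⟩
    rw [hd] at h6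
    have : (1 : ℕ) + d ≤ d := by exact_mod_cast h6
    omega
  · have hcop2 := (Polynomial.isCoprime_iff_aeval_ne_zero_of_isAlgClosed (k := ℚ) ℂ
      (p.map (Int.castRingHom ℚ)) (X ^ k - C a)).not.mp hcop
    clear hcop
    rename' hcop2 => hcop
    push Not at hcop
    obtain ⟨ξ, hξ1, hξ2⟩ := hcop
    have hξp : aeval ξ p = 0 := by
      have e1 : aeval ξ (p.map (Int.castRingHom ℚ)) = aeval ξ p := by
        have := Polynomial.aeval_map_algebraMap (R := ℤ) ℚ ξ p
        exact this
      rw [← e1]; exact hξ1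
    have hξa : ξ ^ k = ((a : ℚ) : ℂ) := by
      rw [map_sub, map_pow, aeval_X, aeval_C, sub_eq_zero] at hξ2
      exact hξ2
    obtain ⟨hne, hi1, hi2⟩ := integral_inv_of_root hmonic hp0 hξp
    have ha1 : IsIntegral ℤ ((a : ℚ) : ℂ) := by rw [← hξa]; exact hi1.pow k
    have ha2 : IsIntegral ℤ (((a : ℚ) : ℂ)⁻¹) := by
      rw [← hξa, ← inv_pow]; exact hi2.pow k
    have ha0 : a ≠ 0 := by
      rintro rfl
      apply pow_ne_zero k hne
      rw [hξa]; simp
    have hnorm : ‖ξ‖ ^ k = 1 := by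
      rw [← norm_pow, hξa]
      rcases rat_unit ha1 ha2 ha0 with h | h <;> rw [h] <;> simp
    have hξn : ‖ξ‖ = 1 := (pow_eq_one_iff_of_nonneg (norm_nonneg _) hk.ne').mp hnorm
    refine hroot ξ ?_ hξn
    rw [Polynomial.IsRoot, Polynomial.eval_map, ← hξp, Polynomial.aeval_def]
    rfl

section InPblocks

variable {n : ℕ} {G : SimpleGraph (Fin n)}

theorem InP.pow_single {D : Matrix (Fin n) (Fin n) ℚ} (hD : InP G D) {i : Fin n}
    (hi : ∀ j, Q G i j → j = i) (m : ℕ) : (D ^ m) i i = (D i i) ^ m := by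
  classical
  induction m with
  | zero => simp
  | succ m ih =>
    rw [pow_succ, InP.mul_apply_class (hD.pow m) hD (Q_refl G i), Finset.sum_eq_single i, ih,
      pow_succ]
    · intro j hj hji
      exact absurd (hi j (Finset.mem_filter.mp hj).2) hji
    · intro hn
      exact absurd (Finset.mem_filter.mpr ⟨Finset.mem_univ i, Q_refl G i⟩) hn

theorem InP.mul_pair {D D' : Matrix (Fin n) (Fin n) ℚ} (hD : InP G D) (hD' : InP G D')
    {i j : Fin n} (hne : i ≠ j)
    (hij : Q G i j) (hi : ∀ l, Q G i l → l = i ∨ l = j) {a b : Fin n} (ha : Q G i a)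
    (hb : Q G i b) : (D * D') a b = D a i * D' i b + D a j * D' j b := by
  classical
  rw [InP.mul_apply_class hD hD' (Q_trans G (Q_symm G ha) hb)]
  have hset : Finset.univ.filter (fun k => Q G a k) = {i, j} := by
    ext k
    rw [Finset.mem_filter, Finset.mem_insert, Finset.mem_singleton]
    constructor
    · intro h
      exact hi k (Q_trans G ha h.2)
    · rintro (rfl | rfl)
      · exact ⟨Finset.mem_univ _, Q_symm G ha⟩
      · exact ⟨Finset.mem_univ _, Q_trans G (Q_symm G ha) hij⟩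
  rw [hset, Finset.sum_pair hne]

theorem InP.det_pow {D : Matrix (Fin n) (Fin n) ℚ} (hD : InP G D) {i j : Fin n} (hne : i ≠ j)
    (hij : Q G i j) (hi : ∀ l, Q G i l → l = i ∨ l = j) (m : ℕ) :
    (D ^ m) i i * (D ^ m) j j - (D ^ m) j i * (D ^ m) i j
      = (D i i * D j j - D j i * D i j) ^ m := by
  induction m with
  | zero => simp [hne, hne.symm]
  | succ m ih =>
    rw [pow_succ, InP.mul_pair (hD.pow m) hD hne hij hi (Q_refl G i) (Q_refl G i),
      InP.mul_pair (hD.pow m) hD hne hij hi hij hij,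
      InP.mul_pair (hD.pow m) hD hne hij hi hij (Q_refl G i),
      InP.mul_pair (hD.pow m) hD hne hij hi (Q_refl G i) hij, pow_succ, ← ih]
    ring

/-- Some power of a normalising matrix lies in the algebra. -/
theorem exists_pow_inP {F F' : Matrix (Fin n) (Fin n) ℚ} (h1 : F' * F = 1) (h2 : F * F' = 1)
    (hF : ∀ D : Matrix (Fin n) (Fin n) ℚ, InP G D → InP G (F' * D * F))
    (hF' : ∀ D : Matrix (Fin n) (Fin n) ℚ, InP G D → InP G (F * D * F')) :
    ∃ k, 0 < k ∧ InP G (F ^ k) := by
  classical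
  let 𝓛 := {U : Submodule ℚ (Fin n → ℚ) //
    ∀ D : Matrix (Fin n) (Fin n) ℚ, InP G D → ∀ x ∈ U, D *ᵥ x ∈ U}
  have hfin : Finite 𝓛 := by
    let Φ : 𝓛 → Finset (Fin n) := fun U => Finset.univ.filter (fun i => Pi.single i (1:ℚ) ∈ U.1)
    apply Finite.of_injective Φ
    intro U V hUV
    have key : ∀ U V : 𝓛, Φ U = Φ V → U.1 ≤ V.1 := by
      intro U V hUV x hx
      have hx1 : ∀ i, x i ≠ 0 → Pi.single i (1:ℚ) ∈ V.1 := by
        intro i hi
        have h3 : InP G (Matrix.single i i (1:ℚ)) := by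
          intro w v hwv
          rw [Matrix.single_apply, if_neg]
          rintro ⟨rfl, rfl⟩
          exact hwv (P_refl G _)
        have h4 := U.2 _ h3 x hx
        have h5 : Matrix.single i i (1:ℚ) *ᵥ x = x i • Pi.single i (1:ℚ) := by
          funext a
          by_cases ha : a = i
          · subst ha
            simp [Matrix.mulVec, dotProduct, Matrix.single_apply]
          · simp [Matrix.mulVec, dotProduct, ha, Ne.symm ha]
        rw [h5] at h4
        have h6 : Pi.single i (1:ℚ) ∈ U.1 := by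
          have := U.1.smul_mem (x i)⁻¹ h4
          rwa [smul_smul, inv_mul_cancel₀ hi, one_smul] at this
        have h7 : i ∈ Φ U := Finset.mem_filter.mpr ⟨Finset.mem_univ i, h6⟩
        rw [hUV] at h7
        exact (Finset.mem_filter.mp h7).2
      have hx2 : x = ∑ i, x i • Pi.single i (1:ℚ) := by
        funext a
        rw [Finset.sum_apply, Finset.sum_eq_single a]
        · simp
        · intro b _ hb; simp [hb.symm]
        · simp
      rw [hx2]
      refine Submodule.sum_mem _ fun i _ => ?_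
      by_cases hi : x i = 0
      · rw [hi, zero_smul]; exact Submodule.zero_mem _
      · exact Submodule.smul_mem _ _ (hx1 i hi)
    exact Subtype.ext (le_antisymm (key U V hUV) (key V U hUV.symm))
  have hmap : ∀ (A A' : Matrix (Fin n) (Fin n) ℚ), A * A' = 1 →
      (∀ D : Matrix (Fin n) (Fin n) ℚ, InP G D → InP G (A' * D * A)) → ∀ U : 𝓛,
      ∀ D : Matrix (Fin n) (Fin n) ℚ, InP G D → ∀ x ∈ U.1.map (Matrix.mulVecLin A),
        D *ᵥ x ∈ U.1.map (Matrix.mulVecLin A) := by
    intro A A' hAA hA U D hD x hx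
    obtain ⟨u, hu, rfl⟩ := hx
    refine ⟨(A' * D * A) *ᵥ u, U.2 _ (hA D hD) u hu, ?_⟩
    rw [Matrix.mulVecLin_apply, Matrix.mulVecLin_apply, Matrix.mulVec_mulVec,
      Matrix.mulVec_mulVec, ← Matrix.mul_assoc, ← Matrix.mul_assoc, hAA, Matrix.one_mul]
  let Φ : Equiv.Perm 𝓛 :=
    { toFun := fun U => ⟨U.1.map (Matrix.mulVecLin F), hmap F F' h2 hF U⟩
      invFun := fun U => ⟨U.1.map (Matrix.mulVecLin F'), hmap F' F h1 hF' U⟩
      left_inv := by
        intro U
        apply Subtype.ext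
        change (U.1.map (Matrix.mulVecLin F)).map (Matrix.mulVecLin F') = U.1
        rw [← Submodule.map_comp, ← Matrix.mulVecLin_mul, h1, Matrix.mulVecLin_one,
          Submodule.map_id]
      right_inv := by
        intro U
        apply Subtype.ext
        change (U.1.map (Matrix.mulVecLin F')).map (Matrix.mulVecLin F) = U.1
        rw [← Submodule.map_comp, ← Matrix.mulVecLin_mul, h2, Matrix.mulVecLin_one,
          Submodule.map_id] }
  have hΦk : ∀ (k : ℕ) (U : 𝓛), ((Φ ^ k) U).1 = U.1.map (Matrix.mulVecLin (F ^ k)) := by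
    intro k
    induction k with
    | zero =>
      intro U
      rw [pow_zero, pow_zero, Matrix.mulVecLin_one, Submodule.map_id]
      rfl
    | succ k ih =>
      intro U
      rw [pow_succ', Equiv.Perm.mul_apply, pow_succ', Matrix.mulVecLin_mul, Submodule.map_comp,
        ← ih]
      rfl
  refine ⟨orderOf Φ, orderOf_pos Φ, ?_⟩
  intro w v hwv
  let Uv : 𝓛 := ⟨{ carrier := {x | ∀ w, ¬ P G w v → x w = 0}
                   zero_mem' := fun _ _ => rfl
                   add_mem' := fun {a b} ha hb w hw => by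
                    rw [Pi.add_apply, ha w hw, hb w hw, add_zero]
                   smul_mem' := fun c {a} ha w hw => by
                    rw [Pi.smul_apply, ha w hw, smul_zero] }, by
    intro D hD x hx w hw
    change ∑ a, D w a * x a = 0
    refine Finset.sum_eq_zero fun a _ => ?_
    by_cases ha : P G a v
    · have : ¬ P G w a := fun h => hw (P_trans G h ha)
      rw [hD w a this, zero_mul]
    · rw [hx a ha, mul_zero]⟩
  have h3 := hΦk (orderOf Φ) Uv
  rw [pow_orderOf_eq_one] at h3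
  have h4 : (F ^ orderOf Φ) *ᵥ (Pi.single v (1:ℚ)) ∈ Uv.1 := by
    have h5 : Uv.1 = Uv.1.map (Matrix.mulVecLin (F ^ orderOf Φ)) := h3
    rw [h5]
    refine ⟨Pi.single v 1, ?_, rfl⟩
    intro w' hw'
    rw [Pi.single_apply, if_neg]
    rintro rfl
    exact hw' (P_refl G _)
  have h6 := h4 w hwv
  rw [Matrix.mulVec_single_one] at h6
  exact h6

end InPblocks

end Pool.Agent.V11110.GL
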