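import Pool.Agent.V11110.GL7

/-!
The graph Lie algebra.
-/

set_option autoImplicit false

open Matrix Polynomial

namespace Pool.Agent.V11110.GL

variable {n : ℕ} {G : SimpleGraph (Fin n)} {N : Type*} [LieRing N] [LieAlgebra ℚ N]

/-- The bracket relations of the graph Lie algebra. -/
structure GraphBasis (b : Module.Basis (Fin n ⊕ G.edgeSet) ℚ N) : Prop where
  br1 : ∀ (i j : Fin n) (h : G.Adj i j), i < j →
    ⁅b (Sum.inl i), b (Sum.inl j)⁆ = b (Sum.inr ⟨s(i, j), G.mem_edgeSet.mpr h⟩)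
  br2 : ∀ i j : Fin n, ¬ G.Adj i j → ⁅b (Sum.inl i), b (Sum.inl j)⁆ = 0
  br3 : ∀ (e : G.edgeSet) (k : Fin n ⊕ G.edgeSet), ⁅b (Sum.inr e), b k⁆ = 0

namespace GraphBasis

variable {b : Module.Basis (Fin n ⊕ G.edgeSet) ℚ N} (hb : GraphBasis b)

/-- The vertex coordinates. -/
noncomputable def co (b : Module.Basis (Fin n ⊕ G.edgeSet) ℚ N) (i : Fin n) : N →ₗ[ℚ] ℚ :=
  b.coord (Sum.inl i)

include hb

theorem bracket_expand (x y : N) :
    ⁅x, y⁆ = ∑ i, ∑ j, (co b i x * co b j y) • ⁅b (Sum.inl i), b (Sum.inl j)⁆ := by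
  classical
  letI : Fintype G.edgeSet := Fintype.ofFinite _
  have hx := b.sum_repr x
  have hy := b.sum_repr y
  rw [Fintype.sum_sum_type] at hx hy
  have hbe : ∀ (k : Fin n ⊕ G.edgeSet) (e : G.edgeSet), ⁅b k, b (Sum.inr e)⁆ = 0 := by
    intro k e
    rw [← lie_skew, hb.br3, neg_zero]
  have h1 : ∀ z : N, ⁅∑ e : G.edgeSet, b.repr x (Sum.inr e) • b (Sum.inr e), z⁆ = 0 := by
    intro z
    rw [sum_lie]
    refine Finset.sum_eq_zero fun e _ => ?_
    rw [smul_lie]
    have h2 : ⁅b (Sum.inr e), z⁆ = 0 := by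
      conv_lhs => rw [← b.sum_repr z]
      rw [lie_sum]
      refine Finset.sum_eq_zero fun k _ => ?_
      rw [lie_smul, hb.br3, smul_zero]
    rw [h2, smul_zero]
  have h2 : ∀ z : N, ⁅z, ∑ e : G.edgeSet, b.repr y (Sum.inr e) • b (Sum.inr e)⁆ = 0 := by
    intro z
    rw [lie_sum]
    refine Finset.sum_eq_zero fun e _ => ?_
    rw [lie_smul]
    have h2 : ⁅z, b (Sum.inr e)⁆ = 0 := by
      conv_lhs => rw [← b.sum_repr z]
      rw [sum_lie]
      refine Finset.sum_eq_zero fun k _ => ?_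
      rw [smul_lie, hbe, smul_zero]
    rw [h2, smul_zero]
  conv_lhs => rw [← hx, ← hy]
  rw [add_lie, h1, add_zero, lie_add, h2, add_zero, sum_lie]
  refine Finset.sum_congr rfl fun i _ => ?_
  rw [lie_sum]
  refine Finset.sum_congr rfl fun j _ => ?_
  rw [smul_lie, lie_smul, smul_smul]
  rfl

theorem co_bracket (i : Fin n) (x y : N) : co b i ⁅x, y⁆ = 0 := by
  rw [hb.bracket_expand, map_sum]
  refine Finset.sum_eq_zero fun k _ => ?_
  rw [map_sum]
  refine Finset.sum_eq_zero fun l _ => ?_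
  rw [map_smul]
  have h1 : co b i ⁅b (Sum.inl k), b (Sum.inl l)⁆ = 0 := by
    by_cases h : G.Adj k l
    · rcases lt_trichotomy k l with hlt | heq | hgt
      · rw [hb.br1 k l h hlt]
        simp [co, Module.Basis.coord_apply]
      · exact absurd heq h.ne
      · rw [← lie_skew, hb.br1 l k h.symm hgt]
        simp [co, Module.Basis.coord_apply]
    · rw [hb.br2 k l h, map_zero]
  rw [h1, smul_zero]

theorem edge_eq_bracket (E : G.edgeSet) :
    ∃ i j : Fin n, b (Sum.inr E) = ⁅b (Sum.inl i), b (Sum.inl j)⁆ := by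
  obtain ⟨E, hE⟩ := E
  induction E using Sym2.ind with
  | _ x y =>
    have hadj : G.Adj x y := G.mem_edgeSet.mp hE
    rcases lt_trichotomy x y with hlt | heq | hgt
    · exact ⟨x, y, (hb.br1 x y hadj hlt).symm⟩
    · exact absurd heq hadj.ne
    · refine ⟨y, x, ?_⟩
      rw [hb.br1 y x hadj.symm hgt]
      congr 2
      exact Subtype.ext Sym2.eq_swap

/-- Forms come from functionals. -/
theorem exists_psi {K : Type*} [Field K] [Algebra ℚ K] {e : Matrix (Fin n) (Fin n) K}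
    (he : Form G e) : ∃ ψ : N →ₗ[ℚ] K, (∀ i j, ψ ⁅b (Sum.inl i), b (Sum.inl j)⁆ = e i j) ∧
      ∀ i, ψ (b (Sum.inl i)) = 0 := by
  let ψ : N →ₗ[ℚ] K := b.constr ℚ (Sum.elim (fun _ => 0) (fun E => e E.1.inf E.1.sup))
  have hψ : ∀ (E : G.edgeSet), ψ (b (Sum.inr E)) = e E.1.inf E.1.sup := by
    intro E
    simp [ψ, Module.Basis.constr_basis]
  refine ⟨ψ, fun i j => ?_, fun i => by simp [ψ, Module.Basis.constr_basis]⟩
  by_cases h : G.Adj i j
  · rcases lt_trichotomy i j with hlt | heq | hgt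
    · rw [hb.br1 i j h hlt, hψ]
      simp [hlt.le]
    · exact absurd heq h.ne
    · rw [← lie_skew, hb.br1 j i h.symm hgt, map_neg, hψ, he.1 i j]
      simp [hgt.le]
  · rw [hb.br2 i j h, map_zero, he.2 i j h]

theorem form_psi {K : Type*} [Field K] [Algebra ℚ K] (ψ : N →ₗ[ℚ] K) :
    Form G (Matrix.of fun i j => ψ ⁅b (Sum.inl i), b (Sum.inl j)⁆) := by
  refine ⟨fun i j => ?_, fun i j h => ?_⟩
  · rw [Matrix.of_apply, Matrix.of_apply, ← lie_skew, map_neg]
  · rw [Matrix.of_apply, hb.br2 i j h, map_zero]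

end GraphBasis

/-- A bracket preserving linear map and its matrix on the vertices. -/
structure Rep (b : Module.Basis (Fin n ⊕ G.edgeSet) ℚ N) (g : Module.End ℚ N)
    (X : Matrix (Fin n) (Fin n) ℚ) : Prop where
  lie : ∀ x y, g ⁅x, y⁆ = ⁅g x, g y⁆
  mat : ∀ x i, GraphBasis.co b i (g x) = ∑ j, X i j * GraphBasis.co b j x

theorem co_basis (b : Module.Basis (Fin n ⊕ G.edgeSet) ℚ N) (i j : Fin n) :
    GraphBasis.co b i (b (Sum.inl j)) = if i = j then 1 else 0 := by
  classical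
  rw [GraphBasis.co, Module.Basis.coord_apply, Module.Basis.repr_self, Finsupp.single_apply]
  by_cases h : i = j
  · subst h; simp
  · rw [if_neg h, if_neg]
    intro h'
    exact h (Sum.inl.inj h').symm

theorem Rep.one (b : Module.Basis (Fin n ⊕ G.edgeSet) ℚ N) : Rep b 1 1 := by
  refine ⟨fun x y => rfl, fun x i => ?_⟩
  rw [Finset.sum_eq_single i]
  · simp
  · intro j _ hj; rw [Matrix.one_apply_ne hj.symm, zero_mul]
  · simp

theorem Rep.mul {b : Module.Basis (Fin n ⊕ G.edgeSet) ℚ N} {g g' : Module.End ℚ N}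
    {X X' : Matrix (Fin n) (Fin n) ℚ} (h : Rep b g X) (h' : Rep b g' X') :
    Rep b (g * g') (X * X') := by
  refine ⟨fun x y => ?_, fun x i => ?_⟩
  · rw [Module.End.mul_apply, h'.lie, h.lie]; rfl
  · rw [Module.End.mul_apply, h.mat]
    simp only [h'.mat, Finset.mul_sum, Matrix.mul_apply, Finset.sum_mul]
    rw [Finset.sum_comm]
    exact Finset.sum_congr rfl fun j _ => Finset.sum_congr rfl fun k _ => by ring

theorem Rep.pow {b : Module.Basis (Fin n ⊕ G.edgeSet) ℚ N} {g : Module.End ℚ N}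
    {X : Matrix (Fin n) (Fin n) ℚ} (h : Rep b g X) (m : ℕ) : Rep b (g ^ m) (X ^ m) := by
  induction m with
  | zero => rw [pow_zero, pow_zero]; exact Rep.one b
  | succ m ih => rw [pow_succ, pow_succ]; exact ih.mul h

theorem exists_rep_end {b : Module.Basis (Fin n ⊕ G.edgeSet) ℚ N} (hb : GraphBasis b)
    (g : Module.End ℚ N) (hg : ∀ x y, g ⁅x, y⁆ = ⁅g x, g y⁆) :
    Rep b g (Matrix.of fun i j => GraphBasis.co b i (g (b (Sum.inl j)))) := by
  classical
  letI : Fintype G.edgeSet := Fintype.ofFinite _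
  refine ⟨hg, fun x i => ?_⟩
  conv_lhs => rw [← b.sum_repr x]
  rw [Fintype.sum_sum_type, map_add, map_add, map_sum, map_sum, map_sum, map_sum]
  have h1 : ∑ e : G.edgeSet, GraphBasis.co b i (g (b.repr x (Sum.inr e) • b (Sum.inr e))) = 0 := by
    refine Finset.sum_eq_zero fun e _ => ?_
    obtain ⟨k, l, hkl⟩ := hb.edge_eq_bracket e
    rw [map_smul, map_smul, hkl, hg, hb.co_bracket, smul_zero]
  rw [h1, add_zero]
  refine Finset.sum_congr rfl fun j _ => ?_
  rw [map_smul, map_smul, smul_eq_mul, Matrix.of_apply, mul_comm]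
  rfl

/-- Congruence action on forms. -/
theorem Rep.form {b : Module.Basis (Fin n ⊕ G.edgeSet) ℚ N} (hb : GraphBasis b)
    {g : Module.End ℚ N} {X : Matrix (Fin n) (Fin n) ℚ} (h : Rep b g X) {K : Type*} [Field K]
    [Algebra ℚ K] (ψ : N →ₗ[ℚ] K) (i j : Fin n) :
    ψ (g ⁅b (Sum.inl i), b (Sum.inl j)⁆)
      = ∑ k, ∑ l, (X k i * X l j) • ψ ⁅b (Sum.inl k), b (Sum.inl l)⁆ := by
  have hc : ∀ k i, GraphBasis.co b k (g (b (Sum.inl i))) = X k i := by
    intro k i
    rw [h.mat, Finset.sum_eq_single i]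
    · rw [co_basis, if_pos rfl, mul_one]
    · intro j _ hj; rw [co_basis, if_neg hj, mul_zero]
    · simp
  rw [h.lie, hb.bracket_expand, map_sum]
  refine Finset.sum_congr rfl fun k _ => ?_
  rw [map_sum]
  refine Finset.sum_congr rfl fun l _ => ?_
  rw [map_smul, hc, hc]

theorem form_transport {b : Module.Basis (Fin n ⊕ G.edgeSet) ℚ N} (hb : GraphBasis b)
    {g : Module.End ℚ N} {X : Matrix (Fin n) (Fin n) ℚ} (h : Rep b g X)
    {e : Matrix (Fin n) (Fin n) ℚ} (he : Form G e) : Form G (Xᵀ * e * X) := by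
  obtain ⟨ψ, hψ, _⟩ := hb.exists_psi he
  have h1 : Xᵀ * e * X
      = Matrix.of fun i j => (ψ.comp g) ⁅b (Sum.inl i), b (Sum.inl j)⁆ := by
    ext i j
    rw [Matrix.of_apply, LinearMap.comp_apply, h.form hb]
    simp only [Matrix.mul_apply, Matrix.transpose_apply, Finset.sum_mul]
    rw [Finset.sum_comm]
    refine Finset.sum_congr rfl fun k _ => Finset.sum_congr rfl fun l _ => ?_
    rw [hψ, smul_eq_mul]; ring
  rw [h1]
  exact hb.form_psi _

/-- Consequences for the graph. -/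
theorem graph_of_anosov [FiniteDimensional ℚ N] {b : Module.Basis (Fin n ⊕ G.edgeSet) ℚ N}
    (hb : GraphBasis b) (f f' : Module.End ℚ N) (hf : ∀ x y, f ⁅x, y⁆ = ⁅f x, f y⁆)
    (hf' : ∀ x y, f' ⁅x, y⁆ = ⁅f' x, f' y⁆) (hff : f' * f = 1) (hff' : f * f' = 1)
    (p : ℤ[X]) (hp : aeval f (p.map (Int.castRingHom ℚ)) = 0)
    (hmonic : p.Monic) (hp0 : p.coeff 0 = 1 ∨ p.coeff 0 = -1)
    (hroot : ∀ z : ℂ, (p.map (Int.castRingHom ℂ)).IsRoot z → ‖z‖ ≠ 1) :
    (∀ i, ∃ j, j ≠ i ∧ Q G i j) ∧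
      ∀ i j, G.Adj i j → Q G i j → ∃ k, k ≠ i ∧ k ≠ j ∧ Q G i k := by
  have hF := exists_rep_end hb f hf
  have hF' := exists_rep_end hb f' hf'
  set F : Matrix (Fin n) (Fin n) ℚ := Matrix.of fun i j => GraphBasis.co b i (f (b (Sum.inl j)))
  set F' : Matrix (Fin n) (Fin n) ℚ := Matrix.of fun i j => GraphBasis.co b i (f' (b (Sum.inl j)))
  have huniq : ∀ (g : Module.End ℚ N) (X Y : Matrix (Fin n) (Fin n) ℚ), Rep b g X → Rep b g Y →
      X = Y := by
    intro g X Y hX hY
    have hc : ∀ (X : Matrix (Fin n) (Fin n) ℚ), Rep b g X → ∀ k i,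
        GraphBasis.co b k (g (b (Sum.inl i))) = X k i := by
      intro X hX k i
      rw [hX.mat, Finset.sum_eq_single i]
      · rw [co_basis, if_pos rfl, mul_one]
      · intro j _ hj; rw [co_basis, if_neg hj, mul_zero]
      · simp
    ext k i
    rw [← hc X hX, ← hc Y hY]
  have h1 : F' * F = 1 := huniq 1 _ _ (by rw [← hff]; exact hF'.mul hF) (Rep.one b)
  have h2 : F * F' = 1 := huniq 1 _ _ (by rw [← hff']; exact hF.mul hF') (Rep.one b)
  -- normalisation
  have hnorm : ∀ (A A' : Matrix (Fin n) (Fin n) ℚ), A' * A = 1 → A * A' = 1 →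
      (∀ e : Matrix (Fin n) (Fin n) ℚ, Form G e → Form G (Aᵀ * e * A)) →
      (∀ e : Matrix (Fin n) (Fin n) ℚ, Form G e → Form G (A'ᵀ * e * A')) →
      ∀ D : Matrix (Fin n) (Fin n) ℚ, InP G D → InP G (A' * D * A) := by
    intro A A' hA1 hA2 hA hA' D hD
    apply inP_of_deriv
    intro e he
    have t1 : Aᵀ * A'ᵀ = 1 := by rw [← Matrix.transpose_mul, hA1, Matrix.transpose_one]
    have h3 := hA _ ((hA' e he).deriv hD)
    have h4 : Aᵀ * (Dᵀ * (A'ᵀ * e * A') + (A'ᵀ * e * A') * D) * A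
        = (A' * D * A)ᵀ * e + e * (A' * D * A) := by
      have e1 : (A' * D * A)ᵀ = Aᵀ * Dᵀ * A'ᵀ := by
        rw [Matrix.transpose_mul, Matrix.transpose_mul, Matrix.mul_assoc]
      calc Aᵀ * (Dᵀ * (A'ᵀ * e * A') + (A'ᵀ * e * A') * D) * A
          = Aᵀ * Dᵀ * A'ᵀ * e * (A' * A) + (Aᵀ * A'ᵀ) * e * (A' * D * A) := by
            simp only [Matrix.mul_add, Matrix.add_mul, Matrix.mul_assoc]
        _ = _ := by rw [hA1, t1, Matrix.mul_one, Matrix.one_mul, e1]
    rwa [h4] at h3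
  have hFf := fun (e : Matrix (Fin n) (Fin n) ℚ) (he : Form G e) => form_transport hb hF he
  have hFf' := fun (e : Matrix (Fin n) (Fin n) ℚ) (he : Form G e) => form_transport hb hF' he
  obtain ⟨k, hk, hP⟩ := exists_pow_inP h1 h2 (hnorm F F' h1 h2 hFf hFf')
    (hnorm F' F h2 h1 hFf' hFf)
  have hH : Rep b (f ^ k) (F ^ k) := hF.pow k
  constructor
  · intro i
    by_contra hcon
    push Not at hcon
    have hi : ∀ j, Q G i j → j = i := by
      intro j hj
      by_contra hji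
      exact hcon j hji hj
    refine no_rat f p hp hmonic hp0 hroot k hk (GraphBasis.co b i) (b (Sum.inl i))
      ((F ^ k) i i) fun m => ?_
    have h3 := hH.pow m
    rw [h3.mat, Finset.sum_eq_single i]
    · rw [co_basis, if_pos rfl, mul_one, hP.pow_single hi]
    · intro j _ hj; rw [co_basis, if_neg hj, mul_zero]
    · simp
  · intro i j hadj hij
    by_contra hcon
    push Not at hcon
    have hi : ∀ l, Q G i l → l = i ∨ l = j := by
      intro l hl
      by_contra hn
      push Not at hn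
      exact hcon l hn.1 hn.2 hl
    -- the form of the edge
    let e : Matrix (Fin n) (Fin n) ℚ := Matrix.single i j 1 - Matrix.single j i 1
    have hne : i ≠ j := hadj.ne
    have he : Form G e := by
      refine ⟨fun a c => ?_, fun a c hac => ?_⟩
      · simp only [e, Matrix.sub_apply, Matrix.single_apply]
        by_cases h1 : i = a ∧ j = c
        · obtain ⟨rfl, rfl⟩ := h1
          simp [hne, hne.symm]
        · by_cases h2 : j = a ∧ i = c
          · obtain ⟨rfl, rfl⟩ := h2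
            simp [hne, hne.symm]
          · have h3 : ¬ (i = c ∧ j = a) := fun h => h2 ⟨h.2, h.1⟩
            have h4 : ¬ (j = c ∧ i = a) := fun h => h1 ⟨h.2, h.1⟩
            simp [h1, h2, h3, h4]
      · simp only [e, Matrix.sub_apply, Matrix.single_apply]
        have h1 : ¬ (i = a ∧ j = c) := by rintro ⟨rfl, rfl⟩; exact hac hadj
        have h2 : ¬ (j = a ∧ i = c) := by rintro ⟨rfl, rfl⟩; exact hac hadj.symm
        simp [h1, h2]
    obtain ⟨ψ, hψ, _⟩ := hb.exists_psi he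
    refine no_rat f p hp hmonic hp0 hroot k hk ψ ⁅b (Sum.inl i), b (Sum.inl j)⁆
      ((F ^ k) i i * (F ^ k) j j - (F ^ k) j i * (F ^ k) i j) fun m => ?_
    have h3 := hH.pow m
    rw [h3.form hb, ← hP.det_pow hne hij hi]
    have h4 : ∀ a c, ((((F ^ k) ^ m) a i * ((F ^ k) ^ m) c j) •
        ψ ⁅b (Sum.inl a), b (Sum.inl c)⁆ : ℚ)
        = (if a = i then (if c = j then ((F ^ k) ^ m) i i * ((F ^ k) ^ m) j j else 0) else 0)
        - (if a = j then (if c = i then ((F ^ k) ^ m) j i * ((F ^ k) ^ m) i j else 0) else 0) := by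
      intro a c
      rw [hψ, smul_eq_mul]
      simp only [e, Matrix.sub_apply, Matrix.single_apply]
      by_cases ha : a = i
      · subst ha
        by_cases hc : c = j
        · subst hc; simp [hne]
        · simp [hne, hne.symm, hc, Ne.symm hc]
      · by_cases ha' : a = j
        · subst ha'
          by_cases hc : c = i
          · subst hc; simp [hne, hne.symm]
          · simp [hne, hne.symm, hc, Ne.symm hc]
        · simp [ha, ha', Ne.symm ha, Ne.symm ha']
    have hsum : ∀ (i j : Fin n) (v : ℚ),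
        ∑ a : Fin n, ∑ c : Fin n, (if a = i then (if c = j then v else 0) else 0) = v := by
      intro i j v
      rw [Finset.sum_eq_single i]
      · simp
      · intro a _ ha; simp [ha]
      · simp
    simp only [h4, Finset.sum_sub_distrib]
    rw [hsum, hsum]

end Pool.Agent.V11110.GL
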