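import Pool.Agent.V11110.GL8

/-!
Transfer of the structure through an isomorphism of the real forms.
-/

set_option autoImplicit false

open Matrix Polynomial
open scoped TensorProduct

namespace Pool.Agent.V11110.GL

section ext

variable {N : Type*} [AddCommGroup N] [Module ℚ N]

/-- Real extension of a functional. -/
noncomputable def ext (ψ : N →ₗ[ℚ] ℝ) : (ℝ ⊗[ℚ] N) →ₗ[ℝ] ℝ := ψ.liftBaseChange ℝ

theorem ext_tmul (ψ : N →ₗ[ℚ] ℝ) (r : ℝ) (x : N) : ext ψ (r ⊗ₜ x) = r * ψ x := by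
  simp [ext]

end ext

variable {n : ℕ} {G : SimpleGraph (Fin n)} {N : Type*} [LieRing N] [LieAlgebra ℚ N]
  {M : Type*} [LieRing M] [LieAlgebra ℚ M] {b : Module.Basis (Fin n ⊕ G.edgeSet) ℚ N}

/-- Real vertex coordinates. -/
noncomputable def cor (b : Module.Basis (Fin n ⊕ G.edgeSet) ℚ N) (i : Fin n) :
    (ℝ ⊗[ℚ] N) →ₗ[ℝ] ℝ := ext ((Algebra.linearMap ℚ ℝ).comp (GraphBasis.co b i))

theorem cor_tmul (b : Module.Basis (Fin n ⊕ G.edgeSet) ℚ N) (i : Fin n) (r : ℝ) (x : N) :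
    cor b i (r ⊗ₜ x) = r * ((GraphBasis.co b i x : ℚ) : ℝ) := by
  rw [cor, ext_tmul]
  rfl

theorem real_bracket (hb : GraphBasis b) (ψ : N →ₗ[ℚ] ℝ) (u v : ℝ ⊗[ℚ] N) :
    ext ψ ⁅u, v⁆
      = ∑ i, ∑ j, cor b i u * cor b j v * ψ ⁅b (Sum.inl i), b (Sum.inl j)⁆ := by
  induction u using TensorProduct.induction_on with
  | zero => simp
  | add u u' hu hu' =>
    rw [add_lie, map_add, hu, hu', ← Finset.sum_add_distrib]
    refine Finset.sum_congr rfl fun i _ => ?_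
    rw [← Finset.sum_add_distrib]
    refine Finset.sum_congr rfl fun j _ => ?_
    rw [map_add]; ring
  | tmul r x =>
    induction v using TensorProduct.induction_on with
    | zero => simp
    | add v v' hv hv' =>
      rw [lie_add, map_add, hv, hv', ← Finset.sum_add_distrib]
      refine Finset.sum_congr rfl fun i _ => ?_
      rw [← Finset.sum_add_distrib]
      refine Finset.sum_congr rfl fun j _ => ?_
      rw [map_add]; ring
    | tmul s y =>
      rw [LieAlgebra.ExtendScalars.bracket_tmul, ext_tmul, hb.bracket_expand x y, map_sum,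
        Finset.mul_sum]
      refine Finset.sum_congr rfl fun i _ => ?_
      rw [map_sum, Finset.mul_sum]
      refine Finset.sum_congr rfl fun j _ => ?_
      rw [map_smul, cor_tmul, cor_tmul, Rat.smul_def]
      push_cast
      ring

theorem cor_bracket (hb : GraphBasis b) (i : Fin n) (u v : ℝ ⊗[ℚ] N) : cor b i ⁅u, v⁆ = 0 := by
  rw [cor, real_bracket hb]
  refine Finset.sum_eq_zero fun k _ => Finset.sum_eq_zero fun l _ => ?_
  rw [LinearMap.comp_apply, hb.co_bracket, map_zero, mul_zero]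

theorem ext_eq_of_edges (χ : N →ₗ[ℚ] ℝ)
    (hχ : ∀ E, χ (b (Sum.inr E)) = 0) (v : ℝ ⊗[ℚ] N) :
    ext χ v = ∑ i, cor b i v * χ (b (Sum.inl i)) := by
  classical
  let _ : Fintype G.edgeSet := Fintype.ofFinite _
  induction v using TensorProduct.induction_on with
  | zero => simp
  | add v v' hv hv' =>
    rw [map_add, hv, hv', ← Finset.sum_add_distrib]
    refine Finset.sum_congr rfl fun i _ => ?_
    rw [map_add]; ring
  | tmul r x =>
    rw [ext_tmul]
    have hx : χ x = ∑ i, ((GraphBasis.co b i x : ℚ) : ℝ) * χ (b (Sum.inl i)) := by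
      conv_lhs => rw [← b.sum_repr x]
      rw [Fintype.sum_sum_type, map_add, map_sum, map_sum]
      have h1 : ∑ e : G.edgeSet, χ (b.repr x (Sum.inr e) • b (Sum.inr e)) = 0 :=
        Finset.sum_eq_zero fun e _ => by rw [map_smul, hχ, smul_zero]
      rw [h1, add_zero]
      refine Finset.sum_congr rfl fun i _ => ?_
      rw [map_smul, Rat.smul_def]
      rfl
    rw [hx, Finset.mul_sum]
    refine Finset.sum_congr rfl fun i _ => ?_
    rw [cor_tmul]; ring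

/-- The data carried by a rational form. -/
structure MData (G : SimpleGraph (Fin n)) (M : Type*) [LieRing M] [LieAlgebra ℚ M]
    (α : Fin n → (M →ₗ[ℚ] ℝ)) : Prop where
  t1 : ∀ ψ : M →ₗ[ℚ] ℝ, ∃ S : Matrix (Fin n) (Fin n) ℝ, Form G S ∧
    ∀ x y : M, ψ ⁅x, y⁆ = ∑ i, ∑ j, α i x * α j y * S i j
  t2 : ∀ S : Matrix (Fin n) (Fin n) ℝ, Form G S → ∃ ψ : M →ₗ[ℚ] ℝ,
    ∀ x y : M, ψ ⁅x, y⁆ = ∑ i, ∑ j, α i x * α j y * S i j
  t3 : ∀ i (x y : M), α i ⁅x, y⁆ = 0
  t4 : ∀ v : Fin n → ℝ, v ∈ Submodule.span ℝ (Set.range fun m => (fun i => α i m))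
  t5 : ∀ (k : ℕ) (r : Fin k → ℝ) (m : Fin k → M), (∀ i, ∑ l, r l * α i (m l) = 0) →
    ∀ ψ : M →ₗ[ℚ] ℝ, (∀ x y : M, ψ ⁅x, y⁆ = 0) → ∑ l, r l * ψ (m l) = 0

theorem ext_bracket_zero {ψ : M →ₗ[ℚ] ℝ} (hψ : ∀ x y : M, ψ ⁅x, y⁆ = 0) (u v : ℝ ⊗[ℚ] M) :
    ext ψ ⁅u, v⁆ = 0 := by
  induction u using TensorProduct.induction_on with
  | zero => simp
  | add u u' hu hu' => rw [add_lie, map_add, hu, hu', add_zero]
  | tmul r x =>
    induction v using TensorProduct.induction_on with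
    | zero => simp
    | add v v' hv hv' => rw [lie_add, map_add, hv, hv', add_zero]
    | tmul s y => rw [LieAlgebra.ExtendScalars.bracket_tmul, ext_tmul, hψ, mul_zero]

theorem exists_MData (hb : GraphBasis b) (φ : (ℝ ⊗[ℚ] M) ≃ₗ⁅ℝ⁆ (ℝ ⊗[ℚ] N)) :
    ∃ α : Fin n → (M →ₗ[ℚ] ℝ), MData G M α := by
  classical
  let α : Fin n → (M →ₗ[ℚ] ℝ) := fun i =>
    { toFun := fun m => cor b i (φ ((1:ℝ) ⊗ₜ m))
      map_add' := fun x y => by rw [TensorProduct.tmul_add, map_add, map_add]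
      map_smul' := fun c x => by
        have h1 : (1:ℝ) ⊗ₜ[ℚ] (c • x) = (c : ℝ) • ((1:ℝ) ⊗ₜ[ℚ] x) := by
          rw [TensorProduct.smul_tmul', smul_eq_mul, mul_one, ← TensorProduct.smul_tmul]
          congr 1
          rw [Rat.smul_def, mul_one]
        rw [h1, map_smul, map_smul, RingHom.id_apply, Rat.smul_def, smul_eq_mul] }
  have hα : ∀ i m, α i m = cor b i (φ ((1:ℝ) ⊗ₜ m)) := fun _ _ => rfl
  -- transport of functionals
  have hpull : ∀ ψ : M →ₗ[ℚ] ℝ, ∃ χ : N →ₗ[ℚ] ℝ, ∀ v, ext χ v = ext ψ (φ.symm v) := by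
    intro ψ
    let χ : N →ₗ[ℚ] ℝ :=
      { toFun := fun x => ext ψ (φ.symm ((1:ℝ) ⊗ₜ x))
        map_add' := fun x y => by rw [TensorProduct.tmul_add, map_add, map_add]
        map_smul' := fun c x => by
          have h1 : (1:ℝ) ⊗ₜ[ℚ] (c • x) = (c : ℝ) • ((1:ℝ) ⊗ₜ[ℚ] x) := by
            rw [TensorProduct.smul_tmul', smul_eq_mul, mul_one, ← TensorProduct.smul_tmul]
            congr 1
            rw [Rat.smul_def, mul_one]
          rw [h1, map_smul, map_smul, RingHom.id_apply, Rat.smul_def, smul_eq_mul] }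
    refine ⟨χ, fun v => ?_⟩
    induction v using TensorProduct.induction_on with
    | zero => simp
    | add v v' hv hv' => rw [map_add, hv, hv', map_add, map_add]
    | tmul r x =>
      have h1 : r ⊗ₜ[ℚ] x = r • ((1:ℝ) ⊗ₜ[ℚ] x) := by
        rw [TensorProduct.smul_tmul', smul_eq_mul, mul_one]
      rw [h1, map_smul, map_smul, map_smul, ext_tmul, one_mul]
      rfl
  have hbr : ∀ x y : M, φ ((1:ℝ) ⊗ₜ[ℚ] ⁅x, y⁆) = ⁅φ ((1:ℝ) ⊗ₜ[ℚ] x), φ ((1:ℝ) ⊗ₜ[ℚ] y)⁆ := by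
    intro x y
    rw [← LieEquiv.map_lie, LieAlgebra.ExtendScalars.bracket_tmul, mul_one]
  refine ⟨α, ?_, ?_, ?_, ?_, ?_⟩
  · intro ψ
    obtain ⟨χ, hχ⟩ := hpull ψ
    refine ⟨_, hb.form_psi χ, fun x y => ?_⟩
    have h1 : ψ ⁅x, y⁆ = ext χ (φ ((1:ℝ) ⊗ₜ[ℚ] ⁅x, y⁆)) := by
      rw [hχ, LieEquiv.symm_apply_apply, ext_tmul, one_mul]
    rw [h1, hbr, real_bracket hb]
    rfl
  · intro S hS
    obtain ⟨χ, hχ, _⟩ := hb.exists_psi hS
    let ψ : M →ₗ[ℚ] ℝ :=
      { toFun := fun m => ext χ (φ ((1:ℝ) ⊗ₜ m))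
        map_add' := fun x y => by rw [TensorProduct.tmul_add, map_add, map_add]
        map_smul' := fun c x => by
          have h1 : (1:ℝ) ⊗ₜ[ℚ] (c • x) = (c : ℝ) • ((1:ℝ) ⊗ₜ[ℚ] x) := by
            rw [TensorProduct.smul_tmul', smul_eq_mul, mul_one, ← TensorProduct.smul_tmul]
            congr 1
            rw [Rat.smul_def, mul_one]
          rw [h1, map_smul, map_smul, RingHom.id_apply, Rat.smul_def, smul_eq_mul] }
    refine ⟨ψ, fun x y => ?_⟩
    change ext χ (φ ((1:ℝ) ⊗ₜ[ℚ] ⁅x, y⁆)) = _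
    rw [hbr, real_bracket hb]
    refine Finset.sum_congr rfl fun i _ => Finset.sum_congr rfl fun j _ => ?_
    rw [hχ, hα, hα]
  · intro i x y
    rw [hα, hbr, cor_bracket hb]
  · have key : ∀ u : ℝ ⊗[ℚ] M, (fun i => cor b i (φ u))
        ∈ Submodule.span ℝ (Set.range fun m => (fun i => α i m)) := by
      intro u
      induction u using TensorProduct.induction_on with
      | zero =>
        have : (fun i => cor b i (φ (0 : ℝ ⊗[ℚ] M))) = 0 := by funext i; simp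
        rw [this]; exact Submodule.zero_mem _
      | add u v hu hv =>
        have : (fun i => cor b i (φ (u + v)))
            = (fun i => cor b i (φ u)) + (fun i => cor b i (φ v)) := by
          funext i; rw [map_add, map_add]; rfl
        rw [this]; exact Submodule.add_mem _ hu hv
      | tmul r m =>
        have : (fun i => cor b i (φ (r ⊗ₜ[ℚ] m))) = r • (fun i => α i m) := by
          funext i
          have h1 : r ⊗ₜ[ℚ] m = r • ((1:ℝ) ⊗ₜ[ℚ] m) := by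
            rw [TensorProduct.smul_tmul', smul_eq_mul, mul_one]
          rw [h1, map_smul, map_smul]
          rfl
        rw [this]
        exact Submodule.smul_mem _ _ (Submodule.subset_span ⟨m, rfl⟩)
    intro v
    have hv : v = fun i => cor b i (φ (φ.symm (∑ j, v j • ((1:ℝ) ⊗ₜ[ℚ] b (Sum.inl j))))) := by
      funext i
      rw [LieEquiv.apply_symm_apply, map_sum, Finset.sum_eq_single i]
      · rw [map_smul, cor_tmul, co_basis, if_pos rfl]; simp
      · intro j _ hj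
        rw [map_smul, cor_tmul, co_basis, if_neg (Ne.symm hj)]; simp
      · simp
    rw [hv]
    exact key _
  · intro k r m hr ψ hψ
    obtain ⟨χ, hχ⟩ := hpull ψ
    let u : ℝ ⊗[ℚ] M := ∑ l, r l ⊗ₜ[ℚ] m l
    have h1 : ext ψ u = ∑ l, r l * ψ (m l) := by
      simp only [u, map_sum, ext_tmul]
    have h2 : ∀ i, cor b i (φ u) = 0 := by
      intro i
      rw [← hr i]
      simp only [u, map_sum]
      refine Finset.sum_congr rfl fun l _ => ?_
      have h3 : r l ⊗ₜ[ℚ] m l = r l • ((1:ℝ) ⊗ₜ[ℚ] m l) := by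
        rw [TensorProduct.smul_tmul', smul_eq_mul, mul_one]
      rw [h3, map_smul, map_smul]
      rfl
    have h4 : ∀ E, χ (b (Sum.inr E)) = 0 := by
      intro E
      obtain ⟨i, j, hE⟩ := hb.edge_eq_bracket E
      have h5 : χ (b (Sum.inr E)) = ext χ ((1:ℝ) ⊗ₜ[ℚ] b (Sum.inr E)) := by
        rw [ext_tmul, one_mul]
      have h6 : (1:ℝ) ⊗ₜ[ℚ] ⁅b (Sum.inl i), b (Sum.inl j)⁆
          = ⁅(1:ℝ) ⊗ₜ[ℚ] b (Sum.inl i), (1:ℝ) ⊗ₜ[ℚ] b (Sum.inl j)⁆ := by
        rw [LieAlgebra.ExtendScalars.bracket_tmul, mul_one]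
      rw [h5, hχ, hE, h6, LieEquiv.map_lie]
      exact ext_bracket_zero hψ _ _
    rw [← h1]
    have h7 : ext ψ u = ext χ (φ u) := by rw [hχ, LieEquiv.symm_apply_apply]
    rw [h7, ext_eq_of_edges (b := b) χ h4]
    exact Finset.sum_eq_zero fun i _ => by rw [h2, zero_mul]

theorem MData.nil {α : Fin n → (M →ₗ[ℚ] ℝ)} (h : MData G M α) (x y z : M) : ⁅⁅x, y⁆, z⁆ = 0 := by
  rw [← Module.forall_dual_apply_eq_zero_iff ℚ]
  intro ψ
  obtain ⟨S, _, hS⟩ := h.t1 ((Algebra.linearMap ℚ ℝ).comp ψ)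
  have h1 := hS ⁅x, y⁆ z
  have h2 : ∑ i, ∑ j, α i ⁅x, y⁆ * α j z * S i j = 0 := by
    refine Finset.sum_eq_zero fun i _ => Finset.sum_eq_zero fun j _ => ?_
    rw [h.t3]; ring
  rw [h2, LinearMap.comp_apply] at h1
  have h3 : ((ψ ⁅⁅x, y⁆, z⁆ : ℚ) : ℝ) = 0 := h1
  exact_mod_cast h3

end Pool.Agent.V11110.GL
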