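import Mathlib

open Set Filter Topology Metric
open scoped ENNReal

namespace Pool.Agent.V11110.MG

theorem path_est (g g' : ℂ → ℂ) (hg : ∀ z, HasDerivAt g (g' z) z) (hg' : Continuous g')
    (M : ℝ) (γ : ℝ → ℂ) (hγ : ContinuousOn γ (Icc 0 1)) (L : ℝ) (hL : 0 ≤ L)
    (hM : ∀ t ∈ Icc (0 : ℝ) 1, ‖g' (γ t)‖ ≤ M)
    (hV : eVariationOn γ (Icc 0 1) ≤ ENNReal.ofReal L) :
    ‖g (γ 1) - g (γ 0)‖ ≤ M * L := by
  have hM0 : 0 ≤ M := (norm_nonneg _).trans (hM 0 ⟨le_rfl, zero_le_one⟩)
  -- it suffices to bound by (M + ε) * L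
  refine le_of_forall_pos_le_add fun η hη => ?_
  set ε : ℝ := η / (L + 1) with hε
  have hε0 : 0 < ε := by positivity
  have hεL : ε * L ≤ η := by
    rw [hε, div_mul_eq_mul_div, div_le_iff₀ (by positivity)]
    nlinarith
  have key : ‖g (γ 1) - g (γ 0)‖ ≤ (M + ε) * L := by
    have hK : IsCompact (γ '' Icc 0 1) := isCompact_Icc.image_of_continuousOn hγ
    have h1 := hK.uniformContinuousAt_of_continuousAt g' (fun a _ => hg'.continuousAt)
      (Metric.dist_mem_uniformity hε0)
    obtain ⟨δ, hδ0, hδ⟩ := Metric.mem_uniformity_dist.1 h1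
    obtain ⟨ρ, hρ0, hρ⟩ := Metric.uniformContinuousOn_iff.1
      (isCompact_Icc.uniformContinuousOn_of_continuous hγ) δ hδ0
    obtain ⟨n, hn⟩ := exists_nat_gt (1 / ρ)
    have hn0 : 0 < (n : ℝ) := lt_trans (by positivity) hn
    have hn1 : 1 / (n : ℝ) < ρ := by
      rw [div_lt_iff₀ hn0]
      rw [div_lt_iff₀ hρ0] at hn
      linarith
    set u : ℕ → ℝ := fun i => min ((i : ℝ) / n) 1 with hu
    have hum : Monotone u := by
      intro i j hij
      apply min_le_min _ le_rfl
      gcongr
    have hus : ∀ i, u i ∈ Icc (0 : ℝ) 1 := fun i =>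
      ⟨le_min (by positivity) zero_le_one, min_le_right _ _⟩
    have hu0 : u 0 = 0 := by simp [hu]
    have hun : u n = 1 := by simp [hu, hn0.ne']
    have hstep : ∀ i, u (i + 1) - u i ≤ 1 / n := by
      intro i
      simp only [hu]
      have : ((i + 1 : ℕ) : ℝ) / n = (i : ℝ) / n + 1 / n := by push_cast; ring
      rw [this]
      rcases le_total ((i : ℝ) / n) 1 with h | h
      · rw [min_eq_left h]
        linarith [min_le_left ((i : ℝ) / n + 1 / n) 1]
      · rw [min_eq_right h]
        have : (0 : ℝ) < 1 / n := by positivity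
        linarith [min_le_right ((i : ℝ) / n + 1 / n) 1]
    have hloc : ∀ i, ‖g (γ (u (i + 1))) - g (γ (u i))‖ ≤ (M + ε) * ‖γ (u (i + 1)) - γ (u i)‖ := by
      intro i
      have hd : dist (u (i + 1)) (u i) < ρ := by
        rw [Real.dist_eq, abs_of_nonneg (sub_nonneg.2 (hum (Nat.le_succ i)))]
        exact (hstep i).trans_lt hn1
      have hdd := hρ _ (hus (i + 1)) _ (hus i) hd
      have hconv : Convex ℝ (ball (γ (u i)) δ) := convex_ball _ _
      refine Convex.norm_image_sub_le_of_norm_hasDerivWithin_le (f' := g')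
        (s := ball (γ (u i)) δ) (fun x _ => (hg x).hasDerivWithinAt) ?_ hconv
        (mem_ball_self hδ0) (mem_ball.2 hdd)
      intro x hx
      have h2 := hδ (a := γ (u i)) (b := x) (by rw [dist_comm]; exact hx)
        (mem_image_of_mem _ (hus i))
      simp only [mem_setOf_eq] at h2
      have h3 : ‖g' x‖ ≤ ‖g' (γ (u i))‖ + dist (g' (γ (u i))) (g' x) := by
        rw [dist_eq_norm]
        have := norm_sub_le (g' (γ (u i))) (g' (γ (u i)) - g' x)
        simpa using this
      have h4 := hM _ (hus i)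
      linarith
    have htel : g (γ 1) - g (γ 0) = ∑ i ∈ Finset.range n, (g (γ (u (i + 1))) - g (γ (u i))) := by
      rw [Finset.sum_range_sub (fun i => g (γ (u i))), hun, hu0]
    rw [htel]
    refine (norm_sum_le _ _).trans ((Finset.sum_le_sum fun i _ => hloc i).trans ?_)
    rw [← Finset.mul_sum]
    apply mul_le_mul_of_nonneg_left _ (by positivity)
    have hs := eVariationOn.sum_le (f := γ) (n := n) hum hus
    have hs2 := hs.trans hV
    have hs3 : (∑ i ∈ Finset.range n, edist (γ (u (i + 1))) (γ (u i)))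
        = ENNReal.ofReal (∑ i ∈ Finset.range n, ‖γ (u (i + 1)) - γ (u i)‖) := by
      rw [ENNReal.ofReal_sum_of_nonneg (fun i _ => norm_nonneg _)]
      refine Finset.sum_congr rfl fun i _ => ?_
      rw [edist_dist, dist_eq_norm]
    rw [hs3] at hs2
    exact (ENNReal.ofReal_le_ofReal_iff hL).1 hs2
  linarith [key, hεL, add_mul M ε L]

theorem antider (p : Polynomial ℂ) : ∃ P : Polynomial ℂ, Polynomial.derivative P = p := by
  induction p using Polynomial.induction_on' with
  | add p q hp hq =>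
    obtain ⟨P, hP⟩ := hp
    obtain ⟨Q, hQ⟩ := hq
    exact ⟨P + Q, by rw [Polynomial.derivative_add, hP, hQ]⟩
  | monomial n a =>
    refine ⟨Polynomial.monomial (n + 1) (a / (n + 1)), ?_⟩
    rw [Polynomial.derivative_monomial]
    have : ((n : ℂ) + 1) ≠ 0 := by exact_mod_cast Nat.succ_ne_zero n
    simp only [Nat.add_sub_cancel]
    congr 1
    push_cast
    field_simp

end Pool.Agent.V11110.MG
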