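import Pool.Agent.V11110.ST1

namespace Pool.Agent.V11110.ST2

open Pool.Agent.V11110.ST1

/-- The transversal family together with the labelling of the slopes outside the subfield. -/
structure Fam (σ : ℕ → ℚ × ℚ → ℚ × ℚ) (n : ℚ × ℚ → ℕ) : Prop where
  f0 : ∀ z, σ z 0 = 0
  f1 : ∀ z m d c, ∃! x, I m x = d ∧ J m (σ z x) = c
  f2 : ∀ z z', z ≠ z' → ∀ g, ∃! x, σ z x - σ z' x = g
  f3 : ∀ x y, x ≠ y → ∀ d, (∀ m, I m x = I m y → J m d ≠ 0) → ∃! z, σ z x - σ z y = d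
  hn : ∀ z : ℚ × ℚ, z.2 ≠ 0 → σ (n z) (0, z.2) = (1, z.1)

theorem vert_cond {s : ℚ} (hs : s ≠ 0) (d : ℚ × ℚ) (hd : d.1 ≠ 0) :
    ∀ m, I m ((0 : ℚ), s) = I m 0 → J m d ≠ 0 := by
  intro m hm
  have hne : ((0 : ℚ), s) ≠ 0 := by
    intro h
    exact hs (Prod.ext_iff.1 h).2
  have e : m = none := I_sep hne hm (by simp [I])
  subst e
  exact hd

theorem exists_fam : ∃ σ n, Fam σ n := by
  obtain ⟨σ, h0, h1, h2, h3⟩ := exists_family
  have : ∀ z : ℚ × ℚ, ∃ k, z.2 ≠ 0 → σ k (0, z.2) = (1, z.1) := by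
    intro z
    by_cases hz : z.2 = 0
    · exact ⟨0, fun h => absurd hz h⟩
    · obtain ⟨k, hk, -⟩ := h3 (0, z.2) 0 (by
        intro h
        exact hz (Prod.ext_iff.1 h).2) (1, z.1) (vert_cond hz _ one_ne_zero)
      refine ⟨k, fun _ => ?_⟩
      simpa only [h0, sub_zero] using hk
  choose n hn using this
  exact ⟨σ, n, h0, h1, h2, h3, hn⟩

variable {σ : ℕ → ℚ × ℚ → ℚ × ℚ} {n : ℚ × ℚ → ℕ}

theorem Fam.inj (h : Fam σ n) {z z' : ℚ × ℚ} (hz : z.2 ≠ 0) (hz' : z'.2 ≠ 0)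
    (e : n z = n z') : z = z' := by
  have h1 := h.hn z hz
  have h2 := h.hn z' hz'
  rw [e] at h1
  have h3 := (h.f1 (n z') none 0 1).unique (y₁ := (0, z.2)) (y₂ := (0, z'.2))
    ⟨rfl, by rw [h1]; rfl⟩ ⟨rfl, by rw [h2]; rfl⟩
  have h4 : z.2 = z'.2 := (Prod.ext_iff.1 h3).2
  rw [h4, h2] at h1
  exact Prod.ext (Prod.ext_iff.1 h1).2.symm h4

theorem Fam.surj (h : Fam σ n) (k : ℕ) : ∃ z : ℚ × ℚ, z.2 ≠ 0 ∧ n z = k := by
  obtain ⟨x, ⟨hx1, hx2⟩, -⟩ := h.f1 k none 0 1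
  obtain ⟨x1, x2⟩ := x
  have e1 : x1 = 0 := hx1
  subst e1
  have hne : x2 ≠ 0 := by
    intro e
    subst e
    have : σ k ((0 : ℚ), (0 : ℚ)) = 0 := h.f0 k
    rw [this, J_zero] at hx2
    exact zero_ne_one hx2
  refine ⟨((σ k (0, x2)).2, x2), hne, ?_⟩
  have h1 := h.hn ((σ k (0, x2)).2, x2) hne
  refine (h.f3 (0, x2) 0 (by
    intro e
    exact hne (Prod.ext_iff.1 e).2) (1, (σ k (0, x2)).2)
    (vert_cond hne _ one_ne_zero)).unique ?_ ?_
  · rw [h.f0, sub_zero]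
    exact h1
  · rw [h.f0, sub_zero]
    exact Prod.ext hx2 rfl

/-- The label of the line of slope `z` through the point `p`. -/
def Lam (σ : ℕ → ℚ × ℚ → ℚ × ℚ) (n : ℚ × ℚ → ℕ) (z : ℚ × ℚ) (p : (ℚ × ℚ) × (ℚ × ℚ)) : ℚ × ℚ :=
  if z.2 = 0 then (J (some z.1) (p.1.1, p.2.1), I (some z.1) (p.1.2, p.2.2))
  else (p.1.1, p.2.1) - σ (n z) (p.1.2, p.2.2)

theorem Lam_Q {z : ℚ × ℚ} (hz : z.2 = 0) (p : (ℚ × ℚ) × (ℚ × ℚ)) :
    Lam σ n z p = (J (some z.1) (p.1.1, p.2.1), I (some z.1) (p.1.2, p.2.2)) := if_pos hz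

theorem Lam_N {z : ℚ × ℚ} (hz : z.2 ≠ 0) (p : (ℚ × ℚ) × (ℚ × ℚ)) :
    Lam σ n z p = (p.1.1, p.2.1) - σ (n z) (p.1.2, p.2.2) := if_neg hz

theorem Lam_A (h : Fam σ n) (z v l : ℚ × ℚ) : ∃! y, Lam σ n z (v, y) = l := by
  by_cases hz : z.2 = 0
  · obtain ⟨x, hx1, hx2⟩ := I_meet (m := none) (m' := some z.1) (by simp) v.2 l.2
    obtain ⟨x1, x2⟩ := x
    have e1 : x1 = v.2 := hx1
    subst e1
    refine ⟨(l.1 + z.1 * v.1, x2), ?_, ?_⟩
    · simp only [Lam_Q hz]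
      rw [hx2]
      simp [J]
    · rintro ⟨y1, y2⟩ hy
      simp only [Lam_Q hz] at hy
      have h1 := (Prod.ext_iff.1 hy).1
      have h2 := (Prod.ext_iff.1 hy).2
      simp only [J] at h1
      simp only at h2
      apply Prod.ext
      · simp only; linarith
      · simp only
        by_contra hne
        have hne' : ((v.2 : ℚ), y2) ≠ (v.2, x2) := fun e => hne (Prod.ext_iff.1 e).2
        have := I_sep hne' (m := none) (m' := some z.1) rfl (h2.trans hx2.symm)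
        simp at this
  · obtain ⟨x, ⟨hx1, hx2⟩, hu⟩ := h.f1 (n z) none v.2 (v.1 - l.1)
    obtain ⟨x1, x2⟩ := x
    have e1 : x1 = v.2 := hx1
    subst e1
    have hx2' : (σ (n z) (v.2, x2)).1 = v.1 - l.1 := hx2
    refine ⟨(l.2 + (σ (n z) (v.2, x2)).2, x2), ?_, ?_⟩
    · simp only [Lam_N hz]
      apply Prod.ext
      · simp only [Prod.fst_sub]
        rw [hx2']
        ring
      · simp
    · rintro ⟨y1, y2⟩ hy
      simp only [Lam_N hz] at hy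
      have h1 := (Prod.ext_iff.1 hy).1
      have h2 := (Prod.ext_iff.1 hy).2
      simp only [Prod.fst_sub, Prod.snd_sub] at h1 h2
      have h3 := hu (v.2, y2) ⟨rfl, by
        show (σ (n z) (v.2, y2)).1 = _
        linarith⟩
      have h4 : y2 = x2 := (Prod.ext_iff.1 h3).2
      subst h4
      apply Prod.ext
      · simp only; linarith
      · rfl

theorem Lam_B_mixed (h : Fam σ n) {z z' : ℚ × ℚ} (hz : z.2 = 0) (hz' : z'.2 ≠ 0)
    (l l' : ℚ × ℚ) : ∃! p, Lam σ n z p = l ∧ Lam σ n z' p = l' := by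
  obtain ⟨x, ⟨hx1, hx2⟩, hu⟩ := h.f1 (n z') (some z.1) l.2 (l.1 - J (some z.1) l')
  refine ⟨(((l' + σ (n z') x).1, x.1), ((l' + σ (n z') x).2, x.2)), ⟨?_, ?_⟩, ?_⟩
  · rw [Lam_Q hz]
    simp only [Prod.mk.eta]
    rw [J_add, hx1, hx2]
    apply Prod.ext
    · simp
    · rfl
  · rw [Lam_N hz']
    simp only [Prod.mk.eta]
    abel
  · rintro ⟨⟨p11, p12⟩, ⟨p21, p22⟩⟩ ⟨h1, h2⟩
    rw [Lam_Q hz] at h1
    rw [Lam_N hz'] at h2
    simp only at h1 h2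
    have h3 := (Prod.ext_iff.1 h1).1
    have h4 := (Prod.ext_iff.1 h1).2
    simp only at h3 h4
    have h5 : (p11, p21) = l' + σ (n z') (p12, p22) := by
      rw [← h2]; abel
    have h6 := hu (p12, p22) ⟨h4, by
      rw [← h3, h5, J_add]; ring⟩
    rw [h6] at h5
    have h7 := Prod.ext_iff.1 h5
    have h8 := Prod.ext_iff.1 h6
    simp only at h7 h8
    ext <;> simp [h7.1, h7.2, h8.1, h8.2]

theorem Lam_B (h : Fam σ n) {z z' : ℚ × ℚ} (hne : z ≠ z') (l l' : ℚ × ℚ) :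
    ∃! p, Lam σ n z p = l ∧ Lam σ n z' p = l' := by
  by_cases hz : z.2 = 0 <;> by_cases hz' : z'.2 = 0
  · have hm : (some z.1 : Option ℚ) ≠ some z'.1 := by
      intro e
      apply hne
      exact Prod.ext (Option.some_injective _ e) (hz.trans hz'.symm)
    obtain ⟨g, hg1, hg2⟩ := J_meet hm l.1 l'.1
    obtain ⟨x, hx1, hx2⟩ := I_meet hm l.2 l'.2
    refine ⟨((g.1, x.1), (g.2, x.2)), ⟨?_, ?_⟩, ?_⟩
    · rw [Lam_Q hz]
      simp only [Prod.mk.eta]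
      rw [hg1, hx1]
    · rw [Lam_Q hz']
      simp only [Prod.mk.eta]
      rw [hg2, hx2]
    · rintro ⟨⟨p11, p12⟩, ⟨p21, p22⟩⟩ ⟨h1, h2⟩
      rw [Lam_Q hz] at h1
      rw [Lam_Q hz'] at h2
      have h1a := (Prod.ext_iff.1 h1).1
      have h1b := (Prod.ext_iff.1 h1).2
      have h2a := (Prod.ext_iff.1 h2).1
      have h2b := (Prod.ext_iff.1 h2).2
      simp only at h1a h1b h2a h2b
      have e1 : (p11, p21) = g := by
        by_contra hc
        exact hm (J_sep hc (h1a.trans hg1.symm) (h2a.trans hg2.symm))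
      have e2 : (p12, p22) = x := by
        by_contra hc
        exact hm (I_sep hc (h1b.trans hx1.symm) (h2b.trans hx2.symm))
      subst e1 e2
      rfl
  · exact Lam_B_mixed h hz hz' l l'
  · obtain ⟨p, ⟨h1, h2⟩, h3⟩ := Lam_B_mixed h hz' hz l' l
    exact ⟨p, ⟨h2, h1⟩, fun q hq => h3 q ⟨hq.2, hq.1⟩⟩
  · have hnn : n z ≠ n z' := fun e => hne (h.inj hz hz' e)
    obtain ⟨x, hx, hu⟩ := h.f2 (n z) (n z') hnn (l' - l)
    simp only at hx hu
    refine ⟨(((l + σ (n z) x).1, x.1), ((l + σ (n z) x).2, x.2)), ⟨?_, ?_⟩, ?_⟩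
    · rw [Lam_N hz]
      simp only [Prod.mk.eta]
      abel
    · rw [Lam_N hz']
      simp only [Prod.mk.eta]
      rw [add_sub_assoc, hx]
      abel
    · rintro ⟨⟨p11, p12⟩, ⟨p21, p22⟩⟩ ⟨h1, h2⟩
      rw [Lam_N hz] at h1
      rw [Lam_N hz'] at h2
      simp only at h1 h2
      have h6 := hu (p12, p22) (by
        rw [← h1, ← h2]
        abel)
      have h5 : (p11, p21) = l + σ (n z) (p12, p22) := by
        rw [← h1]; abel
      rw [h6] at h5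
      have h7 := Prod.ext_iff.1 h5
      have h8 := Prod.ext_iff.1 h6
      simp only at h7 h8
      ext <;> simp [h7.1, h7.2, h8.1, h8.2]

theorem Lam_C (h : Fam σ n) {p q : (ℚ × ℚ) × (ℚ × ℚ)} (hpq : p.1 ≠ q.1) :
    ∃ z, Lam σ n z p = Lam σ n z q := by
  obtain ⟨⟨p11, p12⟩, ⟨p21, p22⟩⟩ := p
  obtain ⟨⟨q11, q12⟩, ⟨q21, q22⟩⟩ := q
  simp only at hpq
  have fin : ∀ m, J m (p11, p21) = J m (q11, q21) → I m (p12, p22) = I m (q12, q22) →
      ∃ z, Lam σ n z ((p11, p12), (p21, p22)) = Lam σ n z ((q11, q12), (q21, q22)) := by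
    intro m hJ hI
    rcases m with _ | m
    · have e1 : p11 = q11 := hJ
      have e2 : p12 = q12 := hI
      exact absurd (by rw [e1, e2]) hpq
    · refine ⟨(m, 0), ?_⟩
      rw [Lam_Q rfl, Lam_Q rfl]
      simp only
      rw [hJ, hI]
  by_cases hx : ((p12, p22) : ℚ × ℚ) = (q12, q22)
  · obtain ⟨m, hm⟩ := J_ex (p11, p21) (q11, q21)
    exact fin m hm (by rw [hx])
  · obtain ⟨m, hm⟩ := I_ex (p12, p22) (q12, q22)
    by_cases hJ : J m (p11, p21) = J m (q11, q21)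
    · exact fin m hJ hm
    · obtain ⟨k, hk, -⟩ := h.f3 _ _ hx ((p11, p21) - (q11, q21)) (by
        intro m' hm'
        have e : m' = m := I_sep hx hm' hm
        subst e
        rw [J_sub]
        exact sub_ne_zero.2 hJ)
      obtain ⟨z, hz, hzk⟩ := h.surj k
      refine ⟨z, ?_⟩
      rw [Lam_N hz, Lam_N hz, hzk]
      simp only at hk ⊢
      rw [sub_eq_sub_iff_add_eq_add] at hk ⊢
      rw [add_comm, add_comm (q11, q21), hk, add_comm]

end Pool.Agent.V11110.ST2
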