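import Pool.Agent.V11110.ST1

namespace Pool.Agent.V11110.ST3

open Pool.Agent.V11110.ST1 (J J_sep J_ex J_meet J_line_infinite)

/-- An affine plane on `ℚ × ℚ` with slopes `Option ℚ`, given by the labels of its lines, in which
the vertical and horizontal lines, the lines of slope one and the lines through the origin are the
usual ones. -/
structure XPlane (I : Option ℚ → ℚ × ℚ → ℚ) : Prop where
  none : ∀ x, I none x = x.1
  zero : ∀ x, I (some 0) x = x.2
  one : ∀ x, I (some 1) x = x.2 - x.1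
  icpt : ∀ m y, I (some m) (0, y) = y
  orig : ∀ m x, I (some m) (x, m * x) = 0
  sep : ∀ {x y : ℚ × ℚ}, x ≠ y → ∀ {m m' : Option ℚ}, I m x = I m y → I m' x = I m' y → m = m'
  ex : ∀ x y : ℚ × ℚ, ∃ m, I m x = I m y
  meet : ∀ {m m' : Option ℚ}, m ≠ m' → ∀ d d', ∃ x, I m x = d ∧ I m' x = d'

/-- Slope and intercept of a line which is prescribed to be a usual line. -/
def StdLine (m : Option ℚ) (b : ℚ) : Prop := m = none ∨ m = some 0 ∨ m = some 1 ∨ b = 0

def Std (m : Option ℚ) (p : ℚ × ℚ) (b : ℚ) : Prop :=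
  b = J m p ∧ (StdLine m b ∨ p.1 = 0)

abbrev Trip := Option ℚ × (ℚ × ℚ) × ℚ

def mem (F : Finset Trip) (m : Option ℚ) (p : ℚ × ℚ) (b : ℚ) : Prop := (m, p, b) ∈ F ∨ Std m p b

structure Good (F : Finset Trip) : Prop where
  func : ∀ m p b b', mem F m p b → mem F m p b' → b = b'
  two : ∀ m m' p q b b', m ≠ m' → p ≠ q → mem F m p b → mem F m q b → mem F m' p b' →
    mem F m' q b' → False

def Bad (F : Finset Trip) (m : Option ℚ) (p : ℚ × ℚ) (b : ℚ) : Prop :=
  ∃ q m' b', q ≠ p ∧ m' ≠ m ∧ mem F m q b ∧ mem F m' p b' ∧ mem F m' q b'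

theorem mem_mono {F F' : Finset Trip} (h : F ⊆ F') {z x g} (hm : mem F z x g) : mem F' z x g :=
  hm.imp (fun h' => h h') id

theorem mem_insert {F : Finset Trip} {z x g z1 x1 g1} :
    mem (insert (z, x, g) F) z1 x1 g1 ↔ (z1 = z ∧ x1 = x ∧ g1 = g) ∨ mem F z1 x1 g1 := by
  simp only [mem, Finset.mem_insert, Prod.mk.injEq]
  tauto

theorem good_empty : Good ∅ := by
  constructor
  · rintro m p b b' (h | h) (h' | h')
    · simp at h
    · simp at h
    · simp at h'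
    · exact h.1.trans h'.1.symm
  · rintro m m' p q b b' hm hpq (h1 | h1) (h2 | h2) (h3 | h3) (h4 | h4)
    all_goals try (simp at h1; done)
    all_goals try (simp at h2; done)
    all_goals try (simp at h3; done)
    all_goals try (simp at h4; done)
    exact hm (J_sep hpq (h1.1.symm.trans h2.1) (h3.1.symm.trans h4.1))

theorem good_insert {F : Finset Trip} (hF : Good F) {m : Option ℚ} {p : ℚ × ℚ} {b : ℚ}
    (hund : ∀ b', ¬ mem F m p b') (hb : ¬ Bad F m p b) : Good (insert (m, p, b) F) := by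
  constructor
  · intro z1 x1 g1 g2 h1 h2
    rw [mem_insert] at h1 h2
    rcases h1 with ⟨e1, e2, e3⟩ | h1
    · rcases h2 with ⟨e4, e5, e6⟩ | h2
      · rw [e3, e6]
      · subst e1 e2
        exact absurd h2 (hund _)
    · rcases h2 with ⟨e4, e5, e6⟩ | h2
      · subst e4 e5
        exact absurd h1 (hund _)
      · exact hF.func _ _ _ _ h1 h2
  · intro m1 m2 p1 q1 b1 b2 hm hpq h1 h2 h3 h4
    rw [mem_insert] at h1 h2 h3 h4
    rcases h1 with ⟨e1, e2, e3⟩ | h1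
    · subst e1 e2 e3
      rcases h2 with ⟨-, e, -⟩ | h2
      · exact hpq e.symm
      rcases h3 with ⟨e, -, -⟩ | h3
      · exact hm e.symm
      rcases h4 with ⟨e, -, -⟩ | h4
      · exact hm e.symm
      exact hb ⟨q1, m2, b2, hpq.symm, hm.symm, h2, h3, h4⟩
    rcases h2 with ⟨e1, e2, e3⟩ | h2
    · subst e1 e2 e3
      rcases h3 with ⟨e, -, -⟩ | h3
      · exact hm e.symm
      rcases h4 with ⟨e, -, -⟩ | h4
      · exact hm e.symm
      exact hb ⟨p1, m2, b2, hpq, hm.symm, h1, h4, h3⟩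
    rcases h3 with ⟨e1, e2, e3⟩ | h3
    · subst e1 e2 e3
      rcases h4 with ⟨-, e, -⟩ | h4
      · exact hpq e.symm
      exact hb ⟨q1, m1, b1, hpq.symm, hm, h4, h1, h2⟩
    rcases h4 with ⟨e1, e2, e3⟩ | h4
    · subst e1 e2 e3
      exact hb ⟨p1, m1, b1, hpq, hm, h3, h2, h1⟩
    exact hF.two _ _ _ _ _ _ hm hpq h1 h2 h3 h4

theorem J_icpt (m b : ℚ) : J (some m) ((0 : ℚ), b) = b := by simp [J]

theorem std_icpt (F : Finset Trip) (m b : ℚ) : mem F (some m) (0, b) b :=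
  Or.inr ⟨(J_icpt m b).symm, Or.inr rfl⟩

theorem std_line {F : Finset Trip} {m : Option ℚ} {b : ℚ} (h : StdLine m b) {p : ℚ × ℚ}
    (hp : J m p = b) : mem F m p b := Or.inr ⟨hp.symm, Or.inl h⟩

theorem std_mem {F : Finset Trip} (hF : Good F) {m : Option ℚ} {b : ℚ} (h : StdLine m b)
    {p : ℚ × ℚ} (hp : mem F m p b) : b = J m p := by
  rcases h with h | h | h | h
  · exact hF.func _ _ _ _ hp (std_line (Or.inl h) rfl)
  · exact hF.func _ _ _ _ hp (std_line (Or.inr (Or.inl h)) rfl)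
  · exact hF.func _ _ _ _ hp (std_line (Or.inr (Or.inr (Or.inl h))) rfl)
  · subst h
    rcases m with _ | m
    · exact hF.func _ _ _ _ hp (std_line (Or.inl rfl) rfl)
    · by_cases hp1 : p.1 = 0
      · obtain ⟨p1, p2⟩ := p
        simp only at hp1
        subst hp1
        rw [J_icpt]
        exact hF.func _ _ _ _ hp (std_icpt F m p2)
      · have e : p.2 / p.1 * p.1 = p.2 := div_mul_cancel₀ _ hp1
        have h1 : mem F (some (p.2 / p.1)) p 0 := by
          apply std_line (Or.inr (Or.inr (Or.inr rfl)))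
          simp only [J]
          rw [e, sub_self]
        have h0 : p ≠ (0, 0) := fun h => hp1 (Prod.ext_iff.1 h).1
        by_cases hm : (some m : Option ℚ) = some (p.2 / p.1)
        · rw [hm]
          simp only [J]
          rw [e, sub_self]
        · exact (hF.two _ _ _ _ _ _ hm h0 hp (std_icpt F m 0) h1 (std_icpt F _ 0)).elim

/-- If `(m, p)` is undefined then `m` is a slope different from `0, 1` and `p` is not vertical
above the origin, and not on the usual line of slope `m` through the origin. -/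
theorem undef {F : Finset Trip} {m : Option ℚ} {p : ℚ × ℚ} (h : ∀ b, ¬ mem F m p b) :
    ∃ k, m = some k ∧ k ≠ 0 ∧ k ≠ 1 ∧ p.1 ≠ 0 ∧ J m p ≠ 0 := by
  rcases m with _ | k
  · exact absurd (std_line (Or.inl rfl) rfl) (h (J none p))
  · refine ⟨k, rfl, ?_, ?_, ?_, ?_⟩
    · rintro rfl
      exact h _ (std_line (Or.inr (Or.inl rfl)) rfl)
    · rintro rfl
      exact h _ (std_line (Or.inr (Or.inr (Or.inl rfl))) rfl)
    · intro hp
      exact h _ (Or.inr ⟨rfl, Or.inr hp⟩)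
    · intro hp
      exact h 0 (std_line (Or.inr (Or.inr (Or.inr rfl))) hp)

theorem undef' {F : Finset Trip} {k : ℚ} {p : ℚ × ℚ} (hk0 : k ≠ 0) (hk1 : k ≠ 1) (hp : p.1 ≠ 0)
    (hJ : J (some k) p ≠ 0) (hF : ∀ b, (some k, p, b) ∉ F) : ∀ b, ¬ mem F (some k) p b := by
  rintro b (h | ⟨h1, h2⟩)
  · exact hF b h
  · rcases h2 with (h2 | h2 | h2 | h2) | h2
    · simp at h2
    · exact hk0 (Option.some_injective _ h2)
    · exact hk1 (Option.some_injective _ h2)
    · exact hJ (h1.symm.trans h2)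
    · exact hp h2

/-- The labels used by `F`. -/
def labs (F : Finset Trip) : Finset ℚ := F.image (fun t => t.2.2)

theorem fresh_std {F : Finset Trip} {k b : ℚ} (hk0 : k ≠ 0) (hk1 : k ≠ 1) (hb : b ≠ 0)
    (hF : ∀ q, (some k, q, b) ∉ F) {q : ℚ × ℚ} (h : mem F (some k) q b) : q = (0, b) := by
  rcases h with h | ⟨h1, h2⟩
  · exact absurd h (hF q)
  · rcases h2 with (h2 | h2 | h2 | h2) | h2
    · simp at h2
    · exact absurd (Option.some_injective _ h2) hk0
    · exact absurd (Option.some_injective _ h2) hk1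
    · exact absurd h2 hb
    · obtain ⟨q1, q2⟩ := q
      simp only at h2
      subst h2
      rw [J_icpt] at h1
      rw [h1]

theorem badA {F : Finset Trip} (hF : Good F) {p : ℚ × ℚ} (hp : p.1 ≠ 0) {b : ℚ} (hb : b ≠ 0)
    (hbF : b ∉ labs F) (hb1 : b ≠ p.2) (hb2 : b ≠ p.2 - p.1) {m : Option ℚ} {b' : ℚ}
    (h1 : mem F m p b') (h2 : mem F m (0, b) b') : False := by
  rcases m with _ | k
  · have e1 := hF.func _ _ _ _ h2 (std_line (Or.inl rfl) rfl)
    have e2 := hF.func _ _ _ _ h1 (std_line (Or.inl rfl) rfl)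
    exact hp (e2.symm.trans e1)
  · have e1 := hF.func _ _ _ _ h2 (std_icpt F k b)
    subst e1
    rcases h1 with h1 | ⟨h3, h4⟩
    · exact hbF (Finset.mem_image.2 ⟨_, h1, rfl⟩)
    · rcases h4 with (h4 | h4 | h4 | h4) | h4
      · simp at h4
      · rw [h4] at h3
        simp only [J, zero_mul, sub_zero] at h3
        exact hb1 h3
      · rw [h4] at h3
        simp only [J, one_mul] at h3
        exact hb2 h3
      · exact hb h4
      · exact hp h4

theorem fresh_b (F : Finset Trip) (p q : ℚ × ℚ) : ∃ b : ℚ, b ≠ 0 ∧ b ∉ labs F ∧ b ≠ p.2 ∧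
    b ≠ p.2 - p.1 ∧ b ≠ q.2 ∧ b ≠ q.2 - q.1 := by
  obtain ⟨b, hb⟩ := Infinite.exists_notMem_finset
    (labs F ∪ {0, p.2, p.2 - p.1, q.2, q.2 - q.1})
  simp only [Finset.mem_union, Finset.mem_insert, Finset.mem_singleton, not_or] at hb
  tauto

theorem RA {F : Finset Trip} (hF : Good F) (m : Option ℚ) (p : ℚ × ℚ) :
    ∃ F', Good F' ∧ F ⊆ F' ∧ ∃ b, mem F' m p b := by
  by_cases h : ∃ b, mem F m p b
  · exact ⟨F, hF, subset_rfl, h⟩
  push Not at h
  obtain ⟨k, rfl, hk0, hk1, hp, -⟩ := undef h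
  obtain ⟨b, hb0, hbF, hb1, hb2, -, -⟩ := fresh_b F p p
  have hbad : ¬ Bad F (some k) p b := by
    rintro ⟨q, m', b', hq, hm', h1, h2, h3⟩
    have e := fresh_std hk0 hk1 hb0 (fun q hq => hbF (Finset.mem_image.2 ⟨_, hq, rfl⟩)) h1
    subst e
    exact badA hF hp hb0 hbF hb1 hb2 h2 h3
  exact ⟨_, good_insert hF h hbad, Finset.subset_insert _ _, b,
    mem_insert.2 (Or.inl ⟨rfl, rfl, rfl⟩)⟩

/-- The slopes of the prescribed lines through `q`. -/
def slopes (q : ℚ × ℚ) : Finset (Option ℚ) := {none, some 0, some 1, some (q.2 / q.1)}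

theorem mem_slopes {q : ℚ × ℚ} (hq : q ≠ 0) {m : Option ℚ} (h : StdLine m (J m q)) :
    m ∈ slopes q := by
  simp only [slopes, Finset.mem_insert, Finset.mem_singleton]
  rcases h with h | h | h | h
  · exact Or.inl h
  · exact Or.inr (Or.inl h)
  · exact Or.inr (Or.inr (Or.inl h))
  · rcases m with _ | m
    · exact Or.inl rfl
    · right; right; right
      simp only [J] at h
      have h1 : q.1 ≠ 0 := by
        intro h1
        rw [h1, mul_zero, sub_zero] at h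
        exact hq (Prod.ext h1 h)
      congr 1
      field_simp
      linarith

theorem line_meet_finite {m m' : Option ℚ} (hm : m ≠ m') (b b' : ℚ) :
    {p : ℚ × ℚ | J m p = b ∧ J m' p = b'}.Finite := by
  apply Set.Subsingleton.finite
  rintro p ⟨h1, h2⟩ q ⟨h3, h4⟩
  by_contra hne
  exact hm (J_sep hne (h1.trans h3.symm) (h2.trans h4.symm))

theorem carrier (F : Finset Trip) {m0 : Option ℚ} {b0 : ℚ}
    (hv : ¬ (m0 = none ∧ b0 = 0)) (Qs : Finset (ℚ × ℚ)) (hQ0 : ∀ q ∈ Qs, q ≠ 0)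
    (hQ : ∀ q ∈ Qs, J m0 q ≠ b0) (Ms : Finset (Option ℚ)) (hMs : m0 ∉ Ms) :
    ∃ p, J m0 p = b0 ∧ p.1 ≠ 0 ∧ (∀ m b, (m, p, b) ∉ F) ∧ (∀ m ∈ Ms, J m p ≠ 0) ∧
      ∀ q ∈ Qs, ∀ m, StdLine m (J m q) → J m p ≠ J m q := by
  have f1 : {p : ℚ × ℚ | J m0 p = b0 ∧ p.1 = 0}.Finite := by
    by_cases h : m0 = none
    · subst h
      refine Set.Finite.subset Set.finite_empty ?_
      rintro p ⟨h1, h2⟩
      exact hv ⟨rfl, h1.symm.trans h2⟩
    · exact line_meet_finite h b0 0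
  have f2 : ((F.image (fun t => t.2.1) : Finset (ℚ × ℚ)) : Set (ℚ × ℚ)).Finite :=
    Finset.finite_toSet _
  have f3 : (⋃ m ∈ Ms, {p : ℚ × ℚ | J m0 p = b0 ∧ J m p = 0}).Finite := by
    apply Set.Finite.biUnion (Finset.finite_toSet _)
    intro m hm
    exact line_meet_finite (fun e => hMs (by rw [e]; exact hm)) _ _
  have f4 : (⋃ q ∈ Qs, ⋃ m ∈ slopes q, {p : ℚ × ℚ | J m0 p = b0 ∧ J m p = J m q}).Finite := by
    apply Set.Finite.biUnion (Finset.finite_toSet _)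
    intro q hq
    apply Set.Finite.biUnion (Finset.finite_toSet _)
    intro m _
    by_cases hm : m0 = m
    · subst hm
      refine Set.Finite.subset Set.finite_empty ?_
      rintro p ⟨h1, h2⟩
      exact hQ q hq (h2.symm.trans h1)
    · exact line_meet_finite hm _ _
  obtain ⟨p, hp1, hp2⟩ := ((J_line_infinite m0 b0).sdiff
    (((f1.union f2).union f3).union f4)).nonempty
  simp only [Set.mem_union, not_or] at hp2
  obtain ⟨⟨⟨h1, h2⟩, h3⟩, h4⟩ := hp2
  refine ⟨p, hp1, fun h => h1 ⟨hp1, h⟩, ?_, ?_, ?_⟩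
  · intro m b h
    exact h2 (Finset.mem_coe.2 (Finset.mem_image.2 ⟨_, h, rfl⟩))
  · intro m hm h
    exact h3 (Set.mem_biUnion hm ⟨hp1, h⟩)
  · intro q hq m hm h
    exact h4 (Set.mem_biUnion hq (Set.mem_biUnion (mem_slopes (hQ0 q hq) hm) ⟨hp1, h⟩))

/-- The known points of a line which is not prescribed. -/
def pts (F : Finset Trip) (b : ℚ) : Finset (ℚ × ℚ) := insert (0, b) (F.image (fun t => t.2.1))

theorem mem_pts {F : Finset Trip} {m : Option ℚ} {b : ℚ} (hm : ¬ StdLine m b) {q : ℚ × ℚ}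
    (h : mem F m q b) : q ∈ pts F b := by
  rcases h with h | ⟨h1, h2⟩
  · exact Finset.mem_insert_of_mem (Finset.mem_image.2 ⟨_, h, rfl⟩)
  · rcases h2 with h2 | h2
    · exact absurd h2 hm
    · obtain ⟨q1, q2⟩ := q
      simp only at h2
      subst h2
      rcases m with _ | m
      · exact absurd (Or.inl rfl) hm
      · rw [J_icpt] at h1
        rw [h1]
        exact Finset.mem_insert_self _ _

theorem line_ne_zero {F : Finset Trip} (hF : Good F) {m : Option ℚ} {b : ℚ}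
    (hm : ¬ StdLine m b) {q : ℚ × ℚ} (h : mem F m q b) : q ≠ 0 := by
  rintro rfl
  rcases m with _ | m
  · exact hm (Or.inl rfl)
  · exact hm (Or.inr (Or.inr (Or.inr (hF.func _ _ _ _ h (std_icpt F m 0)))))

/-- Insertion of a generic point on a line which is not prescribed. -/
theorem insert_generic {F : Finset Trip} (hF : Good F) {m : Option ℚ} {b : ℚ}
    {p : ℚ × ℚ} (hp1 : p.1 ≠ 0) (hpF : ∀ m b, (m, p, b) ∉ F)
    (hp : ∀ q, mem F m q b → ∀ m', StdLine m' (J m' q) → J m' p ≠ J m' q) :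
    ¬ Bad F m p b := by
  rintro ⟨q, m', b', hq, hm', h1, h2, h3⟩
  rcases h2 with h2 | ⟨h4, h5⟩
  · exact hpF _ _ h2
  · have h6 : StdLine m' b' := h5.resolve_right hp1
    have h7 := std_mem hF h6 h3
    exact hp q h1 m' (h7 ▸ h6) (h4.symm.trans h7)

theorem nonstd {m : Option ℚ} {b : ℚ} (h : ¬ StdLine m b) :
    ∃ k, m = some k ∧ k ≠ 0 ∧ k ≠ 1 ∧ b ≠ 0 := by
  rcases m with _ | k
  · exact absurd (Or.inl rfl) h
  · refine ⟨k, rfl, ?_, ?_, ?_⟩
    · rintro rfl; exact h (Or.inr (Or.inl rfl))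
    · rintro rfl; exact h (Or.inr (Or.inr (Or.inl rfl)))
    · intro hb; exact h (Or.inr (Or.inr (Or.inr hb)))

theorem RB_std {F : Finset Trip} (hF : Good F) {m m' : Option ℚ} (hm : m ≠ m') {b b' : ℚ}
    (h : ¬ ∃ p, mem F m p b ∧ mem F m' p b') (h1 : StdLine m b) (h2 : ¬ StdLine m' b') :
    ∃ F', Good F' ∧ F ⊆ F' ∧ ∃ p, mem F' m p b ∧ mem F' m' p b' := by
  classical
  obtain ⟨k, rfl, hk0, hk1, hb'⟩ := nonstd h2
  have hv : ¬ (m = none ∧ b = 0) := by
    rintro ⟨rfl, rfl⟩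
    exact h ⟨(0, b'), std_line h1 rfl, std_icpt F k b'⟩
  obtain ⟨p, hp0, hp1, hp2, hp3, hp4⟩ := carrier F (m0 := m) (b0 := b) hv
    ((pts F b').filter (fun q => mem F (some k) q b'))
    (fun q hq => line_ne_zero hF h2 (Finset.mem_filter.1 hq).2)
    (fun q hq e => h ⟨q, std_line h1 e, (Finset.mem_filter.1 hq).2⟩)
    {some k} (by simpa using hm)
  have hund := undef' (F := F) hk0 hk1 hp1 (hp3 _ (Finset.mem_singleton_self _))
    (fun b => hp2 _ b)
  have hbad : ¬ Bad F (some k) p b' := insert_generic hF hp1 hp2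
    (fun q hq => hp4 q (Finset.mem_filter.2 ⟨mem_pts h2 hq, hq⟩))
  exact ⟨_, good_insert hF hund hbad, Finset.subset_insert _ _, p,
    mem_insert.2 (Or.inr (std_line h1 hp0)), mem_insert.2 (Or.inl ⟨rfl, rfl, rfl⟩)⟩

theorem RB {F : Finset Trip} (hF : Good F) {m m' : Option ℚ} (hm : m ≠ m') (b b' : ℚ) :
    ∃ F', Good F' ∧ F ⊆ F' ∧ ∃ p, mem F' m p b ∧ mem F' m' p b' := by
  classical
  by_cases h : ∃ p, mem F m p b ∧ mem F m' p b'
  · exact ⟨F, hF, subset_rfl, h⟩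
  by_cases h1 : StdLine m b
  · by_cases h2 : StdLine m' b'
    · obtain ⟨p, hp1, hp2⟩ := J_meet hm b b'
      exact absurd ⟨p, std_line h1 hp1, std_line h2 hp2⟩ h
    · exact RB_std hF hm h h1 h2
  · by_cases h2 : StdLine m' b'
    · obtain ⟨F', k1, k2, p, k3, k4⟩ := RB_std hF hm.symm
        (fun ⟨p, hp⟩ => h ⟨p, hp.2, hp.1⟩) h2 h1
      exact ⟨F', k1, k2, p, k4, k3⟩
    · obtain ⟨k, rfl, hk0, hk1, hb⟩ := nonstd h1
      obtain ⟨k', rfl, hk0', hk1', hb'⟩ := nonstd h2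
      obtain ⟨c, hc⟩ := Infinite.exists_notMem_finset
        (insert 0 ((pts F b ∪ pts F b').image (fun q => q.1)))
      have hc0 : c ≠ 0 := fun e => hc (by rw [e]; exact Finset.mem_insert_self _ _)
      have hcq : ∀ q, q ∈ pts F b ∪ pts F b' → q.1 ≠ c := fun q hq e =>
        hc (Finset.mem_insert_of_mem (Finset.mem_image.2 ⟨q, hq, e⟩))
      obtain ⟨p, hp0, hp1, hp2, hp3, hp4⟩ := carrier F (m0 := none) (b0 := c)
        (fun hh => hc0 hh.2)
        ((pts F b ∪ pts F b').filter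
          (fun q => mem F (some k) q b ∨ mem F (some k') q b'))
        (fun q hq => by
          rcases (Finset.mem_filter.1 hq).2 with hq | hq
          · exact line_ne_zero hF h1 hq
          · exact line_ne_zero hF h2 hq)
        (fun q hq => hcq q (Finset.mem_filter.1 hq).1)
        {some k, some k'} (by simp)
      have hund := undef' (F := F) hk0 hk1 hp1 (hp3 _ (by simp)) (fun b => hp2 _ b)
      have hgen : ∀ q, mem F (some k) q b ∨ mem F (some k') q b' →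
          ∀ m, StdLine m (J m q) → J m p ≠ J m q := by
        intro q hq
        refine hp4 q (Finset.mem_filter.2 ⟨?_, hq⟩)
        rcases hq with hq | hq
        · exact Finset.mem_union_left _ (mem_pts h1 hq)
        · exact Finset.mem_union_right _ (mem_pts h2 hq)
      have hbad : ¬ Bad F (some k) p b := insert_generic hF hp1 hp2
        (fun q hq => hgen q (Or.inl hq))
      have hG := good_insert hF hund hbad
      have hund' : ∀ b'', ¬ mem (insert (some k, p, b) F) (some k') p b'' := by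
        intro b'' hb''
        rw [mem_insert] at hb''
        rcases hb'' with ⟨e, -, -⟩ | hb''
        · exact hm e.symm
        · exact undef' (F := F) hk0' hk1' hp1 (hp3 _ (by simp)) (fun b => hp2 _ b) b'' hb''
      have hbad' : ¬ Bad (insert (some k, p, b) F) (some k') p b' := by
        rintro ⟨q, m1, b1, hq, hm1, g1, g2, g3⟩
        rw [mem_insert] at g1 g2 g3
        rcases g1 with ⟨e, -, -⟩ | g1
        · exact hm e.symm
        rcases g3 with ⟨-, e, -⟩ | g3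
        · exact hq e
        rcases g2 with ⟨e1, -, e3⟩ | g2
        · subst e1 e3
          exact h ⟨q, g3, g1⟩
        · rcases g2 with g2 | ⟨h4, h5⟩
          · exact hp2 _ _ g2
          · have h6 : StdLine m1 b1 := h5.resolve_right hp1
            have h7 := std_mem hF h6 g3
            exact hgen q (Or.inr g1) m1 (h7 ▸ h6) (h4.symm.trans h7)
      exact ⟨_, good_insert hG hund' hbad',
        (Finset.subset_insert _ _).trans (Finset.subset_insert _ _), p,
        mem_insert.2 (Or.inr (mem_insert.2 (Or.inl ⟨rfl, rfl, rfl⟩))),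
        mem_insert.2 (Or.inl ⟨rfl, rfl, rfl⟩)⟩

theorem fresh_k (F : Finset Trip) (p q : ℚ × ℚ) : ∃ k : ℚ, k ≠ 0 ∧ k ≠ 1 ∧
    (∀ x b, (some k, x, b) ∉ F) ∧ k ≠ p.2 / p.1 ∧ k ≠ q.2 / q.1 := by
  obtain ⟨k, hk⟩ := Infinite.exists_notMem_finset
    ((F.image (fun t => t.1.getD 0)) ∪ {0, 1, p.2 / p.1, q.2 / q.1})
  simp only [Finset.mem_union, Finset.mem_insert, Finset.mem_singleton, not_or] at hk
  refine ⟨k, hk.2.1, hk.2.2.1, ?_, hk.2.2.2.1, hk.2.2.2.2⟩
  intro x b hx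
  exact hk.1 (Finset.mem_image.2 ⟨_, hx, rfl⟩)

theorem J_ne_of_div {k : ℚ} {p : ℚ × ℚ} (hp : p.1 ≠ 0) (hk : k ≠ p.2 / p.1) :
    J (some k) p ≠ 0 := by
  intro h
  simp only [J] at h
  apply hk
  field_simp
  linarith

theorem RC_axis {F : Finset Trip} (hF : Good F) {q : ℚ × ℚ} {b : ℚ} (hb : b ≠ 0)
    (hq : q.1 ≠ 0) (h : ¬ ∃ m b', mem F m (0, b) b' ∧ mem F m q b') :
    ∃ F', Good F' ∧ F ⊆ F' ∧ ∃ m b', mem F' m (0, b) b' ∧ mem F' m q b' := by
  obtain ⟨k, hk0, hk1, hkF, hk2, -⟩ := fresh_k F q q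
  have hund := undef' (F := F) hk0 hk1 hq (J_ne_of_div hq hk2) (hkF q)
  have hbad : ¬ Bad F (some k) q b := by
    rintro ⟨x, m1, b1, hx, hm1, g1, g2, g3⟩
    have e := fresh_std hk0 hk1 hb (fun x => hkF x b) g1
    subst e
    exact h ⟨m1, b1, g3, g2⟩
  exact ⟨_, good_insert hF hund hbad, Finset.subset_insert _ _, some k, b,
    mem_insert.2 (Or.inr (std_icpt F k b)), mem_insert.2 (Or.inl ⟨rfl, rfl, rfl⟩)⟩

theorem RC {F : Finset Trip} (hF : Good F) (p q : ℚ × ℚ) (hpq : p ≠ q) :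
    ∃ F', Good F' ∧ F ⊆ F' ∧ ∃ m b, mem F' m p b ∧ mem F' m q b := by
  by_cases h : ∃ m b, mem F m p b ∧ mem F m q b
  · exact ⟨F, hF, subset_rfl, h⟩
  have horig : ∀ x : ℚ × ℚ, x.1 ≠ 0 → mem F (some (x.2 / x.1)) x 0 := fun x hx => by
    apply std_line (Or.inr (Or.inr (Or.inr rfl)))
    simp only [J]
    rw [div_mul_cancel₀ _ hx, sub_self]
  have h1 : p.1 ≠ q.1 := by
    intro e
    exact h ⟨none, p.1, std_line (Or.inl rfl) rfl, std_line (Or.inl rfl) e.symm⟩
  by_cases hp : p.1 = 0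
  · have hq : q.1 ≠ 0 := fun e => h1 (hp.trans e.symm)
    obtain ⟨p1, p2⟩ := p
    simp only at hp
    subst hp
    have hp2 : p2 ≠ 0 := by
      rintro rfl
      exact h ⟨some (q.2 / q.1), 0, std_icpt F _ 0, horig q hq⟩
    exact RC_axis hF hp2 hq h
  by_cases hq : q.1 = 0
  · obtain ⟨q1, q2⟩ := q
    simp only at hq
    subst hq
    have hq2 : q2 ≠ 0 := by
      rintro rfl
      exact h ⟨some (p.2 / p.1), 0, horig p hp, std_icpt F _ 0⟩
    obtain ⟨F', k1, k2, m, b, k3, k4⟩ := RC_axis hF hq2 hp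
      (fun ⟨m, b, e1, e2⟩ => h ⟨m, b, e2, e1⟩)
    exact ⟨F', k1, k2, m, b, k4, k3⟩
  obtain ⟨k, hk0, hk1, hkF, hk2, hk3⟩ := fresh_k F p q
  obtain ⟨b, hb0, hbF, hb1, hb2, hb3, hb4⟩ := fresh_b F p q
  have hund := undef' (F := F) hk0 hk1 hp (J_ne_of_div hp hk2) (hkF p)
  have hund2 := undef' (F := F) hk0 hk1 hq (J_ne_of_div hq hk3) (hkF q)
  have hbad : ¬ Bad F (some k) p b := by
    rintro ⟨x, m1, b1, hx, hm1, g1, g2, g3⟩
    have e := fresh_std hk0 hk1 hb0 (fun x => hkF x b) g1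
    subst e
    exact badA hF hp hb0 hbF hb1 hb2 g2 g3
  have hG := good_insert hF hund hbad
  have hund' : ∀ b'', ¬ mem (insert (some k, p, b) F) (some k) q b'' := by
    intro b'' hb''
    rw [mem_insert] at hb''
    rcases hb'' with ⟨-, e, -⟩ | hb''
    · exact hpq e.symm
    · exact hund2 b'' hb''
  have hbad' : ¬ Bad (insert (some k, p, b) F) (some k) q b := by
    rintro ⟨x, m1, b1, hx, hm1, g1, g2, g3⟩
    rw [mem_insert] at g1 g2 g3
    rcases g2 with ⟨e, -, -⟩ | g2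
    · exact hm1 e
    rcases g3 with ⟨e, -, -⟩ | g3
    · exact hm1 e
    rcases g1 with ⟨-, e, -⟩ | g1
    · subst e
      exact h ⟨m1, b1, g3, g2⟩
    · have e := fresh_std hk0 hk1 hb0 (fun x => hkF x b) g1
      subst e
      exact badA hF hq hb0 hbF hb3 hb4 g2 g3
  exact ⟨_, good_insert hG hund' hbad',
    (Finset.subset_insert _ _).trans (Finset.subset_insert _ _), some k, b,
    mem_insert.2 (Or.inr (mem_insert.2 (Or.inl ⟨rfl, rfl, rfl⟩))),
    mem_insert.2 (Or.inl ⟨rfl, rfl, rfl⟩)⟩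

/-! ### The generic plane -/

theorem good_start : Good {((some 2, (1, 3), 5) : Trip)} := by
  have h := good_insert (F := ∅) good_empty (m := some 2) (p := (1, 3)) (b := 5)
    (undef' (by norm_num) (by norm_num) (by norm_num) (by simp only [J]; norm_num) (by simp)) (by
      rintro ⟨q, m', b', hq, hm', h1, h2, h3⟩
      have e := fresh_std (by norm_num) (by norm_num) (by norm_num) (by simp) h1
      subst e
      exact badA good_empty (by norm_num) (by norm_num) (by simp [labs]) (by norm_num)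
        (by norm_num) h2 h3)
  simpa using h

abbrev PP := {F : Finset Trip // Good F}

abbrev Req := (Option ℚ × (ℚ × ℚ)) ⊕ (Option ℚ × Option ℚ × ℚ × ℚ) ⊕ ((ℚ × ℚ) × (ℚ × ℚ))

def reqSet : Req → Set PP
  | Sum.inl (m, p) => {F | ∃ b, mem F.1 m p b}
  | Sum.inr (Sum.inl (m, m', b, b')) => {F | m ≠ m' → ∃ p, mem F.1 m p b ∧ mem F.1 m' p b'}
  | Sum.inr (Sum.inr (p, q)) => {F | p ≠ q → ∃ m b, mem F.1 m p b ∧ mem F.1 m q b}

theorem reqSet_cofinal (r : Req) : IsCofinal (reqSet r) := by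
  rintro ⟨F, hF⟩
  rcases r with ⟨z, x⟩ | ⟨m, m', b, b'⟩ | ⟨p, q⟩
  · obtain ⟨F', h1, h2, h3⟩ := RA hF z x
    exact ⟨⟨F', h1⟩, h3, h2⟩
  · by_cases hz : m = m'
    · exact ⟨⟨F, hF⟩, fun h => absurd hz h, le_rfl⟩
    · obtain ⟨F', h1, h2, h3⟩ := RB hF hz b b'
      exact ⟨⟨F', h1⟩, fun _ => h3, h2⟩
  · by_cases hxy : p = q
    · exact ⟨⟨F, hF⟩, fun h => absurd hxy h, le_rfl⟩
    · obtain ⟨F', h1, h2, h3⟩ := RC hF p q hxy
      exact ⟨⟨F', h1⟩, fun _ => h3, h2⟩

theorem exists_plane : ∃ I : Option ℚ → ℚ × ℚ → ℚ, XPlane I ∧ I (some 2) (1, 3) = 5 := by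
  classical
  let 𝒟 : Req → Order.Cofinal PP := fun r => ⟨reqSet r, reqSet_cofinal r⟩
  let P0 : PP := ⟨_, good_start⟩
  let K := Order.idealOfCofinals P0 𝒟
  have hK0 : P0 ∈ K := Order.mem_idealOfCofinals P0 𝒟
  have hK : ∀ r, ∃ F : PP, F ∈ reqSet r ∧ F ∈ K := fun r =>
    Order.cofinal_meets_idealOfCofinals P0 𝒟 r
  have hdir : ∀ F F' : PP, F ∈ K → F' ∈ K → ∃ F'' : PP, F'' ∈ K ∧ F.1 ⊆ F''.1 ∧ F'.1 ⊆ F''.1 := by
    intro F F' h h'
    obtain ⟨F'', h1, h2, h3⟩ := K.directed F h F' h'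
    exact ⟨F'', h1, h2, h3⟩
  have htot : ∀ m p, ∃ b, ∃ F : PP, F ∈ K ∧ mem F.1 m p b := by
    intro m p
    obtain ⟨F, ⟨g, hg⟩, hFK⟩ := hK (Sum.inl (m, p))
    exact ⟨g, F, hFK, hg⟩
  choose I FI hIK hI using htot
  have huniq : ∀ (F : PP) m p b, F ∈ K → mem F.1 m p b → I m p = b := by
    intro F m p b hF hg
    obtain ⟨F'', h1, h2, h3⟩ := hdir F (FI m p) hF (hIK m p)
    exact F''.2.func _ _ _ _ (mem_mono h3 (hI m p)) (mem_mono h2 hg)
  refine ⟨I, ⟨?_, ?_, ?_, ?_, ?_, ?_, ?_, ?_⟩, ?_⟩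
  · intro x
    exact huniq P0 _ _ _ hK0 (std_line (Or.inl rfl) rfl)
  · intro x
    refine huniq P0 _ _ _ hK0 (std_line (Or.inr (Or.inl rfl)) ?_)
    simp [J]
  · intro x
    refine huniq P0 _ _ _ hK0 (std_line (Or.inr (Or.inr (Or.inl rfl))) ?_)
    simp [J]
  · intro m y
    exact huniq P0 _ _ _ hK0 (std_icpt _ m y)
  · intro m x
    refine huniq P0 _ _ _ hK0 (std_line (Or.inr (Or.inr (Or.inr rfl))) ?_)
    simp [J]
  · intro x y hxy m m' h h'
    by_contra hne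
    obtain ⟨F, h1, h2, h3⟩ := hdir _ _ (hIK m x) (hIK m y)
    obtain ⟨F', h1', h2', h3'⟩ := hdir _ _ (hIK m' x) (hIK m' y)
    obtain ⟨F'', k1, k2, k3⟩ := hdir _ _ h1 h1'
    refine F''.2.two m m' x y (I m x) (I m' x) hne hxy (mem_mono (h2.trans k2) (hI m x)) ?_
      (mem_mono (h2'.trans k3) (hI m' x)) ?_
    · rw [h]
      exact mem_mono (h3.trans k2) (hI m y)
    · rw [h']
      exact mem_mono (h3'.trans k3) (hI m' y)
  · intro x y
    by_cases hxy : x = y
    · exact ⟨none, by rw [hxy]⟩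
    · obtain ⟨F, hF, hFK⟩ := hK (Sum.inr (Sum.inr (x, y)))
      obtain ⟨m, b, h1, h2⟩ := hF hxy
      exact ⟨m, (huniq F m x b hFK h1).trans (huniq F m y b hFK h2).symm⟩
  · intro m m' hm d d'
    obtain ⟨F, hF, hFK⟩ := hK (Sum.inr (Sum.inl (m, m', d, d')))
    obtain ⟨p, h1, h2⟩ := hF hm
    exact ⟨p, huniq F m p d hFK h1, huniq F m' p d' hFK h2⟩
  · refine huniq P0 _ _ _ hK0 (Or.inl ?_)
    simp [P0]

end Pool.Agent.V11110.ST3
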