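import Pool.Agent.V11110.ST3

namespace Pool.Agent.V11110.ST4

open Pool.Agent.V11110.ST1 (J J_sep J_ex J_meet J_line_infinite J_add J_neg J_sub J_zero)
open Pool.Agent.V11110.ST3 (XPlane)

variable {I : Option ℚ → ℚ × ℚ → ℚ}

/-! ### Finite approximations -/

/-- Triples `(z, x, g)`: the `z`-th transversal takes the value `g` at `x`. -/
abbrev Trip := ℕ × (ℚ × ℚ) × (ℚ × ℚ)

/-- The approximation `F`, with the values at the origin included. -/
def mem (F : Finset Trip) (z : ℕ) (x g : ℚ × ℚ) : Prop := (z, x, g) ∈ F ∨ (x = 0 ∧ g = 0)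

structure Good (I : Option ℚ → ℚ × ℚ → ℚ) (F : Finset Trip) : Prop where
  func : ∀ z x g g', mem F z x g → mem F z x g' → g = g'
  c1 : ∀ z x y g h m, mem F z x g → mem F z y h → x ≠ y → I m x = I m y → J m g ≠ J m h
  c2 : ∀ z z' x y g h k l, z ≠ z' → x ≠ y → mem F z x g → mem F z y h → mem F z' x k →
    mem F z' y l → g - h ≠ k - l

def Bad (I : Option ℚ → ℚ × ℚ → ℚ) (F : Finset Trip) (z : ℕ) (x g : ℚ × ℚ) : Prop :=
  (∃ y h m, mem F z y h ∧ I m x = I m y ∧ J m g = J m h) ∨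
  (∃ z' y h k l, z' ≠ z ∧ mem F z y h ∧ mem F z' x k ∧ mem F z' y l ∧ g - h = k - l)

theorem mem_zero (F : Finset Trip) (z : ℕ) : mem F z 0 0 := Or.inr ⟨rfl, rfl⟩

theorem mem_mono {F F' : Finset Trip} (h : F ⊆ F') {z x g} (hm : mem F z x g) : mem F' z x g :=
  hm.imp (fun h' => h h') id

theorem mem_insert {F : Finset Trip} {z x g z1 x1 g1} :
    mem (insert (z, x, g) F) z1 x1 g1 ↔ (z1 = z ∧ x1 = x ∧ g1 = g) ∨ mem F z1 x1 g1 := by
  simp only [mem, Finset.mem_insert, Prod.mk.injEq]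
  tauto

theorem good_empty : Good I ∅ := by
  constructor
  · rintro z x g g' (h | ⟨-, h⟩) (h' | ⟨-, h'⟩)
    · simp at h
    · simp at h
    · simp at h'
    · rw [h, h']
  · rintro z x y g h m (h1 | ⟨h1, -⟩) (h2 | ⟨h2, -⟩) h3
    · simp at h1
    · simp at h1
    · simp at h2
    · exact absurd (h1.trans h2.symm) h3
  · rintro z z' x y g h k l - h3 (h1 | ⟨h1, -⟩) (h2 | ⟨h2, -⟩)
    · simp at h1
    · simp at h1
    · simp at h2
    · exact absurd (h1.trans h2.symm) h3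

theorem good_insert {F : Finset Trip} (hF : Good I F) {z : ℕ} {x g : ℚ × ℚ}
    (hund : ∀ g', ¬ mem F z x g') (hb : ¬ Bad I F z x g) : Good I (insert (z, x, g) F) := by
  constructor
  · intro z1 x1 g1 g2 h1 h2
    rw [mem_insert] at h1 h2
    rcases h1 with ⟨e1, e2, e3⟩ | h1
    · rcases h2 with ⟨e4, e5, e6⟩ | h2
      · rw [e3, e6]
      · subst e1 e2
        exact absurd h2 (hund _)
    · rcases h2 with ⟨e4, e5, e6⟩ | h2
      · subst e4 e5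
        exact absurd h1 (hund _)
      · exact hF.func _ _ _ _ h1 h2
  · intro z1 x1 y1 g1 h1 m hg hh hne hI hJ
    rw [mem_insert] at hg hh
    rcases hg with ⟨e1, e2, e3⟩ | hg
    · rcases hh with ⟨e4, e5, e6⟩ | hh
      · exact hne (e2.trans e5.symm)
      · subst e1 e2 e3
        exact hb (Or.inl ⟨_, _, m, hh, hI, hJ⟩)
    · rcases hh with ⟨e4, e5, e6⟩ | hh
      · subst e4 e5 e6
        exact hb (Or.inl ⟨_, _, m, hg, hI.symm, hJ.symm⟩)
      · exact hF.c1 _ _ _ _ _ _ hg hh hne hI hJ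
  · intro z1 z2 x1 y1 g1 h1 k1 l1 hz hne m1 m2 m3 m4 heq
    rw [mem_insert] at m1 m2 m3 m4
    rcases m1 with ⟨e1, e2, e3⟩ | m1
    · subst e1 e2 e3
      rcases m2 with ⟨-, e, -⟩ | m2
      · exact hne e.symm
      rcases m3 with ⟨e, -, -⟩ | m3
      · exact hz e.symm
      rcases m4 with ⟨e, -, -⟩ | m4
      · exact hz e.symm
      exact hb (Or.inr ⟨z2, y1, h1, k1, l1, hz.symm, m2, m3, m4, heq⟩)
    rcases m2 with ⟨e1, e2, e3⟩ | m2
    · subst e1 e2 e3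
      rcases m3 with ⟨e, -, -⟩ | m3
      · exact hz e.symm
      rcases m4 with ⟨e, -, -⟩ | m4
      · exact hz e.symm
      refine hb (Or.inr ⟨z2, x1, g1, l1, k1, hz.symm, m1, m4, m3, ?_⟩)
      rw [← neg_sub g1, heq, neg_sub]
    rcases m3 with ⟨e1, e2, e3⟩ | m3
    · subst e1 e2 e3
      rcases m4 with ⟨-, e, -⟩ | m4
      · exact hne e.symm
      exact hb (Or.inr ⟨z1, y1, l1, g1, h1, hz, m4, m1, m2, heq.symm⟩)
    rcases m4 with ⟨e1, e2, e3⟩ | m4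
    · subst e1 e2 e3
      refine hb (Or.inr ⟨z1, x1, k1, h1, g1, hz, m3, m2, m1, ?_⟩)
      rw [← neg_sub k1, ← heq, neg_sub]
    exact hF.c2 _ _ _ _ _ _ _ _ hz hne m1 m2 m3 m4 heq

/-- All values used by `F`. -/
def vals (F : Finset Trip) : Finset (ℚ × ℚ) := insert 0 (F.image (fun t => t.2.2))

theorem mem_vals {F : Finset Trip} {z x g} (h : mem F z x g) : g ∈ vals F := by
  rcases h with h | ⟨-, h⟩
  · exact Finset.mem_insert_of_mem (Finset.mem_image.2 ⟨_, h, rfl⟩)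
  · rw [h]; exact Finset.mem_insert_self _ _

theorem bad_finite (hX : XPlane I) {F : Finset Trip} {z : ℕ} {x : ℚ × ℚ} (hund : ∀ g', ¬ mem F z x g')
    (m0 : Option ℚ) (c0 : ℚ)
    (h0 : ∀ y h, mem F z y h → I m0 x = I m0 y → J m0 h ≠ c0) :
    {g | J m0 g = c0 ∧ Bad I F z x g}.Finite := by
  have hA : ((fun t : (ℚ × ℚ) × (ℚ × ℚ) × (ℚ × ℚ) => t.1 + t.2.1 - t.2.2) ''
      ((vals F ×ˢ vals F ×ˢ vals F : Finset _) : Set _)).Finite :=
    (Finset.finite_toSet _).image _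
  have hB : (⋃ t ∈ (insert (z, 0, 0) F : Finset Trip), {g : ℚ × ℚ | J m0 g = c0 ∧ x ≠ t.2.1 ∧
      ∃ m, m ≠ m0 ∧ I m x = I m t.2.1 ∧ J m g = J m t.2.2}).Finite := by
    apply Set.Finite.biUnion (Finset.finite_toSet _)
    intro t _
    apply Set.Subsingleton.finite
    rintro g ⟨hg1, hg2, m, hm, hI, hJ⟩ g' ⟨hg1', -, m', hm', hI', hJ'⟩
    have e : m = m' := hX.sep hg2 hI hI'
    subst e
    by_contra hne
    exact hm (J_sep hne (hJ.trans hJ'.symm) (hg1.trans hg1'.symm))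
  refine (hA.union hB).subset ?_
  rintro g ⟨hg, hbad⟩
  rcases hbad with ⟨y, h, m, hmem, hI, hJ⟩ | ⟨z', y, h, k, l, hz, h1, h2, h3, heq⟩
  · right
    simp only [Set.mem_iUnion, Set.mem_ofPred_eq]
    have hxy : x ≠ y := by
      rintro rfl
      exact hund _ hmem
    have hm : m ≠ m0 := by
      rintro rfl
      exact h0 y h hmem hI (hJ.symm.trans hg)
    rcases hmem with hmem | ⟨hy, hh⟩
    · exact ⟨(z, y, h), Finset.mem_insert_of_mem hmem, hg, hxy, m, hm, hI, hJ⟩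
    · subst hy hh
      exact ⟨(z, 0, 0), Finset.mem_insert_self _ _, hg, hxy, m, hm, hI, hJ⟩
  · left
    refine ⟨(h, k, l), ?_, ?_⟩
    · simp only [Finset.coe_product, Set.mem_prod, Finset.mem_coe]
      exact ⟨mem_vals h1, mem_vals h2, mem_vals h3⟩
    · simp only
      rw [add_sub_assoc, ← heq]
      abel

theorem ext_line (hX : XPlane I) {F : Finset Trip} (hF : Good I F) {z : ℕ} {x : ℚ × ℚ}
    (hund : ∀ g', ¬ mem F z x g') (m0 : Option ℚ) (c0 : ℚ)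
    (h0 : ∀ y h, mem F z y h → I m0 x = I m0 y → J m0 h ≠ c0) :
    ∃ F', Good I F' ∧ F ⊆ F' ∧ ∃ g, mem F' z x g ∧ J m0 g = c0 := by
  obtain ⟨g, hg1, hg2⟩ := ((J_line_infinite m0 c0).sdiff (bad_finite hX hund m0 c0 h0)).nonempty
  have hb : ¬ Bad I F z x g := fun h => hg2 ⟨hg1, h⟩
  exact ⟨insert (z, x, g) F, good_insert hF hund hb, Finset.subset_insert _ _, g,
    mem_insert.2 (Or.inl ⟨rfl, rfl, rfl⟩), hg1⟩

theorem fresh_c (F : Finset Trip) (e : ℚ) : ∃ c : ℚ, ∀ g ∈ vals F, J none g ≠ c ∧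
    J none g ≠ c - e := by
  obtain ⟨c, hc⟩ := Infinite.exists_notMem_finset
    ((vals F).image (J none) ∪ (vals F).image (fun g => J none g + e))
  refine ⟨c, fun g hg => ⟨fun h => hc ?_, fun h => hc ?_⟩⟩
  · exact Finset.mem_union_left _ (Finset.mem_image.2 ⟨g, hg, h⟩)
  · exact Finset.mem_union_right _ (Finset.mem_image.2 ⟨g, hg, by rw [h]; ring⟩)

theorem R1 (hX : XPlane I) {F : Finset Trip} (hF : Good I F) (z : ℕ) (x : ℚ × ℚ) :
    ∃ F', Good I F' ∧ F ⊆ F' ∧ ∃ g, mem F' z x g := by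
  by_cases h : ∃ g, mem F z x g
  · exact ⟨F, hF, subset_rfl, h⟩
  · push Not at h
    obtain ⟨c, hc⟩ := fresh_c F 0
    obtain ⟨F', h1, h2, g, h3, -⟩ := ext_line hX hF h none c
      (fun y h' hm _ => (hc h' (mem_vals hm)).1)
    exact ⟨F', h1, h2, g, h3⟩

theorem I_line_infinite (hX : XPlane I) (m : Option ℚ) (d : ℚ) : {x | I m x = d}.Infinite := by
  obtain ⟨m', hm'⟩ : ∃ m' : Option ℚ, m' ≠ m := exists_ne m
  have hex : ∀ q : ℚ, ∃ x : ℚ × ℚ, I m' x = q ∧ I m x = d := fun q => hX.meet hm' q d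
  choose f hf using hex
  have : Function.Injective f := fun a b h => by
    rw [← (hf a).1, ← (hf b).1, h]
  refine (Set.infinite_range_of_injective this).mono ?_
  rintro _ ⟨q, rfl⟩
  exact (hf q).2

theorem fresh_x (F : Finset Trip) {S : Set (ℚ × ℚ)} (hS : S.Infinite) :
    ∃ x ∈ S, ∀ z g, ¬ mem F z x g := by
  obtain ⟨x, hx, hx'⟩ := (hS.sdiff (Finset.finite_toSet
    (insert 0 (F.image (fun t => t.2.1)) : Finset (ℚ × ℚ)))).nonempty
  refine ⟨x, hx, ?_⟩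
  rintro z g (h | ⟨h, -⟩)
  · exact hx' (Finset.mem_coe.2 (Finset.mem_insert_of_mem (Finset.mem_image.2 ⟨_, h, rfl⟩)))
  · exact hx' (Finset.mem_coe.2 (Finset.mem_insert.2 (Or.inl h)))

theorem R2 (hX : XPlane I) {F : Finset Trip} (hF : Good I F) (z : ℕ) (m : Option ℚ) (d c : ℚ) :
    ∃ F', Good I F' ∧ F ⊆ F' ∧ ∃ x g, mem F' z x g ∧ I m x = d ∧ J m g = c := by
  by_cases h : ∃ x g, mem F z x g ∧ I m x = d ∧ J m g = c
  · exact ⟨F, hF, subset_rfl, h⟩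
  · push Not at h
    obtain ⟨x, hx, hfr⟩ := fresh_x F (I_line_infinite hX m d)
    obtain ⟨F', h1, h2, g, h3, h4⟩ := ext_line hX hF (hfr z) m c
      (fun y h' hm hI => h y h' hm (hI.symm.trans hx))
    exact ⟨F', h1, h2, x, g, h3, hx, h4⟩

/-- Choose a value `g` such that both `g` and `g - d` are admissible. -/
theorem two_vals (hX : XPlane I) {F : Finset Trip} {z z' : ℕ} {x y : ℚ × ℚ}
    (hund : ∀ g', ¬ mem F z x g') (hund' : ∀ g', ¬ mem F z' y g') (d : ℚ × ℚ) :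
    ∃ g, ¬ Bad I F z x g ∧ ¬ Bad I F z' y (g - d) := by
  obtain ⟨c, hc⟩ := fresh_c F (J none d)
  have f1 := bad_finite hX hund none c (fun y h' hm _ => (hc h' (mem_vals hm)).1)
  have f2 := bad_finite hX hund' none (c - J none d) (fun y h' hm _ => (hc h' (mem_vals hm)).2)
  have f3 := f2.image (fun g => g + d)
  obtain ⟨g, hg1, hg2⟩ := ((J_line_infinite none c).sdiff (f1.union f3)).nonempty
  refine ⟨g, fun h => hg2 (Or.inl ⟨hg1, h⟩), fun h => hg2 (Or.inr ⟨g - d, ⟨?_, h⟩, ?_⟩)⟩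
  · rw [J_sub]
    rw [Set.mem_ofPred_eq] at hg1
    rw [hg1]
  · simp

theorem R3 (hX : XPlane I) {F : Finset Trip} (hF : Good I F) {z z' : ℕ} (hz : z ≠ z') (g0 : ℚ × ℚ) :
    ∃ F', Good I F' ∧ F ⊆ F' ∧ ∃ x g g', mem F' z x g ∧ mem F' z' x g' ∧ g - g' = g0 := by
  by_cases h : ∃ x g g', mem F z x g ∧ mem F z' x g' ∧ g - g' = g0
  · exact ⟨F, hF, subset_rfl, h⟩
  · push Not at h
    obtain ⟨x, -, hfr⟩ := fresh_x F (Set.infinite_univ (α := ℚ × ℚ))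
    obtain ⟨g, hb1, hb2⟩ := two_vals hX (hfr z) (hfr z') g0
    have hG1 := good_insert hF (hfr z) hb1
    have hund : ∀ g', ¬ mem (insert (z, x, g) F) z' x g' := by
      intro g' hg'
      rw [mem_insert] at hg'
      rcases hg' with ⟨e, -, -⟩ | hg'
      · exact hz e.symm
      · exact hfr _ _ hg'
    have hb : ¬ Bad I (insert (z, x, g) F) z' x (g - g0) := by
      rintro (⟨y, h1, m, hm, hI, hJ⟩ | ⟨z'', y, h1, k, l, hz'', m1, m2, m3, heq⟩)
      · rw [mem_insert] at hm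
        rcases hm with ⟨e, -, -⟩ | hm
        · exact hz e.symm
        · exact hb2 (Or.inl ⟨y, h1, m, hm, hI, hJ⟩)
      · rw [mem_insert] at m1 m2 m3
        rcases m1 with ⟨e, -, -⟩ | m1
        · exact hz e.symm
        rcases m2 with ⟨e1, -, e3⟩ | m2
        · subst e1 e3
          rcases m3 with ⟨-, e2, -⟩ | m3
          · subst e2
            exact hfr _ _ m1
          · refine h y l h1 m3 m1 ?_
            have : l - h1 = k - (k - g0) + (k - g0 - h1) - (k - l) := by abel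
            rw [this, heq]
            abel
        · exact hfr _ _ m2
    refine ⟨insert (z', x, g - g0) (insert (z, x, g) F), good_insert hG1 hund hb,
      (Finset.subset_insert _ _).trans (Finset.subset_insert _ _), x, g, g - g0, ?_, ?_, ?_⟩
    · exact mem_insert.2 (Or.inr (mem_insert.2 (Or.inl ⟨rfl, rfl, rfl⟩)))
    · exact mem_insert.2 (Or.inl ⟨rfl, rfl, rfl⟩)
    · abel

theorem fresh_z (F : Finset Trip) : ∃ z : ℕ, ∀ x g, mem F z x g → x = 0 ∧ g = 0 := by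
  obtain ⟨z, hz⟩ := Infinite.exists_notMem_finset (F.image (fun t => t.1))
  refine ⟨z, ?_⟩
  rintro x g (h | h)
  · exact absurd (Finset.mem_image.2 ⟨_, h, rfl⟩) hz
  · exact h

theorem R4a {F : Finset Trip} (hF : Good I F) {x : ℚ × ℚ} (hx : x ≠ 0) {d : ℚ × ℚ}
    (hd : ∀ m, I m x = I m 0 → J m d ≠ 0) :
    ∃ F', Good I F' ∧ F ⊆ F' ∧ ∃ z, mem F' z x d := by
  by_cases h : ∃ z, mem F z x d
  · exact ⟨F, hF, subset_rfl, h⟩
  · push Not at h
    obtain ⟨z, hz⟩ := fresh_z F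
    have hund : ∀ g', ¬ mem F z x g' := fun g' hg' => hx (hz _ _ hg').1
    have hb : ¬ Bad I F z x d := by
      rintro (⟨y, h1, m, hm, hI, hJ⟩ | ⟨z', y, h1, k, l, hz', m1, m2, m3, heq⟩)
      · obtain ⟨e1, e2⟩ := hz _ _ hm
        subst e1 e2
        rw [J_zero] at hJ
        exact hd m hI hJ
      · obtain ⟨e1, e2⟩ := hz _ _ m1
        subst e1 e2
        have e3 : l = 0 := hF.func _ _ _ _ m3 (mem_zero _ _)
        rw [e3, sub_zero, sub_zero] at heq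
        rw [heq] at h
        exact h _ m2
    exact ⟨insert (z, x, d) F, good_insert hF hund hb, Finset.subset_insert _ _, z,
      mem_insert.2 (Or.inl ⟨rfl, rfl, rfl⟩)⟩

theorem R4 (hX : XPlane I) {F : Finset Trip} (hF : Good I F) {x y : ℚ × ℚ} (hxy : x ≠ y) {d : ℚ × ℚ}
    (hd : ∀ m, I m x = I m y → J m d ≠ 0) :
    ∃ F', Good I F' ∧ F ⊆ F' ∧ ∃ z g h, mem F' z x g ∧ mem F' z y h ∧ g - h = d := by
  by_cases hy : y = 0
  · subst hy
    obtain ⟨F', h1, h2, z, h3⟩ := R4a hF hxy hd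
    exact ⟨F', h1, h2, z, d, 0, h3, mem_zero _ _, sub_zero d⟩
  by_cases hx : x = 0
  · subst hx
    obtain ⟨F', h1, h2, z, h3⟩ := R4a (d := -d) hF hy (fun m hm => by
      rw [J_neg]; exact neg_ne_zero.2 (hd m hm.symm))
    exact ⟨F', h1, h2, z, 0, -d, mem_zero _ _, h3, by simp⟩
  by_cases h : ∃ z g h, mem F z x g ∧ mem F z y h ∧ g - h = d
  · exact ⟨F, hF, subset_rfl, h⟩
  push Not at h
  obtain ⟨z, hz⟩ := fresh_z F
  have hu1 : ∀ g', ¬ mem F z x g' := fun g' hg' => hx (hz _ _ hg').1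
  have hu2 : ∀ g', ¬ mem F z y g' := fun g' hg' => hy (hz _ _ hg').1
  obtain ⟨g, hb1, hb2⟩ := two_vals hX hu1 hu2 d
  have hG1 := good_insert hF hu1 hb1
  have hund : ∀ g', ¬ mem (insert (z, x, g) F) z y g' := by
    intro g' hg'
    rw [mem_insert] at hg'
    rcases hg' with ⟨-, e, -⟩ | hg'
    · exact hxy e.symm
    · exact hu2 _ hg'
  have hb : ¬ Bad I (insert (z, x, g) F) z y (g - d) := by
    rintro (⟨y', h1, m, hm, hI, hJ⟩ | ⟨z', y', h1, k, l, hz', m1, m2, m3, heq⟩)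
    · rw [mem_insert] at hm
      rcases hm with ⟨-, e1, e2⟩ | hm
      · subst e1 e2
        rw [J_sub] at hJ
        exact hd m hI.symm (by linarith)
      · exact hb2 (Or.inl ⟨y', h1, m, hm, hI, hJ⟩)
    · rw [mem_insert] at m1 m2 m3
      rcases m2 with ⟨-, e, -⟩ | m2
      · exact hxy e.symm
      rcases m3 with ⟨e, -, -⟩ | m3
      · exact hz' e
      rcases m1 with ⟨-, e1, e2⟩ | m1
      · subst e1 e2
        refine h z' l k m3 m2 ?_
        have h5 : -(h1 - d - h1) = -(k - l) := by rw [heq]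
        have h6 : -(h1 - d - h1) = d := by abel
        rw [h6, neg_sub] at h5
        exact h5.symm
      · exact hb2 (Or.inr ⟨z', y', h1, k, l, hz', m1, m2, m3, heq⟩)
  refine ⟨insert (z, y, g - d) (insert (z, x, g) F), good_insert hG1 hund hb,
    (Finset.subset_insert _ _).trans (Finset.subset_insert _ _), z, g, g - d, ?_, ?_, ?_⟩
  · exact mem_insert.2 (Or.inr (mem_insert.2 (Or.inl ⟨rfl, rfl, rfl⟩)))
  · exact mem_insert.2 (Or.inl ⟨rfl, rfl, rfl⟩)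
  · abel

/-! ### The generic family -/

abbrev PP (I : Option ℚ → ℚ × ℚ → ℚ) := {F : Finset Trip // Good I F}

abbrev Req := (ℕ × (ℚ × ℚ)) ⊕ (ℕ × Option ℚ × ℚ × ℚ) ⊕ (ℕ × ℕ × (ℚ × ℚ)) ⊕
  ((ℚ × ℚ) × (ℚ × ℚ) × (ℚ × ℚ))

def reqSet (I : Option ℚ → ℚ × ℚ → ℚ) : Req → Set (PP I)
  | Sum.inl (z, x) => {F | ∃ g, mem F.1 z x g}
  | Sum.inr (Sum.inl (z, m, d, c)) => {F | ∃ x g, mem F.1 z x g ∧ I m x = d ∧ J m g = c}
  | Sum.inr (Sum.inr (Sum.inl (z, z', g0))) =>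
      {F | z ≠ z' → ∃ x g g', mem F.1 z x g ∧ mem F.1 z' x g' ∧ g - g' = g0}
  | Sum.inr (Sum.inr (Sum.inr (x, y, d))) =>
      {F | x ≠ y → (∀ m, I m x = I m y → J m d ≠ 0) →
        ∃ z g h, mem F.1 z x g ∧ mem F.1 z y h ∧ g - h = d}

theorem reqSet_cofinal (hX : XPlane I) (r : Req) : IsCofinal (reqSet I r) := by
  rintro ⟨F, hF⟩
  rcases r with ⟨z, x⟩ | ⟨z, m, d, c⟩ | ⟨z, z', g0⟩ | ⟨x, y, d⟩
  · obtain ⟨F', h1, h2, h3⟩ := R1 hX hF z x
    exact ⟨⟨F', h1⟩, h3, h2⟩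
  · obtain ⟨F', h1, h2, h3⟩ := R2 hX hF z m d c
    exact ⟨⟨F', h1⟩, h3, h2⟩
  · by_cases hz : z = z'
    · exact ⟨⟨F, hF⟩, fun h => absurd hz h, le_rfl⟩
    · obtain ⟨F', h1, h2, h3⟩ := R3 hX hF hz g0
      exact ⟨⟨F', h1⟩, fun _ => h3, h2⟩
  · by_cases hxy : x ≠ y ∧ ∀ m, I m x = I m y → J m d ≠ 0
    · obtain ⟨F', h1, h2, h3⟩ := R4 hX hF hxy.1 hxy.2
      exact ⟨⟨F', h1⟩, fun _ _ => h3, h2⟩
    · exact ⟨⟨F, hF⟩, fun h h' => absurd ⟨h, h'⟩ hxy, le_rfl⟩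

theorem exists_family (hX : XPlane I) : ∃ σ : ℕ → ℚ × ℚ → ℚ × ℚ,
    (∀ z, σ z 0 = 0) ∧
    (∀ z m d c, ∃! x, I m x = d ∧ J m (σ z x) = c) ∧
    (∀ z z', z ≠ z' → ∀ g, ∃! x, σ z x - σ z' x = g) ∧
    (∀ x y, x ≠ y → ∀ d, (∀ m, I m x = I m y → J m d ≠ 0) → ∃! z, σ z x - σ z y = d) := by
  classical
  let 𝒟 : Req → Order.Cofinal (PP I) := fun r => ⟨reqSet I r, reqSet_cofinal hX r⟩
  let K := Order.idealOfCofinals (⟨∅, good_empty⟩ : PP I) 𝒟
  have hK : ∀ r, ∃ F : PP I, F ∈ reqSet I r ∧ F ∈ K := fun r =>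
    Order.cofinal_meets_idealOfCofinals (⟨∅, good_empty⟩ : PP I) 𝒟 r
  have hdir : ∀ F F' : PP I, F ∈ K → F' ∈ K → ∃ F'' : PP I, F'' ∈ K ∧ F.1 ⊆ F''.1 ∧ F'.1 ⊆ F''.1 := by
    intro F F' h h'
    obtain ⟨F'', h1, h2, h3⟩ := K.directed F h F' h'
    exact ⟨F'', h1, h2, h3⟩
  -- choose values
  have htot : ∀ z x, ∃ g, ∃ F : PP I, F ∈ K ∧ mem F.1 z x g := by
    intro z x
    obtain ⟨F, ⟨g, hg⟩, hFK⟩ := hK (Sum.inl (z, x))
    exact ⟨g, F, hFK, hg⟩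
  choose σ Fσ hσK hσ using htot
  have huniq : ∀ (F : PP I) z x g, F ∈ K → mem F.1 z x g → g = σ z x := by
    intro F z x g hF hg
    obtain ⟨F'', h1, h2, h3⟩ := hdir F (Fσ z x) hF (hσK z x)
    exact F''.2.func _ _ _ _ (mem_mono h2 hg) (mem_mono h3 (hσ z x))
  have hC1 : ∀ z x y m, x ≠ y → I m x = I m y → J m (σ z x) ≠ J m (σ z y) := by
    intro z x y m hxy hI
    obtain ⟨F, h1, h2, h3⟩ := hdir _ _ (hσK z x) (hσK z y)
    exact F.2.c1 _ _ _ _ _ _ (mem_mono h2 (hσ z x)) (mem_mono h3 (hσ z y)) hxy hI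
  have hC2 : ∀ z z' x y, z ≠ z' → x ≠ y → σ z x - σ z y ≠ σ z' x - σ z' y := by
    intro z z' x y hz hxy
    obtain ⟨F, h1, h2, h3⟩ := hdir _ _ (hσK z x) (hσK z y)
    obtain ⟨F', h1', h2', h3'⟩ := hdir _ _ (hσK z' x) (hσK z' y)
    obtain ⟨F'', k1, k2, k3⟩ := hdir _ _ h1 h1'
    exact F''.2.c2 _ _ _ _ _ _ _ _ hz hxy (mem_mono (h2.trans k2) (hσ z x))
      (mem_mono (h3.trans k2) (hσ z y)) (mem_mono (h2'.trans k3) (hσ z' x))
      (mem_mono (h3'.trans k3) (hσ z' y))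
  refine ⟨σ, ?_, ?_, ?_, ?_⟩
  · intro z
    exact (huniq _ z 0 0 (hσK z 0) (mem_zero _ _)).symm
  · intro z m d c
    obtain ⟨F, ⟨x, g, h1, h2, h3⟩, hFK⟩ := hK (Sum.inr (Sum.inl (z, m, d, c)))
    have e := huniq F z x g hFK h1
    subst e
    refine ⟨x, ⟨h2, h3⟩, ?_⟩
    rintro y ⟨h4, h5⟩
    by_contra hne
    exact hC1 z y x m hne (h4.trans h2.symm) (h5.trans h3.symm)
  · intro z z' hz g0
    obtain ⟨F, hF, hFK⟩ := hK (Sum.inr (Sum.inr (Sum.inl (z, z', g0))))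
    obtain ⟨x, g, g', h1, h2, h3⟩ := hF hz
    have e := huniq F z x g hFK h1
    have e' := huniq F z' x g' hFK h2
    subst e e'
    refine ⟨x, h3, ?_⟩
    intro y hy
    by_contra hne
    refine hC2 z z' y x hz hne ?_
    have h6 : σ z y - σ z' y = σ z x - σ z' x := hy.trans h3.symm
    rw [sub_eq_sub_iff_add_eq_add] at h6 ⊢
    rw [h6, add_comm]
  · intro x y hxy d hd
    obtain ⟨F, hF, hFK⟩ := hK (Sum.inr (Sum.inr (Sum.inr (x, y, d))))
    obtain ⟨z, g, h, h1, h2, h3⟩ := hF hxy hd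
    have e := huniq F z x g hFK h1
    have e' := huniq F z y h hFK h2
    subst e e'
    refine ⟨z, h3, ?_⟩
    intro z' hz'
    by_contra hne
    exact hC2 z' z x y hne hxy (hz'.trans h3.symm)

end Pool.Agent.V11110.ST4
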