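import Mathlib

open scoped InnerProductSpace ComplexConjugate ENNReal

noncomputable section

namespace Pool.Agent.V11110.WH

/-- The Hilbert space of square summable functions on `G`. -/
abbrev L2 (G : Type*) := lp (fun _ : G => ℂ) 2

/-- Normalised circle valued 2-cocycles on a group. -/
structure Cocycle (G : Type*) [Group G] where
  /-- the values of the cocycle -/
  val : G → G → ℂ
  norm_eq : ∀ g h, ‖val g h‖ = 1
  one_left : ∀ g, val 1 g = 1
  one_right : ∀ g, val g 1 = 1
  assoc : ∀ g h k, val g h * val (g * h) k = val h k * val g (h * k)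

variable {G : Type*} [Group G] (σ : Cocycle G)

theorem tsum_shift (g : G) (F : G → ℝ) (hF : Summable F) :
    Summable (fun k => F (g⁻¹ * k)) ∧ ∑' k, F (g⁻¹ * k) = ∑' k, F k := by
  refine ⟨?_, ?_⟩
  · exact (Equiv.mulLeft g⁻¹).summable_iff.mpr hF
  · exact (Equiv.mulLeft g⁻¹).tsum_eq F

theorem memLam (g : G) (f : L2 G) :
    Memℓp (fun k => σ.val g (g⁻¹ * k) * f (g⁻¹ * k)) 2 := by
  rw [memℓp_gen_iff (by norm_num)]
  have h1 : Summable (fun k => ‖f k‖ ^ (2 : ℝ≥0∞).toReal) :=
    (memℓp_gen_iff (by norm_num)).mp (lp.memℓp f)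
  have h2 := (tsum_shift g _ h1).1
  refine h2.congr (fun k => ?_)
  simp only [norm_mul, σ.norm_eq, one_mul]

/-- The function underlying the twisted left translation. -/
def lamFun (g : G) (f : L2 G) : L2 G :=
  ⟨fun k => σ.val g (g⁻¹ * k) * f (g⁻¹ * k), memLam σ g f⟩

theorem lamFun_apply (g : G) (f : L2 G) (k : G) :
    lamFun σ g f k = σ.val g (g⁻¹ * k) * f (g⁻¹ * k) := rfl

theorem norm_lamFun (g : G) (f : L2 G) : ‖lamFun σ g f‖ = ‖f‖ := by
  have h1 : Summable (fun k => ‖f k‖ ^ (2 : ℝ≥0∞).toReal) :=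
    (memℓp_gen_iff (by norm_num)).mp (lp.memℓp f)
  have h2 := (tsum_shift g _ h1).2
  have h3 : ‖lamFun σ g f‖ ^ (2 : ℝ≥0∞).toReal = ‖f‖ ^ (2 : ℝ≥0∞).toReal := by
    rw [lp.norm_rpow_eq_tsum (by norm_num), lp.norm_rpow_eq_tsum (by norm_num), ← h2]
    refine tsum_congr (fun k => ?_)
    rw [lamFun_apply, norm_mul, σ.norm_eq, one_mul]
  have h4 : (2 : ℝ≥0∞).toReal = 2 := by norm_num
  rw [h4] at h3
  have h5 : ‖lamFun σ g f‖ ^ 2 = ‖f‖ ^ 2 := by
    rw [← Real.rpow_natCast, ← Real.rpow_natCast]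
    exact_mod_cast h3
  exact (sq_eq_sq₀ (norm_nonneg _) (norm_nonneg _)).mp h5

/-- The twisted left regular representation: `Lam σ g δ_h = σ(g,h) δ_{gh}`. -/
def Lam (g : G) : L2 G →L[ℂ] L2 G :=
  LinearMap.mkContinuous
    { toFun := lamFun σ g
      map_add' := fun f₁ f₂ => by
        apply lp.ext; funext k
        rw [lp.coeFn_add, Pi.add_apply, lamFun_apply, lamFun_apply, lamFun_apply,
          lp.coeFn_add, Pi.add_apply, mul_add]
      map_smul' := fun c f => by
        apply lp.ext; funext k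
        rw [RingHom.id_apply, lp.coeFn_smul, Pi.smul_apply, lamFun_apply, lamFun_apply,
          lp.coeFn_smul, Pi.smul_apply, smul_eq_mul, smul_eq_mul]
        ring } 1
    (fun f => by
      rw [one_mul]
      exact (norm_lamFun σ g f).le)

theorem Lam_apply (g : G) (f : L2 G) (k : G) :
    Lam σ g f k = σ.val g (g⁻¹ * k) * f (g⁻¹ * k) := rfl

theorem norm_Lam_apply (g : G) (f : L2 G) : ‖Lam σ g f‖ = ‖f‖ := norm_lamFun σ g f

theorem Lam_one : Lam σ 1 = 1 := by
  ext1 f
  apply lp.ext; funext k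
  rw [Lam_apply]
  simp [σ.one_left]

theorem Lam_mul (g h : G) : Lam σ g * Lam σ h = σ.val g h • Lam σ (g * h) := by
  ext1 f
  apply lp.ext; funext k
  have e1 : (Lam σ g * Lam σ h) f k
      = σ.val g (g⁻¹ * k) * (σ.val h (h⁻¹ * (g⁻¹ * k)) * f (h⁻¹ * (g⁻¹ * k))) := rfl
  have e2 : (σ.val g h • Lam σ (g * h)) f k
      = σ.val g h * (σ.val (g * h) ((g * h)⁻¹ * k) * f ((g * h)⁻¹ * k)) := rfl
  rw [e1, e2]
  have e3 : (g * h)⁻¹ * k = h⁻¹ * (g⁻¹ * k) := by group
  have e4 := σ.assoc g h (h⁻¹ * (g⁻¹ * k))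
  rw [e3]
  have e5 : h * (h⁻¹ * (g⁻¹ * k)) = g⁻¹ * k := by group
  rw [e5] at e4
  linear_combination (- f (h⁻¹ * (g⁻¹ * k))) * e4

theorem star_Lam_mul (g : G) : star (Lam σ g) * Lam σ g = 1 := by
  have h := (ContinuousLinearMap.norm_map_iff_adjoint_comp_self (Lam σ g)).mp
    (fun f => norm_Lam_apply σ g f)
  exact h

theorem val_conj_mul (g h : G) : conj (σ.val g h) * σ.val g h = 1 := by
  have := σ.norm_eq g h
  rw [mul_comm, Complex.mul_conj, Complex.normSq_eq_norm_sq, this]
  norm_num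

theorem star_Lam (g : G) : star (Lam σ g) = conj (σ.val g g⁻¹) • Lam σ g⁻¹ := by
  have h1 : Lam σ g * (conj (σ.val g g⁻¹) • Lam σ g⁻¹) = 1 := by
    rw [mul_smul_comm, Lam_mul, smul_smul, val_conj_mul, one_smul, mul_inv_cancel, Lam_one]
  calc star (Lam σ g) = star (Lam σ g) * (Lam σ g * (conj (σ.val g g⁻¹) • Lam σ g⁻¹)) := by
        rw [h1, mul_one]
    _ = _ := by rw [← mul_assoc, star_Lam_mul, one_mul]

theorem Lam_mul_star (g : G) : Lam σ g * star (Lam σ g) = 1 := by
  rw [star_Lam, mul_smul_comm, Lam_mul, smul_smul, val_conj_mul, one_smul, mul_inv_cancel,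
    Lam_one]

open Classical in
/-- The unit vector at the identity. -/
def de (G : Type*) [Group G] : L2 G := lp.single 2 (1 : G) (1 : ℂ)

open Classical in
theorem de_apply (k : G) : de G k = if k = 1 then 1 else 0 := by
  unfold de
  rw [lp.single_apply, Pi.single_apply]

theorem norm_de : ‖de G‖ = 1 := by
  classical
  unfold de
  rw [lp.norm_single (by norm_num)]
  norm_num

theorem inner_de (f : L2 G) : ⟪de G, f⟫_ℂ = f 1 := by
  classical
  unfold de
  rw [lp.inner_single_left]
  simp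

/-- The canonical trace. -/
def tau (x : L2 G →L[ℂ] L2 G) : ℂ := ⟪de G, x (de G)⟫_ℂ

theorem tau_eq (x : L2 G →L[ℂ] L2 G) : tau x = x (de G) 1 := inner_de _

open Classical in
theorem Lam_de (g k : G) : Lam σ g (de G) k = if k = g then 1 else 0 := by
  rw [Lam_apply, de_apply]
  by_cases h : k = g
  · subst h; simp [σ.one_right]
  · have : ¬ g⁻¹ * k = 1 := by
      intro h2; apply h
      have := congrArg (fun x => g * x) h2
      simpa using this
    rw [if_neg this, if_neg h, mul_zero]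

open Classical in
theorem tau_Lam (g : G) : tau (Lam σ g) = if g = 1 then 1 else 0 := by
  rw [tau_eq, Lam_de]
  simp [eq_comm]

theorem tau_add (x y : L2 G →L[ℂ] L2 G) : tau (x + y) = tau x + tau y := by
  unfold tau; rw [add_apply, inner_add_right]

theorem tau_sub (x y : L2 G →L[ℂ] L2 G) : tau (x - y) = tau x - tau y := by
  unfold tau; rw [sub_apply, inner_sub_right]

theorem tau_smul (c : ℂ) (x : L2 G →L[ℂ] L2 G) : tau (c • x) = c * tau x := by
  unfold tau; rw [smul_apply, inner_smul_right]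

theorem tau_zero : tau (0 : L2 G →L[ℂ] L2 G) = 0 := by
  unfold tau; simp

theorem tau_sum {ι : Type*} (s : Finset ι) (x : ι → L2 G →L[ℂ] L2 G) :
    tau (∑ i ∈ s, x i) = ∑ i ∈ s, tau (x i) := by
  classical
  induction s using Finset.induction_on with
  | empty => simp [tau_zero]
  | insert a s ha ih => rw [Finset.sum_insert ha, Finset.sum_insert ha, tau_add, ih]

theorem tau_star_mul (x : L2 G →L[ℂ] L2 G) : tau (star x * x) = (‖x (de G)‖ ^ 2 : ℝ) := by
  unfold tau
  rw [mul_apply_eq_comp, ContinuousLinearMap.star_eq_adjoint,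
    ContinuousLinearMap.adjoint_inner_right, inner_self_eq_norm_sq_to_K]
  push_cast
  rfl

/-- The algebraic twisted group algebra inside the bounded operators. -/
def Alg : Submodule ℂ (L2 G →L[ℂ] L2 G) := Submodule.span ℂ (Set.range (Lam σ))

theorem Lam_mem (g : G) : Lam σ g ∈ Alg σ := Submodule.subset_span ⟨g, rfl⟩

theorem one_mem : (1 : L2 G →L[ℂ] L2 G) ∈ Alg σ := by
  rw [← Lam_one σ]; exact Lam_mem σ 1

theorem mul_mem {x y : L2 G →L[ℂ] L2 G} (hx : x ∈ Alg σ) (hy : y ∈ Alg σ) : x * y ∈ Alg σ := by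
  unfold Alg at hx hy
  induction hx using Submodule.span_induction with
  | mem x hx =>
    obtain ⟨g, rfl⟩ := hx
    induction hy using Submodule.span_induction with
    | mem y hy =>
      obtain ⟨h, rfl⟩ := hy
      rw [Lam_mul]
      exact Submodule.smul_mem _ _ (Lam_mem σ _)
    | zero => rw [mul_zero]; exact Submodule.zero_mem _
    | add a b _ _ ha hb => rw [mul_add]; exact Submodule.add_mem _ ha hb
    | smul c a _ ha => rw [mul_smul_comm]; exact Submodule.smul_mem _ _ ha
  | zero => rw [zero_mul]; exact Submodule.zero_mem _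
  | add a b _ _ ha hb => rw [add_mul]; exact Submodule.add_mem _ ha hb
  | smul c a _ ha => rw [smul_mul_assoc]; exact Submodule.smul_mem _ _ ha

theorem star_mem {x : L2 G →L[ℂ] L2 G} (hx : x ∈ Alg σ) : star x ∈ Alg σ := by
  unfold Alg at hx
  induction hx using Submodule.span_induction with
  | mem x hx =>
    obtain ⟨g, rfl⟩ := hx
    rw [star_Lam]
    exact Submodule.smul_mem _ _ (Lam_mem σ _)
  | zero => rw [star_zero]; exact Submodule.zero_mem _
  | add a b _ _ ha hb => rw [star_add]; exact Submodule.add_mem _ ha hb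
  | smul c a _ ha => rw [star_smul]; exact Submodule.smul_mem _ _ ha

theorem val_symm (g : G) : σ.val g g⁻¹ = σ.val g⁻¹ g := by
  have := σ.assoc g g⁻¹ g
  rw [mul_inv_cancel, inv_mul_cancel, σ.one_left, σ.one_right, mul_one, mul_one] at this
  exact this

/-- The trace property. -/
theorem tau_comm {x y : L2 G →L[ℂ] L2 G} (hx : x ∈ Alg σ) (hy : y ∈ Alg σ) :
    tau (x * y) = tau (y * x) := by
  classical
  unfold Alg at hx hy
  induction hx using Submodule.span_induction with
  | mem x hx =>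
    obtain ⟨g, rfl⟩ := hx
    induction hy using Submodule.span_induction with
    | mem y hy =>
      obtain ⟨h, rfl⟩ := hy
      rw [Lam_mul, Lam_mul, tau_smul, tau_smul, tau_Lam, tau_Lam]
      by_cases hgh : g * h = 1
      · have hh : h = g⁻¹ := eq_inv_of_mul_eq_one_right hgh
        subst hh
        rw [mul_inv_cancel, inv_mul_cancel, val_symm]
      · have h2 : ¬ h * g = 1 := by
          intro h3; exact hgh (mul_eq_one_comm.mp h3)
        rw [if_neg hgh, if_neg h2, mul_zero, mul_zero]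
    | zero => rw [mul_zero, zero_mul]
    | add a b _ _ ha hb => rw [mul_add, add_mul, tau_add, tau_add, ha, hb]
    | smul c a _ ha => rw [mul_smul_comm, smul_mul_assoc, tau_smul, tau_smul, ha]
  | zero => rw [mul_zero, zero_mul]
  | add a b _ _ ha hb => rw [mul_add, add_mul, tau_add, tau_add, ha, hb]
  | smul c a _ ha => rw [mul_smul_comm, smul_mul_assoc, tau_smul, tau_smul, ha]

end Pool.Agent.V11110.WH
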