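import Pool.Agent.V11110.WH1

open scoped InnerProductSpace ComplexConjugate ENNReal

noncomputable section

namespace Pool.Agent.V11110.WH

variable {G : Type*} [Group G] (σ : Cocycle G)

/-- Far translations are orthogonal. -/
theorem far_zero {x y : L2 G →L[ℂ] L2 G} (hx : x ∈ Alg σ) (hy : y ∈ Alg σ) :
    ∃ Z : Set G, Z.Finite ∧ ∀ g, g ∉ Z → tau (x * Lam σ g * y) = 0 := by
  classical
  unfold Alg at hx hy
  induction hx using Submodule.span_induction with
  | mem x hx =>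
    obtain ⟨a, rfl⟩ := hx
    induction hy using Submodule.span_induction with
    | mem y hy =>
      obtain ⟨b, rfl⟩ := hy
      refine ⟨{a⁻¹ * b⁻¹}, Set.finite_singleton _, fun g hg => ?_⟩
      rw [Lam_mul, smul_mul_assoc, Lam_mul, tau_smul, tau_smul, tau_Lam]
      have : ¬ a * g * b = 1 := by
        intro h
        apply hg
        have h2 : a * g = b⁻¹ := eq_inv_of_mul_eq_one_left h
        rw [Set.mem_singleton_iff, ← h2]
        group
      rw [if_neg this, mul_zero, mul_zero]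
    | zero => exact ⟨∅, Set.finite_empty, fun g _ => by rw [mul_zero, tau_zero]⟩
    | add u v _ _ hu hv =>
      obtain ⟨Z1, hZ1, h1⟩ := hu
      obtain ⟨Z2, hZ2, h2⟩ := hv
      refine ⟨Z1 ∪ Z2, hZ1.union hZ2, fun g hg => ?_⟩
      rw [mul_add, tau_add, h1 g (fun h => hg (Or.inl h)), h2 g (fun h => hg (Or.inr h)), add_zero]
    | smul c u _ hu =>
      obtain ⟨Z1, hZ1, h1⟩ := hu
      refine ⟨Z1, hZ1, fun g hg => ?_⟩
      rw [mul_smul_comm, tau_smul, h1 g hg, mul_zero]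
  | zero => exact ⟨∅, Set.finite_empty, fun g _ => by rw [zero_mul, zero_mul, tau_zero]⟩
  | add u v _ _ hu hv =>
    obtain ⟨Z1, hZ1, h1⟩ := hu
    obtain ⟨Z2, hZ2, h2⟩ := hv
    refine ⟨Z1 ∪ Z2, hZ1.union hZ2, fun g hg => ?_⟩
    rw [add_mul, add_mul, tau_add, h1 g (fun h => hg (Or.inl h)),
      h2 g (fun h => hg (Or.inr h)), add_zero]
  | smul c u _ hu =>
    obtain ⟨Z1, hZ1, h1⟩ := hu
    refine ⟨Z1, hZ1, fun g hg => ?_⟩
    rw [smul_mul_assoc, smul_mul_assoc, tau_smul, h1 g hg, mul_zero]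

theorem far_zero_star {x y : L2 G →L[ℂ] L2 G} (hx : x ∈ Alg σ) (hy : y ∈ Alg σ) :
    ∃ Z : Set G, Z.Finite ∧ ∀ g, g ∉ Z → tau (x * star (Lam σ g) * y) = 0 := by
  obtain ⟨Z, hZ, h⟩ := far_zero σ hx hy
  refine ⟨Inv.inv ⁻¹' Z, hZ.preimage inv_injective.injOn, fun g hg => ?_⟩
  rw [star_Lam, mul_smul_comm, smul_mul_assoc, tau_smul, h g⁻¹ hg, mul_zero]

/-- Families with far differences. -/
theorem exists_far [Infinite G] (Z : Set G) (hZ : Z.Finite) (m : ℕ) :
    ∃ F : Finset G, F.card = m ∧ ∀ x ∈ F, ∀ y ∈ F, x ≠ y → y * x⁻¹ ∉ Z := by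
  classical
  induction m with
  | zero => exact ⟨∅, rfl, fun x hx => absurd hx (Finset.notMem_empty x)⟩
  | succ m ih =>
    obtain ⟨F, hF, hFf⟩ := ih
    have hfin : (⋃ x ∈ F, (({x} : Set G) ∪ ((fun z => z * x) '' Z)
        ∪ ((fun z => z⁻¹ * x) '' Z))).Finite := by
      refine Set.Finite.biUnion F.finite_toSet (fun x _ => ?_)
      exact ((Set.finite_singleton x).union (hZ.image _)).union (hZ.image _)
    obtain ⟨g, hg⟩ := hfin.exists_notMem
    have hg' : ∀ x ∈ F, g ≠ x ∧ g * x⁻¹ ∉ Z ∧ x * g⁻¹ ∉ Z := by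
      intro x hx
      refine ⟨?_, ?_, ?_⟩
      · intro h
        apply hg
        exact Set.mem_biUnion hx (Or.inl (Or.inl h))
      · intro h
        apply hg
        exact Set.mem_biUnion hx (Or.inl (Or.inr ⟨g * x⁻¹, h, by simp⟩))
      · intro h
        apply hg
        exact Set.mem_biUnion hx (Or.inr ⟨x * g⁻¹, h, by simp⟩)
    have hgF : g ∉ F := fun h => (hg' g h).1 rfl
    refine ⟨insert g F, by rw [Finset.card_insert_of_notMem hgF, hF], ?_⟩
    intro x hx y hy hxy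
    rw [Finset.mem_insert] at hx hy
    rcases hx with rfl | hx
    · rcases hy with rfl | hy
      · exact absurd rfl hxy
      · exact (hg' y hy).2.2
    · rcases hy with rfl | hy
      · exact (hg' x hx).2.1
      · exact hFf x hx y hy hxy

theorem tau_conj_mul {T : L2 G →L[ℂ] L2 G} (hT : T ∈ Alg σ) (x y : G) :
    tau ((star (Lam σ x) * T * Lam σ x) * (star (Lam σ y) * T * Lam σ y))
      = tau (T * star (Lam σ (y * x⁻¹)) * T * Lam σ (y * x⁻¹)) := by
  have hx := Lam_mem σ x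
  have hy := Lam_mem σ y
  have e1 : (star (Lam σ x) * T * Lam σ x) * (star (Lam σ y) * T * Lam σ y)
      = star (Lam σ x) * (T * Lam σ x * star (Lam σ y) * T * Lam σ y) := by
    simp only [mul_assoc]
  rw [e1, tau_comm σ (star_mem σ hx)
    (mul_mem σ (mul_mem σ (mul_mem σ (mul_mem σ hT hx) (star_mem σ hy)) hT) hy)]
  obtain ⟨κ, hκ, hk⟩ : ∃ κ : ℂ, conj κ * κ = 1 ∧
      Lam σ y * star (Lam σ x) = κ • Lam σ (y * x⁻¹) := by
    refine ⟨conj (σ.val x x⁻¹) * σ.val y x⁻¹, ?_, ?_⟩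
    · rw [map_mul, Complex.conj_conj]
      have h1 := val_conj_mul σ x x⁻¹
      have h2 := val_conj_mul σ y x⁻¹
      linear_combination (conj (σ.val y x⁻¹) * σ.val y x⁻¹) * h1 + h2
    · rw [star_Lam, mul_smul_comm, Lam_mul, smul_smul]
  have hk2 : Lam σ x * star (Lam σ y) = conj κ • star (Lam σ (y * x⁻¹)) := by
    have := congrArg star hk
    rw [star_mul, star_star, star_smul] at this
    exact this
  have e2 : T * Lam σ x * star (Lam σ y) * T * Lam σ y * star (Lam σ x)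
      = T * (Lam σ x * star (Lam σ y)) * T * (Lam σ y * star (Lam σ x)) := by
    simp only [mul_assoc]
  rw [e2, hk, hk2]
  simp only [mul_smul_comm, smul_mul_assoc, smul_smul]
  rw [tau_smul]
  have : κ * conj κ = 1 := by rw [mul_comm]; exact hκ
  rw [this, one_mul]

theorem inner_self_re_nonneg' (v : L2 G) : 0 ≤ (⟪v, v⟫_ℂ).re := by
  have h : ⟪v, v⟫_ℂ = ((‖v‖ ^ 2 : ℝ) : ℂ) := by
    rw [inner_self_eq_norm_sq_to_K]; push_cast; rfl
  rw [h, Complex.ofReal_re]
  positivity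

theorem inner_eq_tau' (X Y : L2 G →L[ℂ] L2 G) :
    ⟪X (de G), Y (de G)⟫_ℂ = tau (star X * Y) := by
  unfold tau
  have h1 : (star X * Y) (de G) = (star X) (Y (de G)) := rfl
  rw [h1, ContinuousLinearMap.star_eq_adjoint, ContinuousLinearMap.adjoint_inner_right]

/-- There are far `g` for which the correlation of `T` and its conjugate is not too negative. -/
theorem exists_good [Infinite G] {T : L2 G →L[ℂ] L2 G} (hT : T ∈ Alg σ) (hTs : star T = T)
    (Z : Set G) (hZ : Z.Finite) (δ : ℝ) (hδ : 0 < δ) :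
    ∃ g, g ∉ Z ∧ -δ ≤ (tau (T * star (Lam σ g) * T * Lam σ g)).re := by
  classical
  by_contra hcon
  push Not at hcon
  set M : ℝ := (tau (T * star (Lam σ 1) * T * Lam σ 1)).re with hM
  obtain ⟨m, hm⟩ := exists_nat_gt (M / δ + 1)
  obtain ⟨F, hF, hFf⟩ := exists_far Z hZ (m + 1)
  set v : L2 G := ∑ x ∈ F, (star (Lam σ x) * T * Lam σ x) (de G) with hv
  have hself : ∀ x, star (star (Lam σ x) * T * Lam σ x) = star (Lam σ x) * T * Lam σ x := by
    intro x
    rw [star_mul, star_mul, star_star, hTs, mul_assoc]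
  have hin : ∀ x y, ⟪(star (Lam σ x) * T * Lam σ x) (de G),
      (star (Lam σ y) * T * Lam σ y) (de G)⟫_ℂ
      = tau (T * star (Lam σ (y * x⁻¹)) * T * Lam σ (y * x⁻¹)) := by
    intro x y
    rw [inner_eq_tau', hself x, tau_conj_mul σ hT x y]
  have h1 : 0 ≤ (⟪v, v⟫_ℂ).re := inner_self_re_nonneg' v
  have h2 : ⟪v, v⟫_ℂ = ∑ x ∈ F, ∑ y ∈ F,
      tau (T * star (Lam σ (y * x⁻¹)) * T * Lam σ (y * x⁻¹)) := by
    rw [hv, sum_inner]
    refine Finset.sum_congr rfl (fun x _ => ?_)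
    rw [inner_sum]
    exact Finset.sum_congr rfl (fun y _ => hin x y)
  have h3 : ∀ x ∈ F, (∑ y ∈ F, tau (T * star (Lam σ (y * x⁻¹)) * T * Lam σ (y * x⁻¹))).re
      ≤ M - m * δ := by
    intro x hx
    rw [← Finset.add_sum_erase F _ hx, Complex.add_re, mul_inv_cancel, ← hM, Complex.re_sum]
    have h4 : ∑ y ∈ F.erase x, (tau (T * star (Lam σ (y * x⁻¹)) * T * Lam σ (y * x⁻¹))).re
        ≤ ∑ y ∈ F.erase x, (-δ) := by
      refine Finset.sum_le_sum (fun y hy => ?_)
      rw [Finset.mem_erase] at hy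
      exact (hcon _ (hFf x hx y hy.2 (Ne.symm hy.1))).le
    rw [Finset.sum_const, Finset.card_erase_of_mem hx, hF, nsmul_eq_mul] at h4
    have h5 : ((m + 1 - 1 : ℕ) : ℝ) = m := by simp
    rw [h5] at h4
    linarith
  have h6 : (⟪v, v⟫_ℂ).re ≤ ∑ x ∈ F, (M - m * δ) := by
    rw [h2, Complex.re_sum]
    exact Finset.sum_le_sum h3
  rw [Finset.sum_const, hF, nsmul_eq_mul] at h6
  have h7 : M - m * δ < 0 := by
    have : M / δ < m := by linarith
    rw [div_lt_iff₀ hδ] at this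
    linarith
  have h8 : ((m + 1 : ℕ) : ℝ) * (M - m * δ) < 0 := by
    apply mul_neg_of_pos_of_neg _ h7
    positivity
  linarith

/-- Finite Fourier sums. -/
def opS (S : Finset G) (a : G → ℂ) : L2 G →L[ℂ] L2 G := ∑ s ∈ S, a s • Lam σ s

theorem opS_mem (S : Finset G) (a : G → ℂ) : opS σ S a ∈ Alg σ :=
  Submodule.sum_mem _ (fun s _ => Submodule.smul_mem _ _ (Lam_mem σ s))

open Classical in
/-- Coefficients on `S ∪ gS`. -/
def ext (S : Finset G) (g : G) (u : ℂ) (f h : G → ℂ) (k : G) : ℂ :=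
  if k ∈ S then f k else u * σ.val g (g⁻¹ * k) * h (g⁻¹ * k)

open Classical in
theorem opS_ext (S : Finset G) (g : G) (u : ℂ) (f h : G → ℂ) (hg : ∀ s ∈ S, g * s ∉ S) :
    opS σ (S ∪ S.image (fun s => g * s)) (ext σ S g u f h)
      = opS σ S f + u • (Lam σ g * opS σ S h) := by
  have hd : Disjoint S (S.image (fun s => g * s)) := by
    rw [Finset.disjoint_left]
    intro k hk hk2
    obtain ⟨s, hs, rfl⟩ := Finset.mem_image.mp hk2
    exact hg s hs hk
  unfold opS
  rw [Finset.sum_union hd]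
  congr 1
  · refine Finset.sum_congr rfl (fun s hs => ?_)
    unfold ext
    rw [if_pos hs]
  · rw [Finset.sum_image (fun a _ b _ hab => mul_left_cancel hab), Finset.mul_sum,
      Finset.smul_sum]
    refine Finset.sum_congr rfl (fun s hs => ?_)
    unfold ext
    rw [if_neg (hg s hs), mul_smul_comm, Lam_mul, smul_smul, smul_smul, inv_mul_cancel_left]
    congr 1
    ring

theorem opS_neg (S : Finset G) (h : G → ℂ) : opS σ S (fun s => - h s) = - opS σ S h := by
  unfold opS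
  rw [← Finset.sum_neg_distrib]
  exact Finset.sum_congr rfl (fun s _ => by rw [neg_smul])

end Pool.Agent.V11110.WH
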