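import Pool.Agent.V11110.WH2

open scoped InnerProductSpace ComplexConjugate ENNReal

noncomputable section

namespace Pool.Agent.V11110.WH

variable {G : Type*} [Group G] (σ : Cocycle G)

theorem tau_one : tau (1 : L2 G →L[ℂ] L2 G) = 1 := by
  have : tau (1 : L2 G →L[ℂ] L2 G) = ⟪de G, de G⟫_ℂ := rfl
  rw [this, inner_self_eq_norm_sq_to_K, norm_de]
  norm_num

theorem X_norm {A : L2 G →L[ℂ] L2 G} (hA : A ∈ Alg σ) (c : ℂ) (hc : tau (star A * A) = c) (g : G) :
    tau (star (star A * Lam σ g * A) * (star A * Lam σ g * A))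
      = c ^ 2 + tau ((A * star A - c • 1) * star (Lam σ g) * (A * star A - c • 1) * Lam σ g) := by
  have hL := Lam_mem σ g
  have hLs := star_mem σ hL
  have hAs := star_mem σ hA
  have hT : A * star A ∈ Alg σ := mul_mem σ hA hAs
  set T := A * star A with hTdef
  set L := Lam σ g with hLdef
  have e1 : star (star A * L * A) * (star A * L * A) = (star A * star L) * (A * star A * L * A) := by
    rw [star_mul, star_mul, star_star]
    simp only [mul_assoc]
  rw [e1, tau_comm σ (mul_mem σ hAs hLs) (mul_mem σ (mul_mem σ hT hL) hA)]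
  have e2 : A * star A * L * A * (star A * star L) = (T * L) * (T * star L) := by
    rw [hTdef]; simp only [mul_assoc]
  rw [e2, tau_comm σ (mul_mem σ hT hL) (mul_mem σ hT hLs)]
  set T0 := T - c • (1 : L2 G →L[ℂ] L2 G) with hT0
  have hT0m : T0 ∈ Alg σ := Submodule.sub_mem _ hT (Submodule.smul_mem _ _ (one_mem σ))
  have hTT : T = T0 + c • (1 : L2 G →L[ℂ] L2 G) := by rw [hT0]; abel
  have htau0 : tau T0 = 0 := by
    rw [hT0, tau_sub, tau_smul, tau_one, mul_one, hTdef, tau_comm σ hA hAs, hc, sub_self]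
  have hLL : star L * L = 1 := star_Lam_mul σ g
  have hLL' : L * star L = 1 := Lam_mul_star σ g
  have e3 : (T * star L) * (T * L) = T0 * star L * T0 * L + c • (T0 * (star L * L))
      + c • (star L * (T0 * L)) + c ^ 2 • (star L * L) := by
    rw [hTT]
    simp only [add_mul, mul_add, smul_mul_assoc, mul_smul_comm, one_mul, smul_smul, mul_assoc,
      ← pow_two, smul_add, add_assoc]
    abel
  rw [e3, hLL, mul_one, tau_add, tau_add, tau_add, tau_smul, tau_smul, tau_smul, htau0, tau_one,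
    tau_comm σ hLs (mul_mem σ hT0m hL), mul_assoc T0 L (star L), hLL', mul_one, htau0]
  ring

theorem norm_sq_eq_re (x : L2 G →L[ℂ] L2 G) : ‖x (de G)‖ ^ 2 = (tau (star x * x)).re := by
  rw [tau_star_mul, Complex.ofReal_re]

theorem norm_add_sq' (v w : L2 G) : ‖v + w‖ ^ 2 = ‖v‖ ^ 2 + 2 * (⟪v, w⟫_ℂ).re + ‖w‖ ^ 2 := by
  have := norm_add_sq (𝕜 := ℂ) v w
  simpa using this

theorem grow [Infinite G] {A : L2 G →L[ℂ] L2 G} (hA : A ∈ Alg σ) (c : ℝ) (hc0 : 0 < c)
    (hc : ‖A (de G)‖ ^ 2 = c) (Z : Set G) (hZ : Z.Finite) :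
    ∃ g, g ∉ Z ∧ ∃ u : ℂ, ‖u‖ = 1 ∧
      ‖(A + u • (Lam σ g * A)) (de G)‖ ^ 2 = 2 * c ∧
      4 * ‖(star A * A) (de G)‖ ^ 2 + c ^ 2 / 2
        ≤ ‖(star (A + u • (Lam σ g * A)) * (A + u • (Lam σ g * A))) (de G)‖ ^ 2 := by
  have hAs := star_mem σ hA
  have hN : star A * A ∈ Alg σ := mul_mem σ hAs hA
  have hcc : tau (star A * A) = (c : ℂ) := by rw [tau_star_mul, hc]
  have hT0m : A * star A - (c : ℂ) • (1 : L2 G →L[ℂ] L2 G) ∈ Alg σ :=
    Submodule.sub_mem _ (mul_mem σ hA hAs) (Submodule.smul_mem _ _ (one_mem σ))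
  have hT0s : star (A * star A - (c : ℂ) • (1 : L2 G →L[ℂ] L2 G))
      = A * star A - (c : ℂ) • (1 : L2 G →L[ℂ] L2 G) := by
    rw [star_sub, star_mul, star_star, star_smul, star_one]
    congr 2
    exact Complex.conj_ofReal c
  obtain ⟨Z1, hZ1, h1⟩ := far_zero σ hAs hA
  obtain ⟨Z2, hZ2, h2⟩ := far_zero_star σ hAs hA
  obtain ⟨Z3, hZ3, h3⟩ := far_zero σ (mul_mem σ hN hAs) hA
  obtain ⟨Z4, hZ4, h4⟩ := far_zero_star σ (mul_mem σ hN hAs) hA
  obtain ⟨g, hg, hgood⟩ := exists_good σ hT0m hT0s (Z ∪ (Z1 ∪ (Z2 ∪ (Z3 ∪ Z4))))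
    (hZ.union (hZ1.union (hZ2.union (hZ3.union hZ4)))) (c ^ 2 / 2) (by positivity)
  refine ⟨g, fun h => hg (Or.inl h), ?_⟩
  have g1 := h1 g (fun h => hg (Or.inr (Or.inl h)))
  have g2 := h2 g (fun h => hg (Or.inr (Or.inr (Or.inl h))))
  have g3 := h3 g (fun h => hg (Or.inr (Or.inr (Or.inr (Or.inl h)))))
  have g4 := h4 g (fun h => hg (Or.inr (Or.inr (Or.inr (Or.inr h)))))
  set L := Lam σ g with hL
  have hLL : star L * L = 1 := star_Lam_mul σ g
  set X := star A * L * A with hX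
  set Y := star A * star L * A with hY
  set N := star A * A with hNdef
  have hNs : star N = N := by rw [hNdef, star_mul, star_star]
  have hXn : c ^ 2 / 2 ≤ ‖X (de G)‖ ^ 2 := by
    rw [norm_sq_eq_re, hX, hL, X_norm σ hA (c : ℂ) hcc g, Complex.add_re]
    have : ((c : ℂ) ^ 2).re = c ^ 2 := by
      rw [← Complex.ofReal_pow, Complex.ofReal_re]
    rw [this]
    linarith
  have hNX : ⟪N (de G), X (de G)⟫_ℂ = 0 := by
    rw [inner_eq_tau', hNs, hX]
    have : N * (star A * L * A) = N * star A * L * A := by simp only [mul_assoc]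
    rw [this]; exact g3
  have hNY : ⟪N (de G), Y (de G)⟫_ℂ = 0 := by
    rw [inner_eq_tau', hNs, hY]
    have : N * (star A * star L * A) = N * star A * star L * A := by simp only [mul_assoc]
    rw [this]; exact g4
  obtain ⟨u, hu1, hu2⟩ : ∃ u : ℂ, ‖u‖ = 1 ∧
      0 ≤ (conj u * conj u * ⟪X (de G), Y (de G)⟫_ℂ).re := by
    rcases le_total 0 (⟪X (de G), Y (de G)⟫_ℂ).re with h | h
    · exact ⟨1, norm_one, by simpa using h⟩
    · refine ⟨Complex.I, Complex.norm_I, ?_⟩
      have : conj Complex.I * conj Complex.I = -1 := by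
        rw [Complex.conj_I]; ring_nf; rw [Complex.I_sq]
      rw [this, neg_one_mul, Complex.neg_re]
      linarith
  have huu : conj u * u = 1 := by
    rw [mul_comm, Complex.mul_conj, Complex.normSq_eq_norm_sq, hu1]; norm_num
  have hW : star (A + u • (L * A)) * (A + u • (L * A)) = (2 : ℂ) • N + (u • X + conj u • Y) := by
    rw [star_add, star_smul, star_mul, hX, hY, hNdef]
    have h5 : (starRingEnd ℂ) u = star u := rfl
    rw [h5] at huu ⊢
    simp only [add_mul, mul_add, smul_mul_assoc, mul_smul_comm, mul_assoc]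
    rw [← mul_assoc (star L) L A, hLL, one_mul, smul_add, smul_smul, mul_comm u, huu, one_smul,
      two_smul]
    abel
  refine ⟨u, hu1, ?_, ?_⟩
  · rw [norm_sq_eq_re, hW, tau_add, tau_add, tau_smul, tau_smul, tau_smul, hcc]
    rw [hX, hY, g1, g2]
    simp
  · rw [hW]
    have hR : ‖(u • X + conj u • Y) (de G)‖ ^ 2 ≥ c ^ 2 / 2 := by
      have e1 : (u • X + conj u • Y) (de G) = u • X (de G) + conj u • Y (de G) := rfl
      rw [e1, norm_add_sq', norm_smul, norm_smul, inner_smul_left, inner_smul_right, hu1,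
        RCLike.norm_conj, hu1, one_mul, one_mul]
      have e2 : (starRingEnd ℂ) u * ((starRingEnd ℂ) u * ⟪X (de G), Y (de G)⟫_ℂ)
          = conj u * conj u * ⟪X (de G), Y (de G)⟫_ℂ := by ring
      rw [e2]
      have := sq_nonneg ‖Y (de G)‖
      nlinarith
    have e3 : ((2 : ℂ) • N + (u • X + conj u • Y)) (de G)
        = (2 : ℂ) • N (de G) + (u • X + conj u • Y) (de G) := rfl
    have e4 : ⟪(2 : ℂ) • N (de G), (u • X + conj u • Y) (de G)⟫_ℂ = 0 := by
      have e1 : (u • X + conj u • Y) (de G) = u • X (de G) + conj u • Y (de G) := rfl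
      rw [e1, inner_smul_left, inner_add_right, inner_smul_right, inner_smul_right, hNX, hNY]
      simp
    rw [e3, norm_add_sq', e4, norm_smul]
    simp only [Complex.zero_re, mul_zero, add_zero]
    have : ‖(2 : ℂ)‖ = 2 := by norm_num
    rw [this]
    nlinarith


/-- The pairs of products with and without Rudin-Shapiro signs. -/
theorem state [Infinite G] (n : ℕ) : ∃ (S : Finset G) (a p q : G → ℂ),
    (∀ k, p k = a k ∨ p k = - a k) ∧ (∀ k, q k = a k ∨ q k = - a k) ∧
    (∀ v : L2 G, ‖opS σ S p v‖ ^ 2 + ‖opS σ S q v‖ ^ 2 = 2 ^ (n + 1) * ‖v‖ ^ 2) ∧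
    ‖opS σ S a (de G)‖ ^ 2 = 2 ^ n ∧
    (1 + (n : ℝ) / 8) * 4 ^ n ≤ ‖(star (opS σ S a) * opS σ S a) (de G)‖ ^ 2 := by
  classical
  induction n with
  | zero =>
    refine ⟨{1}, fun _ => 1, fun _ => 1, fun _ => 1, fun _ => Or.inl rfl, fun _ => Or.inl rfl,
      ?_, ?_, ?_⟩
    · intro v
      have : opS σ {1} (fun _ => 1) = 1 := by
        unfold opS; rw [Finset.sum_singleton, one_smul, Lam_one]
      rw [this]
      simp only [one_apply_eq_self]
      ring
    · have : opS σ {1} (fun _ => 1) = 1 := by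
        unfold opS; rw [Finset.sum_singleton, one_smul, Lam_one]
      rw [this, one_apply_eq_self, norm_de]; norm_num
    · have : opS σ {1} (fun _ => 1) = 1 := by
        unfold opS; rw [Finset.sum_singleton, one_smul, Lam_one]
      rw [this, star_one, one_mul, one_apply_eq_self, norm_de]; norm_num
  | succ n ih =>
    obtain ⟨S, a, p, q, hp, hq, hPQ, hA2, hA4⟩ := ih
    have hZ : (Set.image2 (fun s t => s * t⁻¹) (S : Set G) (S : Set G)).Finite :=
      Set.Finite.image2 _ S.finite_toSet S.finite_toSet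
    obtain ⟨g, hg, u, hu, h2, h4⟩ := grow σ (opS_mem σ S a) (2 ^ n) (by positivity) hA2 _ hZ
    have hgS : ∀ s ∈ S, g * s ∉ S := by
      intro s hs h
      apply hg
      exact ⟨g * s, h, s, hs, by simp⟩
    refine ⟨S ∪ S.image (fun s => g * s), ext σ S g u a a, ext σ S g u p q,
      ext σ S g u p (fun s => - q s), ?_, ?_, ?_, ?_, ?_⟩
    · intro k
      unfold ext
      by_cases hk : k ∈ S
      · rw [if_pos hk, if_pos hk]; exact hp k
      · rw [if_neg hk, if_neg hk]
        rcases hq (g⁻¹ * k) with h | h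
        · left; rw [h]
        · right; rw [h]; ring
    · intro k
      unfold ext
      by_cases hk : k ∈ S
      · rw [if_pos hk, if_pos hk]; exact hp k
      · rw [if_neg hk, if_neg hk]
        rcases hq (g⁻¹ * k) with h | h
        · right; beta_reduce; rw [h]; ring
        · left; beta_reduce; rw [h]; ring
    · intro v
      rw [opS_ext σ S g u p q hgS, opS_ext σ S g u p (fun s => - q s) hgS, opS_neg]
      have e1 : (opS σ S p + u • (Lam σ g * opS σ S q)) v
          = opS σ S p v + u • Lam σ g (opS σ S q v) := rfl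
      have e2 : (opS σ S p + u • (Lam σ g * -opS σ S q)) v
          = opS σ S p v - u • Lam σ g (opS σ S q v) := by
        have : (opS σ S p + u • (Lam σ g * -opS σ S q)) v
          = opS σ S p v + u • Lam σ g (- opS σ S q v) := rfl
        rw [this, map_neg, smul_neg, sub_eq_add_neg]
      rw [e1, e2]
      have h5 := parallelogram_law_with_norm ℂ (opS σ S p v) (u • Lam σ g (opS σ S q v))
      rw [norm_smul, hu, one_mul, norm_Lam_apply] at h5
      have h6 := hPQ v
      rw [pow_succ (2 : ℝ) (n + 1)]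
      nlinarith
    · rw [opS_ext σ S g u a a hgS, h2]; ring
    · rw [opS_ext σ S g u a a hgS]
      refine le_trans ?_ h4
      have h0 : ((n + 1 : ℕ) : ℝ) = n + 1 := by push_cast; rfl
      rw [h0]
      have h7 : ((2 : ℝ) ^ n) ^ 2 = 4 ^ n := by
        rw [← pow_mul, mul_comm, pow_mul]; norm_num
      have h8 : (4 : ℝ) ^ (n + 1) = 4 * 4 ^ n := pow_succ' _ _
      rw [h7, h8]
      have h9 : (1 + (n : ℝ) / 8) * 4 ^ n = 4 ^ n + n * 4 ^ n / 8 := by ring
      rw [h9] at hA4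
      have h10 : (1 + ((n : ℝ) + 1) / 8) * (4 * 4 ^ n) = 4 * 4 ^ n + n * 4 ^ n / 2 + 4 ^ n / 2 := by
        ring
      rw [h10]
      linarith

/-- Blocks: the unit-norm polynomial `opS S p` has a partial sum of norm at least `K`. -/
theorem block [Infinite G] (K : ℝ) : ∃ (S S' : Finset G) (p : G → ℂ), S' ⊆ S ∧
    ‖opS σ S p‖ ≤ 1 ∧ K ≤ ‖opS σ S' p‖ := by
  classical
  obtain ⟨n, hn⟩ := exists_nat_gt (16 * (2 * |K| + 1) ^ 2)
  obtain ⟨S, a, p, q, hp, -, hPQ, hA2, hA4⟩ := state σ n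
  have h2n : (0 : ℝ) < 2 ^ (n + 1) := by positivity
  set r : ℝ := Real.sqrt (2 ^ (n + 1)) with hr
  have hr0 : 0 < r := Real.sqrt_pos.mpr h2n
  have hr2 : r ^ 2 = 2 ^ (n + 1) := Real.sq_sqrt h2n.le
  have hP : ‖opS σ S p‖ ≤ r := by
    refine ContinuousLinearMap.opNorm_le_bound _ hr0.le (fun v => ?_)
    have h1 := hPQ v
    have h2 : ‖opS σ S p v‖ ^ 2 ≤ (r * ‖v‖) ^ 2 := by
      rw [mul_pow, hr2, ← h1]
      nlinarith [sq_nonneg ‖opS σ S q v‖]
    exact (sq_le_sq₀ (norm_nonneg _) (by positivity)).mp h2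
  have hA : (2 * |K| + 1) * r ≤ ‖opS σ S a‖ := by
    have h1 : ‖(star (opS σ S a) * opS σ S a) (de G)‖ ≤ ‖opS σ S a‖ * ‖opS σ S a (de G)‖ := by
      have e1 : (star (opS σ S a) * opS σ S a) (de G)
          = star (opS σ S a) (opS σ S a (de G)) := rfl
      rw [e1]
      refine (ContinuousLinearMap.le_opNorm _ _).trans ?_
      have e2 : ‖star (opS σ S a)‖ = ‖opS σ S a‖ := by
        rw [ContinuousLinearMap.star_eq_adjoint]; exact LinearIsometryEquiv.norm_map _ _
      rw [e2]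
    have h2 : (1 + (n : ℝ) / 8) * 4 ^ n ≤ ‖opS σ S a‖ ^ 2 * 2 ^ n := by
      rw [← hA2, ← mul_pow]
      refine hA4.trans ?_
      exact pow_le_pow_left₀ (norm_nonneg _) h1 2
    have h3 : (1 + (n : ℝ) / 8) * 2 ^ n ≤ ‖opS σ S a‖ ^ 2 := by
      have h4 : (4 : ℝ) ^ n = 2 ^ n * 2 ^ n := by
        rw [← mul_pow]; norm_num
      rw [h4, ← mul_assoc] at h2
      exact le_of_mul_le_mul_right h2 (by positivity)
    have h5 : ((2 * |K| + 1) * r) ^ 2 ≤ ‖opS σ S a‖ ^ 2 := by
      refine le_trans ?_ h3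
      rw [mul_pow, hr2, pow_succ]
      have h6 : (0 : ℝ) < 2 ^ n := by positivity
      have h7 : (2 * |K| + 1) ^ 2 * 2 ≤ 1 + (n : ℝ) / 8 := by linarith
      calc (2 * |K| + 1) ^ 2 * (2 ^ n * 2) = ((2 * |K| + 1) ^ 2 * 2) * 2 ^ n := by ring
        _ ≤ _ := mul_le_mul_of_nonneg_right h7 h6.le
    exact (sq_le_sq₀ (by positivity) (norm_nonneg _)).mp h5
  refine ⟨S, S.filter (fun s => p s = a s), fun s => (r⁻¹ : ℂ) * p s, Finset.filter_subset _ _,
    ?_, ?_⟩
  · have e1 : opS σ S (fun s => (r⁻¹ : ℂ) * p s) = (r⁻¹ : ℂ) • opS σ S p := by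
      unfold opS
      rw [Finset.smul_sum]
      exact Finset.sum_congr rfl (fun s _ => by rw [smul_smul])
    rw [e1, norm_smul]
    have : ‖(r⁻¹ : ℂ)‖ = r⁻¹ := by
      rw [norm_inv, Complex.norm_real, Real.norm_of_nonneg hr0.le]
    rw [this, inv_mul_le_iff₀ hr0, mul_one]
    exact hP
  · set S' := S.filter (fun s => p s = a s) with hS'
    have e1 : opS σ S' (fun s => (r⁻¹ : ℂ) * p s) = (r⁻¹ : ℂ) • opS σ S' p := by
      unfold opS
      rw [Finset.smul_sum]
      exact Finset.sum_congr rfl (fun s _ => by rw [smul_smul])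
    have e2 : opS σ S a + opS σ S p = (2 : ℂ) • opS σ S' p := by
      unfold opS
      rw [← Finset.sum_add_distrib, Finset.smul_sum, hS', Finset.sum_filter]
      refine Finset.sum_congr rfl (fun s _ => ?_)
      by_cases h : p s = a s
      · rw [if_pos h, ← h, two_smul]
      · rw [if_neg h, (hp s).resolve_left h, neg_smul, add_neg_cancel]
    have h1 : ‖opS σ S a‖ - ‖opS σ S p‖ ≤ 2 * ‖opS σ S' p‖ := by
      have h2 : ‖(2 : ℂ) • opS σ S' p‖ = 2 * ‖opS σ S' p‖ := by
        rw [norm_smul]; norm_num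
      rw [← h2, ← e2]
      have := norm_sub_le (opS σ S a + opS σ S p) (opS σ S p)
      rw [add_sub_cancel_right] at this
      linarith
    rw [e1, norm_smul]
    have : ‖(r⁻¹ : ℂ)‖ = r⁻¹ := by
      rw [norm_inv, Complex.norm_real, Real.norm_of_nonneg hr0.le]
    rw [this]
    have h3 : |K| * r ≤ ‖opS σ S' p‖ := by nlinarith
    have h4 : |K| ≤ r⁻¹ * ‖opS σ S' p‖ := by
      rw [← div_eq_inv_mul, le_div_iff₀ hr0]; exact h3
    exact (le_abs_self K).trans h4

end Pool.Agent.V11110.WH
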