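import Pool.Agent.V11110.WH3

open scoped InnerProductSpace ComplexConjugate ENNReal
open Filter Topology

noncomputable section

namespace Pool.Agent.V11110.WH

variable {G : Type*} [Group G] (σ : Cocycle G)

/-- The reduced twisted group C*-algebra: the norm closure of the span of the `Lam σ g`. -/
def CrStar : Set (L2 G →L[ℂ] L2 G) := closure (Alg σ : Set (L2 G →L[ℂ] L2 G))

/-- The twisted group von Neumann algebra: the closure of the span of the `Lam σ g` in the weak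
operator topology. -/
def VN : Submodule ℂ (L2 G →L[ℂ] L2 G) :=
  ((Alg σ).map (ContinuousLinearMap.WOTofCLM (σ := RingHom.id ℂ) (E := L2 G) (F := L2 G) :
      (L2 G →L[ℂ] L2 G) →ₗ[ℂ] (L2 G →WOT[ℂ] L2 G))).topologicalClosure.comap
    (ContinuousLinearMap.WOTofCLM (σ := RingHom.id ℂ) (E := L2 G) (F := L2 G) :
      (L2 G →L[ℂ] L2 G) →ₗ[ℂ] (L2 G →WOT[ℂ] L2 G))

/-- The Fourier coefficients `x̂(g) = (x δ_e)(g)`. -/
def fc (x : L2 G →L[ℂ] L2 G) (g : G) : ℂ := x (de G) g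

/-- Elements of the C*-algebra whose Fourier series converges unordered in operator norm. -/
def CF : Set (L2 G →L[ℂ] L2 G) :=
  {x | x ∈ CrStar σ ∧ Summable (fun g => fc x g • Lam σ g)}

/-- Negative definite functions `d : G → [0,∞)` with `d e = 0`. -/
structure IsND (d : G → ℝ) : Prop where
  nonneg : ∀ g, 0 ≤ d g
  map_one : d 1 = 0
  map_inv : ∀ g, d g⁻¹ = d g
  neg_def : ∀ (n : ℕ) (g : Fin n → G) (b : Fin n → ℂ), ∑ i, b i = 0 →
    (∑ i, ∑ j, conj (b i) * b j * (d ((g i)⁻¹ * g j) : ℂ)).re ≤ 0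

/-- Property (T): every function as above is bounded. -/
def PropertyT (G : Type*) [Group G] : Prop := ∀ d : G → ℝ, IsND d → ∃ C : ℝ, ∀ g, d g ≤ C

theorem nd_sub {d : G → ℝ} (hd : IsND d) (g h : G) : d (g * h) ≤ 2 * d g + 2 * d h := by
  have h1 := hd.neg_def 3 ![1, g, g * h] ![1, -2, 1] (by simp [Fin.sum_univ_three]; norm_num)
  have e1 : (g * h)⁻¹ * g = h⁻¹ := by group
  have e2 : g⁻¹ * (g * h) = h := by group
  have e3 : d (h⁻¹ * g⁻¹) = d (g * h) := by
    rw [← hd.map_inv (g * h)]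
    congr 1
    group
  simp [Fin.sum_univ_three, hd.map_one, hd.map_inv, e1, e2, e3] at h1
  linarith

theorem far_trans {d : G → ℝ} (hd : IsND d) (hu : ¬ ∃ C : ℝ, ∀ g, d g ≤ C) (S F : Finset G)
    (R : ℝ) : ∃ h : G, (∀ s ∈ S, R ≤ d (h * s)) ∧ (∀ s ∈ S, h * s ∉ F) := by
  push Not at hu
  set R' : ℝ := |R| + ∑ f ∈ F, d f + 1 with hR'
  set D : ℝ := ∑ s ∈ S, d s with hD
  obtain ⟨h, hh⟩ := hu (2 * R' + 2 * D)
  have key : ∀ s ∈ S, R' ≤ d (h * s) := by
    intro s hs
    have h1 := nd_sub hd (h * s) s⁻¹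
    rw [mul_inv_cancel_right, hd.map_inv] at h1
    have h2 : d s ≤ D := Finset.single_le_sum (fun i _ => hd.nonneg i) hs
    linarith
  have hF0 : 0 ≤ ∑ f ∈ F, d f := Finset.sum_nonneg (fun i _ => hd.nonneg i)
  refine ⟨h, fun s hs => ?_, fun s hs hF => ?_⟩
  · have h1 := key s hs
    have h2 := le_abs_self R
    linarith
  · have h1 := key s hs
    have h2 : d (h * s) ≤ ∑ f ∈ F, d f := Finset.single_le_sum (fun i _ => hd.nonneg i) hF
    have h3 := abs_nonneg R
    linarith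

open Classical in
theorem Lam_mul_opS (h : G) (S : Finset G) (p : G → ℂ) :
    Lam σ h * opS σ S p
      = opS σ (S.image (fun s => h * s)) (fun g => σ.val h (h⁻¹ * g) * p (h⁻¹ * g)) := by
  unfold opS
  rw [Finset.sum_image (fun a _ b _ hab => mul_left_cancel hab), Finset.mul_sum]
  refine Finset.sum_congr rfl (fun s _ => ?_)
  beta_reduce
  rw [mul_smul_comm, Lam_mul, smul_smul, inv_mul_cancel_left, mul_comm]

/-- Fourier coefficients as continuous linear functionals. -/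
def ev (g : G) : (L2 G →L[ℂ] L2 G) →L[ℂ] ℂ :=
  (lp.evalCLM ℂ (fun _ : G => ℂ) 2 g).comp (ContinuousLinearMap.apply ℂ (L2 G) (de G))

theorem ev_apply (g : G) (x : L2 G →L[ℂ] L2 G) : ev g x = fc x g := rfl

open Classical in
theorem fc_opS (S : Finset G) (a : G → ℂ) (g : G) :
    fc (opS σ S a) g = if g ∈ S then a g else 0 := by
  rw [← ev_apply]
  unfold opS
  rw [map_sum]
  have : ∀ s, ev g (a s • Lam σ s) = if s = g then a g else 0 := by
    intro s
    rw [map_smul, ev_apply]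
    unfold fc
    rw [Lam_de]
    by_cases h : g = s
    · subst h; simp
    · rw [if_neg h, if_neg (fun h2 => h h2.symm), smul_zero]
  rw [Finset.sum_congr rfl (fun s _ => this s), Finset.sum_ite_eq']

theorem norm_le_Lam_mul (h : G) (X : L2 G →L[ℂ] L2 G) : ‖X‖ ≤ ‖Lam σ h * X‖ := by
  refine ContinuousLinearMap.opNorm_le_bound _ (norm_nonneg _) (fun v => ?_)
  rw [← norm_Lam_apply σ h (X v)]
  exact ContinuousLinearMap.le_opNorm (Lam σ h * X) v

theorem Lam_mul_norm_le (h : G) (X : L2 G →L[ℂ] L2 G) : ‖Lam σ h * X‖ ≤ ‖X‖ := by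
  refine ContinuousLinearMap.opNorm_le_bound _ (norm_nonneg _) (fun v => ?_)
  have : (Lam σ h * X) v = Lam σ h (X v) := rfl
  rw [this, norm_Lam_apply]
  exact ContinuousLinearMap.le_opNorm X v

theorem norm_Lam_le (g : G) : ‖Lam σ g‖ ≤ 1 := by
  refine ContinuousLinearMap.opNorm_le_bound _ zero_le_one (fun v => ?_)
  rw [norm_Lam_apply, one_mul]

theorem norm_opS_le (S : Finset G) (a : G → ℂ) : ‖opS σ S a‖ ≤ ∑ s ∈ S, ‖a s‖ := by
  unfold opS
  refine (norm_sum_le _ _).trans (Finset.sum_le_sum (fun s _ => ?_))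
  rw [norm_smul]
  have := norm_Lam_le σ s
  have h2 := norm_nonneg (a s)
  nlinarith

theorem Alg_le_VN : Alg σ ≤ VN σ := by
  intro x hx
  unfold VN
  rw [Submodule.mem_comap]
  exact Submodule.le_topologicalClosure _ (Submodule.mem_map_of_mem hx)

theorem CrStar_sub_VN {x : L2 G →L[ℂ] L2 G} (hx : x ∈ CrStar σ) : x ∈ VN σ := by
  unfold VN
  rw [Submodule.mem_comap]
  have hc := (ContinuousLinearMap.WOTofCLM (σ := RingHom.id ℂ) (E := L2 G) (F := L2 G)).continuous
  have h1 := map_mem_closure hc hx (t := ((Alg σ).map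
    (ContinuousLinearMap.WOTofCLM (σ := RingHom.id ℂ) (E := L2 G) (F := L2 G) :
      (L2 G →L[ℂ] L2 G) →ₗ[ℂ] (L2 G →WOT[ℂ] L2 G)) : Set (L2 G →WOT[ℂ] L2 G)))
    (fun y hy => Submodule.mem_map_of_mem hy)
  exact h1

end Pool.Agent.V11110.WH
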