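import Pool.Agent.V11110.WH4

open scoped InnerProductSpace ComplexConjugate ENNReal
open Filter Topology

noncomputable section

namespace Pool.Agent.V11110.WH

variable {G : Type*} [Group G] (σ : Cocycle G)

/-- The family of disjoint blocks moved far away. -/
theorem blocks [Infinite G] {d : G → ℝ} (hd : IsND d) (hu : ¬ ∃ C : ℝ, ∀ g, d g ≤ C) :
    ∃ (T T' : ℕ → Finset G) (w : ℕ → G → ℂ),
      (∀ k, T' k ⊆ T k) ∧
      (∀ j k, j ≠ k → Disjoint (T j) (T k)) ∧
      (∀ k, ‖opS σ (T k) (w k)‖ ≤ 1) ∧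
      (∀ k, (4 : ℝ) ^ k ≤ ‖opS σ (T' k) (w k)‖) ∧
      (∀ k, ∑ g ∈ T k, Real.exp (- d g) * ‖w k g‖ ≤ 1) := by
  classical
  have hb := fun k : ℕ => block σ ((4 : ℝ) ^ k)
  choose S S' p hS'S hS1 hS4 using hb
  have hR : ∀ k, ∃ R : ℝ, Real.exp (-R) * ∑ s ∈ S k, ‖p k s‖ ≤ 1 := by
    intro k
    have h0 : 0 ≤ ∑ s ∈ S k, ‖p k s‖ := Finset.sum_nonneg (fun s _ => norm_nonneg _)
    refine ⟨Real.log (1 + ∑ s ∈ S k, ‖p k s‖), ?_⟩
    rw [Real.exp_neg, Real.exp_log (by positivity), inv_mul_le_iff₀ (by positivity)]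
    linarith
  choose R hR using hR
  have hH := fun (k : ℕ) (F : Finset G) => far_trans hd hu (S k) F (R k)
  choose H hH1 hH2 using hH
  let F : ℕ → Finset G := fun n => Nat.rec (motive := fun _ => Finset G) ∅
    (fun k Fk => Fk ∪ (S k).image (fun s => H k Fk * s)) n
  have hF : ∀ k, F (k + 1) = F k ∪ (S k).image (fun s => H k (F k) * s) := fun k => rfl
  have hmono : Monotone F := monotone_nat_of_le_succ (fun k => by
    rw [hF k]; exact Finset.subset_union_left)
  set T : ℕ → Finset G := fun k => (S k).image (fun s => H k (F k) * s) with hT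
  have hTsub : ∀ j k, j < k → T j ⊆ F k := by
    intro j k hjk
    refine (?_ : T j ⊆ F (j + 1)).trans (hmono (Nat.succ_le_of_lt hjk))
    rw [hF j]; exact Finset.subset_union_right
  have hTdis : ∀ k, Disjoint (F k) (T k) := by
    intro k
    rw [Finset.disjoint_left]
    intro g hg hg2
    obtain ⟨s, hs, rfl⟩ := Finset.mem_image.mp hg2
    exact hH2 k (F k) s hs hg
  have hopw : ∀ k (U : Finset G), opS σ (U.image (fun s => H k (F k) * s))
      (fun g => σ.val (H k (F k)) ((H k (F k))⁻¹ * g) * p k ((H k (F k))⁻¹ * g))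
      = Lam σ (H k (F k)) * opS σ U (p k) := fun k U => (Lam_mul_opS σ _ _ _).symm
  refine ⟨T, fun k => (S' k).image (fun s => H k (F k) * s),
    fun k g => σ.val (H k (F k)) ((H k (F k))⁻¹ * g) * p k ((H k (F k))⁻¹ * g), ?_, ?_, ?_, ?_, ?_⟩
  · intro k
    exact Finset.image_subset_image (hS'S k)
  · intro j k hjk
    rcases lt_or_gt_of_ne hjk with h | h
    · exact (hTdis k).mono_left (hTsub j k h)
    · exact ((hTdis j).mono_left (hTsub k j h)).symm
  · intro k
    rw [hT]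
    rw [hopw k (S k)]
    exact (Lam_mul_norm_le σ _ _).trans (hS1 k)
  · intro k
    rw [hopw k (S' k)]
    exact (hS4 k).trans (norm_le_Lam_mul σ _ _)
  · intro k
    rw [hT]
    beta_reduce
    rw [Finset.sum_image (fun a _ b _ hab => mul_left_cancel hab)]
    refine le_trans ?_ (hR k)
    rw [Finset.mul_sum]
    refine Finset.sum_le_sum (fun s hs => ?_)
    rw [inv_mul_cancel_left, norm_mul, σ.norm_eq, one_mul]
    refine mul_le_mul_of_nonneg_right ?_ (norm_nonneg _)
    apply Real.exp_le_exp.mpr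
    have := hH1 k (F k) s hs
    linarith

/-- The geometric sum of operators of norm at most one. -/
theorem summable_geo (b : ℕ → L2 G →L[ℂ] L2 G) (hb : ∀ k, ‖b k‖ ≤ 1) :
    Summable (fun k => ((1 / 2 : ℂ) ^ k) • b k) := by
  refine Summable.of_norm_bounded (g := fun k => (1 / 2 : ℝ) ^ k)
    (summable_geometric_of_lt_one (by norm_num) (by norm_num)) (fun k => ?_)
  rw [norm_smul, norm_pow]
  have : ‖(1 / 2 : ℂ)‖ = 1 / 2 := by norm_num
  rw [this]
  have h := hb k
  have h2 : (0 : ℝ) ≤ (1 / 2) ^ k := by positivity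
  nlinarith

theorem fc_geo (T : ℕ → Finset G) (hT : ∀ j k, j ≠ k → Disjoint (T j) (T k)) (w : ℕ → G → ℂ)
    (hb : ∀ k, ‖opS σ (T k) (w k)‖ ≤ 1) :
    (∀ k, ∀ g ∈ T k, fc (∑' j, ((1 / 2 : ℂ) ^ j) • opS σ (T j) (w j)) g = (1 / 2) ^ k * w k g) ∧
    (∀ g, (∀ k, g ∉ T k) → fc (∑' j, ((1 / 2 : ℂ) ^ j) • opS σ (T j) (w j)) g = 0) := by
  classical
  have hs := summable_geo (fun k => opS σ (T k) (w k)) hb
  have key : ∀ g, fc (∑' j, ((1 / 2 : ℂ) ^ j) • opS σ (T j) (w j)) g
      = ∑' j, (1 / 2 : ℂ) ^ j * (if g ∈ T j then w j g else 0) := by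
    intro g
    rw [← ev_apply, ContinuousLinearMap.map_tsum _ hs]
    refine tsum_congr (fun j => ?_)
    rw [map_smul, ev_apply, fc_opS, smul_eq_mul]
  refine ⟨fun k g hg => ?_, fun g hg => ?_⟩
  · rw [key g, tsum_eq_single k]
    · rw [if_pos hg]
    · intro j hj
      have : g ∉ T j := fun h => Finset.disjoint_left.mp (hT j k hj) h hg
      rw [if_neg this, mul_zero]
  · rw [key g]
    have : ∀ j, (1 / 2 : ℂ) ^ j * (if g ∈ T j then w j g else 0) = 0 := by
      intro j; rw [if_neg (hg j), mul_zero]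
    simp only [this, tsum_zero]

theorem geo_mem_CrStar (T : ℕ → Finset G) (w : ℕ → G → ℂ)
    (hb : ∀ k, ‖opS σ (T k) (w k)‖ ≤ 1) :
    (∑' j, ((1 / 2 : ℂ) ^ j) • opS σ (T j) (w j)) ∈ CrStar σ := by
  have hs := (summable_geo (fun k => opS σ (T k) (w k)) hb).hasSum
  unfold CrStar
  refine mem_closure_of_tendsto hs (Eventually.of_forall (fun s => ?_))
  exact Submodule.sum_mem _ (fun j _ => Submodule.smul_mem _ _ (opS_mem σ _ _))

/-- Absolutely summable coefficients. -/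
theorem summable_coef (T : ℕ → Finset G) (hT : ∀ j k, j ≠ k → Disjoint (T j) (T k))
    (f : G → ℝ) (hf0 : ∀ g, 0 ≤ f g) (hf1 : ∀ g, (∀ k, g ∉ T k) → f g = 0)
    (hf2 : ∀ k, ∑ g ∈ T k, f g ≤ (1 / 2) ^ k) : Summable f := by
  classical
  let i : (Σ k : ℕ, {g // g ∈ T k}) → G := fun x => x.2.1
  have hi : Function.Injective i := by
    rintro ⟨j, g, hg⟩ ⟨k, h, hh⟩ hgh
    have e : g = h := hgh
    subst e
    have hjk : j = k := by
      by_contra hne
      exact Finset.disjoint_left.mp (hT j k hne) hg hh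
    subst hjk
    rfl
  rw [← hi.summable_iff (f := f)]
  · rw [summable_sigma_of_nonneg (f := f ∘ i) (fun x => hf0 _)]
    refine ⟨fun k => Summable.of_finite, ?_⟩
    refine Summable.of_nonneg_of_le (fun k => tsum_nonneg (fun y => hf0 _)) (fun k => ?_)
      (summable_geometric_of_lt_one (r := (1 / 2 : ℝ)) (by norm_num) (by norm_num))
    have : ∑' y : {g // g ∈ T k}, (f ∘ i) ⟨k, y⟩ = ∑ g ∈ T k, f g := by
      rw [tsum_fintype]
      exact Finset.sum_coe_sort (T k) f
    rw [this]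
    exact hf2 k
  · intro g hg
    apply hf1
    intro k hk
    exact hg ⟨⟨k, g, hk⟩, rfl⟩

end Pool.Agent.V11110.WH
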