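import Pool.Agent.V11110.WH5

open scoped InnerProductSpace ComplexConjugate ENNReal
open Filter Topology

noncomputable section

namespace Pool.Agent.V11110.WH

/-- The Hilbert space `ℓ²(G)` as a type. -/
def HS (G : Type*) : Type _ := ↥(L2 G)

/-- The norm of `ℓ²(G)`. -/
instance iN (G : Type*) : NormedAddCommGroup (HS G) := @lp.normedAddCommGroup G (fun _ => ℂ) 2 _ _

/-- The inner product of `ℓ²(G)`. -/
instance iI (G : Type*) : InnerProductSpace ℂ (HS G) :=
  @lp.instInnerProductSpace G ℂ _ (fun _ => ℂ) _ _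

/-- The values of an element of `ℓ²(G)`. -/
def value {G : Type*} (f : HS G) : G → ℂ := fun k => (show ↥(L2 G) from f) k

/-- The algebra of bounded operators on `ℓ²(G)`. -/
def Op (G : Type*) : Type _ := HS G →L[ℂ] HS G

instance opRing (G : Type*) : NormedRing (Op G) :=
  @ContinuousLinearMap.toNormedRing ℂ (HS G) _ _ _

instance opAlg (G : Type*) : NormedAlgebra ℂ (Op G) :=
  @ContinuousLinearMap.toNormedAlgebra ℂ (HS G) _ _ _

/-- The action of an operator on vectors. -/
def app {G : Type*} : Op G → HS G → HS G := fun x => @DFunLike.coe (HS G →L[ℂ] HS G) _ _ _ x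

/-- The weak operator topology: the coarsest topology for which all maps `x ↦ ⟨v, x w⟩` are
continuous. -/
@[instance_reducible] def wot (G : Type*) : TopologicalSpace (Op G) :=
  TopologicalSpace.induced (fun (x : Op G) (p : HS G × HS G) => ⟪p.1, app x p.2⟫_ℂ)
    Pi.topologicalSpace

variable {G : Type*} [Group G]

theorem exists_lam (σ : Cocycle G) (g : G) : ∃ x : Op G, ∀ (f : HS G) (k : G),
    value (app x f) k = σ.val g (g⁻¹ * k) * value f (g⁻¹ * k) :=
  ⟨Lam σ g, fun f k => Lam_apply σ g f k⟩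

/-- The unitary `Λ_σ(g)`: the unique operator with `(Λ_σ(g) f)(k) = σ(g,g⁻¹k) f(g⁻¹k)`. -/
def lam (σ : Cocycle G) (g : G) : Op G := Classical.choose (exists_lam σ g)

theorem lam_eq (σ : Cocycle G) (g : G) : lam σ g = Lam σ g := by
  have h : ∀ (f : HS G) (k : G),
      value (app (lam σ g) f) k = σ.val g (g⁻¹ * k) * value f (g⁻¹ * k) :=
    Classical.choose_spec (exists_lam σ g)
  refine ContinuousLinearMap.ext (fun f => ?_)
  apply lp.ext
  funext k
  exact h f k

theorem lam_eq' (σ : Cocycle G) : lam σ = Lam σ := funext (lam_eq σ)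

/-- The reduced twisted group C*-algebra: the norm closure of the span of the `Λ_σ(g)`. -/
def CrS (σ : Cocycle G) : Set (Op G) :=
  closure (Submodule.span ℂ (Set.range (lam σ)) : Set (Op G))

/-- The twisted group von Neumann algebra: the closure of the span of the `Λ_σ(g)` in the weak
operator topology. -/
def vNA (σ : Cocycle G) : Set (Op G) :=
  @closure (Op G) (wot G) (Submodule.span ℂ (Set.range (lam σ)) : Set (Op G))

/-- The unit vector `δ_e`. -/
def dE (G : Type*) [Group G] : HS G := de G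

/-- The Fourier coefficients `x̂(g) = (x δ_e)(g)`. -/
def coef (x : Op G) (g : G) : ℂ := value (app x (dE G)) g

/-- Elements of the C*-algebra whose Fourier series converges unordered in operator norm. -/
def CFS (σ : Cocycle G) : Set (Op G) :=
  {x | x ∈ CrS σ ∧ Summable (fun g => coef x g • lam σ g)}

/-- `M` is a bounded linear map of the von Neumann algebra into itself which multiplies
`Λ_σ(g)` by `exp (- t d(g))`. -/
structure IsHeatMap (σ : Cocycle G) (d : G → ℝ) (t : ℝ) (M : Op G → Op G) : Prop where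
  maps : ∀ x ∈ vNA σ, M x ∈ vNA σ
  map_add : ∀ x ∈ vNA σ, ∀ y ∈ vNA σ, M (x + y) = M x + M y
  map_smul : ∀ (c : ℂ), ∀ x ∈ vNA σ, M (c • x) = c • M x
  bound : ∃ C : ℝ, ∀ x ∈ vNA σ, ‖M x‖ ≤ C * ‖x‖
  map_lam : ∀ g, M (lam σ g) = (Real.exp (-(t * d g)) : ℂ) • lam σ g

theorem span_eq (σ : Cocycle G) :
    (Submodule.span ℂ (Set.range (lam σ)) : Set (Op G)) = (Alg σ : Set (L2 G →L[ℂ] L2 G)) := by
  rw [lam_eq']; rfl

theorem CrS_eq (σ : Cocycle G) : CrS σ = CrStar σ := by
  unfold CrS; rw [lam_eq']; rfl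

theorem CFS_eq (σ : Cocycle G) : CFS σ = CF σ := by
  unfold CFS; rw [CrS_eq, lam_eq']; rfl

theorem wot_cont (G : Type*) [Group G] :
    @Continuous (L2 G →L[ℂ] L2 G) (Op G) inferInstance (wot G) (fun x => x) := by
  refine continuous_induced_rng.mpr ?_
  refine continuous_pi (fun p => ?_)
  have h1 : Continuous (fun x : L2 G →L[ℂ] L2 G => x p.2) :=
    (ContinuousLinearMap.apply ℂ (L2 G) p.2).continuous
  exact (continuous_const.inner h1)

theorem CrS_sub (σ : Cocycle G) : CrS σ ⊆ vNA σ := by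
  intro x hx
  rw [CrS_eq] at hx
  have h1 := @map_mem_closure (L2 G →L[ℂ] L2 G) (Op G) inferInstance (wot G)
    (fun x => x) (Alg σ : Set (L2 G →L[ℂ] L2 G)) x
    (Submodule.span ℂ (Set.range (lam σ)) : Set (Op G)) (wot_cont G) hx
    (fun y hy => by rw [span_eq]; exact hy)
  exact h1

end Pool.Agent.V11110.WH
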