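import Pool.Agent.V11110.WHS

open scoped InnerProductSpace ComplexConjugate ENNReal
open Filter Topology

noncomputable section

namespace Pool.Agent.V11110.WH

theorem sum_map {ι E : Type*} [NormedRing E] [NormedAlgebra ℂ E] (V : Set E) (M : E → E)
    (W : Submodule ℂ E) (hWV : ∀ x ∈ W, x ∈ V) (h0 : M 0 = 0)
    (hadd : ∀ x ∈ V, ∀ y ∈ V, M (x + y) = M x + M y) (s : Finset ι) (f : ι → E)
    (hf : ∀ i ∈ s, f i ∈ W) : M (∑ i ∈ s, f i) = ∑ i ∈ s, M (f i) := by
  classical
  induction s using Finset.induction_on with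
  | empty => simpa using h0
  | insert a s ha ih =>
    rw [Finset.sum_insert ha, Finset.sum_insert ha,
      hadd _ (hWV _ (hf a (Finset.mem_insert_self a s))) _
        (hWV _ (Submodule.sum_mem _ (fun i hi => hf i (Finset.mem_insert_of_mem hi)))),
      ih (fun i hi => hf i (Finset.mem_insert_of_mem hi))]

/-- A bounded map which is linear on a set containing a closed subspace is determined by its
values on the generators. -/
theorem heat_limit {G E : Type*} [NormedRing E] [NormedAlgebra ℂ E] (V : Set E) (M : E → E)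
    (W : Submodule ℂ E) (hV : closure (W : Set E) ⊆ V) (L : G → E) (hL : ∀ g, L g ∈ W)
    (hadd : ∀ x ∈ V, ∀ y ∈ V, M (x + y) = M x + M y)
    (hsmul : ∀ (c : ℂ), ∀ x ∈ V, M (c • x) = c • M x)
    (C : ℝ) (hbound : ∀ x ∈ V, ‖M x‖ ≤ C * ‖x‖) (e : G → ℂ) (hM : ∀ g, M (L g) = e g • L g)
    (T : ℕ → Finset G) (w : ℕ → G → ℂ) (c : ℕ → ℂ) (x₀ y : E)
    (hx : HasSum (fun k => c k • ∑ g ∈ T k, w k g • L g) x₀)
    (hy : HasSum (fun k => c k • ∑ g ∈ T k, (e g * w k g) • L g) y) : M x₀ = y := by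
  classical
  have hWV : ∀ x ∈ W, x ∈ V := fun x hx => hV (subset_closure hx)
  have h0 : M 0 = 0 := by
    have := hsmul 0 0 (hWV 0 (Submodule.zero_mem _))
    rwa [zero_smul, zero_smul] at this
  have hb : ∀ k, M (c k • ∑ g ∈ T k, w k g • L g) = c k • ∑ g ∈ T k, (e g * w k g) • L g := by
    intro k
    have hm : (∑ g ∈ T k, w k g • L g) ∈ W :=
      Submodule.sum_mem _ (fun g _ => Submodule.smul_mem _ _ (hL g))
    rw [hsmul _ _ (hWV _ hm), sum_map V M W hWV h0 hadd _ _ (fun g _ => Submodule.smul_mem _ _ (hL g))]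
    congr 1
    refine Finset.sum_congr rfl (fun g _ => ?_)
    rw [hsmul _ _ (hWV _ (hL g)), hM g, smul_smul, mul_comm]
  have hbm : ∀ k, (c k • ∑ g ∈ T k, w k g • L g) ∈ W := fun k =>
    Submodule.smul_mem _ _ (Submodule.sum_mem _ (fun g _ => Submodule.smul_mem _ _ (hL g)))
  have hx₀ : x₀ ∈ W.topologicalClosure := by
    have : x₀ ∈ closure (W : Set E) :=
      mem_closure_of_tendsto hx (Eventually.of_forall (fun s =>
        Submodule.sum_mem _ (fun k _ => hbm k)))
    exact this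
  have hx2 := hx.tendsto_sum_nat
  have hy2 := hy.tendsto_sum_nat
  have hd : ∀ n : ℕ, ‖M x₀ - ∑ k ∈ Finset.range n, c k • ∑ g ∈ T k, (e g * w k g) • L g‖
      ≤ C * ‖x₀ - ∑ k ∈ Finset.range n, c k • ∑ g ∈ T k, w k g • L g‖ := by
    intro n
    set p : E := ∑ k ∈ Finset.range n, c k • ∑ g ∈ T k, w k g • L g with hp
    have hpW : p ∈ W := Submodule.sum_mem _ (fun k _ => hbm k)
    have hpM : M p = ∑ k ∈ Finset.range n, c k • ∑ g ∈ T k, (e g * w k g) • L g := by
      rw [hp, sum_map V M W hWV h0 hadd _ _ (fun k _ => hbm k)]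
      exact Finset.sum_congr rfl (fun k _ => hb k)
    have hq : x₀ - p ∈ V := by
      apply hV
      have : x₀ - p ∈ W.topologicalClosure :=
        Submodule.sub_mem _ hx₀ (Submodule.le_topologicalClosure _ hpW)
      exact this
    have h1 := hadd p (hWV p hpW) (x₀ - p) hq
    rw [add_sub_cancel] at h1
    rw [h1, hpM, add_sub_cancel_left]
    exact hbound _ hq
  have hlim1 : Tendsto (fun n : ℕ =>
      C * ‖x₀ - ∑ k ∈ Finset.range n, c k • ∑ g ∈ T k, w k g • L g‖) atTop (𝓝 0) := by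
    have := ((tendsto_const_nhds (x := x₀)).sub hx2).norm.const_mul C
    simpa using this
  have hlim2 := squeeze_zero_norm hd hlim1
  have hlim3 : Tendsto (fun n : ℕ => M x₀ -
      ∑ k ∈ Finset.range n, c k • ∑ g ∈ T k, (e g * w k g) • L g) atTop (𝓝 (M x₀ - y)) :=
    (tendsto_const_nhds (x := M x₀)).sub hy2
  have := tendsto_nhds_unique hlim3 hlim2
  exact sub_eq_zero.mp this

theorem hasSum_op {G : Type*} [Group G] (σ : Cocycle G) (T : ℕ → Finset G) (c : ℕ → ℂ)
    (w : ℕ → G → ℂ) (x : Op G) (h : HasSum (α := L2 G →L[ℂ] L2 G)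
      (fun k => c k • opS σ (T k) (w k)) x) :
    HasSum (α := Op G) (fun k => c k • ∑ g ∈ T k, w k g • lam σ g) x := by
  rw [lam_eq']
  exact h

end Pool.Agent.V11110.WH
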