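import Mathlib

open scoped InnerProductSpace ComplexConjugate ENNReal

noncomputable section

namespace Pool.Agent.V11110.ZN

/-- The Hilbert space of square summable functions. -/
abbrev L2 (Ω : Type*) := lp (fun _ : Ω => ℂ) 2

/-- Partial bijections. -/
structure PB (Ω : Type*) where
  /-- domain -/
  dom : Set Ω
  /-- codomain -/
  cod : Set Ω
  /-- the map -/
  fwd : Ω → Ω
  /-- the inverse -/
  bwd : Ω → Ω
  h1 : ∀ a ∈ dom, fwd a ∈ cod ∧ bwd (fwd a) = a
  h2 : ∀ b ∈ cod, bwd b ∈ dom ∧ fwd (bwd b) = b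

/-- The inverse partial bijection. -/
def PB.symm {Ω : Type*} (P : PB Ω) : PB Ω where
  dom := P.cod
  cod := P.dom
  fwd := P.bwd
  bwd := P.fwd
  h1 := P.h2
  h2 := P.h1

variable {Ω : Type*} (P : PB Ω)

open Classical in
theorem sum_le (f : L2 Ω) (s : Finset Ω) :
    ∑ i ∈ s, ‖(if i ∈ P.cod then f (P.bwd i) else 0 : ℂ)‖ ^ (2 : ℝ≥0∞).toReal
      ≤ ‖f‖ ^ (2 : ℝ≥0∞).toReal := by
  have h1 : ∑ i ∈ s, ‖(if i ∈ P.cod then f (P.bwd i) else 0 : ℂ)‖ ^ (2 : ℝ≥0∞).toReal
      = ∑ i ∈ s.filter (fun i => i ∈ P.cod), ‖f (P.bwd i)‖ ^ (2 : ℝ≥0∞).toReal := by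
    rw [Finset.sum_filter]
    refine Finset.sum_congr rfl (fun i _ => ?_)
    split_ifs with h
    · rfl
    · norm_num
  rw [h1]
  have h2 : ∑ i ∈ s.filter (fun i => i ∈ P.cod), ‖f (P.bwd i)‖ ^ (2 : ℝ≥0∞).toReal
      = ∑ j ∈ (s.filter (fun i => i ∈ P.cod)).image P.bwd, ‖f j‖ ^ (2 : ℝ≥0∞).toReal := by
    rw [Finset.sum_image]
    intro a ha b hb hab
    have ha' := (Finset.mem_filter.mp (Finset.mem_coe.mp ha)).2
    have hb' := (Finset.mem_filter.mp (Finset.mem_coe.mp hb)).2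
    rw [← (P.h2 a ha').2, ← (P.h2 b hb').2, hab]
  rw [h2]
  exact lp.sum_rpow_le_norm_rpow (by norm_num) f _

open Classical in
theorem memPB (f : L2 Ω) : Memℓp (fun i => (if i ∈ P.cod then f (P.bwd i) else 0 : ℂ)) 2 :=
  memℓp_gen' (sum_le P f)

open Classical in
/-- The function underlying the partial isometry. -/
def pbFun (f : L2 Ω) : L2 Ω :=
  ⟨fun i => (if i ∈ P.cod then f (P.bwd i) else 0 : ℂ), memPB P f⟩

open Classical in
theorem pbFun_apply (f : L2 Ω) (i : Ω) :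
    pbFun P f i = if i ∈ P.cod then f (P.bwd i) else 0 := rfl

theorem norm_pbFun (f : L2 Ω) : ‖pbFun P f‖ ≤ ‖f‖ :=
  lp.norm_le_of_forall_sum_le (by norm_num) (norm_nonneg _) (sum_le P f)

/-- The partial isometry of a partial bijection. -/
def op : L2 Ω →L[ℂ] L2 Ω :=
  LinearMap.mkContinuous
    { toFun := pbFun P
      map_add' := fun f₁ f₂ => by
        apply lp.ext; funext k
        rw [lp.coeFn_add, Pi.add_apply, pbFun_apply, pbFun_apply, pbFun_apply,
          lp.coeFn_add, Pi.add_apply]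
        split_ifs <;> simp
      map_smul' := fun c f => by
        apply lp.ext; funext k
        rw [RingHom.id_apply, lp.coeFn_smul, Pi.smul_apply, pbFun_apply, pbFun_apply,
          lp.coeFn_smul, Pi.smul_apply]
        split_ifs <;> simp } 1
    (fun f => by
      rw [one_mul]
      exact norm_pbFun P f)

open Classical in
theorem op_apply (f : L2 Ω) (i : Ω) :
    op P f i = if i ∈ P.cod then f (P.bwd i) else 0 := rfl

theorem norm_op_le : ‖op P‖ ≤ 1 :=
  ContinuousLinearMap.opNorm_le_bound _ zero_le_one (fun f => by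
    rw [one_mul]; exact norm_pbFun P f)

theorem inner_op (f g : L2 Ω) : ⟪op P f, g⟫_ℂ = ⟪f, op P.symm g⟫_ℂ := by
  classical
  rw [lp.inner_eq_tsum, lp.inner_eq_tsum]
  have e1 : ∀ i, ⟪op P f i, g i⟫_ℂ = P.cod.indicator (fun i => ⟪f (P.bwd i), g i⟫_ℂ) i := by
    intro i
    rw [op_apply]
    by_cases h : i ∈ P.cod
    · rw [if_pos h, Set.indicator_of_mem h]
    · rw [if_neg h, Set.indicator_of_notMem h, inner_zero_left]
  have e2 : ∀ i, ⟪f i, op P.symm g i⟫_ℂ = P.dom.indicator (fun i => ⟪f i, g (P.fwd i)⟫_ℂ) i := by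
    intro i
    rw [op_apply]
    by_cases h : i ∈ P.dom
    · rw [if_pos (show i ∈ P.symm.cod from h), Set.indicator_of_mem h]; rfl
    · rw [if_neg (show i ∉ P.symm.cod from h), Set.indicator_of_notMem h, inner_zero_right]
  simp only [e1, e2]
  rw [← tsum_subtype, ← tsum_subtype]
  let e : P.dom ≃ P.cod :=
    { toFun := fun a => ⟨P.fwd a, (P.h1 a a.2).1⟩
      invFun := fun b => ⟨P.bwd b, (P.h2 b b.2).1⟩
      left_inv := fun a => Subtype.ext (P.h1 a a.2).2
      right_inv := fun b => Subtype.ext (P.h2 b b.2).2 }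
  rw [← e.tsum_eq]
  refine tsum_congr (fun a => ?_)
  have : P.bwd ((e a : P.cod) : Ω) = a := (P.h1 a a.2).2
  rw [this]
  rfl

theorem star_op : star (op P) = op P.symm := by
  rw [ContinuousLinearMap.star_eq_adjoint]
  exact ((ContinuousLinearMap.eq_adjoint_iff _ _).mpr (fun x y => inner_op P.symm x y)).symm

open Classical in
/-- Basis vectors. -/
def bv (i : Ω) : L2 Ω := lp.single 2 i (1 : ℂ)

open Classical in
theorem bv_apply (i j : Ω) : bv i j = if j = i then 1 else 0 := by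
  unfold bv
  rw [lp.single_apply, Pi.single_apply]

theorem norm_bv (i : Ω) : ‖bv i‖ = 1 := by
  classical
  unfold bv
  rw [lp.norm_single (by norm_num)]
  norm_num

/-- Matrix entries. -/
def ent (a : L2 Ω →L[ℂ] L2 Ω) (i j : Ω) : ℂ := a (bv j) i

theorem ent_add (a b : L2 Ω →L[ℂ] L2 Ω) (i j : Ω) : ent (a + b) i j = ent a i j + ent b i j := rfl

theorem ent_sub (a b : L2 Ω →L[ℂ] L2 Ω) (i j : Ω) : ent (a - b) i j = ent a i j - ent b i j := rfl

theorem ent_smul (c : ℂ) (a : L2 Ω →L[ℂ] L2 Ω) (i j : Ω) : ent (c • a) i j = c * ent a i j := rfl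

theorem norm_apply_le (f : L2 Ω) (i : Ω) : ‖f i‖ ≤ ‖f‖ := by
  exact lp.norm_apply_le_norm (by norm_num) f i

theorem norm_ent_le (a : L2 Ω →L[ℂ] L2 Ω) (i j : Ω) : ‖ent a i j‖ ≤ ‖a‖ := by
  refine (norm_apply_le _ _).trans ((a.le_opNorm _).trans ?_)
  rw [norm_bv, mul_one]

theorem ext_ent (a : L2 Ω →L[ℂ] L2 Ω) (h : ∀ i j, ent a i j = 0) : a = 0 := by
  classical
  have h1 : ∀ j, a (bv j) = 0 := by
    intro j
    apply lp.ext
    funext i
    exact h i j
  ext1 f
  have h2 := (lp.hasSum_single (p := 2) (by norm_num) f).mapL a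
  have h3 : ∀ j, a (lp.single 2 j (f j)) = 0 := by
    intro j
    have : lp.single 2 j (f j) = f j • bv j := by
      unfold bv
      rw [← lp.single_smul]
      simp
    rw [this, map_smul, h1 j, smul_zero]
  simp only [h3] at h2
  rw [zero_apply]
  exact h2.unique hasSum_zero

end Pool.Agent.V11110.ZN
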