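import Pool.Agent.V11110.ZN1

open scoped InnerProductSpace ComplexConjugate ENNReal

noncomputable section

namespace Pool.Agent.V11110.ZN

/-- The orders of the cyclic factors. -/
def N (j : ℕ) : ℕ := 4 ^ (j + 2)

instance (j : ℕ) : NeZero (N j) := ⟨by unfold N; positivity⟩

/-- The compact group. -/
abbrev X := (j : ℕ) → ZMod (N j)

/-- The labels. -/
abbrev Γ := ℕ → Bool

/-- No coordinate up to `j` vanishes. -/
def alive (x : X) (j : ℕ) : Prop := ∀ i ≤ j, x i ≠ 0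

open Classical in
/-- Truncated label. -/
def tr (x : X) (γ : Γ) : Γ := fun j => if alive x j then γ j else false

theorem tr_eq_iff (x : X) (γ γ' : Γ) : tr x γ = tr x γ' ↔ ∀ j, alive x j → γ j = γ' j := by
  classical
  constructor
  · intro h j hj
    have := congrFun h j
    unfold tr at this
    rwa [if_pos hj, if_pos hj] at this
  · intro h
    funext j
    unfold tr
    split_ifs with hj
    · exact h j hj
    · rfl

theorem tr_eq_iff_le (x : X) (γ γ' : Γ) (d : ℕ) (hd : γ d ≠ γ' d) :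
    tr x γ = tr x γ' ↔ ∀ j ≤ d, alive x j → γ j = γ' j := by
  rw [tr_eq_iff]
  constructor
  · intro h j _ hj; exact h j hj
  · intro h j hj
    rcases le_or_gt j d with hjd | hjd
    · exact h j hjd hj
    · exfalso
      exact hd (h d le_rfl (fun i hi => hj i (hi.trans hjd.le)))

/-- Sets depending on the first `n` coordinates. -/
def Cyl (n : ℕ) (V : Set X) : Prop := ∀ x x' : X, (∀ j < n, x j = x' j) → (x ∈ V ↔ x' ∈ V)

theorem Cyl.mono {n m : ℕ} {V : Set X} (h : Cyl n V) (hnm : n ≤ m) : Cyl m V :=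
  fun x x' hx => h x x' (fun j hj => hx j (hj.trans_le hnm))

theorem Cyl.inter {n : ℕ} {V W : Set X} (h : Cyl n V) (h' : Cyl n W) : Cyl n (V ∩ W) :=
  fun x x' hx => and_congr (h x x' hx) (h' x x' hx)

theorem Cyl.shift {n : ℕ} {V : Set X} (h : Cyl n V) (k : X) : Cyl n {x | x + k ∈ V} :=
  fun x x' hx => h (x + k) (x' + k) (fun j hj => by
    rw [Pi.add_apply, Pi.add_apply, hx j hj])

theorem Cyl.shiftsub {n : ℕ} {V : Set X} (h : Cyl n V) (k : X) : Cyl n {x | x - k ∈ V} :=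
  fun x x' hx => h (x - k) (x' - k) (fun j hj => by
    rw [Pi.sub_apply, Pi.sub_apply, hx j hj])

theorem alive_congr {x x' : X} {j n : ℕ} (hj : j < n) (h : ∀ i < n, x i = x' i) :
    alive x j ↔ alive x' j := by
  unfold alive
  constructor
  · intro h2 i hi; rw [← h i (hi.trans_lt hj)]; exact h2 i hi
  · intro h2 i hi; rw [h i (hi.trans_lt hj)]; exact h2 i hi

theorem cyl_tr (γ γ' : Γ) : ∃ n, Cyl n {x | tr x γ = tr x γ'} := by
  by_cases h : γ = γ'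
  · subst h
    exact ⟨0, fun x x' _ => by simp⟩
  · obtain ⟨d, hd⟩ := Function.ne_iff.mp h
    refine ⟨d + 1, fun x x' hx => ?_⟩
    rw [Set.mem_ofPred_eq, Set.mem_ofPred_eq, tr_eq_iff_le x γ γ' d hd, tr_eq_iff_le x' γ γ' d hd]
    constructor
    · intro h2 j hj hj2
      exact h2 j hj ((alive_congr (Nat.lt_succ_of_le hj) hx).mpr hj2)
    · intro h2 j hj hj2
      exact h2 j hj ((alive_congr (Nat.lt_succ_of_le hj) hx).mp hj2)

/-- The index set of the basis. -/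
abbrev Om := X × Γ

/-- The partial bijection `(x, tr x γ₂) ↦ (x + h, tr (x + h) γ₁)` for `x ∈ V`. -/
def pb (γ₁ : Γ) (h : X) (γ₂ : Γ) (V : Set X) : PB Om where
  dom := {w | w.1 ∈ V ∧ w.2 = tr w.1 γ₂}
  cod := {w | w.1 - h ∈ V ∧ w.2 = tr w.1 γ₁}
  fwd := fun w => (w.1 + h, tr (w.1 + h) γ₁)
  bwd := fun w => (w.1 - h, tr (w.1 - h) γ₂)
  h1 := by
    rintro ⟨x, s⟩ ⟨hx, hs⟩
    refine ⟨⟨?_, rfl⟩, ?_⟩
    · simpa using hx
    · simp only [add_sub_cancel_right]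
      exact Prod.ext rfl hs.symm
  h2 := by
    rintro ⟨x, s⟩ ⟨hx, hs⟩
    refine ⟨⟨hx, rfl⟩, ?_⟩
    simp only [sub_add_cancel]
    exact Prod.ext rfl hs.symm

/-- The partial isometries. -/
def T (γ₁ : Γ) (h : X) (γ₂ : Γ) (V : Set X) : L2 Om →L[ℂ] L2 Om := op (pb γ₁ h γ₂ V)

open Classical in
theorem T_apply (γ₁ : Γ) (h : X) (γ₂ : Γ) (V : Set X) (f : L2 Om) (w : Om) :
    T γ₁ h γ₂ V f w
      = if w.1 - h ∈ V ∧ w.2 = tr w.1 γ₁ then f (w.1 - h, tr (w.1 - h) γ₂) else 0 := by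
  unfold T
  rw [op_apply]
  have e1 : (w ∈ (pb γ₁ h γ₂ V).cod) ↔ (w.1 - h ∈ V ∧ w.2 = tr w.1 γ₁) := Iff.rfl
  by_cases h3 : w ∈ (pb γ₁ h γ₂ V).cod
  · rw [if_pos h3, if_pos (e1.mp h3)]; rfl
  · rw [if_neg h3, if_neg (fun h4 => h3 (e1.mpr h4))]

theorem ext_apply {a b : L2 Om →L[ℂ] L2 Om} (h : ∀ f w, a f w = b f w) : a = b := by
  ext1 f
  apply lp.ext
  funext w
  exact h f w

theorem T_mul (γ₁ γ₂ γ₃ γ₄ : Γ) (h k : X) (V W : Set X) :
    T γ₁ h γ₂ V * T γ₃ k γ₄ W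
      = T γ₁ (k + h) γ₄ (W ∩ ({x | x + k ∈ V} ∩ {x | x + k ∈ {x | tr x γ₂ = tr x γ₃}})) := by
  classical
  apply ext_apply
  intro f w
  have e1 : (T γ₁ h γ₂ V * T γ₃ k γ₄ W) f w = T γ₁ h γ₂ V (T γ₃ k γ₄ W f) w := rfl
  rw [e1, T_apply, T_apply, T_apply]
  have e2 : w.1 - (k + h) = w.1 - h - k := by abel
  rw [e2]
  simp only [Set.mem_inter_iff, Set.mem_ofPred_eq, sub_add_cancel]
  by_cases h1 : w.2 = tr w.1 γ₁ <;> by_cases h2 : w.1 - h ∈ V <;>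
    by_cases h3 : w.1 - h - k ∈ W <;>
    by_cases h4 : tr (w.1 - h) γ₂ = tr (w.1 - h) γ₃ <;> simp [h1, h2, h3, h4]

theorem star_T (γ₁ γ₂ : Γ) (h : X) (V : Set X) :
    star (T γ₁ h γ₂ V) = T γ₂ (-h) γ₁ {x | x - h ∈ V} := by
  classical
  unfold T
  rw [star_op]
  apply ext_apply
  intro f w
  rw [op_apply, op_apply]
  have e1 : (w ∈ (pb γ₁ h γ₂ V).symm.cod) ↔ (w ∈ (pb γ₂ (-h) γ₁ {x | x - h ∈ V}).cod) := by
    change (w.1 ∈ V ∧ w.2 = tr w.1 γ₂) ↔ (w.1 - (-h) - h ∈ V ∧ w.2 = tr w.1 γ₂)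
    rw [sub_neg_eq_add, add_sub_cancel_right]
  have e2 : (pb γ₁ h γ₂ V).symm.bwd w = (pb γ₂ (-h) γ₁ {x | x - h ∈ V}).bwd w := by
    change (w.1 + h, tr (w.1 + h) γ₁) = (w.1 - (-h), tr (w.1 - (-h)) γ₁)
    rw [sub_neg_eq_add]
  rw [e2]
  by_cases h3 : w ∈ (pb γ₁ h γ₂ V).symm.cod
  · rw [if_pos h3, if_pos (e1.mp h3)]
  · rw [if_neg h3, if_neg (fun h4 => h3 (e1.mpr h4))]

theorem norm_T_le (γ₁ : Γ) (h : X) (γ₂ : Γ) (V : Set X) : ‖T γ₁ h γ₂ V‖ ≤ 1 := norm_op_le _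

theorem T_empty (γ₁ : Γ) (h : X) (γ₂ : Γ) {V : Set X} (hV : V = ∅) : T γ₁ h γ₂ V = 0 := by
  classical
  apply ext_apply
  intro f w
  rw [T_apply, hV]
  simp

open Classical in
theorem ent_T (γ₁ : Γ) (h : X) (γ₂ : Γ) (V : Set X) (w w' : Om) :
    ent (T γ₁ h γ₂ V) w w'
      = if (w.1 - h ∈ V ∧ w.2 = tr w.1 γ₁) ∧ (w.1 - h, tr (w.1 - h) γ₂) = w' then 1 else 0 := by
  unfold ent
  rw [T_apply, bv_apply]
  by_cases h1 : w.1 - h ∈ V ∧ w.2 = tr w.1 γ₁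
  · rw [if_pos h1]
    by_cases h2 : (w.1 - h, tr (w.1 - h) γ₂) = w'
    · rw [if_pos h2, if_pos ⟨h1, h2⟩]
    · rw [if_neg h2, if_neg (fun h3 => h2 h3.2)]
  · rw [if_neg h1, if_neg (fun h3 => h1 h3.1)]

/-- Diagonal projections. -/
def Pd (γ : Γ) (V : Set X) : L2 Om →L[ℂ] L2 Om := T γ 0 γ V

open Classical in
theorem Pd_apply (γ : Γ) (V : Set X) (f : L2 Om) (w : Om) :
    Pd γ V f w = if w.1 ∈ V ∧ w.2 = tr w.1 γ then f w else 0 := by
  unfold Pd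
  rw [T_apply]
  simp only [sub_zero]
  by_cases h : w.1 ∈ V ∧ w.2 = tr w.1 γ
  · rw [if_pos h, if_pos h, ← h.2]
  · rw [if_neg h, if_neg h]

theorem Pd_mul (γ : Γ) (V W : Set X) : Pd γ V * Pd γ W = Pd γ (V ∩ W) := by
  classical
  apply ext_apply
  intro f w
  have e1 : (Pd γ V * Pd γ W) f w = Pd γ V (Pd γ W f) w := rfl
  rw [e1, Pd_apply, Pd_apply, Pd_apply]
  by_cases h1 : w.1 ∈ V <;> by_cases h2 : w.1 ∈ W <;> by_cases h3 : w.2 = tr w.1 γ <;>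
    simp [h1, h2, h3]

theorem star_Pd (γ : Γ) (V : Set X) : star (Pd γ V) = Pd γ V := by
  unfold Pd
  rw [star_T]
  simp

end Pool.Agent.V11110.ZN
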