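import Pool.Agent.V11110.ZN2

open scoped InnerProductSpace ComplexConjugate ENNReal

noncomputable section

namespace Pool.Agent.V11110.ZN

/-- The generating partial isometries. -/
def D : Set (L2 Om →L[ℂ] L2 Om) :=
  {a | ∃ (γ₁ : Γ) (h : X) (γ₂ : Γ) (V : Set X) (n : ℕ), Cyl n V ∧ a = T γ₁ h γ₂ V}

/-- Their span. -/
def Sp : Submodule ℂ (L2 Om →L[ℂ] L2 Om) := Submodule.span ℂ D

theorem T_mem {γ₁ : Γ} {h : X} {γ₂ : Γ} {V : Set X} {n : ℕ} (hV : Cyl n V) :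
    T γ₁ h γ₂ V ∈ Sp := Submodule.subset_span ⟨γ₁, h, γ₂, V, n, hV, rfl⟩

theorem D_mul {a b : L2 Om →L[ℂ] L2 Om} (ha : a ∈ D) (hb : b ∈ D) : a * b ∈ D := by
  obtain ⟨γ₁, h, γ₂, V, n, hV, rfl⟩ := ha
  obtain ⟨γ₃, k, γ₄, W, m, hW, rfl⟩ := hb
  obtain ⟨p, hp⟩ := cyl_tr γ₂ γ₃
  rw [T_mul]
  refine ⟨γ₁, k + h, γ₄, _, n + m + p, ?_, rfl⟩
  exact (hW.mono (by omega)).inter (((hV.mono (by omega)).shift k).inter
    ((hp.mono (by omega)).shift k))

theorem D_star {a : L2 Om →L[ℂ] L2 Om} (ha : a ∈ D) : star a ∈ D := by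
  obtain ⟨γ₁, h, γ₂, V, n, hV, rfl⟩ := ha
  rw [star_T]
  exact ⟨γ₂, -h, γ₁, _, n, hV.shiftsub h, rfl⟩

theorem Sp_mul {a b : L2 Om →L[ℂ] L2 Om} (ha : a ∈ Sp) (hb : b ∈ Sp) : a * b ∈ Sp := by
  unfold Sp at ha hb
  induction ha using Submodule.span_induction with
  | mem x hx =>
    induction hb using Submodule.span_induction with
    | mem y hy => exact Submodule.subset_span (D_mul hx hy)
    | zero => rw [mul_zero]; exact Submodule.zero_mem _
    | add a b _ _ ha hb => rw [mul_add]; exact Submodule.add_mem _ ha hb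
    | smul c a _ ha => rw [mul_smul_comm]; exact Submodule.smul_mem _ _ ha
  | zero => rw [zero_mul]; exact Submodule.zero_mem _
  | add a b _ _ ha hb => rw [add_mul]; exact Submodule.add_mem _ ha hb
  | smul c a _ ha => rw [smul_mul_assoc]; exact Submodule.smul_mem _ _ ha

theorem Sp_star {a : L2 Om →L[ℂ] L2 Om} (ha : a ∈ Sp) : star a ∈ Sp := by
  unfold Sp at ha
  induction ha using Submodule.span_induction with
  | mem x hx => exact Submodule.subset_span (D_star hx)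
  | zero => rw [star_zero]; exact Submodule.zero_mem _
  | add a b _ _ ha hb => rw [star_add]; exact Submodule.add_mem _ ha hb
  | smul c a _ ha => rw [star_smul]; exact Submodule.smul_mem _ _ ha

/-- The dense star subalgebra. -/
def A0 : NonUnitalStarSubalgebra ℂ (L2 Om →L[ℂ] L2 Om) where
  carrier := Sp
  add_mem' := fun ha hb => Submodule.add_mem _ ha hb
  zero_mem' := Submodule.zero_mem _
  mul_mem' := fun ha hb => Sp_mul ha hb
  smul_mem' := fun c _ ha => Submodule.smul_mem _ c ha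
  star_mem' := fun ha => Sp_star ha

/-- The C*-algebra. -/
def S0 : NonUnitalStarSubalgebra ℂ (L2 Om →L[ℂ] L2 Om) := A0.topologicalClosure

instance S0_closed : IsClosed (S0 : Set (L2 Om →L[ℂ] L2 Om)) :=
  NonUnitalStarSubalgebra.isClosed_topologicalClosure _

theorem Sp_sub {a : L2 Om →L[ℂ] L2 Om} (ha : a ∈ Sp) : a ∈ S0 :=
  NonUnitalStarSubalgebra.le_topologicalClosure A0 ha

theorem dense {a : L2 Om →L[ℂ] L2 Om} (ha : a ∈ S0) {ε : ℝ} (hε : 0 < ε) :
    ∃ b ∈ Sp, ‖a - b‖ < ε := by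
  have h1 : a ∈ closure (Sp : Set (L2 Om →L[ℂ] L2 Om)) := ha
  obtain ⟨b, hb, hab⟩ := Metric.mem_closure_iff.mp h1 ε hε
  exact ⟨b, hb, by rwa [← dist_eq_norm]⟩

/-- The corner formula. -/
theorem corner {b : L2 Om →L[ℂ] L2 Om} (hb : b ∈ Sp) (x₀ : X) (γ₀ : Γ) :
    ∃ n₀ : ℕ, ∀ n ≥ n₀, Pd γ₀ {x | ∀ j < n, x j = x₀ j} * b * Pd γ₀ {x | ∀ j < n, x j = x₀ j}
      = ent b (x₀, tr x₀ γ₀) (x₀, tr x₀ γ₀) • Pd γ₀ {x | ∀ j < n, x j = x₀ j} := by
  classical
  unfold Sp at hb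
  induction hb using Submodule.span_induction with
  | mem a ha =>
    obtain ⟨γ₁, h, γ₂, W, m, hW, rfl⟩ := ha
    by_cases hh : h = 0
    · subst hh
      obtain ⟨p, hp⟩ := cyl_tr γ₀ γ₁
      obtain ⟨q, hq⟩ := cyl_tr γ₂ γ₀
      refine ⟨m + p + q, fun n hn => ?_⟩
      apply ext_apply
      intro f w
      have e1 : (Pd γ₀ {x | ∀ j < n, x j = x₀ j} * T γ₁ 0 γ₂ W * Pd γ₀ {x | ∀ j < n, x j = x₀ j})
          f w = Pd γ₀ {x | ∀ j < n, x j = x₀ j} (T γ₁ 0 γ₂ W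
            (Pd γ₀ {x | ∀ j < n, x j = x₀ j} f)) w := rfl
      have e2 : ∀ c : ℂ, (c • Pd γ₀ {x | ∀ j < n, x j = x₀ j}) f w
          = c * Pd γ₀ {x | ∀ j < n, x j = x₀ j} f w := fun c => rfl
      rw [e1, e2, ent_T, Pd_apply, T_apply, Pd_apply, Pd_apply]
      simp only [sub_zero]
      by_cases hw : w.1 ∈ ({x | ∀ j < n, x j = x₀ j} : Set X)
      · have h3 := hW.mono (m := n) (by omega) w.1 x₀ hw
        have h4 := hp.mono (m := n) (by omega) w.1 x₀ hw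
        have h5 := hq.mono (m := n) (by omega) w.1 x₀ hw
        simp only [Set.mem_ofPred_eq] at h4 h5
        by_cases hs : w.2 = tr w.1 γ₀
        · have hp1 : w.1 ∈ ({x | ∀ j < n, x j = x₀ j} : Set X) ∧ w.2 = tr w.1 γ₀ := ⟨hw, hs⟩
          have h6 : (w.2 = tr w.1 γ₁) ↔ (tr x₀ γ₀ = tr x₀ γ₁) := by rw [hs]; exact h4
          by_cases c : (x₀ ∈ W ∧ tr x₀ γ₀ = tr x₀ γ₁) ∧ ((x₀, tr x₀ γ₂) : Om) = (x₀, tr x₀ γ₀)
          · have c2 : w.1 ∈ W ∧ w.2 = tr w.1 γ₁ := ⟨h3.mpr c.1.1, h6.mpr c.1.2⟩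
            have c3 : w.1 ∈ ({x | ∀ j < n, x j = x₀ j} : Set X) ∧ tr w.1 γ₂ = tr w.1 γ₀ :=
              ⟨hw, h5.mpr (congrArg Prod.snd c.2)⟩
            rw [if_pos c, if_pos hp1, if_pos hp1, if_pos c2, if_pos c3, one_mul, c3.2, ← hs]
          · rw [if_neg c, zero_mul, if_pos hp1]
            split_ifs with c1 c2
            · exact absurd ⟨⟨h3.mp c1.1, h6.mp c1.2⟩, by rw [h5.mp c2.2]⟩ c
            · rfl
            · rfl
        · rw [if_neg (fun h6 : _ ∧ _ => hs h6.2), if_neg (fun h6 : _ ∧ _ => hs h6.2), mul_zero]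
      · rw [if_neg (fun h6 : _ ∧ _ => hw h6.1), if_neg (fun h6 : _ ∧ _ => hw h6.1), mul_zero]
    · obtain ⟨j, hj⟩ := Function.ne_iff.mp hh
      refine ⟨j + 1, fun n hn => ?_⟩
      apply ext_apply
      intro f w
      have e1 : (Pd γ₀ {x | ∀ j < n, x j = x₀ j} * T γ₁ h γ₂ W * Pd γ₀ {x | ∀ j < n, x j = x₀ j})
          f w = Pd γ₀ {x | ∀ j < n, x j = x₀ j} (T γ₁ h γ₂ W
            (Pd γ₀ {x | ∀ j < n, x j = x₀ j} f)) w := rfl
      have e2 : ∀ c : ℂ, (c • Pd γ₀ {x | ∀ j < n, x j = x₀ j}) f w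
          = c * Pd γ₀ {x | ∀ j < n, x j = x₀ j} f w := fun c => rfl
      rw [e1, e2, ent_T, Pd_apply, T_apply, Pd_apply, Pd_apply]
      have h7 : ¬ ((x₀ - h, tr (x₀ - h) γ₂) : Om) = (x₀, tr x₀ γ₀) := by
        intro h8
        have h9 : x₀ - h = x₀ := congrArg Prod.fst h8
        exact hh (by simpa using h9)
      rw [if_neg (fun h6 : (_ ∧ _) => h7 h6.2), zero_mul]
      by_cases hw : w.1 ∈ ({x | ∀ j < n, x j = x₀ j} : Set X)
      · have h10 : ¬ (w.1 - h) ∈ ({x | ∀ j < n, x j = x₀ j} : Set X) := by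
          intro h11
          have h12 := h11 j (by omega)
          have h13 := hw j (by omega)
          rw [Pi.sub_apply, h13] at h12
          exact hj (by simpa using h12)
        rw [if_neg (fun h6 : ((w.1 - h) ∈ _ ∧ _) => h10 h6.1)]
        simp
      · rw [if_neg (fun h6 => hw h6.1)]
  | zero =>
    refine ⟨0, fun n _ => ?_⟩
    rw [mul_zero, zero_mul]
    have : ent (0 : L2 Om →L[ℂ] L2 Om) (x₀, tr x₀ γ₀) (x₀, tr x₀ γ₀) = 0 := rfl
    rw [this, zero_smul]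
  | add a b _ _ ha hb =>
    obtain ⟨n₁, h1⟩ := ha
    obtain ⟨n₂, h2⟩ := hb
    refine ⟨n₁ + n₂, fun n hn => ?_⟩
    rw [mul_add, add_mul, h1 n (by omega), h2 n (by omega), ent_add, add_smul]
  | smul c a _ ha =>
    obtain ⟨n₁, h1⟩ := ha
    refine ⟨n₁, fun n hn => ?_⟩
    rw [mul_smul_comm, smul_mul_assoc, h1 n hn, ent_smul, smul_smul]

/-- Entries of elements of the span are locally constant. -/
theorem loc_const {b : L2 Om →L[ℂ] L2 Om} (hb : b ∈ Sp) (γ γ' : Γ) (g x : X) :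
    ∃ n : ℕ, ∀ x' : X, (∀ j < n, x' j = x j) →
      ent b (x' + g, tr (x' + g) γ) (x', tr x' γ') = ent b (x + g, tr (x + g) γ) (x, tr x γ') := by
  classical
  unfold Sp at hb
  induction hb using Submodule.span_induction with
  | mem a ha =>
    obtain ⟨γ₁, h, γ₂, W, m, hW, rfl⟩ := ha
    by_cases hh : g = h
    · subst hh
      obtain ⟨p, hp⟩ := cyl_tr γ γ₁
      obtain ⟨q, hq⟩ := cyl_tr γ₂ γ'
      refine ⟨m + p + q, fun x' hx' => ?_⟩
      rw [ent_T, ent_T]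
      simp only [add_sub_cancel_right]
      have h3 := hW.mono (m := m + p + q) (by omega) x' x hx'
      have h4 := (hp.mono (m := m + p + q) (by omega)).shift g x' x hx'
      have h5 := hq.mono (m := m + p + q) (by omega) x' x hx'
      simp only [Set.mem_ofPred_eq] at h4 h5
      simp only [Prod.mk.injEq, true_and]
      simp only [h3, h4, h5]
    · refine ⟨0, fun x' _ => ?_⟩
      rw [ent_T, ent_T]
      have key : ∀ y : X, ¬ ((y + g - h, tr (y + g - h) γ₂) : Om) = (y, tr y γ') := by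
        intro y h8
        have h9 : y + g - h = y := congrArg Prod.fst h8
        apply hh
        have h10 : y + g - h - y = 0 := by rw [h9, sub_self]
        have h11 : g - h = 0 := by rw [← h10]; abel
        exact sub_eq_zero.mp h11
      rw [if_neg (fun h6 : (_ ∧ _) => key x' h6.2), if_neg (fun h6 : (_ ∧ _) => key x h6.2)]
  | zero => exact ⟨0, fun x' _ => rfl⟩
  | add a b _ _ ha hb =>
    obtain ⟨n₁, h1⟩ := ha
    obtain ⟨n₂, h2⟩ := hb
    refine ⟨n₁ + n₂, fun x' hx' => ?_⟩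
    rw [ent_add, ent_add, h1 x' (fun j hj => hx' j (by omega)), h2 x' (fun j hj => hx' j (by omega))]
  | smul c a _ ha =>
    obtain ⟨n₁, h1⟩ := ha
    refine ⟨n₁, fun x' hx' => ?_⟩
    rw [ent_smul, ent_smul, h1 x' hx']

end Pool.Agent.V11110.ZN
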