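import Pool.Agent.V11110.ZN3

open scoped InnerProductSpace ComplexConjugate ENNReal
open Filter Topology

noncomputable section

namespace Pool.Agent.V11110.ZN

theorem inner_bv {Ω : Type*} (i : Ω) (f : L2 Ω) : ⟪bv i, f⟫_ℂ = f i := by
  classical
  unfold bv
  rw [lp.inner_single_left]
  simp

theorem ent_star_mul (y : L2 Om →L[ℂ] L2 Om) (j : Om) :
    ent (star y * y) j j = ((‖y (bv j)‖ ^ 2 : ℝ) : ℂ) := by
  have h1 : ent (star y * y) j j = ⟪bv j, (star y) (y (bv j))⟫_ℂ := by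
    rw [inner_bv]; rfl
  rw [h1, ContinuousLinearMap.star_eq_adjoint, ContinuousLinearMap.adjoint_inner_right,
    inner_self_eq_norm_sq_to_K]
  push_cast
  rfl

theorem ent_zero_of_span {i j : Om} (h : ∀ b ∈ Sp, ent b i j = 0) {y : L2 Om →L[ℂ] L2 Om}
    (hy : y ∈ S0) : ent y i j = 0 := by
  by_contra hne
  have hpos : 0 < ‖ent y i j‖ := norm_pos_iff.mpr hne
  obtain ⟨b, hb, hyb⟩ := dense hy hpos
  have h1 := norm_ent_le (y - b) i j
  rw [ent_sub, h b hb, sub_zero] at h1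
  linarith

theorem supp_col {i j : Om} {y : L2 Om →L[ℂ] L2 Om} (hy : y ∈ S0) (hne : ent y i j ≠ 0) :
    ∃ γ, j.2 = tr j.1 γ := by
  classical
  by_contra hcon
  push Not at hcon
  apply hne
  refine ent_zero_of_span (fun b hb => ?_) hy
  unfold Sp at hb
  induction hb using Submodule.span_induction with
  | mem a ha =>
    obtain ⟨γ₁, h, γ₂, W, m, hW, rfl⟩ := ha
    rw [ent_T, if_neg]
    rintro ⟨-, h2⟩
    apply hcon γ₂
    rw [← h2]
  | zero => rfl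
  | add a b _ _ ha hb => rw [ent_add, ha, hb, add_zero]
  | smul c a _ ha => rw [ent_smul, ha, mul_zero]

theorem supp_row {i j : Om} {y : L2 Om →L[ℂ] L2 Om} (hy : y ∈ S0) (hne : ent y i j ≠ 0) :
    ∃ γ, i.2 = tr i.1 γ := by
  classical
  by_contra hcon
  push Not at hcon
  apply hne
  refine ent_zero_of_span (fun b hb => ?_) hy
  unfold Sp at hb
  induction hb using Submodule.span_induction with
  | mem a ha =>
    obtain ⟨γ₁, h, γ₂, W, m, hW, rfl⟩ := ha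
    rw [ent_T, if_neg]
    rintro ⟨⟨-, h2⟩, -⟩
    exact hcon γ₁ h2
  | zero => rfl
  | add a b _ _ ha hb => rw [ent_add, ha, hb, add_zero]
  | smul c a _ ha => rw [ent_smul, ha, mul_zero]

theorem sum_apply_apply {ι : Type*} (s : Finset ι) (a : ι → L2 Om →L[ℂ] L2 Om) (f : L2 Om)
    (w : Om) : (∑ i ∈ s, a i) f w = ∑ i ∈ s, a i f w := by
  classical
  induction s using Finset.induction_on with
  | empty => simp
  | insert i s hi ih =>
    rw [Finset.sum_insert hi, Finset.sum_insert hi, ← ih]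
    rfl

theorem T_split (γ₁ : Γ) (h : X) (γ₂ : Γ) (V : Set X) (k : ℕ) :
    T γ₁ h γ₂ V = ∑ c : ZMod (N k), T γ₁ h γ₂ (V ∩ {x | x k = c}) := by
  classical
  apply ext_apply
  intro f w
  rw [sum_apply_apply, T_apply]
  have : ∀ c : ZMod (N k), T γ₁ h γ₂ (V ∩ {x | x k = c}) f w
      = if (w.1 - h) k = c then (if w.1 - h ∈ V ∧ w.2 = tr w.1 γ₁
        then f (w.1 - h, tr (w.1 - h) γ₂) else 0) else 0 := by
    intro c
    rw [T_apply]
    by_cases h1 : (w.1 - h) k = c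
    · rw [if_pos h1]
      by_cases h2 : w.1 - h ∈ V ∧ w.2 = tr w.1 γ₁
      · rw [if_pos h2, if_pos ⟨⟨h2.1, h1⟩, h2.2⟩]
      · rw [if_neg h2, if_neg (fun h3 => h2 ⟨h3.1.1, h3.2⟩)]
    · rw [if_neg h1, if_neg (fun h3 => h1 h3.1.2)]
  simp only [this, Finset.sum_ite_eq, Finset.mem_univ, if_true]

/-- The ideal lemma for projections. -/
theorem ideal_proj {A : Type*} [NonUnitalNormedRing A] [NormedSpace ℂ A] (J : Submodule ℂ A)
    (hJc : IsClosed (J : Set A)) (hJ : ∀ a : A, ∀ x ∈ J, a * x ∈ J ∧ x * a ∈ J) (P z : A)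
    (hP : P * P = P) (hz : z ∈ J) (hPz : P * z = z) (hlt : ‖P - z‖ < 1) : P ∈ J := by
  set w := P - z with hw
  let u : ℕ → A := fun n => Nat.rec (motive := fun _ => A) w (fun _ v => v * w) n
  have hu0 : u 0 = w := rfl
  have hu1 : ∀ n, u (n + 1) = u n * w := fun n => rfl
  have hPw : P * w = w := by rw [hw, mul_sub, hP, hPz]
  have hmem : ∀ n, P - u n ∈ J := by
    intro n
    induction n with
    | zero =>
      rw [hu0, hw, sub_sub_cancel]; exact hz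
    | succ n ih =>
      have h1 : P - u (n + 1) = z + (P - u n) * w := by
        rw [hu1, sub_mul, hPw, hw]
        abel
      rw [h1]
      exact Submodule.add_mem _ hz (hJ w _ ih).2
  have hnorm : ∀ n, ‖u n‖ ≤ ‖w‖ ^ (n + 1) := by
    intro n
    induction n with
    | zero => rw [hu0, zero_add, pow_one]
    | succ n ih =>
      rw [hu1, pow_succ]
      exact (norm_mul_le _ _).trans (mul_le_mul_of_nonneg_right ih (norm_nonneg _))
  have hlim : Tendsto u atTop (𝓝 0) := by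
    refine squeeze_zero_norm hnorm ?_
    exact (tendsto_pow_atTop_nhds_zero_of_lt_one (norm_nonneg _) hlt).comp (tendsto_add_atTop_nat 1)
  have hlim2 : Tendsto (fun n => P - u n) atTop (𝓝 P) := by
    simpa using (tendsto_const_nhds (x := P)).sub hlim
  exact hJc.mem_of_tendsto hlim2 (Eventually.of_forall hmem)

theorem cyl_ball (n : ℕ) (x₀ : X) : Cyl n {x | ∀ j < n, x j = x₀ j} := by
  intro x x' hx
  constructor
  · intro h j hj; rw [← hx j hj]; exact h j hj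
  · intro h j hj; rw [hx j hj]; exact h j hj

theorem cyl_univ : Cyl 0 Set.univ := fun x x' _ => by simp

/-- The generators as elements of the algebra. -/
def tA (γ₁ : Γ) (h : X) (γ₂ : Γ) {V : Set X} {n : ℕ} (hV : Cyl n V) : S0 :=
  ⟨T γ₁ h γ₂ V, Sp_sub (T_mem hV)⟩

theorem T_translate (γ₁ γ₀ γ₂ : Γ) (h x x₀ : X) (n : ℕ) :
    T γ₁ (h + (x - x₀)) γ₀ Set.univ * (Pd γ₀ {y | ∀ j < n, y j = x₀ j} *
      T γ₀ (x₀ - x) γ₂ Set.univ) = T γ₁ h γ₂ {y | ∀ j < n, y j = x j} := by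
  classical
  apply ext_apply
  intro f w
  have e1 : (T γ₁ (h + (x - x₀)) γ₀ Set.univ * (Pd γ₀ {y | ∀ j < n, y j = x₀ j} *
      T γ₀ (x₀ - x) γ₂ Set.univ)) f w = T γ₁ (h + (x - x₀)) γ₀ Set.univ
        (Pd γ₀ {y | ∀ j < n, y j = x₀ j} (T γ₀ (x₀ - x) γ₂ Set.univ f)) w := rfl
  rw [e1, T_apply, Pd_apply, T_apply, T_apply]
  have e2 : w.1 - (h + (x - x₀)) - (x₀ - x) = w.1 - h := by abel
  have e3 : (w.1 - (h + (x - x₀)) ∈ ({y | ∀ j < n, y j = x₀ j} : Set X)) ↔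
      (w.1 - h ∈ ({y | ∀ j < n, y j = x j} : Set X)) := by
    have e4 : ∀ j, (w.1 - (h + (x - x₀))) j = x₀ j ↔ (w.1 - h) j = x j := by
      intro j
      simp only [Pi.sub_apply, Pi.add_apply]
      constructor
      · intro h1
        linear_combination h1
      · intro h1
        linear_combination h1
    simp only [Set.mem_ofPred_eq, e4]
  simp only [e2, e3, Set.mem_univ, true_and, and_true]
  by_cases h1 : w.2 = tr w.1 γ₁ <;> by_cases h2 : w.1 - h ∈ ({y | ∀ j < n, y j = x j} : Set X)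
  · rw [if_pos h1, if_pos h2, if_pos (show _ ∧ _ from ⟨h2, h1⟩)]
    exact if_pos trivial
  · rw [if_pos h1, if_neg h2, if_neg (fun h3 : _ ∧ _ => h2 h3.1)]
  · rw [if_neg h1, if_neg (fun h3 : _ ∧ _ => h1 h3.2)]
  · rw [if_neg h1, if_neg (fun h3 : _ ∧ _ => h1 h3.2)]

theorem T_restrict (γ₁ γ₂ : Γ) (h : X) (V W : Set X) :
    T γ₁ h γ₂ V * Pd γ₂ W = T γ₁ h γ₂ (V ∩ W) := by
  classical
  apply ext_apply
  intro f w
  have e1 : (T γ₁ h γ₂ V * Pd γ₂ W) f w = T γ₁ h γ₂ V (Pd γ₂ W f) w := rfl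
  rw [e1, T_apply, Pd_apply, T_apply]
  by_cases h1 : w.1 - h ∈ V <;> by_cases h2 : w.1 - h ∈ W <;> by_cases h3 : w.2 = tr w.1 γ₁ <;>
    simp [h1, h2, h3]

theorem ball_split (n : ℕ) (x : X) (c : ZMod (N n)) :
    ({y | ∀ j < n, y j = x j} ∩ {y | y n = c} : Set X)
      = {y | ∀ j < n + 1, y j = (Function.update x n c) j} := by
  ext y
  simp only [Set.mem_inter_iff, Set.mem_ofPred_eq]
  constructor
  · rintro ⟨h1, h2⟩ j hj
    rcases Nat.lt_succ_iff_lt_or_eq.mp hj with h | h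
    · rw [Function.update_of_ne h.ne]; exact h1 j h
    · subst h; rw [Function.update_self]; exact h2
  · intro h
    refine ⟨fun j hj => ?_, ?_⟩
    · have := h j (hj.trans (Nat.lt_succ_self n))
      rwa [Function.update_of_ne hj.ne] at this
    · have := h n (Nat.lt_succ_self n)
      rwa [Function.update_self] at this

theorem T_mem_ideal (J : Submodule ℂ S0) (hJ : ∀ a : S0, ∀ x ∈ J, a * x ∈ J ∧ x * a ∈ J)
    (γ₀ : Γ) (n : ℕ) (x₀ : X) (hmem : tA γ₀ 0 γ₀ (cyl_ball n x₀) ∈ J) :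
    ∀ (m : ℕ), m ≤ n → ∀ (γ₁ γ₂ : Γ) (h x : X), tA γ₁ h γ₂ (cyl_ball m x) ∈ J := by
  intro m hm
  induction hm using Nat.decreasingInduction with
  | self =>
    intro γ₁ γ₂ h x
    have h1 := (hJ (tA γ₁ (h + (x - x₀)) γ₀ cyl_univ) _
      (hJ (tA γ₀ (x₀ - x) γ₂ cyl_univ) _ hmem).2).1
    have h2 : tA γ₁ (h + (x - x₀)) γ₀ cyl_univ * (tA γ₀ 0 γ₀ (cyl_ball n x₀) *
        tA γ₀ (x₀ - x) γ₂ cyl_univ) = tA γ₁ h γ₂ (cyl_ball n x) := by
      apply Subtype.ext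
      exact T_translate γ₁ γ₀ γ₂ h x x₀ n
    rw [← h2]
    exact h1
  | of_succ k hk ih =>
    intro γ₁ γ₂ h x
    have h1 : tA γ₁ h γ₂ (cyl_ball k x)
        = ∑ c : ZMod (N k), tA γ₁ h γ₂ (cyl_ball (k + 1) (Function.update x k c)) := by
      apply Subtype.ext
      have h2 : ((∑ c : ZMod (N k), tA γ₁ h γ₂ (cyl_ball (k + 1) (Function.update x k c)) : S0) :
          L2 Om →L[ℂ] L2 Om) = ∑ c : ZMod (N k),
            T γ₁ h γ₂ {y | ∀ j < k + 1, y j = (Function.update x k c) j} := by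
        push_cast
        rfl
      rw [h2]
      simp only [← ball_split]
      exact T_split γ₁ h γ₂ _ k
    rw [h1]
    exact Submodule.sum_mem _ (fun c _ => ih γ₁ γ₂ h _)

theorem coe_mul (a b : S0) : ((a * b : S0) : L2 Om →L[ℂ] L2 Om) = (a : L2 Om →L[ℂ] L2 Om) * b := rfl

theorem coe_sub (a b : S0) : ((a - b : S0) : L2 Om →L[ℂ] L2 Om) = (a : L2 Om →L[ℂ] L2 Om) - b := rfl

theorem norm_coe (a : S0) : ‖a‖ = ‖(a : L2 Om →L[ℂ] L2 Om)‖ := rfl

theorem top_of_mem (J : Submodule ℂ S0) (hJc : IsClosed (J : Set S0))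
    (hJ : ∀ a : S0, ∀ x ∈ J, a * x ∈ J ∧ x * a ∈ J)
    (γ₀ : Γ) (n : ℕ) (x₀ : X) (hmem : tA γ₀ 0 γ₀ (cyl_ball n x₀) ∈ J) : J = ⊤ := by
  have h0 := T_mem_ideal J hJ γ₀ n x₀ hmem 0 (Nat.zero_le n)
  have hu : ∀ x : X, ({y | ∀ j < 0, y j = x j} : Set X) = Set.univ := by
    intro x; ext y; simp
  have h1 : ∀ (γ₁ : Γ) (h : X) (γ₂ : Γ) (V : Set X) (m : ℕ) (hV : Cyl m V),
      tA γ₁ h γ₂ hV ∈ J := by
    intro γ₁ h γ₂ V m hV
    have h2 := (hJ (tA γ₂ 0 γ₂ hV) _ (h0 γ₁ γ₂ h 0)).2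
    have h3 : tA γ₁ h γ₂ (cyl_ball 0 0) * tA γ₂ 0 γ₂ hV = tA γ₁ h γ₂ hV := by
      apply Subtype.ext
      have := T_restrict γ₁ γ₂ h ({y | ∀ j < 0, y j = (0 : X) j}) V
      rw [hu, Set.univ_inter] at this
      have h4 : (tA γ₁ h γ₂ (cyl_ball 0 0) * tA γ₂ 0 γ₂ hV : L2 Om →L[ℂ] L2 Om)
          = T γ₁ h γ₂ {y | ∀ j < 0, y j = (0 : X) j} * Pd γ₂ V := rfl
      rw [coe_mul, h4, hu, this]
      rfl
    rw [← h3]
    exact h2
  have h2 : ∀ b (hb : b ∈ Sp), (⟨b, Sp_sub hb⟩ : S0) ∈ J := by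
    intro b hb
    unfold Sp at hb
    induction hb using Submodule.span_induction with
    | mem a ha =>
      obtain ⟨γ₁, h, γ₂, W, m, hW, rfl⟩ := ha
      exact h1 γ₁ h γ₂ W m hW
    | zero => exact Submodule.zero_mem J
    | add a b _ _ ha hb => exact Submodule.add_mem J ha hb
    | smul c a _ ha => exact Submodule.smul_mem J c ha
  rw [eq_top_iff]
  intro a _
  have h3 : a ∈ closure (J : Set S0) := by
    rw [Metric.mem_closure_iff]
    intro ε hε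
    obtain ⟨b, hb, hab⟩ := dense a.2 hε
    refine ⟨⟨b, Sp_sub hb⟩, h2 b hb, ?_⟩
    rw [dist_eq_norm]
    exact hab
  rwa [hJc.closure_eq] at h3

theorem norm_Pd_le (γ : Γ) (V : Set X) : ‖Pd γ V‖ ≤ 1 := norm_op_le _

theorem corner_bound {A : Type*} [NonUnitalNormedRing A] [NormedSpace ℂ A]
    [SMulCommClass ℂ A A] [IsScalarTower ℂ A A] (z b P : A) (e : ℂ) (t : ℝ) (htpos : 0 < t)
    (hPle : ‖P‖ ≤ 1) (hc : P * b * P = e • P) (hzb : ‖z - b‖ < t / 4)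
    (het : ‖e - (t : ℂ)‖ ≤ t / 4) : ‖P - (t : ℂ)⁻¹ • (P * (z * P))‖ < 1 := by
  have hdiff : P - (t : ℂ)⁻¹ • (P * (z * P))
      = (t : ℂ)⁻¹ • (((t : ℂ) - e) • P - P * (z - b) * P) := by
    rw [mul_sub, sub_mul, hc, sub_smul]
    have htne : (t : ℂ) ≠ 0 := by exact_mod_cast htpos.ne'
    rw [smul_sub, smul_sub, smul_sub, smul_smul, inv_mul_cancel₀ htne, one_smul, mul_assoc]
    abel
  rw [hdiff, norm_smul, norm_inv, Complex.norm_real, Real.norm_of_nonneg htpos.le]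
  have h1 : ‖((t : ℂ) - e) • P‖ ≤ t / 4 := by
    rw [norm_smul, norm_sub_rev]
    have h3 := norm_nonneg (e - (t : ℂ))
    nlinarith
  have h2 : ‖P * (z - b) * P‖ ≤ t / 4 := by
    refine (norm_mul_le _ _).trans ?_
    have h3 := norm_mul_le P (z - b)
    have h5 := norm_nonneg P
    have h6 := norm_nonneg (z - b)
    have h7 : ‖P * (z - b)‖ ≤ t / 4 := by
      refine h3.trans ?_
      nlinarith
    nlinarith [norm_nonneg (P * (z - b))]
  have h3 := (norm_sub_le (((t : ℂ) - e) • P) (P * (z - b) * P)).trans (add_le_add h1 h2)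
  rw [inv_mul_lt_iff₀ htpos]
  linarith

theorem simple (J : Submodule ℂ S0) (hJc : IsClosed (J : Set S0))
    (hJ : ∀ a : S0, ∀ x ∈ J, a * x ∈ J ∧ x * a ∈ J) : J = ⊥ ∨ J = ⊤ := by
  by_cases hbot : J = ⊥
  · exact Or.inl hbot
  right
  obtain ⟨y, hyJ, hy0⟩ := Submodule.exists_mem_ne_zero_of_ne_bot hbot
  have hy1 : (y : L2 Om →L[ℂ] L2 Om) ≠ 0 := fun h => hy0 (Subtype.ext h)
  have hne : ∃ i j, ent (y : L2 Om →L[ℂ] L2 Om) i j ≠ 0 := by
    by_contra hcon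
    push Not at hcon
    exact hy1 (ext_ent _ hcon)
  obtain ⟨i, j, hij⟩ := hne
  obtain ⟨γ₀, hγ₀⟩ := supp_col y.2 hij
  obtain ⟨x₀, s₀⟩ := j
  simp only at hγ₀
  subst hγ₀
  set t : ℝ := ‖(y : L2 Om →L[ℂ] L2 Om) (bv (x₀, tr x₀ γ₀))‖ ^ 2 with ht
  have htpos : 0 < t := by
    have h1 : 0 < ‖(y : L2 Om →L[ℂ] L2 Om) (bv (x₀, tr x₀ γ₀))‖ := by
      rw [norm_pos_iff]
      intro h0
      apply hij
      unfold ent
      rw [h0]
      rfl
    positivity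
  have hzJ : star y * y ∈ J := (hJ (star y) y hyJ).1
  obtain ⟨b, hb, hzb⟩ := dense (star y * y).2 (show 0 < t / 4 by positivity)
  obtain ⟨n₀, hn₀⟩ := corner hb x₀ γ₀
  have hc := hn₀ n₀ le_rfl
  set V : Set X := {x | ∀ j < n₀, x j = x₀ j} with hV
  set P : S0 := tA γ₀ 0 γ₀ (cyl_ball n₀ x₀) with hP
  have hPc : (P : L2 Om →L[ℂ] L2 Om) = Pd γ₀ V := rfl
  have hPP : P * P = P := by
    apply Subtype.ext
    rw [coe_mul, hPc, Pd_mul, Set.inter_self]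
  set e : ℂ := ent b (x₀, tr x₀ γ₀) (x₀, tr x₀ γ₀) with he
  have het : ‖e - (t : ℂ)‖ ≤ t / 4 := by
    have h1 := norm_ent_le (((star y * y : S0) : L2 Om →L[ℂ] L2 Om) - b)
      (x₀, tr x₀ γ₀) (x₀, tr x₀ γ₀)
    have h2 : ent ((star y * y : S0) : L2 Om →L[ℂ] L2 Om) (x₀, tr x₀ γ₀) (x₀, tr x₀ γ₀)
        = (t : ℂ) := ent_star_mul (y : L2 Om →L[ℂ] L2 Om) (x₀, tr x₀ γ₀)
    rw [ent_sub, h2] at h1
    rw [norm_sub_rev]
    exact h1.trans hzb.le
  set z : S0 := (t : ℂ)⁻¹ • (P * ((star y * y) * P)) with hz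
  have hz1 : z ∈ J := Submodule.smul_mem _ _ (hJ P _ (hJ P _ hzJ).2).1
  have hPz : P * z = z := by
    rw [hz, mul_smul_comm, ← mul_assoc, hPP]
  have hlt : ‖P - z‖ < 1 := by
    have h1 := corner_bound ((star y * y : S0) : L2 Om →L[ℂ] L2 Om) b (Pd γ₀ V) e t htpos
      (norm_Pd_le γ₀ V) hc hzb het
    exact h1
  exact top_of_mem J hJc hJ γ₀ n₀ x₀ (ideal_proj J hJc hJ P z hPP hz1 hPz hlt)

end Pool.Agent.V11110.ZN
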