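import Pool.Agent.V11110.ZN4

open scoped InnerProductSpace ComplexConjugate ENNReal
open Filter Topology

noncomputable section

namespace Pool.Agent.V11110.ZN

/-- The set of points whose first vanishing coordinate is the `m`th one. -/
def U (m : ℕ) : Set X := {x | (∀ j < m, x j ≠ 0) ∧ x m = 0}

theorem cyl_U (m : ℕ) : Cyl (m + 1) (U m) := by
  intro x x' hx
  have h1 : ∀ j < m, x j = x' j := fun j hj => hx j (by omega)
  have h2 : x m = x' m := hx m (by omega)
  constructor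
  · rintro ⟨h3, h4⟩
    exact ⟨fun j hj => by rw [← h1 j hj]; exact h3 j hj, by rw [← h2]; exact h4⟩
  · rintro ⟨h3, h4⟩
    exact ⟨fun j hj => by rw [h1 j hj]; exact h3 j hj, by rw [h2]; exact h4⟩

open Classical in
/-- Labels with finite support. -/
def lab (S : Finset ℕ) : Γ := fun j => decide (j ∈ S)

theorem exists_lab (x : X) (γ : Γ) (h : ∃ n, x n = 0) :
    ∃ (S : Finset ℕ) (m : ℕ), x ∈ U m ∧ tr x γ = tr x (lab S) := by
  classical
  set m := Nat.find h with hm
  refine ⟨(Finset.range m).filter (fun j => γ j = true), m, ⟨fun j hj => Nat.find_min h hj,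
    Nat.find_spec h⟩, ?_⟩
  rw [tr_eq_iff]
  intro j hj
  have hjm : j < m := by
    by_contra hcon
    exact hj m (not_lt.mp hcon) (Nat.find_spec h)
  unfold lab
  simp [Finset.mem_filter, hjm]

/-- Evaluation functional. -/
def evf (f : L2 Om) (w : Om) : (L2 Om →L[ℂ] L2 Om) →L[ℂ] ℂ :=
  (lp.evalCLM ℂ (fun _ : Om => ℂ) 2 w).comp (ContinuousLinearMap.apply ℂ (L2 Om) f)

theorem evf_apply (f : L2 Om) (w : Om) (a : L2 Om →L[ℂ] L2 Om) : evf f w a = a f w := rfl

theorem exists_inj : ∃ a : S0, star a = a ∧ ∀ y : S0, a * y = 0 → y = 0 := by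
  classical
  obtain ⟨F, hF⟩ := exists_surjective_nat (Finset ℕ × ℕ)
  have hs : Summable (fun n => ((1 / 2 : ℂ) ^ n) • Pd (lab (F n).1) (U (F n).2)) := by
    refine Summable.of_norm_bounded (g := fun k => (1 / 2 : ℝ) ^ k)
      (summable_geometric_of_lt_one (by norm_num) (by norm_num)) (fun k => ?_)
    rw [norm_smul, norm_pow]
    have : ‖(1 / 2 : ℂ)‖ = 1 / 2 := by norm_num
    rw [this]
    have h := norm_Pd_le (lab (F k).1) (U (F k).2)
    have h2 : (0 : ℝ) ≤ (1 / 2) ^ k := by positivity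
    nlinarith
  set A : L2 Om →L[ℂ] L2 Om := ∑' n, ((1 / 2 : ℂ) ^ n) • Pd (lab (F n).1) (U (F n).2) with hA
  have hmem : A ∈ S0 := by
    have h1 : A ∈ closure (S0 : Set (L2 Om →L[ℂ] L2 Om)) := by
      refine mem_closure_of_tendsto hs.hasSum (Eventually.of_forall (fun s => ?_))
      refine Sp_sub (Submodule.sum_mem _ (fun j _ => Submodule.smul_mem _ _ ?_))
      exact T_mem (cyl_U _)
    rwa [S0_closed.closure_eq] at h1
  have hstar : star A = A := by
    have h1 : HasSum (fun n => star (((1 / 2 : ℂ) ^ n) • Pd (lab (F n).1) (U (F n).2)))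
        (star A) := hs.hasSum.star
    have h2 : ∀ n, star (((1 / 2 : ℂ) ^ n) • Pd (lab (F n).1) (U (F n).2))
        = ((1 / 2 : ℂ) ^ n) • Pd (lab (F n).1) (U (F n).2) := by
      intro n
      rw [star_smul, star_Pd, star_pow]
      congr 2
      simp
    simp only [h2] at h1
    exact h1.unique hs.hasSum
  have happ : ∀ (f : L2 Om) (x : X) (γ : Γ), (∃ n, x n = 0) → A f (x, tr x γ) = 0 →
      f (x, tr x γ) = 0 := by
    intro f x γ hx hAf
    obtain ⟨S, m, hxm, hS⟩ := exists_lab x γ hx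
    obtain ⟨n₁, hn₁⟩ := hF (S, m)
    let cond : ℕ → Prop := fun n => x ∈ U (F n).2 ∧ tr x γ = tr x (lab (F n).1)
    have hc₁ : cond n₁ := by
      change x ∈ U (F n₁).2 ∧ tr x γ = tr x (lab (F n₁).1)
      rw [hn₁]; exact ⟨hxm, hS⟩
    have hsum1 : HasSum (fun n => ((1 / 2 : ℂ) ^ n) * (if cond n then f (x, tr x γ) else 0))
        (A f (x, tr x γ)) := by
      have h1 := hs.hasSum.mapL (evf f (x, tr x γ))
      have h2 : ∀ n, evf f (x, tr x γ) (((1 / 2 : ℂ) ^ n) • Pd (lab (F n).1) (U (F n).2))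
          = ((1 / 2 : ℂ) ^ n) * (if cond n then f (x, tr x γ) else 0) := by
        intro n
        rw [map_smul, evf_apply, Pd_apply, smul_eq_mul]
      simp only [h2] at h1
      exact h1
    have hreal : Summable (fun n => (1 / 2 : ℝ) ^ n * (if cond n then 1 else 0)) := by
      refine Summable.of_nonneg_of_le (fun n => ?_) (fun n => ?_)
        (summable_geometric_of_lt_one (r := (1 / 2 : ℝ)) (by norm_num) (by norm_num))
      · split_ifs <;> positivity
      · have h2 : (0 : ℝ) ≤ (1 / 2) ^ n := by positivity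
        split_ifs
        · rw [mul_one]
        · rw [mul_zero]; exact h2
    have hpos : 0 < ∑' n, (1 / 2 : ℝ) ^ n * (if cond n then 1 else 0) := by
      refine hreal.tsum_pos (fun n => ?_) n₁ ?_
      · split_ifs <;> positivity
      · rw [if_pos hc₁]; positivity
    have hsum2 : HasSum (fun n => ((1 / 2 : ℂ) ^ n) * (if cond n then f (x, tr x γ) else 0))
        (((∑' n, (1 / 2 : ℝ) ^ n * (if cond n then 1 else 0) : ℝ) : ℂ) * f (x, tr x γ)) := by
      have h1 := (Complex.hasSum_ofReal.mpr hreal.hasSum).mul_right (f (x, tr x γ))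
      have e : (fun n => ((1 / 2 : ℂ) ^ n) * (if cond n then f (x, tr x γ) else 0))
          = (fun n => (((1 / 2 : ℝ) ^ n * (if cond n then 1 else 0) : ℝ) : ℂ)
            * f (x, tr x γ)) := by
        funext n
        split_ifs <;> push_cast <;> ring
      rw [e]
      exact h1
    have h3 := hsum1.unique hsum2
    rw [hAf] at h3
    have h4 : (((∑' n, (1 / 2 : ℝ) ^ n * (if cond n then 1 else 0) : ℝ) : ℂ)) ≠ 0 := by
      exact_mod_cast hpos.ne'
    rcases mul_eq_zero.mp h3.symm with h5 | h5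
    · exact absurd h5 h4
    · exact h5
  refine ⟨⟨A, hmem⟩, Subtype.ext hstar, fun y hy => ?_⟩
  have hy1 : A * (y : L2 Om →L[ℂ] L2 Om) = 0 := congrArg Subtype.val hy
  have hrow : ∀ (x : X) (γ : Γ) (j : Om), (∃ n, x n = 0) →
      ent (y : L2 Om →L[ℂ] L2 Om) (x, tr x γ) j = 0 := by
    intro x γ j hx
    unfold ent
    apply happ _ x γ hx
    have h1 : (A * (y : L2 Om →L[ℂ] L2 Om)) (bv j) (x, tr x γ) = 0 := by rw [hy1]; rfl
    exact h1
  apply Subtype.ext
  apply ext_ent
  intro i j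
  by_contra hne
  obtain ⟨γ', hγ'⟩ := supp_col y.2 hne
  obtain ⟨γ, hγ⟩ := supp_row y.2 hne
  obtain ⟨x, s⟩ := j
  obtain ⟨x₁, s₁⟩ := i
  simp only at hγ hγ'
  subst hγ hγ'
  obtain ⟨g, rfl⟩ : ∃ g, x₁ = x + g := ⟨x₁ - x, by abel⟩
  have hpos : 0 < ‖ent (y : L2 Om →L[ℂ] L2 Om) (x + g, tr (x + g) γ) (x, tr x γ')‖ / 2 := by
    have := norm_pos_iff.mpr hne
    positivity
  obtain ⟨b, hb, hyb⟩ := dense y.2 hpos
  obtain ⟨n, hn⟩ := loc_const hb γ γ' g x
  set x' : X := Function.update x n (- g n) with hx'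
  have h1 := hn x' (fun j hj => by rw [hx', Function.update_of_ne hj.ne])
  have h2 : ent (y : L2 Om →L[ℂ] L2 Om) (x' + g, tr (x' + g) γ) (x', tr x' γ') = 0 := by
    apply hrow
    refine ⟨n, ?_⟩
    rw [Pi.add_apply, hx', Function.update_self, neg_add_cancel]
  have h3 := norm_ent_le ((y : L2 Om →L[ℂ] L2 Om) - b) (x' + g, tr (x' + g) γ) (x', tr x' γ')
  have h4 := norm_ent_le ((y : L2 Om →L[ℂ] L2 Om) - b) (x + g, tr (x + g) γ) (x, tr x γ')
  rw [ent_sub, h2, zero_sub, norm_neg, h1] at h3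
  rw [ent_sub] at h4
  have h5 := norm_sub_norm_le (ent (y : L2 Om →L[ℂ] L2 Om) (x + g, tr (x + g) γ) (x, tr x γ'))
    (ent b (x + g, tr (x + g) γ) (x, tr x γ'))
  linarith

end Pool.Agent.V11110.ZN
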