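import Pool.Agent.V11110.ZN5

open scoped InnerProductSpace ComplexConjugate ENNReal
open Filter Topology

noncomputable section

namespace Pool.Agent.V11110.ZN

/-- Points whose first `k` coordinates do not vanish. -/
def Cs (k : ℕ) : Set X := {x | ∀ j < k, x j ≠ 0}

theorem cyl_Cs (k : ℕ) : Cyl k (Cs k) := by
  intro x x' hx
  constructor
  · intro h j hj; rw [← hx j hj]; exact h j hj
  · intro h j hj; rw [hx j hj]; exact h j hj

theorem labels {b : L2 Om →L[ℂ] L2 Om} (hb : b ∈ Sp) : ∃ L : Set Γ, L.Countable ∧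
    ∀ γ ∉ L, ∃ k, b * Pd γ (Cs k) = 0 ∧ ∀ m ≥ k, b * Pd γ (Cs m) = 0 := by
  unfold Sp at hb
  induction hb using Submodule.span_induction with
  | mem a ha =>
    obtain ⟨γ₁, h, γ₂, W, m, hW, rfl⟩ := ha
    refine ⟨{γ₂}, Set.countable_singleton _, fun γ hγ => ?_⟩
    have hne : γ ≠ γ₂ := hγ
    obtain ⟨d, hd⟩ := Function.ne_iff.mp hne
    have key : ∀ m ≥ d + 1, T γ₁ h γ₂ W * Pd γ (Cs m) = 0 := by
      intro m hm
      unfold Pd
      rw [T_mul]
      apply T_empty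
      rw [Set.eq_empty_iff_forall_notMem]
      rintro x ⟨h1, -, h2⟩
      have h3 : tr (x + 0) γ₂ = tr (x + 0) γ := h2
      rw [add_zero, tr_eq_iff] at h3
      exact hd (h3 d (fun i hi => h1 i (by omega))).symm
    exact ⟨d + 1, key _ le_rfl, key⟩
  | zero => exact ⟨∅, Set.countable_empty, fun γ _ => ⟨0, zero_mul _, fun m _ => zero_mul _⟩⟩
  | add a b _ _ ha hb =>
    obtain ⟨L₁, hL₁, h₁⟩ := ha
    obtain ⟨L₂, hL₂, h₂⟩ := hb
    refine ⟨L₁ ∪ L₂, hL₁.union hL₂, fun γ hγ => ?_⟩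
    obtain ⟨k₁, -, hk₁⟩ := h₁ γ (fun h => hγ (Or.inl h))
    obtain ⟨k₂, -, hk₂⟩ := h₂ γ (fun h => hγ (Or.inr h))
    have key : ∀ m ≥ k₁ + k₂, (a + b) * Pd γ (Cs m) = 0 := by
      intro m hm
      rw [add_mul, hk₁ m (by omega), hk₂ m (by omega), add_zero]
    exact ⟨k₁ + k₂, key _ le_rfl, key⟩
  | smul c a _ ha =>
    obtain ⟨L₁, hL₁, h₁⟩ := ha
    refine ⟨L₁, hL₁, fun γ hγ => ?_⟩
    obtain ⟨k₁, -, hk₁⟩ := h₁ γ hγ
    have key : ∀ m ≥ k₁, (c • a) * Pd γ (Cs m) = 0 := by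
      intro m hm
      rw [smul_mul_assoc, hk₁ m hm, smul_zero]
    exact ⟨k₁, key _ le_rfl, key⟩

theorem exists_not_mem {L : Set Γ} (hL : L.Countable) : ∃ γ, γ ∉ L := by
  obtain ⟨e, he⟩ := (hL.insert (fun _ => false)).exists_eq_range ⟨_, Set.mem_insert _ _⟩
  refine ⟨fun j => !(e j j), fun hcon => ?_⟩
  have h1 : (fun j => !(e j j)) ∈ Set.range e := by
    rw [← he]; exact Set.mem_insert_of_mem _ hcon
  obtain ⟨k, hk⟩ := h1
  have h2 := congrFun hk k
  simp at h2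

section rep

universe u

variable {H : Type u} [NormedAddCommGroup H] [InnerProductSpace ℂ H] [CompleteSpace H]
  (π : S0 →⋆ₙₐ[ℂ] (H →L[ℂ] H))

theorem rep_norm (a : S0) : ‖π a‖ ≤ ‖a‖ := NonUnitalStarAlgHom.norm_apply_le π a

theorem rep_apply_le {a : S0} (ha : ‖a‖ ≤ 1) (ξ : H) : ‖π a ξ‖ ≤ ‖ξ‖ := by
  refine ((π a).le_opNorm ξ).trans ?_
  have h1 := (rep_norm π a).trans ha
  have h2 := norm_nonneg ξ
  nlinarith

theorem rep_mul (a b : S0) (ξ : H) : π (a * b) ξ = π a (π b ξ) := by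
  rw [map_mul]; rfl

theorem rep_proj_sq {q : S0} (hq : q * q = q) (hs : star q = q) (ξ : H) :
    ‖π q ξ‖ ^ 2 = (⟪ξ, π q ξ⟫_ℂ).re := by
  have h1 : ⟪π q ξ, π q ξ⟫_ℂ = ⟪ξ, π q ξ⟫_ℂ := by
    have h2 : ContinuousLinearMap.adjoint (π q) = π q := by
      rw [← ContinuousLinearMap.star_eq_adjoint, ← map_star, hs]
    rw [← ContinuousLinearMap.adjoint_inner_right (π q) ξ (π q ξ), h2, ← rep_mul, hq]
  rw [← h1, inner_self_eq_norm_sq_to_K]
  norm_cast

theorem tA_mul_self (γ : Γ) {V : Set X} {n : ℕ} (hV : Cyl n V) :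
    tA γ 0 γ hV * tA γ 0 γ hV = tA γ 0 γ hV := by
  apply Subtype.ext
  have h := Pd_mul γ V V
  rw [Set.inter_self] at h
  exact h

theorem star_tA (γ : Γ) {V : Set X} {n : ℕ} (hV : Cyl n V) :
    star (tA γ 0 γ hV) = tA γ 0 γ hV := by
  apply Subtype.ext
  exact star_Pd γ V

theorem norm_tA_le (γ₁ : Γ) (h : X) (γ₂ : Γ) {V : Set X} {n : ℕ} (hV : Cyl n V) :
    ‖tA γ₁ h γ₂ hV‖ ≤ 1 := norm_T_le _ _ _ _

theorem cyl_coord (k : ℕ) (c : ZMod (N k)) : Cyl (k + 1) {x | x k = c} := by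
  intro x x' hx
  simp only [Set.mem_ofPred_eq, hx k (Nat.lt_succ_self k)]

/-- One of the classes of a coordinate is small. -/
theorem exists_small (γ : Γ) (ξ : H) (k : ℕ) :
    ∃ c : ZMod (N k), ‖π (tA γ 0 γ (cyl_coord k c)) ξ‖ ≤ (1 / 2) ^ (k + 2) * ‖ξ‖ := by
  classical
  by_contra hcon
  push Not at hcon
  have hsum : (tA γ 0 γ cyl_univ : S0) = ∑ c : ZMod (N k), tA γ 0 γ (cyl_coord k c) := by
    apply Subtype.ext
    have h2 : ((∑ c : ZMod (N k), tA γ 0 γ (cyl_coord k c) : S0) :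
        L2 Om →L[ℂ] L2 Om) = ∑ c : ZMod (N k), T γ 0 γ {x | x k = c} := by
      push_cast
      rfl
    rw [h2]
    have h3 := T_split γ 0 γ Set.univ k
    simp only [Set.univ_inter] at h3
    exact h3
  have h1 : ∑ c : ZMod (N k), ‖π (tA γ 0 γ (cyl_coord k c)) ξ‖ ^ 2 ≤ ‖ξ‖ ^ 2 := by
    have h2 : ∀ c : ZMod (N k), ‖π (tA γ 0 γ (cyl_coord k c)) ξ‖ ^ 2
        = (⟪ξ, π (tA γ 0 γ (cyl_coord k c)) ξ⟫_ℂ).re := fun c =>
      rep_proj_sq π (tA_mul_self γ _) (star_tA γ _) ξ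
    simp only [h2]
    rw [← Complex.re_sum, ← inner_sum]
    have h3 : ∑ c : ZMod (N k), π (tA γ 0 γ (cyl_coord k c)) ξ = π (tA γ 0 γ cyl_univ) ξ := by
      rw [hsum, map_sum, sum_apply]
    rw [h3, ← rep_proj_sq π (tA_mul_self γ _) (star_tA γ _) ξ]
    have h4 := rep_apply_le π (norm_tA_le γ 0 γ cyl_univ) ξ
    exact pow_le_pow_left₀ (norm_nonneg _) h4 2
  have hN : (Fintype.card (ZMod (N k)) : ℝ) = 4 ^ (k + 2) := by
    rw [ZMod.card]; unfold N; push_cast; rfl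
  have hlt : ∀ c : ZMod (N k), ((1 / 2) ^ (k + 2) * ‖ξ‖) ^ 2
      < ‖π (tA γ 0 γ (cyl_coord k c)) ξ‖ ^ 2 := fun c =>
    pow_lt_pow_left₀ (hcon c) (by positivity) (by norm_num)
  have h5 : ∑ _c : ZMod (N k), ((1 / 2) ^ (k + 2) * ‖ξ‖) ^ 2
      < ∑ c : ZMod (N k), ‖π (tA γ 0 γ (cyl_coord k c)) ξ‖ ^ 2 :=
    Finset.sum_lt_sum_of_nonempty Finset.univ_nonempty (fun c _ => hlt c)
  rw [Finset.sum_const, Finset.card_univ, nsmul_eq_mul, hN] at h5
  have h6 : (4 : ℝ) ^ (k + 2) * ((1 / 2) ^ (k + 2) * ‖ξ‖) ^ 2 = ‖ξ‖ ^ 2 := by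
    rw [mul_pow, ← mul_assoc, ← pow_mul, mul_comm (k + 2) 2, pow_mul, ← mul_pow]
    norm_num
  rw [h6] at h5
  linarith

theorem cyl_W (k : ℕ) (g : X) : Cyl k {x | x + g ∈ Cs k} := (cyl_Cs k).shift g

/-- There is a vector fixed by all the projections onto shrinking sets, if the representation is
nonzero. -/
theorem exists_fixed (γ : Γ) (ξ₀ : H) (hξ : π (tA γ 0 γ cyl_univ) ξ₀ = ξ₀) (h0 : ξ₀ ≠ 0) :
    ∃ ξ : H, ξ ≠ 0 ∧ ∀ k, π (tA γ 0 γ (cyl_Cs k)) ξ = ξ := by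
  classical
  choose c hc using exists_small π γ ξ₀
  set g : X := fun k => - c k with hg
  set R : ℕ → S0 := fun k => tA γ 0 γ (cyl_W k g) with hR
  set v : ℕ → H := fun k => π (R k) ξ₀ with hv
  have hpos : 0 < ‖ξ₀‖ := norm_pos_iff.mpr h0
  have hW0 : ({x | x + g ∈ Cs 0} : Set X) = Set.univ := by
    ext x; simp [Cs]
  have hR0 : R 0 = tA γ 0 γ cyl_univ := by
    apply Subtype.ext
    change T γ 0 γ {x | x + g ∈ Cs 0} = T γ 0 γ Set.univ
    rw [hW0]
  have hv0 : v 0 = ξ₀ := by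
    change π (R 0) ξ₀ = ξ₀
    rw [hR0, hξ]
  have hRR : ∀ k m, k ≤ m → R k * R m = R m := by
    intro k m hkm
    apply Subtype.ext
    change Pd γ {x | x + g ∈ Cs k} * Pd γ {x | x + g ∈ Cs m} = Pd γ {x | x + g ∈ Cs m}
    rw [Pd_mul]
    congr 1
    apply Set.inter_eq_right.mpr
    intro x hx j hj
    exact hx j (hj.trans_le hkm)
  have hdiff : ∀ k, R k = R (k + 1) + R k * tA γ 0 γ (cyl_coord k (c k)) := by
    intro k
    apply Subtype.ext
    change Pd γ {x | x + g ∈ Cs k} = Pd γ {x | x + g ∈ Cs (k + 1)} +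
      Pd γ {x | x + g ∈ Cs k} * Pd γ {x | x k = c k}
    rw [Pd_mul]
    apply ext_apply
    intro f w
    have e1 : (Pd γ {x | x + g ∈ Cs (k + 1)} + Pd γ ({x | x + g ∈ Cs k} ∩ {x | x k = c k})) f w
        = Pd γ {x | x + g ∈ Cs (k + 1)} f w
          + Pd γ ({x | x + g ∈ Cs k} ∩ {x | x k = c k}) f w := rfl
    rw [e1, Pd_apply, Pd_apply, Pd_apply]
    have e2 : (w.1 + g ∈ Cs (k + 1)) ↔ (w.1 + g ∈ Cs k ∧ w.1 k ≠ c k) := by
      constructor
      · intro h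
        refine ⟨fun j hj => h j (by omega), fun h2 => ?_⟩
        have h3 := h k (by omega)
        rw [Pi.add_apply, h2, hg] at h3
        simp at h3
      · rintro ⟨h1, h2⟩ j hj
        rcases Nat.lt_succ_iff_lt_or_eq.mp hj with h | h
        · exact h1 j h
        · subst h
          rw [Pi.add_apply, hg]
          intro h3
          apply h2
          have h4 : w.1 j + -c j = 0 := h3
          linear_combination h4
    simp only [Set.mem_inter_iff, Set.mem_ofPred_eq, e2]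
    by_cases h1 : w.1 + g ∈ Cs k <;> by_cases h2 : w.1 k = c k <;> by_cases h3 : w.2 = tr w.1 γ <;>
      simp [h1, h2, h3]
  have hstep : ∀ k, dist (v k) (v (k + 1)) ≤ (1 / 4 * ‖ξ₀‖) * (1 / 2) ^ k := by
    intro k
    have h1 : v k - v (k + 1) = π (R k) (π (tA γ 0 γ (cyl_coord k (c k))) ξ₀) := by
      have h2 : π (R k) ξ₀ = π (R (k + 1)) ξ₀ + π (R k * tA γ 0 γ (cyl_coord k (c k))) ξ₀ := by
        conv_lhs => rw [hdiff k]
        rw [map_add]; rfl
      change π (R k) ξ₀ - π (R (k + 1)) ξ₀ = _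
      rw [h2, add_sub_cancel_left, rep_mul]
    rw [dist_eq_norm, h1]
    refine (rep_apply_le π (norm_tA_le γ 0 γ _) _).trans ((hc k).trans (le_of_eq ?_))
    rw [pow_add]; ring
  have hcauchy := cauchySeq_of_le_geometric (1 / 2) (1 / 4 * ‖ξ₀‖) (by norm_num) hstep
  obtain ⟨ζ, hζ⟩ := cauchySeq_tendsto_of_complete hcauchy
  have hdist := dist_le_of_le_geometric_of_tendsto₀ (1 / 2) (1 / 4 * ‖ξ₀‖) (by norm_num) hstep hζ
  have hζ0 : ζ ≠ 0 := by
    intro h
    rw [hv0, h, dist_zero_right] at hdist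
    have h9 : 1 / 4 * ‖ξ₀‖ / (1 - 1 / 2) = ‖ξ₀‖ / 2 := by ring
    rw [h9] at hdist
    linarith
  have hfix : ∀ k, π (R k) ζ = ζ := by
    intro k
    have h1 : Tendsto (fun m => π (R k) (v m)) atTop (𝓝 (π (R k) ζ)) :=
      ((π (R k)).continuous.tendsto ζ).comp hζ
    have h2 : Tendsto (fun m => π (R k) (v m)) atTop (𝓝 ζ) := by
      refine hζ.congr' ?_
      filter_upwards [eventually_ge_atTop k] with m hm
      change π (R m) ξ₀ = π (R k) (π (R m) ξ₀)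
      rw [← rep_mul, hRR k m hm]
    exact tendsto_nhds_unique h1 h2
  set u : S0 := tA γ g γ cyl_univ with hu
  have hPu : ∀ k, tA γ 0 γ (cyl_Cs k) * u = u * R k := by
    intro k
    apply Subtype.ext
    change Pd γ (Cs k) * T γ g γ Set.univ = T γ g γ Set.univ * Pd γ {x | x + g ∈ Cs k}
    apply ext_apply
    intro f w
    have e1 : (Pd γ (Cs k) * T γ g γ Set.univ) f w = Pd γ (Cs k) (T γ g γ Set.univ f) w := rfl
    have e2 : (T γ g γ Set.univ * Pd γ {x | x + g ∈ Cs k}) f w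
        = T γ g γ Set.univ (Pd γ {x | x + g ∈ Cs k} f) w := rfl
    rw [e1, e2, Pd_apply, T_apply, T_apply, Pd_apply]
    simp only [Set.mem_univ, true_and, Set.mem_ofPred_eq, sub_add_cancel, and_true]
    by_cases h1 : w.1 ∈ Cs k <;> by_cases h2 : w.2 = tr w.1 γ <;> simp [h1, h2]
  have huu : star u * u = tA γ 0 γ cyl_univ := by
    apply Subtype.ext
    change star (T γ g γ Set.univ) * T γ g γ Set.univ = T γ 0 γ Set.univ
    rw [star_T, T_mul]
    simp
  refine ⟨π u ζ, ?_, fun k => ?_⟩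
  · intro h
    apply hζ0
    have h1 : π (star u * u) ζ = ζ := by
      rw [huu, ← hR0, hfix 0]
    rw [← h1, rep_mul, h, map_zero]
  · rw [← rep_mul, hPu, rep_mul, hfix k]

theorem kernel [Nontrivial H] (a : S0) : ∃ ξ : H, ξ ≠ 0 ∧ π a ξ = 0 := by
  classical
  have hb : ∀ n : ℕ, ∃ b ∈ Sp, ‖(a : L2 Om →L[ℂ] L2 Om) - b‖ < 1 / (n + 1 : ℝ) :=
    fun n => dense a.2 (by positivity)
  choose b hbS hab using hb
  have hL := fun n => labels (hbS n)
  choose L hLc hL using hL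
  obtain ⟨γ, hγ⟩ := exists_not_mem (Set.countable_iUnion hLc)
  by_cases hz : π (tA γ 0 γ cyl_univ) = 0
  · let J : Submodule ℂ S0 :=
      { carrier := {x | π x = 0}
        add_mem' := fun {x y} (hx : π x = 0) (hy : π y = 0) => by
          change π (x + y) = 0
          rw [map_add, hx, hy, add_zero]
        zero_mem' := map_zero π
        smul_mem' := fun c x (hx : π x = 0) => by
          change π (c • x) = 0
          rw [map_smul, hx, smul_zero] }
    have hker : IsClosed (J : Set S0) := by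
      have hcont : Continuous π :=
        AddMonoidHomClass.continuous_of_bound π 1 (fun x => by
          rw [one_mul]; exact rep_norm π x)
      exact isClosed_singleton.preimage hcont
    have htop : J = ⊤ := by
      refine top_of_mem J hker ?_ γ 0 0 ?_
      · intro x y hy
        have hy' : π y = 0 := hy
        constructor
        · change π (x * y) = 0
          rw [map_mul, hy', mul_zero]
        · change π (y * x) = 0
          rw [map_mul, hy', zero_mul]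
      · have h1 : tA γ 0 γ (cyl_ball 0 0) = tA γ 0 γ cyl_univ := by
          apply Subtype.ext
          change T γ 0 γ {x | ∀ j < 0, x j = (0 : X) j} = T γ 0 γ Set.univ
          congr 1
          ext x; simp
        change π (tA γ 0 γ (cyl_ball 0 0)) = 0
        rw [h1, hz]
    obtain ⟨ξ, hξ⟩ := exists_ne (0 : H)
    refine ⟨ξ, hξ, ?_⟩
    have h2 : a ∈ J := by rw [htop]; trivial
    have h3 : π a = 0 := h2
    rw [h3]; rfl
  · obtain ⟨η, hη⟩ : ∃ η, π (tA γ 0 γ cyl_univ) η ≠ 0 := by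
      by_contra hcon
      push Not at hcon
      exact hz (ContinuousLinearMap.ext hcon)
    obtain ⟨ξ, hξ0, hξ⟩ := exists_fixed π γ (π (tA γ 0 γ cyl_univ) η)
      (by rw [← rep_mul, tA_mul_self]) hη
    refine ⟨ξ, hξ0, ?_⟩
    have hbound : ∀ n : ℕ, ‖π a ξ‖ ≤ 1 / (n + 1 : ℝ) * ‖ξ‖ := by
      intro n
      obtain ⟨k, hk, -⟩ := hL n γ (fun h => hγ (Set.mem_iUnion.mpr ⟨n, h⟩))
      set B : S0 := ⟨b n, Sp_sub (hbS n)⟩ with hB
      have h1 : π B ξ = 0 := by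
        have h2 : B * tA γ 0 γ (cyl_Cs k) = 0 := Subtype.ext hk
        rw [← hξ k, ← rep_mul, h2, map_zero]; rfl
      have h3 : π a ξ = π (a - B) ξ := by
        rw [map_sub, sub_apply, h1, sub_zero]
      rw [h3]
      refine ((π (a - B)).le_opNorm ξ).trans ?_
      have h4 : ‖π (a - B)‖ ≤ 1 / (n + 1 : ℝ) := (rep_norm π _).trans (hab n).le
      exact mul_le_mul_of_nonneg_right h4 (norm_nonneg _)
    have hlim : Tendsto (fun n : ℕ => 1 / (n + 1 : ℝ) * ‖ξ‖) atTop (𝓝 (0 * ‖ξ‖)) :=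
      tendsto_one_div_add_atTop_nhds_zero_nat.mul_const _
    rw [zero_mul] at hlim
    have h5 : ‖π a ξ‖ ≤ 0 := ge_of_tendsto' hlim hbound
    exact norm_le_zero_iff.mp h5

end rep

end Pool.Agent.V11110.ZN
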